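import Mathlib
import Pool.Agent.MP_f3cd89_nt.SStm
import Pool.Agent.MP_f3cd89_nt.CStm

section

/-! Finite differences of products of complex powers. -/

set_option autoImplicit false

open Finset Filter Metric Topology

namespace Pool.Agent.MP_f3cd89_nt.AnaX

/-- continuations on discs glue to an entire function -/
theorem glue (g : ℂ → ℂ) (σ : ℝ) (v : ℂ)
    (h : ∀ R : ℕ, ∃ f : ℂ → ℂ, DifferentiableOn ℂ f (ball 0 R) ∧ f 0 = v ∧
      ∀ s ∈ ball (0 : ℂ) R, σ < s.re → f s = g s) :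
    ∃ f : ℂ → ℂ, Differentiable ℂ f ∧ f 0 = v ∧ ∀ s, σ < s.re → f s = g s := by
  choose F h1 h2 h3 using h
  obtain ⟨N, hN⟩ := exists_nat_gt (|σ| + 1)
  have key : ∀ R R' : ℕ, N ≤ R → R ≤ R' → Set.EqOn (F R) (F R') (ball 0 R) := fun R R' a b => by
    have hs : ball (0 : ℂ) R ⊆ ball 0 R' := ball_subset_ball (Nat.cast_le.2 b)
    have hp : ((|σ| + 1 : ℝ) : ℂ) ∈ ball (0 : ℂ) R := by
      rw [mem_ball_zero_iff, Complex.norm_real, Real.norm_of_nonneg (by positivity)]
      exact hN.trans_le (Nat.cast_le.2 a)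
    refine ((h1 R).analyticOnNhd isOpen_ball).eqOn_of_preconnected_of_eventuallyEq
      (((h1 R').mono hs).analyticOnNhd isOpen_ball) (convex_ball _ _).isPreconnected hp ?_
    have ho : {s : ℂ | σ < s.re} ∈ 𝓝 ((|σ| + 1 : ℝ) : ℂ) :=
      (isOpen_lt continuous_const Complex.continuous_re).mem_nhds
        ((le_abs_self σ).trans_lt (lt_add_one _))
    filter_upwards [isOpen_ball.mem_nhds hp, ho] with s a b
    rw [h3 R s a b, h3 R' s (hs a) b]
  have hm : ∀ s : ℂ, s ∈ ball (0 : ℂ) (N + ⌈‖s‖⌉₊ : ℕ) := fun s => by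
    rw [mem_ball_zero_iff, Nat.cast_add]
    have := Nat.le_ceil ‖s‖
    have := abs_nonneg σ
    linarith
  refine ⟨fun s => F (N + ⌈‖s‖⌉₊) s, fun s => ?_, h2 _, fun s hs => h3 _ s (hm s) hs⟩
  refine ((h1 _).differentiableAt (isOpen_ball.mem_nhds (hm s))).congr_of_eventuallyEq ?_
  filter_upwards [isOpen_ball.mem_nhds (hm s)] with t ht
  rcases le_total (N + ⌈‖t‖⌉₊) (N + ⌈‖s‖⌉₊) with h | h
  · exact key _ _ (Nat.le_add_right _ _) h (hm t)
  · exact (key _ _ (Nat.le_add_right _ _) h ht).symm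

/-- the weights are summable -/
theorem summable_w (κ : Type) [Fintype κ] : Summable fun n : κ → ℕ =>
    Real.exp (-(2 * Fintype.card κ : ℝ) * Real.log (1 + ∑ a, (n a : ℝ))) := by
  classical
  let g : ℕ → ℝ := fun m => Real.exp (-2 * Real.log (1 + m))
  have hg : Summable g := by
    refine ((summable_nat_add_iff 1).2 (Real.summable_nat_pow_inv.2 one_lt_two)).congr fun m => ?_
    have : (0 : ℝ) < 1 + m := by positivity
    rw [show g m = Real.exp (-(Real.log ((1 + m) ^ 2))) by simp only [g, Real.log_pow]; ring_nf,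
      Real.exp_neg, Real.exp_log (by positivity), Nat.cast_add, Nat.cast_one, add_comm]
  have h0 : ∀ m, 0 ≤ g m := fun m => (Real.exp_pos _).le
  have h1 : Summable fun n : κ → ℕ => ∏ a, g (n a) := by
    refine summable_of_sum_le (c := ∏ _a : κ, ∑' m, g m) (fun n => prod_nonneg fun a _ => h0 _)
      fun S => ?_
    refine (sum_le_sum_of_subset_of_nonneg (t := Fintype.piFinset fun a => S.image (· a))
      (fun n hn => Fintype.mem_piFinset.2 fun a => mem_image_of_mem _ hn)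
      fun n _ _ => prod_nonneg fun a _ => h0 _).trans ?_
    rw [← prod_univ_sum (fun a => S.image (· a)) fun _ m => g m]
    exact prod_le_prod (fun a _ => sum_nonneg fun m _ => h0 m)
      fun a _ => hg.sum_le_tsum _ fun m _ => h0 m
  refine h1.of_nonneg_of_le (fun n => (Real.exp_pos _).le) fun n => ?_
  rw [← Real.exp_sum, Real.exp_le_exp, show -(2 * Fintype.card κ : ℝ) *
    Real.log (1 + ∑ a, (n a : ℝ)) = ∑ _a : κ, -2 * Real.log (1 + ∑ a, (n a : ℝ)) by simp; ring]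
  refine sum_le_sum fun a _ => ?_
  have := Real.log_le_log (by positivity : (0 : ℝ) < 1 + n a) (add_le_add_right
    (single_le_sum (f := fun a => (n a : ℝ)) (fun a _ => Nat.cast_nonneg _) (mem_univ a)) 1)
  linarith

variable {ι : Type} [Fintype ι]

/-- the product of the powers `X i ^ (-(s + k i))` -/
noncomputable def mo (k : ι → ℕ) (X : ι → ℝ) (s : ℂ) : ℂ :=
  Complex.exp (-∑ i, (s + k i) * (Real.log (X i) : ℝ))

/-- iterated differences in the direction `v` -/
noncomputable def D (v : ι → ℝ) (k : ι → ℕ) : ℕ → (ι → ℝ) → ℂ → ℂ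
  | 0, X, s => mo k X s
  | r + 1, X, s => D v k r (X + v) s - D v k r X s

theorem mo_eq {X : ι → ℝ} (hX : ∀ i, 0 < X i) (s : ℂ) :
    mo 0 X s = ((∏ i, X i : ℝ) : ℂ) ^ (-s) := by
  have h : 0 < ∏ i, X i := prod_pos fun i _ => hX i
  rw [Complex.cpow_def_of_ne_zero (Complex.ofReal_ne_zero.2 h.ne'), ← Complex.ofReal_log h.le,
    Real.log_prod fun i _ => (hX i).ne', mo]
  simp only [Pi.zero_apply, Nat.cast_zero, add_zero, ← mul_sum, Complex.ofReal_sum]
  ring_nf

theorem D_diff (v : ι → ℝ) (k : ι → ℕ) (r : ℕ) : ∀ X, Differentiable ℂ (D v k r X) := by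
  induction r with
  | zero => intro X; change Differentiable ℂ fun s => Complex.exp _; fun_prop
  | succ r ih => exact fun X => (ih _).sub (ih _)

theorem D_zero (v : ι → ℝ) (r : ℕ) : ∀ X, D v 0 r X 0 = if r = 0 then 1 else 0 := by
  induction r with
  | zero => intro X; simp [D, mo]
  | succ r ih => intro X; simp [D, ih]

variable [DecidableEq ι]

theorem mo_succ (k : ι → ℕ) {X : ι → ℝ} {i : ι} (h : 0 < X i) (s : ℂ) :
    mo (k + Pi.single i 1) X s = mo k X s / X i := by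
  have e : ∑ j, (s + (k + Pi.single i 1 : ι → ℕ) j) * (Real.log (X j) : ℝ) =
      ∑ j, (s + k j) * (Real.log (X j) : ℝ) + (Real.log (X i) : ℝ) := by
    simp [Pi.single_apply, ← add_assoc, add_mul, sum_add_distrib]
  rw [mo, e, neg_add', Complex.exp_sub, ← Complex.ofReal_exp, Real.exp_log h, mo]

theorem D_deriv {v : ι → ℝ} (hv : ∀ i, 0 ≤ v i) (k : ι → ℕ) (s : ℂ) (τ : ℝ) (r : ℕ) :
    ∀ X : ι → ℝ, (∀ i, 0 < (X + τ • v) i) → HasDerivAt (fun t : ℝ => D v k r (X + t • v) s)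
      (-∑ i, (s + k i) * v i * D v (k + Pi.single i 1) r (X + τ • v) s) τ := by
  induction r with
  | zero =>
    intro X hX
    have h1 : ∀ i, HasDerivAt (fun t : ℝ => (s + k i) * (Real.log ((X + t • v) i) : ℝ))
        ((s + k i) * (v i / (X + τ • v) i : ℝ)) τ := fun i => by
      have h2 : HasDerivAt (fun t : ℝ => (X + t • v) i) (v i) τ := by
        simpa using ((hasDerivAt_id τ).mul_const (v i)).const_add (X i)
      exact (h2.log (hX i).ne').ofReal_comp.const_mul _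
    refine (HasDerivAt.fun_sum fun i (_ : i ∈ univ) => h1 i).fun_neg.cexp.congr_deriv ?_
    rw [mul_neg, mul_sum, neg_inj]
    refine sum_congr rfl fun i _ => ?_
    rw [D, mo_succ k (hX i), mo, Complex.ofReal_div]
    ring
  | succ r ih =>
    intro X hX
    have h1 := (ih (X + v) fun i => by
      rw [add_right_comm]; exact add_pos_of_pos_of_nonneg (hX i) (hv i)).fun_sub (ih X hX)
    simp only [add_right_comm X v] at h1
    refine h1.congr_deriv ?_
    simp only [D, mul_sub, sum_sub_distrib]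
    ring

theorem D_bound {v : ι → ℝ} (hv : ∀ i, 0 ≤ v i) (R r : ℕ) : ∀ (k : ι → ℕ) (A : ℝ), 1 ≤ A →
    ∃ C, 0 ≤ C ∧ ∀ W : ℝ, 1 ≤ W → ∀ X : ι → ℝ, (∀ i, W ≤ A * X i ∧ X i ≤ A * W) →
      ∀ s : ℂ, ‖s‖ ≤ R → ‖D v k r X s‖ ≤
        C * Real.exp (-(Fintype.card ι * s.re + ∑ i, (k i : ℝ) + r) * Real.log W) := by
  have hpos : ∀ {A W y : ℝ}, 1 ≤ A → 1 ≤ W → W ≤ A * y → 0 < y := fun hA hW h => by
    by_contra hy
    nlinarith [not_lt.1 hy]
  induction r with
  | zero =>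
    intro k A hA
    refine ⟨Real.exp (∑ i, ((R : ℝ) + k i) * Real.log A), (Real.exp_pos _).le,
      fun W hW X hX s hs => ?_⟩
    rw [D, mo, Complex.norm_exp, ← Real.exp_add, Real.exp_le_exp, Complex.neg_re, Complex.re_sum,
      show -(Fintype.card ι * s.re + ∑ i, (k i : ℝ) + (0 : ℕ)) * Real.log W =
        ∑ i, -((s.re + k i) * Real.log W) by simp [sum_add_distrib, ← sum_mul]; ring,
      ← sum_add_distrib, ← sum_neg_distrib]
    refine sum_le_sum fun i _ => ?_
    have h0 := hpos hA hW (hX i).1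
    have h1 := Real.log_le_log (by linarith) (hX i).1
    have h2 := Real.log_le_log h0 (hX i).2
    rw [Real.log_mul (by linarith) h0.ne'] at h1
    rw [Real.log_mul (by linarith) (by linarith)] at h2
    have h3 : |s.re + k i| ≤ R + k i := (abs_add_le _ _).trans
      (add_le_add ((Complex.abs_re_le_norm s).trans hs) (Nat.abs_cast _).le)
    have h4 : |Real.log W - Real.log (X i)| ≤ Real.log A := abs_le.2 ⟨by linarith, by linarith⟩
    have h5 := (le_abs_self _).trans ((abs_mul _ _).le.trans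
      (mul_le_mul h3 h4 (abs_nonneg _) (by positivity)))
    simp only [Complex.re_mul_ofReal, Complex.add_re, Complex.natCast_re]
    linarith
  | succ r ih =>
    intro k A hA
    have hV : 0 ≤ ∑ i, v i := sum_nonneg fun i _ => hv i
    choose C C0 hC using fun i => ih (k + Pi.single i 1) (A + ∑ i, v i) (by linarith)
    refine ⟨∑ i, ((R : ℝ) + k i) * v i * C i,
      sum_nonneg fun i _ => mul_nonneg (mul_nonneg (by positivity) (hv i)) (C0 i),
      fun W hW X hX s hs => ?_⟩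
    have hp : ∀ t ∈ Set.Icc (0 : ℝ) 1, ∀ i, 0 < (X + t • v) i := fun t ht i =>
      add_pos_of_pos_of_nonneg (hpos hA hW (hX i).1) (mul_nonneg ht.1 (hv i))
    have := norm_image_sub_le_of_norm_deriv_le_segment_01'
      (C := (∑ i, ((R : ℝ) + k i) * v i * C i) *
        Real.exp (-(Fintype.card ι * s.re + ∑ i, (k i : ℝ) + (r + 1 : ℕ)) * Real.log W))
      (fun t ht => (D_deriv hv k s t r X (hp t ht)).hasDerivWithinAt) fun t ht => by
        rw [norm_neg, sum_mul]
        refine norm_sum_le_of_le _ fun i _ => ?_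
        have h1 := hC i W hW (X + t • v) (fun j => by
          have a1 := hp t (Set.Ico_subset_Icc_self ht) j
          have a2 : v j ≤ ∑ i, v i := single_le_sum (fun i _ => hv i) (mem_univ j)
          have a3 := mul_nonneg ht.1 (hv j)
          have a4 := mul_le_of_le_one_left (hv j) ht.2.le
          have a5 := hX j
          simp only [Pi.add_apply, Pi.smul_apply, smul_eq_mul] at a1 ⊢
          constructor <;> nlinarith) s hs
        rw [add_assoc, show ∑ j, ((k + Pi.single i 1 : ι → ℕ) j : ℝ) + r =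
          ∑ j, (k j : ℝ) + (r + 1 : ℕ) by simp [Pi.single_apply, sum_add_distrib]; ring,
          ← add_assoc] at h1
        rw [norm_mul, norm_mul, mul_assoc _ (C i), Complex.norm_real, Real.norm_of_nonneg (hv i)]
        refine mul_le_mul (mul_le_mul_of_nonneg_right ((norm_add_le _ _).trans ?_) (hv i)) h1
          (norm_nonneg _) (mul_nonneg (by positivity) (hv i))
        rw [Complex.norm_natCast]
        exact add_le_add hs le_rfl
    simpa only [one_smul, zero_smul, add_zero, D] using this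

end Pool.Agent.MP_f3cd89_nt.AnaX

end

section

/-! Continuation of the twisted zeta function of a cone. -/

set_option autoImplicit false
set_option linter.unusedSectionVars false

open Finset Filter Metric Topology

namespace Pool.Agent.MP_f3cd89_nt

namespace AnaX

variable {ι κ : Type} [Fintype ι] [Fintype κ]

/-- the points of the cone -/
def pt (u : κ → ι → ℝ) (x : ι → ℝ) (n : κ → ℕ) : ι → ℝ := fun i => x i + ∑ a, (n a : ℝ) * u a i

theorem pt_add (u : κ → ι → ℝ) (x v : ι → ℝ) (n : κ → ℕ) : pt u (x + v) n = pt u x n + v :=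
  funext fun _ => add_right_comm _ _ _

theorem pt_succ [DecidableEq κ] (u : κ → ι → ℝ) (x : ι → ℝ) (n : κ → ℕ) (b : κ) :
    pt u x (n + Pi.single b 1) = pt u x n + u b :=
  funext fun i => by simp [pt, Pi.single_apply, add_mul, sum_add_distrib, add_assoc]

theorem term_bound {u : κ → ι → ℝ} (hu : ∀ a i, 0 < u a i) {x : ι → ℝ} (hx : ∀ i, 0 < x i)
    {z : κ → ℂ} (hz : ∀ a, ‖z a‖ ≤ 1) {v : ι → ℝ} (hv : ∀ i, 0 ≤ v i) (R r : ℕ) :
    ∃ w : (κ → ℕ) → ℝ, Summable w ∧ ∀ n (s : ℂ), ‖s‖ ≤ R →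
      (2 * Fintype.card κ : ℝ) ≤ Fintype.card ι * s.re + r →
      ‖(∏ a, z a ^ n a) * D v 0 r (pt u x n) s‖ ≤ w n := by
  classical
  obtain ⟨A, hA, h1, h2⟩ : ∃ A : ℝ, 1 ≤ A ∧ (∀ i, x i ≤ A ∧ (x i)⁻¹ ≤ A) ∧
      ∀ a i, u a i ≤ A ∧ (u a i)⁻¹ ≤ A := by
    refine Eventually.exists (f := atTop) ?_
    simp only [eventually_and, eventually_all]
    exact ⟨eventually_ge_atTop _, fun i => ⟨eventually_ge_atTop _, eventually_ge_atTop _⟩,
      fun a i => ⟨eventually_ge_atTop _, eventually_ge_atTop _⟩⟩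
  obtain ⟨C, C0, hC⟩ := D_bound hv R r 0 A hA
  refine ⟨_, (summable_w κ).mul_left C, fun n s hs h => ?_⟩
  have hW : (1 : ℝ) ≤ 1 + ∑ a, (n a : ℝ) := le_add_of_nonneg_right (by positivity)
  have h3 := hC _ hW (pt u x n) (fun i => by
    simp only [pt, mul_add, mul_sum, mul_one]
    refine ⟨add_le_add ((inv_le_iff_one_le_mul₀ (hx i)).1 (h1 i).2) (sum_le_sum fun a _ => ?_),
      add_le_add (h1 i).1 (sum_le_sum fun a _ => ?_)⟩
    · rw [mul_left_comm]
      exact le_mul_of_one_le_right (Nat.cast_nonneg _)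
        ((inv_le_iff_one_le_mul₀ (hu a i)).1 (h2 a i).2)
    · rw [mul_comm A]
      exact mul_le_mul_of_nonneg_left (h2 a i).1 (Nat.cast_nonneg _)) s hs
  rw [norm_mul, norm_prod]
  refine (mul_le_of_le_one_left (norm_nonneg _) (prod_le_one (fun a _ => norm_nonneg _)
    fun a _ => (norm_pow_le _ _).trans (pow_le_one₀ (norm_nonneg _) (hz a)))).trans (h3.trans ?_)
  refine mul_le_mul_of_nonneg_left (Real.exp_le_exp.2
    (mul_le_mul_of_nonneg_right ?_ (Real.log_nonneg hW))) C0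
  simpa using h

theorem abel [DecidableEq κ] (z : κ → ℂ) (b : κ) (F : (κ → ℕ) → ℂ) {T B T' : ℂ}
    (hT : HasSum (fun n => (∏ a, z a ^ n a) * F n) T)
    (hB : HasSum (fun n => (∏ a, Function.update z b 0 a ^ n a) * F n) B)
    (hT' : HasSum (fun n => (∏ a, z a ^ n a) * (F (n + Pi.single b 1) - F n)) T') :
    (1 - z b) * T = B + z b * T' := by
  have h1 := (Function.Injective.hasSum_iff (add_left_injective (Pi.single b 1 : κ → ℕ))
    fun n hn => by
      have h0 : n b = 0 := by_contra fun h => hn ⟨n - Pi.single b 1, tsub_add_cancel_of_le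
        fun a => by
          by_cases e : a = b
          · rw [e, Pi.single_eq_same]
            exact Nat.pos_of_ne_zero h
          · rw [Pi.single_eq_of_ne e]
            exact Nat.zero_le _⟩
      refine sub_eq_zero.2 (congrArg (· * F n) (prod_congr rfl fun a _ => ?_))
      by_cases h : a = b
      · rw [h, h0, pow_zero, pow_zero]
      · rw [Function.update_of_ne h]).2 (hT.sub hB)
  have h2 := (hT'.add hT).mul_left (z b)
  have h3 : T - B = z b * (T' + T) := h1.unique (h2.congr fun S => sum_congr rfl fun n _ => by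
    have e1 : ∏ a, Function.update z b 0 a ^ (n + Pi.single b 1 : κ → ℕ) a = 0 :=
      prod_eq_zero (mem_univ b) (by simp)
    have e2 : ∏ a, z a ^ (n + Pi.single b 1 : κ → ℕ) a = (∏ a, z a ^ n a) * z b := by
      simp only [Pi.add_apply, pow_add, prod_mul_distrib]
      simp [Pi.single_apply]
    simp only [Function.comp_apply, e1, e2]
    ring)
  linear_combination h3

theorem main [Nonempty ι] {u : κ → ι → ℝ} (hu : ∀ a i, 0 < u a i) (S : Finset κ) :
    ∀ z : κ → ℂ, (∀ a, ‖z a‖ ≤ 1 ∧ z a ≠ 1) → (∀ a ∉ S, z a = 0) → ∀ x : ι → ℝ, (∀ i, 0 < x i) →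
      ∃ f : ℂ → ℂ, Differentiable ℂ f ∧ f 0 = ∏ a, (1 - z a)⁻¹ ∧
        ∀ s : ℂ, (2 * Fintype.card κ : ℝ) < s.re →
          HasSum (fun n : κ → ℕ => (∏ a, z a ^ n a) * mo 0 (pt u x n) s) (f s) := by
  classical
  induction S using Finset.induction_on with
  | empty =>
    intro z _ hz x _
    obtain rfl : z = 0 := funext fun a => hz a (notMem_empty a)
    refine ⟨mo 0 (pt u x 0), D_diff 0 0 0 _, by simp [mo], fun s _ => ?_⟩
    have := hasSum_single (f := fun n : κ → ℕ => (∏ a, (0 : κ → ℂ) a ^ n a) * mo 0 (pt u x n) s) 0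
      fun n hn => by
        obtain ⟨a, ha⟩ := Function.ne_iff.1 hn
        rw [prod_eq_zero (mem_univ a) (zero_pow ha), zero_mul]
    simpa using this
  | insert b S _ ih =>
    intro z hz hS x hx
    have hv : ∀ i, 0 ≤ u b i := fun i => (hu b i).le
    have hz1 : 1 - z b ≠ 0 := sub_ne_zero.2 (hz b).2.symm
    replace ih := ih (Function.update z b 0) (fun a => by
      by_cases h : a = b
      · simp [h]
      · rw [Function.update_of_ne h]; exact hz a) fun a ha => by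
      by_cases h : a = b
      · simp [h]
      · rw [Function.update_of_ne h]; exact hS a (by simp [h, ha])
    generalize hV : ∏ a, (1 - Function.update z b 0 a)⁻¹ = V at ih
    have hB : ∀ (r : ℕ) (y : ι → ℝ), (∀ i, 0 < y i) → ∃ f : ℂ → ℂ, Differentiable ℂ f ∧
        f 0 = (if r = 0 then V else 0) ∧ ∀ s : ℂ, (2 * Fintype.card κ : ℝ) < s.re →
        HasSum (fun n : κ → ℕ => (∏ a, Function.update z b 0 a ^ n a) *
          D (u b) 0 r (pt u y n) s) (f s) := fun r => by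
      induction r with
      | zero => exact ih
      | succ r ihr =>
        intro y hy
        obtain ⟨f, f1, f2, f3⟩ := ihr (y + u b) fun i => add_pos (hy i) (hu b i)
        obtain ⟨g, g1, g2, g3⟩ := ihr y hy
        refine ⟨f - g, f1.sub g1, by simp [f2, g2], fun s hs => ?_⟩
        simpa only [D, mul_sub, pt_add, Pi.sub_apply] using (f3 s hs).sub (g3 s hs)
    choose B B1 B2 B3 using fun r => hB r x hx
    have hd : (1 : ℝ) ≤ Fintype.card ι := Nat.one_le_cast.2 Fintype.card_pos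
    have hsum : ∀ (r : ℕ) (s : ℂ), (2 * Fintype.card κ : ℝ) < s.re →
        Summable fun n : κ → ℕ => (∏ a, z a ^ n a) * D (u b) 0 r (pt u x n) s := fun r s hs => by
      obtain ⟨w, hw, h⟩ := term_bound hu hx (fun a => (hz a).1) hv ⌈‖s‖⌉₊ r
      refine hw.of_norm_bounded fun n => h n s (Nat.le_ceil _) ?_
      have : (0 : ℝ) ≤ Fintype.card κ := Nat.cast_nonneg _
      have : (0 : ℝ) ≤ r := Nat.cast_nonneg _
      nlinarith
    have hloc : ∀ R j r : ℕ, Fintype.card ι * R + 2 * Fintype.card κ + 1 ≤ r + j →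
        ∃ f : ℂ → ℂ, DifferentiableOn ℂ f (ball 0 R) ∧
          f 0 = (1 - z b)⁻¹ * (if r = 0 then V else 0) ∧ ∀ s ∈ ball (0 : ℂ) R,
          (2 * Fintype.card κ : ℝ) < s.re →
          f s = ∑' n : κ → ℕ, (∏ a, z a ^ n a) * D (u b) 0 r (pt u x n) s := fun R j => by
      induction j with
      | zero =>
        intro r hr
        obtain ⟨w, hw, h⟩ := term_bound hu hx (fun a => (hz a).1) hv R r
        refine ⟨_, Complex.differentiableOn_tsum_of_summable_norm hw
          (fun n => ((D_diff _ _ _ _).const_mul _).differentiableOn) isOpen_ball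
          fun n s hs => h n s (mem_ball_zero_iff.1 hs).le ?_, ?_, fun _ _ _ => rfl⟩
        · have h1 : (Fintype.card ι * R + 2 * Fintype.card κ + 1 : ℝ) ≤ r := by exact_mod_cast hr
          have h2 := (abs_le.1 ((Complex.abs_re_le_norm s).trans (mem_ball_zero_iff.1 hs).le)).1
          nlinarith
        · simp [D_zero, show r ≠ 0 by omega]
      | succ j ihj =>
        intro r hr
        obtain ⟨f, f1, f2, f3⟩ := ihj (r + 1) (by omega)
        refine ⟨fun s => (1 - z b)⁻¹ * (B r s + z b * f s),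
          ((B1 r).differentiableOn.add (f1.const_mul _)).const_mul _, by simp [f2, B2],
          fun s h1 h2 => ?_⟩
        beta_reduce
        rw [f3 s h1 h2, inv_mul_eq_iff_eq_mul₀ hz1]
        refine (abel z b _ (hsum r s h2).hasSum (B3 r s h2) ?_).symm
        simpa only [pt_succ, D] using (hsum (r + 1) s h2).hasSum
    obtain ⟨f, f1, f2, f3⟩ := glue _ _ _ fun R => hloc R _ 0 (zero_add _).ge
    refine ⟨f, f1, ?_, fun s hs => f3 s hs ▸ (hsum 0 s hs).hasSum⟩
    rw [f2, if_pos rfl, ← hV, ← mul_prod_erase _ _ (mem_univ b),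
      ← mul_prod_erase _ (fun a => (1 - z a)⁻¹) (mem_univ b), Function.update_self, sub_zero,
      inv_one, one_mul]
    exact congrArg _ (prod_congr rfl fun a ha => by rw [Function.update_of_ne (ne_of_mem_erase ha)])

end AnaX

theorem ana : ANA_st := by
  intro ι κ _ _ _ x u z hx hu hz
  obtain ⟨f, f1, f2, f3⟩ := AnaX.main hu univ z (fun a => ⟨(hz a).1.le, (hz a).2⟩)
    (fun a ha => absurd (mem_univ a) ha) x hx
  refine ⟨f, _, f1, f2, fun s hs => (f3 s hs).congr fun S => sum_congr rfl fun n _ => ?_⟩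
  exact congrArg _ (AnaX.mo_eq (X := AnaX.pt u x n) (fun i => add_pos_of_pos_of_nonneg (hx i)
    (sum_nonneg fun a _ => mul_nonneg (Nat.cast_nonneg _) (hu a i).le)) s)

end Pool.Agent.MP_f3cd89_nt

end

section

/-! Auxiliary lemmas for the abstract congruence. -/

set_option autoImplicit false

open Finset Polynomial

namespace Pool.Agent.MP_f3cd89_nt.ShX

open Classical in
theorem hasSum_fib {Z I : Type} [Fintype I] {B : I → Type} (π : Z → I) (Φ : ∀ i, B i → Z)
    (h1 : ∀ i, Function.Injective (Φ i)) (h2 : ∀ i z, z ∈ Set.range (Φ i) ↔ π z = i) (F : Z → ℂ)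
    (a : I → ℂ) (h : ∀ i, HasSum (fun b => F (Φ i b)) (a i)) : HasSum F (∑ i, a i) := by
  have h3 : ∀ i ∈ (univ : Finset I), HasSum (fun z => if π z = i then F z else 0) (a i) := by
    intro i _
    refine ((h1 i).hasSum_iff fun z hz => if_neg fun e => hz ((h2 i z).2 e)).1 ?_
    have e : (fun z => if π z = i then F z else 0) ∘ Φ i = fun b => F (Φ i b) :=
      funext fun b => if_pos ((h2 i _).1 ⟨b, rfl⟩)
    rw [e]
    exact h i
  simpa using hasSum_sum h3

theorem orbit_sum (Γ C : Type) [Group Γ] [Finite Γ] [Fintype C] [MulAction Γ C] (Fr : C → Prop)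
    [DecidablePred Fr] (hFr : ∀ c, Fr c ↔ ∀ γ : Γ, γ • c = c → γ = 1) :
    ∃ R : Finset C, ∀ W : C → ℂ, ∑ c with Fr c, W c = ∑ c ∈ R, ∑ᶠ γ : Γ, W (γ • c) := by
  classical
  have := Fintype.ofFinite Γ
  have hf : ∀ (c : C) (δ : Γ), Fr c → Fr (δ • c) := fun c δ h => (hFr _).2 fun γ e => by
    have h1 := (hFr _).1 h (δ⁻¹ * γ * δ) (by rw [mul_smul, mul_smul, e, inv_smul_smul])
    rwa [mul_assoc, inv_mul_eq_one, eq_comm, mul_eq_right] at h1
  refine ⟨univ.filter fun c => Fr c ∧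
    (Quotient.mk (MulAction.orbitRel Γ C) c).out = c, fun W => ?_⟩
  simp only [finsum_eq_sum_of_fintype]
  rw [← sum_product']
  refine (sum_bij (fun p _ => p.2 • p.1) (fun p hp => ?_) (fun p hp p' hp' e => ?_)
    (fun c hc => ?_) fun _ _ => rfl).symm
  · exact mem_filter.2 ⟨mem_univ _, hf _ _ (mem_filter.1 (mem_product.1 hp).1).2.1⟩
  · have h1 := (mem_filter.1 (mem_product.1 hp).1).2
    have h2 := (mem_filter.1 (mem_product.1 hp').1).2
    have h3 : p.1 = (p.2⁻¹ * p'.2) • p'.1 := by rw [mul_smul, ← e, inv_smul_smul]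
    have h4 : p.1 = p'.1 := by
      rw [← h1.2, ← h2.2]
      exact congrArg Quotient.out (Quotient.sound ⟨_, h3.symm⟩)
    refine Prod.ext h4 ?_
    rw [← h4] at h3
    exact inv_mul_eq_one.1 ((hFr _).1 h1.1 _ h3.symm)
  · obtain ⟨γ, hγ⟩ : ∃ γ : Γ, γ • c = (Quotient.mk (MulAction.orbitRel Γ C) c).out :=
      Quotient.exact (Quotient.out_eq (Quotient.mk (MulAction.orbitRel Γ C) c))
    refine ⟨(γ • c, γ⁻¹), mem_product.2 ⟨mem_filter.2 ⟨mem_univ _, hf _ _ (mem_filter.1 hc).2, ?_⟩,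
      mem_univ _⟩, inv_smul_smul _ _⟩
    change Quotient.out (Quotient.mk _ (γ • c)) = γ • c
    rw [hγ, Quotient.out_eq]

theorem exists_inv (l : ℕ) : ∃ P : ℤ[X], ∀ y : ℂ, y ^ l = 1 → y ≠ 1 →
    (l : ℂ) * (1 - y)⁻¹ = aeval y P := by
  obtain ⟨P, hP⟩ : X - C 1 ∣ (∑ i ∈ range l, X ^ i - C (l : ℤ) : ℤ[X]) := by
    rw [dvd_iff_isRoot]
    simp [eval_finsetSum]
  refine ⟨P, fun y h1 h2 => ?_⟩
  have h3 : (1 - y) ≠ 0 := sub_ne_zero.2 h2.symm
  have h4 : ∑ i ∈ range l, y ^ i = 0 := by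
    have := mul_neg_geom_sum y l
    rw [h1, sub_self] at this
    exact (mul_eq_zero.1 this).resolve_left h3
  have h5 := congrArg (aeval y) hP
  simp only [map_sub, map_sum, map_pow, aeval_X, map_mul, map_natCast, h4,
    map_one] at h5
  rw [mul_inv_eq_iff_eq_mul₀ h3]
  linear_combination -h5

theorem exists_coef (l : ℕ) [NeZero l] (P : ℤ[X]) : ∃ a : ZMod l → ℤ, ∀ ζ : ℂ, ζ ^ l = 1 →
    aeval ζ P = ∑ r, ζ ^ r.val * a r := by
  induction P using Polynomial.induction_on' with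
  | add p q hp hq =>
    obtain ⟨a, ha⟩ := hp
    obtain ⟨b, hb⟩ := hq
    refine ⟨a + b, fun ζ h => ?_⟩
    simp only [map_add, ha ζ h, hb ζ h, Pi.add_apply, Int.cast_add, mul_add, sum_add_distrib]
  | monomial n c =>
    refine ⟨Pi.single (n : ZMod l) c, fun ζ h => ?_⟩
    rw [sum_eq_single (n : ZMod l) (fun r _ hr => by simp [Pi.single_eq_of_ne hr]) (by simp),
      Pi.single_eq_same, ZMod.val_natCast, ← pow_eq_pow_mod n h, aeval_monomial, mul_comm]
    rfl

theorem exists_val {V : Type} (l : ℕ) [Fact l.Prime] (U : Finset V) (k : ℕ) (hk : U.card ≤ k)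
    (b : ZMod l) (m : V → ZMod l) (hm : ∀ u ∈ U, m u ≠ 0) : ∃ a : ZMod l → ℤ, ∀ ζ : ℂ,
      IsPrimitiveRoot ζ l → (l : ℂ) ^ k * (ζ ^ b.val * ∏ u ∈ U, (1 - ζ ^ (m u).val)⁻¹) =
        ∑ r, ζ ^ r.val * a r := by
  obtain ⟨P, hP⟩ := exists_inv l
  obtain ⟨a, ha⟩ := exists_coef l
    ((l : ℤ[X]) ^ (k - U.card) * X ^ b.val * ∏ u ∈ U, P.comp (X ^ (m u).val))
  refine ⟨a, fun ζ h => ?_⟩
  have h1 : ∏ u ∈ U, aeval ζ (P.comp (X ^ (m u).val)) =
      ∏ u ∈ U, ((l : ℂ) * (1 - ζ ^ (m u).val)⁻¹) := prod_congr rfl fun u hu => by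
    rw [hP _ (by rw [← pow_mul, mul_comm, pow_mul, h.pow_eq_one, one_pow])
      (h.pow_ne_one_of_pos_of_lt (mt (ZMod.val_eq_zero _).1 (hm u hu)) (ZMod.val_lt _)),
      aeval_comp, map_pow, aeval_X]
  rw [← ha ζ h.pow_eq_one, map_mul, map_mul, map_prod, h1, prod_mul_distrib, prod_const, map_pow,
    map_pow, map_natCast, aeval_X, ← pow_sub_mul_pow (l : ℂ) hk]
  ring

variable {ι V G Q : Type} [Fintype ι] [AddCommGroup V] [Group G] [DistribMulAction G V]
  [MulAction G Q] {l : ℕ} (D : Sh ι V G Q l)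

theorem mem_X {q : Q} {U : Finset V} (ho : D.o ∈ D.X q)
    (hU : ∀ u ∈ U, u ∈ D.Λ q ∧ (∀ i, 0 < D.e u i) ∧ D.χ q u ≠ 0) (n : U → ℕ) :
    D.o + ∑ a, n a • a.1 ∈ D.X q := by
  refine D.X_add q _ ho _ (sum_mem fun a _ => nsmul_mem (hU a a.2).1 _) fun i => ?_
  simp only [map_add, map_sum, map_nsmul, Pi.add_apply, Finset.sum_apply, Pi.smul_apply]
  exact add_pos_of_pos_of_nonneg ((D.X_sub q _ ho).2 i)
    (sum_nonneg fun a _ => nsmul_nonneg ((hU a a.2).2.1 i).le _)

theorem term [NeZero l] {q : Q} {U : Finset V} (ho : D.o ∈ D.X q)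
    (hU : ∀ u ∈ U, u ∈ D.Λ q ∧ (∀ i, 0 < D.e u i) ∧ D.χ q u ≠ 0) (n : U → ℕ) {g : G}
    (hg : g • (D.o + ∑ a, n a • a.1) = D.o) {ζ : ℂ} (hζ : ζ ^ l = 1) (s : ℂ) :
    ζ ^ (D.χ (g • q) D.o).val * ((D.nm (g • q) * ∏ i, D.e D.o i : ℝ) : ℂ) ^ (-s) =
      ζ ^ (D.χ q D.o).val * (D.nm q : ℂ) ^ (-s) * ((∏ a : U, (ζ ^ (D.χ q a).val) ^ n a) *
        ((∏ i, (D.e D.o i + ∑ a : U, (n a : ℝ) * D.e a i) : ℝ) : ℂ) ^ (-s)) := by
  have hx := mem_X D ho hU n
  have h1 := D.smul_χ g q _ (D.X_sub q _ hx).1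
  have h2 := D.smul_nm g q _ hx
  rw [hg] at h1 h2
  let χ' : D.M q →+ ZMod l := AddMonoidHom.mk' (fun x => D.χ q x) fun x y => D.χ_add q _ x.2 _ y.2
  have h3 : D.χ q (D.o + ∑ a, n a • a.1) = D.χ q D.o + ∑ a : U, n a • D.χ q a := by
    have := map_add χ' ⟨D.o, (D.X_sub q _ ho).1⟩ (∑ a : U, n a • ⟨a.1, D.Λ_le q (hU a a.2).1⟩)
    rw [map_sum] at this
    simp only [map_nsmul] at this
    refine Eq.trans (congrArg (D.χ q) ?_) this
    simp
  have h4 : ∀ t : Finset U, AddChar.zmodChar l hζ (∑ a ∈ t, n a • D.χ q a) =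
      ∏ a ∈ t, (ζ ^ (D.χ q a).val) ^ n a := by
    classical
    intro t
    induction t using Finset.induction_on with
    | empty => simp
    | insert a t ha ih =>
      rw [sum_insert ha, prod_insert ha, AddChar.map_add_eq_mul, ih, AddChar.map_nsmul_eq_pow,
        AddChar.zmodChar_apply]
  have h5 : ∏ i, (D.e D.o i + ∑ a : U, (n a : ℝ) * D.e a i) =
      ∏ i, D.e (D.o + ∑ a, n a • a.1) i := prod_congr rfl fun i _ => by
    simp only [map_add, map_sum, map_nsmul, Pi.add_apply, Finset.sum_apply, nsmul_eq_mul,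
      Pi.mul_apply, Pi.natCast_apply]
  rw [h1, h2, h3, h5, Complex.ofReal_mul, Complex.mul_cpow_ofReal_nonneg (D.nm_pos q).le
    (prod_nonneg fun i _ => ((D.X_sub q _ hx).2 i).le), ← AddChar.zmodChar_apply hζ,
    AddChar.map_add_eq_mul, h4, AddChar.zmodChar_apply]
  ring

open Classical in
/-- cells with a nontrivial stabiliser -/
def Fx (c : Q × Finset V) : Prop :=
  ∃ γ ∈ D.Γ, γ ≠ 1 ∧ γ • c.1 = c.1 ∧ (c.2.image fun u => γ • u) = c.2

theorem param {C : Finset (Q × Finset V)} (hC : D.Cells C) :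
    ∃ (π : {q // D.o ∈ D.X q} → C) (Φ : ∀ c : C, (c.1.2 → ℕ) → {q // D.o ∈ D.X q}),
      (∀ c, Function.Injective (Φ c)) ∧ (∀ c q, q ∈ Set.range (Φ c) ↔ π q = c) ∧ ∀ c n,
        (∃ g ∈ D.N, (Φ c n).1 = g • c.1.1 ∧ g • (D.o + ∑ a, n a • a.1) = D.o) ∧
        ((∃ γ ∈ D.Γ, γ ≠ 1 ∧ γ • (Φ c n).1 = (Φ c n).1) ↔ Fx D c) := by
  classical
  obtain ⟨h1, h2, h3, h4⟩ := hC
  have hx := fun (c : C) => mem_X D (h1 c c.2).1 (h1 c c.2).2
  choose g hg hg' using fun (c : C) n => D.trans _ _ (hx c n)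
  choose z hz hu using fun q : {q // D.o ∈ D.X q} => h2 q q.2
  have hfree : ∀ (c : C) n, ∀ g' ∈ D.N, g' • (D.o + ∑ a, n a • a.1) = D.o → g' = g c n := by
    intro c n g' e1 e2
    have := D.free ((g c n)⁻¹ * g') (mul_mem (inv_mem (hg c n)) e1) _ (D.X_sub _ _ (hx c n)).2
      (by rw [mul_smul, e2, inv_smul_eq_iff, hg'])
    exact (inv_mul_eq_one.1 this).symm
  let fs : ∀ {U : Finset V}, (U → ℕ) → V →₀ ℕ := fun n => ∑ a, Finsupp.single a.1 (n a)
  have f1 : ∀ (U : Finset V) (n : U → ℕ) (a : U), fs n a = n a := fun U n a => by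
    simp [fs, Finsupp.single_apply]
  have f2 : ∀ (U : Finset V) (n : U → ℕ), (fs n).support ⊆ U := fun U n v hv => by
    by_contra h
    refine Finsupp.mem_support_iff.1 hv ?_
    rw [Finsupp.finsetSum_apply]
    exact sum_eq_zero fun a _ => Finsupp.single_eq_of_ne fun e => h (e ▸ a.2)
  have f3 : ∀ (U : Finset V) (m : V →₀ ℕ), m.support ⊆ U →
      (m.sum fun u n => n • u) = ∑ a : U, m a • a.1 := fun U m hm => by
    rw [Finsupp.sum_of_support_subset m hm (fun u n => n • u) fun _ _ => zero_smul _ _,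
      ← sum_coe_sort U]
  have f4 : ∀ (U : Finset V) (n : U → ℕ),
      ((fs n).sum fun u n => n • u) = ∑ a : U, n a • a.1 := fun U n => by
    simp only [f3 U _ (f2 U n), f1]
  let Φ : ∀ c : C, (c.1.2 → ℕ) → {q // D.o ∈ D.X q} := fun c n =>
    ⟨g c n • c.1.1, hg' c n ▸ D.smul_X (g c n) _ _ (hx c n)⟩
  have hΦ : ∀ (c : C) n, (c.1, fs n) = z (Φ c n) := fun c n =>
    hu _ _ ⟨c.2, f2 _ n, g c n, hg c n, rfl, by rw [f4, hg']⟩
  refine ⟨fun q => ⟨(z q).1, (hz q).1⟩, Φ, fun c n n' e => ?_, fun c q => ⟨?_, ?_⟩,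
    fun c n => ⟨⟨g c n, hg c n, rfl, hg' c n⟩, ?_, ?_⟩⟩
  · have e1 : fs n = fs n' := congrArg Prod.snd ((hΦ c n).trans (e ▸ (hΦ c n').symm))
    exact funext fun a => by rw [← f1 _ n, e1, f1]
  · rintro ⟨n, rfl⟩
    exact Subtype.ext (congrArg Prod.fst (hΦ c n)).symm
  · rintro rfl
    obtain ⟨-, e1, g', e2, e3, e4⟩ := hz q
    rw [f3 _ _ e1] at e4
    exact ⟨fun a => (z q).2 a, Subtype.ext ((congrArg (· • (z q).1.1)
      (hfree ⟨(z q).1, (hz q).1⟩ _ g' e2 e4)).symm.trans e3)⟩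
  · rintro ⟨γ, e1, e2, e3⟩
    have e4 := hu (Φ c n) ((γ • c.1.1, c.1.2.image fun u => γ • u),
      (fs n).mapDomain fun u => γ • u) ⟨h3 γ e1 c c.2,
        Finsupp.mapDomain_support.trans (image_subset_image (f2 _ n)), γ * g c n * γ⁻¹,
        D.normal.conj_mem _ (hg c n) γ, by rw [mul_smul, mul_smul, inv_smul_smul]; exact e3, ?_⟩
    · have e5 := congrArg Prod.fst (e4.trans (hΦ c n).symm)
      exact ⟨γ, e1, e2, congrArg Prod.fst e5, congrArg Prod.snd e5⟩
    · have e5 : D.o + (((fs n).mapDomain fun u => γ • u).sum fun u n => n • u) =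
          γ • (D.o + ∑ a, n a • a.1) := by
        rw [Finsupp.sum_mapDomain_index (h := fun u (n : ℕ) => n • u) (fun _ => zero_smul _ _)
          fun _ _ _ => add_smul _ _ _, smul_add, D.Γ_o γ e1, ← f4, Finsupp.sum, Finsupp.sum, smul_sum]
        simp only [smul_comm γ]
      rw [e5, mul_smul, mul_smul, inv_smul_smul, hg', D.Γ_o γ e1]
  · rintro ⟨γ, e1, e2, e3, e4⟩
    have e5 : γ⁻¹ • (D.o + ∑ a, n a • a.1) = D.o + ∑ a, n a • a.1 := by
      rw [inv_smul_eq_iff, smul_add, D.Γ_o γ e1, smul_sum]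
      simp only [smul_comm γ, h4 γ e1 c c.2 e3 e4 _ (Subtype.prop _)]
    have e6 := hfree c n _ (D.normal.conj_mem _ (hg c n) γ)
      (by rw [mul_smul, mul_smul, e5, hg', D.Γ_o γ e1])
    refine ⟨γ, e1, e2, ?_⟩
    change γ • g c n • c.1.1 = g c n • c.1.1
    rw [← mul_smul, mul_inv_eq_iff_eq_mul.1 e6, mul_smul, e3]

end Pool.Agent.MP_f3cd89_nt.ShX

end

section

/-! The abstract congruence. -/

set_option autoImplicit false

open Finset

namespace Pool.Agent.MP_f3cd89_nt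

open ShX

theorem sh (hC : CELL_st) (hA : ANA_st) : SH_st := by
  classical
  intro ι V G Q _ _ _ _ _ _ l _ D
  obtain ⟨C, hC⟩ := hC ι V G Q l D
  obtain ⟨π, Φ, p1, p2, p3⟩ := param D hC
  obtain ⟨h1, -, h3, -⟩ := hC
  have := D.fin_Γ
  have hl : l.Prime := Fact.out
  let : MulAction D.Γ C :=
    { smul := fun γ c => ⟨(γ.1 • c.1.1, c.1.2.image fun u => γ.1 • u), h3 γ γ.2 c c.2⟩
      one_smul := fun c => Subtype.ext (Prod.ext (one_smul G _) (by
        change c.1.2.image (fun u => (1 : G) • u) = _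
        simp))
      mul_smul := fun γ δ c => Subtype.ext (Prod.ext (mul_smul γ.1 δ.1 _) (by
        change c.1.2.image (fun u => (γ.1 * δ.1) • u) =
          (c.1.2.image fun u => δ.1 • u).image fun u => γ.1 • u
        rw [image_image]
        simp only [mul_smul, Function.comp_def])) }
  have hs : ∀ (γ : D.Γ) (c : C),
      (γ • c).1 = (γ.1 • c.1.1, c.1.2.image fun u => γ.1 • u) := fun _ _ => rfl
  obtain ⟨R, hR⟩ := orbit_sum D.Γ C (fun c => ¬Fx D c.1) fun c => by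
    refine ⟨fun h γ e => by_contra fun h' => ?_, fun h ⟨γ, e1, e2, e3, e4⟩ => ?_⟩
    · have e' := (hs γ c).symm.trans (congrArg Subtype.val e)
      exact h ⟨γ, γ.2, fun e1 => h' (Subtype.ext e1), congrArg Prod.fst e', congrArg Prod.snd e'⟩
    · exact e2 (congrArg Subtype.val (h ⟨γ, e1⟩ (Subtype.ext (Prod.ext e3 e4))))
  choose a ha using fun c : C => exists_val l c.1.2 (C.sup fun c => c.2.card)
    (le_sup (f := fun c : Q × Finset V => c.2.card) c.2) (D.χ c.1.1 D.o) (D.χ c.1.1)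
    fun u hu => ((h1 c c.2).2 u hu).2.2
  refine ⟨C.sup fun c => c.2.card, fun r => ∑ c ∈ R, Finsupp.single c.1.1 (a c r),
    fun Ψ hΨ ζ hζ => ?_⟩
  choose f σ f1 f2 f3 using fun c : C => hA ι c.1.2 (D.e D.o) (fun u => D.e u)
    (fun u => ζ ^ (D.χ c.1.1 u).val) (D.X_sub _ _ (h1 c c.2).1).2
    (fun u => ((h1 c c.2).2 u u.2).2.1) fun u => ⟨by rw [norm_pow, hζ.norm'_eq_one hl.ne_zero,
      one_pow], hζ.pow_ne_one_of_pos_of_lt
        (mt (ZMod.val_eq_zero _).1 ((h1 c c.2).2 u u.2).2.2) (ZMod.val_lt _)⟩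
  obtain ⟨σ₀, hσ⟩ := Finite.exists_le σ
  let F : C → ℂ → ℂ := fun c s =>
    Ψ c.1.1 * (ζ ^ (D.χ c.1.1 D.o).val * (D.nm c.1.1 : ℂ) ^ (-s)) * f c s
  have hF : ∀ c, Differentiable ℂ (F c) := fun c =>
    (((differentiable_id.neg.const_cpow
      (Or.inl (Complex.ofReal_ne_zero.2 (D.nm_pos _).ne'))).const_mul _).const_mul _).mul (f1 c)
  have hS : ∀ s : ℂ, σ₀ < s.re → ∀ c : C, HasSum (fun n => Ψ (Φ c n) *
      ζ ^ (D.χ (Φ c n) D.o).val * ((D.nm (Φ c n) * ∏ i, D.e D.o i : ℝ) : ℂ) ^ (-s)) (F c s) := by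
    intro s hs c
    refine ((f3 c s ((hσ c).trans_lt hs)).mul_left _).congr_fun fun n => ?_
    obtain ⟨g, g1, g2, g3⟩ := (p3 c n).1
    rw [g2, hΨ g g1, mul_assoc, term D (h1 c c.2).1 (h1 c c.2).2 n g3 hζ.pow_eq_one s, ← mul_assoc]
  refine ⟨fun s => ∑ c, F c s, fun s => ∑ c, if Fx D c.1 then F c s else 0, σ₀,
    Differentiable.fun_sum fun c _ => hF c, Differentiable.fun_sum fun c _ => ?_,
    fun s hs => ⟨hasSum_fib π Φ p1 p2 _ _ (hS s hs), hasSum_fib π Φ p1 p2 _ _ fun c => ?_⟩, ?_⟩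
  · split_ifs
    · exact hF c
    · exact differentiable_const _
  · simp only [(p3 c _).2]
    split_ifs
    · exact hS s hs c
    · exact hasSum_zero
  let val : C → ℂ := fun c =>
    ζ ^ (D.χ c.1.1 D.o).val * ∏ u ∈ c.1.2, (1 - ζ ^ (D.χ c.1.1 u).val)⁻¹
  have v1 : ∀ c, F c 0 = Ψ c.1.1 * val c := fun c => by
    simp only [F, val, f2, neg_zero, Complex.cpow_zero, one_mul, mul_assoc]
    rw [prod_coe_sort c.1.2 fun u => (1 - ζ ^ (D.χ c.1.1 u).val)⁻¹]
  have v2 : ∀ (γ : D.Γ) (c : C), val (γ • c) = val c := fun γ c => by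
    have e := D.smul_χ γ.1 _ _ (D.X_sub _ _ (h1 c c.2).1).1
    rw [D.Γ_o γ γ.2] at e
    simp only [val, hs]
    rw [e, prod_image fun u _ u' _ h => MulAction.injective γ.1 h]
    exact congrArg _ (prod_congr rfl fun u hu => by
      rw [D.smul_χ γ.1 _ _ (D.Λ_le _ ((h1 c c.2).2 u hu).1)])
  have v3 : ∑ c, F c 0 - ∑ c, (if Fx D c.1 then F c 0 else 0) = ∑ c with ¬Fx D c.1, F c 0 := by
    rw [sum_filter, ← sum_sub_distrib]
    exact sum_congr rfl fun c _ => by split_ifs <;> simp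
  have v4 : ∀ r, ((∑ c ∈ R, Finsupp.single c.1.1 (a c r)).sum fun q z =>
      (z : ℂ) * ∑ᶠ g : D.Γ, Ψ (g.1 • q)) = ∑ c ∈ R, (a c r : ℂ) * ∑ᶠ g : D.Γ, Ψ (g.1 • c.1.1) := by
    intro r
    rw [← Finsupp.sum_finsetSum_index (by simp) (by simp [add_mul])]
    exact sum_congr rfl fun c _ => Finsupp.sum_single_index (by simp)
  simp only [v4, mul_sum]
  rw [v3, hR, sum_comm, mul_sum]
  refine sum_congr rfl fun c _ => ?_
  simp only [v1, v2, hs, ← mul_assoc]
  rw [← sum_mul, ← ha c ζ hζ, ← finsum_mul' _ _ (Set.toFinite _)]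
  ring

end Pool.Agent.MP_f3cd89_nt

end

section

set_option autoImplicit false
set_option linter.unusedSectionVars false

open Finset NumberField IsDedekindDomain

namespace Pool.Agent.MP_f3cd89_nt

namespace CharX

theorem dual0 (K V : Type) [Field K] [AddCommGroup V] [Module K V] [Finite V] :
    Nat.card (V →ₗ[K] K) = Nat.card V := by
  have f : Module.Finite K V := Module.Finite.of_finite
  classical
  exact Nat.card_congr (Module.Free.chooseBasis K V).toDualEquiv.symm.toEquiv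

theorem dual1 (l : ℕ) [Fact l.Prime] (Q : Type) [AddCommGroup Q] [Finite Q] [Module (ZMod l) Q] :
    Nat.card (Q →+ ZMod l) = Nat.card Q ∧ ∀ q : Q, (∀ φ : Q →+ ZMod l, φ q = 0) → q = 0 := by
  constructor
  · rw [Nat.card_congr (AddMonoidHom.toZModLinearMapEquiv l).toEquiv]
    exact dual0 (ZMod l) Q
  · intro q hq
    exact (Module.forall_dual_apply_eq_zero_iff (ZMod l) q).1 fun φ => hq φ.toAddMonoidHom

theorem dual (l : ℕ) [Fact l.Prime] (Q : Type) [AddCommGroup Q] [Finite Q]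
    (h : ∀ x : Q, l • x = 0) : Nat.card (Q →+ ZMod l) = Nat.card Q ∧
      ∀ q : Q, (∀ φ : Q →+ ZMod l, φ q = 0) → q = 0 :=
  @dual1 l _ Q _ _ (AddCommGroup.zmodModule h)

open Classical in
theorem orth (l : ℕ) [Fact l.Prime] (Q : Type) [AddCommGroup Q] [Finite Q]
    [Fintype (Q →+ ZMod l)] (h : ∀ x : Q, l • x = 0) {ζ : ℂ} (hζ : IsPrimitiveRoot ζ l) (q : Q) :
    ∑ φ : Q →+ ZMod l, ζ ^ (φ q).val = if q = 0 then (Nat.card Q : ℂ) else 0 := by
  have hp : l.Prime := Fact.out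
  obtain ⟨h1, h2⟩ := dual l Q h
  split_ifs with hq
  · simp [hq, ← h1]
  · let ψ : AddChar (Q →+ ZMod l) ℂ :=
      (AddChar.zmodChar l hζ.pow_eq_one).compAddMonoidHom (AddMonoidHom.eval q)
    have : ψ ≠ 0 := by
      intro h0
      refine hq (h2 q fun φ => ?_)
      have e : ζ ^ (φ q).val = 1 := DFunLike.congr_fun h0 φ
      have := (hζ.pow_eq_one_iff_dvd _).1 e
      rw [← ZMod.val_eq_zero]
      exact Nat.eq_zero_of_dvd_of_lt this (ZMod.val_lt _)
    exact AddChar.sum_eq_zero_iff_ne_zero.2 this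

open Classical in
theorem chars (l : ℕ) [Fact l.Prime] {F : Type} [AddCommGroup F] (M H : AddSubgroup F)
    (hH : H ≤ M) (hl : ∀ x ∈ M, l • x ∈ H) (hf : H.relIndex M ≠ 0) :
    ∃ T : Finset (F → ZMod l), (∀ χ, χ ∈ T ↔ (∀ x ∈ M, ∀ y ∈ M, χ (x + y) = χ x + χ y) ∧
      (∀ x, x ∉ M → χ x = 0) ∧ ∀ x ∈ H, χ x = 0) ∧ T.card = H.relIndex M ∧
      ∀ ζ : ℂ, IsPrimitiveRoot ζ l → ∀ x ∈ M,
        ∑ χ ∈ T, ζ ^ (χ x).val = if x ∈ H then (H.relIndex M : ℂ) else 0 := by
  have hp : l.Prime := Fact.out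
  let Q := M ⧸ H.addSubgroupOf M
  have fQ : Finite Q := Nat.finite_of_card_ne_zero hf
  have hQ : ∀ x : Q, l • x = 0 := by
    intro x
    obtain ⟨x, rfl⟩ := QuotientAddGroup.mk_surjective x
    rw [← QuotientAddGroup.mk_nsmul, QuotientAddGroup.eq_zero_iff, AddSubgroup.mem_addSubgroupOf]
    exact hl x x.2
  have fX : Finite (Q →+ ZMod l) := Finite.of_injective _ DFunLike.coe_injective
  have := Fintype.ofFinite (Q →+ ZMod l)
  let Φ : (Q →+ ZMod l) → F → ZMod l := fun φ x =>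
    if h : x ∈ M then φ (QuotientAddGroup.mk ⟨x, h⟩) else 0
  have hΦ : ∀ φ (x : M), Φ φ x = φ (QuotientAddGroup.mk x) := fun φ x => dif_pos x.2
  have inj : Function.Injective Φ := by
    intro φ φ' e
    refine AddMonoidHom.ext fun x => ?_
    obtain ⟨x, rfl⟩ := QuotientAddGroup.mk_surjective x
    rw [← hΦ, ← hΦ, e]
  refine ⟨univ.map ⟨Φ, inj⟩, fun χ => ?_, ?_, fun ζ hζ x hx => ?_⟩
  · simp only [mem_map, mem_univ, true_and, Function.Embedding.coeFn_mk]
    constructor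
    · rintro ⟨φ, rfl⟩
      refine ⟨fun x hx y hy => ?_, fun x hx => dif_neg hx, fun x hx => ?_⟩
      · rw [hΦ φ ⟨x, hx⟩, hΦ φ ⟨y, hy⟩, ← map_add, ← QuotientAddGroup.mk_add]
        exact hΦ φ ⟨x + y, add_mem hx hy⟩
      · rw [hΦ φ ⟨x, hH hx⟩, (QuotientAddGroup.eq_zero_iff _).2
          (AddSubgroup.mem_addSubgroupOf.2 hx), map_zero]
    · rintro ⟨h1, h2, h3⟩
      let φ₀ : M →+ ZMod l := AddMonoidHom.mk' (fun x => χ x) fun x y => h1 x x.2 y y.2
      refine ⟨QuotientAddGroup.lift _ φ₀ fun x hx => h3 x (AddSubgroup.mem_addSubgroupOf.1 hx), ?_⟩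
      funext x
      by_cases hx : x ∈ M
      · exact hΦ _ ⟨x, hx⟩
      · rw [h2 x hx]
        exact dif_neg hx
  · rw [card_map, card_univ, ← Nat.card_eq_fintype_card, (dual l Q hQ).1]
    rfl
  · rw [sum_map]
    simp only [Function.Embedding.coeFn_mk]
    rw [sum_congr rfl fun φ _ => by rw [hΦ φ ⟨x, hx⟩], orth l Q hQ hζ]
    simp only [Q, QuotientAddGroup.eq_zero_iff, AddSubgroup.mem_addSubgroupOf]
    rfl

variable {F : Type} [Field F] [NumberField F]

open Classical in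
theorem ind_apply (C : Finset (Pr F)) (v : Pr F) : ind C v = if v ∈ C then 1 else 0 := by
  simp [ind, Finsupp.finsetSum_apply, Finsupp.single_apply]

theorem lat_anti {D E : Pr F →₀ ℤ} (h : D ≤ E) : lat E ≤ lat D := fun _ hx v =>
  (hx v).trans (WithZero.exp_le_exp.2 (neg_le_neg (h v)))

theorem ind_nonneg (C : Finset (Pr F)) : 0 ≤ ind C := fun v => by
  rw [ind_apply]
  split_ifs <;> simp

theorem nmD_ind (C : Finset (Pr F)) : nmD (ind C) = ∏ c ∈ C, (nrm c : ℝ) := by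
  unfold nmD
  rw [Finsupp.prod_of_support_subset (s := C) _ (fun v hv => by
    by_contra h
    exact Finsupp.mem_support_iff.1 hv (by rw [ind_apply, if_neg h])) _ fun _ _ => zpow_zero _]
  exact prod_congr rfl fun c hc => by rw [ind_apply, if_pos hc, zpow_one]

theorem smul_mem {l : ℕ} (hl : l ≠ 0) {C : Finset (Pr F)} (hC : ∀ c ∈ C, (l : 𝓞 F) ∈ c.asIdeal)
    (D : Pr F →₀ ℤ) (x : F) (hx : x ∈ lat D) : l • x ∈ lat (D + ind C) := by
  intro v
  rw [nsmul_eq_mul, map_mul, Finsupp.add_apply, neg_add, add_comm, WithZero.exp_add]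
  refine mul_le_mul' ?_ (hx v)
  have h0 : (l : 𝓞 F) ≠ 0 := Nat.cast_ne_zero.2 hl
  have e : ((l : 𝓞 F) : F) = l := by simp
  have h1 := ord_nonneg v (l : 𝓞 F)
  have h2 := ord_eq_zero_iff v h0
  rw [e] at h1 h2
  rw [val_eq_exp v (Nat.cast_ne_zero.2 hl), WithZero.exp_le_exp, ind_apply]
  split_ifs with h
  · have := mt h2.1 (not_not.2 (hC v h))
    omega
  · omega

open Classical in
theorem one_mem {C : Finset (Pr F)} {D : Pr F →₀ ℤ} (hD : 0 ≤ D) :
    (1 : F) ∈ lat (-D + ind C) ↔ ∀ c ∈ C, 1 ≤ D c := by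
  simp only [mem_lat, map_one, Finsupp.add_apply, Finsupp.neg_apply, ind_apply]
  refine forall_congr' fun v => ?_
  rw [← WithZero.exp_zero, WithZero.exp_le_exp]
  have : 0 ≤ D v := hD v
  split_ifs with h
  · simp only [h, forall_const]
    omega
  · simp only [h, IsEmpty.forall_iff, iff_true]
    omega

end CharX

open CharX Classical in
theorem char (hC : NTC_st) : CHAR_st := by
  intro F _ _ l _ C D hl
  have hp : l.Prime := Fact.out
  obtain ⟨hi, hs, -⟩ := hC F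
  have hi' : ∀ I : Finset (Pr F), (lat (-D + ind I)).relIndex (lat (-D)) = ∏ c ∈ I, nrm c := by
    intro I
    have := hi (-D) (ind I) (ind_nonneg I)
    rw [nmD_ind] at this
    exact_mod_cast this
  have hle : ∀ I : Finset (Pr F), lat (-D + ind I) ≤ lat (-D) := fun I =>
    lat_anti (le_add_of_nonneg_right (ind_nonneg I))
  have key := fun I : Finset (Pr F) => chars l (lat (-D)) (lat (-D + ind (C \ I))) (hle _)
    (smul_mem hp.ne_zero (fun c hc => hl c (mem_sdiff.1 hc).1) (-D))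
    (by rw [hi']; exact prod_ne_zero_iff.2 fun c _ => by have := two_le_nrm c; omega)
  choose T hT hc hz using key
  have e1 : ∀ c ∈ C, -D + ind C - Finsupp.single c 1 = -D + ind (C \ {c}) := by
    intro c hc
    ext v
    simp only [Finsupp.sub_apply, Finsupp.add_apply, ind_apply, Finsupp.single_apply, mem_sdiff,
      mem_singleton]
    by_cases h : c = v
    · subst h
      simp [hc]
    · simp [h, Ne.symm h]
  have hP : ∀ χ : F → ZMod l, IsPrim C D χ ↔ χ ∈ T ∅ ∧ ∀ c ∈ C, χ ∉ T {c} := by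
    intro χ
    simp only [hT, sdiff_empty]
    constructor
    · intro h
      refine ⟨⟨h.add, h.out, h.kill⟩, fun c hc h' => ?_⟩
      obtain ⟨x, hx, h0⟩ := h.prim c hc
      exact h0 (h'.2.2 x (e1 c hc ▸ hx))
    · rintro ⟨⟨h1, h2, h3⟩, h4⟩
      refine ⟨h1, h2, h3, fun c hc => ?_⟩
      by_contra h
      push Not at h
      exact h4 c hc ⟨h1, h2, fun x hx => h x (e1 c hc ▸ hx)⟩
  have hset : {χ : F → ZMod l | IsPrim C D χ} =
      ((T ∅).filter fun χ => ∀ c ∈ C, χ ∉ T {c} : Finset (F → ZMod l)) := by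
    ext χ
    simp [hP]
  have mono : ∀ I J : Finset (Pr F), I ⊆ J → ∀ χ ∈ T J, χ ∈ T I := by
    intro I J h χ hχ
    rw [hT] at hχ ⊢
    refine ⟨hχ.1, hχ.2.1, fun x hx => hχ.2.2 x (lat_anti (fun v => ?_) hx)⟩
    simp only [Finsupp.add_apply, ind_apply, mem_sdiff]
    by_cases h1 : v ∈ C ∧ v ∉ J
    · rw [if_pos h1, if_pos ⟨h1.1, fun h' => h1.2 (h h')⟩]
    · rw [if_neg h1]
      split_ifs <;> omega
  have inter : ∀ I : Finset (Pr F), ∀ χ ∈ T ∅, (∀ c ∈ I, χ ∈ T {c}) → χ ∈ T I := by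
    intro I χ h0
    induction I using Finset.induction_on with
    | empty => exact fun _ => h0
    | insert c I hcI ih =>
      intro h
      have h1 := (hT _ _).1 (h c (mem_insert_self _ _))
      have h2 := (hT _ _).1 (ih fun d hd => h d (mem_insert_of_mem hd))
      refine (hT _ _).2 ⟨h1.1, h1.2.1, fun x hx => ?_⟩
      have e : -D + ind (C \ insert c I) = (-D + ind (C \ {c})) ⊓ (-D + ind (C \ I)) := by
        ext v
        simp only [Finsupp.inf_apply, Finsupp.add_apply, ind_apply, mem_sdiff, mem_singleton,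
          mem_insert]
        rw [min_add_add_left]
        congr 1
        by_cases a2 : v = c
        · simp only [a2, true_or, not_true_eq_false, and_false, if_false]
          split_ifs <;> simp
        · by_cases a1 : v ∈ C <;> by_cases a3 : v ∈ I <;> simp [a1, a2, a3]
      rw [e, ← hs] at hx
      obtain ⟨y, hy, z, hz', rfl⟩ := AddSubgroup.mem_sup.1 hx
      rw [h1.1 y (hle _ hy) z (hle _ hz'), h1.2.2 y hy, h2.2.2 z hz', add_zero]
  rw [hset]
  refine ⟨Finset.finite_toSet _, ?_, fun ζ hζ hD => ?_⟩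
  · rw [Set.ncard_coe_finset]
    refine (card_filter_le _ _).trans (le_of_eq ?_)
    rw [hc, hi', sdiff_empty]
  · have h1 : (1 : F) ∈ lat (-D) := by
      have := (one_mem (C := ∅) hD).2 (by simp)
      exact hle _ this
    rw [finsum_mem_coe_finset, sum_filter, prod_sub]
    have e2 : ∀ χ ∈ T ∅, (if ∀ c ∈ C, χ ∉ T {c} then ζ ^ (χ 1).val else 0) =
        ∑ I ∈ C.powerset, (-1) ^ I.card * if χ ∈ T I then ζ ^ (χ 1).val else 0 := by
      intro χ hχ
      have e3 : (if ∀ c ∈ C, χ ∉ T {c} then ζ ^ (χ 1).val else 0) =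
          (∏ c ∈ C, ((1 : ℂ) - if χ ∈ T {c} then 1 else 0)) * ζ ^ (χ 1).val := by
        split_ifs with h
        · rw [prod_eq_one fun c hc => by rw [if_neg (h c hc), sub_zero], one_mul]
        · push Not at h
          obtain ⟨c, hc, h⟩ := h
          rw [prod_eq_zero hc (by rw [if_pos h, sub_self]), zero_mul]
      rw [e3, prod_sub, sum_mul]
      refine sum_congr rfl fun I _ => ?_
      rw [prod_const_one, mul_one, mul_assoc]
      congr 1
      by_cases h : χ ∈ T I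
      · rw [if_pos h, prod_eq_one fun c hc => if_pos (mono _ _ (singleton_subset_iff.2 hc) χ h),
          one_mul]
      · rw [if_neg h]
        have h' := mt (inter I χ hχ) h
        push Not at h'
        obtain ⟨c, hc, h'⟩ := h'
        rw [prod_eq_zero hc (if_neg h'), zero_mul]
    rw [sum_congr rfl e2, sum_comm]
    refine sum_congr rfl fun I _ => ?_
    rw [← mul_sum, prod_const_one, mul_one, ← sum_filter]
    congr 1
    have e4 : (T ∅).filter (fun χ => χ ∈ T I) = T I := by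
      ext χ
      rw [mem_filter]
      exact ⟨fun h => h.2, fun h => ⟨mono _ _ (empty_subset _) χ h, h⟩⟩
    rw [e4, hz I ζ hζ 1 h1, hi']
    by_cases h : ∀ c ∈ C \ I, 1 ≤ D c
    · rw [if_pos ((one_mem hD).2 h), Nat.cast_prod]
      exact prod_congr rfl fun c hc => (if_pos (h c hc)).symm
    · rw [if_neg (mt (one_mem hD).1 h)]
      push Not at h
      obtain ⟨c, hc, h⟩ := h
      exact (prod_eq_zero hc (if_neg (not_le.2 h))).symm

end Pool.Agent.MP_f3cd89_nt

end

section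

set_option autoImplicit false

open Finset Filter Topology

namespace Pool.Agent.MP_f3cd89_nt.EulX

open Classical in
theorem fin_euler {ι K : Type} [NormedField K] [CompleteSpace K] (b : ι → ℕ → K)
    (h0 : ∀ i, b i 0 = 1) (hs : ∀ i, Summable fun n => ‖b i n‖) (s : Finset ι) :
    (Summable fun D : ι →₀ ℕ => ‖if D.support ⊆ s then D.prod b else 0‖) ∧
      HasSum (fun D : ι →₀ ℕ => if D.support ⊆ s then D.prod b else 0)
        (∏ i ∈ s, ∑' n, b i n) := by
  induction s using Finset.induction_on with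
  | empty =>
    have h : ∀ D : ι →₀ ℕ, D ≠ 0 → (if D.support ⊆ ∅ then D.prod b else 0) = 0 := fun D hD =>
      if_neg (by simpa using hD)
    refine ⟨(hasSum_single 0 fun D hD => by rw [h D hD, norm_zero]).summable, ?_⟩
    simpa using hasSum_single (f := fun D : ι →₀ ℕ => if D.support ⊆ ∅ then D.prod b else 0) 0 h
  | insert i s hi ih =>
    obtain ⟨h1, h2⟩ := ih
    let j : (ι →₀ ℕ) → ℕ × (ι →₀ ℕ) := fun D => (D i, D.erase i)
    have inj : Function.Injective j := by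
      intro D D' e
      have e1 : D i = D' i := congrArg Prod.fst e
      have e2 : D.erase i = D'.erase i := congrArg Prod.snd e
      rw [← Finsupp.single_add_erase i D, ← Finsupp.single_add_erase i D', e1, e2]
    have off : ∀ x : ℕ × (ι →₀ ℕ), x ∉ Set.range j →
        b i x.1 * (if x.2.support ⊆ s then x.2.prod b else 0) = 0 := by
      rintro ⟨n, D⟩ hx
      rw [if_neg, mul_zero]
      intro h
      have h3 : D i = 0 := Finsupp.notMem_support_iff.1 fun h' => hi (h h')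
      refine hx ⟨Finsupp.single i n + D, Prod.ext (by simp [j, h3]) ?_⟩
      simp only [j, Finsupp.erase_add, Finsupp.erase_single, zero_add]
      exact Finsupp.erase_of_notMem_support (Finsupp.notMem_support_iff.2 h3)
    have on : ∀ D : ι →₀ ℕ, b i (j D).1 * (if (j D).2.support ⊆ s then (j D).2.prod b else 0) =
        if D.support ⊆ insert i s then D.prod b else 0 := by
      intro D
      simp only [j, Finsupp.support_erase, subset_insert_iff, mul_ite, mul_zero]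
      rw [Finsupp.mul_prod_erase' D i b fun _ => h0 _]
    constructor
    · have h4 := ((hs i).mul_norm h1).comp_injective inj
      exact h4.congr fun D => congrArg norm (on D)
    · rw [prod_insert hi]
      have h3 := summable_mul_of_summable_norm (f := b i)
        (g := fun D : ι →₀ ℕ => if D.support ⊆ s then D.prod b else 0) (hs i) h1
      have h4 := HasSum.mul (f := b i)
        (g := fun D : ι →₀ ℕ => if D.support ⊆ s then D.prod b else 0)
        (hs i).of_norm.hasSum h2 h3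
      have h5 := (inj.hasSum_iff (f := fun x : ℕ × (ι →₀ ℕ) => b i x.1 *
        (if x.2.support ⊆ s then x.2.prod b else 0)) off).2 h4
      exact h5.congr_fun fun D => (on D).symm

theorem euler {ι : Type} (b : ι → ℕ → ℂ) (h0 : ∀ i, b i 0 = 1)
    (hs : ∀ i, Summable fun n => ‖b i n‖) (h : Summable fun D : ι →₀ ℕ => ‖D.prod b‖) :
    HasProd (fun i => ∑' n, b i n) (∑' D : ι →₀ ℕ, D.prod b) := by
  classical
  have e : (fun s : Finset ι => ∏ i ∈ s, ∑' n, b i n) =
      fun s => ∑' D : ι →₀ ℕ, if D.support ⊆ s then D.prod b else 0 :=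
    funext fun s => (fin_euler b h0 hs s).2.tsum_eq.symm
  change Tendsto (fun s : Finset ι => ∏ i ∈ s, ∑' n, b i n) atTop _
  rw [e]
  refine tendsto_tsum_of_dominated_convergence h (fun D => ?_) (Eventually.of_forall fun s D => ?_)
  · refine tendsto_const_nhds.congr' ?_
    filter_upwards [eventually_ge_atTop D.support] with s hs
    exact (if_pos hs).symm
  · split_ifs
    · exact le_rfl
    · simp

theorem summ {ι : Type} (r : ι → ℝ) (h0 : ∀ i, 0 ≤ r i) (h1 : ∀ i, r i ≤ 1 / 2) (h : Summable r) :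
    Summable fun D : ι →₀ ℕ => D.prod fun i n => r i ^ n := by
  classical
  have hp : ∀ D : ι →₀ ℕ, 0 ≤ D.prod fun i n => r i ^ n := fun D =>
    prod_nonneg fun i _ => pow_nonneg (h0 i) _
  have hl : ∀ i, r i < 1 := fun i => by linarith [h1 i]
  refine summable_of_sum_le (c := Real.exp (∑' i, 2 * r i)) hp fun u => ?_
  have h2 := (fin_euler (fun i n => r i ^ n) (fun _ => pow_zero _) (fun i =>
    (summable_geometric_of_lt_one (h0 i) (hl i)).norm) (u.biUnion Finsupp.support)).2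
  have h3 := sum_le_hasSum u (fun D _ => by split_ifs; exacts [hp D, le_rfl]) h2
  rw [sum_congr rfl fun D hD => if_pos (subset_biUnion_of_mem Finsupp.support hD)] at h3
  refine h3.trans ?_
  refine le_trans ?_ (Real.exp_le_exp.2 ((h.mul_left 2).sum_le_tsum (u.biUnion Finsupp.support)
    fun i _ => by linarith [h0 i]))
  rw [Real.exp_sum]
  refine prod_le_prod (fun i _ => tsum_nonneg fun n => pow_nonneg (h0 i) n) fun i _ => ?_
  rw [tsum_geometric_of_lt_one (h0 i) (hl i)]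
  refine le_trans ?_ (Real.add_one_le_exp _)
  rw [inv_le_iff_one_le_mul₀ (by linarith [hl i])]
  nlinarith [h0 i, h1 i]

open Classical in
theorem twisted {ι : Type} (a N : ι → ℂ) (h1 : ∀ i, ‖a i‖ ≤ 1 / 2) (h : Summable fun i => ‖a i‖)
    (C : Finset ι) : (Summable fun D : ι →₀ ℕ => ‖D.prod fun i n => a i ^ n‖) ∧
      ∃ L, HasProd (fun i => (1 - a i)⁻¹) L ∧
        HasSum (fun D : ι →₀ ℕ => (D.prod fun i n => a i ^ n) *
          ∏ c ∈ C, ((if 1 ≤ D c then N c else 0) - 1)) ((∏ c ∈ C, (a c * N c - 1)) * L) := by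
  have hl : ∀ i, ‖a i‖ < 1 := fun i => by linarith [h1 i]
  have s0 : Summable fun D : ι →₀ ℕ => ‖D.prod fun i n => a i ^ n‖ :=
    (summ (fun i => ‖a i‖) (fun _ => norm_nonneg _) h1 h).congr fun D => by
      simp only [Finsupp.prod, norm_prod, norm_pow]
  have g0 : ∀ i, Summable fun n : ℕ => ‖a i ^ n‖ := fun i =>
    (summable_geometric_of_lt_one (norm_nonneg _) (hl i)).congr fun n => (norm_pow _ _).symm
  have p0 := euler (fun i n => a i ^ n) (fun _ => pow_zero _) g0 s0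
  simp only [fun i => tsum_geometric_of_norm_lt_one (hl i)] at p0
  refine ⟨s0, _, p0, ?_⟩
  let w : ι → ℕ → ℂ := fun i n => if i ∈ C then 1 - (if 1 ≤ n then N i else 0) else 1
  have w0 : ∀ i, w i 0 = 1 := fun i => by simp [w]
  have wb : ∀ i n, ‖w i n‖ ≤ 1 + ‖N i‖ := fun i n => by
    simp only [w]
    split_ifs
    · simpa using norm_sub_le 1 (N i)
    · simp
    · simp
  have ew : ∀ D : ι →₀ ℕ, (D.prod fun i n => a i ^ n * w i n) = (D.prod fun i n => a i ^ n) *
      ∏ c ∈ C, (1 - (if 1 ≤ D c then N c else 0)) := by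
    intro D
    rw [Finsupp.prod_mul]
    congr 1
    rw [Finsupp.prod_of_support_subset D (subset_union_left (s₂ := C)) w fun i _ => w0 i,
      ← prod_subset (subset_union_right (s₁ := D.support)) fun i _ hi => if_neg hi]
    exact prod_congr rfl fun i hi => if_pos hi
  have s1 : Summable fun D : ι →₀ ℕ => ‖D.prod fun i n => a i ^ n * w i n‖ := by
    refine Summable.of_nonneg_of_le (fun _ => norm_nonneg _) (fun D => ?_)
      (s0.mul_right (∏ c ∈ C, (1 + ‖N c‖)))
    rw [ew, norm_mul, norm_prod]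
    refine mul_le_mul_of_nonneg_left (prod_le_prod (fun _ _ => norm_nonneg _) fun c hc => ?_)
      (norm_nonneg _)
    have := wb c (D c)
    simpa only [w, if_pos hc] using this
  have g1 : ∀ i, Summable fun n : ℕ => ‖a i ^ n * w i n‖ := fun i =>
    Summable.of_nonneg_of_le (fun _ => norm_nonneg _)
      (fun n => by rw [norm_mul]; exact mul_le_mul_of_nonneg_left (wb i n) (norm_nonneg _))
      ((g0 i).mul_right (1 + ‖N i‖))
  have p1 := euler (fun i n => a i ^ n * w i n) (fun i => by rw [pow_zero, w0, mul_one]) g1 s1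
  have loc : ∀ i, ∑' n, a i ^ n * w i n = (if i ∈ C then 1 - a i * N i else 1) * (1 - a i)⁻¹ := by
    intro i
    have hg := hasSum_geometric_of_norm_lt_one (hl i)
    have hne : 1 - a i ≠ 0 := fun e => by
      have := hl i
      rw [← sub_eq_zero.1 e, norm_one] at this
      exact lt_irrefl _ this
    by_cases hi : i ∈ C
    · rw [(g1 i).of_norm.tsum_eq_zero_add, pow_zero, w0, if_pos hi]
      have e : ∀ n, a i ^ (n + 1) * w i (n + 1) = a i ^ n * (a i * (1 - N i)) := fun n => by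
        simp only [w, if_pos hi, if_pos (Nat.le_add_left 1 n)]
        ring
      simp only [e]
      rw [(hg.mul_right _).tsum_eq]
      field_simp
      ring
    · simp only [w, if_neg hi, mul_one, one_mul]
      exact hg.tsum_eq
  simp only [loc] at p1
  have p2 : HasProd (fun i => if i ∈ C then 1 - a i * N i else 1) (∏ c ∈ C, (1 - a c * N c)) := by
    rw [← prod_congr rfl fun c hc => if_pos (e := (1 : ℂ)) hc]
    exact hasProd_prod_of_ne_finset_one fun i hi => if_neg hi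
  have p3 := p1.unique (p2.mul p0)
  have p4 := (p3 ▸ s1.of_norm.hasSum).mul_left ((-1) ^ C.card)
  have n1 : ∀ x : ι → ℂ, ∏ c ∈ C, (x c - 1) = (-1) ^ C.card * ∏ c ∈ C, (1 - x c) := fun x => by
    rw [← prod_neg]
    exact prod_congr rfl fun c _ => (neg_sub _ _).symm
  rw [n1, mul_assoc]
  refine p4.congr_fun fun D => ?_
  rw [ew, n1]
  ring

end Pool.Agent.MP_f3cd89_nt.EulX

end

section

set_option autoImplicit false
set_option linter.unusedSectionVars false

open Finset Filter Topology NumberField IsDedekindDomain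

namespace Pool.Agent.MP_f3cd89_nt

namespace EulX

variable {F : Type} [Field F] [NumberField F]

/-- an effective divisor from its multiplicities -/
noncomputable def up (D : Pr F →₀ ℕ) : Pr F →₀ ℤ := D.mapRange (fun n : ℕ => (n : ℤ)) Nat.cast_zero

/-- the multiplicities of an effective divisor -/
noncomputable def dn (D : Pr F →₀ ℤ) : Pr F →₀ ℕ := D.mapRange Int.toNat rfl

theorem up_dn {D : Pr F →₀ ℤ} (h : 0 ≤ D) : up (dn D) = D :=
  Finsupp.ext fun v => Int.toNat_of_nonneg (h v)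

theorem dn_up (D : Pr F →₀ ℕ) : dn (up D) = D := Finsupp.ext fun _ => Int.toNat_natCast _

theorem up_nonneg (D : Pr F →₀ ℕ) : 0 ≤ up D := fun _ => Int.natCast_nonneg _

theorem nmD_up (D : Pr F →₀ ℕ) : nmD (up D) = ((D.prod fun v n => nrm v ^ n : ℕ) : ℝ) := by
  rw [nmD, up, Finsupp.prod_mapRange_index fun _ => zpow_zero _]
  simp [Finsupp.prod]

theorem one_le_nmD {D : Pr F →₀ ℤ} (h : 0 ≤ D) : 1 ≤ nmD D := by
  rw [← up_dn h, nmD_up]
  exact_mod_cast one_le_prod' fun v _ => Nat.one_le_pow _ _ (by have := two_le_nrm v; omega)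

theorem term_up (ψ : Pr F → ℂˣ) (s : ℂ) (D : Pr F →₀ ℕ) :
    ((chv ψ (up D) : ℂˣ) : ℂ) * (nmD (up D) : ℂ) ^ (-s) =
      D.prod fun v n => ((ψ v : ℂ) * (nrm v : ℂ) ^ (-s)) ^ n := by
  let φ : ℕ →* ℂ := ⟨⟨fun n => (n : ℂ) ^ (-s), by simp⟩, fun m n => by
    simp only [Nat.cast_mul]
    exact Complex.natCast_mul_natCast_cpow m n _⟩
  have e : (nmD (up D) : ℂ) ^ (-s) = φ (D.prod fun v n => nrm v ^ n) := by
    rw [nmD_up, Complex.ofReal_natCast]
    rfl
  rw [e, chv, up, Finsupp.prod_mapRange_index fun _ => zpow_zero _]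
  simp only [Finsupp.prod, map_prod, map_pow, zpow_natCast, Units.coe_prod, Units.val_pow_eq_pow_val,
    mul_pow, prod_mul_distrib]
  rfl

open Classical in
theorem main (hC : NTC_st) (hX : CHAR_st) (l : ℕ) [Fact l.Prime]
    (S C : Finset (Pr F)) (ψ : Pr F → ℂˣ) (ζ : ℂ) (hd : Disjoint S C)
    (hl : ∀ c ∈ C, (l : 𝓞 F) ∈ c.asIdeal) (hψ : ∀ v, v ∉ S → ‖(ψ v : ℂ)‖ = 1)
    (hζ : IsPrimitiveRoot ζ l) (s : ℂ) (hs : 1 < s.re) : ∃ L : ℂ,
    HasProd (fun v : {v : Pr F // v ∉ S} => (1 - (ψ v : ℂ) * (nrm v.1 : ℂ) ^ (-s))⁻¹) L ∧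
      HasSum (fun q : Pair l S C => (chv ψ q.1.1 : ℂˣ) * ζ ^ (q.1.2 1).val *
        (nmD q.1.1 : ℂ) ^ (-s)) ((∏ c ∈ C, ((ψ c : ℂ) * (nrm c : ℂ) ^ (1 - s) - 1)) * L) := by
  have hp : l.Prime := Fact.out
  let a : Pr F → ℂ := fun v => if v ∈ S then 0 else (ψ v : ℂ) * (nrm v : ℂ) ^ (-s)
  have ha : ∀ v, ‖a v‖ ≤ (nrm v : ℝ) ^ (-s.re) := fun v => by
    simp only [a]
    split_ifs with h
    · rw [norm_zero]
      positivity
    · rw [norm_mul, hψ v h, one_mul,
        Complex.norm_natCast_cpow_of_pos (by have := two_le_nrm v; omega), Complex.neg_re]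
  have ha2 : ∀ v, ‖a v‖ ≤ 1 / 2 := fun v => by
    have h2 : (2 : ℝ) ≤ nrm v := by exact_mod_cast two_le_nrm v
    refine (ha v).trans ((Real.rpow_le_rpow_of_exponent_le (by linarith)
      (by linarith : -s.re ≤ -1)).trans ?_)
    rw [Real.rpow_neg_one, one_div]
    exact inv_anti₀ two_pos h2
  obtain ⟨s0, L, hL, hS⟩ := twisted a (fun v => (nrm v : ℂ)) ha2
    (Summable.of_nonneg_of_le (fun _ => norm_nonneg _) ha ((hC F).2.2.2.1 _ hs)) C
  refine ⟨L, ?_, ?_⟩
  · have h1 := ((Subtype.val_injective (p := fun v : Pr F => v ∉ S)).hasProd_iff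
      (f := fun v => (1 - a v)⁻¹) fun v hv => by
        have : v ∈ S := by simpa using hv
        simp [a, this]).2 hL
    exact h1.congr_fun fun v => by simp only [Function.comp, a, if_neg v.2]
  have eC : ∏ c ∈ C, ((ψ c : ℂ) * (nrm c : ℂ) ^ (1 - s) - 1) = ∏ c ∈ C, (a c * nrm c - 1) := by
    refine prod_congr rfl fun c hc => ?_
    have h0 : (nrm c : ℂ) ≠ 0 := Nat.cast_ne_zero.2 (by have := two_le_nrm c; omega)
    simp only [a, if_neg (disjoint_right.1 hd hc)]
    rw [sub_eq_add_neg 1 s, Complex.cpow_add _ _ h0, Complex.cpow_one]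
    ring
  rw [eC]
  let m : (Pr F →₀ ℕ) → ℂ := fun D => D.prod fun v n => a v ^ n
  let g : (Pr F →₀ ℕ) × (F → ZMod l) → ℂ := fun x =>
    if IsPrim C (up x.1) x.2 then m x.1 * ζ ^ (x.2 1).val else 0
  have hT : ∀ D : Pr F →₀ ℕ, ∃ T : Finset (F → ZMod l), (∀ χ, χ ∈ T ↔ IsPrim C (up D) χ) ∧
      T.card ≤ ∏ c ∈ C, nrm c ∧ ∑ χ ∈ T, ζ ^ (χ 1).val =
        ∏ c ∈ C, ((if 1 ≤ D c then (nrm c : ℂ) else 0) - 1) := by
    intro D
    obtain ⟨h1, h2, h3⟩ := hX F l C (up D) hl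
    refine ⟨h1.toFinset, fun χ => h1.mem_toFinset, by rwa [← Set.ncard_eq_toFinset_card _ h1], ?_⟩
    rw [← finsum_mem_eq_finite_toFinset_sum _ h1, h3 ζ hζ (up_nonneg D)]
    refine prod_congr rfl fun c _ => ?_
    have : (1 ≤ up D c) ↔ 1 ≤ D c := Nat.one_le_cast (α := ℤ)
    simp only [this]
  choose T hT hTc hTs using hT
  have hz : ‖ζ‖ = 1 := hζ.norm'_eq_one hp.ne_zero
  have f1 : ∀ D, HasSum (fun χ => g (D, χ))
      (m D * ∏ c ∈ C, ((if 1 ≤ D c then (nrm c : ℂ) else 0) - 1)) := by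
    intro D
    rw [← hTs, mul_sum, ← sum_congr rfl fun χ hχ => if_pos (e := (0 : ℂ)) ((hT D χ).1 hχ)]
    exact hasSum_sum_of_ne_finset_zero fun χ hχ => if_neg (mt (hT D χ).2 hχ)
  have f2 : ∀ D, HasSum (fun χ => ‖g (D, χ)‖) ((T D).card * ‖m D‖) := by
    intro D
    have e : ∑ χ ∈ T D, ‖g (D, χ)‖ = (T D).card * ‖m D‖ := by
      rw [← nsmul_eq_mul, ← sum_const]
      refine sum_congr rfl fun χ hχ => ?_
      simp only [g, if_pos ((hT D χ).1 hχ), norm_mul, norm_pow, hz, one_pow, mul_one]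
    rw [← e]
    exact hasSum_sum_of_ne_finset_zero fun χ hχ => by
      simp only [g, if_neg (mt (hT D χ).2 hχ), norm_zero]
  have sg : Summable fun x => ‖g x‖ := by
    refine (summable_prod_of_nonneg fun _ => norm_nonneg _).2 ⟨fun D => (f2 D).summable, ?_⟩
    simp only [fun D => (f2 D).tsum_eq]
    refine Summable.of_nonneg_of_le (fun _ => by positivity) (fun D => ?_)
      (s0.mul_left ((∏ c ∈ C, nrm c : ℕ) : ℝ))
    exact mul_le_mul_of_nonneg_right (by exact_mod_cast hTc D) (norm_nonneg _)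
  have hg : HasSum g ((∏ c ∈ C, (a c * nrm c - 1)) * L) := by
    have h1 := sg.of_norm.hasSum
    rwa [(h1.prod_fiberwise f1).unique hS] at h1
  let j : Pair l S C → (Pr F →₀ ℕ) × (F → ZMod l) := fun q => (dn q.1.1, q.1.2)
  have inj : Function.Injective j := by
    intro q q' e
    have e1 : dn q.1.1 = dn q'.1.1 := congrArg Prod.fst e
    have e2 : (j q).2 = (j q').2 := congrArg Prod.snd e
    refine Subtype.ext (Prod.ext ?_ e2)
    rw [← up_dn q.2.1, e1, up_dn q'.2.1]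
  refine ((inj.hasSum_iff (f := g) ?_).2 hg).congr_fun fun q => ?_
  · rintro ⟨D, χ⟩ hx
    simp only [g]
    split_ifs with h
    · by_cases ho : up D ∈ off S
      · exact absurd ⟨⟨(up D, χ), up_nonneg D, ho, h⟩, Prod.ext (dn_up D) rfl⟩ hx
      · rw [mem_off] at ho
        push Not at ho
        obtain ⟨v, hv, h0⟩ := ho
        have h1 : D v ≠ 0 := fun e => h0 (Int.natCast_eq_zero.2 e)
        have h2 : m D = 0 := prod_eq_zero (Finsupp.mem_support_iff.2 h1) (by
          simp only [a, if_pos hv]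
          exact zero_pow h1)
        rw [h2, zero_mul]
    · rfl
  · simp only [Function.comp, g, j, up_dn q.2.1, if_pos q.2.2.2]
    rw [mul_right_comm]
    congr 1
    have h1 := term_up ψ s (dn q.1.1)
    rw [up_dn q.2.1] at h1
    rw [h1]
    refine prod_congr rfl fun v hv => ?_
    have h2 : v ∉ S := fun h => Finsupp.mem_support_iff.1 hv (by
      simp only [dn, Finsupp.mapRange_apply, q.2.2.1 v h, Int.toNat_zero])
    simp only [a, if_neg h2]

end EulX

open EulX in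
theorem eul (hC : NTC_st) (hX : CHAR_st) : EUL_st := by
  intro F _ _ l _ S C ψ ζ hd hl hψ hζ
  have hm := main hC hX l S C ψ ζ hd hl hψ hζ
  refine ⟨fun f σ₀ hf h => ⟨hf, fun s hs => ?_⟩, fun f hf s hs => ?_⟩
  · obtain ⟨L, h1, h2⟩ := hm s hs
    refine ⟨L, h1, ?_⟩
    rw [← h2.tsum_eq]
    let σ : ℝ := (1 + s.re) / 2
    have hσ : 1 < (σ : ℂ).re := by simp only [σ, Complex.ofReal_re]; linarith
    obtain ⟨_, -, h3⟩ := hm σ hσ
    let U : Set ℂ := {z | σ < z.re}
    have hU : IsOpen U := isOpen_lt continuous_const Complex.continuous_re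
    have hG := Complex.differentiableOn_tsum_of_summable_norm (U := U)
      (F := fun (q : Pair l S C) (z : ℂ) => (chv ψ q.1.1 : ℂˣ) * ζ ^ (q.1.2 1).val *
        (nmD q.1.1 : ℂ) ^ (-z)) h3.summable.norm (fun q => ?_) hU fun q z hz => ?_
    · let z₀ : ℂ := (max σ σ₀ + 1 : ℝ)
      have hz₀ : max σ σ₀ < z₀.re := by simp [z₀]
      have ev : ∀ᶠ z in 𝓝 z₀, max σ σ₀ < z.re :=
        (isOpen_lt continuous_const Complex.continuous_re).mem_nhds hz₀
      refine (hf.differentiableOn.analyticOnNhd hU).eqOn_of_preconnected_of_eventuallyEq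
        (hG.analyticOnNhd hU) (convex_halfSpace_re_gt σ).isPreconnected (z₀ := z₀)
        ((le_max_left _ _).trans_lt hz₀)
        (ev.mono fun z hz => (h z ((le_max_right _ _).trans_lt hz)).tsum_eq.symm) ?_
      change σ < s.re
      simp only [σ]
      linarith
    · have h0 : (nmD q.1.1 : ℂ) ≠ 0 :=
        Complex.ofReal_ne_zero.2 (by linarith [one_le_nmD q.2.1])
      exact ((differentiable_neg.const_cpow (Or.inl h0)).const_mul _).differentiableOn
    · have h0 := one_le_nmD q.2.1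
      rw [norm_mul, norm_mul _ (_ ^ (-(σ : ℂ)))]
      refine mul_le_mul_of_nonneg_left ?_ (norm_nonneg _)
      rw [Complex.norm_cpow_eq_rpow_re_of_pos (by linarith),
        Complex.norm_cpow_eq_rpow_re_of_pos (by linarith)]
      refine Real.rpow_le_rpow_of_exponent_le h0 ?_
      have : σ < z.re := hz
      simp only [Complex.neg_re, Complex.ofReal_re]
      linarith
  · obtain ⟨L, h1, h2⟩ := hm s hs
    obtain ⟨L', h3, h4⟩ := hf.2 s hs
    rwa [h4, h3.unique h1]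

end Pool.Agent.MP_f3cd89_nt

end

section

/-! The first inequality for totally real cyclic extensions. -/

set_option autoImplicit false

open Finset NumberField IsDedekindDomain

namespace Pool.Agent.MP_f3cd89_nt

namespace FiX

theorem relIndex_ne {A : Type} [AddCommGroup A] (H K : AddSubgroup A) (T : Set A) (hT : T.Finite)
    (h : ∀ D ∈ K, ∃ y ∈ H, D - y ∈ T) : H.relIndex K ≠ 0 := by
  choose y hy hy' using h
  have := hT.to_subtype
  let t : K → T := fun D => ⟨D - y D D.2, hy' D D.2⟩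
  have hs : Function.Surjective fun a : T =>
      (QuotientAddGroup.mk (Function.invFun t a) : K ⧸ H.addSubgroupOf K) := fun q => by
    obtain ⟨D, rfl⟩ := QuotientAddGroup.mk_surjective q
    refine ⟨t D, QuotientAddGroup.eq.2 ?_⟩
    have e := congrArg Subtype.val (Function.invFun_eq (f := t) ⟨D, rfl⟩)
    generalize Function.invFun t (t D) = D' at e
    have e' : -(D' : A) + D = y D D.2 - y D' D'.2 := by
      change (D' : A) - y D' D'.2 = D - y D D.2 at e
      rw [sub_eq_sub_iff_sub_eq_sub] at e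
      rw [neg_add_eq_sub, ← neg_sub, e, neg_sub]
    change -(D' : A) + D ∈ H
    rw [e']
    exact sub_mem (hy _ _) (hy _ _)
  have := Finite.of_surjective _ hs
  exact AddSubgroup.index_ne_zero_of_finite

section Perm

variable {G W : Type} [Group G] [MulAction G W]

/-- the action on divisors -/
noncomputable def tD (g : G) : AddMonoid.End (W →₀ ℤ) :=
  Finsupp.mapDomain.addMonoidHom fun w : W => g • w

theorem tD_apply (g : G) (x : W →₀ ℤ) (w : W) : tD g x (g • w) = x w :=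
  Finsupp.mapDomain_apply (MulAction.injective g) x w

theorem tD_single (g : G) (w : W) (c : ℤ) :
    tD g (Finsupp.single w c) = Finsupp.single (g • w) c := Finsupp.mapDomain_single

theorem tD_one : tD (W := W) (1 : G) = 1 :=
  Finsupp.addHom_ext fun w c => (tD_single 1 w c).trans (by rw [one_smul]; rfl)

theorem tD_mul (g h : G) : tD (W := W) (g * h) = tD g * tD h :=
  Finsupp.addHom_ext fun w c => (tD_single _ w c).trans (by
    change _ = tD g (tD h (Finsupp.single w c))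
    rw [tD_single, tD_single, mul_smul])

theorem tD_pow (g : G) (i : ℕ) : tD (W := W) g ^ i = tD (g ^ i) := by
  induction i with
  | zero => rw [pow_zero, pow_zero, tD_one]
  | succ i ih => rw [pow_succ, pow_succ, ih, tD_mul]

variable {γ : G} (hγ : ∀ g, g ∈ Subgroup.zpowers γ)
include hγ

theorem nm_eq [Fintype G] (x : W →₀ ℤ) : nmH (tD γ) (Nat.card G) x = ∑ g : G, tD g x := by
  classical
  rw [← IsCyclic.image_range_card hγ, Finset.sum_image]
  · exact (AddMonoidHom.finsetSum_apply (fun i => tD γ ^ i) _ x).trans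
      (Finset.sum_congr rfl fun i _ => DFunLike.congr_fun (tD_pow γ i) x)
  · rw [← orderOf_eq_card_of_forall_mem_zpowers hγ, Finset.coe_range]
    exact pow_injOn_Iio_orderOf

theorem h_one [Finite G] (x : W →₀ ℤ) (hx : nmH (tD γ) (Nat.card G) x = 0) :
    ∃ y, x = tD γ y - y := by
  have := Fintype.ofFinite G
  let R : AddSubgroup (W →₀ ℤ) := AddMonoidHom.range (tD γ - 1 : AddMonoid.End (W →₀ ℤ))
  have h1 : ∀ (g : G) (y : W →₀ ℤ), tD g y - y ∈ R := fun g y => by
    obtain ⟨n, rfl⟩ : ∃ n : ℕ, γ ^ n = g := mem_powers_iff_mem_zpowers.2 (hγ g)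
    induction n with
    | zero => rw [pow_zero, tD_one]; exact (sub_self y).symm ▸ zero_mem _
    | succ n ih =>
      have := add_mem (show tD γ (tD (γ ^ n) y) - tD (γ ^ n) y ∈ R from ⟨_, rfl⟩) ih
      rwa [pow_succ', tD_mul, ← sub_add_sub_cancel _ (tD (γ ^ n) y)]
  let r : W → W := fun w => (Quotient.mk (MulAction.orbitRel G W) w).out
  have hr1 : ∀ w, ∃ g : G, g • w = r w := fun w =>
    Quotient.exact (Quotient.out_eq (Quotient.mk (MulAction.orbitRel G W) w))
  have hr2 : ∀ (g : G) w, r (g • w) = r w := fun g w =>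
    congrArg Quotient.out (Quotient.sound (s := MulAction.orbitRel G W) ⟨g, rfl⟩)
  have h2 : ∀ y : W →₀ ℤ, y.mapDomain r - y ∈ R := fun y => by
    induction y using Finsupp.induction_linear with
    | zero => simp
    | add a b ha hb =>
      rw [Finsupp.mapDomain_add, add_sub_add_comm]
      exact add_mem ha hb
    | single w c =>
      obtain ⟨g, hg⟩ := hr1 w
      rw [Finsupp.mapDomain_single, ← hg, ← tD_single]
      exact h1 g _
  have h3 : ∀ g : G, (tD g x).mapDomain r = x.mapDomain r := fun g =>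
    Finsupp.mapDomain_comp.symm.trans (congrArg (Finsupp.mapDomain · x) (funext (hr2 g)))
  have h4 : x.mapDomain r = 0 := by
    have := congrArg (Finsupp.mapDomain r) hx
    rw [nm_eq hγ, Finsupp.mapDomain_finsetSum, Finsupp.mapDomain_zero,
      Finset.sum_congr rfl fun g _ => h3 g, Finset.sum_const, Finset.card_univ] at this
    exact (nsmul_eq_zero_iff.1 this).resolve_right Fintype.card_ne_zero
  obtain ⟨y, hy⟩ := neg_mem (h2 x)
  rw [h4, zero_sub, neg_neg] at hy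
  exact ⟨y, hy.symm⟩

variable {B : Type} {u : W → B} (hu1 : ∀ (g : G) w, u (g • w) = u w)
  (hu2 : ∀ w w', u w = u w' → ∃ g : G, g • w = w') {ex : (B →₀ ℤ) →+ (W →₀ ℤ)}
  (hex : ∀ D w, ex D w = D (u w))
include hu1 hu2 hex

theorem nm_single [Finite G] (w : W) (f : G) (hf : ∀ g : G, g • w = w ↔ g ∈ Subgroup.zpowers f) :
    nmH (tD γ) (Nat.card G) (Finsupp.single w 1) = ex (Finsupp.single (u w) (orderOf f : ℤ)) := by
  classical
  have := Fintype.ofFinite G
  ext w'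
  rw [nm_eq hγ, hex, Finsupp.finsetSum_apply]
  simp only [tD_single]
  by_cases h : u w = u w'
  · obtain ⟨g, rfl⟩ := hu2 w w' h
    rw [hu1, Finsupp.single_eq_same, ← Equiv.sum_comp (Equiv.mulLeft g)]
    simp only [Equiv.coe_mulLeft, Finsupp.single_apply, mul_smul, smul_left_cancel_iff, hf,
      Finset.sum_boole]
    rw [← Nat.card_zpowers, Nat.card_eq_fintype_card, Fintype.card_subtype]
  · rw [Finsupp.single_eq_of_ne (Ne.symm h)]
    exact Finset.sum_eq_zero fun g _ => Finsupp.single_eq_of_ne fun e => h (by rw [e, hu1])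

omit hγ hu2 in
theorem tD_ex (g : G) (D : B →₀ ℤ) : tD g (ex D) = ex D := by
  ext w
  rw [← smul_inv_smul g w, tD_apply, hex, hex, hu1 g]

omit hu1 in
theorem descend [Finite G] {x : W →₀ ℤ} (hx : tD γ x = x) :
    ∃ D, (∀ v, (∀ w, u w ≠ v) → D v = 0) ∧ ex D = x := by
  classical
  have h1 : ∀ (g : G) w, x (g • w) = x w := fun g w => by
    obtain ⟨n, rfl⟩ : ∃ n : ℕ, γ ^ n = g := mem_powers_iff_mem_zpowers.2 (hγ g)
    induction n with
    | zero => rw [pow_zero, one_smul]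
    | succ n ih => rw [pow_succ', mul_smul, ← ih, ← tD_apply γ x (γ ^ n • w), hx]
  refine ⟨Finsupp.onFinset (x.support.image u)
    (fun v => if h : ∃ w, u w = v then x h.choose else 0) fun v hv => ?_, fun v hv => ?_, ?_⟩
  · by_cases h : ∃ w, u w = v
    · rw [dif_pos h] at hv
      exact Finset.mem_image.2 ⟨_, Finsupp.mem_support_iff.2 hv, h.choose_spec⟩
    · exact (hv (dif_neg h)).elim
  · exact dif_neg fun ⟨w, hw⟩ => hv w hw
  · ext w
    have h : ∃ w', u w' = u w := ⟨w, rfl⟩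
    obtain ⟨g, hg⟩ := hu2 _ _ h.choose_spec
    rw [hex, Finsupp.onFinset_apply, dif_pos h, ← h1 g, hg]

end Perm

theorem sA_pow {L G : Type} [Field L] [Group G] [MulSemiringAction G L] (g : G) (i : ℕ) :
    sA (L := L) g ^ i = sA (g ^ i) := by
  induction i with
  | zero =>
    rw [pow_zero, pow_zero]
    exact AddMonoidHom.ext fun a => Additive.toMul.injective (Units.ext (one_smul G _).symm)
  | succ i ih =>
    rw [pow_succ, pow_succ, ih]
    exact AddMonoidHom.ext fun a => Additive.toMul.injective (Units.ext (mul_smul _ _ _).symm)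

/-- the divisor of an element outside `T` -/
noncomputable def jD {L : Type} [Field L] [NumberField L] (T : Finset (Pr L)) :
    Additive Lˣ →+ ({w : Pr L // w ∉ T} →₀ ℤ) where
  toFun a := (dv ((Additive.toMul a : Lˣ) : L)).subtypeDomain _
  map_zero' := by ext w; exact ord_one w.1
  map_add' x y := by ext w; exact ord_mul w.1 (Units.ne_zero _) (Units.ne_zero _)

theorem jD_apply {L : Type} [Field L] [NumberField L] (T : Finset (Pr L)) (a : Additive Lˣ)
    (w : {w : Pr L // w ∉ T}) : jD T a w = ord w.1 ((Additive.toMul a : Lˣ) : L) := rfl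

/-- extension of divisors -/
noncomputable def exD {F : Type} [Field F] [NumberField F] (L : Type) [Field L] [NumberField L]
    [Algebra F L] (T : Finset (Pr L)) : (Pr F →₀ ℤ) →+ ({w : Pr L // w ∉ T} →₀ ℤ) where
  toFun D := (extD L D).subtypeDomain _
  map_zero' := by ext w; rfl
  map_add' x y := by ext w; rfl

theorem cong_up {F L : Type} [Field F] [NumberField F] [Field L] [NumberField L] [Algebra F L]
    {S : Finset (Pr F)} {N : ℕ} {x : F} (h : Cong S N x) :
    Cong (above L S) N (algebraMap F L x) := fun w hw => by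
  have h1 := h _ (mem_above.1 hw)
  rw [← map_one (algebraMap F L), ← map_sub, val_over (over_under w)]
  refine (pow_le_of_le_one zero_le (h1.trans ?_)
    (w.asIdeal.ramificationIdx_pos (𝓞 F)).ne').trans h1
  rw [← WithZero.exp_zero, WithZero.exp_le_exp]
  omega

end FiX

open FiX

theorem fi (hH : HERB_st) (hU : UNITH_st) (hV : VLAT_st) (hF : FB_st) (hT : TOW_st)
    (hB : NTB_st) : FI_st := by
  intro F L G _ _ _ _ _ _ _ _ _ _ S φ hc hS hun hφ
  classical
  obtain ⟨γ, hγ⟩ := hc.exists_generator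
  obtain ⟨V, N, hN, hV1, hV2, hV3, hV4⟩ := hV F L G γ S hS hγ
  obtain ⟨f1, f2, -, -, -, f6, -, f8⟩ := hF F L G
  have hfa : FaithfulSMul G L := IsGaloisGroup.faithful F
  refine ⟨N, hN, ?_⟩
  let _ : MulAction G {w : Pr L // w ∉ above L S} :=
    { smul := fun g w => ⟨gact g w.1, fun h => w.2 (by rwa [mem_above, f1, ← mem_above] at h)⟩
      one_smul := fun w => Subtype.ext (gact_one _)
      mul_smul := fun g h w => Subtype.ext (gact_mul _ _ _) }
  have hu1 : ∀ (g : G) (w : {w : Pr L // w ∉ above L S}),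
      (g • w).1.under (𝓞 F) = w.1.under (𝓞 F) := fun g w => f1 g w.1
  have hu2 : ∀ w w' : {w : Pr L // w ∉ above L S}, w.1.under (𝓞 F) = w'.1.under (𝓞 F) →
      ∃ g : G, g • w = w' := fun w w' h => (f2 _ _ h).imp fun _ hg => Subtype.ext hg
  have hex : ∀ (D : Pr F →₀ ℤ) (w : {w : Pr L // w ∉ above L S}),
      exD L (above L S) D w = D (w.1.under (𝓞 F)) := fun _ _ => rfl
  have hj : ∀ a, jD (above L S) (sA γ a) = tD γ (jD (above L S) a) := fun a => by
    ext w
    rw [← smul_inv_smul γ w, tD_apply]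
    exact ord_gact γ _ _
  obtain ⟨M, hM, hM'⟩ := (hB L).2.2.1 (above L S) N
  have e1 : ∀ a ∈ V ⊓ (jD (above L S)).ker, sA γ a ∈ V ⊓ (jD (above L S)).ker := fun a ha => by
    rw [AddSubgroup.mem_inf, AddMonoidHom.mem_ker] at ha ⊢
    exact ⟨hV1 a ha.1, by rw [hj, ha.2, map_zero]⟩
  have e2 : ∀ a ∈ V ⊓ (jD (above L S)).ker, dv ((Additive.toMul a : Lˣ) : L) = 0 := fun a ha => by
    rw [AddSubgroup.mem_inf, AddMonoidHom.mem_ker] at ha
    ext w
    rw [dv_apply, Finsupp.zero_apply]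
    by_cases hw : w ∈ above L S
    · refine (val_eq_one_iff w (Units.ne_zero _)).1 (val_one_of _ ((hV2 a ha.1 w hw).trans_lt ?_))
      rw [← WithZero.exp_zero, WithZero.exp_lt_exp]
      omega
    · rw [← jD_apply (above L S) a ⟨w, hw⟩, ha.2, Finsupp.zero_apply]
  have e3 : ∀ a : Additive Lˣ, dv ((Additive.toMul a : Lˣ) : L) = 0 →
      M • a ∈ V ⊓ (jD (above L S)).ker := fun a ha => by
    have h0 : ∀ w, ord w ((Additive.toMul a : Lˣ) : L) = 0 := fun w => by
      rw [← dv_apply, ha, Finsupp.zero_apply]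
    have h1 : jD (above L S) a = 0 := Finsupp.ext fun w => h0 w.1
    rw [AddSubgroup.mem_inf, AddMonoidHom.mem_ker, map_nsmul, h1, nsmul_zero]
    refine ⟨hV3 (M • a) ?_, rfl⟩
    rw [toMul_nsmul, Units.val_pow_eq_pow_val]
    exact hM' _ (Units.ne_zero _) fun w _ => h0 w
  obtain ⟨hz0, hho⟩ := hU L G γ (V ⊓ (jD (above L S)).ker) M hγ e1 e2 hM e3
  have hK : (off S).map (exD L (above L S)) =
      AddMonoidHom.ker (tD γ - 1 : AddMonoid.End ({w : Pr L // w ∉ above L S} →₀ ℤ)) := by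
    ext x
    refine ⟨?_, fun hx => ?_⟩
    · rintro ⟨D, -, rfl⟩
      exact sub_eq_zero.2 (tD_ex hu1 hex γ D)
    · obtain ⟨D, hD, rfl⟩ := descend hγ hu2 hex (x := x) (sub_eq_zero.1 hx)
      exact ⟨D, fun v hv => hD v fun w e => w.2 (mem_above.2 (e ▸ hv)), rfl⟩
  have hle : (HF S S N fun v => orderOf (φ v)) ≤
      ((V ⊓ AddMonoidHom.ker (sA γ - 1 : AddMonoid.End (Additive Lˣ))).map (jD (above L S)) ⊔
        AddMonoidHom.range (nmH (tD γ) (Nat.card G))).comap (exD L (above L S)) := by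
    refine (AddSubgroup.closure_le _).2 ?_
    rintro _ (⟨x, hx, rfl⟩ | ⟨v, hv, rfl⟩)
    · refine AddSubgroup.mem_sup_left ⟨Additive.ofMul (Units.mk0 (algebraMap F L x)
        ((map_ne_zero _).2 hx.1)), ⟨hV3 _ (cong_up hx.2.2), sub_eq_zero.2
          (Additive.toMul.injective (Units.ext (smul_algebraMap γ x)))⟩, ?_⟩
      ext w
      refine (ord_over (over_under w.1) x).trans ?_
      rw [(f6 w.1).1 (hun w.1 fun h => w.2 (mem_above.2 h)), Nat.cast_one, one_mul]
      rfl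
    · obtain ⟨w, rfl, hw⟩ := hφ v hv
      exact AddSubgroup.mem_sup_right ⟨_, nm_single hγ hu1 hu2 hex
        ⟨w, fun h => hv (mem_above.1 h)⟩ _ fun g =>
          Subtype.ext_iff.trans ((f8 w _ (hun w hv) hw).2.1 g)⟩
  have hne : (HF S S N fun v => orderOf (φ v)).relIndex (off S) ≠ 0 := by
    obtain ⟨T, hT⟩ := (hB F).2.1 S N
    refine relIndex_ne _ _ T T.finite_toSet fun D hD => ?_
    obtain ⟨x, hx, hx'⟩ := hT D hD
    exact ⟨dv x, AddSubgroup.subset_closure (Or.inl ⟨x, hx, rfl⟩), hx'⟩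
  have hdvd := AddSubgroup.relIndex_dvd_of_le_left (off S) hle
  rw [AddSubgroup.relIndex_comap, hK] at hdvd
  have hidx : (V.map (jD (above L S))).index ≠ 0 := by
    obtain ⟨T, hT⟩ := (hB L).2.1 (above L S) N
    rw [← AddSubgroup.relIndex_top_right]
    refine relIndex_ne _ _ _ (T.finite_toSet.image (Finsupp.subtypeDomain (· ∉ above L S)))
      fun x _ => ?_
    obtain ⟨y, hy, hy'⟩ := hT x.extendDomain fun w hw => dif_neg (not_not.2 hw)
    refine ⟨_, ⟨Additive.ofMul (Units.mk0 y hy.1), hV3 _ hy.2.2, rfl⟩, _, hy', ?_⟩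
    rw [Finsupp.subtypeDomain_sub, Finsupp.subtypeDomain_extendDomain]
    rfl
  have e4 : sA (L := L) γ ^ Nat.card G = 1 := by
    rw [sA_pow, pow_card_eq_one', ← pow_zero (1 : G), ← sA_pow, pow_zero]
  have e5 : tD (W := {w : Pr L // w ∉ above L S}) γ ^ Nat.card G = 1 := by
    rw [tD_pow, pow_card_eq_one', tD_one]
  have e6 := ne_zero_of_dvd_ne_zero hne hdvd
  have e7 := Nat.le_of_dvd (Nat.pos_of_ne_zero hne) hdvd
  have key := hH (Additive Lˣ) ({w : Pr L // w ∉ above L S} →₀ ℤ) (sA γ) (tD γ) (Nat.card G) V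
    (jD (above L S)) e4 e5 hV1 hj hidx hV4 (h_one hγ) hz0 e6
  exact (Nat.le_of_mul_le_mul_right (hho.symm.le.trans key) (Nat.pos_of_ne_zero hz0)).trans e7

end Pool.Agent.MP_f3cd89_nt

end

section

set_option autoImplicit false

open Finset NumberField IsDedekindDomain Polynomial

namespace Pool.Agent.MP_f3cd89_nt

namespace CycloX

theorem irred (L : Type) [Field L] [NumberField L] (m : ℕ) [NeZero m]
    (h : m.Coprime (discr L).natAbs) : Irreducible (cyclotomic m L) := by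
  let Ω := CyclotomicField m L
  have : NumberField Ω := IsCyclotomicExtension.numberField {m} L Ω
  have hζ := IsCyclotomicExtension.zeta_spec m L Ω
  generalize IsCyclotomicExtension.zeta m L Ω = ζ at hζ
  obtain ⟨A, hA⟩ : ∃ A : IntermediateField ℚ Ω, IsCyclotomicExtension {m} ℚ A :=
    ⟨_, hζ.intermediateField_adjoin_isCyclotomicExtension ℚ⟩
  have : IsGalois ℚ A := IsCyclotomicExtension.isGalois {m} ℚ A
  have h1 : IsCoprime (discr A) (discr (IsScalarTower.toAlgHom ℚ L Ω).fieldRange) := by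
    rw [← discr_eq_discr_of_ringEquiv L (L := (IsScalarTower.toAlgHom ℚ L Ω).fieldRange)
      (AlgEquiv.ofInjectiveField (IsScalarTower.toAlgHom ℚ L Ω)).toRingEquiv,
      Int.isCoprime_iff_nat_coprime, IsCyclotomicExtension.Rat.natAbs_discr m A]
    exact (h.pow_left _).coprime_div_left
      (Nat.prod_primeFactors_pow_totient_ediv_dvd (NeZero.pos _))
  have h2 : A.LinearDisjoint L :=
    IntermediateField.linearDisjoint_iff'.1 (linearDisjoint_of_isGalois_isCoprime_discr Ω _ _ h1)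
  have : Module.Finite L Ω := Module.Finite.of_restrictScalars_finite ℚ L Ω
  have h3 :=
    (h2.linearIndependent_left (Module.finBasis ℚ A).linearIndependent).fintype_card_le_finrank
  rw [Fintype.card_fin, IsCyclotomicExtension.Rat.finrank m A, (hζ.powerBasis L).finrank,
    hζ.powerBasis_dim L] at h3
  have hi : IsIntegral L ζ := IsIntegral.of_finite L ζ
  rw [eq_of_monic_of_dvd_of_natDegree_le (minpoly.monic hi) (cyclotomic.monic m L)
    (minpoly.dvd L ζ (by
      rw [aeval_def, eval₂_eq_eval_map, map_cyclotomic]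
      exact hζ.isRoot_cyclotomic (NeZero.pos m))) (by rwa [natDegree_cyclotomic])]
  exact minpoly.irreducible hi

theorem ex_field (L : Type) [Field L] [NumberField L] (m : ℕ) [NeZero m]
    (h : Irreducible (cyclotomic m L)) :
    ∃ (Ω : Type) (_ : Field Ω) (_ : NumberField Ω) (_ : Algebra L Ω) (ζ : Ω),
      IsPrimitiveRoot ζ m ∧ Module.finrank L Ω = m.totient ∧
      (∀ (T : Type) [Field T] (f g : Ω →+* T), (∀ x, f (algebraMap L Ω x) = g (algebraMap L Ω x)) →
        f ζ = g ζ → f = g) ∧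
      ∀ (i : L →+* Ω) (ξ : Ω), IsPrimitiveRoot ξ m →
        ∃ f : Ω →+* Ω, (∀ x, f (algebraMap L Ω x) = i x) ∧ f ζ = ξ := by
  have : Fact (Irreducible (cyclotomic m L)) := ⟨h⟩
  have := (AdjoinRoot.powerBasis h.ne_zero).finite
  have hN := NumberField.of_module_finite L (AdjoinRoot (cyclotomic m L))
  refine ⟨AdjoinRoot (cyclotomic m L), inferInstance, hN, inferInstance, AdjoinRoot.root _,
    ?_, ?_, fun T _ f g h1 h2 => AdjoinRoot.ringHom_ext (RingHom.ext h1) h2, fun i ξ hξ => ?_⟩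
  · rw [← isRoot_cyclotomic_iff_charZero (NeZero.pos m),
      ← map_cyclotomic m (AdjoinRoot.of (cyclotomic m L))]
    exact AdjoinRoot.isRoot_root _
  · rw [(AdjoinRoot.powerBasis h.ne_zero).finrank, AdjoinRoot.powerBasis_dim, natDegree_cyclotomic]
  · have h1 : (cyclotomic m L).eval₂ i ξ = 0 := by
      rw [eval₂_eq_eval_map, map_cyclotomic]
      exact hξ.isRoot_cyclotomic (NeZero.pos m)
    exact ⟨AdjoinRoot.lift i ξ h1, fun x => AdjoinRoot.lift_of h1, AdjoinRoot.lift_root h1⟩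

theorem ex_action {L Ω : Type} (G : Type) [Field L] [Field Ω] [Algebra L Ω] [Group G]
    [MulSemiringAction G L] {m : ℕ} [NeZero m] {ζ : Ω} (hζ : IsPrimitiveRoot ζ m)
    (h1 : ∀ f g : Ω →+* Ω, (∀ x, f (algebraMap L Ω x) = g (algebraMap L Ω x)) → f ζ = g ζ → f = g)
    (h2 : ∀ (i : L →+* Ω) (ξ : Ω), IsPrimitiveRoot ξ m →
      ∃ f : Ω →+* Ω, (∀ x, f (algebraMap L Ω x) = i x) ∧ f ζ = ξ) :
    ∃ _ : MulSemiringAction (G × (ZMod m)ˣ) Ω,
      (∀ (p : G × (ZMod m)ˣ) (x : L), p • algebraMap L Ω x = algebraMap L Ω (p.1 • x)) ∧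
      ∀ p : G × (ZMod m)ˣ, p • ζ = ζ ^ (p.2 : ZMod m).val := by
  choose σ s1 s2 using fun p : G × (ZMod m)ˣ =>
    h2 ((algebraMap L Ω).comp (MulSemiringAction.toRingHom G L p.1)) (ζ ^ (p.2 : ZMod m).val)
      (hζ.pow_of_coprime _ (ZMod.val_coe_unit_coprime p.2))
  have s1' : ∀ p x, σ p (algebraMap L Ω x) = algebraMap L Ω (p.1 • x) := s1
  have e1 : σ 1 = RingHom.id Ω := h1 _ _ (fun x => by rw [s1', Prod.fst_one, one_smul]; rfl) (by
    rw [s2, Prod.snd_one, Units.val_one, ZMod.val_one_eq_one_mod, ← pow_eq_pow_mod _ hζ.1, pow_one]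
    rfl)
  have e2 : ∀ p q, σ (p * q) = (σ p).comp (σ q) := fun p q => h1 _ _
    (fun x => by rw [RingHom.comp_apply, s1', s1', s1', Prod.fst_mul, mul_smul]) (by
      rw [RingHom.comp_apply, s2, s2, map_pow, s2, Prod.snd_mul, Units.val_mul, ZMod.val_mul,
        ← pow_eq_pow_mod _ hζ.1, pow_mul])
  exact ⟨{ smul := fun p x => σ p x
           one_smul := fun x => DFunLike.congr_fun e1 x
           mul_smul := fun p q x => DFunLike.congr_fun (e2 p q) x
           smul_zero := fun p => map_zero (σ p)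
           smul_add := fun p => map_add (σ p)
           smul_one := fun p => map_one (σ p)
           smul_mul := fun p => map_mul (σ p) }, s1', s2⟩

theorem unit_eq {M : Type} [CommRing M] [IsDomain M] {m : ℕ} [NeZero m] {ζ : M}
    (hζ : IsPrimitiveRoot ζ m) {a b : (ZMod m)ˣ}
    (h : ζ ^ (a : ZMod m).val = ζ ^ (b : ZMod m).val) : a = b :=
  Units.ext (ZMod.val_injective m (hζ.pow_inj (ZMod.val_lt _) (ZMod.val_lt _) h))

theorem cop {E : Type} [Field E] [NumberField E] {m : ℕ} (w : Pr E)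
    (h : (m : 𝓞 E) ∉ w.asIdeal) : (nrm w).Coprime m := by
  have := w.isMaximal
  obtain ⟨p, n, -, h2, h3, h4⟩ := Ideal.exists_prime_and_absNorm_eq_pow w.asIdeal
  rw [nrm, h4]
  refine Nat.Coprime.pow_left _ (h3.coprime_iff_not_dvd.2 ?_)
  rintro ⟨c, rfl⟩
  exact h (by rw [Nat.cast_mul]; exact Ideal.mul_mem_right _ _ h2)

section

variable {F L Ω G : Type} [Field F] [NumberField F] [Field L] [NumberField L] [Field Ω]
  [NumberField Ω] [Algebra F L] [Algebra L Ω] [Algebra F Ω] [IsScalarTower F L Ω] [Group G]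
  [Finite G] [MulSemiringAction G L] [IsGaloisGroup G F L] {m : ℕ} [NeZero m]
  [MulSemiringAction (G × (ZMod m)ˣ) Ω] {ζ : Ω} (hζ : IsPrimitiveRoot ζ m)
  (h1 : ∀ (p : G × (ZMod m)ˣ) (x : L), p • algebraMap L Ω x = algebraMap L Ω (p.1 • x))
  (h2 : ∀ p : G × (ZMod m)ˣ, p • ζ = ζ ^ (p.2 : ZMod m).val)

include hζ h1 h2

omit [NumberField F] [NumberField L] [NumberField Ω] in
theorem galois (h3 : Module.finrank L Ω = m.totient) : IsGaloisGroup (G × (ZMod m)ˣ) F Ω := by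
  have hf : FaithfulSMul (G × (ZMod m)ˣ) Ω := ⟨fun {p q} h => Prod.ext
    ((IsGaloisGroup.faithful (G := G) (B := L) F).eq_of_smul_eq_smul fun x =>
      (algebraMap L Ω).injective (by rw [← h1, ← h1, h]))
    (unit_eq hζ (by rw [← h2, ← h2, h]))⟩
  have hc : SMulCommClass (G × (ZMod m)ˣ) F Ω := ⟨fun p c x => by
    rw [Algebra.smul_def, Algebra.smul_def, smul_mul', IsScalarTower.algebraMap_apply F L Ω, h1,
      smul_algebraMap]⟩
  refine ⟨hf, hc, ⟨fun x hx => ?_⟩⟩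
  have := Fintype.ofFinite (G × (ZMod m)ˣ)
  have e1 : Module.finrank (FixedPoints.intermediateField (F := F) (E := Ω) (G × (ZMod m)ˣ)) Ω =
      Module.finrank F Ω := by
    refine (FixedPoints.finrank_eq_card (G × (ZMod m)ˣ) Ω).trans ?_
    rw [← Nat.card_eq_fintype_card, Nat.card_prod, IsGaloisGroup.card_eq_finrank G F L,
      Nat.card_eq_fintype_card, ZMod.card_units_eq_totient, ← h3, Module.finrank_mul_finrank]
  have e0 : Module.finrank F Ω ≠ 0 := by
    rw [← Module.finrank_mul_finrank F L Ω, h3, ← IsGaloisGroup.card_eq_finrank G F L]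
    exact mul_ne_zero Nat.card_pos.ne' (Nat.totient_pos.2 (NeZero.pos m)).ne'
  have e2 := Module.finrank_mul_finrank F
    (FixedPoints.intermediateField (F := F) (E := Ω) (G × (ZMod m)ˣ)) Ω
  rw [e1, mul_eq_right₀ e0, IntermediateField.finrank_eq_one_iff] at e2
  have e3 : x ∈ FixedPoints.intermediateField (F := F) (E := Ω) (G × (ZMod m)ˣ) := hx
  rw [e2] at e3
  exact e3

omit [NumberField L] [NumberField Ω] [Finite G] in
theorem cc (h3 : ∀ f g : Ω →+* ℂ, (∀ x, f (algebraMap L Ω x) = g (algebraMap L Ω x)) →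
    f ζ = g ζ → f = g) (j : G) (hj : IsCC L j) : IsCC Ω ((j, -1) : G × (ZMod m)ˣ) := by
  intro ε x
  refine DFunLike.congr_fun (h3 (ε.comp (MulSemiringAction.toRingHom _ Ω
    ((j, -1) : G × (ZMod m)ˣ))) ((starRingEnd ℂ).comp ε) (fun y => ?_) ?_) x
  · exact (congrArg ε (h1 _ y)).trans (hj (ε.comp (algebraMap L Ω)) y)
  · refine (congrArg ε (h2 _)).trans ?_
    have e1 : ε ζ ^ m = 1 := by rw [← map_pow, hζ.1, map_one]
    rw [RingHom.comp_apply,
      ← Complex.inv_eq_conj (Complex.norm_eq_one_of_pow_eq_one e1 (NeZero.ne m))]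
    refine eq_inv_of_mul_eq_one_left ?_
    rw [← map_mul, ← pow_succ, (hζ.pow_eq_one_iff_dvd _).2, map_one]
    rw [← ZMod.natCast_eq_zero_iff]
    simp

omit hζ h2 [NumberField L] [NumberField Ω] [Finite G] [NeZero m] in
theorem smul_int (p : G × (ZMod m)ˣ) (y : 𝓞 L) :
    p • algebraMap (𝓞 L) (𝓞 Ω) y = algebraMap (𝓞 L) (𝓞 Ω) (p.1 • y) :=
  RingOfIntegers.ext (h1 p y)

omit h1 [NumberField L] [NumberField Ω] [Finite G] [MulSemiringAction G L] in
theorem smul_zeta (p : G × (ZMod m)ˣ) :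
    p • hζ.toInteger = hζ.toInteger ^ (p.2 : ZMod m).val :=
  RingOfIntegers.ext (h2 p)

end

theorem under_under {F L Ω : Type} [Field F] [NumberField F] [Field L] [NumberField L] [Field Ω]
    [NumberField Ω] [Algebra F L] [Algebra L Ω] [Algebra F Ω] [IsScalarTower F L Ω] (w : Pr Ω) :
    (w.under (𝓞 L)).under (𝓞 F) = w.under (𝓞 F) :=
  HeightOneSpectrum.ext (Ideal.under_under _)

theorem notMem {F Ω : Type} [Field F] [NumberField F] [Field Ω] [NumberField Ω] [Algebra F Ω]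
    {m : ℕ} {S' : Finset (Pr F)} (h : ∀ v : Pr F, (m : 𝓞 F) ∈ v.asIdeal → v ∈ S') {w : Pr Ω}
    (hw : w.under (𝓞 F) ∉ S') : (m : 𝓞 Ω) ∉ w.asIdeal := fun e =>
  hw (h _ (Ideal.mem_comap.2 (by rwa [map_natCast])))

end CycloX

theorem cyclo (hF : FB_st) : CYCLO_st := by
  intro F L G _ _ _ _ _ _ _ _ _
  refine ⟨(discr L).natAbs, Int.natAbs_ne_zero.2 (discr_ne_zero L), fun m _ hm => ?_⟩
  obtain ⟨Ω, _, _, _, ζ, hζ, h3, h4, h5⟩ := CycloX.ex_field L m (CycloX.irred L m hm)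
  obtain ⟨_, h1, h2⟩ := CycloX.ex_action G hζ (h4 Ω) h5
  let _ : Algebra F Ω := ((algebraMap L Ω).comp (algebraMap F L)).toAlgebra
  have : IsScalarTower F L Ω := IsScalarTower.of_algebraMap_eq fun _ => rfl
  have hG := CycloX.galois (F := F) hζ h1 h2 h3
  refine ⟨Ω, inferInstance, inferInstance, inferInstance, inferInstance, hG,
    CycloX.cc hζ h1 h2 (h4 ℂ), fun S S' hS hm' hU => ⟨fun w hw => ?_, fun φ hφ => ?_⟩⟩
  · refine (Subgroup.eq_bot_iff_forall _).2 fun p hp => Prod.ext ?_ ?_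
    · refine (Subgroup.eq_bot_iff_forall _).1 (hU (w.under (𝓞 L)) fun e => hw (hS ?_)) _
        fun y => Ideal.mem_comap.2 ?_
      · rwa [CycloX.under_under] at e
      · rw [map_sub, ← CycloX.smul_int h1]
        exact hp _
    · have h6 := hζ.toInteger_isPrimitiveRoot.idealQuotient_mk (I := w.asIdeal)
        (by have := two_le_nrm w; change nrm w ≠ 1; omega)
        (CycloX.cop w (CycloX.notMem hm' hw))
      have := w.isPrime
      refine CycloX.unit_eq h6 ?_
      rw [← map_pow, ← map_pow, ← CycloX.smul_zeta hζ h2, ← CycloX.smul_zeta hζ h2, one_smul,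
        Ideal.Quotient.eq]
      exact hp _
  · have key : ∀ v, v ∉ S' → ∃ a : (ZMod m)ˣ, (a : ZMod m) = nrm v ∧ ∃ w : Pr Ω,
        w.under (𝓞 F) = v ∧
          IsArithFrobAt (𝓞 F) ((φ v, a) : G × (ZMod m)ˣ) w.asIdeal := fun v hv => by
      obtain ⟨P, hP, hP'⟩ := hφ v fun e => hv (hS e)
      obtain ⟨w, rfl⟩ := under_surj (E' := Ω) P
      rw [CycloX.under_under] at hP
      subst hP
      obtain ⟨⟨g, a⟩, hg⟩ := (hF F Ω (G × (ZMod m)ˣ)).2.2.1 w
      have h6 : IsArithFrobAt (𝓞 F) g (w.under (𝓞 L)).asIdeal := fun y => Ideal.mem_comap.2 (by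
        have h7 := hg (algebraMap (𝓞 L) (𝓞 Ω) y)
        rw [MulSemiringAction.toAlgHom_apply, CycloX.smul_int h1, ← map_pow, ← map_sub,
          ← Ideal.under_under (B := 𝓞 L)] at h7
        exact h7)
      have h7 := ((hF F L G).2.2.2.2.2.2.2 _ _ (hU (w.under (𝓞 L)) fun e => hv (hS (by
        rwa [CycloX.under_under] at e))) hP').1 g h6
      subst h7
      refine ⟨a, ?_, w, rfl, hg⟩
      have h8 := hg.apply_of_pow_eq_one hζ.toInteger_isPrimitiveRoot.1 (CycloX.notMem hm' hv)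
      rw [MulSemiringAction.toAlgHom_apply, CycloX.smul_zeta hζ h2,
        pow_eq_pow_mod (Nat.card _) hζ.toInteger_isPrimitiveRoot.1, ← ZMod.val_natCast] at h8
      exact ZMod.val_injective m
        (hζ.toInteger_isPrimitiveRoot.pow_inj (ZMod.val_lt _) (ZMod.val_lt _) h8)
    choose! ν k1 k2 using key
    exact ⟨ν, k1, k2⟩

end Pool.Agent.MP_f3cd89_nt

end

section

/-! Reciprocity for totally real cyclic extensions. -/

set_option autoImplicit false

open Finset NumberField IsDedekindDomain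

namespace Pool.Agent.MP_f3cd89_nt

namespace CoreX

theorem idx {M G : Type} [AddCommGroup M] [AddCommGroup G] [Finite G] (χ : M →+ G)
    (A H : AddSubgroup M) (h1 : ∀ D ∈ A, χ D = 0 → D ∈ H) (h2 : Nat.card G ≤ H.relIndex A) :
    ∀ D ∈ A, D ∈ H → χ D = 0 := by
  have h3 := AddSubgroup.relIndex_mul_relIndex (χ.ker ⊓ A) (H ⊓ A) A
    (fun D hD => ⟨h1 D hD.2 hD.1, hD.2⟩) inf_le_right
  rw [AddSubgroup.inf_relIndex_right, AddSubgroup.inf_relIndex_right,
    AddSubgroup.relIndex_ker] at h3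
  have h4 : 0 < Nat.card (A.map χ) := Nat.card_pos
  have h5 := (AddSubgroup.card_le_card_addGroup (A.map χ)).trans h2
  rw [← h3] at h4 h5
  have h6 : (χ.ker ⊓ A).relIndex (H ⊓ A) = 1 :=
    le_antisymm (le_of_mul_le_mul_right (by rwa [one_mul]) (Nat.pos_of_mul_pos_left h4))
      (Nat.pos_of_mul_pos_right h4)
  exact fun D hA hH => (AddSubgroup.relIndex_eq_one.1 h6 ⟨hH, hA⟩).1

section Grp

variable {G U U₁ U₂ : Type} [CommGroup G] [CommGroup U] [CommGroup U₁] [CommGroup U₂]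

/-- an auxiliary subgroup -/
def HH (γ : G) (β : U) (g : G) (α : U) : Subgroup (G × U) where
  carrier := {h | ∃ i k : ℤ, h.1 = γ ^ i * g ^ k ∧ h.2 ^ 2 = (β ^ i * α ^ k) ^ 2}
  one_mem' := ⟨0, 0, by simp, by simp⟩
  mul_mem' := by
    rintro a b ⟨i, k, h1, h2⟩ ⟨i', k', h3, h4⟩
    refine ⟨i + i', k + k', ?_, ?_⟩
    · rw [Prod.fst_mul, h1, h3, zpow_add, zpow_add, mul_mul_mul_comm]
    · rw [Prod.snd_mul, mul_pow, h2, h4, zpow_add, zpow_add, ← mul_pow, mul_mul_mul_comm]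
  inv_mem' := by
    rintro a ⟨i, k, h1, h2⟩
    refine ⟨-i, -k, ?_, ?_⟩
    · rw [Prod.fst_inv, h1, zpow_neg, zpow_neg, mul_inv]
    · rw [Prod.snd_inv, inv_pow, h2, zpow_neg, zpow_neg, ← mul_inv, inv_pow]

theorem HH_gen (γ : G) (β : U) (g : G) (α : U) : (γ, β) ∈ HH γ β g α := ⟨1, 0, by simp, by simp⟩

theorem HH_gen' (γ : G) (β : U) (g : G) (α : U) : (g, α) ∈ HH γ β g α := ⟨0, 1, by simp, by simp⟩

theorem HH_sq (γ : G) (β : U) (g : G) (α : U) {c : U} (hc : c ^ 2 = 1) : (1, c) ∈ HH γ β g α :=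
  ⟨0, 0, by simp, by simpa using hc⟩

theorem HH_onto {γ : G} (hγ : ∀ x, x ∈ Subgroup.zpowers γ) (β : U) (g : G) (α : U) (x : G) :
    ∃ h ∈ HH γ β g α, h.1 = x := by
  obtain ⟨i, rfl⟩ := hγ x
  exact ⟨(γ ^ i, β ^ i), ⟨i, 0, by simp, by simp⟩, rfl⟩

theorem HH_le (γ : G) (β : U) (g : G) (α : U) : HH γ β 1 1 ≤ HH γ β g α := by
  rintro h ⟨i, k, h1, h2⟩
  exact ⟨i, 0, by simpa using h1, by simpa using h2⟩

theorem HH_map (π : U →* U₂) {γ : G} {β : U} {x : G} {u : U} (h : (x, u) ∈ HH γ β 1 1) :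
    (x, π u) ∈ HH γ (π β) 1 1 := by
  obtain ⟨i, k, h1, h2⟩ := h
  exact ⟨i, k, h1, by simpa using congrArg π h2⟩

theorem dvd_of_sq {n : ℕ} {b : U} (hb : 2 * n ∣ orderOf b) {i : ℤ} (h : (b ^ i) ^ 2 = 1) :
    (n : ℤ) ∣ i := by
  rw [← zpow_natCast, ← zpow_mul, ← orderOf_dvd_iff_zpow_eq_one] at h
  have h1 := (Int.natCast_dvd_natCast.2 hb).trans h
  rw [Nat.cast_mul, mul_comm] at h1
  exact Int.dvd_of_mul_dvd_mul_right (by norm_num) h1

theorem zpow_one_of {n : ℕ} (hn : ∀ x : G, x ^ n = 1) (x : G) {i : ℤ} (h : (n : ℤ) ∣ i) :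
    x ^ i = 1 := by
  obtain ⟨j, rfl⟩ := h
  rw [zpow_mul, zpow_natCast, hn, one_zpow]

theorem HH_two {n : ℕ} (hn : ∀ x : G, x ^ n = 1) (γ : G) {b : U} (hb : 2 * n ∣ orderOf b) :
    ∀ h ∈ HH γ b 1 1, h.2 = 1 → h.1 = 1 := by
  rintro h ⟨i, k, h1, h2⟩ h3
  rw [h3, one_pow, one_zpow, mul_one] at h2
  rw [h1, one_zpow, mul_one, zpow_one_of hn γ (dvd_of_sq hb h2.symm)]

theorem HH_three {n : ℕ} (hn : ∀ x : G, x ^ n = 1) (γ g : G) {β α : U} (π₁ : U →* U₁)
    (π₂ : U →* U₂) (h₁ : π₁ β = 1) (hα : 2 * n ∣ orderOf (π₁ α)) (hβ : 2 * n ∣ orderOf (π₂ β))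
    (h₂ : π₂ α ∈ Subgroup.zpowers (π₂ β)) : ∀ h ∈ HH γ β g α, h.2 = 1 → h.1 = 1 := by
  rintro h ⟨i, k, h1, h2⟩ h3
  rw [h3, one_pow] at h2
  have h4 := congrArg π₁ h2
  rw [map_one, map_pow, map_mul, map_zpow, map_zpow, h₁, one_zpow, one_mul] at h4
  have h5 := dvd_of_sq hα h4.symm
  obtain ⟨j, hj⟩ := Subgroup.mem_zpowers_iff.1 h₂
  have h6 := congrArg π₂ h2
  rw [map_one, map_pow, map_mul, map_zpow, map_zpow, ← hj, ← zpow_mul, ← zpow_add] at h6
  have h7 := (dvd_add_left (h5.mul_left j)).1 (dvd_of_sq hβ h6.symm)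
  rw [h1, zpow_one_of hn γ h7, zpow_one_of hn g h5, mul_one]

end Grp

theorem exists_beta {m q : ℕ} [NeZero q] (h : m.Coprime q) (b : (ZMod q)ˣ) :
    ∃ β : (ZMod (m * q))ˣ, ZMod.unitsMap (dvd_mul_right m q) β = 1 ∧
      ZMod.unitsMap (dvd_mul_left q m) β = b := by
  obtain ⟨k, h1, h2⟩ := Nat.chineseRemainder h 1 (b : ZMod q).val
  refine ⟨ZMod.unitOfCoprime k (Nat.Coprime.mul_right (h1.gcd_eq.trans (Nat.gcd_one_left m))
    (h2.gcd_eq.trans (ZMod.val_coe_unit_coprime b))), Units.ext ?_, Units.ext ?_⟩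
  · rw [ZMod.unitsMap_val, ZMod.coe_unitOfCoprime, ZMod.cast_natCast (dvd_mul_right m q),
      (ZMod.natCast_eq_natCast_iff _ _ _).2 h1, Nat.cast_one, Units.val_one]
  · rw [ZMod.unitsMap_val, ZMod.coe_unitOfCoprime, ZMod.cast_natCast (dvd_mul_left q m),
      (ZMod.natCast_eq_natCast_iff _ _ _).2 h2, ZMod.natCast_zmod_val]

variable {F : Type} [Field F] [NumberField F]

theorem exS (S : Finset (Pr F)) {m : ℕ} (hm : m ≠ 0) :
    ∃ S' : Finset (Pr F), ∀ v, v ∈ S' ↔ v ∈ S ∨ (m : 𝓞 F) ∈ v.asIdeal := by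
  have h := S.finite_toSet.union
    (Ideal.finite_factors (I := Ideal.span {(m : 𝓞 F)}) (by simpa using hm))
  exact ⟨h.toFinset, fun v => by simp⟩

theorem notMem_of_coprime {m : ℕ} (v : Pr F) (h : m.Coprime (nrm v)) : (m : 𝓞 F) ∉ v.asIdeal :=
  fun hm => by
    obtain ⟨a, b, hab⟩ := h.cast (R := 𝓞 F)
    exact (Ideal.ne_top_iff_one _).1 v.isPrime.ne_top (hab ▸ add_mem (Ideal.mul_mem_left _ a hm)
      (Ideal.mul_mem_left _ b (Ideal.absNorm_mem _)))

theorem HF_mono (S : Finset (Pr F)) {S' : Finset (Pr F)} (h : S ⊆ S') (N : ℕ) (o : Pr F → ℕ) :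
    HF S S' N o ≤ HF S S N o :=
  AddSubgroup.closure_mono (Set.union_subset_union_right _
    fun _ ⟨v, hv, e⟩ => ⟨v, fun hs => hv (h hs), e⟩)

theorem DH_le {G G' : Type} [Group G] [Group G'] {S S' : Finset (Pr F)} {φ : Pr F → G}
    {φ' : Pr F → G'} {H : Subgroup G} {H' : Subgroup G'} (h : S' ⊆ S)
    (h' : ∀ v, v ∉ S → ∀ f : ℕ, φ v ^ f ∈ H → φ' v ^ f ∈ H') : DH S φ H ≤ DH S' φ' H' :=
  AddSubgroup.closure_mono fun _ ⟨v, f, hv, hf, e⟩ => ⟨v, f, fun hs => hv (h hs), h' v hv f hf, e⟩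

theorem DH_off {G : Type} [Group G] {S S' : Finset (Pr F)} (h : S ⊆ S') (φ : Pr F → G)
    (H : Subgroup G) : DH S' φ H ≤ off S := by
  refine (AddSubgroup.closure_le _).2 ?_
  rintro _ ⟨v, f, hv, -, rfl⟩ w hw
  exact Finsupp.single_eq_of_ne fun e => hv (h (e ▸ hw))

omit [NumberField F] in
theorem mem_of_single (Q : AddSubgroup (Pr F →₀ ℤ)) (D : Pr F →₀ ℤ)
    (h : ∀ v ∈ D.support, Finsupp.single v 1 ∈ Q) : D ∈ Q := by
  rw [← Finsupp.sum_single D]
  refine sum_mem fun v hv => ?_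
  simpa using Q.zsmul_mem (h v hv) (D v)

variable {G : Type} [CommGroup G]

/-- the character as an additive homomorphism -/
noncomputable def chi (φ : Pr F → G) : (Pr F →₀ ℤ) →+ Additive G :=
  AddMonoidHom.mk' (fun D => Additive.ofMul (chv φ D)) fun D D' => by rw [chv_add, ofMul_mul]

theorem chv_zsmul (φ : Pr F → G) (k : ℤ) (D : Pr F →₀ ℤ) : chv φ (k • D) = chv φ D ^ k :=
  congrArg Additive.toMul (map_zsmul (chi φ) k D)

theorem chv_sub (φ : Pr F → G) (D D' : Pr F →₀ ℤ) : chv φ (D - D') = chv φ D / chv φ D' :=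
  congrArg Additive.toMul (map_sub (chi φ) D D')

theorem chv_fst {U : Type} [CommGroup U] (φ : Pr F → G) (ν : Pr F → U) (D : Pr F →₀ ℤ) :
    (chv (fun v => (φ v, ν v)) D).1 = chv φ D :=
  chv_map (MonoidHom.fst G U) _ D

theorem card_smul_mem [Finite G] (S : Finset (Pr F)) (N : ℕ) (φ : Pr F → G) {D : Pr F →₀ ℤ}
    (hD : D ∈ off S) : (Nat.card G : ℤ) • D ∈ HF S S N fun v => orderOf (φ v) := by
  refine mem_of_single ((HF S S N fun v => orderOf (φ v)).comap
    (DistribSMul.toAddMonoidHom _ (Nat.card G : ℤ))) D fun v hv => ?_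
  obtain ⟨c, hc⟩ := orderOf_dvd_natCard (φ v)
  have h1 : Finsupp.single v (orderOf (φ v) : ℤ) ∈ HF S S N fun v => orderOf (φ v) :=
    AddSubgroup.subset_closure
      (Or.inr ⟨v, fun hs => Finsupp.mem_support_iff.1 hv (hD v hs), rfl⟩)
  simpa [hc, mul_comm] using AddSubgroup.zsmul_mem _ h1 c

/-- what the crossing with the cyclotomic extension of level `m` gives -/
def Cross (S : Finset (Pr F)) (φ : Pr F → G) (Q : AddSubgroup (Pr F →₀ ℤ)) (m : ℕ) : Prop :=
  ∃ (S' : Finset (Pr F)) (ν : Pr F → (ZMod m)ˣ),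
    (∀ v, v ∈ S' ↔ v ∈ S ∨ (m : 𝓞 F) ∈ v.asIdeal) ∧ (∀ v, v ∉ S' → (ν v : ZMod m) = nrm v) ∧
    ∀ H : Subgroup (G × (ZMod m)ˣ),
      (∀ h ∈ H, ∃ D ∈ DH S' (fun v => (φ v, ν v)) H, chv φ D = h.1) ∧
      ((1, -1) ∈ H → (∀ g : G, ∃ h ∈ H, h.1 = g) → (∀ h ∈ H, h.2 = 1 → h.1 = 1) →
        ∀ D ∈ DH S' (fun v => (φ v, ν v)) H, chv φ D = 1 → D ∈ Q)

theorem cross (hX : XL_st) (hC : CYCLO_st) {L : Type} [Field L] [NumberField L] [IsTotallyReal L]
    [Algebra F L] [Finite G] [MulSemiringAction G L] [IsGaloisGroup G F L] {S : Finset (Pr F)}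
    {φ : Pr F → G} (hU : Unr L G S) (hφ : IsFrob L S φ) {N : ℕ} (hN : 0 < N) :
    ∃ d : ℕ, d ≠ 0 ∧ ∀ m : ℕ, m ≠ 0 → m.Coprime d →
      Cross S φ (HF S S N fun v => orderOf (φ v)) m := by
  obtain ⟨d, hd, h⟩ := hC F L G
  refine ⟨d, hd, fun m hm hmd => ?_⟩
  have : NeZero m := ⟨hm⟩
  obtain ⟨Ω, _, _, _, _, _, h1, h2⟩ := h m hmd
  obtain ⟨S', hS'⟩ := exS S hm
  have hle : S ⊆ S' := fun v hv => (hS' v).2 (Or.inl hv)
  obtain ⟨h3, h4⟩ := h2 S S' hle (fun v hv => (hS' v).2 (Or.inr hv)) hU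
  obtain ⟨ν, h5, h6⟩ := h4 φ hφ
  refine ⟨S', ν, hS', h5, fun H => ?_⟩
  obtain ⟨h7, h8⟩ := hX F Ω G m S S' _ H hle h3 h6
  refine ⟨fun x hx => ?_, fun a b c D hD e => HF_mono S hle N _
    (h8 (fun v hv => (hS' v).2 (Or.inr hv)) h5 ⟨_, a, h1 1 fun ε x => ?_⟩ b c N hN D hD
      ((chv_fst φ ν D).trans e))⟩
  · obtain ⟨D, hD, e⟩ := h7 x hx
    exact ⟨D, hD, by rw [← e, chv_fst]⟩
  · rw [one_smul]
    exact (RingHom.congr_fun (ComplexEmbedding.isReal_iff.1
      (IsTotallyReal.complexEmbedding_isReal ε)) x).symm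

theorem key (hL : LANG_st) [Finite G] {S : Finset (Pr F)} {φ : Pr F → G}
    {Q : AddSubgroup (Pr F →₀ ℤ)} {d : ℕ} (hd : d ≠ 0)
    (h : ∀ m : ℕ, m ≠ 0 → m.Coprime d → Cross S φ Q m) {γ : G}
    (hγ : ∀ x, x ∈ Subgroup.zpowers γ) (P : Finset (Pr F)) :
    ∃ b ∈ off S, ∀ p ∈ P, p ∉ S → ∃ k : ℤ, φ p = γ ^ k ∧ Finsupp.single p 1 - k • b ∈ Q := by
  have hn : ∀ x : G, x ^ Nat.card G = 1 := fun _ => pow_card_eq_one'
  have hn0 : 0 < 2 * Nat.card G := Nat.mul_pos two_pos Nat.card_pos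
  obtain ⟨q, hq, hlt, hq1⟩ := Nat.exists_prime_gt_modEq_one (max d (P.sup nrm)) hn0.ne'
  have := Fact.mk hq
  have hqd : q.Coprime d := Nat.coprime_of_lt_prime hd ((le_max_left _ _).trans_lt hlt) hq
  obtain ⟨b, hb⟩ := IsCyclic.exists_generator (α := (ZMod q)ˣ)
  have hb' : 2 * Nat.card G ∣ orderOf b := by
    rw [orderOf_eq_card_of_forall_mem_zpowers hb, Nat.card_eq_fintype_card (α := (ZMod q)ˣ),
      ZMod.card_units]
    exact (Nat.modEq_iff_dvd' hq.one_le).1 hq1.symm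
  obtain ⟨S₂, ν₂, a1, a2, a3⟩ := h q hq.ne_zero hqd
  obtain ⟨B, hB, hB'⟩ := (a3 (HH γ b 1 1)).1 _ (HH_gen γ b 1 1)
  refine ⟨B, DH_off (fun v hv => (a1 v).2 (Or.inl hv)) _ _ hB, fun p hp hpS => ?_⟩
  obtain ⟨m, hm, c1, c2, c3⟩ := hL (nrm p) _ (d * q) (two_le_nrm p) hn0 (mul_ne_zero hd hq.ne_zero)
  have hqp : q.Coprime (nrm p) := Nat.coprime_of_lt_prime (two_pos.trans_le (two_le_nrm p)).ne'
    (((le_sup (f := nrm) hp).trans (le_max_right _ _)).trans_lt hlt) hq
  obtain ⟨S₁, ν₁, b1, b2, b3⟩ := h (m * q) (mul_ne_zero hm.ne' hq.ne_zero)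
    (Nat.Coprime.mul_left c1.coprime_mul_right_right hqd)
  obtain ⟨β, d1, d2⟩ := exists_beta c1.coprime_mul_left_right b
  have hp1 : p ∉ S₁ := fun hh => ((b1 p).1 hh).elim hpS
    (notMem_of_coprime p (Nat.Coprime.mul_left c2 hqp))
  obtain ⟨B', hB1, hB2⟩ := (b3 (HH γ β 1 1)).1 _ (HH_gen γ β 1 1)
  obtain ⟨k, hk⟩ := Subgroup.mem_zpowers_iff.1 (hγ (φ p))
  have hα : 2 * Nat.card G ∣ orderOf (ZMod.unitsMap (dvd_mul_right m q) (ν₁ p)) := by
    refine c3 _ ((ZMod.natCast_eq_natCast_iff _ _ _).1 ?_)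
    have e := congrArg Units.val (pow_orderOf_eq_one (ZMod.unitsMap (dvd_mul_right m q) (ν₁ p)))
    rwa [Units.val_pow_eq_pow_val, ZMod.unitsMap_val, b2 p hp1,
      ZMod.cast_natCast (dvd_mul_right m q), Units.val_one, ← Nat.cast_pow, ← Nat.cast_one] at e
  have e1 : Finsupp.single p 1 - k • B' ∈ Q := by
    refine (b3 (HH γ β (φ p) (ν₁ p))).2 (HH_sq _ _ _ _ neg_one_sq) (HH_onto hγ _ _ _)
      (HH_three hn γ _ _ (ZMod.unitsMap (dvd_mul_left q m)) d1 hα (d2 ▸ hb') (d2 ▸ hb _)) _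
      (sub_mem (AddSubgroup.subset_closure ⟨p, 1, hp1, ?_, rfl⟩) (AddSubgroup.zsmul_mem _
        (DH_le subset_rfl (fun v _ f hf => HH_le _ _ _ _ hf) hB1) k)) ?_
    · rw [pow_one]
      exact HH_gen' _ _ _ _
    · rw [chv_sub, chv_zsmul, chv_single, hB2, hk, zpow_one, div_self']
  have h21 : S₂ ⊆ S₁ := fun v hv => (b1 v).2 (((a1 v).1 hv).imp id fun hh => by
    rw [Nat.cast_mul]
    exact Ideal.mul_mem_left _ _ hh)
  have e2 : B' - B ∈ Q := by
    refine (a3 (HH γ b 1 1)).2 (HH_sq _ _ _ _ neg_one_sq) (HH_onto hγ _ _ _) (HH_two hn γ hb') _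
      (sub_mem (DH_le h21 (fun v hv f hf => ?_) hB1) hB) ?_
    · have e : ZMod.unitsMap (dvd_mul_left q m) (ν₁ v) = ν₂ v := Units.ext (by
        rw [ZMod.unitsMap_val, b2 v hv, ZMod.cast_natCast (dvd_mul_left q m),
          a2 v fun hh => hv (h21 hh)])
      have e' := HH_map (ZMod.unitsMap (dvd_mul_left q m)) (x := φ v ^ f) (u := ν₁ v ^ f) hf
      rwa [d2, map_pow, e] at e'
    · rw [chv_sub, hB2, hB', div_self']
  refine ⟨k, hk.symm, ?_⟩
  convert add_mem e1 (Q.zsmul_mem e2 k) using 1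
  rw [smul_sub, sub_add_sub_cancel]

end CoreX

theorem core (hI : FI_st) (hX : XL_st) (hL : LANG_st) (hC : CYCLO_st) (hB : NTB_st) : CORE_st := by
  intro F L G _ _ _ _ _ _ _ _ _ _ S φ hc hS hU hφ
  obtain ⟨N, hN, h1⟩ := hI F L G S φ hc hS hU hφ
  obtain ⟨d, hd, h2⟩ := CoreX.cross hX hC hU hφ hN
  obtain ⟨γ, hγ⟩ := hc.exists_generator
  refine ⟨N, hN, fun x hx => CoreX.idx (CoreX.chi φ) (off S) _ (fun a ha h0 => ?_) h1 _
    (((hB F).2.2.2.1 S N hN).2.2 x hx) (AddSubgroup.subset_closure (Or.inl ⟨x, hx, rfl⟩))⟩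
  obtain ⟨b, hb, h3⟩ := CoreX.key hL hd h2 hγ a.support
  let Q : AddSubgroup (Pr F →₀ ℤ) :=
    { carrier := {D | ∃ k : ℤ, chv φ D = γ ^ k ∧ D - k • b ∈ HF S S N fun v => orderOf (φ v)}
      zero_mem' := ⟨0, by rw [chv_zero, zpow_zero], by simp⟩
      add_mem' := by
        rintro D D' ⟨k, e1, e2⟩ ⟨k', e3, e4⟩
        refine ⟨k + k', by rw [chv_add, e1, e3, zpow_add], ?_⟩
        rw [add_smul, add_sub_add_comm]
        exact add_mem e2 e4
      neg_mem' := by
        rintro D ⟨k, e1, e2⟩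
        refine ⟨-k, by rw [chv_neg, e1, zpow_neg], ?_⟩
        rw [neg_smul, neg_sub_neg, ← neg_sub]
        exact neg_mem e2 }
  obtain ⟨k, e1, e2⟩ := CoreX.mem_of_single Q a fun p hp => by
    obtain ⟨k, e1, e2⟩ := h3 p hp fun hs => Finsupp.mem_support_iff.1 hp (ha p hs)
    exact ⟨k, by rw [chv_single, zpow_one, e1], e2⟩
  have h4 : γ ^ k = 1 := e1.symm.trans h0
  rw [← orderOf_dvd_iff_zpow_eq_one, orderOf_eq_card_of_forall_mem_zpowers hγ] at h4
  obtain ⟨j, rfl⟩ := h4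
  have h5 := add_mem e2 (AddSubgroup.zsmul_mem _ (CoreX.card_smul_mem S N φ hb) j)
  rwa [smul_smul, mul_comm j, sub_add_cancel] at h5

end Pool.Agent.MP_f3cd89_nt

end
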