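import Pool.Agent.Mg.Ff3cd89.G9366c6

section

/-! Determinants of matrices attached to self-maps of finite sets. -/

set_option autoImplicit false
set_option linter.unusedSectionVars false

open Finset

namespace Pool.Agent.MP_f3cd89_nt.JbX

section
variable {X X' : Type} [Fintype X] [DecidableEq X] [Fintype X'] [DecidableEq X']

/-- the matrix of a self-map -/
def Z (π : X → X) : Matrix X X ℤ := Matrix.of fun x y => if y = π x then 1 else 0

lemma Z_comp (π ρ : X → X) : Z (fun x => ρ (π x)) = Z π * Z ρ := by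
  ext x z
  simp only [Z, Matrix.mul_apply, Matrix.of_apply, ite_mul, one_mul, zero_mul, sum_ite_eq',
    mem_univ, if_true]

lemma det_Z_perm (σ : Equiv.Perm X) : (Z σ).det = Equiv.Perm.sign σ := by
  have e : Z σ = σ.permMatrix ℤ := by
    ext x y
    simp [Z, Equiv.Perm.permMatrix, PEquiv.toMatrix_apply, eq_comm]
  rw [e, Matrix.det_permutation]
  rfl

lemma det_Z_conj (e : X ≃ X') (π : X → X) (π' : X' → X') (h : ∀ x, π' (e x) = e (π x)) :
    (Z π').det = (Z π).det := by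
  rw [← Matrix.det_submatrix_equiv_self e]
  congr 1
  ext x y
  simp [Z, h]

lemma bij_of_det {π : X → X} (h : (Z π).det ≠ 0) : Function.Bijective π := by
  refine Finite.surjective_iff_bijective.1 fun y => ?_
  by_contra hc
  refine h (Matrix.det_eq_zero_of_column_eq_zero y fun x => ?_)
  exact if_neg fun e => hc ⟨x, e.symm⟩

lemma det_shift (R : ℕ) [NeZero R] (κ : ℤ) :
    (Z fun t : ZMod R => t + κ).det = (((-1 : ℤˣ) ^ κ : ℤˣ) : ℤ) ^ (R + 1) := by
  obtain ⟨n, rfl⟩ := Nat.exists_eq_succ_of_ne_zero (NeZero.ne R)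
  have e1 : (Equiv.addRight (1 : ZMod (n + 1)) : Equiv.Perm (ZMod (n + 1))) = finRotate (n + 1) :=
    Equiv.ext fun i => (finRotate_apply i).symm
  have e2 : Equiv.Perm.sign (Equiv.addRight (1 : ZMod (n + 1))) = (-1) ^ n := by
    rw [e1]
    exact sign_finRotate (n + 1)
  have e3 : (fun t : ZMod (n + 1) => t + κ) = (Equiv.addRight (1 : ZMod (n + 1)) ^ κ :) := by
    have h : ∀ z : ℤ, Equiv.addRight (1 : ZMod (n + 1)) ^ z = Equiv.addRight (z • 1) :=
      fun z => by cases z <;> simp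
    rw [h]
    funext t
    simp
  rw [e3, det_Z_perm, map_zpow, e2, ← Units.val_pow_eq_pow_val, ← zpow_natCast, ← zpow_natCast,
    ← zpow_mul, ← zpow_mul, mul_comm, zpow_mul, zpow_mul, zpow_natCast, zpow_natCast,
    Nat.succ_eq_add_one, pow_succ, pow_succ, mul_assoc, Int.units_mul_self, mul_one]

lemma det_skew (R : ℕ) [NeZero R] (π : X → X) (κ : X → ℤ) :
    (Z fun z : ZMod R × X => (z.1 + κ z.2, π z.2)).det =
      (∏ x, (((-1 : ℤˣ) ^ κ x : ℤˣ) : ℤ)) *
        ((∏ x, (((-1 : ℤˣ) ^ κ x : ℤˣ) : ℤ)) * (Z π).det) ^ R := by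
  have e := Z_comp (fun z : ZMod R × X => (z.1 + κ z.2, z.2)) fun z => (z.1, π z.2)
  have e1 : (Z fun z : ZMod R × X => (z.1 + κ z.2, z.2)) =
      Matrix.blockDiagonal fun x => Z fun t : ZMod R => t + κ x := by
    ext ⟨t, x⟩ ⟨t', x'⟩
    simp only [Z, Matrix.of_apply, Matrix.blockDiagonal_apply, Prod.mk.injEq]
    by_cases h : x = x'
    · simp [h]
    · simp [h, Ne.symm h]
  have e2 : (Z fun z : ZMod R × X => (z.1, π z.2)) =
      Matrix.kroneckerMap (· * ·) (1 : Matrix (ZMod R) (ZMod R) ℤ) (Z π) := by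
    ext ⟨t, x⟩ ⟨t', x'⟩
    simp only [Z, Matrix.of_apply, Matrix.kroneckerMap_apply, Prod.mk.injEq, Matrix.one_apply]
    by_cases h : t = t'
    · simp [h]
    · simp [h, Ne.symm h]
  rw [e, Matrix.det_mul, e1, e2, Matrix.det_blockDiagonal, Matrix.det_kronecker, Matrix.det_one,
    one_pow, one_mul, ZMod.card]
  simp only [det_shift]
  rw [prod_pow, pow_succ, mul_pow]
  ring

lemma det_rows {k T : Type} [CommRing k] [Fintype T] (c : X → T → k) (π : X → T → X) :
    (Matrix.of fun x y => ∑ τ, if y = π x τ then c x τ else 0).det =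
      ∑ f : X → T, (((Z fun x => π x (f x)).det : ℤ) : k) * ∏ x, c x (f x) := by
  have e : (Matrix.of fun x y => ∑ τ, if y = π x τ then c x τ else 0) =
      fun x => ∑ τ, c x τ • fun y => if y = π x τ then (1 : k) else 0 := by
    ext x y
    simp [Finset.sum_apply]
  rw [e]
  refine ((Matrix.detRowAlternating (n := X) (R := k)).toMultilinearMap.map_sum _).trans ?_
  refine sum_congr rfl fun f _ => ?_
  rw [MultilinearMap.map_smul_univ, smul_eq_mul, mul_comm, Int.cast_det]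
  refine congrArg (· * _) (congrArg Matrix.det ?_)
  ext x y
  simp [Z]

end

section
variable (d₀ R : ℕ) [NeZero d₀] [NeZero R]

/-- division with remainder -/
def phi (t : ZMod R) (j : ZMod d₀) : ZMod (R * d₀) := ((j.val + t.val * d₀ : ℕ) : ZMod (R * d₀))

lemma phi_add (t : ZMod R) (j : ZMod d₀) (e : ℤ) :
    phi d₀ R t j + e = phi d₀ R (t + ((j.val + e) / d₀ : ℤ)) (j + e) := by
  have h1 : (((j + e).val : ℕ) : ℤ) = (j.val + e) % d₀ := by
    rw [← ZMod.val_intCast]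
    simp
  have h2 : (((t + ((j.val + e) / d₀ : ℤ)).val : ℕ) : ℤ) = (t.val + (j.val + e) / d₀) % R := by
    rw [← ZMod.val_intCast]
    simp
  unfold phi
  rw [← Int.cast_natCast, ← Int.cast_natCast (R := ZMod (R * d₀)) (_ + _), ← Int.cast_add,
    ZMod.intCast_eq_intCast_iff_dvd_sub]
  push_cast
  rw [h1, h2]
  refine ⟨-((t.val + (j.val + e) / d₀) / R), ?_⟩
  have a1 := Int.emod_add_mul_ediv ((j.val : ℤ) + e) d₀
  have a2 := Int.emod_add_mul_ediv ((t.val : ℤ) + (j.val + e) / d₀) R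
  linear_combination a1 + d₀ * a2

lemma cast_phi (h : d₀ ∣ R * d₀) (t : ZMod R) (j : ZMod d₀) :
    ZMod.castHom h (ZMod d₀) (phi d₀ R t j) = j := by
  unfold phi
  rw [map_natCast]
  simp

variable (α : Type) [Fintype α] [DecidableEq α]

/-- division with remainder, with a parameter -/
noncomputable def Phi : ZMod R × (α × ZMod d₀) ≃ α × ZMod (R * d₀) :=
  Equiv.ofBijective (fun z => (z.2.1, phi d₀ R z.1 z.2.2)) <| by
    refine (Fintype.bijective_iff_surjective_and_card _).2 ⟨fun x => ?_, by simp; ring⟩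
    obtain ⟨e, he⟩ := ZMod.intCast_surjective x.2
    have h := phi_add d₀ R 0 0 e
    have h0 : phi d₀ R 0 0 = 0 := by simp [phi]
    rw [h0, zero_add, he] at h
    exact ⟨(_, x.1, _), Prod.ext rfl h.symm⟩

lemma Phi_apply (z : ZMod R × (α × ZMod d₀)) :
    Phi d₀ R α z = (z.2.1, phi d₀ R z.1 z.2.2) := rfl

end

section
variable {α T : Type} [Fintype α] [DecidableEq α] (tb : T → α) (te : T → ℤ)

/-- the self-map attached to a choice of terms -/
def pm {d : ℕ} (f : α × ZMod d → T) (x : α × ZMod d) : α × ZMod d :=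
  (tb (f x), x.2 + te (f x))

/-- pull back along the reduction map -/
def lift {d m : ℕ} (h : d ∣ m) (f : α × ZMod d → T) (x : α × ZMod m) : T :=
  f (x.1, ZMod.castHom h (ZMod d) x.2)

/-- translation -/
def shift {d : ℕ} (u : ℕ) (f : α × ZMod d → T) (x : α × ZMod d) : T := f (x.1, x.2 - u)

lemma det_pm_shift {d : ℕ} [NeZero d] (u : ℕ) (f : α × ZMod d → T) :
    (Z (pm tb te (shift u f))).det = (Z (pm tb te f)).det := by
  refine det_Z_conj (Equiv.prodCongr (Equiv.refl α) (Equiv.addRight (u : ZMod d))) _ _ fun x => ?_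
  simp [pm, shift, add_right_comm]

lemma det_pm_lift {d₀ : ℕ} [NeZero d₀] (f : α × ZMod d₀ → T) :
    ∃ u v : ℤ, (v ≠ 0 → (d₀ : ℤ) ∣ ∑ x, te (f x)) ∧ ∀ (d : ℕ) [NeZero d] (h : d₀ ∣ d),
      (Z (pm tb te (lift h f))).det = u * v ^ (d / d₀) := by
  let κ : α × ZMod d₀ → ℤ := fun x => (x.2.val + te (f x)) / d₀
  refine ⟨∏ x, (((-1 : ℤˣ) ^ κ x : ℤˣ) : ℤ),
    (∏ x, (((-1 : ℤˣ) ^ κ x : ℤˣ) : ℤ)) * (Z (pm tb te f)).det, fun hv => ?_, fun d _ h => ?_⟩
  · have hb := bij_of_det (right_ne_zero_of_mul hv)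
    have h1 := hb.sum_comp fun x => x.2
    simp only [pm, sum_add_distrib, add_eq_left] at h1
    rw [← ZMod.intCast_zmod_eq_zero_iff_dvd, Int.cast_sum, h1]
  · obtain ⟨R, rfl⟩ := exists_eq_mul_left_of_dvd h
    have : NeZero R := ⟨left_ne_zero_of_mul (NeZero.ne (R * d₀))⟩
    rw [Nat.mul_div_cancel _ (NeZero.pos d₀), ← det_skew]
    refine det_Z_conj (Phi d₀ R α) _ _ fun z => ?_
    simp only [Phi_apply, pm, lift, cast_phi, phi_add, κ]

lemma prod_lift {M : Type} [CommMonoid M] {d₀ d : ℕ} [NeZero d₀] [NeZero d] (h : d₀ ∣ d)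
    (f : α × ZMod d₀ → T) (G : ℕ → α → T → M) (hG : ∀ n, G (n % d) = G n) :
    ∏ x : α × ZMod d, G x.2.val x.1 (lift h f x) =
      ∏ t ∈ range (d / d₀), ∏ y : α × ZMod d₀, G (y.2.val + t * d₀) y.1 (f y) := by
  obtain ⟨R, rfl⟩ := exists_eq_mul_left_of_dvd h
  have : NeZero R := ⟨left_ne_zero_of_mul (NeZero.ne (R * d₀))⟩
  rw [Nat.mul_div_cancel _ (NeZero.pos d₀), ← (Phi d₀ R α).prod_comp, Fintype.prod_prod_type]
  simp only [Phi_apply, lift, cast_phi]
  simp only [phi, ZMod.val_natCast, hG]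
  obtain ⟨n, rfl⟩ := Nat.exists_eq_succ_of_ne_zero (NeZero.ne R)
  exact Fin.prod_univ_eq_prod_range
    (fun t => ∏ y : α × ZMod d₀, G (y.2.val + t * d₀) y.1 (f y)) (n + 1)

lemma prod_shift {M : Type} [CommMonoid M] {d : ℕ} [NeZero d] (u : ℕ)
    (f : α × ZMod d → T) (G : ℕ → α → T → M) (hG : ∀ n, G (n % d) = G n) :
    ∏ x : α × ZMod d, G x.2.val x.1 (shift u f x) =
      ∏ x : α × ZMod d, G (u + x.2.val) x.1 (f x) := by
  rw [← (Equiv.prodCongr (Equiv.refl α) (Equiv.addRight (u : ZMod d))).prod_comp]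
  refine prod_congr rfl fun x _ => ?_
  have e : ((x.2 + u : ZMod d)).val = (u + x.2.val) % d := by
    rw [← ZMod.val_natCast]
    simp [add_comm]
  simp [shift, e, hG]

lemma lift_inj {d m : ℕ} (h : d ∣ m) : Function.Injective (lift (α := α) (T := T) h) := by
  intro f g e
  funext x
  obtain ⟨i, hi⟩ := ZMod.castHom_surjective h x.2
  have := congrFun e (x.1, i)
  simpa only [lift, hi] using this

lemma lift_lift {d₀ d m : ℕ} (h : d₀ ∣ d) (h' : d ∣ m) (f : α × ZMod d₀ → T) :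
    lift h' (lift h f) = lift (h.trans h') f := by
  funext x
  simp only [lift]
  rw [← ZMod.castHom_comp h h']
  rfl

lemma shift_lift {d m : ℕ} (h : d ∣ m) (u : ℕ) (f : α × ZMod d → T) :
    shift u (lift h f) = lift h (shift u f) := by
  funext x
  simp only [lift, shift, map_sub, map_natCast]

lemma shift_shift {d : ℕ} (u v : ℕ) (f : α × ZMod d → T) :
    shift u (shift v f) = shift (u + v) f := by
  funext x
  simp only [shift, Nat.cast_add, sub_sub]

lemma shift_self {d : ℕ} (f : α × ZMod d → T) : shift d f = f := by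
  funext x
  simp [shift]

lemma exists_lift {d m : ℕ} [NeZero d] [NeZero m] (h : d ∣ m) {g : α × ZMod m → T}
    (hg : shift d g = g) : ∃ f, lift h f = g := by
  have h1 : ∀ q : ℕ, shift (q * d) g = g := fun q => by
    induction q with
    | zero => funext x; simp [shift]
    | succ q ih => rw [Nat.succ_mul, ← shift_shift, hg, ih]
  refine ⟨fun x => g (x.1, (x.2.val : ZMod m)), funext fun x => ?_⟩
  rw [← congrFun (h1 (x.2.val / d)) x]
  simp only [lift, shift]
  congr 2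
  rw [ZMod.castHom_apply, ZMod.cast_eq_val, ZMod.val_natCast, eq_sub_iff_add_eq, ← Nat.cast_add,
    Nat.mod_add_div', ZMod.natCast_zmod_val]

variable (α T) in
/-- translation by one -/
def tau (m : ℕ) : Equiv.Perm (α × ZMod m → T) where
  toFun := shift 1
  invFun g x := g (x.1, x.2 + 1)
  left_inv g := by funext x; simp [shift]
  right_inv g := by funext x; simp [shift]

lemma tau_pow {m : ℕ} (u : ℕ) (g : α × ZMod m → T) : (tau α T m ^ u) g = shift u g := by
  induction u with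
  | zero => funext x; simp [shift]
  | succ u ih =>
    rw [pow_succ', Equiv.Perm.mul_apply, ih, add_comm, ← shift_shift]
    rfl

lemma per_iff {m : ℕ} (u : ℕ) (g : α × ZMod m → T) :
    Function.minimalPeriod (tau α T m) g ∣ u ↔ shift u g = g := by
  rw [← Function.isPeriodicPt_iff_minimalPeriod_dvd, ← tau_pow, Equiv.Perm.coe_pow]
  rfl

end

end Pool.Agent.MP_f3cd89_nt.JbX

end

section

/-! Reduced norms satisfy the congruences. -/

set_option autoImplicit false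
set_option linter.unusedSectionVars false
set_option linter.unusedVariables false

open Finset

namespace Pool.Agent.MP_f3cd89_nt

namespace JbX

variable {A : Type} [CommGroup A] {Δ : Dat A} {k : Type} [CommRing k]

lemma lam_mod (P : Pt Δ k) (n : ℕ) : lam P (n % P.d) = lam P n := by
  rw [← lam_add_mul P (n % P.d) (n / P.d), Nat.mod_add_div']

lemma W_mem (hW : WV_st) {d : ℕ} (b : MonoidAlgebra ℤ A) {e : ℤ} (hd : d ∣ Δ.m)
    (he : (d : ℤ) ∣ e) : W d b e ∈ B Δ k := by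
  have := add_mem (Bgt_le_B d (hW A Δ k d b e hd he)) (Vl_mem b hd he)
  rwa [sub_add_cancel] at this

lemma W_zero (d : ℕ) (e : ℤ) : (W d 0 e : Pt Δ k → k) = 0 := by
  funext P
  rw [W]
  split_ifs with h
  · refine sum_eq_zero fun i _ => prod_eq_zero (i := 0) (mem_range.2 ?_) (by simp)
    exact Nat.div_pos (Nat.le_of_dvd P.d_pos h) (Nat.pos_of_dvd_of_pos h P.d_pos)
  · rfl

lemma zpow_sum' {ι : Type} (s : Finset ι) (w : kˣ) (e : ι → ℤ) :
    ∏ i ∈ s, ((w ^ e i : kˣ) : k) = ((w ^ ∑ i ∈ s, e i : kˣ) : k) := by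
  classical
  induction s using Finset.induction_on with
  | empty => simp
  | insert a s ha ih => rw [prod_insert ha, sum_insert ha, ih, zpow_add, Units.val_mul]

variable {α T : Type} [Fintype α] [DecidableEq α] [Fintype T] (tb : T → α) (te : T → ℤ)
  (c : α → T → MonoidAlgebra ℤ A)

/-- a term of the expansion of the determinant -/
noncomputable def term (P : Pt Δ k) (f : α × ZMod P.d → T) : k :=
  (((Z (pm tb te f)).det : ℤ) : k) *
    ∏ x, (lam P x.2.val (c x.1 (f x)) * ((P.ω ^ te (f x) : kˣ) : k))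

lemma term_shift {d₀ : ℕ} [NeZero d₀] (f : α × ZMod d₀ → T) (P : Pt Δ k) (h : d₀ ∣ P.d) (u : ℕ) :
    term tb te c P (shift u (lift h f)) = (((Z (pm tb te (lift h f))).det : ℤ) : k) *
      ∏ t ∈ range (P.d / d₀), (lam P (u + t * d₀) (∏ y, sg Δ y.2.val (c y.1 (f y))) *
        ((P.ω ^ ∑ y, te (f y) : kˣ) : k)) := by
  rw [term, det_pm_shift]
  congr 1
  have h1 := prod_shift u (lift h f)
    (fun n a τ => lam P n (c a τ) * ((P.ω ^ te τ : kˣ) : k)) fun n => by simp only [lam_mod]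
  have h2 := prod_lift h f
    (fun n a τ => lam P (u + n) (c a τ) * ((P.ω ^ te τ : kˣ) : k)) fun n => by
      rw [← lam_mod P (u + n % P.d), Nat.add_mod_mod, lam_mod]
  rw [h1, h2]
  refine prod_congr rfl fun t _ => ?_
  rw [prod_mul_distrib, zpow_sum', map_prod]
  congr 1
  refine prod_congr rfl fun y _ => ?_
  rw [lam_sg]
  congr 2
  ring

open Classical in
lemma sum_term (hO : ORB_st) (hW : WV_st) :
    (fun P : Pt Δ k => ∑ f, term tb te c P f) ∈ B Δ k := by
  have : NeZero Δ.m := ⟨Δ.m_pos.ne'⟩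
  let g : (α × ZMod Δ.m → T) → Pt Δ k → k := fun y P =>
    ∑ f, if lift P.d_dvd f = y then term tb te c P f else 0
  have e : (fun P : Pt Δ k => ∑ f, term tb te c P f) = ∑ y, g y := by
    funext P
    rw [Finset.sum_apply, sum_comm]
    simp only [sum_ite_eq, mem_univ, if_true]
  rw [e]
  refine hO _ (B Δ k) _ (tau α T Δ.m) g fun y => ?_
  have hper := fun u => per_iff u y
  generalize Function.minimalPeriod (tau α T Δ.m) y = d₀ at hper ⊢
  have hd : d₀ ∣ Δ.m := (hper _).2 (shift_self y)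
  have : NeZero d₀ := ⟨(Nat.pos_of_dvd_of_pos hd Δ.m_pos).ne'⟩
  obtain ⟨f, rfl⟩ := exists_lift hd ((hper d₀).1 dvd_rfl)
  obtain ⟨u₀, v, hv, huv⟩ := det_pm_lift tb te f
  have e2 : ∑ u ∈ range d₀, g ((tau α T Δ.m ^ u) (lift hd f)) =
      u₀ • W d₀ (v • ∏ y, sg Δ y.2.val (c y.1 (f y))) (∑ y, te (f y)) := by
    funext P
    rw [Finset.sum_apply, Pi.smul_apply, W]
    simp only [tau_pow, g]
    split_ifs with h
    · rw [smul_sum]
      refine sum_congr rfl fun u _ => ?_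
      rw [← lift_lift h P.d_dvd, shift_lift]
      simp only [(lift_inj P.d_dvd).eq_iff, sum_ite_eq', mem_univ, if_true]
      rw [term_shift, huv]
      simp only [map_zsmul]
      simp only [zsmul_eq_mul, mul_assoc, prod_mul_distrib, prod_const, card_range,
        Int.cast_mul, Int.cast_pow]
    · rw [smul_zero]
      refine sum_eq_zero fun u hu => sum_eq_zero fun f' _ => if_neg fun e => h ((hper _).2 ?_)
      have h1 : shift P.d (shift u (lift hd f)) = shift u (lift hd f) := by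
        rw [← e, shift_lift, shift_self]
      rw [shift_shift, add_comm, ← shift_shift, ← tau_pow u, ← tau_pow u] at h1
      exact (tau α T Δ.m ^ u).injective h1
  rw [e2]
  refine zsmul_mem ?_ _
  by_cases h0 : v = 0
  · rw [h0, zero_smul, W_zero]
    exact zero_mem _
  · exact W_mem hW _ hd (hv h0)

end JbX

open JbX in
theorem jb (hO : ORB_st) (hB : BASE_st) (hW : WV_st) : JB_st := by
  classical
  intro A _ Δ k _
  refine (AddSubgroup.closure_le _).2 ?_
  rintro _ ⟨r, H, rfl⟩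
  let E : Finset ℤ := univ.biUnion fun x : Fin r × Fin r => (H x.1 x.2).support
  have e : (Dt H : Pt Δ k → k) = fun P => ∑ f, term (T := Fin r × E) Prod.fst (fun τ => τ.2.1)
      (fun a τ => H a τ.1 τ.2.1) P f := by
    funext P
    refine Eq.trans (congrArg Matrix.det ?_) (det_rows
      (fun (x : Fin r × ZMod P.d) (τ : Fin r × E) =>
        lam P x.2.val (H x.1 τ.1 τ.2.1) * ((P.ω ^ τ.2.1 : kˣ) : k))
      fun x τ => (τ.1, x.2 + (τ.2.1 : ZMod P.d)))
    ext x y
    simp only [Matrix.of_apply, rho, rhoG]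
    rw [Finsupp.sum_of_support_subset (s := E) _ (subset_biUnion_of_mem
      (fun x : Fin r × Fin r => (H x.1 x.2).support) (mem_univ (x.1, y.1))) _ (by simp),
      Fintype.sum_prod_type, sum_eq_single y.1 (fun b _ hb => ?_) (by simp), ← sum_coe_sort E]
    · refine sum_congr rfl fun e _ => if_congr ?_ rfl rfl
      simp [Prod.ext_iff]
    · exact sum_eq_zero fun e _ => if_neg fun h => hb (congrArg Prod.fst h).symm
  rw [SetLike.mem_coe, e]
  exact sum_term _ _ _ hO hW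

end Pool.Agent.MP_f3cd89_nt

end

section

/-! Restriction of scalars from a finite field. -/

set_option autoImplicit false

open Finset Polynomial
open scoped Kronecker

namespace Pool.Agent.MP_f3cd89_nt

namespace ResX

lemma emb (p : ℕ) [hp : Fact p.Prime] {f : ℕ} (hf : f ≠ 0) (ι : GaloisField p f →ₐ[ZMod p] Kb p) :
    ∃ S : Finset (Kb p), S.card = p ^ f ∧ (∀ c ∈ S, c ^ p ^ f = c) ∧
      ∀ c, c ^ p ^ f = c → ∃ x, ι x = c := by
  classical
  have := Fintype.ofFinite (GaloisField p f)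
  have h0 : Fintype.card (GaloisField p f) = p ^ f := by
    rw [← Nat.card_eq_fintype_card, GaloisField.card p f hf]
  have h1 : (univ.image ι).card = p ^ f := by
    rw [card_image_of_injective _ (f := ι) ι.injective, card_univ, h0]
  have h2 : ∀ c ∈ univ.image ι, c ^ p ^ f = c := fun c hc => by
    obtain ⟨x, -, rfl⟩ := mem_image.1 hc
    rw [← map_pow, ← h0, FiniteField.pow_card]
  refine ⟨_, h1, h2, fun c hc => ?_⟩
  by_contra h
  have h3 : c ∉ univ.image ι := fun h' => by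
    obtain ⟨x, -, e⟩ := mem_image.1 h'
    exact h ⟨x, e⟩
  have h4 : 1 < p ^ f := Nat.one_lt_pow hf hp.out.one_lt
  refine FiniteField.X_pow_card_sub_X_ne_zero (Kb p) h4
    (eq_zero_of_natDegree_lt_card_of_eval_eq_zero' _ (insert c (univ.image ι)) (fun x hx => ?_) ?_)
  · rw [eval_sub, eval_pow, eval_X, sub_eq_zero]
    rcases mem_insert.1 hx with rfl | hx
    · exact hc
    · exact h2 x hx
  · rw [FiniteField.X_pow_card_sub_X_natDegree_eq _ h4, card_insert_of_notMem h3, h1]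
    exact Nat.lt_succ_self _

lemma fld (p : ℕ) [hp : Fact p.Prime] {f : ℕ} (hf : f ≠ 0) :
    ∃ (Q : Matrix (Fin f) (Fin f) (Kb p)) (M : Kb p → Matrix (Fin f) (Fin f) ℤ), Q.det ≠ 0 ∧
      ∀ c, c ^ p ^ f = c → ∀ j β, ∑ α, Q j α * (M c α β : Kb p) = c ^ p ^ j.1 * Q j β := by
  classical
  let ι : GaloisField p f →ₐ[ZMod p] Kb p := IsAlgClosed.lift
  obtain ⟨-, -, -, h⟩ := emb p hf ι
  let b := Module.finBasisOfFinrankEq (ZMod p) (GaloisField p f) (GaloisField.finrank p hf)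
  let σ : Fin f → GaloisField p f →ₐ[ZMod p] Kb p := fun j =>
    ι.comp (FiniteField.frobeniusAlgHom (ZMod p) (GaloisField p f) ^ j.1)
  have hσ : ∀ j x, σ j x = ι x ^ p ^ j.1 := fun j x => by
    simp only [σ, AlgHom.comp_apply, AlgHom.coe_pow, FiniteField.coe_frobeniusAlgHom, pow_iterate,
      ZMod.card, map_pow]
  have hi : Function.Injective σ := fun i j e => by
    have h1 := (FiniteField.bijective_frobeniusAlgHom_pow (ZMod p) (GaloisField p f)).1
      (a₁ := i.cast (GaloisField.finrank p hf).symm) (a₂ := j.cast (GaloisField.finrank p hf).symm)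
      (AlgHom.ext fun x => ι.injective (DFunLike.congr_fun e x))
    exact Fin.cast_injective _ h1
  refine ⟨fun j α => σ j (b α), fun c α β =>
    (Algebra.leftMulMatrix b (Function.invFun ι c) α β).cast, fun h0 => ?_, fun c hc j β => ?_⟩
  · obtain ⟨v, hv, h1⟩ := Matrix.exists_vecMul_eq_zero_iff.2 h0
    have h2 := (linearIndependent_algHom_toLinearMap (ZMod p) (GaloisField p f) (Kb p)).comp σ hi
    refine hv (funext (Fintype.linearIndependent_iff.1 h2 v (b.ext fun α => ?_)))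
    simpa [Matrix.vecMul, dotProduct] using congrFun h1 α
  · have h1 : ι (Function.invFun ι c) = c := Function.invFun_eq (h c hc)
    change ∑ α, σ j (b α) * (((Algebra.leftMulMatrix b (Function.invFun ι c) α β).cast : ℤ) : Kb p) =
      c ^ p ^ j.1 * σ j (b β)
    generalize Function.invFun ι c = x at h1
    subst h1
    rw [← hσ, ← map_mul, ← b.sum_repr (x * b β), map_sum]
    refine sum_congr rfl fun α _ => ?_
    rw [map_smul, Algebra.smul_def, Algebra.leftMulMatrix_eq_repr_mul, mul_comm,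
      ← map_intCast (algebraMap (ZMod p) (Kb p)), ZMod.intCast_zmod_cast]

lemma blk {K n d : Type} [Field K] [Fintype n] [DecidableEq n] [Fintype d] [DecidableEq d]
    (Q : Matrix n n K) (hQ : Q.det ≠ 0) (N : Matrix (n × d) (n × d) K) (R : n → Matrix d d K)
    (h : ∀ j β i i', ∑ α, Q j α * N (α, i) (β, i') = R j i i' * Q j β) :
    N.det = ∏ j, (R j).det := by
  have h1 : (Q ⊗ₖ (1 : Matrix d d K)) * N =
      (Matrix.blockDiagonal R).submatrix (Equiv.prodComm n d) (Equiv.prodComm n d) *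
        (Q ⊗ₖ (1 : Matrix d d K)) := by
    ext ⟨j, i⟩ ⟨β, i'⟩
    simp [Matrix.mul_apply, Fintype.sum_prod_type, Matrix.one_apply, Matrix.blockDiagonal_apply, h]
  have h2 := congrArg Matrix.det h1
  rw [Matrix.det_mul, Matrix.det_mul, Matrix.det_submatrix_equiv_self, Matrix.det_blockDiagonal,
    mul_comm, Matrix.det_kronecker, Matrix.det_one, one_pow, mul_one] at h2
  exact mul_right_cancel₀ (pow_ne_zero _ hQ) h2

variable {A : Type} [CommGroup A] {Δ : Dat A} {k : Type} [CommRing k]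

/-- the matrix of a group element -/
noncomputable def T (P : Pt Δ k) (e : ℤ) (a : A) (i j : ZMod P.d) : k :=
  if j = i + (e : ZMod P.d) then ((P.η ((Δ.σ ^ i.val) a) : kˣ) : k) * ((P.ω ^ e : kˣ) : k) else 0

lemma rhoG_sum {Λ : Type} [CommRing Λ] (γ : Λ →+* k) (P : Pt Δ k) (s : Finset ℤ)
    (t : ℤ → Finset A) (x : ℤ → A → Λ) (i j : ZMod P.d) :
    rhoG γ P (∑ e ∈ s, ∑ a ∈ t e, Finsupp.single e (MonoidAlgebra.single a (x e a))) i j =
      ∑ e ∈ s, ∑ a ∈ t e, γ (x e a) * T P e a i j := by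
  let φ : (ℤ →₀ MonoidAlgebra Λ A) →+ k :=
    AddMonoidHom.mk' (fun y => rhoG γ P y i j) fun y z => by rw [rhoG_add, Matrix.add_apply]
  change φ _ = _
  simp only [map_sum]
  refine sum_congr rfl fun e _ => sum_congr rfl fun a _ => ?_
  change rhoG γ P _ i j = _
  rw [rhoG_single, lamG_single, T, mul_ite, mul_zero, mul_assoc]

lemma eq_sum {Λ : Type} [CommRing Λ] (y : ℤ →₀ MonoidAlgebra Λ A) :
    y = ∑ e ∈ y.support, ∑ a ∈ (y e).coeff.support,
      Finsupp.single e (MonoidAlgebra.single a ((y e).coeff a)) := by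
  conv_lhs => rw [← y.sum_single, Finsupp.sum]
  refine sum_congr rfl fun e _ => ?_
  rw [← Finsupp.single_finsetSum]
  exact congrArg _ (y e).sum_coeff_single.symm

end ResX

open ResX

theorem res : RES_st := by
  intro A _ Δ p _ f y hf hy
  obtain ⟨Q, M, hQ, h⟩ := fld p hf.ne'
  refine ⟨_, Dt_mem (Matrix.of fun α β : Fin f => ∑ e ∈ y.support, ∑ a ∈ (y e).coeff.support,
    Finsupp.single e (MonoidAlgebra.single a (M ((y e).coeff a) α β))), fun P => ?_⟩
  rw [← Fin.prod_univ_eq_prod_range fun j => (rhoG (iterateFrobenius (Kb p) p j) P y).det]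
  refine blk Q hQ _ _ fun j β i i' => ?_
  conv_rhs => rw [eq_sum y, rhoG_sum]
  simp only [Matrix.of_apply, rho, rhoG_sum, mul_sum, sum_mul]
  rw [sum_comm]
  refine sum_congr rfl fun e _ => ?_
  rw [sum_comm]
  refine sum_congr rfl fun a _ => ?_
  simp only [← mul_assoc, ← sum_mul, eq_intCast]
  rw [h _ (hy e a), iterateFrobenius_def]
  ring

theorem dec : DEC_st := by
  intro p hp f Γ Γ' h1 h2 h h0
  have hf : f ≠ 0 := (mem_range.1 (h1 h0)).ne'
  let ι : GaloisField p f →ₐ[ZMod p] Kb p := IsAlgClosed.lift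
  obtain ⟨S, s1, s2, -⟩ := emb p hf ι
  have e1 := Nat.geomSum_lt hp.out.two_le fun k hk => mem_range.1 (h1 hk)
  have e2 := Nat.geomSum_lt hp.out.two_le fun k hk => mem_range.1 (h2 hk)
  have h3 := eq_zero_of_natDegree_lt_card_of_eval_eq_zero'
    (X ^ (∑ j ∈ Γ, p ^ j) - X ^ (∑ j ∈ Γ', p ^ j) : (Kb p)[X]) S (fun c hc => by
      rw [eval_sub, eval_pow, eval_pow, eval_X, ← prod_pow_eq_pow_sum, ← prod_pow_eq_pow_sum,
        h c (s2 c hc), sub_self]) (by
      rw [s1]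
      exact (natDegree_sub_le _ _).trans_lt (by simp [e1, e2]))
  have h4 := congrArg natDegree (sub_eq_zero.1 h3)
  rw [natDegree_X_pow, natDegree_X_pow] at h4
  rwa [← geomSum_injective hp.out.two_le h4]

end Pool.Agent.MP_f3cd89_nt

end

section

/-! The reduced norms surject on `B / p B` modulo nilpotents. -/

set_option autoImplicit false

open Finset Polynomial

namespace Pool.Agent.MP_f3cd89_nt

namespace ConeX

theorem clo {M N : Type} [AddCommGroup M] [AddCommGroup N] (R : M → N → Prop) (h0 : R 0 0)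
    (ha : ∀ a b c d, R a b → R c d → R (a + c) (b + d)) (hn : ∀ a b, R a b → R (-a) (-b))
    {S : Set M} {T : AddSubgroup N} (h : ∀ s ∈ S, ∃ t ∈ T, R s t) :
    ∀ s ∈ AddSubgroup.closure S, ∃ t ∈ T, R s t := by
  intro s hs
  induction hs using AddSubgroup.closure_induction with
  | mem x hx => exact h x hx
  | zero => exact ⟨0, T.zero_mem, h0⟩
  | add x y _ _ h1 h2 =>
    obtain ⟨a, a1, a2⟩ := h1
    obtain ⟨b, b1, b2⟩ := h2
    exact ⟨a + b, T.add_mem a1 b1, ha _ _ _ _ a2 b2⟩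
  | neg x _ h1 =>
    obtain ⟨a, a1, a2⟩ := h1
    exact ⟨-a, T.neg_mem a1, hn _ _ a2⟩

theorem rad {O : Type} [CommRing O] (hO : ∀ x : O, IsIntegral ℤ x) (p : ℕ) [hp : Fact p.Prime]
    (x : O) (h : ∀ κ : O →+* Kb p, κ x = 0) : ∃ (n : ℕ) (z : O), x ^ n = p * z := by
  have key : x ∈ (Ideal.span {(p : O)}).radical := by
    rw [Ideal.radical_eq_sInf, Submodule.mem_sInf]
    rintro q ⟨q1, q2⟩
    have hq : ((p : ℕ) : O ⧸ q) = 0 := by
      rw [← map_natCast (Ideal.Quotient.mk q), Ideal.Quotient.eq_zero_iff_mem]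
      exact q1 (Ideal.mem_span_singleton_self _)
    have : CharP (O ⧸ q) p := (CharP.charP_iff_prime_eq_zero hp.out).2 hq
    let : Algebra (ZMod p) (O ⧸ q) := ZMod.algebra _ p
    have : Algebra.IsIntegral (ZMod p) (O ⧸ q) := ⟨fun y => by
      obtain ⟨y, rfl⟩ := Ideal.Quotient.mk_surjective y
      exact ((hO y).map (Ideal.Quotient.mk q).toIntAlgHom).tower_top⟩
    let f : (O ⧸ q) →ₐ[ZMod p] Kb p := IsAlgClosed.lift
    have hf : RingHom.ker (f : (O ⧸ q) →+* Kb p) = ⊥ := by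
      refine Ideal.eq_bot_of_comap_eq_bot (R := ZMod p) (eq_bot_iff.2 fun y hy => ?_)
      rw [Ideal.mem_comap, RingHom.mem_ker, RingHom.coe_coe, AlgHom.commutes,
        map_eq_zero] at hy
      exact hy
    have h1 : Ideal.Quotient.mk q x ∈ RingHom.ker (f : (O ⧸ q) →+* Kb p) :=
      h ((f : (O ⧸ q) →+* Kb p).comp (Ideal.Quotient.mk q))
    rw [hf, Ideal.mem_bot] at h1
    exact Ideal.Quotient.eq_zero_iff_mem.1 h1
  obtain ⟨n, hn⟩ := key
  obtain ⟨z, hz⟩ := Ideal.mem_span_singleton'.1 hn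
  exact ⟨n, z, by rw [← hz, mul_comm]⟩

theorem int_pi {Y R : Type} [Finite Y] [CommRing R] (z : Y → R) (h : ∀ y, IsIntegral ℤ (z y)) :
    IsIntegral ℤ z := by
  have := Fintype.ofFinite Y
  choose q h1 h2 using h
  refine ⟨∏ y, q y, monic_prod_of_monic _ _ fun y _ => h1 y, funext fun y => ?_⟩
  have h3 := hom_eval₂ (∏ y, q y) (algebraMap ℤ (Y → R)) (Pi.evalRingHom (fun _ => R) y) z
  refine h3.trans ?_
  rw [eval₂_finsetProd]
  refine prod_eq_zero (mem_univ y) ?_
  rw [Subsingleton.elim ((Pi.evalRingHom (fun _ => R) y).comp (algebraMap ℤ (Y → R)))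
    (algebraMap ℤ R)]
  exact h2 y

theorem pow_int {R : Type} [CommRing R] (S : Subring R) (p : ℕ) (z : R) (hz : IsIntegral ℤ z)
    (h : p * z ∈ S) : ∃ n : ℕ, ∃ g ∈ S, p • g = (p * z) ^ n := by
  obtain ⟨q, h1, h2⟩ := hz
  rw [← aeval_def, h1.as_sum, map_add, map_sum, aeval_X_pow, add_eq_zero_iff_eq_neg] at h2
  refine ⟨q.natDegree, -∑ i ∈ range q.natDegree,
    (q.coeff i : R) * p ^ (q.natDegree - i - 1) * (p * z) ^ i, S.neg_mem (S.sum_mem fun i _ =>
      S.mul_mem (S.mul_mem (intCast_mem S _) (S.pow_mem (natCast_mem S p) _)) (S.pow_mem h _)), ?_⟩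
  rw [mul_pow _ z q.natDegree, h2, nsmul_eq_mul, mul_neg, mul_neg, mul_sum, mul_sum, neg_inj]
  refine sum_congr rfl fun i hi => ?_
  obtain ⟨j, hj⟩ := Nat.exists_eq_add_of_lt (mem_range.1 hi)
  rw [hj, show i + j + 1 - i - 1 = j by omega, map_mul, aeval_C, aeval_X_pow, eq_intCast]
  ring

variable {A : Type} [CommGroup A] {Δ : Dat A} {k k' : Type} [CommRing k] [CommRing k']

theorem pt_ext {P Q : Pt Δ k} (h1 : P.d = Q.d) (h2 : P.η = Q.η) (h3 : P.ω = Q.ω) : P = Q := by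
  obtain ⟨d, _, η, _, ω, _⟩ := P
  obtain ⟨d', _, η', _, ω', _⟩ := Q
  obtain rfl : d = d' := h1
  obtain rfl : η = η' := h2
  obtain rfl : ω = ω' := h3
  rfl

theorem eta_pow (P : Pt Δ k) (a : A) : P.η a ^ (Δ.m * Nat.card A) = 1 := by
  rw [mul_comm, pow_mul, ← map_pow, pow_card_eq_one', map_one, one_pow]

theorem om_pow (P : Pt Δ k) : P.ω ^ (Δ.m * Nat.card A) = 1 := by
  rw [pow_mul, P.ω_pow, ← map_pow, pow_card_eq_one', map_one]

theorem finite_pt [Finite A] : Finite (Pt Δ ℂ) := by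
  have : NeZero (Δ.m * Nat.card A) := ⟨(Nat.mul_pos Δ.m_pos Nat.card_pos).ne'⟩
  refine Finite.of_injective (fun P : Pt Δ ℂ =>
    ((⟨P.d, Nat.lt_succ_of_le (Nat.le_of_dvd Δ.m_pos P.d_dvd)⟩ : Fin (Δ.m + 1)),
      (fun a => (⟨P.η a, eta_pow P a⟩ : rootsOfUnity (Δ.m * Nat.card A) ℂ)),
      (⟨P.ω, om_pow P⟩ : rootsOfUnity (Δ.m * Nat.card A) ℂ))) fun P Q h => ?_
  obtain ⟨h1, h⟩ := Prod.mk.inj h
  obtain ⟨h2, h3⟩ := Prod.mk.inj h
  exact pt_ext (congrArg Fin.val h1)
    (MonoidHom.ext fun a => congrArg Subtype.val (congrFun h2 a)) (congrArg Subtype.val h3)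

/-- the ring of algebraic integers -/
abbrev OO : Type := integralClosure ℤ ℂ

/-- its inclusion in the complex numbers -/
noncomputable def ii : OO →+* ℂ := algebraMap OO ℂ

theorem ii_inj : Function.Injective (Units.map (ii : OO →* ℂ)) :=
  Units.map_injective Subtype.val_injective

theorem ii_root {N : ℕ} (hN : 0 < N) (u : ℂˣ) (h : u ^ N = 1) :
    ∃ v : OOˣ, Units.map (ii : OO →* ℂ) v = u := by
  have k : ∀ u : ℂˣ, u ^ N = 1 → IsIntegral ℤ (u : ℂ) := fun u h =>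
    IsIntegral.of_pow hN (by rw [← Units.val_pow_eq_pow_val, h]; exact isIntegral_one)
  exact ⟨⟨⟨u, k u h⟩, ⟨(u⁻¹ : ℂˣ), k u⁻¹ (by rw [inv_pow, h, inv_one])⟩, Subtype.ext u.mul_inv,
    Subtype.ext u.inv_mul⟩, Units.ext rfl⟩

theorem lift_pt [Finite A] (P : Pt Δ ℂ) : ∃ Q : Pt Δ OO, Q.map ii = P := by
  have hN : 0 < Δ.m * Nat.card A := Nat.mul_pos Δ.m_pos Nat.card_pos
  choose g hg using fun a => ii_root hN _ (eta_pow P a)
  obtain ⟨w, hw⟩ := ii_root hN _ (om_pow P)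
  refine ⟨⟨P.d, P.d_dvd, MonoidHom.mk' g fun a b => ii_inj ?_, fun a => ii_inj ?_, w, ii_inj ?_⟩,
    pt_ext rfl (MonoidHom.ext hg) hw⟩
  · rw [map_mul, hg, hg, hg, map_mul]
  · exact (hg _).trans ((P.inv a).trans (hg a).symm)
  · rw [map_pow, hw, P.ω_pow]
    exact (hg _).symm

/-- compatibility with all changes of coefficients -/
def Rel (f : Pt Δ k → k) (g : Pt Δ k' → k') : Prop :=
  ∀ (κ : k →+* k') (P : Pt Δ k), g (P.map κ) = κ (f P)

theorem rel_zero : Rel (0 : Pt Δ k → k) (0 : Pt Δ k' → k') := fun κ _ => κ.map_zero.symm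

theorem Rel.add {a c : Pt Δ k → k} {b d : Pt Δ k' → k'} (h : Rel a b) (h' : Rel c d) :
    Rel (a + c) (b + d) := fun κ P => by
  rw [Pi.add_apply, Pi.add_apply, map_add, h, h']

theorem Rel.neg {a : Pt Δ k → k} {b : Pt Δ k' → k'} (h : Rel a b) : Rel (-a) (-b) := fun κ P => by
  rw [Pi.neg_apply, Pi.neg_apply, map_neg, h]

theorem up {S : Set (Pt Δ k → k)} {T : AddSubgroup (Pt Δ k' → k')} (h : ∀ s ∈ S, ∃ t ∈ T, Rel s t) :
    ∀ s ∈ AddSubgroup.closure S, ∃ t ∈ T, Rel s t :=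
  clo Rel rel_zero (fun _ _ _ _ => Rel.add) (fun _ _ => Rel.neg) h

theorem down {S : Set (Pt Δ k' → k')} {T : AddSubgroup (Pt Δ k → k)}
    (h : ∀ s ∈ S, ∃ t ∈ T, Rel t s) : ∀ s ∈ AddSubgroup.closure S, ∃ t ∈ T, Rel t s :=
  clo (fun s t => Rel t s) rel_zero (fun _ _ _ _ => Rel.add) (fun _ _ => Rel.neg) h

theorem rel_V (hB : BASE_st) (d : ℕ) (a : A) (e : ℤ) :
    Rel (V d a e : Pt Δ k → k) (V d a e : Pt Δ k' → k') := fun κ P =>
  ((hB A Δ k).2.2.2.2.2.2.2.2 k' κ P).1 d _ e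

theorem rel_Dt (hB : BASE_st) {r : ℕ} (H : Matrix (Fin r) (Fin r) (ℤ →₀ MonoidAlgebra ℤ A)) :
    Rel (Dt H : Pt Δ k → k) (Dt H : Pt Δ k' → k') := fun κ P =>
  ((hB A Δ k).2.2.2.2.2.2.2.2 k' κ P).2 r H

end ConeX

open ConeX in
theorem c1 (hA : C1A_st) (hB : BASE_st) (hR : BRING_st) (hJ : JB_st) : C1_st := by
  intro A _ _ Δ p hp β hβ
  have : Fact p.Prime := ⟨hp⟩
  have : Finite (Pt Δ ℂ) := finite_pt
  have := Fintype.ofFinite (Pt Δ ℂ)
  obtain ⟨β₀, b1, b2⟩ : ∃ β₀ ∈ B Δ OO, Rel β₀ β := down (by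
    rintro _ ⟨d, a, e, h1, h2, rfl⟩
    exact ⟨_, V_mem a h1 h2, rel_V hB d a e⟩) β hβ
  obtain ⟨β₁, c1, c2⟩ : ∃ β₁ ∈ B Δ (Kb p), Rel β₀ β₁ := up (by
    rintro _ ⟨d, a, e, h1, h2, rfl⟩
    exact ⟨_, V_mem a h1 h2, rel_V hB d a e⟩) β₀ b1
  obtain ⟨Θ₀, d1, d2⟩ : ∃ Θ₀ ∈ J Δ OO, Rel Θ₀ β₁ := down (by
    rintro _ ⟨r, H, rfl⟩
    exact ⟨_, Dt_mem H, rel_Dt hB H⟩) β₁ (hA A Δ p c1)
  obtain ⟨Θ, e1, e2⟩ : ∃ Θ ∈ J Δ ℂ, Rel Θ₀ Θ := up (by
    rintro _ ⟨r, H, rfl⟩
    exact ⟨_, Dt_mem H, rel_Dt hB H⟩) Θ₀ d1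
  choose s hs using fun P : Pt Δ ℂ => lift_pt P
  choose n z hz using fun P : Pt Δ ℂ => rad (fun x : OO => Algebra.IsIntegral.isIntegral x) p
    (β₀ (s P) - Θ₀ (s P)) fun κ => by rw [map_sub, ← c2, ← d2, sub_self]
  let S : Subring (Pt Δ ℂ → ℂ) :=
    { B Δ ℂ with
      one_mem' := (hR A Δ ℂ).1
      mul_mem' := fun h h' => (hR A Δ ℂ).2.1 _ h _ h' }
  have hx : β - Θ ∈ S := (B Δ ℂ).sub_mem hβ (hJ A Δ ℂ e1)
  have key : (p : Pt Δ ℂ → ℂ) * (fun P => ii (z P * (β₀ (s P) - Θ₀ (s P)) ^ (univ.sup n - n P))) =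
      (β - Θ) ^ univ.sup n := by
    funext P
    have k1 : (β - Θ) P = ii (β₀ (s P) - Θ₀ (s P)) := by
      rw [map_sub, ← b2, ← e2, hs, Pi.sub_apply]
    rw [Pi.mul_apply, Pi.pow_apply, k1, Pi.natCast_apply, ← map_natCast ii, ← map_mul, ← mul_assoc,
      ← hz, ← pow_add, Nat.add_sub_cancel' (le_sup (mem_univ P)), map_pow]
  obtain ⟨m, g, g1, g2⟩ := pow_int S p _ (int_pi _ fun P =>
    (z P * (β₀ (s P) - Θ₀ (s P)) ^ (univ.sup n - n P)).2) (by
      have := S.pow_mem hx (univ.sup n)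
      rw [← key] at this
      exact this)
  refine ⟨Θ, e1, univ.sup n * m, g, g1, ?_⟩
  rw [pow_mul, ← key]
  exact g2

end Pool.Agent.MP_f3cd89_nt

end
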