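import Pool.Agent.MP_f3cd89_nt.Defs

section

set_option autoImplicit false
set_option linter.unusedSectionVars false

namespace Pool.Agent.MP_f3cd89_nt

/-- data of a group `G = ⟨A, X⟩` with `X a X⁻¹ = σ a`, `X ^ m = c` -/
structure Dat (A : Type) [CommGroup A] where
  σ : MulAut A
  m : ℕ
  m_pos : 0 < m
  c : A
  σ_pow : σ ^ m = 1
  σ_c : σ c = c

/-- a character of `⟨A, X ^ d⟩`, to be induced to `G` -/
structure Pt {A : Type} [CommGroup A] (Δ : Dat A) (k : Type) [CommRing k] where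
  d : ℕ
  d_dvd : d ∣ Δ.m
  η : A →* kˣ
  inv : ∀ a, η ((Δ.σ ^ d) a) = η a
  ω : kˣ
  ω_pow : ω ^ Δ.m = η Δ.c

variable {A : Type} [CommGroup A] {Δ : Dat A} {k : Type} [CommRing k]

theorem Pt.d_pos (P : Pt Δ k) : 0 < P.d := Nat.pos_of_dvd_of_pos P.d_dvd Δ.m_pos

instance Pt.neZero (P : Pt Δ k) : NeZero P.d := ⟨P.d_pos.ne'⟩

theorem Pt.inv_mul (P : Pt Δ k) (t : ℕ) (a : A) : P.η ((Δ.σ ^ (t * P.d)) a) = P.η a := by
  induction t with
  | zero => simp
  | succ t ih => rw [Nat.succ_mul, add_comm, pow_add, MulAut.mul_apply, P.inv, ih]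

theorem Dat.pow_c (Δ : Dat A) (t : ℕ) : (Δ.σ ^ t) Δ.c = Δ.c := by
  induction t with
  | zero => simp
  | succ t ih => rw [pow_succ, MulAut.mul_apply, Δ.σ_c, ih]

/-- the character `η ∘ σ ^ i` -/
def Pt.ch (P : Pt Δ k) (i : ℕ) : A →* k :=
  (Units.coeHom k).comp (P.η.comp (Δ.σ ^ i).toMonoidHom)

@[simp] theorem Pt.ch_apply (P : Pt Δ k) (i : ℕ) (a : A) :
    P.ch i a = ((P.η ((Δ.σ ^ i) a) : kˣ) : k) := rfl

/-- the character `η ∘ σ ^ i` on the group ring over `Λ`, along `γ : Λ → k` -/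
noncomputable def lamG {Λ : Type} [CommRing Λ] (γ : Λ →+* k) (P : Pt Δ k) (i : ℕ) :
    MonoidAlgebra Λ A →+* k :=
  MonoidAlgebra.liftNCRingHom γ (P.ch i) fun _ _ => Commute.all _ _

theorem lamG_single {Λ : Type} [CommRing Λ] (γ : Λ →+* k) (P : Pt Δ k) (i : ℕ) (a : A) (x : Λ) :
    lamG γ P i (MonoidAlgebra.single a x) = γ x * ((P.η ((Δ.σ ^ i) a) : kˣ) : k) := by
  simp [lamG]

/-- the character `η ∘ σ ^ i` on the integral group ring -/
noncomputable def lam (P : Pt Δ k) (i : ℕ) : MonoidAlgebra ℤ A →+* k :=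
  lamG (Int.castRingHom k) P i

theorem lam_single (P : Pt Δ k) (i : ℕ) (a : A) (x : ℤ) :
    lam P i (MonoidAlgebra.single a x) = (x : k) * ((P.η ((Δ.σ ^ i) a) : kˣ) : k) :=
  lamG_single _ P i a x

theorem lam_of (P : Pt Δ k) (i : ℕ) (a : A) :
    lam P i (MonoidAlgebra.of ℤ A a) = ((P.η ((Δ.σ ^ i) a) : kˣ) : k) := by
  rw [MonoidAlgebra.of_apply, lam_single]; simp

theorem lamG_add_mul {Λ : Type} [CommRing Λ] (γ : Λ →+* k) (P : Pt Δ k) (i t : ℕ) :
    lamG γ P (i + t * P.d) = lamG γ P i := by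
  refine MonoidAlgebra.ringHom_ext (fun x => ?_) fun a => ?_
  · simp [lamG_single]
  · rw [lamG_single, lamG_single, add_comm, pow_add, MulAut.mul_apply, P.inv_mul]

theorem lam_add_mul (P : Pt Δ k) (i t : ℕ) : lam P (i + t * P.d) = lam P i :=
  lamG_add_mul _ P i t

variable (Δ) in
/-- the automorphism `σ ^ i` of the group ring -/
noncomputable def sg (i : ℕ) : MonoidAlgebra ℤ A →+* MonoidAlgebra ℤ A :=
  MonoidAlgebra.mapDomainRingHom ℤ (Δ.σ ^ i).toMonoidHom

theorem sg_single (i : ℕ) (a : A) (x : ℤ) :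
    sg Δ i (MonoidAlgebra.single a x) = MonoidAlgebra.single ((Δ.σ ^ i) a) x := by
  simp [sg]

theorem lam_sg (P : Pt Δ k) (i j : ℕ) (b : MonoidAlgebra ℤ A) :
    lam P i (sg Δ j b) = lam P (i + j) b := by
  have : (lam P i).comp (sg Δ j) = lam P (i + j) := by
    refine MonoidAlgebra.ringHom_ext (fun x => ?_) fun a => ?_
    · simp [sg_single, lam_single]
    · simp [sg_single, lam_single, pow_add]
  exact DFunLike.congr_fun this b

theorem sg_sg (i j : ℕ) (b : MonoidAlgebra ℤ A) : sg Δ i (sg Δ j b) = sg Δ (i + j) b := by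
  have : (sg Δ i).comp (sg Δ j) = sg Δ (i + j) := by
    refine MonoidAlgebra.ringHom_ext (fun x => ?_) fun a => ?_
    · simp [sg_single]
    · simp [sg_single, pow_add]
  exact DFunLike.congr_fun this b

/-- the matrix of `∑ b_e X ^ e` in the induced representation, coefficients in `Λ` -/
noncomputable def rhoG {Λ : Type} [CommRing Λ] (γ : Λ →+* k) (P : Pt Δ k)
    (y : ℤ →₀ MonoidAlgebra Λ A) : Matrix (ZMod P.d) (ZMod P.d) k :=
  Matrix.of fun i j => y.sum fun e b =>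
    if j = i + (e : ZMod P.d) then lamG γ P i.val b * ((P.ω ^ e : kˣ) : k) else 0

/-- the matrix of `∑ b_e X ^ e` in the induced representation -/
noncomputable def rho (P : Pt Δ k) (y : ℤ →₀ MonoidAlgebra ℤ A) :
    Matrix (ZMod P.d) (ZMod P.d) k :=
  rhoG (Int.castRingHom k) P y

theorem rhoG_single {Λ : Type} [CommRing Λ] (γ : Λ →+* k) (P : Pt Δ k) (e : ℤ)
    (b : MonoidAlgebra Λ A) (i j : ZMod P.d) : rhoG γ P (Finsupp.single e b) i j =
      if j = i + (e : ZMod P.d) then lamG γ P i.val b * ((P.ω ^ e : kˣ) : k) else 0 := by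
  simp only [rhoG, Matrix.of_apply]
  rw [Finsupp.sum_single_index (by simp)]

theorem rhoG_zero {Λ : Type} [CommRing Λ] (γ : Λ →+* k) (P : Pt Δ k) : rhoG γ P 0 = 0 := by
  ext i j; simp [rhoG]

theorem rhoG_add {Λ : Type} [CommRing Λ] (γ : Λ →+* k) (P : Pt Δ k)
    (y z : ℤ →₀ MonoidAlgebra Λ A) : rhoG γ P (y + z) = rhoG γ P y + rhoG γ P z := by
  ext i j
  simp only [rhoG, Matrix.of_apply, Matrix.add_apply]
  refine Finsupp.sum_add_index' (fun e => by simp) fun e b b' => ?_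
  split_ifs <;> simp [add_mul]

theorem rho_single (P : Pt Δ k) (e : ℤ) (b : MonoidAlgebra ℤ A) (i j : ZMod P.d) :
    rho P (Finsupp.single e b) i j =
      if j = i + (e : ZMod P.d) then lam P i.val b * ((P.ω ^ e : kˣ) : k) else 0 :=
  rhoG_single _ P e b i j

/-- the reduced norm at a point -/
noncomputable def Dt {r : ℕ} (H : Matrix (Fin r) (Fin r) (ℤ →₀ MonoidAlgebra ℤ A)) (P : Pt Δ k) :
    k :=
  (Matrix.of fun x y : Fin r × ZMod P.d => rho P (H x.1 y.1) x.2 y.2).det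

variable (Δ k) in
/-- the additive span of the reduced norms -/
noncomputable def J : AddSubgroup (Pt Δ k → k) :=
  AddSubgroup.closure {f | ∃ (r : ℕ) (H : Matrix (Fin r) (Fin r) (ℤ →₀ MonoidAlgebra ℤ A)), f = Dt H}

/-- trace of the multiplicative transfer from level `d` -/
noncomputable def W (d : ℕ) (b : MonoidAlgebra ℤ A) (e : ℤ) (P : Pt Δ k) : k :=
  if d ∣ P.d then ∑ i ∈ Finset.range d, ∏ t ∈ Finset.range (P.d / d),
    (lam P (i + t * d) b * ((P.ω ^ e : kˣ) : k)) else 0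

/-- the same for a group element -/
noncomputable def V (d : ℕ) (a : A) (e : ℤ) : Pt Δ k → k := W d (MonoidAlgebra.of ℤ A a) e

/-- the linear extension of `V` -/
noncomputable def Vl (d : ℕ) (b : MonoidAlgebra ℤ A) (e : ℤ) : Pt Δ k → k :=
  b.coeff.sum fun a z => z • V d a e

variable (Δ k) in
/-- the span of the functions `V` -/
noncomputable def B : AddSubgroup (Pt Δ k → k) :=
  AddSubgroup.closure {f | ∃ (d : ℕ) (a : A) (e : ℤ), d ∣ Δ.m ∧ (d : ℤ) ∣ e ∧ f = V d a e}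

variable (Δ k) in
/-- the span of the functions `V` of levels that are proper multiples of `d` -/
noncomputable def Bgt (d : ℕ) : AddSubgroup (Pt Δ k → k) :=
  AddSubgroup.closure {f | ∃ (d' : ℕ) (a : A) (e : ℤ), d' ∣ Δ.m ∧ d ∣ d' ∧ d' ≠ d ∧ (d' : ℤ) ∣ e ∧
    f = V d' a e}

variable (Δ k) in
/-- the subgroup `p B` -/
noncomputable def pB (p : ℕ) : AddSubgroup (Pt Δ k → k) := (B Δ k).map (nsmulAddMonoidHom p)

variable (Δ) in
/-- the transfer from level `d` to level `d r` -/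
def ver (d r : ℕ) (a : A) : A := ∏ t ∈ Finset.range r, (Δ.σ ^ (t * d)) a

variable (Δ) in
/-- the trace over `Z / d` -/
noncomputable def trc (d : ℕ) (b : MonoidAlgebra ℤ A) : MonoidAlgebra ℤ A :=
  ∑ i ∈ Finset.range d, sg Δ i b

theorem Dt_mem {r : ℕ} (H : Matrix (Fin r) (Fin r) (ℤ →₀ MonoidAlgebra ℤ A)) : Dt H ∈ J Δ k :=
  AddSubgroup.subset_closure ⟨r, H, rfl⟩

theorem V_mem {d : ℕ} (a : A) {e : ℤ} (hd : d ∣ Δ.m) (he : (d : ℤ) ∣ e) : V d a e ∈ B Δ k :=
  AddSubgroup.subset_closure ⟨d, a, e, hd, he, rfl⟩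

theorem Vl_mem {d : ℕ} (b : MonoidAlgebra ℤ A) {e : ℤ} (hd : d ∣ Δ.m) (he : (d : ℤ) ∣ e) :
    Vl d b e ∈ B Δ k :=
  AddSubgroup.sum_mem _ fun a _ => AddSubgroup.zsmul_mem _ (V_mem a hd he) _

theorem Bgt_le_B (d : ℕ) : Bgt Δ k d ≤ B Δ k :=
  AddSubgroup.closure_mono fun _ ⟨d', a, e, h1, _, _, h2, h3⟩ => ⟨d', a, e, h1, h2, h3⟩

theorem mem_pB {p : ℕ} {f : Pt Δ k → k} : f ∈ pB Δ k p ↔ ∃ g ∈ B Δ k, p • g = f := Iff.rfl

theorem Vl_single (d : ℕ) (a : A) (z e : ℤ) :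
    (Vl d (MonoidAlgebra.single a z) e : Pt Δ k → k) = z • V d a e := by
  rw [Vl, MonoidAlgebra.coeff_single]
  exact Finsupp.sum_single_index (zero_smul _ _)

theorem Vl_of (d : ℕ) (a : A) (e : ℤ) :
    (Vl d (MonoidAlgebra.of ℤ A a) e : Pt Δ k → k) = V d a e := by
  rw [MonoidAlgebra.of_apply, Vl_single, one_smul]

theorem Vl_zero (d : ℕ) (e : ℤ) : (Vl d 0 e : Pt Δ k → k) = 0 := by simp [Vl]

theorem Vl_add (d : ℕ) (b b' : MonoidAlgebra ℤ A) (e : ℤ) :
    (Vl d (b + b') e : Pt Δ k → k) = Vl d b e + Vl d b' e := by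
  rw [Vl, MonoidAlgebra.coeff_add]
  exact Finsupp.sum_add_index' (fun _ => zero_smul _ _) fun _ _ _ => add_smul _ _ _

theorem Vl_neg (d : ℕ) (b : MonoidAlgebra ℤ A) (e : ℤ) :
    (Vl d (-b) e : Pt Δ k → k) = -Vl d b e := by
  rw [eq_neg_iff_add_eq_zero, ← Vl_add, neg_add_cancel, Vl_zero]

/-- the point with the conjugate character -/
def Pt.tw (P : Pt Δ k) : Pt Δ k where
  d := P.d
  d_dvd := P.d_dvd
  η := P.η.comp Δ.σ.toMonoidHom
  inv a := by
    change P.η (Δ.σ ((Δ.σ ^ P.d) a)) = P.η (Δ.σ a)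
    rw [← MulAut.mul_apply, ← pow_succ', pow_succ, MulAut.mul_apply, P.inv]
  ω := P.ω
  ω_pow := by
    change _ = P.η (Δ.σ Δ.c)
    rw [Δ.σ_c, P.ω_pow]

/-- the point of level `d` given by composing with the transfer -/
def Pt.down (P : Pt Δ k) (d : ℕ) (h : d ∣ P.d) : Pt Δ k where
  d := d
  d_dvd := h.trans P.d_dvd
  η := ∏ t ∈ Finset.range (P.d / d), P.η.comp (Δ.σ ^ (t * d)).toMonoidHom
  inv a := by
    simp only [MonoidHom.finsetProd_apply, MonoidHom.comp_apply, MulEquiv.coe_toMonoidHom]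
    have h1 := Finset.prod_range_succ (fun t => P.η ((Δ.σ ^ (t * d)) a)) (P.d / d)
    have h2 := Finset.prod_range_succ' (fun t => P.η ((Δ.σ ^ (t * d)) a)) (P.d / d)
    rw [Nat.div_mul_cancel h, P.inv] at h1
    rw [h1, zero_mul, pow_zero, MulAut.one_apply] at h2
    rw [mul_right_cancel h2]
    refine Finset.prod_congr rfl fun t _ => ?_
    rw [Nat.succ_mul, pow_add, MulAut.mul_apply]
  ω := P.ω ^ (P.d / d)
  ω_pow := by
    simp only [MonoidHom.finsetProd_apply, MonoidHom.comp_apply, MulEquiv.coe_toMonoidHom,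
      Δ.pow_c, Finset.prod_const, Finset.card_range]
    rw [← pow_mul, mul_comm, pow_mul, P.ω_pow]

theorem Pt.down_η (P : Pt Δ k) (d : ℕ) (h : d ∣ P.d) (a : A) :
    (P.down d h).η a = P.η (ver Δ d (P.d / d) a) := by
  simp [Pt.down, ver, MonoidHom.finsetProd_apply]

/-- change of coefficients -/
def Pt.map {k' : Type} [CommRing k'] (f : k →+* k') (P : Pt Δ k) : Pt Δ k' where
  d := P.d
  d_dvd := P.d_dvd
  η := (Units.map (f : k →* k')).comp P.η
  inv a := by simp [P.inv]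
  ω := Units.map (f : k →* k') P.ω
  ω_pow := by rw [← map_pow, P.ω_pow]; rfl

/-- a presentation of the group `G` by the data -/
structure Pres (Δ : Dat A) (G : Type) [Group G] where
  ι : A →* G
  X : G
  inj : Function.Injective ι
  conj : ∀ a, X * ι a * X⁻¹ = ι (Δ.σ a)
  pow : X ^ Δ.m = ι Δ.c
  gen : ∀ g, ∃ a, ∃ e : ℤ, g = ι a * X ^ e
  free : ∀ (e : ℤ) (a : A), X ^ e = ι a → (Δ.m : ℤ) ∣ e

variable {G : Type} [Group G]

/-- the `A`-part of a group element -/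
noncomputable def Pres.pa (π : Pres Δ G) (g : G) : A := (π.gen g).choose

/-- the exponent of `X` in a group element -/
noncomputable def Pres.pe (π : Pres Δ G) (g : G) : ℤ := (π.gen g).choose_spec.choose

theorem Pres.eq_pa (π : Pres Δ G) (g : G) : g = π.ι (π.pa g) * π.X ^ π.pe g :=
  (π.gen g).choose_spec.choose_spec

/-- the induced representation -/
noncomputable def rep (π : Pres Δ G) (P : Pt Δ k) (g : G) : Matrix (ZMod P.d) (ZMod P.d) k :=
  rho P (Finsupp.single (π.pe g) (MonoidAlgebra.of ℤ A (π.pa g)))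

/-- the character that is induced, as a function on the whole group -/
noncomputable def psi (π : Pres Δ G) (P : Pt Δ k) (g : G) : kˣ := P.η (π.pa g) * P.ω ^ π.pe g

/-- the element `∑ b_e X ^ e` of the group ring of `G` -/
noncomputable def toG (π : Pres Δ G) (y : ℤ →₀ MonoidAlgebra ℤ A) : MonoidAlgebra ℤ G :=
  y.sum fun e b => MonoidAlgebra.mapDomainRingHom ℤ π.ι b * MonoidAlgebra.of ℤ G (π.X ^ e)

/-- the subgroup generated by `A` and `X ^ d` -/
def Pres.U (π : Pres Δ G) (d : ℕ) : Subgroup G := π.ι.range ⊔ Subgroup.zpowers (π.X ^ d)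

end Pool.Agent.MP_f3cd89_nt

end

section

/-! Statements of the algebraic steps. Each is proved in its own file from the statements it
depends on. -/

set_option autoImplicit false

open Finset

namespace Pool.Agent.MP_f3cd89_nt

/-- an algebraic closure of the prime field -/
abbrev Kb (p : ℕ) [Fact p.Prime] : Type := AlgebraicClosure (ZMod p)

/-- characteristic polynomial of a weighted cyclic shift -/
def DET_st : Prop := ∀ (k : Type) [CommRing k] (d : ℕ) [NeZero d] (e : ℤ) (x : ℕ → k) (y : k),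
  (∀ i, x (i + d) = x i) →
  (y • (1 : Matrix (ZMod d) (ZMod d) k) -
      Matrix.of fun i j : ZMod d => if j = i + (e : ZMod d) then x i.val else 0).det =
    ∏ i ∈ range (Int.gcd d e),
      (y ^ (d / Int.gcd d e) - ∏ t ∈ range (d / Int.gcd d e), x (i + t * Int.gcd d e))

/-- a sum over a finite set is a sum of orbit sums -/
def ORB_st : Prop := ∀ (M : Type) [AddCommGroup M] (N : AddSubgroup M) (Y : Type) [Fintype Y]
  (τ : Equiv.Perm Y) (g : Y → M),
  (∀ y, ∑ u ∈ range (Function.minimalPeriod τ y), g ((τ ^ u) y) ∈ N) → ∑ y, g y ∈ N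

/-- elementary identities for `W`, and functoriality in the coefficients -/
def BASE_st : Prop := ∀ (A : Type) [CommGroup A] (Δ : Dat A) (k : Type) [CommRing k],
  (∀ (d : ℕ) (b : MonoidAlgebra ℤ A) (e n : ℤ) (P : Pt Δ k),
    W d b (e + n * d) P = W d b e P * ((P.ω ^ (n * P.d) : kˣ) : k)) ∧
  (∀ (d i : ℕ) (b : MonoidAlgebra ℤ A) (e : ℤ) (P : Pt Δ k), W d (sg Δ i b) e P = W d b e P) ∧
  (∀ (d : ℕ) (a a' : A) (e : ℤ) (P : Pt Δ k),
    V d (a * (Δ.σ ^ d) a' * a'⁻¹) e P = V d a e P) ∧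
  (∀ (d j : ℕ) (b : MonoidAlgebra ℤ A) (e : ℤ) (P : Pt Δ k),
    W (d * j) (∏ t ∈ range j, sg Δ (t * d) b) (e * j) P =
      if d * j ∣ P.d then (j : k) * W d b e P else 0) ∧
  (∀ (d j : ℕ) (a : A) (e : ℤ) (P : Pt Δ k),
    V (d * j) (ver Δ d j a) (e * j) P = if d * j ∣ P.d then (j : k) * V d a e P else 0) ∧
  (∀ (d : ℕ) (b : MonoidAlgebra ℤ A) (e : ℤ) (P : Pt Δ k),
    W d (-b) e P = -W d b e P + W (d * 2) (b * sg Δ d b) (e * 2) P) ∧
  (∀ (d : ℕ) (a : A) (e : ℤ) (P : Pt Δ k) (d' : ℕ) (h : d' ∣ P.d), d ∣ d' →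
    V d a e (P.down d' h) = V d a e P) ∧
  (∀ (d : ℕ) (b : MonoidAlgebra ℤ A) (e : ℤ) (P : Pt Δ k), W d b e P.tw = W d b e P) ∧
  (∀ (k' : Type) [CommRing k'] (f : k →+* k') (P : Pt Δ k),
    (∀ (d : ℕ) (b : MonoidAlgebra ℤ A) (e : ℤ), W d b e (P.map f) = f (W d b e P)) ∧
    ∀ (r : ℕ) (H : Matrix (Fin r) (Fin r) (ℤ →₀ MonoidAlgebra ℤ A)), Dt H (P.map f) = f (Dt H P))

/-- `J` is a ring that contains the shifts and the signs -/
def RING_st : Prop := ∀ (A : Type) [CommGroup A] (Δ : Dat A) (k : Type) [CommRing k],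
  1 ∈ J Δ k ∧ (∀ f ∈ J Δ k, ∀ g ∈ J Δ k, f * g ∈ J Δ k) ∧
  (∀ y : ℤ →₀ MonoidAlgebra ℤ A, (fun P : Pt Δ k => (rho P y).det) ∈ J Δ k) ∧
  (∀ n : ℤ, (fun P : Pt Δ k => (n : k) ^ P.d) ∈ J Δ k) ∧
  (∀ n : ℤ, (fun P : Pt Δ k => ((P.ω ^ (n * P.d) : kˣ) : k)) ∈ J Δ k) ∧
  (∀ e : ℤ, (fun P : Pt Δ k => (-1 : k) ^ Int.gcd P.d e) ∈ J Δ k)

/-- `B` is a ring -/
def BRING_st : Prop := ∀ (A : Type) [CommGroup A] (Δ : Dat A) (k : Type) [CommRing k],
  1 ∈ B Δ k ∧ (∀ f ∈ B Δ k, ∀ g ∈ B Δ k, f * g ∈ B Δ k) ∧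
  (∀ (d : ℕ) (b b' : MonoidAlgebra ℤ A),
    (Vl d b 0 * Vl d b' 0 : Pt Δ k → k) = Vl d (b * trc Δ d b') 0) ∧
  (∀ g : ℕ → ℤ, (fun P : Pt Δ k => (Δ.m : k) * (g P.d : k)) ∈ B Δ k)

/-- `W` is linear up to higher levels -/
def WV_st : Prop := ∀ (A : Type) [CommGroup A] (Δ : Dat A) (k : Type) [CommRing k]
  (d : ℕ) (b : MonoidAlgebra ℤ A) (e : ℤ), d ∣ Δ.m → (d : ℤ) ∣ e →
  W d b e - Vl d b e ∈ Bgt Δ k d

/-- reduced norms satisfy the congruences -/
def JB_st : Prop := ∀ (A : Type) [CommGroup A] (Δ : Dat A) (k : Type) [CommRing k],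
  J Δ k ≤ B Δ k

/-- multiplicative transfers of multiples of `p` -/
def GAUSS_st : Prop := ∀ (A : Type) [CommGroup A] (Δ : Dat A) (k : Type) [CommRing k]
  (p : ℕ), p.Prime →
  (∀ (d : ℕ) (b : MonoidAlgebra ℤ A) (e : ℤ), d ∣ Δ.m → (d : ℤ) ∣ e →
    W d (p ^ 2 • b) e ∈ pB Δ k p) ∧
  ∀ (d : ℕ) (a : A) (e : ℤ), d * p ∣ Δ.m → (d : ℤ) ∣ e →
    W d (p • MonoidAlgebra.of ℤ A a) e + V (d * p) (ver Δ d p a) (e * p) ∈
      pB Δ k p ⊔ Bgt Δ k (d * p)

/-- the triangularity step -/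
def TRI_st : Prop := ∀ (A : Type) [CommGroup A] (Δ : Dat A) (k : Type) [CommRing k]
  (N : AddSubgroup (Pt Δ k → k)) (I : Ideal (MonoidAlgebra ℤ A)),
  J Δ k ≤ N → (∀ f ∈ J Δ k, ∀ g ∈ N, f * g ∈ N) → (∀ i, ∀ b ∈ I, sg Δ i b ∈ I) →
  (∀ (d : ℕ) (e : ℤ) (b : MonoidAlgebra ℤ A), d ∣ Δ.m → (d : ℤ) ∣ e → b ∈ I * I → W d b e ∈ N) →
  ∀ (d : ℕ) (e : ℤ) (b : MonoidAlgebra ℤ A), d ∣ Δ.m → (d : ℤ) ∣ e → b ∈ I → W d b e ∈ N

/-- restriction of scalars from a finite field -/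
def RES_st : Prop := ∀ (A : Type) [CommGroup A] (Δ : Dat A) (p : ℕ) [Fact p.Prime] (f : ℕ)
  (y : ℤ →₀ MonoidAlgebra (Kb p) A), 0 < f → (∀ e a, (y e).coeff a ^ p ^ f = (y e).coeff a) →
  ∃ Θ ∈ J Δ (Kb p), ∀ P : Pt Δ (Kb p),
    Θ P = ∏ j ∈ range f, (rhoG (iterateFrobenius (Kb p) p j) P y).det

/-- the test element -/
noncomputable def testEl {A : Type} [CommGroup A] [Fintype A] {k : Type} [CommRing k] (s M : ℕ)
    (η : A →* kˣ) (l : kˣ) (c : k) : ℤ →₀ MonoidAlgebra k A :=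
  Finsupp.single 0 1 + ∑ n ∈ range M, Finsupp.single ((s * n : ℕ) : ℤ)
    (MonoidAlgebra.single 1 ((1 - c) * ((l⁻¹ ^ n : kˣ) : k)) *
      ∏ a : A, (1 - (MonoidAlgebra.single a 1 - MonoidAlgebra.single 1 (η a : k)) ^ M))

open Classical in
/-- the determinant of the test element -/
def TEST_st : Prop := ∀ (A : Type) [CommGroup A] [Fintype A] (Δ : Dat A) (p : ℕ) [Fact p.Prime]
  (f s M : ℕ) (γ : Kb p →+* Kb p) (η : A →* (Kb p)ˣ) (l : (Kb p)ˣ) (c : Kb p) (P : Pt Δ (Kb p)),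
  0 < f → M + 1 = p ^ f → (∀ a, η a ^ M = 1) → l ^ M = 1 → (∀ a, P.η a ^ M = 1) → P.ω ^ M = 1 →
  (∀ i, (∀ a, η ((Δ.σ ^ i) a) = η a) ↔ s ∣ i) →
  ((∃ i, ∀ a, P.ch i a = γ (η a)) → P.d / s ∣ M) →
  (rhoG γ P (testEl s M η l c)).det =
    if (∃ i, ∀ a, P.ch i a = γ (η a)) ∧ γ l ^ (P.d / s) = (P.ω : Kb p) ^ P.d then γ c else 1

/-- decoding a product of Frobenius powers -/
def DEC_st : Prop := ∀ (p : ℕ) [Fact p.Prime] (f : ℕ) (Γ Γ' : Finset ℕ), Γ ⊆ range f →
  Γ' ⊆ range f → (∀ c : Kb p, c ^ p ^ f = c → ∏ j ∈ Γ, c ^ p ^ j = ∏ j ∈ Γ', c ^ p ^ j) →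
  0 ∈ Γ → 0 ∈ Γ'

/-- reduced norms separate the points that `B` separates -/
def SEP_st : Prop := ∀ (A : Type) [CommGroup A] [Finite A] (Δ : Dat A) (p : ℕ) [Fact p.Prime]
  (P P' : Pt Δ (Kb p)), (∀ f ∈ J Δ (Kb p), f P = f P') → ∀ g ∈ B Δ (Kb p), g P = g P'

/-- interpolation with Frobenius descent -/
def SW_st : Prop := ∀ (p : ℕ) [Fact p.Prime] (Y : Type) [Finite Y] (k : Type) [Field k] [CharP k p]
  (R : Subring (Y → k)) (n : ℕ), 0 < n → (∀ g ∈ R, ∀ y, g y ^ p ^ n = g y) →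
  ∀ f : Y → k, (∀ y y' j, (∀ g ∈ R, g y' = g y ^ p ^ j) → f y' = f y ^ p ^ j) → f ∈ R

/-- the inclusion in characteristic `p` -/
def C1A_st : Prop := ∀ (A : Type) [CommGroup A] [Finite A] (Δ : Dat A) (p : ℕ) [Fact p.Prime],
  B Δ (Kb p) ≤ J Δ (Kb p)

/-- `J` surjects on `B / p B` modulo nilpotents -/
def C1_st : Prop := ∀ (A : Type) [CommGroup A] [Finite A] (Δ : Dat A) (p : ℕ), p.Prime →
  ∀ β ∈ B Δ ℂ, ∃ Θ ∈ J Δ ℂ, ∃ K : ℕ, (β - Θ) ^ K ∈ pB Δ ℂ p

/-- the kernel of the trace on a group ring of order prime to `p` -/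
def KER_st : Prop := ∀ (A : Type) [CommGroup A] [Finite A] (Δ : Dat A) (p n : ℕ), p.Prime → 0 < n →
  (∀ a : A, a ^ p ^ n = a) → ∀ (M : Type) [AddCommGroup M] (v : A → M), (∀ x : M, p • x = 0) →
  (∀ a, v (Δ.σ a) = v a) → (p ∣ Δ.m → ∀ a, v (ver Δ (Δ.m / p) p a) = 0) →
  ∀ b : MonoidAlgebra ℤ A,
    ((b * trc Δ Δ.m b ^ (p ^ n - 1)).coeff.sum fun a z => z • v a) = b.coeff.sum fun a z => z • v a

/-- the inclusion modulo `p` -/
def BJP_st : Prop := ∀ (A : Type) [CommGroup A] [Finite A] (Δ : Dat A) (p : ℕ), p.Prime →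
  B Δ ℂ ≤ J Δ ℂ ⊔ pB Δ ℂ p

/-- the main algebraic theorem -/
def BJ_st : Prop := ∀ (A : Type) [CommGroup A] [Finite A] (Δ : Dat A), B Δ ℂ ≤ J Δ ℂ

/-- the congruence between the values at levels `d` and `d / p` -/
def CongrAt {A : Type} [CommGroup A] {Δ : Dat A} (p : ℕ) (θ : Pt Δ ℂ → ℂ) (d : ℕ) : Prop :=
  ∃ u : ℕ, u.Coprime p ∧ ∃ Z : (A × ℤ) →₀ ℤ, (∀ x ∈ Z.support, (d : ℤ) ∣ x.2) ∧
    ∀ P : Pt Δ ℂ, P.d = d →
      (u : ℂ) * (θ P - if h : p ∣ P.d then θ (P.down (P.d / p) (Nat.div_dvd_of_dvd h)) else 0) =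
        Z.sum fun x z => (z : ℂ) * ∑ t ∈ range (ordProj[p] d),
          P.ch (ordCompl[p] d * t) x.1 * ((P.ω ^ x.2 : ℂˣ) : ℂ)

/-- the congruences characterise `B` locally at `p` -/
def DWORK_st : Prop := ∀ (A : Type) [CommGroup A] (Δ : Dat A) (p : ℕ) (θ : Pt Δ ℂ → ℂ),
  p.Prime → (∀ P, θ P.tw = θ P) → (∀ d, d ∣ Δ.m → CongrAt p θ d) →
  ∃ u : ℕ, u.Coprime p ∧ u • θ ∈ B Δ ℂ

/-- dividing by the reduced norm of an integer prime to `p` -/
def INVD_st : Prop := ∀ (A : Type) [CommGroup A] (Δ : Dat A) (p : ℕ) (θ : Pt Δ ℂ → ℂ) (n : ℤ)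
  (u : ℕ), p.Prime → ¬(p : ℤ) ∣ n → u.Coprime p →
  u • (fun P : Pt Δ ℂ => (n : ℂ) ^ P.d * θ P) ∈ B Δ ℂ → ∃ u' : ℕ, u'.Coprime p ∧ u' • θ ∈ B Δ ℂ

/-- the induced representation and the inducing character -/
def REP_st : Prop := ∀ (A : Type) [CommGroup A] (Δ : Dat A) (G : Type) [Group G] (π : Pres Δ G),
  (∀ (i : ℕ) (a : A), π.X ^ i * π.ι a * (π.X ^ i)⁻¹ = π.ι ((Δ.σ ^ i) a)) ∧
  (∀ (d : ℕ) (g : G), g ∈ π.U d ↔ ∃ (a : A) (e : ℤ), (d : ℤ) ∣ e ∧ g = π.ι a * π.X ^ e) ∧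
  (∀ d : ℕ, (π.U d).Normal) ∧
  (∀ d : ℕ, d ∣ Δ.m → ∀ (a : A) (e : ℤ), π.ι a * π.X ^ e ∈ π.U d ↔ (d : ℤ) ∣ e) ∧
  ∀ (k : Type) [CommRing k] (P : Pt Δ k),
    (∀ (a : A) (e : ℤ),
      rep π P (π.ι a * π.X ^ e) = rho P (Finsupp.single e (MonoidAlgebra.of ℤ A a))) ∧
    rep π P 1 = 1 ∧ (∀ g h, rep π P (g * h) = rep π P g * rep π P h) ∧
    (∀ g, rep π P.tw g = rep π P (π.X * g * π.X⁻¹)) ∧
    (∀ y, rho P y = (toG π y).coeff.sum fun g z => z • rep π P g) ∧
    (∀ (a : A) (e : ℤ), psi π P (π.ι a * π.X ^ e) = P.η a * P.ω ^ e) ∧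
    (∀ g ∈ π.U P.d, ∀ h ∈ π.U P.d, psi π P (g * h) = psi π P g * psi π P h)

/-- Euler factors of the induced representation, and the transfer -/
def REPE_st : Prop := ∀ (A : Type) [CommGroup A] (Δ : Dat A) (G : Type) [Group G] (π : Pres Δ G)
  (k : Type) [CommRing k] (P : Pt Δ k),
    (∀ (g : G) (x : k), (1 - x • rep π P g⁻¹).det =
      ∏ i ∈ range (Int.gcd P.d (π.pe g)), (1 - x ^ (P.d / Int.gcd P.d (π.pe g)) *
        (((psi π P (π.X ^ i * g ^ (P.d / Int.gcd P.d (π.pe g)) * (π.X ^ i)⁻¹))⁻¹ : kˣ) : k))) ∧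
    (∀ (d : ℕ) (h : d ∣ P.d) (a : A) (e : ℤ), (d : ℤ) ∣ e →
      psi π (P.down d h) (π.ι a * π.X ^ e) =
        ∏ i ∈ range (Int.gcd (P.d / d : ℕ) (e / d)), psi π P ((π.X ^ d) ^ i *
          (π.ι a * π.X ^ e) ^ (P.d / d / Int.gcd (P.d / d : ℕ) (e / d)) * ((π.X ^ d) ^ i)⁻¹))

/-- existence of a presentation -/
def PRES_st : Prop := ∀ (G : Type) [Group G] [Finite G] (A : Subgroup G) [A.Normal] (j : G),
  (∀ a ∈ A, ∀ b ∈ A, a * b = b * a) → IsCyclic (G ⧸ A) → (∀ g, j * g = g * j) →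
  ∃ (A' : Type) (_ : CommGroup A') (_ : Finite A') (Δ : Dat A') (π : Pres Δ G), j ∈ π.ι.range

/-- every irreducible representation is induced -/
def CLIFF_st : Prop := ∀ (A : Type) [CommGroup A] [Finite A] (Δ : Dat A) (G : Type) [Group G]
  (π : Pres Δ G) (r : Irr G), ∃ (P : Pt Δ ℂ) (Q : Matrix (Fin r.n) (ZMod P.d) ℂ)
    (Q' : Matrix (ZMod P.d) (Fin r.n) ℂ), Q * Q' = 1 ∧ Q' * Q = 1 ∧ ∀ g, r.ρ g = Q * rep π P g * Q'

end Pool.Agent.MP_f3cd89_nt

end

section

/-! Elementary identities for `W` and sums over orbits. -/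

set_option autoImplicit false

open Finset

namespace Pool.Agent.MP_f3cd89_nt

namespace BaseX

theorem prod_shift {M : Type} [CommMonoid M] (g : ℕ → M) (n : ℕ) (h : g n = g 0) :
    ∏ t ∈ range n, g (t + 1) = ∏ t ∈ range n, g t := by
  cases n with
  | zero => rfl
  | succ n => rw [prod_range_succ, prod_range_succ' g, h]

theorem sum_shift {M : Type} [AddCommMonoid M] (g : ℕ → M) (n : ℕ) (h : g n = g 0) :
    ∑ t ∈ range n, g (t + 1) = ∑ t ∈ range n, g t := by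
  cases n with
  | zero => rfl
  | succ n => rw [sum_range_succ, sum_range_succ' g, h]

theorem sum_mul_range {M : Type} [AddCommMonoid M] (g : ℕ → M) (a j : ℕ) :
    ∑ t ∈ range (a * j), g t = ∑ s ∈ range a, ∑ t ∈ range j, g (s * j + t) := by
  induction a with
  | zero => simp
  | succ a ih => rw [Nat.succ_mul, sum_range_add, ih, sum_range_succ]

theorem prod_mul {M : Type} [CommMonoid M] (g : ℕ → M) (a j : ℕ) :
    ∏ t ∈ range (a * j), g t = ∏ s ∈ range a, ∏ t ∈ range j, g (s * j + t) := by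
  induction a with
  | zero => simp
  | succ a ih => rw [Nat.succ_mul, prod_range_add, ih, prod_range_succ]

theorem sum_shift' {M : Type} [AddCommMonoid M] (F : ℕ → M) (d : ℕ) (h : ∀ i, F (i + d) = F i)
    (s : ℕ) : ∑ i ∈ range d, F (i + s) = ∑ i ∈ range d, F i := by
  induction s with
  | zero => rfl
  | succ s ih =>
    rw [← ih, ← sum_shift (fun i => F (i + s)) d (by rw [add_comm, h, zero_add])]
    exact sum_congr rfl fun i _ => by rw [add_assoc, add_comm 1 s]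

variable {A : Type} [CommGroup A] {Δ : Dat A} {k : Type} [CommRing k]

/-- one term of `W` -/
noncomputable def F (d : ℕ) (b : MonoidAlgebra ℤ A) (e : ℤ) (P : Pt Δ k) (i : ℕ) : k :=
  ∏ t ∈ range (P.d / d), (lam P (i + t * d) b * ((P.ω ^ e : kˣ) : k))

theorem W_pos {d : ℕ} (b : MonoidAlgebra ℤ A) (e : ℤ) {P : Pt Δ k} (h : d ∣ P.d) :
    W d b e P = ∑ i ∈ range d, F d b e P i := if_pos h

theorem W_neg {d : ℕ} (b : MonoidAlgebra ℤ A) (e : ℤ) {P : Pt Δ k} (h : ¬d ∣ P.d) :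
    W d b e P = 0 := if_neg h

theorem F_per {d : ℕ} (b : MonoidAlgebra ℤ A) (e : ℤ) {P : Pt Δ k} (h : d ∣ P.d) (i : ℕ) :
    F d b e P (i + d) = F d b e P i := by
  unfold F
  rw [← prod_shift (fun t => lam P (i + t * d) b * ((P.ω ^ e : kˣ) : k)) (P.d / d) (by
    rw [Nat.div_mul_cancel h, zero_mul, add_zero, ← lam_add_mul P i 1, one_mul])]
  exact prod_congr rfl fun t _ => by rw [show i + d + t * d = i + (t + 1) * d by ring]

theorem item1 (d : ℕ) (b : MonoidAlgebra ℤ A) (e n : ℤ) (P : Pt Δ k) :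
    W d b (e + n * d) P = W d b e P * ((P.ω ^ (n * P.d) : kˣ) : k) := by
  by_cases h : d ∣ P.d
  · rw [W_pos _ _ h, W_pos _ _ h, sum_mul]
    refine sum_congr rfl fun i _ => ?_
    have e1 : ((P.ω ^ (n * P.d) : kˣ) : k) =
        ∏ _t ∈ range (P.d / d), ((P.ω ^ (n * d) : kˣ) : k) := by
      rw [prod_const, card_range, ← Units.val_pow_eq_pow_val, ← zpow_natCast, ← zpow_mul,
        mul_assoc, ← Nat.cast_mul, Nat.mul_div_cancel' h]
    rw [F, F, e1, ← prod_mul_distrib]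
    exact prod_congr rfl fun t _ => by rw [zpow_add, Units.val_mul, mul_assoc]
  · rw [W_neg _ _ h, W_neg _ _ h, zero_mul]

theorem item2 (d i : ℕ) (b : MonoidAlgebra ℤ A) (e : ℤ) (P : Pt Δ k) :
    W d (sg Δ i b) e P = W d b e P := by
  by_cases h : d ∣ P.d
  · rw [W_pos _ _ h, W_pos _ _ h, ← sum_shift' _ d (F_per b e h) i]
    refine sum_congr rfl fun s _ => prod_congr rfl fun t _ => ?_
    rw [lam_sg, add_right_comm]
  · rw [W_neg _ _ h, W_neg _ _ h]

theorem item3 (d : ℕ) (a a' : A) (e : ℤ) (P : Pt Δ k) :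
    V d (a * (Δ.σ ^ d) a' * a'⁻¹) e P = V d a e P := by
  unfold V
  by_cases h : d ∣ P.d
  · rw [W_pos _ _ h, W_pos _ _ h]
    refine sum_congr rfl fun i _ => ?_
    have h1 := prod_shift (fun t => P.η ((Δ.σ ^ (i + t * d)) a')) (P.d / d) (by
      rw [Nat.div_mul_cancel h, zero_mul, add_zero, add_comm, pow_add, MulAut.mul_apply, P.inv])
    simp only [F, lam_of, ← Units.val_mul, ← Units.coe_prod]
    congr 1
    have h2 : ∀ t, P.η ((Δ.σ ^ (i + t * d)) (a * (Δ.σ ^ d) a' * a'⁻¹)) * P.ω ^ e =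
        P.η ((Δ.σ ^ (i + t * d)) a) * P.ω ^ e * (P.η ((Δ.σ ^ (i + (t + 1) * d)) a') *
          (P.η ((Δ.σ ^ (i + t * d)) a'))⁻¹) := fun t => by
      rw [map_mul, map_mul, map_mul, map_mul, map_inv, map_inv, ← MulAut.mul_apply, ← pow_add,
        show i + t * d + d = i + (t + 1) * d by ring]
      simp only [mul_assoc, mul_comm, mul_left_comm]
    simp only [h2]
    rw [prod_mul_distrib, prod_mul_distrib (f := fun t => P.η ((Δ.σ ^ (i + (t + 1) * d)) a')),
      prod_inv_distrib, h1, mul_inv_cancel, mul_one]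
  · rw [W_neg _ _ h, W_neg _ _ h]

theorem item4 (d j : ℕ) (b : MonoidAlgebra ℤ A) (e : ℤ) (P : Pt Δ k) :
    W (d * j) (∏ t ∈ range j, sg Δ (t * d) b) (e * j) P =
      if d * j ∣ P.d then (j : k) * W d b e P else 0 := by
  split_ifs with h
  · have hd : d ∣ P.d := (Dvd.intro j rfl).trans h
    have hR : P.d / d = P.d / (d * j) * j := by
      rw [← Nat.div_div_eq_div_mul, Nat.div_mul_cancel]
      exact Nat.dvd_div_of_mul_dvd h
    have h1 : ∀ i, F (d * j) (∏ t ∈ range j, sg Δ (t * d) b) (e * j) P i = F d b e P i := by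
      intro i
      rw [F, F, hR, prod_mul]
      refine prod_congr rfl fun s _ => ?_
      rw [prod_mul_distrib, prod_const, card_range, map_prod, zpow_mul, zpow_natCast,
        Units.val_pow_eq_pow_val]
      congr 1
      refine prod_congr rfl fun t _ => ?_
      rw [lam_sg, show i + s * (d * j) + t * d = i + (s * j + t) * d by ring]
    rw [W_pos _ _ h, W_pos _ _ hd]
    simp only [h1]
    rw [mul_comm d j, sum_mul_range]
    have h2 : ∀ s, ∑ t ∈ range d, F d b e P (s * d + t) = ∑ t ∈ range d, F d b e P t := fun s => by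
      rw [← sum_shift' _ d (F_per b e hd) (s * d)]
      exact sum_congr rfl fun t _ => by rw [add_comm]
    simp only [h2]
    rw [sum_const, card_range, nsmul_eq_mul]
  · exact W_neg _ _ h

theorem sg_of (i : ℕ) (a : A) :
    sg Δ i (MonoidAlgebra.of ℤ A a) = MonoidAlgebra.of ℤ A ((Δ.σ ^ i) a) := sg_single i a 1

theorem item5 (d j : ℕ) (a : A) (e : ℤ) (P : Pt Δ k) :
    V (d * j) (ver Δ d j a) (e * j) P = if d * j ∣ P.d then (j : k) * V d a e P else 0 := by
  unfold V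
  rw [← item4, ver, map_prod]
  simp only [sg_of]

theorem sg_zero (b : MonoidAlgebra ℤ A) : sg Δ 0 b = b := by
  have : sg Δ 0 = RingHom.id _ := by
    refine MonoidAlgebra.ringHom_ext (fun x => ?_) fun a => ?_ <;> simp [sg_single]
  exact DFunLike.congr_fun this b

theorem item6 (d : ℕ) (b : MonoidAlgebra ℤ A) (e : ℤ) (P : Pt Δ k) :
    W d (-b) e P = -W d b e P + W (d * 2) (b * sg Δ d b) (e * 2) P := by
  have h0 := item4 d 2 b e P
  rw [prod_range_succ, prod_range_one, zero_mul, one_mul, sg_zero, Nat.cast_ofNat,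
    Nat.cast_ofNat] at h0
  rw [h0]
  by_cases h : d ∣ P.d
  · have h1 : W d (-b) e P = (-1) ^ (P.d / d) * W d b e P := by
      rw [W_pos _ _ h, W_pos _ _ h, mul_sum]
      refine sum_congr rfl fun i _ => ?_
      simp only [F, map_neg, neg_mul]
      rw [prod_neg, card_range]
    rw [h1]
    split_ifs with h2
    · rw [(even_iff_two_dvd.2 (Nat.dvd_div_of_mul_dvd h2)).neg_one_pow]
      ring
    · rw [(Nat.not_even_iff_odd.1 fun h3 =>
        h2 (Nat.mul_dvd_of_dvd_div h (even_iff_two_dvd.1 h3))).neg_one_pow]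
      ring
  · rw [W_neg _ _ h, W_neg _ _ h, if_neg fun h2 => h ((Dvd.intro 2 rfl).trans h2)]
    ring

theorem item7 (d : ℕ) (a : A) (e : ℤ) (P : Pt Δ k) (d' : ℕ) (h : d' ∣ P.d) (hd : d ∣ d') :
    V d a e (P.down d' h) = V d a e P := by
  unfold V
  rw [W_pos (P := P.down d' h) _ _ hd, W_pos _ _ (hd.trans h)]
  refine sum_congr rfl fun i _ => ?_
  have hR : P.d / d = P.d / d' * (d' / d) := (Nat.div_mul_div h hd).symm
  rw [F, F, hR, prod_mul, prod_comm]
  refine prod_congr rfl fun t _ => ?_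
  have h1 : (P.down d' h).ω = P.ω ^ (P.d / d') := rfl
  rw [lam_of, Pt.down_η, ver, map_prod, h1, ← zpow_natCast P.ω, ← zpow_mul, mul_comm _ e, zpow_mul,
    zpow_natCast, prod_mul_distrib, prod_const, card_range, Units.val_pow_eq_pow_val,
    Units.coe_prod]
  congr 1
  refine prod_congr rfl fun s _ => ?_
  rw [lam_of, ← MulAut.mul_apply, ← pow_add, add_mul, mul_assoc, Nat.div_mul_cancel hd,
    add_left_comm]

theorem lam_tw (P : Pt Δ k) (i : ℕ) : lam P.tw i = lam P (i + 1) := by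
  refine MonoidAlgebra.ringHom_ext (fun x => ?_) fun a => ?_
  · simp [lam_single]
  · rw [lam_single, lam_single, pow_succ', MulAut.mul_apply]
    rfl

theorem item8 (d : ℕ) (b : MonoidAlgebra ℤ A) (e : ℤ) (P : Pt Δ k) :
    W d b e P.tw = W d b e P := by
  by_cases h : d ∣ P.d
  · rw [W_pos (P := P.tw) _ _ h, W_pos _ _ h, ← sum_shift' _ d (F_per b e h) 1]
    refine sum_congr rfl fun s _ => prod_congr rfl fun t _ => ?_
    rw [lam_tw, add_right_comm]
    rfl
  · rw [W_neg (P := P.tw) _ _ h, W_neg _ _ h]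

variable {k' : Type} [CommRing k'] (f : k →+* k')

theorem lam_map (P : Pt Δ k) (i : ℕ) (b : MonoidAlgebra ℤ A) :
    lam (P.map f) i b = f (lam P i b) := by
  have : lam (P.map f) i = f.comp (lam P i) := by
    refine MonoidAlgebra.ringHom_ext (fun x => ?_) fun a => ?_
    · simp [lam_single]
    · simp [lam_single, Pt.map]
  exact DFunLike.congr_fun this b

theorem om_map (P : Pt Δ k) (e : ℤ) :
    (((P.map f).ω ^ e : k'ˣ) : k') = f ((P.ω ^ e : kˣ) : k) := by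
  have : (P.map f).ω = Units.map (f : k →* k') P.ω := rfl
  rw [this, ← map_zpow]
  rfl

theorem item9a (P : Pt Δ k) (d : ℕ) (b : MonoidAlgebra ℤ A) (e : ℤ) :
    W d b e (P.map f) = f (W d b e P) := by
  by_cases h : d ∣ P.d
  · rw [W_pos (P := P.map f) _ _ h, W_pos _ _ h, map_sum]
    refine sum_congr rfl fun i _ => ?_
    rw [F, F, map_prod]
    exact prod_congr rfl fun t _ => by rw [map_mul, lam_map, om_map]
  · rw [W_neg (P := P.map f) _ _ h, W_neg _ _ h, map_zero]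

theorem rho_map (P : Pt Δ k) (y : ℤ →₀ MonoidAlgebra ℤ A) (i j : ZMod P.d) :
    rho (P.map f) y i j = f (rho P y i j) := by
  simp only [rho, rhoG, Matrix.of_apply, Finsupp.sum, map_sum]
  refine sum_congr rfl fun e _ => ?_
  rw [apply_ite f, map_zero, map_mul, ← om_map]
  have h1 : lamG (Int.castRingHom k') (P.map f) i.val (y e) =
      f (lamG (Int.castRingHom k) P i.val (y e)) := lam_map f P i.val (y e)
  rw [← h1]
  congr

theorem item9b (P : Pt Δ k) (r : ℕ) (H : Matrix (Fin r) (Fin r) (ℤ →₀ MonoidAlgebra ℤ A)) :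
    Dt H (P.map f) = f (Dt H P) := by
  unfold Dt
  rw [RingHom.map_det]
  congr 1
  ext x y
  exact rho_map f P _ _ _

end BaseX

open BaseX in
theorem base : BASE_st := fun _ _ _ _ _ =>
  ⟨item1, item2, item3, item4, item5, item6, item7, item8,
    fun _ _ f P => ⟨item9a f P, item9b f P⟩⟩

theorem orb : ORB_st := by
  intro M _ N Y _ τ g h
  classical
  rw [← sum_fiberwise univ (Quotient.mk (Equiv.Perm.SameCycle.setoid τ)) g]
  refine N.sum_mem fun q _ => ?_
  obtain ⟨y, rfl⟩ := Quotient.exists_rep q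
  have hp : 0 < Function.minimalPeriod τ y :=
    Function.minimalPeriod_pos_of_mem_periodicPts (τ.injective.mem_periodicPts y)
  have e : (univ.filter fun x => Quotient.mk (Equiv.Perm.SameCycle.setoid τ) x =
      Quotient.mk (Equiv.Perm.SameCycle.setoid τ) y) =
      (range (Function.minimalPeriod τ y)).image fun u => (τ ^ u) y := by
    ext x
    simp only [mem_filter, mem_univ, true_and, mem_image, mem_range, Quotient.eq]
    constructor
    · intro hx
      obtain ⟨i, -, rfl⟩ := Equiv.Perm.SameCycle.exists_pow_eq' (Equiv.Perm.SameCycle.symm hx)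
      exact ⟨i % Function.minimalPeriod τ y, Nat.mod_lt _ hp,
        Function.iterate_mod_minimalPeriod_eq⟩
    · rintro ⟨u, -, rfl⟩
      exact Equiv.Perm.SameCycle.symm ⟨u, by simp⟩
  rw [e, sum_image]
  · exact h y
  · intro u hu v hv huv
    exact Function.iterate_injOn_Iio_minimalPeriod (by simpa using hu) (by simpa using hv) huv

end Pool.Agent.MP_f3cd89_nt

end

section

/-! The span `B` is a ring; division by reduced norms of integers. -/

set_option autoImplicit false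

open Finset

namespace Pool.Agent.MP_f3cd89_nt

namespace BringX

theorem prod_range_mul {M : Type} [CommMonoid M] (f : ℕ → M) (q r : ℕ) :
    ∏ u ∈ range (q * r), f u = ∏ t ∈ range q, ∏ s ∈ range r, f (t * r + s) := by
  induction q with
  | zero => simp
  | succ q ih => rw [Nat.succ_mul, prod_range_add, ih, prod_range_succ]

theorem sum_shift {M : Type} [AddCommGroup M] (f : ℕ → M) (d : ℕ) (h : ∀ x, f (x + d) = f x)
    (i : ℕ) : ∑ j ∈ range d, f (i + j) = ∑ j ∈ range d, f j := by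
  induction i with
  | zero => simp
  | succ i ih =>
    have h1 := sum_range_succ (fun j => f (i + j)) d
    have h2 := sum_range_succ' (fun j => f (i + j)) d
    rw [h1, h, add_zero] at h2
    rw [← ih, add_right_cancel h2]
    exact sum_congr rfl fun j _ => by rw [add_assoc, add_comm 1 j]

theorem sum_crt {k : Type} [CommRing k] (f g : ℕ → k) {a b : ℕ} (ha : 0 < a) (hb : 0 < b)
    (hf : ∀ x, f (x % a) = f x) (hg : ∀ x, g (x % b) = g x) :
    (∑ i ∈ range a, f i) * ∑ i ∈ range b, g i =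
      ∑ i ∈ range (a.gcd b), ∑ j ∈ range (a.lcm b), f j * g (j + i) := by
  rw [sum_mul_sum, ← sum_product', ← sum_product']
  have h1 : ∀ x ∈ range (a.gcd b) ×ˢ range (a.lcm b),
      (x.2 % a, (x.2 + x.1) % b) ∈ range a ×ˢ range b := fun x _ =>
    mem_product.2 ⟨mem_range.2 (Nat.mod_lt _ ha), mem_range.2 (Nat.mod_lt _ hb)⟩
  have h2 : ∀ x ∈ range (a.gcd b) ×ˢ range (a.lcm b), ∀ y ∈ range (a.gcd b) ×ˢ range (a.lcm b),
      (x.2 % a, (x.2 + x.1) % b) = (y.2 % a, (y.2 + y.1) % b) → x = y := by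
    rintro ⟨i, j⟩ hx ⟨i', j'⟩ hy e
    simp only [mem_product, mem_range] at hx hy
    have e1 : j ≡ j' [MOD a] := (Prod.mk.inj e).1
    have e2 : j + i ≡ j' + i' [MOD b] := (Prod.mk.inj e).2
    have e3 : i ≡ i' [MOD a.gcd b] := Nat.ModEq.add_left_cancel
      (e1.of_dvd (Nat.gcd_dvd_left a b)) (e2.of_dvd (Nat.gcd_dvd_right a b))
    obtain rfl := e3.eq_of_lt_of_lt hx.1 hy.1
    have e4 : j ≡ j' [MOD a.lcm b] := Nat.mod_lcm e1 (Nat.ModEq.add_right_cancel' i e2)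
    rw [e4.eq_of_lt_of_lt hx.2 hy.2]
  refine (sum_bij (fun x _ => (x.2 % a, (x.2 + x.1) % b)) h1 h2 (fun y hy => ?_)
    fun x _ => by rw [hf, hg]).symm
  obtain ⟨x, hx, e⟩ := surj_on_of_inj_on_of_card_le (fun x _ => (x.2 % a, (x.2 + x.1) % b)) h1
    (fun x y hx hy => h2 x hx y hy) (by simp [Nat.gcd_mul_lcm]) y hy
  exact ⟨x, hx, e.symm⟩

variable {A : Type} [CommGroup A] {Δ : Dat A} {k : Type} [CommRing k]

/-- a summand of `V` -/
noncomputable def F (P : Pt Δ k) (d : ℕ) (a : A) (e : ℤ) (i : ℕ) : k :=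
  ∏ t ∈ range (P.d / d), (((P.η ((Δ.σ ^ (i + t * d)) a) : kˣ) : k) * ((P.ω ^ e : kˣ) : k))

theorem V_eq (P : Pt Δ k) (d : ℕ) (a : A) (e : ℤ) :
    V d a e P = if d ∣ P.d then ∑ i ∈ range d, F P d a e i else 0 := by
  simp only [V, W, F, lam_of]

theorem F_down (P : Pt Δ k) {d : ℕ} (h : d ∣ P.d) (a : A) (e : ℤ) (i : ℕ) :
    F P d a e i = lam (P.down d h) i (MonoidAlgebra.of ℤ A a) *
      ((P.ω ^ e : kˣ) : k) ^ (P.d / d) := by
  rw [F, prod_mul_distrib, prod_const, card_range, lam_of, Pt.down_η, ver, map_prod,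
    Units.coe_prod]
  congr 1
  exact prod_congr rfl fun t _ => by rw [add_comm, pow_add, MulAut.mul_apply]

theorem F_mod (P : Pt Δ k) {d : ℕ} (h : d ∣ P.d) (a : A) (e : ℤ) (i : ℕ) :
    F P d a e (i % d) = F P d a e i := by
  rw [F_down P h, F_down P h, ← lam_add_mul (P.down d h) (i % d) (i / d)]
  exact congrArg (fun x => lam (P.down d h) x _ * _) (Nat.mod_add_div' i d)

theorem F_mul (P : Pt Δ k) (d : ℕ) (a a' : A) (e e' : ℤ) (i : ℕ) :
    F P d (a * a') (e + e') i = F P d a e i * F P d a' e' i := by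
  simp only [F, ← prod_mul_distrib, map_mul, zpow_add, Units.val_mul]
  exact prod_congr rfl fun t _ => by ring

theorem F_pow (P : Pt Δ k) (d : ℕ) (a : A) (e : ℤ) (i j : ℕ) :
    F P d ((Δ.σ ^ i) a) e j = F P d a e (j + i) :=
  prod_congr rfl fun t _ => by rw [← MulAut.mul_apply, ← pow_add, add_right_comm]

theorem F_ver (P : Pt Δ k) {d r l : ℕ} (hl : l = d * r) (h : l ∣ P.d) (a : A) (e : ℤ) (j : ℕ) :
    F P l (ver Δ d r a) (e * r) j = F P d a e j := by
  subst hl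
  obtain ⟨q, hq⟩ := h
  have h0 : 0 < d * r := Nat.pos_of_mul_pos_right (hq ▸ P.d_pos)
  have e1 : P.d / (d * r) = q := by rw [hq, Nat.mul_div_cancel_left _ h0]
  have e2 : P.d / d = q * r := by
    rw [hq, mul_assoc, Nat.mul_div_cancel_left _ (Nat.pos_of_mul_pos_right h0), mul_comm]
  rw [F, F, e1, e2, prod_range_mul]
  refine prod_congr rfl fun t _ => ?_
  rw [prod_mul_distrib, prod_const, card_range, ver, map_prod, map_prod, Units.coe_prod, zpow_mul,
    zpow_natCast, Units.val_pow_eq_pow_val]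
  congr 1
  refine prod_congr rfl fun s _ => ?_
  rw [← MulAut.mul_apply, ← pow_add, show j + t * (d * r) + s * d = j + (t * r + s) * d by ring]

theorem V_mul {d d' : ℕ} (hd : d ∣ Δ.m) (hd' : d' ∣ Δ.m) (a a' : A) {e e' : ℤ}
    (he : (d : ℤ) ∣ e) (he' : (d' : ℤ) ∣ e') : (V d a e * V d' a' e' : Pt Δ k → k) ∈ B Δ k := by
  obtain ⟨r, hr⟩ := Nat.dvd_lcm_left d d'
  obtain ⟨r', hr'⟩ := Nat.dvd_lcm_right d d'
  have key : (V d a e * V d' a' e' : Pt Δ k → k) = ∑ i ∈ range (d.gcd d'),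
      V (d.lcm d') (ver Δ d r a * (Δ.σ ^ i) (ver Δ d' r' a')) (e * r + e' * r') := by
    funext P
    rw [Pi.mul_apply, Finset.sum_apply]
    simp only [V_eq]
    by_cases h : d.lcm d' ∣ P.d
    · have h1 := (Nat.dvd_lcm_left d d').trans h
      have h2 := (Nat.dvd_lcm_right d d').trans h
      simp only [if_pos h, if_pos h1, if_pos h2, F_mul, F_pow, F_ver P hr h, F_ver P hr' h]
      exact sum_crt _ _ (Nat.pos_of_dvd_of_pos hd Δ.m_pos) (Nat.pos_of_dvd_of_pos hd' Δ.m_pos)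
        (F_mod P h1 a e) (F_mod P h2 a' e')
    · simp only [if_neg h, sum_const_zero]
      by_cases h1 : d ∣ P.d
      · rw [if_neg fun h2 : d' ∣ P.d => h (Nat.lcm_dvd h1 h2), mul_zero]
      · rw [if_neg h1, zero_mul]
  rw [key]
  refine sum_mem fun i _ => V_mem _ (Nat.lcm_dvd hd hd') (dvd_add ?_ ?_)
  · rw [hr, Nat.cast_mul]
    exact mul_dvd_mul_right he _
  · rw [hr', Nat.cast_mul]
    exact mul_dvd_mul_right he' _

theorem Vl_eq (P : Pt Δ k) {d : ℕ} (h : d ∣ P.d) (b : MonoidAlgebra ℤ A) :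
    Vl d b 0 P = ∑ i ∈ range d, lam (P.down d h) i b := by
  induction b using MonoidAlgebra.induction_linear with
  | zero => simp [Vl_zero]
  | add b b' hb hb' => simp only [Vl_add, Pi.add_apply, hb, hb', map_add, sum_add_distrib]
  | single a z =>
    rw [Vl_single, Pi.smul_apply, V_eq, if_pos h, smul_sum]
    refine sum_congr rfl fun i _ => ?_
    rw [F_down P h, lam_of, lam_single]
    simp

theorem Vl_eq_zero (P : Pt Δ k) {d : ℕ} (h : ¬d ∣ P.d) (b : MonoidAlgebra ℤ A) (e : ℤ) :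
    Vl d b e P = 0 := by
  induction b using MonoidAlgebra.induction_linear with
  | zero => simp [Vl_zero]
  | add b b' hb hb' => rw [Vl_add, Pi.add_apply, hb, hb', add_zero]
  | single a z => rw [Vl_single, Pi.smul_apply, V_eq, if_neg h, smul_zero]

theorem V_one (P : Pt Δ k) (d : ℕ) : V d 1 0 P = if d ∣ P.d then (d : k) else 0 := by
  simp [V_eq, F]

theorem ind_mem : ∀ (n d : ℕ), Δ.m - d = n → d ∣ Δ.m →
    (fun P : Pt Δ k => if P.d = d then (Δ.m : k) else 0) ∈ B Δ k := by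
  intro n
  induction n using Nat.strong_induction_on with
  | _ n ih =>
  intro d hn hd
  have e : (fun P : Pt Δ k => if P.d = d then (Δ.m : k) else 0) = (Δ.m / d) • V d 1 0 -
      ∑ d' ∈ Δ.m.divisors.filter (fun d' => d ∣ d' ∧ d' ≠ d),
        fun P : Pt Δ k => if P.d = d' then (Δ.m : k) else 0 := by
    funext P
    rw [Pi.sub_apply, Pi.smul_apply, Finset.sum_apply, sum_ite_eq, V_one]
    have hm : (Δ.m / d) • (d : k) = Δ.m := by
      rw [nsmul_eq_mul, ← Nat.cast_mul, Nat.div_mul_cancel hd]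
    simp only [mem_filter, Nat.mem_divisors, P.d_dvd, Δ.m_pos.ne', ne_eq, not_false_eq_true,
      and_self, true_and]
    by_cases h1 : P.d = d
    · simp [h1, hm]
    · by_cases h2 : d ∣ P.d
      · simp [h1, h2, hm]
      · simp [h1, h2]
  rw [e]
  refine sub_mem (nsmul_mem (V_mem _ hd (dvd_zero _)) _) (sum_mem fun d' hd' => ?_)
  obtain ⟨h1, h2, h3⟩ := mem_filter.1 hd'
  have h4 := Nat.dvd_of_mem_divisors h1
  have h5 := Nat.le_of_dvd Δ.m_pos h4
  have h6 := Nat.le_of_dvd (Nat.pos_of_dvd_of_pos h4 Δ.m_pos) h2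
  exact ih (Δ.m - d') (by omega) d' rfl h4

end BringX

open BringX in
theorem bring (_hB : BASE_st) : BRING_st := by
  intro A _ Δ k _
  refine ⟨?_, fun f hf g hg => ?_, fun d b b' => ?_, fun g => ?_⟩
  · have e : (1 : Pt Δ k → k) = V 1 1 0 := funext fun P => by simp [V_one]
    rw [e]
    exact V_mem _ (one_dvd _) (dvd_zero _)
  · refine (AddSubgroup.closure_le ((B Δ k).comap (AddMonoidHom.mulRight g))).2 ?_ hf
    rintro _ ⟨d, a, e, hd, he, rfl⟩
    refine (AddSubgroup.closure_le ((B Δ k).comap (AddMonoidHom.mulLeft (V d a e)))).2 ?_ hg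
    rintro _ ⟨d', a', e', hd', he', rfl⟩
    exact V_mul hd hd' a a' he he'
  · funext P
    rw [Pi.mul_apply]
    by_cases h : d ∣ P.d
    · rw [Vl_eq P h, Vl_eq P h, Vl_eq P h, sum_mul]
      refine sum_congr rfl fun i _ => ?_
      rw [map_mul, trc, map_sum]
      simp only [lam_sg]
      rw [sum_shift (fun j => lam (P.down d h) j b') d (fun x => by
        have := lam_add_mul (P.down d h) x 1
        rw [one_mul] at this
        exact DFunLike.congr_fun this b') i]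
    · rw [Vl_eq_zero P h, Vl_eq_zero P h (b * _), zero_mul]
  · have e : (fun P : Pt Δ k => (Δ.m : k) * (g P.d : k)) = ∑ d ∈ Δ.m.divisors,
        g d • fun P : Pt Δ k => if P.d = d then (Δ.m : k) else 0 := by
      funext P
      rw [Finset.sum_apply]
      simp only [Pi.smul_apply, smul_ite, smul_zero, sum_ite_eq, Nat.mem_divisors, P.d_dvd,
        Δ.m_pos.ne', ne_eq, not_false_eq_true, and_self, if_true]
      rw [zsmul_eq_mul, mul_comm]
    rw [e]
    exact sum_mem fun d hd => zsmul_mem (ind_mem _ d rfl (Nat.dvd_of_mem_divisors hd)) _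

theorem invd (hB : BRING_st) (hR : RING_st) (hJ : JB_st) : INVD_st := by
  intro A _ Δ p θ n u hp hn hu hβ
  obtain ⟨-, hm, -, h4⟩ := hB A Δ ℂ
  obtain ⟨a, m, hpm, em⟩ := Nat.exists_eq_pow_mul_and_not_dvd Δ.m_pos.ne' p hp.ne_one
  have hc : IsCoprime (p : ℤ) n := (Nat.prime_iff_prime_int.1 hp).coprime_iff_not_dvd.2 hn
  obtain ⟨x, y, hxy⟩ := hc.pow_left (m := 2 * a)
  have hg : ∀ d : ℕ, ∃ c : ℤ, (y * n) ^ d - 1 = (p : ℤ) ^ (2 * a) * c := fun d => by
    have h1 := sub_dvd_pow_sub_pow (y * n) 1 d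
    rw [one_pow] at h1
    exact Dvd.dvd.trans ⟨-x, by linear_combination hxy⟩ h1
  choose g hg using hg
  have h1 := hm _ (h4 fun d => n ^ (Δ.m - d)) _ hβ
  have h2 := hm _ (hJ A Δ ℂ ((hR A Δ ℂ).2.2.2.1 y)) _ hβ
  have h3 := sub_mem (zsmul_mem h2 (m * u * n ^ Δ.m * m)) (nsmul_mem (hm _ (h4 g) _ h1) u)
  have h5 : ((m * u * n ^ Δ.m * m * u : ℤ)) • θ ∈ B Δ ℂ := by
    convert h3 using 1
    funext P
    have e1 : (n : ℂ) ^ (Δ.m - P.d) * n ^ P.d = n ^ Δ.m :=
      pow_sub_mul_pow _ (Nat.le_of_dvd Δ.m_pos P.d_dvd)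
    have e2 : ((y : ℂ) * n) ^ P.d - 1 = (p : ℂ) ^ (2 * a) * g P.d := by exact_mod_cast hg P.d
    have e3 : (Δ.m : ℂ) = (p : ℂ) ^ a * m := by exact_mod_cast em
    simp only [Pi.sub_apply, Pi.smul_apply, Pi.mul_apply]
    simp only [zsmul_eq_mul, nsmul_eq_mul]
    push_cast
    rw [mul_pow, two_mul, pow_add] at e2
    rw [e3, ← e1]
    linear_combination (-(m * u * (n : ℂ) ^ (Δ.m - P.d) * n ^ P.d * m * u * θ P)) * e2
  refine ⟨(m * u * n ^ Δ.m * m * u : ℤ).natAbs, ?_, ?_⟩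
  · have c1 : m.Coprime p := ((Nat.Prime.coprime_iff_not_dvd hp).2 hpm).symm
    have c2 : n.natAbs.Coprime p :=
      ((Nat.Prime.coprime_iff_not_dvd hp).2 fun h => hn (Int.natCast_dvd.2 h)).symm
    simp only [Int.natAbs_mul, Int.natAbs_pow, Int.natAbs_natCast]
    exact (((c1.mul_left hu).mul_left (c2.pow_left _)).mul_left c1).mul_left hu
  · generalize (m * u * n ^ Δ.m * m * u : ℤ) = z at h5
    rcases Int.natAbs_eq z with e | e
    · rwa [e, natCast_zsmul] at h5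
    · rwa [e, neg_smul, neg_mem_iff, natCast_zsmul] at h5

end Pool.Agent.MP_f3cd89_nt

end

section

set_option autoImplicit false

open Finset

namespace Pool.Agent.MP_f3cd89_nt

namespace WvX

/-- the shift on words -/
def sh (n : ℕ) : Equiv.Perm (ZMod n → Bool) where
  toFun ν t := ν (t - 1)
  invFun ν t := ν (t + 1)
  left_inv ν := funext fun t => by simp
  right_inv ν := funext fun t => by simp

theorem sh_pow {n : ℕ} (u : ℕ) (ν : ZMod n → Bool) (t : ZMod n) : (sh n ^ u) ν t = ν (t - u) := by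
  induction u generalizing t with
  | zero => simp
  | succ u ih =>
    rw [pow_succ', Equiv.Perm.mul_apply]
    change (sh n ^ u) ν (t - 1) = _
    rw [ih, Nat.cast_succ, sub_sub, add_comm]

theorem per_iff {n : ℕ} (R : ℕ) (ν : ZMod n → Bool) :
    Function.minimalPeriod (sh n) ν ∣ R ↔ ∀ t, ν (t - R) = ν t := by
  rw [← Function.isPeriodicPt_iff_minimalPeriod_dvd, Function.IsPeriodicPt, Function.IsFixedPt,
    ← Equiv.Perm.coe_pow, funext_iff]
  simp only [sh_pow]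

theorem per_add {n R : ℕ} {ν : ZMod n → Bool} (h : Function.minimalPeriod (sh n) ν ∣ R)
    (t : ZMod n) (s : ℕ) : ν (t + (s * R : ℕ)) = ν t := by
  rw [← (per_iff (s * R) ν).1 (h.mul_left s), add_sub_cancel_right]

theorem per_dvd {n : ℕ} (ν : ZMod n → Bool) : Function.minimalPeriod (sh n) ν ∣ n :=
  (per_iff n ν).2 fun t => by simp

theorem per_pow {n : ℕ} [NeZero n] (u : ℕ) (ν : ZMod n → Bool) :
    Function.minimalPeriod (sh n) ((sh n ^ u) ν) = Function.minimalPeriod (sh n) ν := by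
  rw [Equiv.Perm.coe_pow]
  exact Function.minimalPeriod_apply_iterate ⟨n, NeZero.pos n,
    Function.isPeriodicPt_iff_minimalPeriod_dvd.2 (per_dvd ν)⟩ u

theorem const_of {n : ℕ} [NeZero n] {ν : ZMod n → Bool} (h : Function.minimalPeriod (sh n) ν = 1) :
    ν = fun _ => ν 0 := by
  funext t
  have := per_add h.dvd 0 t.val
  simpa using this

theorem per_const {n : ℕ} (s : Bool) : Function.minimalPeriod (sh n) (fun _ => s) = 1 :=
  Nat.dvd_one.1 ((per_iff 1 _).2 fun _ => rfl)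

theorem prod_shift {k : Type} [CommRing k] (h : ℕ → k) (R : ℕ) (hR : h R = h 0) :
    ∏ t ∈ range R, h (t + 1) = ∏ t ∈ range R, h t := by
  cases R with
  | zero => simp
  | succ R => rw [prod_range_succ, prod_range_succ' h, hR]

theorem prod_mul {M : Type} [CommMonoid M] (h : ℕ → M) (a b : ℕ) :
    ∏ j ∈ range (a * b), h j = ∏ s ∈ range a, ∏ t ∈ range b, h (t + s * b) := by
  induction a with
  | zero => simp
  | succ a ih =>
    rw [Nat.succ_mul, prod_range_add, ih, prod_range_succ]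
    simp only [add_comm]

theorem sum_mul' {M : Type} [AddCommMonoid M] (h : ℕ → M) (a b : ℕ) :
    ∑ j ∈ range (a * b), h j = ∑ s ∈ range a, ∑ t ∈ range b, h (t + s * b) :=
  prod_mul (M := Multiplicative M) h a b

theorem expand {k : Type} [CommRing k] {n R : ℕ} [NeZero n] (hR : R ∣ n) (x : Bool → ℕ → k) :
    ∏ t ∈ range R, (x false t + x true t) = ∑ ν : ZMod n → Bool,
      if Function.minimalPeriod (sh n) ν ∣ R then ∏ t ∈ range R, x (ν t) t else 0 := by
  have hp : 0 < R := Nat.pos_of_dvd_of_pos hR (NeZero.pos n)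
  have hle : R ≤ n := Nat.le_of_dvd (NeZero.pos n) hR
  have h1 : ∀ t, x false t + x true t = ∑ s : Bool, x s t := fun t => by simp [add_comm]
  simp only [h1]
  rw [prod_range, prod_univ_sum]
  let e : (Fin R → Bool) → ZMod n → Bool := fun μ t => μ ⟨t.val % R, Nat.mod_lt _ hp⟩
  have he : ∀ μ (t : Fin R), e μ ((t : ℕ) : ZMod n) = μ t := fun μ t => by
    simp only [e, ZMod.val_cast_of_lt (t.2.trans_le hle), Nat.mod_eq_of_lt t.2]
  refine sum_of_injOn e (fun μ _ μ' _ h => funext fun t => by rw [← he μ, h, he])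
    (fun _ _ => mem_univ _) (fun ν _ hν => if_neg fun h => hν ⟨fun t => ν (t : ℕ), by simp, ?_⟩)
    fun μ _ => ?_
  · funext t
    have := per_add h ((t.val % R : ℕ) : ZMod n) (t.val / R)
    rw [← Nat.cast_add, Nat.mod_add_div', ZMod.natCast_zmod_val] at this
    exact this.symm
  · rw [if_pos, prod_range]
    · exact prod_congr rfl fun t _ => by rw [he]
    · refine (per_iff R _).2 fun t => ?_
      obtain ⟨s, rfl⟩ : ∃ s, t = s + R := ⟨t - R, by simp⟩
      simp only [e, add_sub_cancel_right, ZMod.val_add, ZMod.val_natCast, Nat.add_mod_mod,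
        Nat.mod_mod_of_dvd _ hR, Nat.add_mod_right]

variable {A : Type} [CommGroup A] {Δ : Dat A} {k : Type} [CommRing k]

/-- the term of a word -/
noncomputable def G (d : ℕ) (b : Bool → MonoidAlgebra ℤ A) (e : ℤ) {n : ℕ} (ν : ZMod n → Bool)
    (P : Pt Δ k) : k :=
  if d ∣ P.d ∧ Function.minimalPeriod (sh n) ν ∣ P.d / d then ∑ i ∈ range d,
    ∏ t ∈ range (P.d / d), (lam P (i + t * d) (b (ν t)) * ((P.ω ^ e : kˣ) : k)) else 0

theorem sum_G {d n : ℕ} [NeZero n] (hn : Δ.m = d * n) (b : Bool → MonoidAlgebra ℤ A) (e : ℤ) :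
    (W d (b false + b true) e : Pt Δ k → k) = ∑ ν : ZMod n → Bool, G d b e ν := by
  funext P
  rw [Finset.sum_apply, W]
  split_ifs with h
  · have hR : P.d / d ∣ n := by
      have h0 : 0 < d := Nat.pos_of_dvd_of_pos h P.d_pos
      refine Nat.dvd_of_mul_dvd_mul_left h0 ?_
      rw [Nat.mul_div_cancel' h, ← hn]
      exact P.d_dvd
    simp only [map_add, add_mul]
    rw [sum_congr rfl fun i _ => expand hR fun s t =>
      lam P (i + t * d) (b s) * ((P.ω ^ e : kˣ) : k), sum_comm]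
    refine sum_congr rfl fun ν _ => ?_
    simp only [G, h, true_and]
    split_ifs <;> simp
  · simp [G, h]

theorem orbit_G {d n : ℕ} [NeZero n] (b : Bool → MonoidAlgebra ℤ A) (e : ℤ) (ν : ZMod n → Bool)
    {r : ℕ} (hr : Function.minimalPeriod (sh n) ν = r) :
    ∑ u ∈ range r, (G d b e ((sh n ^ u) ν) : Pt Δ k → k) =
      W (d * r) (∏ t ∈ range r, sg Δ (t * d) (b (ν t))) (e * r) := by
  funext P
  rw [Finset.sum_apply, W]
  simp only [G, per_pow, hr]
  by_cases h : d * r ∣ P.d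
  · obtain ⟨q, hq⟩ := id h
    have h0 : 0 < d * r := Nat.pos_of_dvd_of_pos h P.d_pos
    have hd : 0 < d := Nat.pos_of_mul_pos_right h0
    have e1 : P.d / d = q * r := by rw [hq, mul_assoc, Nat.mul_div_cancel_left _ hd, mul_comm]
    have e2 : P.d / (d * r) = q := by rw [hq, Nat.mul_div_cancel_left _ h0]
    have hc : d ∣ P.d ∧ r ∣ P.d / d := ⟨(dvd_mul_right d r).trans h, e1 ▸ dvd_mul_left r q⟩
    simp only [hc, h, and_self, if_true]
    rw [e2, e1, mul_comm d r, sum_mul']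
    have key : ∀ u j : ℕ, ∏ t ∈ range (q * r),
        (lam P (j + t * d) (b (ν ((t : ZMod n) - u))) * ((P.ω ^ e : kˣ) : k)) =
        ∏ t ∈ range (q * r), (lam P (j + u * d + t * d) (b (ν t)) * ((P.ω ^ e : kˣ) : k)) := by
      intro u
      induction u with
      | zero => simp
      | succ u ih =>
        intro j
        have e3 : j + (u + 1) * d = j + d + u * d := by ring
        rw [e3, ← ih, ← prod_shift]
        · refine prod_congr rfl fun t _ => ?_
          congr 2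
          · ring_nf
          · push_cast
            ring_nf
        · have e4 : j + q * r * d = j + 0 * d + 1 * P.d := by rw [hq]; ring
          have e5 := per_add hr.dvd (((0 : ℕ) : ZMod n) - ((u + 1 : ℕ) : ZMod n)) q
          rw [e4, lam_add_mul, ← e5]
          congr 4
          push_cast
          ring
    refine sum_congr rfl fun u _ => sum_congr rfl fun i _ => ?_
    simp only [sh_pow]
    rw [key, prod_mul]
    refine prod_congr rfl fun s _ => ?_
    rw [prod_mul_distrib, map_prod, prod_const, card_range, zpow_mul, zpow_natCast,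
      Units.val_pow_eq_pow_val]
    congr 1
    refine prod_congr rfl fun t _ => ?_
    rw [lam_sg, Nat.cast_add, per_add hr.dvd]
    congr 2
    ring
  · have hc : ¬(d ∣ P.d ∧ r ∣ P.d / d) := fun hc => h (Nat.mul_dvd_of_dvd_div hc.1 hc.2)
    simp [hc, h]

theorem sg_zero (b : MonoidAlgebra ℤ A) : sg Δ 0 b = b := by
  have : sg Δ 0 = RingHom.id _ := by
    refine MonoidAlgebra.ringHom_ext (fun x => ?_) fun a => ?_ <;> simp [sg_single]
  rw [this, RingHom.id_apply]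

theorem add_step (hO : ORB_st) {d : ℕ} (hd : d ∣ Δ.m) {e : ℤ} (he : (d : ℤ) ∣ e)
    (ih : ∀ (r : ℕ) (b : MonoidAlgebra ℤ A) (e : ℤ), r ≠ 1 → d * r ∣ Δ.m → ((d * r : ℕ) : ℤ) ∣ e →
      W (d * r) b e ∈ Bgt Δ k d) (b₀ b₁ : MonoidAlgebra ℤ A) :
    W d (b₀ + b₁) e - W d b₀ e - W d b₁ e ∈ Bgt Δ k d := by
  classical
  obtain ⟨n, hn⟩ := hd
  have : NeZero n := ⟨fun h => Δ.m_pos.ne' (by rw [hn, h, mul_zero])⟩
  let b : Bool → MonoidAlgebra ℤ A := fun s => cond s b₁ b₀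
  have h1 := hO _ (Bgt Δ k d) _ (sh n) (fun ν => G d b e ν -
    (if ν = fun _ => false then W d b₀ e else 0) - (if ν = fun _ => true then W d b₁ e else 0))
    fun ν => ?_
  · rw [sum_sub_distrib, sum_sub_distrib, ← sum_G hn, sum_ite_eq', sum_ite_eq'] at h1
    simpa [b] using h1
  by_cases hr : Function.minimalPeriod (sh n) ν = 1
  · have h2 := orbit_G (Δ := Δ) (k := k) (d := d) b e ν hr
    simp only [range_one, sum_singleton, prod_singleton, zero_mul, sg_zero, mul_one, pow_zero,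
      Nat.cast_one, Nat.cast_zero, Equiv.Perm.one_apply] at h2
    simp only [hr, range_one, sum_singleton, pow_zero, Equiv.Perm.one_apply, h2]
    have h3 := const_of hr
    have h4 : ((fun _ => false) : ZMod n → Bool) ≠ fun _ => true := fun h => by
      simpa using congrFun h 0
    generalize ν 0 = s at h3
    subst h3
    cases s
    · simp [b, h4]
    · simp [b, h4.symm]
  · have h2 : ∀ u s, (sh n ^ u) ν ≠ fun _ => s := fun u s h => hr (by
      rw [← per_pow u, h, per_const])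
    simp only [h2, if_false, sub_zero]
    rw [orbit_G b e ν rfl]
    exact ih _ _ _ hr (hn ▸ mul_dvd_mul_left d (per_dvd ν))
      (by push_cast; exact mul_dvd_mul_right he _)

theorem mono {d r : ℕ} (hd : 0 < d) (hr : r ≠ 1) {b : MonoidAlgebra ℤ A} {e : ℤ}
    (hm : d * r ∣ Δ.m) (he : ((d * r : ℕ) : ℤ) ∣ e)
    (h : W (d * r) b e - Vl (d * r) b e ∈ Bgt Δ k (d * r)) : W (d * r) b e ∈ Bgt Δ k d := by
  have hne : d * r ≠ d := fun h => hr (Nat.eq_of_mul_eq_mul_left hd (h.trans (mul_one d).symm))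
  have h1 : Bgt Δ k (d * r) ≤ Bgt Δ k d := AddSubgroup.closure_mono
    fun _ ⟨d', a, e, h1, h2, _, h4, h5⟩ => ⟨d', a, e, h1, (dvd_mul_right d r).trans h2,
      fun h => hne (Nat.dvd_antisymm (h ▸ h2) (dvd_mul_right d r)), h4, h5⟩
  have h2 : Vl (d * r) b e ∈ Bgt Δ k d := AddSubgroup.sum_mem _ fun a _ =>
    AddSubgroup.zsmul_mem _ (AddSubgroup.subset_closure
      (by exact ⟨d * r, a, e, hm, dvd_mul_right d r, hne, he, rfl⟩)) _
  simpa using add_mem (h1 h) h2

end WvX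

set_option linter.unusedVariables false in
theorem wv (hO : ORB_st) (hB : BASE_st) : WV_st := by
  intro A _ Δ k _ d
  induction' hq : Δ.m - d using Nat.strong_induction_on with q ih generalizing d
  intro b e hd he
  have h0 : 0 < d := Nat.pos_of_dvd_of_pos hd Δ.m_pos
  have hadd := WvX.add_step (k := k) hO hd he fun r b e hr hm he => WvX.mono h0 hr hm he (by
    have h1 := Nat.le_of_dvd Δ.m_pos hm
    have h2 : r ≠ 0 := fun h => by
      rw [h, mul_zero, zero_dvd_iff] at hm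
      exact Δ.m_pos.ne' hm
    have h3 : d * 2 ≤ d * r := Nat.mul_le_mul_left d (by omega)
    exact ih (Δ.m - d * r) (by omega) _ rfl b e hm he)
  let S : AddSubgroup (MonoidAlgebra ℤ A) :=
    { carrier := {b | W d b e - Vl d b e ∈ Bgt Δ k d}
      add_mem' := fun {x y} hx hy => by
        have := add_mem (add_mem (hadd x y) hx) hy
        rw [Set.mem_ofPred_eq, Vl_add]
        rwa [show W d (x + y) e - W d x e - W d y e + (W d x e - Vl d x e) + (W d y e - Vl d y e) =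
          (W d (x + y) e - (Vl d x e + Vl d y e) : Pt Δ k → k) by abel] at this
      zero_mem' := by
        have := neg_mem (hadd 0 0)
        rw [Set.mem_ofPred_eq, Vl_zero]
        simpa using this
      neg_mem' := fun {x} hx => by
        have := neg_mem (add_mem (add_mem (hadd x (-x)) (hadd 0 0)) hx)
        rw [Set.mem_ofPred_eq, Vl_neg]
        rw [add_neg_cancel, add_zero] at this
        rwa [show -(W d 0 e - W d x e - W d (-x) e + (W d 0 e - W d 0 e - W d 0 e) +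
          (W d x e - Vl d x e)) = (W d (-x) e - -Vl d x e : Pt Δ k → k) by abel] at this }
  change b ∈ S
  induction b using MonoidAlgebra.induction_linear with
  | zero => exact zero_mem _
  | add x y hx hy => exact add_mem hx hy
  | single a z =>
    have h1 : MonoidAlgebra.of ℤ A a ∈ S := by
      change W d _ e - Vl d _ e ∈ Bgt Δ k d
      rw [Vl_of, V, sub_self]
      exact zero_mem _
    simpa using S.zsmul_mem h1 z

end Pool.Agent.MP_f3cd89_nt

end

section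

/-! Arithmetic lemmas: sequences that satisfy the Gauss congruences. -/

set_option autoImplicit false

open Finset

namespace Pool.Agent.MP_f3cd89_nt.GaussX

theorem exists_c (a : ℕ → ℤ) : ∃ c : ℕ → ℤ, ∀ n, 0 < n → ∑ i ∈ n.divisors, c i = a n :=
  ⟨_, ArithmeticFunction.sum_eq_iff_sum_smul_moebius_eq.2 fun _ _ => rfl⟩

theorem dold (a : ℕ → ℤ) (h : ∀ q : ℕ, q.Prime → ∀ v n : ℕ, 0 < n → q ^ v ∣ n * q →
    (q : ℤ) ^ v ∣ a (n * q) - a n) :
    ∃ M : ℕ → ℤ, ∀ n, 0 < n → ∑ j ∈ n.divisors, ((j : ℕ) : ℤ) * M j = a n := by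
  obtain ⟨c, hc⟩ := exists_c a
  have h1 : ∀ q : ℕ, q.Prime → ∀ v j : ℕ, 0 < j → q ^ (v + 1) ∣ j → (q : ℤ) ^ (v + 1) ∣ c j := by
    intro q hq v j
    induction j using Nat.strong_induction_on with
    | _ j ih =>
      intro hj hv
      obtain ⟨n, rfl⟩ : ∃ n, j = n * q :=
        (Dvd.dvd.trans (dvd_pow_self q v.succ_ne_zero) hv).imp fun _ e => e.trans (mul_comm _ _)
      have hn : 0 < n := Nat.pos_of_mul_pos_right hj
      have hs : n.divisors ⊆ (n * q).divisors := Nat.divisors_subset_of_dvd hj.ne' (dvd_mul_right _ _)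
      have hm : n * q ∈ (n * q).divisors \ n.divisors := by
        refine mem_sdiff.2 ⟨Nat.mem_divisors_self _ hj.ne', fun e => ?_⟩
        have := Nat.divisor_le e
        nlinarith [hq.two_le]
      have e := h q hq _ n hn hv
      rw [← hc _ hj, ← hc _ hn, ← sum_sdiff hs, add_sub_cancel_right, ← add_sum_erase _ _ hm] at e
      refine (dvd_add_left (dvd_sum fun i hi => ?_)).1 e
      obtain ⟨h2, h3⟩ := mem_erase.1 hi
      obtain ⟨h4, h5⟩ := mem_sdiff.1 h3
      obtain ⟨k, hk⟩ := Nat.dvd_of_mem_divisors h4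
      refine ih i (lt_of_le_of_ne (Nat.divisor_le h4) h2) (Nat.pos_of_mem_divisors h4) ?_
      refine Nat.Coprime.dvd_of_dvd_mul_right (Nat.Coprime.pow_left _
        ((Nat.Prime.coprime_iff_not_dvd hq).2 ?_)) (hk ▸ hv)
      rintro ⟨l, rfl⟩
      refine h5 (Nat.mem_divisors.2 ⟨⟨l, Nat.eq_of_mul_eq_mul_right hq.pos ?_⟩, hn.ne'⟩)
      rw [hk]; ring
  have h2 : ∀ j : ℕ, 0 < j → (j : ℤ) ∣ c j := fun j hj => by
    rw [Int.natCast_dvd, Nat.dvd_iff_prime_pow_dvd_dvd]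
    intro q v hq hv
    rcases v with _ | v
    · simp
    · rw [← Int.natCast_dvd, Nat.cast_pow]
      exact h1 q hq v j hj hv
  refine ⟨fun j => c j / j, fun n hn => ?_⟩
  rw [← hc n hn]
  exact sum_congr rfl fun j hj => Int.mul_ediv_cancel' (h2 j (Nat.pos_of_mem_divisors hj))

theorem pow_congr (x : ℤ) (q : ℕ) (hq : q.Prime) (v n : ℕ) (h : q ^ v ∣ n * q) :
    (q : ℤ) ^ v ∣ x ^ (n * q) - x ^ n := by
  rcases v with _ | v
  · simp
  · obtain ⟨l, rfl⟩ : q ^ v ∣ n := Nat.dvd_of_mul_dvd_mul_right hq.pos (pow_succ q v ▸ h)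
    have := dvd_sub_pow_of_dvd_sub (Int.ModEq.pow_prime_eq_self hq (x ^ l)).symm.dvd v
    rw [← pow_mul, ← pow_mul, ← pow_mul] at this
    rw [show q ^ v * l * q = l * (q * q ^ v) by ring, mul_comm (q ^ v) l]
    exact this

theorem exists_two (p : ℕ) (hp : p.Prime) : ∃ M : ℕ → ℤ, ∀ n, 0 < n →
    ∑ j ∈ n.divisors, ((j : ℕ) : ℤ) * M j = (p : ℤ) ^ (2 * n - 1) := by
  refine dold _ fun q hq v n hn hv => ?_
  have h1 : ∀ n, 0 < n → (p : ℤ) * p ^ (2 * n - 1) = ((p : ℤ) ^ 2) ^ n := fun n hn => by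
    rw [← pow_succ', ← pow_mul, Nat.sub_add_cancel (by omega)]
  by_cases e : q = p
  · subst e
    have h2 : v ≤ n := by
      rcases v with _ | v
      · omega
      · exact (Nat.lt_pow_self hq.one_lt).trans_le
          (Nat.le_of_dvd hn (Nat.dvd_of_mul_dvd_mul_right hq.pos (pow_succ q v ▸ hv)))
    have h3 : n ≤ n * q := Nat.le_mul_of_pos_right _ hq.pos
    exact dvd_sub (pow_dvd_pow _ (by omega)) (pow_dvd_pow _ (by omega))
  · have h2 := pow_congr ((p : ℤ) ^ 2) q hq v n hv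
    rw [← h1 _ hn, ← h1 _ (Nat.mul_pos hn hq.pos), ← mul_sub] at h2
    exact IsCoprime.dvd_of_dvd_mul_left (IsCoprime.pow_left
      (Nat.isCoprime_iff_coprime.2 ((Nat.coprime_primes hq hp).2 e))) h2

theorem exists_one (p : ℕ) (hp : p.Prime) : ∃ M : ℕ → ℤ, (∀ n, 0 < n →
    ∑ j ∈ n.divisors, ((j : ℕ) : ℤ) * M j = (p : ℤ) ^ n) ∧ (p : ℤ) ∣ M p + 1 ∧
      ∀ j, ¬p ∣ j → (p : ℤ) ∣ M j := by
  obtain ⟨M, hM⟩ := dold (fun n => (p : ℤ) ^ n) fun q hq v n _ hv => pow_congr _ q hq v n hv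
  refine ⟨M, hM, ?_, fun j hj => ?_⟩
  · have h1 := hM 1 one_pos
    have h2 := hM p hp.pos
    rw [hp.sum_divisors] at h2
    simp only [Nat.divisors_one, sum_singleton, pow_one] at h1
    rw [h1] at h2
    have h3 : (p : ℤ) * p ∣ p * (M p + 1) := by
      rw [mul_add, mul_one, h2, ← sq]
      exact pow_dvd_pow _ hp.two_le
    exact Int.dvd_of_mul_dvd_mul_left (Nat.cast_ne_zero.2 hp.ne_zero) h3
  · have h1 : ∀ n : ℕ, 0 < n → (p : ℤ) ∣ n * M n := by
      intro n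
      induction n using Nat.strong_induction_on with
      | _ n ih =>
        intro hn
        have e : (p : ℤ) ∣ (p : ℤ) ^ n := dvd_pow_self _ hn.ne'
        rw [← hM n hn, ← Nat.cons_self_properDivisors hn.ne', sum_cons] at e
        exact (dvd_add_left (dvd_sum fun i hi => ih i (Nat.mem_properDivisors.1 hi).2
          (Nat.pos_of_mem_properDivisors hi))).1 e
    exact IsCoprime.dvd_of_dvd_mul_left (Nat.isCoprime_iff_coprime.2
      ((Nat.Prime.coprime_iff_not_dvd hp).2 hj))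
      (h1 j (Nat.pos_of_ne_zero fun e => hj (e ▸ dvd_zero p)))

open Classical in
theorem ind_pow (p : ℕ) (hp : p.Prime) (R : ℕ) (hR : 0 < R) :
    ∑ j ∈ R.divisors with ¬p ∣ j, (ArithmeticFunction.moebius j : ℤ) =
      if ∃ s, R = p ^ s then 1 else 0 := by
  have h1 : R.divisors.filter (fun j => ¬p ∣ j) = (ordCompl[p] R).divisors := by
    ext j
    rw [mem_filter, Nat.mem_divisors, Nat.mem_divisors]
    exact ⟨fun h => ⟨Nat.dvd_ordCompl_of_dvd_not_dvd h.1.1 h.2, (Nat.ordCompl_pos p hR.ne').ne'⟩,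
      fun h => ⟨⟨h.1.trans (Nat.ordCompl_dvd _ _), hR.ne'⟩,
        fun e => Nat.not_dvd_ordCompl hp hR.ne' (e.trans h.1)⟩⟩
  rw [h1, ← ArithmeticFunction.coe_mul_zeta_apply, ArithmeticFunction.moebius_mul_coe_zeta,
    ArithmeticFunction.one_apply]
  refine if_congr ⟨fun e => ⟨R.factorization p, ?_⟩, ?_⟩ rfl rfl
  · have := Nat.ordProj_mul_ordCompl_eq_self R p
    rw [e, mul_one] at this
    exact this.symm
  · rintro ⟨s, rfl⟩
    rw [hp.factorization_pow, Finsupp.single_eq_same, Nat.div_self hR]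

theorem prod_range_mul {M : Type} [CommMonoid M] (f : ℕ → M) (r s : ℕ) :
    ∏ t ∈ range (r * s), f t = ∏ i ∈ range r, ∏ j ∈ range s, f (i * s + j) := by
  induction r with
  | zero => simp
  | succ r ih => rw [Nat.succ_mul, prod_range_add, ih, prod_range_succ]

theorem sum_range_mul {M : Type} [AddCommMonoid M] (f : ℕ → M) (r s : ℕ) :
    ∑ t ∈ range (r * s), f t = ∑ i ∈ range r, ∑ j ∈ range s, f (i * s + j) := by
  induction r with
  | zero => simp
  | succ r ih => rw [Nat.succ_mul, sum_range_add, ih, sum_range_succ]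

end Pool.Agent.MP_f3cd89_nt.GaussX

end

section

/-! Transfers of multiples of `p`, and the local description of `B` by congruences. -/

set_option autoImplicit false

open Finset

namespace Pool.Agent.MP_f3cd89_nt

namespace GaussX

variable {A : Type} [CommGroup A] {Δ : Dat A} {k : Type} [CommRing k]

theorem filter_div {d : ℕ} (P : Pt Δ k) (h : d ∣ P.d) :
    (Δ.m / d).divisors.filter (fun j => d * j ∣ P.d) = (P.d / d).divisors := by
  have h1 : 0 < d := Nat.pos_of_dvd_of_pos h P.d_pos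
  have h2 := h.trans P.d_dvd
  ext j
  rw [mem_filter, Nat.mem_divisors, Nat.mem_divisors, Nat.dvd_div_iff_mul_dvd h,
    Nat.dvd_div_iff_mul_dvd h2]
  exact ⟨fun e => ⟨e.2, (Nat.div_pos (Nat.le_of_dvd P.d_pos h) h1).ne'⟩,
    fun e => ⟨⟨e.1.trans P.d_dvd, (Nat.div_pos (Nat.le_of_dvd Δ.m_pos h2) h1).ne'⟩, e.1⟩⟩

theorem sum_ite_dvd (c : ℕ → k) {d : ℕ} (P : Pt Δ k) (h : d ∣ P.d) (w : k) :
    ∑ j ∈ (Δ.m / d).divisors, c j * (if d * j ∣ P.d then w else 0) =
      (∑ j ∈ (P.d / d).divisors, c j) * w := by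
  rw [← filter_div P h, sum_filter, sum_mul]
  refine sum_congr rfl fun j _ => ?_
  split_ifs <;> simp

theorem W_of_not {d : ℕ} (b : MonoidAlgebra ℤ A) (e : ℤ) {P : Pt Δ k} (h : ¬d ∣ P.d) :
    W d b e P = 0 := if_neg h

theorem W_nsmul (d n : ℕ) (b : MonoidAlgebra ℤ A) (e : ℤ) (P : Pt Δ k) :
    W d (n • b) e P = (n : k) ^ (P.d / d) * W d b e P := by
  unfold W
  split_ifs
  · rw [mul_sum]
    refine sum_congr rfl fun i _ => ?_
    simp only [nsmul_eq_mul, map_mul, map_natCast, mul_assoc, prod_mul_distrib, prod_const,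
      card_range]
  · rw [mul_zero]

theorem expand {a M : ℕ → ℤ} (hM : ∀ n, 0 < n → ∑ j ∈ n.divisors, ((j : ℕ) : ℤ) * M j = a n)
    {d : ℕ} {b : MonoidAlgebra ℤ A} {e : ℤ} {F : ℕ → Pt Δ k → k}
    (hF : ∀ j P, F j P = if d * j ∣ P.d then (j : k) * W d b e P else 0) (P : Pt Δ k) :
    (∑ j ∈ (Δ.m / d).divisors, M j • F j) P = (a (P.d / d) : k) * W d b e P := by
  rw [Finset.sum_apply]
  by_cases h : d ∣ P.d
  · rw [← hM _ (Nat.div_pos (Nat.le_of_dvd P.d_pos h) (Nat.pos_of_dvd_of_pos h P.d_pos)),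
      Int.cast_sum, ← sum_ite_dvd _ P h]
    refine sum_congr rfl fun j _ => ?_
    rw [Pi.smul_apply, hF, zsmul_eq_mul]
    split_ifs
    · push_cast; ring
    · simp
  · rw [W_of_not b e h, mul_zero]
    refine sum_eq_zero fun j _ => ?_
    rw [Pi.smul_apply, hF, W_of_not b e h, mul_zero, ite_self, smul_zero]

theorem lev {d j : ℕ} {e : ℤ} (hd : d ∣ Δ.m) (he : (d : ℤ) ∣ e) (hj : j ∈ (Δ.m / d).divisors) :
    d * j ∣ Δ.m ∧ ((d * j : ℕ) : ℤ) ∣ e * j :=
  ⟨(Nat.dvd_div_iff_mul_dvd hd).1 (Nat.dvd_of_mem_divisors hj),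
    by rw [Nat.cast_mul]; exact mul_dvd_mul_right he _⟩

theorem smul_mem_pB {p : ℕ} {z : ℤ} (hz : (p : ℤ) ∣ z) {f : Pt Δ k → k} (hf : f ∈ B Δ k) :
    z • f ∈ pB Δ k p := by
  obtain ⟨w, rfl⟩ := hz
  exact mem_pB.2 ⟨w • f, zsmul_mem hf w, by rw [mul_smul, natCast_zsmul]⟩

/-! ### Points -/

theorem pt_ext {P Q : Pt Δ k} (h1 : P.d = Q.d) (h2 : ∀ a, P.η a = Q.η a) (h3 : P.ω = Q.ω) :
    P = Q := by
  have h4 : P.η = Q.η := MonoidHom.ext h2
  cases P
  cases Q
  simp_all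

theorem down_self (P : Pt Δ k) (h : P.d ∣ P.d) : P.down P.d h = P := by
  refine pt_ext rfl (fun a => ?_) ?_
  · rw [Pt.down_η, Nat.div_self P.d_pos]
    simp [ver]
  · change P.ω ^ (P.d / P.d) = P.ω
    rw [Nat.div_self P.d_pos, pow_one]

theorem down_down (P : Pt Δ k) {d d' : ℕ} (h : d' ∣ P.d) (h' : d ∣ d') :
    (P.down d' h).down d h' = P.down d (h'.trans h) := by
  have e : P.d / d = P.d / d' * (d' / d) := by
    rw [← Nat.mul_div_assoc _ h', Nat.div_mul_cancel h]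
  refine pt_ext rfl (fun a => ?_) ?_
  · rw [Pt.down_η, Pt.down_η, Pt.down_η, e]
    change P.η (ver Δ d' (P.d / d') (ver Δ d (d' / d) a)) = _
    simp only [ver, prod_range_mul, map_prod]
    refine prod_congr rfl fun i _ => prod_congr rfl fun j _ => ?_
    rw [add_mul, mul_assoc, Nat.div_mul_cancel h', pow_add, MulAut.mul_apply]
  · change (P.ω ^ (P.d / d')) ^ (d' / d) = P.ω ^ (P.d / d)
    rw [e, pow_mul]

theorem tw_down (P : Pt Δ k) {d : ℕ} (h : d ∣ P.d) : P.tw.down d h = (P.down d h).tw := by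
  refine pt_ext rfl (fun a => ?_) rfl
  change _ = (P.down d h).η (Δ.σ a)
  rw [Pt.down_η, Pt.down_η]
  change P.η (Δ.σ (ver Δ d (P.d / d) a)) = _
  simp only [ver, map_prod]
  refine prod_congr rfl fun i _ => ?_
  rw [← MulAut.mul_apply, ← pow_succ', pow_succ, MulAut.mul_apply]

theorem tw_ch (P : Pt Δ k) (i : ℕ) (a : A) : P.tw.ch i a = P.ch (i + 1) a := by
  rw [Pt.ch_apply, Pt.ch_apply, pow_succ', MulAut.mul_apply]
  rfl

theorem V_top (P : Pt Δ k) (a : A) (e : ℤ) :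
    V P.d a e P = ∑ i ∈ range P.d, P.ch i a * ((P.ω ^ e : kˣ) : k) := by
  rw [V, W, if_pos dvd_rfl, Nat.div_self P.d_pos]
  simp [lam_single]

/-- the difference of the values at two consecutive levels -/
noncomputable def Df (p : ℕ) (θ : Pt Δ k → k) (P : Pt Δ k) : k :=
  θ P - if h : p ∣ P.d then θ (P.down (P.d / p) (Nat.div_dvd_of_dvd h)) else 0

/-- the difference at the level `d` below the point -/
noncomputable def Dn (p : ℕ) (θ : Pt Δ k → k) (d : ℕ) (P : Pt Δ k) : k :=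
  if h : d ∣ P.d then Df p θ (P.down d h) else 0

theorem Df_tw {p : ℕ} {θ : Pt Δ k → k} (h : ∀ P, θ P.tw = θ P) (P : Pt Δ k) :
    Df p θ P.tw = Df p θ P := by
  rw [Df, Df, h]
  congr 1
  by_cases e : p ∣ P.d
  · rw [dif_pos e, dif_pos (show p ∣ P.tw.d from e), ← h (P.down _ _), ← tw_down]
    rfl
  · rw [dif_neg e, dif_neg (show ¬p ∣ P.tw.d from e)]

open Classical in
theorem tele {p : ℕ} (hp : p.Prime) (θ : Pt Δ k → k) (n : ℕ) : ∀ P : Pt Δ k, P.d = n →
    θ P = ∑ d ∈ Δ.m.divisors, if ∃ s, n = d * p ^ s then Dn p θ d P else 0 := by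
  induction n using Nat.strong_induction_on with
  | _ n ih =>
    rintro P rfl
    have h0 : P.d ∈ Δ.m.divisors := Nat.mem_divisors.2 ⟨P.d_dvd, Δ.m_pos.ne'⟩
    have h1 : Dn p θ P.d P = Df p θ P := by rw [Dn, dif_pos dvd_rfl, down_self]
    have h2 : ∀ d s, d ≠ P.d → P.d = d * p ^ s → ∃ t, P.d = d * p ^ t * p := fun d s hd e => by
      rcases s with _ | s
      · exact absurd (by simpa using e.symm) hd
      · exact ⟨s, by rw [e, pow_succ, mul_assoc]⟩
    by_cases h : p ∣ P.d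
    · have h3 : P.d / p < P.d := Nat.div_lt_self P.d_pos hp.one_lt
      have h4 := ih _ h3 (P.down (P.d / p) (Nat.div_dvd_of_dvd h)) rfl
      have h5 : θ P = Df p θ P + θ (P.down (P.d / p) (Nat.div_dvd_of_dvd h)) := by
        rw [Df, dif_pos h, sub_add_cancel]
      rw [h5, h4, ← add_sum_erase _ _ h0, ← add_sum_erase _ _ h0, if_neg, if_pos ⟨0, by simp⟩, h1,
        zero_add]
      · congr 1
        refine sum_congr rfl fun d hd => ?_
        by_cases e : ∃ s, P.d / p = d * p ^ s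
        · obtain ⟨s, hs⟩ := e
          have h6 : d ∣ P.d / p := ⟨_, hs⟩
          rw [if_pos ⟨s, hs⟩, if_pos ⟨s + 1, by
            rw [pow_succ, ← mul_assoc, ← hs, Nat.div_mul_cancel h]⟩, Dn, Dn,
            dif_pos (h6.trans (Nat.div_dvd_of_dvd h)),
            dif_pos (show d ∣ (P.down (P.d / p) (Nat.div_dvd_of_dvd h)).d from h6), down_down]
        · rw [if_neg e, if_neg]
          rintro ⟨s, hs⟩
          obtain ⟨t, ht⟩ := h2 d s (mem_erase.1 hd).1 hs
          exact e ⟨t, Nat.div_eq_of_eq_mul_left hp.pos ht⟩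
      · rintro ⟨s, hs⟩
        exact absurd (hs ▸ Nat.le_mul_of_pos_right _ (pow_pos hp.pos s) : P.d ≤ P.d / p) h3.not_ge
    · rw [sum_eq_single_of_mem _ h0, if_pos ⟨0, by simp⟩, h1, Df, dif_neg h, sub_zero]
      refine fun d _ hd => if_neg ?_
      rintro ⟨s, hs⟩
      obtain ⟨t, ht⟩ := h2 d s hd hs
      exact h ⟨_, ht.trans (mul_comm _ _)⟩

variable (Δ k) in
/-- the localisation of `B` at `p` -/
noncomputable def Bl (p : ℕ) : AddSubgroup (Pt Δ k → k) where
  carrier := {f | ∃ u : ℕ, u.Coprime p ∧ u • f ∈ B Δ k}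
  zero_mem' := ⟨1, Nat.coprime_one_left p, by simp⟩
  add_mem' := by
    rintro f g ⟨u, hu, hf⟩ ⟨v, hv, hg⟩
    refine ⟨u * v, hu.mul_left hv, ?_⟩
    rw [smul_add]
    refine add_mem ?_ ?_
    · rw [mul_comm, mul_smul]
      exact nsmul_mem hf v
    · rw [mul_smul]
      exact nsmul_mem hg u
  neg_mem' := by
    rintro f ⟨u, hu, hf⟩
    exact ⟨u, hu, by rw [smul_neg]; exact neg_mem hf⟩

theorem Bl_of_smul {p u : ℕ} (hu : u.Coprime p) {f : Pt Δ k → k} (h : u • f ∈ Bl Δ k p) :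
    f ∈ Bl Δ k p := by
  obtain ⟨v, hv, hf⟩ := h
  exact ⟨v * u, hv.mul_left hu, by rwa [mul_smul]⟩

open Classical in
theorem ind_mem (hB : BASE_st) {p : ℕ} (hp : p.Prime) {d : ℕ} (hd : d ∣ Δ.m) (a : A) {e : ℤ}
    (he : (d : ℤ) ∣ e) :
    (fun P : Pt Δ k => if ∃ s, P.d = d * p ^ s then V d a e P else 0) ∈ Bl Δ k p := by
  have h1 : (fun P : Pt Δ k => if ∃ s, P.d = d * p ^ s then V d a e P else 0) =
      ∑ j ∈ (Δ.m / d).divisors, (if ¬p ∣ j then (ArithmeticFunction.moebius j : ℤ) else 0) •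
        fun P : Pt Δ k => if d * j ∣ P.d then V d a e P else 0 := by
    funext P
    rw [Finset.sum_apply]
    simp only [Pi.smul_apply, zsmul_eq_mul]
    by_cases h : d ∣ P.d
    · have h0 := Nat.pos_of_dvd_of_pos h P.d_pos
      rw [sum_ite_dvd _ P h, ← Int.cast_sum, ← sum_filter,
        ind_pow p hp _ (Nat.div_pos (Nat.le_of_dvd P.d_pos h) h0)]
      have h2 : (∃ s, P.d / d = p ^ s) ↔ ∃ s, P.d = d * p ^ s :=
        exists_congr fun s => Nat.div_eq_iff_eq_mul_right h0 h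
      simp only [h2]
      split_ifs <;> simp
    · simp [V, W_of_not _ e h]
  rw [h1]
  refine sum_mem fun j hj => ?_
  split_ifs with h
  · rw [zero_smul]
    exact zero_mem _
  · refine zsmul_mem ?_ _
    refine ⟨j, ((Nat.Prime.coprime_iff_not_dvd hp).2 h).symm, ?_⟩
    convert V_mem (k := k) (ver Δ d j a) (lev hd he hj).1 (lev hd he hj).2 using 1
    funext P
    rw [(hB A Δ k).2.2.2.2.1, Pi.smul_apply, nsmul_eq_mul, mul_ite, mul_zero]

open Classical in
theorem lev_mem (hB : BASE_st) {p : ℕ} (hp : p.Prime) {θ : Pt Δ ℂ → ℂ} (hθ : ∀ P, θ P.tw = θ P)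
    {d : ℕ} (hd : d ∣ Δ.m) (h : CongrAt p θ d) :
    (fun P : Pt Δ ℂ => if ∃ s, P.d = d * p ^ s then Dn p θ d P else 0) ∈ Bl Δ ℂ p := by
  obtain ⟨u, hu, Z, hZ, h⟩ := h
  have h0 : d ≠ 0 := (Nat.pos_of_dvd_of_pos hd Δ.m_pos).ne'
  have h1 : ∀ r, ∀ P : Pt Δ ℂ, P.d = d → (u : ℂ) * Df p θ P = ∑ x ∈ Z.support, (Z x : ℂ) *
      ∑ t ∈ range (ordProj[p] d), P.ch (t * ordCompl[p] d + r) x.1 * ((P.ω ^ x.2 : ℂˣ) : ℂ) := by
    intro r
    induction r with
    | zero =>
      intro P hP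
      simp only [add_zero, mul_comm _ (ordCompl[p] d)]
      exact h P hP
    | succ r ih =>
      intro P hP
      rw [← Df_tw hθ, ih P.tw hP]
      simp only [tw_ch]
      rfl
  have h2 : ∀ P : Pt Δ ℂ, P.d = d → ((ordCompl[p] d * u : ℕ) : ℂ) * Df p θ P =
      ∑ x ∈ Z.support, (Z x : ℂ) * V d x.1 x.2 P := by
    rintro P hP
    have h3 : ∀ a e, V d a e P = ∑ r ∈ range (ordCompl[p] d), ∑ t ∈ range (ordProj[p] d),
        P.ch (t * ordCompl[p] d + r) a * ((P.ω ^ e : ℂˣ) : ℂ) := fun a e => by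
      rw [sum_comm, ← sum_range_mul fun i => P.ch i a * ((P.ω ^ e : ℂˣ) : ℂ),
        Nat.ordProj_mul_ordCompl_eq_self, ← hP, V_top]
    simp only [h3, mul_sum (range (ordCompl[p] d))]
    rw [sum_comm, ← sum_congr rfl fun r _ => h1 r P hP, sum_const, card_range, nsmul_eq_mul,
      Nat.cast_mul, mul_assoc]
  refine Bl_of_smul ((Nat.coprime_ordCompl hp h0).symm.mul_left hu) ?_
  convert sum_mem (t := Z.support) fun x hx =>
    zsmul_mem (ind_mem (k := ℂ) hB hp hd x.1 (hZ x hx)) (Z x) using 1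
  funext P
  rw [Finset.sum_apply]
  simp only [Pi.smul_apply, zsmul_eq_mul, nsmul_eq_mul]
  split_ifs with e
  · obtain ⟨s, hs⟩ := e
    have h3 : d ∣ P.d := ⟨_, hs⟩
    rw [Dn, dif_pos h3, h2 _ rfl]
    exact sum_congr rfl fun x _ => by rw [(hB A Δ ℂ).2.2.2.2.2.2.1 d x.1 x.2 P d h3 dvd_rfl]
  · simp

end GaussX

open GaussX

theorem gauss (hB : BASE_st) (hW : WV_st) : GAUSS_st := by
  intro A _ Δ k _ p hp
  refine ⟨fun d b e hd he => ?_, fun d a e hd he => ?_⟩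
  · obtain ⟨M, hM⟩ := exists_two p hp
    refine mem_pB.2 ⟨∑ j ∈ (Δ.m / d).divisors, M j •
      W (d * j) (∏ t ∈ range j, sg Δ (t * d) b) (e * j), sum_mem fun j hj => zsmul_mem ?_ _, ?_⟩
    · obtain ⟨h1, h2⟩ := lev hd he hj
      rw [← sub_add_cancel (W _ _ _) (Vl (d * j) (∏ t ∈ range j, sg Δ (t * d) b) (e * j))]
      exact add_mem (Bgt_le_B _ (hW A Δ k _ _ _ h1 h2)) (Vl_mem _ h1 h2)
    · funext P
      rw [Pi.smul_apply, expand hM fun j P => (hB A Δ k).2.2.2.1 d j b e P, W_nsmul, nsmul_eq_mul]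
      by_cases h : d ∣ P.d
      · have := Nat.div_pos (Nat.le_of_dvd P.d_pos h) (Nat.pos_of_dvd_of_pos h P.d_pos)
        push_cast
        rw [← mul_assoc, ← pow_succ', ← pow_mul, Nat.sub_add_cancel (by omega)]
      · rw [W_of_not b e h, mul_zero, mul_zero, mul_zero]
  · obtain ⟨M, hM, h1, h2⟩ := exists_one p hp
    have hd' : d ∣ Δ.m := (dvd_mul_right d p).trans hd
    have h0 := Nat.pos_of_dvd_of_pos hd' Δ.m_pos
    have h3 : p ∈ (Δ.m / d).divisors := Nat.mem_divisors.2 ⟨(Nat.dvd_div_iff_mul_dvd hd').2 hd,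
      (Nat.div_pos (Nat.le_of_dvd Δ.m_pos hd') h0).ne'⟩
    have h4 : (W d (p • MonoidAlgebra.of ℤ A a) e : Pt Δ k → k) =
        ∑ j ∈ (Δ.m / d).divisors, M j • V (d * j) (ver Δ d j a) (e * j) := by
      funext P
      rw [expand hM fun j P => (hB A Δ k).2.2.2.2.1 d j a e P, W_nsmul, Int.cast_pow,
        Int.cast_natCast]
    rw [h4, ← add_sum_erase _ _ h3, add_right_comm, ← add_one_zsmul]
    refine add_mem (AddSubgroup.mem_sup_left (smul_mem_pB h1
      (V_mem _ hd (lev hd' he h3).2))) (sum_mem fun j hj => ?_)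
    obtain ⟨h5, h6⟩ := mem_erase.1 hj
    obtain ⟨h7, h8⟩ := lev hd' he h6
    by_cases h : p ∣ j
    · refine AddSubgroup.mem_sup_right (zsmul_mem (AddSubgroup.subset_closure ?_) _)
      exact ⟨d * j, _, _, h7, mul_dvd_mul_left d h,
        fun e => h5 (Nat.eq_of_mul_eq_mul_left h0 e), h8, rfl⟩
    · exact AddSubgroup.mem_sup_left (smul_mem_pB (h2 j h) (V_mem _ h7 h8))

theorem dwork (hB : BASE_st) : DWORK_st := by
  classical
  intro A _ Δ p θ hp hθ h
  have h1 : θ = ∑ d ∈ Δ.m.divisors,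
      fun P : Pt Δ ℂ => if ∃ s, P.d = d * p ^ s then Dn p θ d P else 0 := by
    funext P
    rw [Finset.sum_apply]
    exact tele hp θ _ P rfl
  change θ ∈ Bl Δ ℂ p
  rw [h1]
  exact sum_mem fun d hd =>
    lev_mem hB hp hθ (Nat.dvd_of_mem_divisors hd) (h d (Nat.dvd_of_mem_divisors hd))

end Pool.Agent.MP_f3cd89_nt

end

section

/-! The triangularity step. -/

set_option autoImplicit false

open Finset

namespace Pool.Agent.MP_f3cd89_nt

namespace TriX

theorem prod_block {M : Type} [CommMonoid M] (F : ℕ → M) (g f : ℕ) :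
    ∏ j ∈ range (f * g), F j = ∏ t ∈ range f, ∏ i ∈ range g, F (i + t * g) := by
  induction f with
  | zero => simp
  | succ f ih => rw [Nat.succ_mul, prod_range_add, ih, prod_range_succ]; simp only [add_comm]

theorem prod_shift {M : Type} [CommMonoid M] {F : ℕ → M} {D : ℕ} (h : ∀ j, F (j + D) = F j)
    (n : ℕ) : ∏ j ∈ range D, F (j + n) = ∏ j ∈ range D, F j := by
  induction n with
  | zero => rfl
  | succ n ih =>
    rw [← ih]
    cases D with
    | zero => rfl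
    | succ D =>
      rw [prod_range_succ, prod_range_succ' (fun j => F (j + n))]
      congr 1
      · exact prod_congr rfl fun j _ => by congr 1; ring
      · rw [← h (0 + n)]; congr 1; ring

variable {d : ℕ}

variable (d) in
/-- translation of subsets -/
def tau : Equiv.Perm (ZMod d → Bool) where
  toFun u i := u (i - 1)
  invFun u i := u (i + 1)
  left_inv u := by ext; simp
  right_inv u := by ext; simp

theorem tau_pow (n : ℕ) (u : ZMod d → Bool) (i : ZMod d) : (tau d ^ n) u i = u (i - n) := by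
  induction n generalizing i with
  | zero => simp
  | succ n ih =>
    rw [pow_succ', Equiv.Perm.mul_apply]
    change (tau d ^ n) u (i - 1) = _
    rw [ih]
    congr 1
    push_cast
    ring

/-- the period of a subset -/
noncomputable abbrev mp (u : ZMod d → Bool) : ℕ := Function.minimalPeriod (tau d) u

theorem mp_dvd {u : ZMod d → Bool} {n : ℕ} : mp u ∣ n ↔ ∀ i, u (i - n) = u i := by
  rw [← Function.isPeriodicPt_iff_minimalPeriod_dvd, Function.IsPeriodicPt, Function.IsFixedPt,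
    ← Equiv.Perm.coe_pow, funext_iff]
  simp only [tau_pow]

theorem mp_dvd_self (u : ZMod d → Bool) : mp u ∣ d := mp_dvd.2 fun i => by simp

theorem per {u : ZMod d → Bool} {n : ℕ} (h : mp u ∣ n) (i : ZMod d) : u (i + n) = u i := by
  rw [← mp_dvd.1 h, add_sub_cancel_right]

theorem mp_tau (u : ZMod d → Bool) (n D : ℕ) : mp ((tau d ^ n) u) ∣ D ↔ mp u ∣ D := by
  simp only [mp_dvd, tau_pow]
  refine ⟨fun h i => ?_, fun h i => by rw [sub_right_comm, h]⟩
  have := h (i + n)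
  rwa [sub_right_comm, add_sub_cancel_right] at this

variable {k : Type} [CommRing k]

/-- the term of the determinant attached to a subset -/
noncomputable def G (x : ℕ → k) (D : ℕ) (u : ZMod d → Bool) : k :=
  if mp u ∣ D then (∏ i ∈ range (D.gcd d), if u i then -1 else 1) *
    ∏ j ∈ range D, (if u j then x j else 1) else 0

theorem sum_G [NeZero d] (x : ℕ → k) (D : ℕ) : ∑ u : ZMod d → Bool, G x D u =
    ∏ i ∈ range (D.gcd d), (1 - ∏ t ∈ range (D / D.gcd d), x (i + t * D.gcd d)) := by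
  have hg : 0 < D.gcd d := Nat.gcd_pos_of_pos_right _ (NeZero.pos d)
  let φ := ZMod.castHom (Nat.gcd_dvd_right D d) (ZMod (D.gcd d))
  have hφ : ∀ n : ℕ, (φ n).val = n % D.gcd d := fun n => by rw [map_natCast, ZMod.val_natCast]
  simp only [sub_eq_add_neg, prod_one_add, G]
  rw [← sum_filter]
  refine sum_nbij' (fun u => (range (D.gcd d)).filter fun i : ℕ => u i)
    (fun S a => decide ((φ a).val ∈ S)) (fun u _ => by simp) (fun S _ => ?_)
    (fun u hu => ?_) (fun S hS => ?_) fun u hu => ?_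
  · refine mem_filter.2 ⟨mem_univ _, mp_dvd.2 fun i => ?_⟩
    rw [map_sub, map_natCast, (ZMod.natCast_eq_zero_iff _ _).2 (Nat.gcd_dvd_left D d), sub_zero]
  · funext a
    obtain ⟨n, rfl⟩ := ZMod.natCast_zmod_surjective a
    have h1 : mp u ∣ D.gcd d * (n / D.gcd d) :=
      (Nat.dvd_gcd (mem_filter.1 hu).2 (mp_dvd_self u)).mul_right _
    have h2 := per h1 (n % D.gcd d : ℕ)
    rw [← Nat.cast_add, Nat.mod_add_div] at h2
    simp only [hφ, mem_filter, mem_range, Nat.mod_lt _ hg, true_and, Bool.decide_eq_true, h2]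
  · ext i
    have h1 := mem_powerset.1 hS
    simp only [hφ, mem_filter, mem_range, decide_eq_true_eq]
    exact ⟨fun h => by simpa only [Nat.mod_eq_of_lt h.1] using h.2, fun h =>
      have h2 := mem_range.1 (h1 h)
      ⟨h2, by rwa [Nat.mod_eq_of_lt h2]⟩⟩
  · have h1 : mp u ∣ D.gcd d := Nat.dvd_gcd (mem_filter.1 hu).2 (mp_dvd_self u)
    have h2 := prod_block (fun j => if u j then x j else 1) (D.gcd d) (D / D.gcd d)
    rw [Nat.div_mul_cancel (Nat.gcd_dvd_left D d), prod_comm] at h2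
    rw [h2, prod_filter, ← prod_mul_distrib]
    refine prod_congr rfl fun i _ => ?_
    have h3 : ∀ t : ℕ, u (i + t * D.gcd d : ℕ) = u i := fun t => by
      rw [Nat.cast_add, per (h1.mul_left t)]
    simp only [h3]
    split_ifs <;> simp

/-- the subset in one period -/
noncomputable def S1 (u : ZMod d → Bool) : Finset ℕ := (range (mp u)).filter fun i : ℕ => u i

theorem G_tau {x : ℕ → k} {D : ℕ} (hx : ∀ j, x (j + D) = x j) {u : ZMod d → Bool} (h : mp u ∣ D)
    (n : ℕ) : G x D ((tau d ^ n) u) = ((-1) ^ (S1 u).card) ^ (D.gcd d / mp u) *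
      ∏ t ∈ range (D / mp u), ∏ i ∈ S1 u, x (n + t * mp u + i) := by
  have h1 : mp u ∣ D.gcd d := Nat.dvd_gcd h (mp_dvd_self u)
  have h3 : ∀ i t : ℕ, u (i + t * mp u : ℕ) = u i := fun i t => by
    rw [Nat.cast_add, per (dvd_mul_left (mp u) t)]
  rw [G, if_pos ((mp_tau u n D).2 h)]
  simp only [tau_pow]
  congr 1
  · rw [← prod_shift (F := fun i : ℕ => if u (i - n) then (-1 : k) else 1)
      (fun j => by rw [Nat.cast_add, add_sub_right_comm, per h1]) n]
    simp only [Nat.cast_add, add_sub_cancel_right]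
    have h2 := prod_block (fun j : ℕ => if u j then (-1 : k) else 1) (mp u) (D.gcd d / mp u)
    rw [Nat.div_mul_cancel h1] at h2
    rw [h2]
    simp only [h3]
    rw [prod_const, card_range, ← prod_filter, prod_const, S1]
  · rw [← prod_shift (F := fun i : ℕ => if u (i - n) then x i else 1)
      (fun j => by rw [Nat.cast_add, add_sub_right_comm, per h, hx]) n]
    simp only [Nat.cast_add, add_sub_cancel_right]
    have h2 := prod_block (fun j : ℕ => if u j then x (j + n) else 1) (mp u) (D / mp u)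
    rw [Nat.div_mul_cancel h] at h2
    rw [h2]
    simp only [h3]
    refine prod_congr rfl fun t _ => ?_
    rw [← prod_filter, S1]
    exact prod_congr rfl fun i _ => by congr 1; ring

variable {A : Type} [CommGroup A] {Δ : Dat A}

/-- the weights of the shift -/
noncomputable def xw (d : ℕ) (h : MonoidAlgebra ℤ A) (P : Pt Δ k) (j : ℕ) : k :=
  lam P j h * ((P.ω ^ (d : ℤ) : kˣ) : k)

theorem xw_per (h : MonoidAlgebra ℤ A) (P : Pt Δ k) (j : ℕ) : xw d h P (j + P.d) = xw d h P j := by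
  have := lam_add_mul P j 1
  rw [one_mul] at this
  rw [xw, this, xw]

theorem orbit (h : MonoidAlgebra ℤ A) (u : ZMod d → Bool) (P : Pt Δ k) :
    ∑ n ∈ range (mp u), G (xw d h P) P.d ((tau d ^ n) u) =
      ((-1) ^ (S1 u).card) ^ (P.d.gcd d / mp u) *
        W (mp u) (∏ i ∈ S1 u, sg Δ i h) (d * (S1 u).card) P := by
  rw [W]
  split_ifs with hd
  · rw [mul_sum]
    refine sum_congr rfl fun n _ => ?_
    rw [G_tau (xw_per h P) hd]
    congr 1
    refine prod_congr rfl fun t _ => ?_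
    simp only [xw, map_prod, lam_sg, prod_mul_distrib, prod_const, zpow_mul, zpow_natCast,
      Units.val_pow_eq_pow_val]
  · rw [mul_zero]
    exact sum_eq_zero fun n _ => if_neg fun e => hd ((mp_tau u n _).1 e)

theorem W_neg (d : ℕ) (b : MonoidAlgebra ℤ A) (e : ℤ) (P : Pt Δ k) :
    W d (-b) e P = (-1) ^ (P.d / d) * W d b e P := by
  simp only [W, map_neg, neg_mul, prod_neg, card_range, ← mul_sum]
  split_ifs <;> simp

theorem even_iff {a n : ℕ} (ha : 0 < a) (h : a ∣ n) : Even (n / a) ↔ a * 2 ∣ n := by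
  obtain ⟨c, rfl⟩ := h
  rw [Nat.mul_div_cancel_left _ ha, even_iff_two_dvd, Nat.mul_dvd_mul_iff_left ha]

theorem sign_mem {N : AddSubgroup (Pt Δ k → k)} {a : ℕ} (ha : 0 < a) (had : a ∣ d)
    {b : MonoidAlgebra ℤ A} {e : ℤ} (h1 : W a b e ∈ N) (h2 : W a (-b) e ∈ N) (c : ℕ) :
    (fun P : Pt Δ k => ((-1) ^ c) ^ (P.d.gcd d / a) * W a b e P) ∈ N := by
  rcases Nat.even_or_odd c with hc | hc
  · simpa only [hc.neg_one_pow, one_pow, one_mul] using h1
  rw [hc.neg_one_pow]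
  by_cases h : a * 2 ∣ d
  · convert h2 using 1
    funext P
    rw [W_neg]
    by_cases hP : a ∣ P.d
    · congr 1
      rw [neg_one_pow_eq_ite, neg_one_pow_eq_ite]
      simp only [even_iff ha hP, even_iff ha (Nat.dvd_gcd hP had), Nat.dvd_gcd_iff, h, and_true]
    · simp only [W, if_neg hP, mul_zero]
  · convert neg_mem h1 using 1
    funext P
    by_cases hP : a ∣ P.d
    · rw [neg_one_pow_eq_ite, if_neg, neg_one_mul, Pi.neg_apply]
      rw [even_iff ha (Nat.dvd_gcd hP had)]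
      exact fun e => h (e.trans (Nat.gcd_dvd_right _ _))
    · simp only [Pi.neg_apply, W, if_neg hP, mul_zero, neg_zero]

theorem det_eq (hD : DET_st) [NeZero d] (h : MonoidAlgebra ℤ A) (P : Pt Δ k) :
    (rho P (Finsupp.single 0 1 + Finsupp.single (d : ℤ) (-h))).det =
      ∑ u : ZMod d → Bool, G (xw d h P) P.d u := by
  have := hD k P.d d (xw d h P) 1 (xw_per h P)
  simp only [Int.gcd_natCast_natCast, one_pow] at this
  rw [sum_G, ← this]
  congr 1
  ext i j
  rw [rho, rhoG_add, Matrix.add_apply, rhoG_single, rhoG_single]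
  simp only [Matrix.sub_apply, one_smul, Matrix.one_apply, Matrix.of_apply, Int.cast_zero, add_zero,
    map_one, zpow_zero, Units.val_one, mul_one, map_neg, eq_comm (a := i), xw, lam]
  split_ifs <;> simp [sub_eq_add_neg]

/-- singletons -/
def dl (a : ZMod d) : ZMod d → Bool := fun i => decide (i = a)

theorem tau_dl (n : ℕ) (u : ZMod d → Bool) : (tau d ^ n) u = dl 0 ↔ u = dl (-n : ZMod d) := by
  simp only [funext_iff, tau_pow, dl]
  refine ⟨fun h i => ?_, fun h i => by rw [h]; simp [sub_eq_iff_eq_add]⟩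
  have := h (i + n)
  rw [add_sub_cancel_right] at this
  simp [this, add_eq_zero_iff_eq_neg]

theorem dl_inj {a b : ZMod d} (h : dl a = dl b) : a = b := by
  simpa [dl] using congrFun h a

theorem mp_dl (a : ZMod d) : mp (dl a) = d := by
  refine Nat.dvd_antisymm (mp_dvd_self _) ?_
  have := per (dvd_refl (mp (dl a))) a
  simpa [dl, ZMod.natCast_eq_zero_iff] using this

theorem S1_dl [NeZero d] (a : ZMod d) : S1 (dl a) = {a.val} := by
  ext i
  simp only [S1, mp_dl, dl, mem_filter, mem_range, decide_eq_true_eq, mem_singleton]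
  constructor
  · rintro ⟨h, rfl⟩
    exact (ZMod.val_natCast_of_lt h).symm
  · rintro rfl
    exact ⟨a.val_lt, ZMod.natCast_zmod_val a⟩

theorem eq_dl [NeZero d] {u : ZMod d → Bool} (h : mp u = d) {i : ℕ} (hi : S1 u = {i}) :
    u = dl (i : ZMod d) := by
  have h1 : ∀ j, j < d ∧ u j = true ↔ j = i := fun j => by
    rw [← mem_singleton (b := j), ← hi, S1, h, mem_filter, mem_range]
  funext a
  have h2 := h1 a.val
  rw [ZMod.natCast_zmod_val, and_iff_right a.val_lt] at h2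
  rw [Bool.eq_iff_iff, h2, dl, decide_eq_true_eq]
  constructor
  · rintro rfl
    exact (ZMod.natCast_zmod_val a).symm
  · rintro rfl
    exact ZMod.val_natCast_of_lt ((h1 i).2 rfl).1

theorem mp_empty [NeZero d] {u : ZMod d → Bool} (h : S1 u = ∅) : mp u = 1 := by
  have h0 : 0 < mp u := Nat.pos_of_dvd_of_pos (mp_dvd_self u) (NeZero.pos d)
  have h1 : ∀ a, u a = false := fun a => by
    obtain ⟨n, rfl⟩ := ZMod.natCast_zmod_surjective a
    have h2 := per (dvd_mul_right (mp u) (n / mp u)) (n % mp u : ℕ)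
    rw [← Nat.cast_add, Nat.mod_add_div] at h2
    rw [h2]
    simpa using filter_eq_empty_iff.1 h (mem_range.2 (Nat.mod_lt n h0))
  exact Nat.dvd_one.1 (mp_dvd.2 fun i => by rw [h1, h1])

end TriX

open TriX in
theorem tri (hD : DET_st) (hO : ORB_st) (hB : BASE_st) (hR : RING_st) : TRI_st := by
  intro A _ Δ k _ N I hJ hN hI hII d
  obtain ⟨b1, b2, -⟩ := hB A Δ k
  obtain ⟨r1, -, r3, -, r5, -⟩ := hR A Δ k
  induction d using Nat.strong_induction_on with
  | _ d ih =>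
  intro e h hd he hh
  have : NeZero d := ⟨(Nat.pos_of_dvd_of_pos hd Δ.m_pos).ne'⟩
  have key : (W d h d : Pt Δ k → k) ∈ N := by
    classical
    have h1 := hO _ N _ (tau d) (fun u => (fun P : Pt Δ k => G (xw d h P) P.d u) +
      if u = dl 0 then W d h d else 0) fun u => by
      have h0 : 0 < mp u := Nat.pos_of_dvd_of_pos (mp_dvd_self u) (NeZero.pos d)
      have e1 : ∑ n ∈ range (mp u), (fun P : Pt Δ k => G (xw d h P) P.d ((tau d ^ n) u)) =
          fun P => ((-1) ^ (S1 u).card) ^ (P.d.gcd d / mp u) *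
            W (mp u) (∏ i ∈ S1 u, sg Δ i h) (d * (S1 u).card) P := by
        funext P
        rw [Finset.sum_apply, orbit]
      rw [sum_add_distrib, e1]
      by_cases hu : ∃ a, u = dl a
      · obtain ⟨a, rfl⟩ := hu
        rw [S1_dl, mp_dl, sum_eq_single (-a).val, if_pos ((tau_dl _ _).2 (by simp))]
        · convert N.zero_mem using 1
          funext P
          rw [Pi.add_apply, card_singleton, prod_singleton, b2, pow_one, Nat.cast_one, mul_one]
          by_cases hP : d ∣ P.d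
          · rw [Nat.gcd_eq_right hP, Nat.div_self (NeZero.pos d)]
            simp
          · simp [W, hP]
        · intro n hn hne
          refine if_neg fun e => hne ?_
          rw [dl_inj ((tau_dl _ _).1 e), neg_neg,
            ZMod.val_natCast_of_lt ((mem_range.1 hn).trans_eq (mp_dl a))]
        · exact fun e => (e (mem_range.2 ((ZMod.val_lt _).trans_eq (mp_dl a).symm))).elim
      · rw [sum_eq_zero fun n _ => if_neg fun e => hu ⟨_, (tau_dl _ _).1 e⟩, add_zero]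
        have hm : mp u ∣ Δ.m := (mp_dvd_self u).trans hd
        have he1 : (mp u : ℤ) ∣ d * (S1 u).card :=
          (Int.natCast_dvd_natCast.2 (mp_dvd_self u)).mul_right _
        rcases (S1 u).eq_empty_or_nonempty with h2 | ⟨i, hi⟩
        · convert hJ r1 using 1
          funext P
          simp [h2, mp_empty h2, W]
        rcases ((S1 u).erase i).eq_empty_or_nonempty with h3 | ⟨j, hj⟩
        · have h4 : S1 u = {i} := by rw [← insert_erase hi, h3]; rfl
          have h5 : mp u < d := lt_of_le_of_ne (Nat.le_of_dvd (NeZero.pos d) (mp_dvd_self u))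
            fun e => hu ⟨_, eq_dl e h4⟩
          have h6 : ∏ i ∈ S1 u, sg Δ i h ∈ I := by rw [h4, prod_singleton]; exact hI i h hh
          exact sign_mem h0 (mp_dvd_self u) (ih _ h5 _ _ hm he1 h6)
            (ih _ h5 _ _ hm he1 (neg_mem h6)) _
        · have h6 : ∏ i ∈ S1 u, sg Δ i h ∈ I * I := by
            rw [← mul_prod_erase _ _ hi, ← mul_prod_erase _ _ hj]
            exact Ideal.mul_mem_mul (hI i h hh) (I.mul_mem_right _ (hI j h hh))
          exact sign_mem h0 (mp_dvd_self u) (hII _ _ _ hm he1 h6)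
            (hII _ _ _ hm he1 (neg_mem h6)) _
    rw [sum_add_distrib, sum_ite_eq', if_pos (mem_univ _)] at h1
    refine (add_mem_cancel_left ?_).1 h1
    convert hJ (r3 (Finsupp.single 0 1 + Finsupp.single (d : ℤ) (-h))) using 1
    funext P
    rw [Finset.sum_apply, det_eq hD]
  obtain ⟨q, rfl⟩ := he
  convert hN _ (r5 (q - 1)) _ key using 1
  funext P
  rw [Pi.mul_apply, mul_comm _ (W d h d P), ← b1]
  congr 1
  ring

end Pool.Agent.MP_f3cd89_nt

end

section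

/-! The determinant of the test element. -/

set_option autoImplicit false

open Finset

namespace Pool.Agent.MP_f3cd89_nt

namespace TestX

theorem sum_blocks {k : Type} [CommRing k] (g : ℕ → k) (x : k) (r q : ℕ)
    (h : ∀ n, g (n + r) = x * g n) :
    ∑ n ∈ range (r * q), g n = (∑ t ∈ range q, x ^ t) * ∑ n ∈ range r, g n := by
  have h1 : ∀ t n, g (r * t + n) = x ^ t * g n := by
    intro t n
    induction t with
    | zero => simp
    | succ t ih => rw [Nat.mul_succ, add_right_comm, h, ih, pow_succ', mul_assoc]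
  induction q with
  | zero => simp
  | succ q ih =>
    rw [Nat.mul_succ, sum_range_add, ih, sum_range_succ, add_mul, mul_sum _ _ (x ^ q)]
    simp only [h1]

theorem inj {d s r n n' : ℕ} (hd : d = s * r) (hs : s ≠ 0) (hn : n < r) (hn' : n' < r)
    (h : ((s * n : ℕ) : ZMod d) = (s * n' : ℕ)) : n = n' := by
  rw [ZMod.natCast_eq_natCast_iff, hd] at h
  exact (Nat.ModEq.mul_left_cancel' hs h).eq_of_lt_of_lt hn hn'

theorem det_main {k : Type} [Field k] [DecidableEq k] {d s r : ℕ} [NeZero d] (q : ℕ)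
    (hd : d = s * r) (κ t : k)
    (hκ : κ ^ (r * q) = 1) (i0 : ZMod d) (Q : ZMod d → Prop) [DecidablePred Q]
    (hQ : ∀ i, Q i ↔ ∃ n < r, i = i0 + (s * n : ℕ)) :
    (1 + Matrix.of fun i j : ZMod d => if Q i then
      t * ∑ n ∈ range (r * q), (if j = i + (s * n : ℕ) then κ ^ n else 0) else 0).det =
      if κ ^ r = 1 then 1 + t * (r * q : ℕ) else 1 := by
  have h0 : s * r ≠ 0 := hd ▸ NeZero.ne d
  have hs : s ≠ 0 := left_ne_zero_of_mul h0
  have hr : r ≠ 0 := right_ne_zero_of_mul h0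
  have hz : ((s * r : ℕ) : ZMod d) = 0 := by rw [← hd, ZMod.natCast_self]
  have hb : ∀ i j : ZMod d, ∑ n ∈ range (r * q), (if j = i + (s * n : ℕ) then κ ^ n else 0) =
      (∑ t ∈ range q, (κ ^ r) ^ t) *
        ∑ n ∈ range r, (if j = i + (s * n : ℕ) then κ ^ n else 0) := fun i j =>
    sum_blocks _ _ r q fun n => by
      rw [mul_add, Nat.cast_add, hz, add_zero, pow_add, mul_ite, mul_zero, mul_comm (κ ^ n)]
  simp only [hb]
  split_ifs with h1
  · obtain ⟨S, hS⟩ : ∃ S : ZMod d → ZMod d → k, ∀ i j,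
      S i j = ∑ n ∈ range r, (if j = i + (s * n : ℕ) then κ ^ n else 0) := ⟨_, fun _ _ => rfl⟩
    have hκ0 : κ ≠ 0 := by
      rintro rfl
      simp [hr] at h1
    have s1 : ∀ i j, S i j = κ * S (i + s) j := fun i j => by
      have a := sum_range_succ (fun n => if j = i + (s * n : ℕ) then κ ^ n else 0) r
      have b := sum_range_succ' (fun n => if j = i + (s * n : ℕ) then κ ^ n else 0) r
      rw [a, hz, h1, mul_zero, Nat.cast_zero, pow_zero, add_left_inj] at b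
      rw [hS, hS, b, mul_sum]
      refine sum_congr rfl fun n _ => ?_
      rw [mul_ite, mul_zero, pow_succ', mul_add, mul_one, Nat.cast_add, add_assoc,
        add_comm (s : ZMod d)]
    have s2 : ∀ (n : ℕ) i j, S i j = κ ^ n * S (i + (s * n : ℕ)) j := fun n i j => by
      induction n with
      | zero => simp
      | succ n ih => rw [ih, s1, Nat.mul_succ, Nat.cast_add, add_assoc, pow_succ, mul_assoc]
    have s3 : ∀ i, S i i = 1 := fun i => by
      rw [hS, sum_eq_single_of_mem 0 (mem_range.2 (Nat.pos_of_ne_zero hr)) fun n hn h =>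
        if_neg fun e => h (inj hd hs (mem_range.1 hn) (Nat.pos_of_ne_zero hr)
          (by simpa using e.symm))]
      simp
    obtain ⟨u, hu⟩ : ∃ u : ZMod d → k, ∀ i,
      u i = ∑ n ∈ range r, (if i = i0 + (s * n : ℕ) then κ⁻¹ ^ n else 0) := ⟨_, fun _ => rfl⟩
    have e : ∀ i j, u i * S i0 j = if Q i then S i j else 0 := fun i j => by
      rw [hu]
      split_ifs with h
      · obtain ⟨n, hn, rfl⟩ := (hQ i).1 h
        rw [sum_eq_single_of_mem n (mem_range.2 hn) fun n' hn' h => if_neg fun e =>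
          h (inj hd hs (mem_range.1 hn') hn (add_left_cancel e).symm), if_pos rfl, s2 n i0,
          ← mul_assoc, ← mul_pow, inv_mul_cancel₀ hκ0, one_pow, one_mul]
      · rw [sum_eq_zero fun n hn => if_neg fun e => h ((hQ i).2 ⟨n, mem_range.1 hn, e⟩), zero_mul]
    have e2 : (Matrix.of fun i j : ZMod d => if Q i then t * ((∑ t ∈ range q, (κ ^ r) ^ t) *
        ∑ n ∈ range r, (if j = i + (s * n : ℕ) then κ ^ n else 0)) else 0) =
        Matrix.replicateCol Unit (fun i => t * q * u i) * Matrix.replicateRow Unit (S i0) := by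
      ext i j
      rw [Matrix.of_apply, ← Matrix.vecMulVec_eq, Matrix.vecMulVec_apply, mul_assoc, e, ← hS, h1]
      simp [mul_assoc]
    rw [e2, Matrix.det_one_add_replicateCol_mul_replicateRow, dotProduct]
    congr 1
    have e3 : ∑ i, u i * S i0 i = r := by
      simp only [hu, sum_mul]
      rw [sum_comm, sum_congr rfl (g := fun _ => 1), sum_const, card_range, nsmul_one]
      intro n _
      simp only [ite_mul, zero_mul, sum_ite_eq', mem_univ, if_true]
      rw [s2 n i0, s3, mul_one, ← mul_pow, inv_mul_cancel₀ hκ0, one_pow]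
    rw [Nat.cast_mul, ← e3, sum_mul, mul_sum]
    exact sum_congr rfl fun i _ => by ring
  · have : ∑ t ∈ range q, (κ ^ r) ^ t = 0 := by
      rw [geom_sum_eq h1, ← pow_mul, hκ, sub_self, zero_div]
    simp only [this, zero_mul, mul_zero, ite_self]
    rw [show (Matrix.of fun _ _ : ZMod d => (0 : k)) = 0 from rfl, add_zero, Matrix.det_one]

theorem sub_pow {k : Type} [Field k] {p f M : ℕ} [Fact p.Prime] [CharP k p] (h : M + 1 = p ^ f)
    {u v : k} (hu : u ^ M = 1) (hv : v ^ M = 1) (huv : u ≠ v) : (u - v) ^ M = 1 := by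
  have e : (u - v) ^ p ^ f = u - v := by
    rw [sub_pow_char_pow, ← h, pow_succ, pow_succ, hu, hv, one_mul, one_mul]
  rw [← h, pow_succ] at e
  exact mul_right_cancel₀ (sub_ne_zero.2 huv) (e.trans (one_mul _).symm)

variable {A : Type} [CommGroup A] {Δ : Dat A} {k : Type}

theorem rhoG_sum [CommRing k] (γ : k →+* k) (P : Pt Δ k) (s : Finset ℕ)
    (y : ℕ → ℤ →₀ MonoidAlgebra k A) (i j : ZMod P.d) :
    rhoG γ P (∑ n ∈ s, y n) i j = ∑ n ∈ s, rhoG γ P (y n) i j := by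
  induction s using Finset.cons_induction with
  | empty => simp [rhoG_zero]
  | cons a s ha ih => rw [sum_cons, sum_cons, rhoG_add, Matrix.add_apply, ih]

theorem per {G : Type} (η : A → G) {s : ℕ} (h : ∀ i, (∀ a, η ((Δ.σ ^ i) a) = η a) ↔ s ∣ i)
    (a b : ℕ) : (∀ x, η ((Δ.σ ^ a) x) = η ((Δ.σ ^ b) x)) ↔ a ≡ b [MOD s] := by
  wlog hab : a ≤ b generalizing a b
  · rw [Nat.ModEq.comm, ← this b a (le_of_not_ge hab)]
    exact forall_congr' fun x => eq_comm
  obtain ⟨u, rfl⟩ := Nat.exists_eq_add_of_le' hab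
  rw [Nat.modEq_iff_dvd' hab, Nat.add_sub_cancel, ← h,
    (Δ.σ ^ a).surjective.forall (p := fun x => η ((Δ.σ ^ u) x) = η x)]
  exact forall_congr' fun x => by rw [pow_add, MulAut.mul_apply, eq_comm]

end TestX

open TestX in
theorem test : TEST_st := by
  classical
  intro A _ _ Δ p _ f s M γ η l c P hf hM hη hl hP hω hs hd
  have hM0 : M ≠ 0 := by
    rintro rfl
    exact (Nat.one_lt_pow hf.ne' (Fact.out : p.Prime).one_lt).ne hM
  have hγ : ∀ x : (Kb p)ˣ, x ^ M = 1 → γ x ^ M = 1 := fun x hx => by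
    rw [← map_pow, ← Units.val_pow_eq_pow_val, hx, Units.val_one, map_one]
  have hl0 : γ l ≠ 0 := (map_ne_zero γ).2 l.ne_zero
  have h1 : ∀ i, lamG γ P i (∏ a : A, (1 - (MonoidAlgebra.single a 1 -
      MonoidAlgebra.single 1 (η a : Kb p)) ^ M)) = if ∀ a, P.ch i a = γ (η a) then 1 else 0 := by
    intro i
    simp only [map_prod, map_sub, map_one, map_pow, lamG_single, one_mul, Units.val_one, mul_one]
    split_ifs with h
    · exact prod_eq_one fun a _ => by rw [← Pt.ch_apply, h, sub_self, zero_pow hM0, sub_zero]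
    · obtain ⟨a, ha⟩ := not_forall.1 h
      refine prod_eq_zero (mem_univ a) ?_
      rw [Pt.ch_apply] at ha
      rw [sub_pow hM (by rw [← Units.val_pow_eq_pow_val, hP, Units.val_one]) (hγ _ (hη a)) ha,
        sub_self]
  have h2 : rhoG γ P (testEl s M η l c) = 1 + Matrix.of fun i j : ZMod P.d =>
      if ∀ a, P.ch i.val a = γ (η a) then (1 - γ c) * ∑ n ∈ range M,
        (if j = i + (s * n : ℕ) then ((γ l)⁻¹ * P.ω ^ s) ^ n else 0) else 0 := by
    ext i j
    rw [testEl, rhoG_add, Matrix.add_apply, Matrix.add_apply, rhoG_sum, rhoG_single,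
      Matrix.one_apply, Matrix.of_apply]
    congr 1
    · simp [eq_comm]
    · simp only [rhoG_single, map_mul, h1, lamG_single, Int.cast_natCast, zpow_natCast]
      split_ifs
      · rw [mul_sum]
        refine sum_congr rfl fun n _ => ?_
        split_ifs
        · simp [mul_pow, pow_mul, mul_assoc]
        · rw [mul_zero]
      · simp
  rw [h2]
  by_cases h : ∃ i, ∀ a, P.ch i a = γ (η a)
  · obtain ⟨q, rfl⟩ := hd h
    obtain ⟨i0, h0⟩ := id h
    have h3 : ∀ i, (∀ a, P.η ((Δ.σ ^ i) a) = P.η a) ↔ s ∣ i := fun i => by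
      rw [← hs, (Δ.σ ^ i0).surjective.forall]
      refine forall_congr' fun a => ?_
      rw [← MulAut.mul_apply, ← pow_add, add_comm, pow_add, MulAut.mul_apply, Units.ext_iff,
        ← Pt.ch_apply, ← Pt.ch_apply, h0, h0, γ.injective.eq_iff, Units.ext_iff]
    have h4 : s ∣ P.d := (h3 _).1 P.inv
    have h5 : P.d = s * (P.d / s) := (Nat.mul_div_cancel' h4).symm
    have h6 : ∀ i, (∀ a, P.ch i a = γ (η a)) ↔ i ≡ i0 [MOD s] := fun i => by
      rw [← per P.η h3]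
      exact forall_congr' fun a => by rw [← h0, Pt.ch_apply, Pt.ch_apply, Units.ext_iff]
    rw [det_main q h5 ((γ l)⁻¹ * P.ω ^ s) _ (by
      rw [mul_pow, inv_pow, hγ l hl, ← pow_mul, mul_comm s, pow_mul, ← Units.val_pow_eq_pow_val,
        hω]
      simp) (i0 : ZMod P.d) (fun i => ∀ a, P.ch i.val a = γ (η a)) fun i => ?_]
    · have e : ((P.d / s * q : ℕ) : Kb p) = -1 := by
        rw [eq_neg_iff_add_eq_zero, ← Nat.cast_succ, Nat.succ_eq_add_one, hM, Nat.cast_pow,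
          CharP.cast_eq_zero, zero_pow hf.ne']
      refine if_congr ?_ (by rw [e]; ring) rfl
      rw [and_iff_right h, mul_pow, inv_pow, ← pow_mul, ← h5,
        inv_mul_eq_one₀ (pow_ne_zero _ hl0)]
    · rw [h6]
      constructor
      · intro e
        have e1 : (i - i0).val + i0 ≡ i.val [MOD P.d] := by
          rw [← ZMod.natCast_eq_natCast_iff]
          simp
        obtain ⟨n, hn⟩ := Nat.modEq_zero_iff_dvd.1
          (Nat.ModEq.add_right_cancel' i0 (((e1.of_dvd h4).trans e).trans (by rw [zero_add])))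
        refine ⟨n, lt_of_mul_lt_mul_left (a := s) ?_ (Nat.zero_le _), ?_⟩
        · rw [← hn, ← h5]
          exact ZMod.val_lt _
        · rw [← hn]
          simp
      · rintro ⟨n, -, e⟩
        have e1 : i.val ≡ i0 + s * n [MOD P.d] := by
          rw [← ZMod.natCast_eq_natCast_iff, ZMod.natCast_zmod_val, e, Nat.cast_add]
        exact (e1.of_dvd h4).trans (by simp [Nat.ModEq])
  · rw [if_neg fun h' => h h'.1]
    simp only [if_neg fun h' => h ⟨_, h'⟩]
    rw [show (Matrix.of fun _ _ : ZMod P.d => (0 : Kb p)) = 0 from rfl, add_zero, Matrix.det_one]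

end Pool.Agent.MP_f3cd89_nt

end

section

/-! Reduced norms separate the points that the functions `V` separate. -/

set_option autoImplicit false

open Finset

namespace Pool.Agent.MP_f3cd89_nt

namespace SepX

variable {A : Type} [CommGroup A] {Δ : Dat A}

variable (Δ) in
/-- invariance under `σ ^ i` -/
def Iv {β : Type} (ψ : A → β) (i : ℕ) : Prop := ∀ a, ψ ((Δ.σ ^ i) a) = ψ a

lemma exists_period {β : Type} (ψ : A → β) : ∃ s, ∀ i, Iv Δ ψ i ↔ s ∣ i := by
  let T : (A → β) → A → β := fun φ a => φ (Δ.σ a)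
  have h : ∀ i φ a, T^[i] φ a = φ ((Δ.σ ^ i) a) := by
    intro i
    induction i with
    | zero => simp
    | succ i ih =>
      intro φ a
      rw [Function.iterate_succ_apply, ih, pow_succ', MulAut.mul_apply]
  refine ⟨Function.minimalPeriod T ψ, fun i => ?_⟩
  rw [← Function.isPeriodicPt_iff_minimalPeriod_dvd, Function.IsPeriodicPt, Function.IsFixedPt,
    funext_iff]
  simp only [h, Iv]

lemma comm (i j : ℕ) (a : A) : (Δ.σ ^ i) ((Δ.σ ^ j) a) = (Δ.σ ^ j) ((Δ.σ ^ i) a) := by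
  rw [← MulAut.mul_apply, ← MulAut.mul_apply, ← pow_add, ← pow_add, add_comm]

lemma sum_per {k : Type} [CommRing k] (F : ℕ → k) (g : ℕ) (h : ∀ i, F (g + i) = F i) (n : ℕ) :
    ∑ i ∈ range (n * g), F i = n * ∑ i ∈ range g, F i := by
  induction n with
  | zero => simp
  | succ n ih =>
    rw [Nat.succ_mul, add_comm (n * g), sum_range_add]
    simp only [h, ih]
    push_cast
    ring

lemma V_eq {k : Type} [CommRing k] (P : Pt Δ k) {d : ℕ} (h : d ∣ P.d) (a : A) (e : ℤ) :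
    V d a e P = ∑ i ∈ range d,
      (((P.down d h).η ((Δ.σ ^ i) a) : kˣ) : k) * ((P.ω ^ e : kˣ) : k) ^ (P.d / d) := by
  rw [V, W, if_pos h]
  refine sum_congr rfl fun i _ => ?_
  rw [prod_mul_distrib, prod_const, card_range]
  congr 1
  simp only [lam_of, Pt.down, MonoidHom.finsetProd_apply, MonoidHom.comp_apply,
    MulEquiv.coe_toMonoidHom, Units.coe_prod]
  refine prod_congr rfl fun t _ => ?_
  rw [add_comm, pow_add, MulAut.mul_apply]

lemma old (hB : BASE_st) {k : Type} [CommRing k] {p : ℕ} (hp : p.Prime) [CharP k p] (P : Pt Δ k)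
    (h : p ∣ P.d) (hi : Iv Δ P.η (P.d / p)) (d : ℕ) (a : A) (e : ℤ) :
    V d a e (P.down (P.d / p) (Nat.div_dvd_of_dvd h)) = V d a e P := by
  by_cases h1 : d ∣ P.d / p
  · exact (hB A Δ k).2.2.2.2.2.2.1 d a e P _ _ h1
  have e1 : V d a e (P.down (P.d / p) (Nat.div_dvd_of_dvd h)) = 0 := if_neg h1
  rw [e1]
  by_cases h2 : d ∣ P.d
  swap
  · exact (if_neg h2).symm
  obtain ⟨s, hs⟩ := exists_period (Δ := Δ) (P.down d h2).η
  have k1 : s ∣ d := (hs d).1 (P.down d h2).inv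
  have k2 : s ∣ P.d / p := (hs _).1 fun a => by
    simp only [Pt.down, MonoidHom.finsetProd_apply, MonoidHom.comp_apply,
      MulEquiv.coe_toMonoidHom]
    exact prod_congr rfl fun t _ => by rw [comm, hi]
  have k3 := (hs _).2 (Nat.dvd_gcd k1 k2)
  obtain ⟨n, hn⟩ := Nat.gcd_dvd_left d (P.d / p)
  have k4 : p ∣ n := by
    by_contra hpn
    have c1 : Nat.Coprime n p := ((Nat.Prime.coprime_iff_not_dvd hp).2 hpn).symm
    obtain ⟨u, hu⟩ := Nat.gcd_dvd_right d (P.d / p)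
    have g0 : 0 < Nat.gcd d (P.d / p) :=
      Nat.gcd_pos_of_pos_left _ (Nat.pos_of_dvd_of_pos h2 P.d_pos)
    have c2 : n ∣ u * p := by
      refine Nat.dvd_of_mul_dvd_mul_left g0 ?_
      rw [← hn, ← mul_assoc, ← hu, Nat.div_mul_cancel h]
      exact h2
    have c3 := Nat.mul_dvd_mul_left (Nat.gcd d (P.d / p)) (c1.dvd_of_dvd_mul_right c2)
    rw [← hn, ← hu] at c3
    exact h1 c3
  have k5 := sum_per (fun i => (((P.down d h2).η ((Δ.σ ^ i) a) : kˣ) : k) *
    ((P.ω ^ e : kˣ) : k) ^ (P.d / d)) (Nat.gcd d (P.d / p))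
    (fun i => by rw [pow_add, MulAut.mul_apply, k3]) n
  rw [mul_comm n, ← hn, (CharP.cast_eq_zero_iff k p n).2 k4, zero_mul] at k5
  rw [V_eq P h2, k5]

lemma iv_iff {k : Type} [Field k] {γ : k →+* k} {η : A →* kˣ} {P : Pt Δ k} {i : ℕ}
    (h : ∀ a, P.ch i a = γ (η a)) (j : ℕ) : Iv Δ P.η j ↔ Iv Δ η j := by
  simp only [Pt.ch_apply] at h
  refine ⟨fun hj a => Units.ext (γ.injective ?_), fun hj a => Units.ext ?_⟩
  · rw [← h, ← h, comm, hj]
  · obtain ⟨b, rfl⟩ := (Δ.σ ^ i).surjective a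
    rw [comm, h, h, hj]

lemma fixed [Fintype A] {k : Type} [CommRing k] (φ : k →+* k) (s M : ℕ) (η : A →* kˣ) (l : kˣ)
    (c : k) (h1 : ∀ a, φ (η a) = η a) (h2 : φ (l⁻¹ : kˣ) = (l⁻¹ : kˣ)) (h3 : φ c = c) (e : ℤ)
    (a : A) : φ ((testEl s M η l c e).coeff a) = (testEl s M η l c e).coeff a := by
  classical
  rw [← MonoidAlgebra.coeff_mapRingHom]
  congr 2
  simp only [testEl, Finsupp.add_apply, Finsupp.finsetSum_apply, Finsupp.single_apply, map_add,
    map_sum, apply_ite (MonoidAlgebra.mapRingHom A φ), map_one, map_zero, map_mul, map_prod,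
    map_sub, map_pow, MonoidAlgebra.mapRingHom_single, h1, h2, h3, Units.val_pow_eq_pow_val]

variable {p : ℕ} [hp : Fact p.Prime]

/-- the character of a new point is not invariant under `σ ^ (d / p)` -/
def New (P : Pt Δ (Kb p)) : Prop := ¬(p ∣ P.d ∧ Iv Δ P.η (P.d / p))

lemma New.not_dvd {P : Pt Δ (Kb p)} (h : New P) {s : ℕ} (hs : ∀ i, Iv Δ P.η i ↔ s ∣ i) :
    ¬p ∣ P.d / s := by
  rintro ⟨u, hu⟩
  have e : P.d = p * (s * u) := by
    rw [← Nat.mul_div_cancel' ((hs _).1 P.inv), hu]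
    ring
  refine h ⟨⟨_, e⟩, (hs _).2 ⟨u, ?_⟩⟩
  rw [e, Nat.mul_div_cancel_left _ hp.out.pos]

lemma exists_exp [Finite A] : ∃ f M : ℕ, 0 < f ∧ M + 1 = p ^ f ∧
    (∀ P : Pt Δ (Kb p), (∀ a, P.η a ^ M = 1) ∧ P.ω ^ M = 1) ∧ ∀ r, r ∣ Δ.m → ¬p ∣ r → r ∣ M := by
  have hN : Δ.m * Nat.card A ≠ 0 := mul_ne_zero Δ.m_pos.ne' Nat.card_pos.ne'
  obtain ⟨v, N, h1, h2⟩ := Nat.exists_eq_pow_mul_and_not_dvd hN p hp.out.ne_one
  have hN0 : 0 < N := Nat.pos_of_ne_zero fun h => h1 (h ▸ dvd_zero p)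
  have h3 := Nat.ModEq.pow_totient ((Nat.Prime.coprime_iff_not_dvd hp.out).2 h1)
  have h4 : 1 ≤ p ^ N.totient := Nat.one_le_pow _ _ hp.out.pos
  have h5 : N ∣ p ^ N.totient - 1 := (Nat.modEq_iff_dvd' h4).1 h3.symm
  have h6 : ∀ x : (Kb p)ˣ, x ^ (Δ.m * Nat.card A) = 1 → x ^ (p ^ N.totient - 1) = 1 := by
    intro x hx
    rw [h2, Units.ext_iff, Units.val_pow_eq_pow_val, Units.val_one,
      ExpChar.pow_prime_pow_mul_eq_one_iff] at hx
    obtain ⟨u, hu⟩ := h5
    rw [hu, Units.ext_iff, Units.val_pow_eq_pow_val, pow_mul, hx, one_pow, Units.val_one]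
  refine ⟨N.totient, p ^ N.totient - 1, Nat.totient_pos.2 hN0, Nat.sub_add_cancel h4,
    fun P => ⟨fun a => h6 _ ?_, h6 _ ?_⟩, fun r hr hpr => ?_⟩
  · rw [pow_mul', ← map_pow, pow_card_eq_one', map_one, one_pow]
  · rw [pow_mul, P.ω_pow, ← map_pow, pow_card_eq_one', map_one]
  · refine dvd_trans ?_ h5
    refine (((Nat.Prime.coprime_iff_not_dvd hp.out).2 hpr).symm.pow_right v).dvd_of_dvd_mul_left ?_
    rw [← h2]
    exact hr.mul_right _

lemma key [Finite A] (hR : RES_st) (hT : TEST_st) (hD : DEC_st) {P P' : Pt Δ (Kb p)} (hP : New P)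
    (hP' : New P') (h : ∀ f ∈ J Δ (Kb p), f P = f P') {s : ℕ} (hs : ∀ i, Iv Δ P.η i ↔ s ∣ i)
    (ξ : (Kb p)ˣ) (hξ : ξ ^ (P.d / s) = 1) : (∃ i, ∀ a, P'.ch i a = P.η a) ∧
      (P.ω ^ s * ξ) ^ (P'.d / s) = P'.ω ^ P'.d := by
  classical
  have := Fintype.ofFinite A
  obtain ⟨f, M, hf, hM, h1, h2⟩ := exists_exp (Δ := Δ) (p := p)
  have h3 : ∀ (Q : Pt Δ (Kb p)) (γ : Kb p →+* Kb p), New Q →
      (∃ i, ∀ a, Q.ch i a = γ (P.η a)) → Q.d / s ∣ M := by
    rintro Q γ hQ ⟨i, hi⟩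
    have k : ∀ j, Iv Δ Q.η j ↔ s ∣ j := fun j => (iv_iff hi j).trans (hs j)
    exact h2 _ ((Nat.div_dvd_of_dvd ((k _).1 Q.inv)).trans Q.d_dvd) (hQ.not_dvd k)
  have h4 : ∃ i, ∀ a, P.ch i a = RingHom.id _ (P.η a : Kb p) := ⟨0, fun a => by simp⟩
  have hl : (P.ω ^ s * ξ) ^ M = 1 := by
    obtain ⟨u, hu⟩ := h3 P _ hP h4
    rw [mul_pow, ← pow_mul, pow_mul', (h1 P).2, one_pow, one_mul, hu, pow_mul, hξ, one_pow]
  have h5 : ∀ x : (Kb p)ˣ, x ^ M = 1 → iterateFrobenius (Kb p) p f x = x := fun x hx => by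
    rw [iterateFrobenius_def, ← hM, pow_succ, ← Units.val_pow_eq_pow_val, hx, Units.val_one,
      one_mul]
  let Γ : Pt Δ (Kb p) → Finset ℕ := fun Q => (range f).filter fun j =>
    (∃ i, ∀ a, Q.ch i a = iterateFrobenius (Kb p) p j (P.η a)) ∧
      iterateFrobenius (Kb p) p j (P.ω ^ s * ξ : (Kb p)ˣ) ^ (Q.d / s) = (Q.ω : Kb p) ^ Q.d
  have h6 := hD p f (Γ P) (Γ P') (filter_subset _ _) (filter_subset _ _) (fun c hc => ?_) ?_
  · simp only [Γ, mem_filter, iterateFrobenius_zero_apply] at h6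
    refine ⟨h6.2.1, Units.ext ?_⟩
    simpa only [Units.val_pow_eq_pow_val] using h6.2.2
  · obtain ⟨Θ, hΘ, k⟩ := hR A Δ p f (testEl s M P.η (P.ω ^ s * ξ) c) hf fun e a =>
      fixed (iterateFrobenius (Kb p) p f) s M P.η _ c (fun a => h5 _ ((h1 P).1 a))
        (h5 _ (by rw [inv_pow, hl, inv_one])) hc e a
    have k2 : ∀ Q, New Q → Θ Q = ∏ j ∈ Γ Q, c ^ p ^ j := fun Q hQ => by
      rw [k, prod_filter]
      refine prod_congr rfl fun j _ => ?_
      rw [hT A Δ p f s M _ P.η _ c Q hf hM (h1 P).1 hl (h1 Q).1 (h1 Q).2 hs (h3 Q _ hQ)]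
      exact if_congr Iff.rfl rfl rfl
    rw [← k2 P hP, ← k2 P' hP', h Θ hΘ]
  · simp only [Γ, mem_filter, iterateFrobenius_zero_apply, mem_range]
    refine ⟨hf, h4, ?_⟩
    rw [← Units.val_pow_eq_pow_val, mul_pow, hξ, mul_one, ← pow_mul,
      Nat.mul_div_cancel' ((hs _).1 P.inv), Units.val_pow_eq_pow_val]

lemma key2 [Finite A] (hR : RES_st) (hT : TEST_st) (hD : DEC_st) {P P' : Pt Δ (Kb p)}
    (hP : New P) (hP' : New P') (h : ∀ f ∈ J Δ (Kb p), f P = f P') {s : ℕ}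
    (hs : ∀ i, Iv Δ P.η i ↔ s ∣ i) : P.d / s ∣ P'.d / s := by
  have : NeZero ((P.d / s : ℕ) : Kb p) :=
    ⟨fun h0 => hP.not_dvd hs ((CharP.cast_eq_zero_iff (Kb p) p _).1 h0)⟩
  have h0 : P.d / s ≠ 0 := fun h0 => hP.not_dvd hs (h0 ▸ dvd_zero p)
  obtain ⟨ζ, hζ⟩ := HasEnoughRootsOfUnity.exists_primitiveRoot (Kb p) (P.d / s)
  obtain ⟨ξ, rfl⟩ := hζ.isUnit h0
  rw [IsPrimitiveRoot.coe_units_iff] at hζ
  have k1 := (key hR hT hD hP hP' h hs 1 (one_pow _)).2
  have k2 := (key hR hT hD hP hP' h hs ξ hζ.pow_eq_one).2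
  rw [mul_one] at k1
  rw [mul_pow, k1, mul_eq_left] at k2
  exact hζ.dvd_of_pow_eq_one _ k2

lemma new [Finite A] (hB : BASE_st) (hR : RES_st) (hT : TEST_st) (hD : DEC_st)
    {P P' : Pt Δ (Kb p)} (hP : New P) (hP' : New P') (h : ∀ f ∈ J Δ (Kb p), f P = f P')
    (d : ℕ) (a : A) (e : ℤ) (he : (d : ℤ) ∣ e) : V d a e P = V d a e P' := by
  obtain ⟨s, hs⟩ := exists_period (Δ := Δ) P.η
  obtain ⟨⟨i, hi⟩, k1⟩ := key hR hT hD hP hP' h hs 1 (one_pow _)
  have hs' : ∀ j, Iv Δ P'.η j ↔ s ∣ j := fun j =>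
    (iv_iff (γ := RingHom.id _) hi j).trans (hs j)
  have k2 : P.d / s = P'.d / s := Nat.dvd_antisymm (key2 hR hT hD hP hP' h hs)
    (key2 hR hT hD hP' hP (fun f hf => (h f hf).symm) hs')
  have k3 : P.d = P'.d := by
    rw [← Nat.mul_div_cancel' ((hs _).1 P.inv), k2, Nat.mul_div_cancel' ((hs' _).1 P'.inv)]
  rw [mul_one, ← pow_mul, Nat.mul_div_cancel' ((hs' _).1 P'.inv)] at k1
  rw [V, ← (hB A Δ (Kb p)).2.1 d i _ e P', W, W, k3]
  split_ifs with hd
  swap
  · rfl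
  refine sum_congr rfl fun j _ => ?_
  rw [prod_mul_distrib, prod_mul_distrib]
  congr 1
  · refine prod_congr rfl fun t _ => ?_
    rw [lam_sg, lam_of, lam_of, ← hi, Pt.ch_apply, add_comm _ i, pow_add _ i, MulAut.mul_apply]
  · obtain ⟨u, rfl⟩ := he
    have k4 : ∀ x : (Kb p)ˣ, (x ^ ((d : ℤ) * u)) ^ (P'.d / d) = (x ^ P'.d) ^ u := fun x => by
      rw [← zpow_natCast, ← zpow_natCast, ← zpow_mul, ← zpow_mul, mul_right_comm, ← Nat.cast_mul,
        Nat.mul_div_cancel' hd]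
    rw [prod_const, prod_const, card_range, ← Units.val_pow_eq_pow_val,
      ← Units.val_pow_eq_pow_val, k4, k4, k1]

lemma ext {k : Type} [CommRing k] {P P' : Pt Δ k}
    (h : ∀ (d : ℕ) (a : A) (e : ℤ), (d : ℤ) ∣ e → V d a e P = V d a e P') :
    ∀ g ∈ B Δ k, g P = g P' := by
  intro g hg
  induction hg using AddSubgroup.closure_induction with
  | mem g hg =>
    obtain ⟨d, a, e, -, he, rfl⟩ := hg
    exact h d a e he
  | zero => rfl
  | add x y _ _ hx hy => rw [Pi.add_apply, Pi.add_apply, hx, hy]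
  | neg x _ hx => rw [Pi.neg_apply, Pi.neg_apply, hx]

end SepX

open SepX in
theorem sep (hB : BASE_st) (hJ : JB_st) (hR : RES_st) (hT : TEST_st) (hD : DEC_st) : SEP_st := by
  intro A _ _ Δ p hp P P'
  induction hn : P.d + P'.d using Nat.strong_induction_on generalizing P P' with
  | _ n ih =>
  intro h
  by_cases hP : New P
  swap
  · obtain ⟨h1, h2⟩ := not_not.1 hP
    have k := ext fun d a e _ => old hB hp.out P h1 h2 d a e
    have k' := ih _ (hn ▸ Nat.add_lt_add_right (Nat.div_lt_self P.d_pos hp.out.one_lt) _)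
      (P.down (P.d / p) (Nat.div_dvd_of_dvd h1)) P' rfl fun f hf =>
        (k f (hJ A Δ _ hf)).trans (h f hf)
    exact fun g hg => (k g hg).symm.trans (k' g hg)
  by_cases hP' : New P'
  swap
  · obtain ⟨h1, h2⟩ := not_not.1 hP'
    have k := ext fun d a e _ => old hB hp.out P' h1 h2 d a e
    have k' := ih _ (hn ▸ Nat.add_lt_add_left (Nat.div_lt_self P'.d_pos hp.out.one_lt) _)
      P (P'.down (P'.d / p) (Nat.div_dvd_of_dvd h1)) rfl fun f hf =>
        (h f hf).trans (k f (hJ A Δ _ hf)).symm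
    exact fun g hg => (k' g hg).trans (k g hg)
  exact ext fun d a e he => new hB hR hT hD hP hP' h d a e he

end Pool.Agent.MP_f3cd89_nt

end

section

set_option autoImplicit false

namespace Pool.Agent.MP_f3cd89_nt

namespace SwX

open Polynomial in
/-- the roots of `X ^ q - X` lie in the image of a field with `q` elements -/
theorem mem_range {K k : Type} [Field K] [Finite K] [Field k] (ι : K →+* k) (z : k)
    (hz : z ^ Nat.card K = z) : z ∈ ι.range := by
  have h1 : 1 < Nat.card K := Finite.one_lt_card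
  refine (Polynomial.splits_X_pow_nat_card_sub_X (K := K)).mem_range_of_isRoot
    (FiniteField.X_pow_card_sub_X_ne_zero K h1) ?_
  simp [Polynomial.IsRoot, hz]

/-- two embeddings of a finite field differ by a power of Frobenius -/
theorem hom_pow (p : ℕ) [Fact p.Prime] {K k : Type} [Field K] [Finite K] [Field k] [CharP k p]
    (ι φ : K →+* k) : ∃ j : ℕ, ∀ x, φ x = ι x ^ p ^ j := by
  have : CharP K p := ι.charP ι.injective p
  have := Fintype.ofFinite K
  have hm : ∀ x, φ x ∈ ι.range := fun x => mem_range ι _ (by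
    rw [← map_pow, Nat.card_eq_fintype_card, FiniteField.pow_card])
  choose ψ hψ using hm
  let ψ' : K →+* K :=
    { toFun := ψ
      map_one' := ι.injective (by rw [hψ, map_one, map_one])
      map_mul' := fun x y => ι.injective (by rw [map_mul, hψ, hψ, hψ, map_mul])
      map_zero' := ι.injective (by rw [hψ, map_zero, map_zero])
      map_add' := fun x y => ι.injective (by rw [map_add, hψ, hψ, hψ, map_add]) }
  let _ : Algebra (ZMod p) K := ZMod.algebra K p
  let ψ'' : K →ₐ[ZMod p] K :=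
    { ψ' with
      commutes' := fun r => DFunLike.congr_fun
        (Subsingleton.elim (ψ'.comp (algebraMap (ZMod p) K)) (algebraMap (ZMod p) K)) r }
  obtain ⟨j, hj⟩ := (FiniteField.bijective_frobeniusAlgHom_pow (ZMod p) K).2 ψ''
  refine ⟨j.1, fun x => ?_⟩
  have h2 : ψ x = x ^ p ^ j.1 := by
    have h3 : ψ'' x = (FiniteField.frobeniusAlgHom (ZMod p) K ^ j.1) x :=
      (DFunLike.congr_fun hj x).symm
    rw [AlgHom.coe_pow, FiniteField.coe_frobeniusAlgHom, pow_iterate, ZMod.card] at h3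
    exact h3
  rw [← hψ, h2, map_pow]

section

variable {p : ℕ} [Fact p.Prime] {Y : Type} {k : Type} [Field k]
  (R : Subring (Y → k)) {n : ℕ} (hn : 0 < n) (hR : ∀ g ∈ R, ∀ y, g y ^ p ^ n = g y)

theorem two_le (hn : 0 < n) : 2 ≤ p ^ n := Nat.one_lt_pow hn.ne' (Fact.out : p.Prime).one_lt

include hn hR in
theorem pow_pred {g : Y → k} (hg : g ∈ R) {y : Y} (h : g y ≠ 0) : g y ^ (p ^ n - 1) = 1 := by
  have h2 := two_le (p := p) hn
  have h3 := hR g hg y
  apply mul_right_cancel₀ h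
  rw [← pow_succ, Nat.sub_add_cancel (by omega), h3, one_mul]

/-- the field of values at a point -/
def fld (y : Y) : Subfield k :=
  { R.map (Pi.evalRingHom (fun _ => k) y) with
    inv_mem' := by
      rintro x ⟨g, hg, rfl⟩
      have h2 := two_le (p := p) hn
      by_cases h : g y = 0
      · refine ⟨0, R.zero_mem, ?_⟩
        simp [h]
      · refine ⟨g ^ (p ^ n - 2), R.pow_mem hg _, ?_⟩
        have h4 := pow_pred R hn hR hg h
        change g y ^ (p ^ n - 2) = (g y)⁻¹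
        refine eq_inv_of_mul_eq_one_left ?_
        rw [← pow_succ, show p ^ n - 2 + 1 = p ^ n - 1 by omega, h4] }

theorem mem_fld (y : Y) (x : k) : x ∈ fld R hn hR y ↔ ∃ g ∈ R, g y = x := Iff.rfl

open Polynomial in
theorem fld_finite (y : Y) : Finite (fld R hn hR y) := by
  classical
  have h2 := two_le (p := p) hn
  have h0 : (X ^ p ^ n - X : k[X]) ≠ 0 := FiniteField.X_pow_card_sub_X_ne_zero k h2
  refine Set.Finite.subset (s := ((X ^ p ^ n - X : k[X]).roots.toFinset : Set k))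
    (Finset.finite_toSet _) ?_
  rintro x ⟨g, hg, rfl⟩
  have h3 := hR g hg y
  simp [h0, h3]

/-- evaluation onto the field of values -/
def ev (y : Y) : R →+* fld R hn hR y :=
  ((Pi.evalRingHom (fun _ => k) y).comp R.subtype).codRestrict (fld R hn hR y)
    fun g => ⟨g.1, g.2, rfl⟩

theorem ev_coe (y : Y) (g : R) : ((ev R hn hR y g : fld R hn hR y) : k) = g.1 y := rfl

theorem ev_surj (y : Y) : Function.Surjective (ev R hn hR y) := by
  rintro ⟨x, g, hg, rfl⟩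
  exact ⟨⟨g, hg⟩, rfl⟩

include hn hR in
theorem exists_pow [CharP k p] {y y' : Y} (h : ∀ g ∈ R, g y = 0 → g y' = 0) :
    ∃ j : ℕ, ∀ g ∈ R, g y' = g y ^ p ^ j := by
  have := fld_finite R hn hR y
  have hk : RingHom.ker (ev R hn hR y) ≤
      RingHom.ker ((Pi.evalRingHom (fun _ => k) y').comp R.subtype) := by
    intro g hg
    rw [RingHom.mem_ker] at hg ⊢
    exact h g.1 g.2 (congrArg Subtype.val hg)
  obtain ⟨j, hj⟩ := hom_pow p (fld R hn hR y).subtype
    ((ev R hn hR y).liftOfSurjective (ev_surj R hn hR y) ⟨_, hk⟩)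
  refine ⟨j, fun g hg => ?_⟩
  have h1 := hj (ev R hn hR y ⟨g, hg⟩)
  rw [RingHom.liftOfSurjective_comp_apply] at h1
  exact h1

include hn hR in
theorem exists_val [CharP k p] (f : Y → k)
    (hf : ∀ y y' j, (∀ g ∈ R, g y' = g y ^ p ^ j) → f y' = f y ^ p ^ j) (y : Y) :
    ∃ g ∈ R, g y = f y := by
  have := fld_finite R hn hR y
  have := Fintype.ofFinite (fld R hn hR y)
  have : CharP (fld R hn hR y) p :=
    (fld R hn hR y).subtype.charP (fld R hn hR y).subtype.injective p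
  obtain ⟨m, -, hm⟩ := FiniteField.card (fld R hn hR y) p
  have h1 : f y = f y ^ p ^ (m : ℕ) := by
    refine hf y y m fun g hg => ?_
    have h2 := FiniteField.pow_card (ev R hn hR y ⟨g, hg⟩)
    rw [hm] at h2
    exact (congrArg Subtype.val h2).symm
  obtain ⟨x, hx⟩ := mem_range (fld R hn hR y).subtype (f y)
    (by rw [Nat.card_eq_fintype_card, hm, ← h1])
  obtain ⟨g, hg, hgx⟩ := x.2
  exact ⟨g, hg, hgx.trans hx⟩

include hn hR in
theorem exists_sep {y y' : Y} (h : ¬∀ g ∈ R, g y = 0 → g y' = 0) :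
    ∃ e ∈ R, e y = 1 ∧ e y' = 0 := by
  have h2 := two_le (p := p) hn
  push Not at h
  obtain ⟨g, hg, h0, h1⟩ := h
  refine ⟨1 - g ^ (p ^ n - 1), R.sub_mem R.one_mem (R.pow_mem hg _), ?_, ?_⟩
  · simp [h0, show p ^ n - 1 ≠ 0 by omega]
  · simp [pow_pred R hn hR hg h1]

include hn hR in
theorem exists_idem [Finite Y] (y : Y) :
    ∃ e ∈ R, e y = 1 ∧ ∀ y', (¬∀ g ∈ R, g y = 0 → g y' = 0) → e y' = 0 := by
  classical
  have := Fintype.ofFinite Y
  have h : ∀ y', ∃ e ∈ R, e y = 1 ∧ ((¬∀ g ∈ R, g y = 0 → g y' = 0) → e y' = 0) := by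
    intro y'
    by_cases h : ∀ g ∈ R, g y = 0 → g y' = 0
    · exact ⟨1, R.one_mem, rfl, fun h' => (h' h).elim⟩
    · obtain ⟨e, he, h1, h2⟩ := exists_sep R hn hR h
      exact ⟨e, he, h1, fun _ => h2⟩
  choose e he h1 h2 using h
  refine ⟨∏ y', e y', R.prod_mem fun y' _ => he y', ?_, fun y' h => ?_⟩
  · simp [Finset.prod_apply, h1]
  · rw [Finset.prod_apply]
    exact Finset.prod_eq_zero (Finset.mem_univ y') (h2 y' h)

end

theorem pt_ext {A : Type} [CommGroup A] {Δ : Dat A} {k : Type} [CommRing k] {P P' : Pt Δ k}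
    (h1 : P.d = P'.d) (h2 : P.η = P'.η) (h3 : P.ω = P'.ω) : P = P' := by
  cases P
  cases P'
  simp only at h1 h2 h3
  subst h1 h2 h3
  rfl

theorem pt_finite {A : Type} [CommGroup A] [Finite A] (Δ : Dat A) (k : Type) [CommRing k]
    [IsDomain k] : Finite (Pt Δ k) := by
  have hN : NeZero (Δ.m * Nat.card A) := ⟨Nat.mul_ne_zero Δ.m_pos.ne' Nat.card_pos.ne'⟩
  have h1 : ∀ (P : Pt Δ k) (a : A), P.η a ∈ rootsOfUnity (Δ.m * Nat.card A) k := by
    intro P a
    rw [mem_rootsOfUnity, mul_comm, pow_mul, ← map_pow, pow_card_eq_one', map_one, one_pow]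
  have h2 : ∀ P : Pt Δ k, P.ω ∈ rootsOfUnity (Δ.m * Nat.card A) k := by
    intro P
    rw [mem_rootsOfUnity, pow_mul, P.ω_pow, ← map_pow, pow_card_eq_one', map_one]
  refine Finite.of_injective (fun P : Pt Δ k =>
    ((⟨P.d, Nat.lt_succ_of_le (Nat.le_of_dvd Δ.m_pos P.d_dvd)⟩, fun a => ⟨P.η a, h1 P a⟩,
      ⟨P.ω, h2 P⟩) : Fin (Δ.m + 1) × (A → rootsOfUnity (Δ.m * Nat.card A) k) ×
        rootsOfUnity (Δ.m * Nat.card A) k)) fun P P' h => ?_
  simp only [Prod.mk.injEq, Fin.mk.injEq, Subtype.mk.injEq] at h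
  refine pt_ext h.1 (MonoidHom.ext fun a => ?_) h.2.2
  exact congrArg Subtype.val (congrFun h.2.1 a)

theorem map_inj {A : Type} [CommGroup A] {Δ : Dat A} {k k' : Type} [Field k] [Field k']
    (f : k →+* k') : Function.Injective fun P : Pt Δ k => P.map f := by
  intro P P' h
  refine pt_ext (congrArg Pt.d h :) (MonoidHom.ext fun a => ?_) ?_
  · have h1 : ((P.map f).η a : k') = ((P'.map f).η a : k') := by rw [show P.map f = P'.map f from h]
    exact Units.ext (f.injective h1)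
  · have h1 : ((P.map f).ω : k') = ((P'.map f).ω : k') := by rw [show P.map f = P'.map f from h]
    exact Units.ext (f.injective h1)

end SwX

theorem sw : SW_st := by
  intro p _ Y _ k _ _ R n hn hR f hf
  classical
  have := Fintype.ofFinite Y
  have key : ∀ s : Finset Y, ∃ g ∈ R, ∀ y ∈ s, g y = f y := by
    intro s
    induction s using Finset.induction_on with
    | empty => exact ⟨0, R.zero_mem, by simp⟩
    | insert y0 s _ ih =>
      obtain ⟨g, hg, hs⟩ := ih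
      obtain ⟨g0, hg0, h0⟩ := SwX.exists_val R hn hR f hf y0
      obtain ⟨e, he, he1, he0⟩ := SwX.exists_idem R hn hR y0
      have h1 : ∀ y, (∀ g ∈ R, g y0 = 0 → g y = 0) → (g + e * (g0 - g)) y = f y := by
        intro y hy
        obtain ⟨j, hj⟩ := SwX.exists_pow R hn hR hy
        have h2 : e y = 1 := by rw [hj e he, he1, one_pow]
        have h3 : g0 y = f y := by rw [hj g0 hg0, h0, ← hf y0 y j hj]
        simp [h2, h3]
      refine ⟨g + e * (g0 - g), R.add_mem hg (R.mul_mem he (R.sub_mem hg0 hg)), fun y hy => ?_⟩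
      by_cases h : ∀ g ∈ R, g y0 = 0 → g y = 0
      · exact h1 y h
      · rcases Finset.mem_insert.1 hy with rfl | hy
        · exact (h fun _ _ h => h).elim
        · simp [he0 y h, hs y hy]
  obtain ⟨g, hg, h⟩ := key Finset.univ
  have h1 : f = g := funext fun y => (h y (Finset.mem_univ y)).symm
  rw [h1]
  exact hg

theorem c1a (hS : SW_st) (hP : SEP_st) (hB : BASE_st) (hR : RING_st) : C1A_st := by
  intro A _ _ Δ p _
  have := SwX.pt_finite Δ (Kb p)
  obtain ⟨hR1, hR2, -⟩ := hR A Δ (Kb p)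
  obtain ⟨-, -, -, -, -, -, -, -, hB9⟩ := hB A Δ (Kb p)
  let R : Subring (Pt Δ (Kb p) → Kb p) :=
    { J Δ (Kb p) with
      one_mem' := hR1
      mul_mem' := fun {a b} ha hb => hR2 a ha b hb }
  let τ : Equiv.Perm (Pt Δ (Kb p)) := Equiv.ofBijective (fun P => P.map (frobenius (Kb p) p))
    (Finite.injective_iff_bijective.1 (SwX.map_inj _))
  have hτ : ∀ P, τ P = P.map (frobenius (Kb p) p) := fun _ => rfl
  have hit : ∀ g : Pt Δ (Kb p) → Kb p, (∀ P, g (τ P) = g P ^ p) →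
      ∀ (j : ℕ) P, g ((τ ^ j) P) = g P ^ p ^ j := by
    intro g hg j
    induction j with
    | zero => intro P; simp
    | succ j ih =>
      intro P
      rw [pow_succ', Equiv.Perm.mul_apply, hg, ih, ← pow_mul, ← pow_succ]
  have hJ : ∀ g ∈ J Δ (Kb p), ∀ P, g (τ P) = g P ^ p := by
    intro g hg
    induction hg using AddSubgroup.closure_induction with
    | mem x hx =>
      obtain ⟨r, H, rfl⟩ := hx
      intro P
      rw [hτ, (hB9 _ _ P).2 r H, frobenius_def]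
    | zero => intro P; simp [(Fact.out : p.Prime).ne_zero]
    | add x y _ _ hx hy => intro P; rw [Pi.add_apply, Pi.add_apply, hx, hy, add_pow_char]
    | neg x _ hx =>
      intro P
      rw [Pi.neg_apply, Pi.neg_apply, hx, ← frobenius_def, ← frobenius_def, map_neg]
  refine (AddSubgroup.closure_le _).2 ?_
  rintro _ ⟨d, a, e, hd, he, rfl⟩
  have hV : ∀ P, (V d a e : Pt Δ (Kb p) → Kb p) (τ P) = V d a e P ^ p := by
    intro P
    rw [hτ, V, (hB9 _ _ P).1, frobenius_def]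
  refine hS p (Pt Δ (Kb p)) (Kb p) R (orderOf τ) (orderOf_pos τ) (fun g hg P => ?_) _
    fun P P' j h => ?_
  · rw [← hit g (hJ g hg), pow_orderOf_eq_one, Equiv.Perm.one_apply]
  · rw [← hit _ hV]
    refine hP A Δ p P' ((τ ^ j) P) (fun g hg => ?_) _ (V_mem a hd he)
    rw [hit g (hJ g hg)]
    exact h g hg

end Pool.Agent.MP_f3cd89_nt

end

section

set_option autoImplicit false

open Finset

namespace Pool.Agent.MP_f3cd89_nt.BjpX

variable {A : Type} [CommGroup A]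

/-- elements of `p`-power order and twisted commutators -/
def A0 (Δ : Dat A) (p d : ℕ) : Subgroup A :=
  Subgroup.closure ({u | ∃ s : ℕ, u ^ p ^ s = 1} ∪ Set.range fun a => (Δ.σ ^ d) a * a⁻¹)

theorem A0_le (Δ : Dat A) (p d : ℕ) : A0 Δ p d ≤ (A0 Δ p d).comap Δ.σ.toMonoidHom := by
  refine (Subgroup.closure_le _).2 ?_
  rintro u (⟨s, hs⟩ | ⟨a, rfl⟩)
  · refine Subgroup.subset_closure (Or.inl ⟨s, ?_⟩)
    change Δ.σ u ^ p ^ s = 1
    rw [← map_pow, hs, map_one]
  · refine Subgroup.subset_closure (Or.inr ⟨Δ.σ a, ?_⟩)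
    change (Δ.σ ^ d) (Δ.σ a) * (Δ.σ a)⁻¹ = Δ.σ ((Δ.σ ^ d) a * a⁻¹)
    rw [map_mul, map_inv, ← MulAut.mul_apply, ← MulAut.mul_apply, ← pow_succ, ← pow_succ']

/-- the induced automorphism -/
noncomputable def sbar [Finite A] (Δ : Dat A) (p d : ℕ) : MulAut (A ⧸ A0 Δ p d) :=
  MulEquiv.ofBijective (QuotientGroup.map _ _ Δ.σ.toMonoidHom (A0_le Δ p d)) (by
    have hs : Function.Surjective (QuotientGroup.map _ _ Δ.σ.toMonoidHom (A0_le Δ p d)) := by
      intro x
      obtain ⟨a, rfl⟩ := QuotientGroup.mk_surjective x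
      exact ⟨QuotientGroup.mk (Δ.σ.symm a), by simp⟩
    exact ⟨Finite.injective_iff_surjective.2 hs, hs⟩)

theorem sbar_mk [Finite A] (Δ : Dat A) (p d : ℕ) (a : A) :
    sbar Δ p d (QuotientGroup.mk a) = QuotientGroup.mk (Δ.σ a) := rfl

theorem sbar_pow_mk [Finite A] (Δ : Dat A) (p d i : ℕ) (a : A) :
    (sbar Δ p d ^ i) (QuotientGroup.mk a) = QuotientGroup.mk ((Δ.σ ^ i) a) := by
  induction i with
  | zero => simp
  | succ i ih => rw [pow_succ', pow_succ', MulAut.mul_apply, MulAut.mul_apply, ih, sbar_mk]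

/-- the data on the quotient -/
noncomputable def Dbar [Finite A] (Δ : Dat A) (p d : ℕ) (hd : 0 < d) : Dat (A ⧸ A0 Δ p d) where
  σ := sbar Δ p d
  m := d
  m_pos := hd
  c := 1
  σ_pow := by
    refine MulEquiv.ext fun x => ?_
    obtain ⟨a, rfl⟩ := QuotientGroup.mk_surjective x
    rw [sbar_pow_mk, MulAut.one_apply, eq_comm, QuotientGroup.eq, mul_comm]
    exact Subgroup.subset_closure (Or.inr ⟨a, rfl⟩)
  σ_c := map_one _

theorem ver_mk [Finite A] (Δ : Dat A) (p d : ℕ) (hd : 0 < d) (r s : ℕ) (a : A) :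
    ver (Dbar Δ p d hd) r s (QuotientGroup.mk a) = QuotientGroup.mk (ver Δ r s a) := by
  unfold ver
  rw [← QuotientGroup.mk'_apply (A0 Δ p d) (∏ t ∈ range s, _), map_prod]
  exact prod_congr rfl fun t _ => sbar_pow_mk Δ p d _ a

/-- the map of group rings -/
noncomputable def piR (Δ : Dat A) (p d : ℕ) :
    MonoidAlgebra ℤ A →+* MonoidAlgebra ℤ (A ⧸ A0 Δ p d) :=
  MonoidAlgebra.mapDomainRingHom ℤ (QuotientGroup.mk' (A0 Δ p d))

theorem piR_single (Δ : Dat A) (p d : ℕ) (a : A) (x : ℤ) :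
    piR Δ p d (MonoidAlgebra.single a x) = MonoidAlgebra.single (QuotientGroup.mk a) x := by
  simp [piR]

theorem piR_sg [Finite A] (Δ : Dat A) (p d : ℕ) (hd : 0 < d) (i : ℕ) (b : MonoidAlgebra ℤ A) :
    piR Δ p d (sg Δ i b) = sg (Dbar Δ p d hd) i (piR Δ p d b) := by
  have : (piR Δ p d).comp (sg Δ i) = (sg (Dbar Δ p d hd) i).comp (piR Δ p d) := by
    refine MonoidAlgebra.ringHom_ext (fun x => ?_) fun a => ?_
    · simp [sg_single, piR_single]
    · simp only [RingHom.comp_apply, sg_single, piR_single]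
      exact congrArg (fun z => MonoidAlgebra.single z (1 : ℤ)) (sbar_pow_mk Δ p d i a).symm
  exact DFunLike.congr_fun this b

theorem piR_trc [Finite A] (Δ : Dat A) (p d : ℕ) (hd : 0 < d) (b : MonoidAlgebra ℤ A) :
    piR Δ p d (trc Δ d b) = trc (Dbar Δ p d hd) d (piR Δ p d b) := by
  unfold trc
  rw [map_sum]
  exact sum_congr rfl fun i _ => piR_sg Δ p d hd i b

theorem piR_sum (Δ : Dat A) (p d : ℕ) {M : Type} [AddCommGroup M] (v : A ⧸ A0 Δ p d → M)
    (b : MonoidAlgebra ℤ A) :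
    ((piR Δ p d b).coeff.sum fun a z => z • v a) =
      b.coeff.sum fun a z => z • v (QuotientGroup.mk a) := by
  have : (piR Δ p d b).coeff = Finsupp.mapDomain (QuotientGroup.mk' (A0 Δ p d)) b.coeff := by
    simp [piR]
  rw [this]
  exact Finsupp.sum_mapDomain_index (h := fun a (z : ℤ) => z • v a) (fun _ => zero_smul _ _)
    fun _ _ _ => add_smul _ _ _

theorem exists_exp [Finite A] (p : ℕ) (hp : p.Prime) :
    ∃ n0, 0 < n0 ∧ ∀ t, ∀ a : A, ∃ u : A, (∃ s : ℕ, u ^ p ^ s = 1) ∧ a ^ p ^ (n0 * t) = a * u := by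
  have h0 : Nat.card A ≠ 0 := Nat.card_pos.ne'
  obtain ⟨s, N, hN, hc⟩ := Nat.exists_eq_pow_mul_and_not_dvd h0 p hp.ne_one
  have hN0 : 0 < N := Nat.pos_of_ne_zero (by rintro rfl; simp at hN)
  have hco : p.Coprime N := (Nat.Prime.coprime_iff_not_dvd hp).2 hN
  refine ⟨N.totient, Nat.totient_pos.2 hN0, fun t a => ⟨a ^ (p ^ (N.totient * t) - 1), ⟨s, ?_⟩, ?_⟩⟩
  · have h1 : p ^ (N.totient * t) ≡ 1 [MOD N] := by
      have := (Nat.ModEq.pow_totient hco).pow t
      rwa [one_pow, ← pow_mul] at this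
    have h2 : N ∣ p ^ (N.totient * t) - 1 :=
      (Nat.modEq_iff_dvd' (Nat.one_le_pow _ _ hp.pos)).1 h1.symm
    obtain ⟨c, hc'⟩ := h2
    rw [← pow_mul, hc', show N * c * p ^ s = Nat.card A * c by rw [hc]; ring, pow_mul,
      pow_card_eq_one', one_pow]
  · rw [← pow_succ', Nat.sub_add_cancel (Nat.one_le_pow _ _ hp.pos)]

theorem core (hK : KER_st) [Finite A] (Δ : Dat A) (p d : ℕ) (hp : p.Prime) (hd : 0 < d)
    (M : Type) [AddCommGroup M] (w : A → M) (hM : ∀ x : M, p • x = 0)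
    (h1 : ∀ a u, (∃ s : ℕ, u ^ p ^ s = 1) → w (a * u) = w a)
    (h2 : ∀ a a', w (a * (Δ.σ ^ d) a' * a'⁻¹) = w a) (h3 : ∀ a, w (Δ.σ a) = w a)
    (h4 : p ∣ d → ∀ a, w (ver Δ (d / p) p a) = 0) :
    ∃ n0, 0 < n0 ∧ ∀ t, 0 < t → ∀ b : MonoidAlgebra ℤ A,
      ((b * trc Δ d b ^ (p ^ (n0 * t) - 1)).coeff.sum fun a z => z • w a) =
        b.coeff.sum fun a z => z • w a := by
  have hA : ∀ u ∈ A0 Δ p d, ∀ a, w (a * u) = w a := by
    intro u hu
    induction hu using Subgroup.closure_induction with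
    | mem u hu =>
      rcases hu with hu | ⟨a', rfl⟩
      · exact fun a => h1 a u hu
      · intro a
        rw [← mul_assoc, h2]
    | one => simp
    | mul u v _ _ hu hv => intro a; rw [← mul_assoc, hv, hu]
    | inv u _ hu => intro a; rw [← hu (a * u⁻¹), inv_mul_cancel_right]
  have hv : ∀ a : A, w (QuotientGroup.mk a : A ⧸ A0 Δ p d).out = w a := by
    intro a
    obtain ⟨u, hu⟩ := QuotientGroup.mk_out_eq_mul (A0 Δ p d) a
    rw [hu, hA u u.2]
  obtain ⟨n0, hn0, hn⟩ := exists_exp (A := A) p hp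
  refine ⟨n0, hn0, fun t ht b => ?_⟩
  have key := hK (A ⧸ A0 Δ p d) (Dbar Δ p d hd) p (n0 * t) hp (Nat.mul_pos hn0 ht) (by
      intro x
      obtain ⟨a, rfl⟩ := QuotientGroup.mk_surjective x
      obtain ⟨u, hu, he⟩ := hn t a
      rw [← QuotientGroup.mk_pow, he, eq_comm, QuotientGroup.eq, inv_mul_cancel_left]
      exact Subgroup.subset_closure (Or.inl hu)) M (fun x => w x.out) hM (by
      intro x
      obtain ⟨a, rfl⟩ := QuotientGroup.mk_surjective x
      change w (sbar Δ p d (QuotientGroup.mk a)).out = _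
      rw [sbar_mk, hv, hv, h3]) (by
      intro hpd x
      obtain ⟨a, rfl⟩ := QuotientGroup.mk_surjective x
      rw [ver_mk, hv]
      exact h4 hpd a) (piR Δ p d b)
  change ((piR Δ p d b * trc (Dbar Δ p d hd) d (piR Δ p d b) ^ _).coeff.sum _) = _ at key
  rw [← piR_trc, ← map_pow, ← map_mul, piR_sum, piR_sum] at key
  simpa only [hv] using key

end Pool.Agent.MP_f3cd89_nt.BjpX

end

section

set_option autoImplicit false

open Finset

namespace Pool.Agent.MP_f3cd89_nt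

namespace BjpX

variable {A : Type} [CommGroup A]

/-- the target subgroup -/
noncomputable def NN (Δ : Dat A) (p : ℕ) : AddSubgroup (Pt Δ ℂ → ℂ) := J Δ ℂ ⊔ pB Δ ℂ p

theorem mul_pB (hS : BRING_st) (Δ : Dat A) (p : ℕ) {f g : Pt Δ ℂ → ℂ} (hf : f ∈ B Δ ℂ)
    (hg : g ∈ pB Δ ℂ p) : f * g ∈ pB Δ ℂ p := by
  obtain ⟨h, hh, rfl⟩ := mem_pB.1 hg
  exact mem_pB.2 ⟨f * h, (hS A Δ ℂ).2.1 f hf h hh, (mul_smul_comm p f h).symm⟩

theorem mul_NN (hJ : JB_st) (hR : RING_st) (hS : BRING_st) (Δ : Dat A) (p : ℕ) :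
    ∀ f ∈ J Δ ℂ, ∀ g ∈ NN Δ p, f * g ∈ NN Δ p := by
  intro f hf g hg
  obtain ⟨x, hx, y, hy, rfl⟩ := AddSubgroup.mem_sup.1 hg
  rw [mul_add]
  exact AddSubgroup.add_mem _ (AddSubgroup.mem_sup_left ((hR A Δ ℂ).2.1 f hf x hx))
    (AddSubgroup.mem_sup_right (mul_pB hS Δ p (hJ A Δ ℂ hf) hy))

variable (A) in
/-- the augmentation ideal of the `p`-part -/
noncomputable def I1 (p : ℕ) : Ideal (MonoidAlgebra ℤ A) :=
  Ideal.span ((fun u : A => MonoidAlgebra.of ℤ A u - 1) '' {u | ∃ s : ℕ, u ^ p ^ s = 1})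

theorem sg_of (Δ : Dat A) (i : ℕ) (a : A) :
    sg Δ i (MonoidAlgebra.of ℤ A a) = MonoidAlgebra.of ℤ A ((Δ.σ ^ i) a) := sg_single i a 1

theorem I1_map (Δ : Dat A) (p i : ℕ) : (I1 A p).map (sg Δ i) ≤ I1 A p := by
  rw [I1, Ideal.map_span]
  refine Ideal.span_mono ?_
  rintro _ ⟨_, ⟨u, ⟨s, hs⟩, rfl⟩, rfl⟩
  refine ⟨(Δ.σ ^ i) u, ⟨s, by rw [← map_pow, hs, map_one]⟩, ?_⟩
  simp only [map_sub, map_one, sg_of]

theorem I1_pow [Finite A] (p : ℕ) (hp : p.Prime) :
    ∃ K : ℕ, I1 A p ^ K ≤ Ideal.span {((p : MonoidAlgebra ℤ A)) ^ 2} := by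
  refine Ideal.exists_pow_le_of_le_radical_of_fg ?_
    (Submodule.fg_span ((Set.toFinite _).image _))
  refine Ideal.span_le.2 ?_
  rintro _ ⟨u, ⟨s, hs⟩, rfl⟩
  obtain ⟨r, hr⟩ := exists_add_pow_prime_pow_eq hp (MonoidAlgebra.of ℤ A u - 1) 1 s
  rw [sub_add_cancel, ← map_pow, hs, map_one, one_pow] at hr
  refine ⟨p ^ s * 2, Ideal.mem_span_singleton'.2 ⟨((MonoidAlgebra.of ℤ A u - 1) * r) ^ 2, ?_⟩⟩
  have : (MonoidAlgebra.of ℤ A u - 1) ^ p ^ s = -(p * ((MonoidAlgebra.of ℤ A u - 1) * r)) := by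
    linear_combination -hr
  change _ = (MonoidAlgebra.of ℤ A u - 1) ^ (p ^ s * 2)
  rw [pow_mul, this]
  ring

theorem W_sq (hG : GAUSS_st) (Δ : Dat A) (p : ℕ) (hp : p.Prime) (d : ℕ) (e : ℤ)
    (b : MonoidAlgebra ℤ A) (hd : d ∣ Δ.m) (he : (d : ℤ) ∣ e)
    (hb : b ∈ Ideal.span {((p : MonoidAlgebra ℤ A)) ^ 2}) : W d b e ∈ NN Δ p := by
  obtain ⟨c, rfl⟩ := Ideal.mem_span_singleton'.1 hb
  have : c * (p : MonoidAlgebra ℤ A) ^ 2 = p ^ 2 • c := by
    rw [nsmul_eq_mul, Nat.cast_pow, mul_comm]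
  rw [this]
  exact AddSubgroup.mem_sup_right ((hG A Δ ℂ p hp).1 d c e hd he)

theorem stepA [Finite A] (hT : TRI_st) (hG : GAUSS_st) (hJ : JB_st) (hR : RING_st)
    (hS : BRING_st) (Δ : Dat A) (p : ℕ) (hp : p.Prime) (d : ℕ) (e : ℤ)
    (b : MonoidAlgebra ℤ A) (hd : d ∣ Δ.m) (he : (d : ℤ) ∣ e) (hb : b ∈ I1 A p) :
    W d b e ∈ NN Δ p := by
  obtain ⟨K, hK⟩ := I1_pow (A := A) p hp
  have key : ∀ j k : ℕ, 1 ≤ k → K ≤ k + j → ∀ (d : ℕ) (e : ℤ) (b : MonoidAlgebra ℤ A),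
      d ∣ Δ.m → (d : ℤ) ∣ e → b ∈ I1 A p ^ k → W d b e ∈ NN Δ p := by
    intro j
    induction j with
    | zero =>
      intro k _ hk d e b hd he hb
      exact W_sq hG Δ p hp d e b hd he (hK (Ideal.pow_le_pow_right (by omega) hb))
    | succ j ih =>
      intro k hk1 hk
      refine hT A Δ ℂ (NN Δ p) (I1 A p ^ k) le_sup_left (mul_NN hJ hR hS Δ p) ?_ ?_
      · intro i b hb
        have h1 := Ideal.mem_map_of_mem (sg Δ i) hb
        rw [Ideal.map_pow] at h1
        exact Ideal.pow_right_mono (I1_map Δ p i) k h1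
      · intro d e b hd he hb
        rw [← pow_add] at hb
        exact ih (k + 1) (by omega) (by omega) d e b hd he (Ideal.pow_le_pow_right (by omega) hb)
  exact key K 1 le_rfl (by omega) d e b hd he (by rwa [pow_one])

theorem stepB (hT : TRI_st) (hG : GAUSS_st) (hJ : JB_st) (hR : RING_st)
    (hS : BRING_st) (Δ : Dat A) (p : ℕ) (hp : p.Prime) (d : ℕ) (e : ℤ)
    (b : MonoidAlgebra ℤ A) (hd : d ∣ Δ.m) (he : (d : ℤ) ∣ e) :
    W d (p • b) e ∈ NN Δ p := by
  refine hT A Δ ℂ (NN Δ p) (Ideal.span {(p : MonoidAlgebra ℤ A)}) le_sup_left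
    (mul_NN hJ hR hS Δ p) ?_ ?_ d e _ hd he ?_
  · intro i b hb
    obtain ⟨c, rfl⟩ := Ideal.mem_span_singleton'.1 hb
    exact Ideal.mem_span_singleton'.2 ⟨sg Δ i c, by rw [map_mul, map_natCast]⟩
  · intro d e b hd he hb
    rw [Ideal.span_singleton_mul_span_singleton, ← sq] at hb
    exact W_sq hG Δ p hp d e b hd he hb
  · exact Ideal.mem_span_singleton'.2 ⟨b, by rw [nsmul_eq_mul, mul_comm]⟩

/-- `B` as a subring -/
noncomputable def SB (hS : BRING_st) (Δ : Dat A) : Subring (Pt Δ ℂ → ℂ) :=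
  { B Δ ℂ with
    one_mem' := (hS A Δ ℂ).1
    mul_mem' := fun hf hg => (hS A Δ ℂ).2.1 _ hf _ hg }

theorem pow_mem_NN [Finite A] (hC : C1_st) (hJ : JB_st) (hR : RING_st) (hS : BRING_st)
    (Δ : Dat A) (p : ℕ) (hp : p.Prime) (β : Pt Δ ℂ → ℂ) (hβ : β ∈ B Δ ℂ) :
    ∃ K : ℕ, ∀ n, K ≤ n → β ^ p ^ n ∈ NN Δ p := by
  obtain ⟨Θ, hΘ, K, hK⟩ := hC A Δ p hp β hβ
  refine ⟨K, fun n hn => ?_⟩
  have hΘB : Θ ∈ B Δ ℂ := hJ A Δ ℂ hΘ
  have hx : β - Θ ∈ B Δ ℂ := AddSubgroup.sub_mem _ hβ hΘB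
  obtain ⟨r, hr⟩ := exists_add_pow_prime_pow_eq hp (⟨β - Θ, hx⟩ : SB hS Δ) ⟨Θ, hΘB⟩ n
  have hr' : β ^ p ^ n = (β - Θ) ^ p ^ n + Θ ^ p ^ n + p • ((β - Θ) * Θ * (r : Pt Δ ℂ → ℂ)) := by
    have := congrArg (fun z : SB hS Δ => (z : Pt Δ ℂ → ℂ)) hr
    simp only [SubmonoidClass.coe_pow, Subring.coe_add, Subring.coe_mul, sub_add_cancel,
      Subring.coe_natCast] at this
    rw [this, nsmul_eq_mul]
    ring
  have hKn : K ≤ p ^ n := hn.trans (Nat.lt_pow_self hp.one_lt).le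
  rw [hr']
  refine AddSubgroup.add_mem _ (AddSubgroup.add_mem _ (AddSubgroup.mem_sup_right ?_)
    (AddSubgroup.mem_sup_left ?_)) (AddSubgroup.mem_sup_right ?_)
  · rw [← Nat.sub_add_cancel hKn, pow_add]
    exact mul_pB hS Δ p ((SB hS Δ).pow_mem (x := β - Θ) hx _) hK
  · generalize p ^ n = q
    induction q with
    | zero => rw [pow_zero]; exact (hR A Δ ℂ).1
    | succ q ih => rw [pow_succ]; exact (hR A Δ ℂ).2.1 _ ih _ hΘ
  · exact mem_pB.2 ⟨_, (SB hS Δ).mul_mem ((SB hS Δ).mul_mem (x := β - Θ) (y := Θ) hx hΘB) r.2, rfl⟩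

theorem Vl_pow (hS : BRING_st) (Δ : Dat A) (d : ℕ) (b : MonoidAlgebra ℤ A) (j : ℕ) :
    (Vl d b 0 : Pt Δ ℂ → ℂ) ^ (j + 1) = Vl d (b * trc Δ d b ^ j) 0 := by
  induction j with
  | zero => simp
  | succ j ih => rw [pow_succ, ih, (hS A Δ ℂ).2.2.1, mul_assoc, ← pow_succ]

/-- the class of `Vl d b 0` -/
noncomputable def phi (Δ : Dat A) (p d : ℕ) :
    MonoidAlgebra ℤ A →+ (Pt Δ ℂ → ℂ) ⧸ NN Δ p :=
  (QuotientAddGroup.mk' (NN Δ p)).comp (AddMonoidHom.mk' (fun b => Vl d b 0) fun b b' =>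
    Vl_add d b b' 0)

theorem phi_eq_zero (Δ : Dat A) (p d : ℕ) (b : MonoidAlgebra ℤ A) :
    phi Δ p d b = 0 ↔ Vl d b 0 ∈ NN Δ p := QuotientAddGroup.eq_zero_iff _

theorem sum_of {M : Type} [AddCommGroup M] (ψ : MonoidAlgebra ℤ A →+ M) (b : MonoidAlgebra ℤ A) :
    (b.coeff.sum fun a z => z • ψ (MonoidAlgebra.of ℤ A a)) = ψ b := by
  conv_rhs => rw [← MonoidAlgebra.sum_coeff_single b]
  rw [Finsupp.sum, Finsupp.sum, map_sum]
  refine sum_congr rfl fun a _ => ?_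
  rw [← map_zsmul]
  simp

theorem stepC [Finite A] (hC : C1_st) (hT : TRI_st) (hG : GAUSS_st) (hW : WV_st) (hJ : JB_st)
    (hR : RING_st) (hS : BRING_st) (hB : BASE_st) (hK : KER_st) (Δ : Dat A) (p : ℕ)
    (hp : p.Prime) (d : ℕ) (hd : d ∣ Δ.m) (hgt : Bgt Δ ℂ d ≤ NN Δ p) (a : A) :
    V d a 0 ∈ NN Δ p := by
  have hd0 : 0 < d := Nat.pos_of_dvd_of_pos hd Δ.m_pos
  let ψ := (phi Δ p d).rangeRestrict
  have hψ : ∀ b, ψ b = 0 ↔ Vl d b 0 ∈ NN Δ p := by
    intro b
    rw [← phi_eq_zero, Subtype.ext_iff]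
    rfl
  have hψV : ∀ a a' : A, (V d a 0 : Pt Δ ℂ → ℂ) = V d a' 0 →
      ψ (MonoidAlgebra.of ℤ A a) = ψ (MonoidAlgebra.of ℤ A a') := by
    intro a a' h
    rw [← sub_eq_zero, ← map_sub, hψ, sub_eq_add_neg, Vl_add, Vl_neg, Vl_of, Vl_of, h,
      add_neg_cancel]
    exact AddSubgroup.zero_mem _
  obtain ⟨n0, hn0, hn⟩ := core hK Δ p d hp hd0 (phi Δ p d).range
    (fun a => ψ (MonoidAlgebra.of ℤ A a)) (by
      intro x
      obtain ⟨b, rfl⟩ := (phi Δ p d).rangeRestrict_surjective x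
      refine Subtype.ext ?_
      change p • (QuotientAddGroup.mk' (NN Δ p) (Vl d b 0)) = 0
      rw [← map_nsmul]
      exact (QuotientAddGroup.eq_zero_iff _).2 (AddSubgroup.mem_sup_right
        (mem_pB.2 ⟨_, Vl_mem b hd (dvd_zero _), rfl⟩))) (by
      intro a u hu
      have hb : MonoidAlgebra.of ℤ A (a * u) - MonoidAlgebra.of ℤ A a ∈ I1 A p := by
        rw [map_mul, ← mul_sub_one]
        exact Ideal.mul_mem_left _ _ (Ideal.subset_span ⟨u, hu, rfl⟩)
      change ψ _ = ψ _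
      rw [← sub_eq_zero, ← map_sub, hψ]
      have h1 := stepA hT hG hJ hR hS Δ p hp d 0 _ hd (dvd_zero _) hb
      have h2 := hgt (hW A Δ ℂ d (MonoidAlgebra.of ℤ A (a * u) - MonoidAlgebra.of ℤ A a) 0 hd
        (dvd_zero _))
      simpa only [sub_sub_cancel] using AddSubgroup.sub_mem _ h1 h2) (by
      intro a a'
      exact hψV _ _ (funext fun P => (hB A Δ ℂ).2.2.1 d a a' 0 P)) (by
      intro a
      refine hψV _ _ (funext fun P => ?_)
      have := (hB A Δ ℂ).2.1 d 1 (MonoidAlgebra.of ℤ A a) 0 P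
      rwa [sg_of, pow_one] at this) (by
      intro hpd a
      change ψ _ = 0
      rw [hψ, Vl_of]
      have he : d / p * p = d := Nat.div_mul_cancel hpd
      have h1 := (hG A Δ ℂ p hp).2 (d / p) a 0 (by rwa [he]) (dvd_zero _)
      rw [he, zero_mul] at h1
      have h2 := stepB hT hG hJ hR hS Δ p hp (d / p) 0 (MonoidAlgebra.of ℤ A a)
        ((Nat.div_dvd_of_dvd hpd).trans hd) (dvd_zero _)
      have h3 := (sup_le (le_sup_right : pB Δ ℂ p ≤ NN Δ p) hgt) h1
      have h4 := AddSubgroup.sub_mem (NN Δ p) h3 h2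
      rwa [add_sub_cancel_left] at h4)
  obtain ⟨K, hKn⟩ := pow_mem_NN hC hJ hR hS Δ p hp (V d a 0) (V_mem a hd (dvd_zero _))
  have h1 := hn (K + 1) (Nat.succ_pos _) (MonoidAlgebra.of ℤ A a)
  rw [sum_of, sum_of] at h1
  have h2 := hKn (n0 * (K + 1)) (by nlinarith)
  rw [← Vl_of, ← Nat.sub_add_cancel (Nat.one_le_pow (n0 * (K + 1)) p hp.pos), Vl_pow hS, ← hψ,
    h1, hψ, Vl_of] at h2
  exact h2

end BjpX

open BjpX in
theorem bjp (hC : C1_st) (hT : TRI_st) (hG : GAUSS_st) (hW : WV_st) (hJ : JB_st) (hR : RING_st)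
    (hS : BRING_st) (hB : BASE_st) (hK : KER_st) : BJP_st := by
  intro A _ _ Δ p hp
  have key : ∀ n d : ℕ, d ∣ Δ.m → Δ.m < d + n → ∀ (a : A) (e : ℤ), (d : ℤ) ∣ e →
      V d a e ∈ NN Δ p := by
    intro n
    induction n with
    | zero =>
      intro d hd h
      have := Nat.le_of_dvd Δ.m_pos hd
      omega
    | succ n ih =>
      rintro d hd h a e ⟨t, rfl⟩
      have hgt : Bgt Δ ℂ d ≤ NN Δ p := by
        refine (AddSubgroup.closure_le _).2 ?_
        rintro _ ⟨d', a', e', h1, h2, h3, h4, rfl⟩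
        have := Nat.le_of_dvd (Nat.pos_of_dvd_of_pos h1 Δ.m_pos) h2
        exact ih d' h1 (by omega) a' e' h4
      have h0 := stepC hC hT hG hW hJ hR hS hB hK Δ p hp d hd hgt a
      have h1 := mul_NN hJ hR hS Δ p _ ((hR A Δ ℂ).2.2.2.2.1 t) _ h0
      convert h1 using 1
      funext P
      have := (hB A Δ ℂ).1 d (MonoidAlgebra.of ℤ A a) 0 t P
      rw [zero_add, mul_comm t] at this
      rw [Pi.mul_apply, mul_comm _ (V d a 0 P)]
      exact this
  refine (AddSubgroup.closure_le _).2 ?_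
  rintro _ ⟨d, a, e, hd, he, rfl⟩
  exact key (Δ.m + 1) d hd (by omega) a e he

end Pool.Agent.MP_f3cd89_nt

end

section

set_option autoImplicit false
set_option linter.unusedSectionVars false

open Finset

namespace Pool.Agent.MP_f3cd89_nt

namespace KerX

variable {A : Type} [CommGroup A] {Δ : Dat A}

/-- the linear extension of a function on the group -/
noncomputable def L {M : Type} [AddCommGroup M] (v : A → M) : MonoidAlgebra ℤ A →+ M :=
  AddMonoidHom.mk' (fun b => b.coeff.sum fun a z => z • v a) fun b b' => by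
    rw [MonoidAlgebra.coeff_add]
    exact Finsupp.sum_add_index' (fun _ => zero_smul _ _) fun _ _ _ => add_smul _ _ _

theorem L_single {M : Type} [AddCommGroup M] (v : A → M) (a : A) (z : ℤ) :
    L v (MonoidAlgebra.single a z) = z • v a := by
  change (MonoidAlgebra.single a z).coeff.sum (fun a z => z • v a) = _
  rw [MonoidAlgebra.coeff_single]
  exact Finsupp.sum_single_index (zero_smul _ _)

theorem shift {M : Type} [AddCommGroup M] (m : ℕ) (g : ℕ → M) (hg : ∀ i, g (i + m) = g i)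
    (j : ℕ) : ∑ i ∈ range m, g (i + j) = ∑ i ∈ range m, g i := by
  induction j with
  | zero => simp
  | succ j ih =>
    have h1 := sum_range_succ (fun i => g (i + j)) m
    have h2 := sum_range_succ' (fun i => g (i + j)) m
    rw [h1, add_comm m j, hg, zero_add, ih] at h2
    rw [add_right_cancel h2]
    refine sum_congr rfl fun i _ => ?_
    congr 1; ring

theorem pow_add_m (i : ℕ) : Δ.σ ^ (i + Δ.m) = Δ.σ ^ i := by
  rw [pow_add, Δ.σ_pow, mul_one]

theorem sg_trc (i : ℕ) (b : MonoidAlgebra ℤ A) : sg Δ i (trc Δ Δ.m b) = trc Δ Δ.m b := by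
  unfold trc
  rw [map_sum]
  simp_rw [sg_sg]
  rw [← shift Δ.m (fun j => sg Δ j b) (fun j => by simp only [sg, pow_add_m]) i]
  refine sum_congr rfl fun j _ => ?_
  rw [add_comm]

theorem trc_mul (b : MonoidAlgebra ℤ A) (q : ℕ) :
    trc Δ Δ.m (b * trc Δ Δ.m b ^ q) = trc Δ Δ.m b ^ (q + 1) := by
  rw [pow_succ']
  conv_lhs => unfold trc
  conv_rhs => arg 1; unfold trc
  rw [sum_mul]
  refine sum_congr rfl fun i _ => ?_
  rw [map_mul, map_pow]
  congr 2
  exact sg_trc i b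

theorem frob (p n : ℕ) (hp : p.Prime) (h : ∀ a : A, a ^ p ^ n = a) (x : MonoidAlgebra ℤ A) :
    (p : MonoidAlgebra ℤ A) ∣ x ^ p ^ n - x := by
  induction x using MonoidAlgebra.induction_on with
  | of a => rw [← map_pow, h, sub_self]; exact dvd_zero _
  | add x y hx hy =>
    obtain ⟨r, hr⟩ := exists_add_pow_prime_pow_eq hp x y n
    have : (x + y) ^ p ^ n - (x + y) = (x ^ p ^ n - x) + (y ^ p ^ n - y) + p * (x * y * r) := by
      rw [hr]; ring
    rw [this]
    exact dvd_add (dvd_add hx hy) (dvd_mul_right _ _)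
  | smul z x hx =>
    have := Fact.mk hp
    have hz : (p : ℤ) ∣ z ^ p ^ n - z := by
      rw [← ZMod.intCast_zmod_eq_zero_iff_dvd]
      push_cast
      rw [ZMod.pow_card_pow, sub_self]
    obtain ⟨u, hu⟩ := hz
    have hu' : (z : MonoidAlgebra ℤ A) ^ p ^ n - z = p * u := by
      exact_mod_cast congrArg (Int.cast : ℤ → MonoidAlgebra ℤ A) hu
    have : (z • x) ^ p ^ n - z • x = (z : MonoidAlgebra ℤ A) ^ p ^ n * (x ^ p ^ n - x) +
        ((z : MonoidAlgebra ℤ A) ^ p ^ n - z) * x := by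
      rw [zsmul_eq_mul, mul_pow]; ring
    rw [this, hu']
    exact dvd_add (dvd_mul_of_dvd_right hx _) (dvd_mul_of_dvd_left (dvd_mul_right _ _) _)

variable (Δ) in
/-- a representative of the orbit -/
noncomputable def rp (a : A) : A := Classical.epsilon fun b => ∃ j : ℕ, (Δ.σ ^ j) a = b

theorem rp_spec (a : A) : ∃ j : ℕ, (Δ.σ ^ j) a = rp Δ a :=
  Classical.epsilon_spec (p := fun b => ∃ j : ℕ, (Δ.σ ^ j) a = b) ⟨a, 0, by simp⟩

theorem rp_σ (a : A) : rp Δ (Δ.σ a) = rp Δ a := by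
  unfold rp
  congr 1
  funext b
  apply propext
  constructor
  · rintro ⟨j, rfl⟩
    exact ⟨j + 1, by rw [pow_succ, MulAut.mul_apply]⟩
  · rintro ⟨j, rfl⟩
    refine ⟨j + (Δ.m - 1), ?_⟩
    rw [← MulAut.mul_apply, ← pow_succ, add_assoc, Nat.sub_add_cancel Δ.m_pos, pow_add_m]

theorem inv_pow {M : Type} (v : A → M) (hv : ∀ a, v (Δ.σ a) = v a) (i : ℕ) (a : A) :
    v ((Δ.σ ^ i) a) = v a := by
  induction i with
  | zero => simp
  | succ i ih => rw [pow_succ', MulAut.mul_apply, hv, ih]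

theorem fix_iff (i : ℕ) (a : A) :
    (Δ.σ ^ i) a = a ↔ Function.minimalPeriod Δ.σ a ∣ i := by
  have h : (Δ.σ ^ i) a = (⇑Δ.σ)^[i] a := by
    induction i with
    | zero => simp
    | succ i ih => rw [pow_succ', MulAut.mul_apply, Function.iterate_succ_apply', ih]
  rw [← Function.isPeriodicPt_iff_minimalPeriod_dvd, Function.IsPeriodicPt, Function.IsFixedPt, h]

open Classical in
theorem count {M : Type} [AddCommGroup M] (a : A) (x : M) :
    ∑ i ∈ range Δ.m, (if (Δ.σ ^ i) a = a then x else 0) =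
      (Δ.m / Function.minimalPeriod Δ.σ a) • x := by
  rw [← shift Δ.m (fun i => if (Δ.σ ^ i) a = a then x else 0)
    (fun i => by simp only [pow_add_m]) 1, ← sum_filter, sum_const, ← Nat.card_multiples]
  congr 2
  refine filter_congr fun i _ => fix_iff _ _

theorem exw (p n : ℕ) (hp : p.Prime) (hn : 0 < n) (h : ∀ a : A, a ^ p ^ n = a)
    {M : Type} [AddCommGroup M] (v : A → M) (hM : ∀ x : M, p • x = 0)
    (hv : ∀ a, v (Δ.σ a) = v a) (h0 : p ∣ Δ.m → ∀ a, v (ver Δ (Δ.m / p) p a) = 0) :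
    ∃ w : A → M, ∀ a, ∑ i ∈ range Δ.m, w ((Δ.σ ^ i) a) = v a := by
  classical
  have hc : ∀ a : A, ∃ c : ℤ, (Δ.m / Function.minimalPeriod Δ.σ a) • c • v a = v a := by
    intro a
    set o := Function.minimalPeriod Δ.σ a with ho
    have hom : o ∣ Δ.m := (fix_iff _ _).1 (by rw [Δ.σ_pow]; rfl)
    by_cases hd : p ∣ Δ.m / o
    · have hpm : p ∣ Δ.m := hd.trans (Nat.div_dvd_of_dvd hom)
      have hop : o ∣ Δ.m / p := by
        rw [Nat.dvd_div_iff_mul_dvd hpm, mul_comm, ← Nat.dvd_div_iff_mul_dvd hom]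
        exact hd
      have hv0 : v a = 0 := by
        have h1 := h0 hpm (a ^ p ^ (n - 1))
        have h2 : ver Δ (Δ.m / p) p (a ^ p ^ (n - 1)) = a := by
          unfold ver
          rw [prod_congr rfl (g := fun _ => a ^ p ^ (n - 1)), prod_const, card_range, ← pow_mul,
            ← pow_succ, Nat.sub_add_cancel hn, h]
          intro t _
          rw [map_pow, (fix_iff _ _).2 (dvd_mul_of_dvd_right hop _)]
        rwa [h2] at h1
      exact ⟨0, by simp [hv0]⟩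
    · have hco : IsCoprime ((Δ.m / o : ℕ) : ℤ) (p : ℤ) :=
        Nat.isCoprime_iff_coprime.2 ((Nat.Prime.coprime_iff_not_dvd hp).2 hd).symm
      obtain ⟨u, u', hu⟩ := hco
      refine ⟨u, ?_⟩
      have h1 : (p : ℤ) • v a = 0 := by rw [natCast_zsmul, hM]
      calc (Δ.m / o) • u • v a = (u * ((Δ.m / o : ℕ) : ℤ) + u' * p) • v a := by
            rw [add_smul, mul_smul u', h1, smul_zero, add_zero, mul_comm, mul_smul, natCast_zsmul]
        _ = v a := by rw [hu, one_smul]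
  choose c hc using hc
  refine ⟨fun a => if a = rp Δ a then c a • v a else 0, fun a => ?_⟩
  obtain ⟨j, hj⟩ := rp_spec (Δ := Δ) a
  have hr : ∀ i, rp Δ ((Δ.σ ^ i) a) = rp Δ a := fun i => inv_pow (rp Δ) rp_σ i a
  rw [← shift Δ.m (fun i => if (Δ.σ ^ i) a = rp Δ ((Δ.σ ^ i) a) then
    c ((Δ.σ ^ i) a) • v ((Δ.σ ^ i) a) else 0) (fun i => by simp only [pow_add_m]) j]
  have hva : v (rp Δ a) = v a := by rw [← hj, inv_pow v hv]
  rw [← hva, ← hc (rp Δ a), ← count]
  refine sum_congr rfl fun i _ => ?_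
  rw [hr, pow_add, MulAut.mul_apply, hj]
  split_ifs with h1
  · rw [h1]
  · rfl

theorem L_trc {M : Type} [AddCommGroup M] (v w : A → M)
    (hw : ∀ a, ∑ i ∈ range Δ.m, w ((Δ.σ ^ i) a) = v a) (x : MonoidAlgebra ℤ A) :
    L w (trc Δ Δ.m x) = L v x := by
  unfold trc
  induction x using MonoidAlgebra.induction_linear with
  | zero => simp
  | add x y hx hy => simp only [map_add, sum_add_distrib, hx, hy]
  | single a z =>
    simp only [map_sum, sg_single, L_single]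
    rw [← smul_sum, hw]

theorem V_per [Finite A] (hB : BASE_st) (d : ℕ) (hd : d ∣ Δ.m) (a : A) (e s : ℤ) :
    (V d a (e + s * (Δ.m * (Δ.m * Nat.card A) : ℕ)) : Pt Δ ℂ → ℂ) = V d a e := by
  funext P
  obtain ⟨u, hu⟩ := hd
  have h1 := (hB A Δ ℂ).1 d (MonoidAlgebra.of ℤ A a) e (s * u * (Δ.m * Nat.card A : ℕ)) P
  have h2 : P.ω ^ (Δ.m * Nat.card A) = 1 := by
    rw [pow_mul, P.ω_pow, ← map_pow, pow_card_eq_one', map_one]
  have h3 : P.ω ^ (s * u * (Δ.m * Nat.card A : ℕ) * P.d : ℤ) = 1 := by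
    rw [show (s * u * (Δ.m * Nat.card A : ℕ) * P.d : ℤ) =
      (Δ.m * Nat.card A : ℕ) * (s * u * P.d) by ring, zpow_mul, zpow_natCast, h2, one_zpow]
  rw [h3, Units.val_one, mul_one] at h1
  unfold V
  rw [← h1]
  congr 2
  rw [Nat.cast_mul Δ.m (Δ.m * Nat.card A)]
  generalize ((Δ.m * Nat.card A : ℕ) : ℤ) = T
  rw [hu]
  push_cast
  ring

theorem B_fg [Finite A] (hB : BASE_st) : (B Δ ℂ).FG := by
  rw [AddSubgroup.fg_iff]
  refine ⟨_, rfl, ?_⟩
  set T : ℕ := Δ.m * (Δ.m * Nat.card A) with hT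
  have hT0 : (0 : ℤ) < T := by
    have := Δ.m_pos
    have : 0 < Nat.card A := Nat.card_pos
    positivity
  refine (((Set.finite_Icc 0 Δ.m).prod ((Set.finite_univ (α := A)).prod
    (Set.finite_Icc (0 : ℤ) T))).image
    (fun x : ℕ × A × ℤ => (V x.1 x.2.1 x.2.2 : Pt Δ ℂ → ℂ))).subset ?_
  rintro f ⟨d, a, e, hd, -, rfl⟩
  refine ⟨(d, a, e % T), ⟨⟨Nat.zero_le _, Nat.le_of_dvd Δ.m_pos hd⟩, Set.mem_univ _,
    Int.emod_nonneg _ hT0.ne', (Int.emod_lt_of_pos _ hT0).le⟩, ?_⟩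
  have := V_per hB d hd a (e % T) (e / T)
  rw [← hT, mul_comm (e / T), Int.emod_add_mul_ediv] at this
  exact this.symm

end KerX

open KerX

theorem ker : KER_st := by
  intro A _ _ Δ p n hp hn h M _ v hM hv h0 b
  obtain ⟨w, hw⟩ := exw p n hp hn h v hM hv h0
  change L v _ = L v b
  rw [← L_trc v w hw, ← L_trc v w hw, trc_mul,
    Nat.sub_add_cancel (Nat.one_le_pow _ _ hp.pos), ← sub_eq_zero, ← map_sub]
  obtain ⟨u, hu⟩ := frob p n hp h (trc Δ Δ.m b)
  rw [hu, ← nsmul_eq_mul, map_nsmul, hM]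

theorem bj (hP : BJP_st) (hB : BASE_st) : BJ_st := by
  intro A _ _ Δ
  set B' : Submodule ℤ (Pt Δ ℂ → ℂ) := (B Δ ℂ).toIntSubmodule with hB'
  set J' : Submodule ℤ (Pt Δ ℂ → ℂ) := (J Δ ℂ).toIntSubmodule with hJ'
  have hfg : B'.FG := by
    rw [Submodule.fg_iff_addSubgroup_fg]
    exact B_fg hB
  have key : ∀ p : ℕ, p.Prime → ∃ r : ℤ, (p : ℤ) ∣ r - 1 ∧ r ∈ J'.colon (B' : Set _) := by
    intro p hp
    have hle : B' ≤ J' ⊔ Ideal.span {(p : ℤ)} • B' := by
      intro f hf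
      obtain ⟨y, hy, z, hz, rfl⟩ := AddSubgroup.mem_sup.1 (hP A Δ p hp hf)
      obtain ⟨g, hg, rfl⟩ := mem_pB.1 hz
      refine Submodule.add_mem_sup hy ?_
      rw [← natCast_zsmul]
      exact Submodule.smul_mem_smul (Ideal.mem_span_singleton_self _) hg
    obtain ⟨r, hr, hr'⟩ :=
      Submodule.exists_sub_one_mem_and_smul_le_of_fg_of_le_sup hfg le_rfl hle
    exact ⟨r, Ideal.mem_span_singleton.1 hr, Submodule.mem_colon.2 fun s hs =>
      hr' (Submodule.smul_mem_pointwise_smul s r B' hs)⟩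
  obtain ⟨g, hg⟩ := (IsPrincipalIdealRing.principal (J'.colon (B' : Set _))).principal
  have h1 : (1 : ℤ) ∈ J'.colon (B' : Set _) := by
    by_cases hg1 : g.natAbs = 1
    · rw [hg]
      exact Ideal.mem_span_singleton.2 (Int.isUnit_iff_natAbs_eq.2 hg1).dvd
    · obtain ⟨p, hp, hpg⟩ := Nat.exists_prime_and_dvd hg1
      obtain ⟨r, hr, hr'⟩ := key p hp
      rw [hg] at hr'
      have h2 : (p : ℤ) ∣ r := (Int.natCast_dvd.2 hpg).trans (Ideal.mem_span_singleton.1 hr')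
      have h3 : (p : ℤ) ∣ 1 := by simpa using dvd_sub h2 hr
      exact absurd (Int.natCast_dvd.1 h3) (by simpa using hp.ne_one)
  intro f hf
  have h2 := Submodule.mem_colon.1 h1 f hf
  rw [one_smul] at h2
  exact h2

end Pool.Agent.MP_f3cd89_nt

end

section

set_option autoImplicit false

namespace Pool.Agent.MP_f3cd89_nt

namespace RepX

variable {A : Type} [CommGroup A] {Δ : Dat A} {G : Type} [Group G] {k : Type} [CommRing k]

theorem conj_pow (π : Pres Δ G) (i : ℕ) (a : A) :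
    π.X ^ i * π.ι a * (π.X ^ i)⁻¹ = π.ι ((Δ.σ ^ i) a) := by
  induction i with
  | zero => simp
  | succ i ih =>
    rw [pow_succ' Δ.σ, MulAut.mul_apply, ← π.conj, ← ih, pow_succ']
    group

theorem conj_zpow (π : Pres Δ G) (e : ℤ) (a : A) :
    π.X ^ e * π.ι a * (π.X ^ e)⁻¹ = π.ι ((Δ.σ ^ e) a) := by
  obtain ⟨i, rfl | rfl⟩ := e.eq_nat_or_neg
  · rw [zpow_natCast, zpow_natCast, conj_pow]
  · have h := conj_pow π i ((Δ.σ ^ i)⁻¹ a)
    rw [MulAut.apply_inv_self] at h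
    rw [zpow_neg, zpow_neg, zpow_natCast, zpow_natCast, ← h]
    group

theorem mul_eq (π : Pres Δ G) (a a' : A) (e e' : ℤ) :
    π.ι a * π.X ^ e * (π.ι a' * π.X ^ e') = π.ι (a * (Δ.σ ^ e) a') * π.X ^ (e + e') := by
  rw [map_mul, ← conj_zpow, zpow_add]
  group

theorem inv_eq (π : Pres Δ G) (a : A) (e : ℤ) :
    (π.ι a * π.X ^ e)⁻¹ = π.ι ((Δ.σ ^ (-e)) a⁻¹) * π.X ^ (-e) := by
  rw [← conj_zpow, map_inv]
  group

theorem uniq (π : Pres Δ G) {a a' : A} {e e' : ℤ} (h : π.ι a * π.X ^ e = π.ι a' * π.X ^ e') :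
    ∃ t : ℤ, e = e' + Δ.m * t ∧ a' = a * Δ.c ^ t := by
  have h1 : π.X ^ (e - e') = π.ι (a⁻¹ * a') := by
    rw [map_mul, map_inv, zpow_sub, eq_inv_mul_iff_mul_eq, ← mul_assoc, h, mul_inv_cancel_right]
  obtain ⟨t, ht⟩ := π.free _ _ h1
  refine ⟨t, by linarith, ?_⟩
  rw [ht, zpow_mul, zpow_natCast, π.pow, ← map_zpow] at h1
  rw [π.inj h1, mul_inv_cancel_left]

theorem eta_dvd (P : Pt Δ k) {z : ℤ} (h : (P.d : ℤ) ∣ z) (a : A) : P.η ((Δ.σ ^ z) a) = P.η a := by
  obtain ⟨t, rfl⟩ := h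
  obtain ⟨i, rfl | rfl⟩ := t.eq_nat_or_neg
  · rw [← Nat.cast_mul, zpow_natCast, mul_comm, P.inv_mul]
  · have h := P.inv_mul i ((Δ.σ ^ (i * P.d))⁻¹ a)
    rw [MulAut.apply_inv_self] at h
    rw [mul_neg, ← Nat.cast_mul, zpow_neg, zpow_natCast, mul_comm, ← h]

theorem eta_val (P : Pt Δ k) (i : ZMod P.d) (e : ℤ) (a : A) :
    P.η ((Δ.σ ^ (i + (e : ZMod P.d)).val) a) = P.η ((Δ.σ ^ i.val) ((Δ.σ ^ e) a)) := by
  have h : (P.d : ℤ) ∣ ((i + (e : ZMod P.d)).val : ℤ) - ((i.val : ℤ) + e) := by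
    rw [← ZMod.intCast_zmod_eq_zero_iff_dvd]
    simp
  rw [← eta_dvd P h ((Δ.σ ^ i.val) _), ← zpow_natCast Δ.σ i.val, ← MulAut.mul_apply,
    ← MulAut.mul_apply, ← zpow_add, ← zpow_add, ← zpow_natCast]
  congr 3
  ring

theorem rho_of (P : Pt Δ k) (a : A) (e : ℤ) (i j : ZMod P.d) :
    rho P (Finsupp.single e (MonoidAlgebra.of ℤ A a)) i j =
      if j = i + (e : ZMod P.d) then ((P.η ((Δ.σ ^ i.val) a) * P.ω ^ e : kˣ) : k) else 0 := by
  rw [rho_single, lam_of, Units.val_mul]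

theorem omega_add (P : Pt Δ k) (e t : ℤ) : P.ω ^ (e + Δ.m * t) = P.η Δ.c ^ t * P.ω ^ e := by
  rw [zpow_add, zpow_mul, zpow_natCast, P.ω_pow, mul_comm]

theorem rep_eq (π : Pres Δ G) (P : Pt Δ k) (a : A) (e : ℤ) :
    rep π P (π.ι a * π.X ^ e) = rho P (Finsupp.single e (MonoidAlgebra.of ℤ A a)) := by
  obtain ⟨t, h1, h2⟩ := uniq π (π.eq_pa (π.ι a * π.X ^ e))
  unfold rep
  rw [h2]
  generalize π.pe (π.ι a * π.X ^ e) = e' at h1
  subst h1
  ext i j
  have h3 : ((Δ.m : ℕ) : ZMod P.d) = 0 := (ZMod.natCast_eq_zero_iff _ _).2 P.d_dvd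
  rw [rho_of, rho_of, omega_add, map_mul, map_zpow, Δ.pow_c, map_mul, map_zpow, mul_assoc]
  simp [h3]

theorem psi_eq (π : Pres Δ G) (P : Pt Δ k) (a : A) (e : ℤ) :
    psi π P (π.ι a * π.X ^ e) = P.η a * P.ω ^ e := by
  obtain ⟨t, h1, h2⟩ := uniq π (π.eq_pa (π.ι a * π.X ^ e))
  unfold psi
  rw [h2]
  generalize π.pe (π.ι a * π.X ^ e) = e' at h1
  subst h1
  rw [omega_add, map_mul, map_zpow, mul_assoc]

theorem rep_one (π : Pres Δ G) (P : Pt Δ k) : rep π P 1 = 1 := by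
  have h := rep_eq π P 1 0
  rw [map_one, zpow_zero, mul_one] at h
  rw [h]
  ext i j
  rw [rho_of, Matrix.one_apply]
  simp [eq_comm]

theorem rep_mul (π : Pres Δ G) (P : Pt Δ k) (g h : G) :
    rep π P (g * h) = rep π P g * rep π P h := by
  obtain ⟨a, e, rfl⟩ := π.gen g
  obtain ⟨a', e', rfl⟩ := π.gen h
  rw [mul_eq, rep_eq, rep_eq, rep_eq]
  ext i j
  simp only [Matrix.mul_apply, rho_of, ite_mul, zero_mul, Finset.sum_ite_eq', Finset.mem_univ,
    if_true]
  rw [eta_val, Int.cast_add, ← add_assoc]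
  split_ifs
  · rw [← Units.val_mul, map_mul, map_mul, zpow_add, mul_mul_mul_comm]
  · rw [mul_zero]

theorem rep_tw (π : Pres Δ G) (P : Pt Δ k) (g : G) :
    rep π P.tw g = rep π P (π.X * g * π.X⁻¹) := by
  obtain ⟨a, e, rfl⟩ := π.gen g
  have h : π.X * (π.ι a * π.X ^ e) * π.X⁻¹ = π.ι (Δ.σ a) * π.X ^ e := by
    rw [← π.conj]
    group
  rw [h, rep_eq, rep_eq]
  ext i j
  have h1 : ∀ l : ℕ, P.tw.η ((Δ.σ ^ l) a) = P.η ((Δ.σ ^ l) (Δ.σ a)) := fun l => by
    change P.η (Δ.σ ((Δ.σ ^ l) a)) = _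
    rw [← MulAut.mul_apply, ← pow_succ', pow_succ, MulAut.mul_apply]
  rw [rho_of, h1]
  exact (rho_of P (Δ.σ a) e i j).symm

theorem toG_add (π : Pres Δ G) (y z : ℤ →₀ MonoidAlgebra ℤ A) :
    toG π (y + z) = toG π y + toG π z :=
  Finsupp.sum_add_index' (fun e => by simp) fun e b b' => by rw [map_add, add_mul]

theorem toG_single (π : Pres Δ G) (e : ℤ) (a : A) (z : ℤ) :
    toG π (Finsupp.single e (MonoidAlgebra.single a z)) =
      MonoidAlgebra.single (π.ι a * π.X ^ e) z := by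
  rw [toG, Finsupp.sum_single_index (by simp)]
  simp [MonoidAlgebra.single_mul_single]

theorem rho_toG (π : Pres Δ G) (P : Pt Δ k) (y : ℤ →₀ MonoidAlgebra ℤ A) :
    rho P y = (toG π y).coeff.sum fun g z => z • rep π P g := by
  have hadd : ∀ y z : ℤ →₀ MonoidAlgebra ℤ A,
      (rho P y = (toG π y).coeff.sum fun g z => z • rep π P g) →
      (rho P z = (toG π z).coeff.sum fun g z => z • rep π P g) →
      rho P (y + z) = (toG π (y + z)).coeff.sum fun g z => z • rep π P g := fun y z hy hz => by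
    rw [toG_add, MonoidAlgebra.coeff_add, Finsupp.sum_add_index'
      (h := fun g (z : ℤ) => z • rep π P g) (fun _ => zero_smul _ _) fun _ _ _ => add_smul _ _ _,
      ← hy, ← hz]
    exact rhoG_add _ P y z
  have hzero : rho P 0 = (toG π 0).coeff.sum fun g z => z • rep π P g := by
    rw [rho, rhoG_zero]
    simp [toG]
  induction y using Finsupp.induction_linear with
  | zero => exact hzero
  | add y z hy hz => exact hadd y z hy hz
  | single e b =>
    induction b using MonoidAlgebra.induction_linear with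
    | zero => rw [Finsupp.single_zero]; exact hzero
    | add b b' hb hb' => rw [Finsupp.single_add]; exact hadd _ _ hb hb'
    | single a z =>
      rw [toG_single, MonoidAlgebra.coeff_single,
        Finsupp.sum_single_index (h := fun g (z : ℤ) => z • rep π P g) (zero_smul _ _), rep_eq]
      ext i j
      rw [Matrix.smul_apply, rho_single, rho_single, lam_single, lam_of]
      split_ifs
      · rw [zsmul_eq_mul, mul_assoc]
      · rw [smul_zero]

/-- the elements whose exponent is a multiple of `d` -/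
def sub (π : Pres Δ G) (d : ℕ) : Subgroup G where
  carrier := {g | ∃ (a : A) (e : ℤ), (d : ℤ) ∣ e ∧ g = π.ι a * π.X ^ e}
  one_mem' := ⟨1, 0, dvd_zero _, by simp⟩
  mul_mem' := by
    rintro _ _ ⟨a, e, h, rfl⟩ ⟨a', e', h', rfl⟩
    exact ⟨_, _, dvd_add h h', mul_eq π a a' e e'⟩
  inv_mem' := by
    rintro _ ⟨a, e, h, rfl⟩
    exact ⟨_, _, (dvd_neg).2 h, inv_eq π a e⟩

theorem mem_U (π : Pres Δ G) (d : ℕ) (g : G) :
    g ∈ π.U d ↔ ∃ (a : A) (e : ℤ), (d : ℤ) ∣ e ∧ g = π.ι a * π.X ^ e := by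
  constructor
  · have h : π.U d ≤ sub π d := by
      refine sup_le ?_ (Subgroup.zpowers_le.2 ⟨1, d, dvd_rfl, by simp⟩)
      rintro _ ⟨a, rfl⟩
      exact ⟨a, 0, dvd_zero _, by simp⟩
    exact fun hg => h hg
  · rintro ⟨a, _, ⟨t, rfl⟩, rfl⟩
    refine Subgroup.mul_mem_sup ⟨a, rfl⟩ ⟨t, ?_⟩
    simp only [zpow_mul, zpow_natCast]

theorem normal_U (π : Pres Δ G) (d : ℕ) : (π.U d).Normal := ⟨fun n hn g => by
  obtain ⟨a, e, h, rfl⟩ := (mem_U π d n).1 hn
  obtain ⟨b, f, rfl⟩ := π.gen g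
  rw [inv_eq, mul_eq, mul_eq]
  exact (mem_U π d _).2 ⟨_, _, by simpa using h, rfl⟩⟩

theorem mem_U_iff (π : Pres Δ G) {d : ℕ} (hd : d ∣ Δ.m) (a : A) (e : ℤ) :
    π.ι a * π.X ^ e ∈ π.U d ↔ (d : ℤ) ∣ e := by
  rw [mem_U]
  refine ⟨fun ⟨a', e', h, h'⟩ => ?_, fun h => ⟨a, e, h, rfl⟩⟩
  obtain ⟨t, rfl, -⟩ := uniq π h'
  exact dvd_add h ((Int.natCast_dvd_natCast.2 hd).mul_right t)

theorem psi_mul (π : Pres Δ G) (P : Pt Δ k) {g : G} (hg : g ∈ π.U P.d) (h : G) :
    psi π P (g * h) = psi π P g * psi π P h := by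
  obtain ⟨a, e, he, rfl⟩ := (mem_U π _ g).1 hg
  obtain ⟨a', e', rfl⟩ := π.gen h
  rw [mul_eq, psi_eq, psi_eq, psi_eq, map_mul, eta_dvd P he, zpow_add, mul_mul_mul_comm]

theorem pres_of [Finite G] (S : Subgroup G) [S.Normal] (hc : ∀ a ∈ S, ∀ b ∈ S, a * b = b * a)
    (X : G) (hX : ∀ g, ∃ a ∈ S, ∃ e : ℤ, g = a * X ^ e) {j : G} (hj : j ∈ S) :
    ∃ (A' : Type) (_ : CommGroup A') (_ : Finite A') (Δ : Dat A') (π : Pres Δ G),
      j ∈ π.ι.range := by
  letI : CommGroup S :=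
    { (inferInstance : Group S) with mul_comm := fun a b => Subtype.ext (hc _ a.2 _ b.2) }
  have hm : X ^ orderOf (QuotientGroup.mk' S X) ∈ S := by
    rw [← QuotientGroup.eq_one_iff, ← QuotientGroup.mk'_apply, map_pow, pow_orderOf_eq_one]
  let Δ : Dat S :=
    { σ := MulAut.conjNormal X
      m := orderOf (QuotientGroup.mk' S X)
      m_pos := orderOf_pos _
      c := ⟨_, hm⟩
      σ_pow := by
        rw [← map_pow]
        ext a
        rw [MulAut.conjNormal_apply, hc _ hm _ a.2, mul_inv_cancel_right, MulAut.one_apply]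
      σ_c := Subtype.ext (by rw [MulAut.conjNormal_apply]; group) }
  let π : Pres Δ G :=
    { ι := S.subtype
      X := X
      inj := Subtype.val_injective
      conj := fun a => rfl
      pow := rfl
      gen := fun g => by
        obtain ⟨a, ha, e, rfl⟩ := hX g
        exact ⟨⟨a, ha⟩, e, rfl⟩
      free := fun e a h => by
        refine orderOf_dvd_iff_zpow_eq_one.2 ?_
        rw [← map_zpow, QuotientGroup.mk'_apply, QuotientGroup.eq_one_iff, h]
        exact a.2 }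
  exact ⟨S, inferInstance, inferInstance, Δ, π, ⟨j, hj⟩, rfl⟩

end RepX

open RepX

theorem rep1 : REP_st := fun _ _ _ _ _ π =>
  ⟨conj_pow π, mem_U π, normal_U π, fun _ hd => mem_U_iff π hd, fun _ _ P =>
    ⟨rep_eq π P, rep_one π P, rep_mul π P, rep_tw π P, rho_toG π P, psi_eq π P,
      fun _ hg h _ => psi_mul π P hg h⟩⟩

theorem pres : PRES_st := by
  intro G _ _ A _ j hA hcyc hj
  have hjc : ∀ (g : G) (n : ℤ), Commute g (j ^ n) := fun g n =>
    (Commute.symm (hj g)).zpow_right n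
  have hmem : ∀ g, g ∈ A ⊔ Subgroup.zpowers j ↔ ∃ a ∈ A, ∃ n : ℤ, a * j ^ n = g := fun g => by
    rw [Subgroup.mem_sup_of_normal_left]
    exact ⟨fun ⟨a, ha, _, ⟨n, rfl⟩, h⟩ => ⟨a, ha, n, h⟩,
      fun ⟨a, ha, n, h⟩ => ⟨a, ha, _, ⟨n, rfl⟩, h⟩⟩
  haveI : (A ⊔ Subgroup.zpowers j).Normal := ⟨fun x hx g => by
    obtain ⟨a, ha, n, rfl⟩ := (hmem x).1 hx
    refine (hmem _).2 ⟨g * a * g⁻¹, Subgroup.Normal.conj_mem inferInstance a ha g, n, ?_⟩
    rw [mul_assoc _ g⁻¹, (hjc g⁻¹ n).eq]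
    group⟩
  obtain ⟨x, hx⟩ := hcyc.exists_zpow_surjective
  obtain ⟨X, rfl⟩ := QuotientGroup.mk'_surjective A x
  refine pres_of (A ⊔ Subgroup.zpowers j) (fun x hx y hy => ?_) X (fun g => ?_)
    (Subgroup.mem_sup_right (Subgroup.mem_zpowers j))
  · obtain ⟨a, ha, n, rfl⟩ := (hmem x).1 hx
    obtain ⟨b, hb, l, rfl⟩ := (hmem y).1 hy
    exact (Commute.mul_left ((show Commute a b from hA a ha b hb).mul_right (hjc a l))
      (hjc _ n).symm).eq
  · obtain ⟨e, he⟩ := hx (QuotientGroup.mk' A g)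
    refine ⟨g * (X ^ e)⁻¹, Subgroup.mem_sup_left ?_, e, by rw [inv_mul_cancel_right]⟩
    rw [← QuotientGroup.eq_one_iff, ← QuotientGroup.mk'_apply, map_mul, map_inv, map_zpow, ← he]
    exact mul_inv_cancel _

end Pool.Agent.MP_f3cd89_nt

end

section

/-! Euler factors of the induced representation, and the transfer. -/

set_option autoImplicit false

open Finset

namespace Pool.Agent.MP_f3cd89_nt

namespace RepeX

theorem prod_zmod {M : Type} [CommMonoid M] (f : ℕ) [NeZero f] (F : ZMod f → M) :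
    ∏ t ∈ range f, F (t : ZMod f) = ∏ x, F x :=
  prod_nbij' (fun t => (t : ZMod f)) (fun x => x.val) (fun _ _ => mem_univ _)
    (fun x _ => mem_range.2 (ZMod.val_lt x)) (fun _ ht => ZMod.val_cast_of_lt (mem_range.1 ht))
    (fun x _ => ZMod.natCast_zmod_val x) fun _ _ => rfl

theorem prod_affine {M : Type} [CommMonoid M] (f : ℕ) (hf : 0 < f) (k : ℤ → M)
    (hk : Function.Periodic k f) (c u : ℤ) (hu : IsCoprime (f : ℤ) u) :
    ∏ t ∈ range f, k (c + t * u) = ∏ t ∈ range f, k t := by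
  have : NeZero f := ⟨hf.ne'⟩
  have e : ∀ z : ℤ, k z = k ((z : ZMod f).val) := fun z => by
    rw [ZMod.val_intCast, Int.emod_def, mul_comm]
    exact (hk.sub_int_mul_eq _).symm
  obtain ⟨v, hv⟩ := (ZMod.coe_int_isUnit_iff_isCoprime u f).2 hu
  have h1 := prod_zmod f fun x => k (((c : ZMod f) + x * v).val)
  have h2 := prod_zmod f fun x => k x.val
  have h3 := Equiv.prod_comp ((Units.mulRight v).trans (Equiv.addLeft (c : ZMod f)))
    fun x => k x.val
  refine Eq.trans ?_ (h1.trans (h3.trans (h2.symm.trans ?_)))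
  · refine prod_congr rfl fun t _ => ?_
    rw [e, hv]
    push_cast
    rfl
  · refine prod_congr rfl fun t _ => ?_
    rw [e (t : ℤ), Int.cast_natCast]

theorem prod_block {M : Type} [CommMonoid M] (g f : ℕ) (h : ℤ → M) :
    ∏ i ∈ range g, ∏ t ∈ range f, h (i + t * g) = ∏ u ∈ range (f * g), h u := by
  induction f with
  | zero => simp
  | succ f ih =>
    rw [Nat.succ_mul, prod_range_add, ← ih, ← prod_mul_distrib]
    refine prod_congr rfl fun i _ => ?_
    rw [prod_range_succ, Nat.cast_add, Nat.cast_mul, add_comm (i : ℤ)]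

theorem gcd_facts (n : ℕ) (hn : 0 < n) (e : ℤ) : 0 < n / Int.gcd n e ∧
    n / Int.gcd n e * Int.gcd n e = n ∧ e / Int.gcd n e * Int.gcd n e = e ∧
    IsCoprime ((n / Int.gcd n e : ℕ) : ℤ) (e / Int.gcd n e) := by
  have h0 : 0 < Int.gcd n e := Int.gcd_pos_of_ne_zero_left _ (by exact_mod_cast hn.ne')
  have h1 : Int.gcd n e ∣ n := Int.natCast_dvd_natCast.1 (Int.gcd_dvd_left _ _)
  refine ⟨Nat.div_pos (Nat.le_of_dvd hn h1) h0, Nat.div_mul_cancel h1,
    Int.ediv_mul_cancel (Int.gcd_dvd_right _ _), ?_⟩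
  rw [Int.isCoprime_iff_gcd_eq_one, Int.natCast_div]
  exact Int.gcd_div_gcd_div_gcd h0

theorem per {M : Type} (n : ℕ) (hn : 0 < n) (e : ℤ) (h : ℤ → M) (hh : Function.Periodic h n)
    (i : ℤ) : Function.Periodic (fun z => h (i + z * Int.gcd n e)) ((n / Int.gcd n e : ℕ) : ℤ) :=
  fun z => by
    have := (gcd_facts n hn e).2.1
    simp only
    rw [add_mul, ← Nat.cast_mul, this, ← add_assoc, hh]

theorem prod_e {M : Type} [CommMonoid M] (n : ℕ) (hn : 0 < n) (e : ℤ) (h : ℤ → M)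
    (hh : Function.Periodic h n) (i : ℤ) : ∏ t ∈ range (n / Int.gcd n e), h (i + t * e) =
      ∏ t ∈ range (n / Int.gcd n e), h (i + t * Int.gcd n e) := by
  obtain ⟨h1, -, h3, h4⟩ := gcd_facts n hn e
  refine Eq.trans ?_ (prod_affine _ h1 _ (per n hn e h hh i) 0 _ h4)
  refine prod_congr rfl fun t _ => ?_
  rw [zero_add, mul_assoc, h3]

theorem prod_sh {M : Type} [CommMonoid M] (n : ℕ) (hn : 0 < n) (e : ℤ) (h : ℤ → M)
    (hh : Function.Periodic h n) (i : ℤ) :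
    ∏ t ∈ range (n / Int.gcd n e), h (i + t * Int.gcd n e + -e) =
      ∏ t ∈ range (n / Int.gcd n e), h (i + t * Int.gcd n e) := by
  obtain ⟨h1, -, h3, -⟩ := gcd_facts n hn e
  refine Eq.trans ?_ (prod_affine _ h1 _ (per n hn e h hh i) (-(e / Int.gcd n e)) 1
    isCoprime_one_right)
  refine prod_congr rfl fun t _ => ?_
  rw [add_mul, neg_mul, h3, mul_one, add_assoc, add_comm (-e)]

variable {A : Type} [CommGroup A] {Δ : Dat A} {G : Type} [Group G] (π : Pres Δ G)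
  {k : Type} [CommRing k] (P : Pt Δ k)

theorem conj (z : ℤ) (a : A) : π.X ^ z * π.ι a = π.ι ((Δ.σ ^ z) a) * π.X ^ z := by
  have h1 : ∀ a, π.X * π.ι a = π.ι (Δ.σ a) * π.X := fun a => by
    rw [← π.conj, inv_mul_cancel_right]
  have h2 : ∀ a, π.X⁻¹ * π.ι a = π.ι (Δ.σ⁻¹ a) * π.X⁻¹ := fun a => by
    rw [inv_mul_eq_iff_eq_mul, ← mul_assoc, h1, MulAut.apply_inv_self, mul_inv_cancel_right]
  induction z using Int.induction_on generalizing a with
  | zero => simp
  | succ n ih => rw [zpow_add_one, mul_assoc, h1, ← mul_assoc, ih, zpow_add_one, MulAut.mul_apply,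
      mul_assoc]
  | pred n ih => rw [zpow_sub_one, mul_assoc, h2, ← mul_assoc, ih, zpow_sub_one, MulAut.mul_apply,
      mul_assoc]

theorem pw (a : A) (e : ℤ) (f : ℕ) : (π.ι a * π.X ^ e) ^ f =
    π.ι (∏ t ∈ range f, (Δ.σ ^ ((t : ℤ) * e)) a) * π.X ^ ((f : ℤ) * e) := by
  induction f with
  | zero => simp
  | succ f ih =>
    rw [pow_succ, ih, prod_range_succ, map_mul, Nat.cast_succ, add_mul, one_mul, zpow_add,
      mul_assoc, mul_assoc, ← mul_assoc _ (π.ι a), conj, mul_assoc]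

theorem psi_conj (hp : ∀ (a : A) (e : ℤ), psi π P (π.ι a * π.X ^ e) = P.η a * P.ω ^ e) (a : A)
    (e i : ℤ) (f : ℕ) : psi π P (π.X ^ i * (π.ι a * π.X ^ e) ^ f * (π.X ^ i)⁻¹) =
      (∏ t ∈ range f, P.η ((Δ.σ ^ (i + t * e)) a)) * P.ω ^ ((f : ℤ) * e) := by
  rw [pw, ← mul_assoc, conj, mul_assoc, mul_assoc, ← mul_assoc (π.X ^ i),
    (zpow_mul_comm π.X i _), mul_inv_cancel_right, hp, map_prod, map_prod]
  simp only [zpow_add, MulAut.mul_apply]

theorem per_η (a : A) : Function.Periodic (fun z : ℤ => P.η ((Δ.σ ^ z) a)) P.d := fun z => by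
  simp only
  rw [add_comm, zpow_add, MulAut.mul_apply, zpow_natCast, P.inv]

end RepeX

open RepeX

theorem repe (hD : DET_st) (hR : REP_st) : REPE_st := by
  intro A _ Δ G _ π k _ P
  refine ⟨fun g x => ?_, fun d hd a e he => ?_⟩
  · obtain ⟨hr, -, -, -, -, hp, -⟩ := (hR A Δ G π).2.2.2.2 k P
    generalize hg : π.pe g = e
    obtain ⟨a, rfl⟩ : ∃ a, g = π.ι a * π.X ^ e := ⟨_, hg ▸ π.eq_pa g⟩
    have h1 : (π.ι a * π.X ^ e)⁻¹ = π.ι ((Δ.σ ^ (-e)) a⁻¹) * π.X ^ (-e) := by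
      rw [← conj, mul_inv_rev, map_inv, zpow_neg]
    have h2 := hD k P.d (-e) (fun i => x * ((P.η ((Δ.σ ^ i) ((Δ.σ ^ (-e)) a⁻¹)) * P.ω ^ (-e) : kˣ) :
      k)) 1 fun i => by rw [add_comm, pow_add, MulAut.mul_apply, P.inv]
    rw [Int.gcd_neg] at h2
    rw [h1, hr]
    refine Eq.trans (congrArg _ ?_) (h2.trans (prod_congr rfl fun i _ => ?_))
    · ext i j
      simp only [Matrix.sub_apply, Matrix.smul_apply, rho_single, lam_of, Matrix.of_apply,
        one_smul, smul_eq_mul, mul_ite, mul_zero, Units.val_mul]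
    · rw [one_pow, prod_mul_distrib, prod_const, card_range, ← zpow_natCast π.X, psi_conj π P hp,
        ← Units.coe_prod, prod_mul_distrib, prod_const, card_range, mul_inv, ← prod_inv_distrib,
        ← zpow_natCast (P.ω ^ (-e)), ← zpow_mul, ← zpow_neg, neg_mul, mul_comm e]
      have h3 := (prod_sh P.d P.d_pos e _ (per_η P a⁻¹) i).trans
        (prod_e P.d P.d_pos e _ (per_η P a⁻¹) i).symm
      simp only [map_inv] at h3 ⊢
      rw [← h3]
      simp only [← zpow_natCast Δ.σ, zpow_add, MulAut.mul_apply, Nat.cast_add, Nat.cast_mul]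
  · obtain ⟨-, -, -, -, -, hp, -⟩ := (hR A Δ G π).2.2.2.2 k P
    obtain ⟨-, -, -, -, -, hp', -⟩ := (hR A Δ G π).2.2.2.2 k (P.down d hd)
    obtain ⟨e, rfl⟩ := he
    have d0 : 0 < d := Nat.pos_of_dvd_of_pos hd P.d_pos
    have r0 : 0 < P.d / d := Nat.div_pos (Nat.le_of_dvd P.d_pos hd) d0
    rw [Int.mul_ediv_cancel_left _ (by exact_mod_cast d0.ne'), hp', Pt.down_η]
    have hh : Function.Periodic (fun z : ℤ => P.η ((Δ.σ ^ ((d : ℤ) * z)) a)) (P.d / d : ℕ) :=
      fun z => by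
        simp only
        rw [mul_add, ← Nat.cast_mul, Nat.mul_div_cancel' hd]
        exact per_η P a _
    obtain ⟨-, h2, -, -⟩ := gcd_facts _ r0 e
    have h3 := prod_block (Int.gcd (P.d / d : ℕ) e) (P.d / d / Int.gcd (P.d / d : ℕ) e)
      fun z : ℤ => P.η ((Δ.σ ^ ((d : ℤ) * z)) a)
    rw [h2] at h3
    rw [prod_congr rfl fun (i : ℕ) _ => (prod_e _ r0 e _ hh i).symm] at h3
    simp only [← pow_mul]
    simp only [← zpow_natCast π.X, psi_conj π P hp]
    rw [prod_mul_distrib, prod_const, card_range]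
    congr 1
    · rw [ver, map_prod]
      refine Eq.trans (prod_congr rfl fun t _ => ?_) (h3.symm.trans (prod_congr rfl fun i _ =>
        prod_congr rfl fun t _ => ?_))
      · rw [← zpow_natCast, Nat.cast_mul, mul_comm]
      · rw [Nat.cast_mul, mul_add, mul_left_comm]
    · change (P.ω ^ (P.d / d)) ^ _ = _
      rw [← zpow_natCast, ← zpow_natCast, ← zpow_mul, ← zpow_mul, mul_right_comm, ← Nat.cast_mul,
        h2]

end Pool.Agent.MP_f3cd89_nt

end

section

/-! Every irreducible representation is induced from a character. -/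

set_option autoImplicit false

namespace Pool.Agent.MP_f3cd89_nt

namespace CliffX

variable {V : Type} [AddCommGroup V] [Module ℂ V] [FiniteDimensional ℂ V]

theorem eig (f : Module.End ℂ V) {W : Submodule ℂ V} (h0 : W ≠ ⊥) (h : ∀ v ∈ W, f v ∈ W) :
    ∃ c : ℂ, ∃ v ∈ W, v ≠ 0 ∧ f v = c • v := by
  have := Submodule.nontrivial_iff_ne_bot.2 h0
  obtain ⟨c, hc⟩ := Module.End.exists_eigenvalue (f.restrict h)
  obtain ⟨v, hv⟩ := hc.exists_hasEigenvector
  exact ⟨c, v, v.2, fun e => hv.2 (Subtype.ext e), congrArg Subtype.val hv.apply_eq_smul⟩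

theorem joint [Nontrivial V] {ι : Type} (f : ι → Module.End ℂ V)
    (hc : ∀ i j v, f i (f j v) = f j (f i v)) : ∃ v, v ≠ 0 ∧ ∀ i, ∃ c : ℂ, f i v = c • v := by
  obtain ⟨W, ⟨h0, h1⟩, hm⟩ := (wellFounded_lt (α := Submodule ℂ V)).has_min
    {W | W ≠ ⊥ ∧ ∀ i, ∀ v ∈ W, f i v ∈ W} ⟨⊤, top_ne_bot, fun _ _ _ => trivial⟩
  obtain ⟨v, hv, hv0⟩ := (Submodule.ne_bot_iff W).1 h0
  refine ⟨v, hv0, fun i => ?_⟩
  obtain ⟨c, u, hu, hu0, e⟩ := eig (f i) h0 (h1 i)
  have h2 : W ⊓ (f i).eigenspace c = W := by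
    by_contra hn
    refine hm (W ⊓ (f i).eigenspace c)
      ⟨(Submodule.ne_bot_iff _).2 ⟨u, ⟨hu, Module.End.mem_eigenspace_iff.2 e⟩, hu0⟩,
      fun j x hx => ⟨h1 j x hx.1, Module.End.mem_eigenspace_iff.2 ?_⟩⟩
      (lt_of_le_of_ne inf_le_left hn)
    rw [hc, Module.End.mem_eigenspace_iff.1 hx.2, map_smul]
  rw [← h2] at hv
  exact ⟨c, Module.End.mem_eigenspace_iff.1 hv.2⟩

variable {A : Type} [CommGroup A] {Δ : Dat A} {G : Type} [Group G]

omit [FiniteDimensional ℂ V] in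
theorem mul_ap (R : G →* Module.End ℂ V) (g h : G) (v : V) : R (g * h) v = R g (R h v) := by
  rw [map_mul, Module.End.mul_apply]

omit [FiniteDimensional ℂ V] in
theorem ne_ap (R : G →* Module.End ℂ V) (g : G) {v : V} (h : v ≠ 0) : R g v ≠ 0 := fun e =>
  h (by
    rw [← Module.End.one_apply (R := ℂ) v, ← map_one R, ← inv_mul_cancel g, mul_ap, e, map_zero])

omit [FiniteDimensional ℂ V] in
theorem zpow_ap (R : G →* Module.End ℂ V) {g : G} {μ : ℂˣ} {v : V} (h : R g v = (μ : ℂ) • v)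
    (t : ℤ) : R (g ^ t) v = ((μ ^ t : ℂˣ) : ℂ) • v := by
  let H : Subgroup (G × ℂˣ) :=
    { carrier := {p | R p.1 v = (p.2 : ℂ) • v}
      mul_mem' := fun {p q} hp hq => by
        change R (p.1 * q.1) v = ((p.2 * q.2 : ℂˣ) : ℂ) • v
        rw [mul_ap, hq, map_smul, hp, smul_smul, Units.val_mul, mul_comm]
      one_mem' := by simp
      inv_mem' := fun {p} hp => by
        change R p.1⁻¹ v = ((p.2⁻¹ : ℂˣ) : ℂ) • v
        have e : R p.1⁻¹ (R p.1 v) = v := by rw [← mul_ap, inv_mul_cancel, map_one]; rfl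
        rw [hp, map_smul] at e
        rw [← congrArg (((p.2⁻¹ : ℂˣ) : ℂ) • ·) e, smul_smul, Units.inv_mul, one_smul] }
  exact H.zpow_mem (x := (g, μ)) h t

theorem iter (η : A →* ℂˣ) (i : ℕ) :
    (fun χ : A →* ℂˣ => χ.comp Δ.σ.toMonoidHom)^[i] η = η.comp (Δ.σ ^ i).toMonoidHom := by
  induction i with
  | zero => rfl
  | succ i ih => rw [Function.iterate_succ_apply', ih, pow_succ]; rfl

theorem core [Nontrivial V] (π : Pres Δ G)
    (hX : ∀ (i : ℕ) (a : A), π.X ^ i * π.ι a * (π.X ^ i)⁻¹ = π.ι ((Δ.σ ^ i) a))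
    (R : G →* Module.End ℂ V) : ∃ (P : Pt Δ ℂ) (v : V), v ≠ 0 ∧
      (∀ a, R (π.ι a) v = (P.η a : ℂ) • v) ∧ R (π.X ^ P.d) v = ((P.ω ^ P.d : ℂˣ) : ℂ) • v ∧
      Function.Injective fun j : ZMod P.d => P.ch j.val := by
  obtain ⟨v₀, h0, hc⟩ := joint (fun a => R (π.ι a)) fun a b v => by
    rw [← mul_ap, ← mul_ap, ← map_mul, ← map_mul, mul_comm]
  choose c hc using hc
  let χ : A →* ℂ :=
    { toFun := c
      map_one' := smul_left_injective ℂ h0 (by
        change c 1 • v₀ = (1 : ℂ) • v₀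
        rw [← hc, map_one, map_one, one_smul]; rfl)
      map_mul' := fun a b => smul_left_injective ℂ h0 (by
        change c (a * b) • v₀ = (c a * c b) • v₀
        rw [← hc, map_mul, mul_ap, hc, map_smul, hc, smul_smul, mul_comm]) }
  let η : A →* ℂˣ := χ.toHomUnits
  let τ : (A →* ℂˣ) → (A →* ℂˣ) := fun χ => χ.comp Δ.σ.toMonoidHom
  have hm : Function.IsPeriodicPt τ Δ.m η := by
    change τ^[Δ.m] η = η
    rw [iter, Δ.σ_pow]; rfl
  have hd := hm.minimalPeriod_dvd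
  have hp : ∀ a, η ((Δ.σ ^ Function.minimalPeriod τ η) a) = η a := fun a =>
    DFunLike.congr_fun ((iter η _).symm.trans (Function.iterate_minimalPeriod (f := τ))) a
  have hi := Function.iterate_injOn_Iio_minimalPeriod (f := τ) (x := η)
  generalize Function.minimalPeriod τ η = d at hd hp hi
  have d0 : 0 < d := Nat.pos_of_dvd_of_pos hd Δ.m_pos
  let W : Submodule ℂ V := ⨅ a, (R (π.ι a)).eigenspace (η a)
  have hW : ∀ v, v ∈ W ↔ ∀ a, R (π.ι a) v = (η a : ℂ) • v := fun v => by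
    simp only [W, Submodule.mem_iInf, Module.End.mem_eigenspace_iff]
  obtain ⟨l, v, hv, hv0, hl⟩ := eig (R (π.X ^ d)) (W := W)
    ((Submodule.ne_bot_iff _).2 ⟨v₀, (hW _).2 hc, h0⟩) fun v hv => (hW _).2 fun a => by
      obtain ⟨b, rfl⟩ := (Δ.σ ^ d).surjective a
      rw [← mul_ap, ← hX, inv_mul_cancel_right, mul_ap, (hW _).1 hv, map_smul, hp]
  have l0 : l ≠ 0 := by
    rintro rfl
    exact ne_ap R _ hv0 (hl.trans (zero_smul _ _))
  obtain ⟨w, hw⟩ := IsAlgClosed.exists_pow_nat_eq l d0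
  have w0 : w ≠ 0 := by
    rintro rfl
    exact l0 (by rw [← hw, zero_pow d0.ne'])
  have hl' : R (π.X ^ d) v = ((Units.mk0 w w0 ^ d : ℂˣ) : ℂ) • v := by
    rw [hl, Units.val_pow_eq_pow_val, Units.val_mk0, hw]
  refine ⟨⟨d, hd, η, hp, Units.mk0 w w0, ?_⟩, v, hv0, (hW _).1 hv, hl', fun i j e => ?_⟩
  · obtain ⟨t, ht⟩ := hd
    have e := zpow_ap R hl' t
    rw [zpow_natCast, zpow_natCast, ← pow_mul, ← pow_mul, ← ht, π.pow, (hW _).1 hv] at e
    exact Units.ext (smul_left_injective ℂ hv0 e).symm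
  · have : NeZero d := ⟨d0.ne'⟩
    refine ZMod.val_injective d (hi (ZMod.val_lt i) (ZMod.val_lt j) ?_)
    change τ^[_] η = τ^[_] η
    rw [iter, iter]
    exact MonoidHom.ext fun a => Units.ext (DFunLike.congr_fun e a)

omit [FiniteDimensional ℂ V] in
theorem fam (π : Pres Δ G)
    (hX : ∀ (i : ℕ) (a : A), π.X ^ i * π.ι a * (π.X ^ i)⁻¹ = π.ι ((Δ.σ ^ i) a))
    (R : G →* Module.End ℂ V) (P : Pt Δ ℂ) {v : V} (h0 : v ≠ 0)
    (h1 : ∀ a, R (π.ι a) v = (P.η a : ℂ) • v)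
    (h2 : R (π.X ^ P.d) v = ((P.ω ^ P.d : ℂˣ) : ℂ) • v) : ∃ u : ZMod P.d → V, (∀ j, u j ≠ 0) ∧
      (∀ a j, R (π.ι a) (u j) = P.ch j.val a • u j) ∧
      ∀ (e : ℤ) j, R (π.X ^ e) (u j) = ((P.ω ^ e : ℂˣ) : ℂ) • u (j - e) := by
  refine ⟨fun j => ((P.ω ^ j.val : ℂˣ) : ℂ) • R (π.X ^ j.val)⁻¹ v,
    fun j => smul_ne_zero (Units.ne_zero _) (ne_ap R _ h0), fun a j => ?_, fun e j => ?_⟩
  · have e : π.ι a * (π.X ^ j.val)⁻¹ = (π.X ^ j.val)⁻¹ * π.ι ((Δ.σ ^ j.val) a) := by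
      rw [← hX]; group
    rw [map_smul, ← mul_ap, e, mul_ap, h1, map_smul, smul_comm, Pt.ch_apply]
  · obtain ⟨t, ht⟩ : (P.d : ℤ) ∣ ((j - e).val : ℤ) - (j.val - e) := by
      rw [← ZMod.intCast_eq_intCast_iff_dvd_sub]
      simp
    have e1 : π.X ^ e * (π.X ^ j.val)⁻¹ = (π.X ^ (j - e).val)⁻¹ * (π.X ^ P.d) ^ t := by
      rw [← zpow_natCast, ← zpow_natCast, ← zpow_natCast, ← zpow_mul, ← zpow_neg, ← zpow_neg,
        ← zpow_add, ← zpow_add, ← ht]
      congr 1
      ring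
    have e2 : P.ω ^ j.val * (P.ω ^ P.d) ^ t = P.ω ^ e * P.ω ^ (j - e).val := by
      rw [← zpow_natCast, ← zpow_natCast, ← zpow_natCast, ← zpow_mul, ← zpow_add, ← zpow_add, ← ht]
      congr 1
      ring
    rw [map_smul, ← mul_ap, e1, mul_ap, zpow_ap R h2, map_smul, smul_smul, smul_smul,
      ← Units.val_mul, ← Units.val_mul, e2]

end CliffX

open CliffX Matrix in
theorem cliff (hR : REP_st) : CLIFF_st := by
  intro A _ _ Δ G _ π r
  obtain ⟨hX, -, -, -, hk⟩ := hR A Δ G π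
  have : Nonempty (Fin r.n) := ⟨⟨0, r.pos⟩⟩
  let R : G →* Module.End ℂ (Fin r.n → ℂ) :=
    (Matrix.toLinAlgEquiv' (R := ℂ) (n := Fin r.n)).toMulEquiv.toMonoidHom.comp r.ρ
  have hRa : ∀ g v, R g v = r.ρ g *ᵥ v := fun g v => Matrix.toLinAlgEquiv'_apply _ _
  obtain ⟨P, v, h0, h1, h2, hi⟩ := core π hX R
  obtain ⟨u, u0, u1, u2⟩ := fam π hX R P h0 h1 h2
  let Q : Matrix (Fin r.n) (ZMod P.d) ℂ := Matrix.of fun k j => u j k
  have key : ∀ g, r.ρ g * Q = Q * rep π P g := fun g => by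
    obtain ⟨a, e, rfl⟩ := π.gen g
    ext k j
    have e1 : (r.ρ (π.ι a * π.X ^ e) * Q) k j = R (π.ι a * π.X ^ e) (u j) k := by
      rw [hRa]; rfl
    rw [e1, mul_ap, u2, map_smul, u1, (hk ℂ P).1, Matrix.mul_apply,
      Finset.sum_eq_single (j - e), rho_single, if_pos (sub_add_cancel _ _).symm, lam_of]
    · simp only [Pi.smul_apply, smul_eq_mul, Pt.ch_apply, Q, Matrix.of_apply]
      ring
    · intro i _ hne
      rw [rho_single, if_neg fun h => hne (by rw [h, add_sub_cancel_right]), mul_zero]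
    · exact fun h => absurd (Finset.mem_univ _) h
  have hQ : ∀ x, Q *ᵥ x = ∑ j, x j • u j := fun x => by
    funext k
    simp only [Matrix.mulVec, dotProduct, Q, Matrix.of_apply, Finset.sum_apply, Pi.smul_apply,
      smul_eq_mul, mul_comm]
  have inj : Function.Injective (Matrix.toLin' Q) := by
    refine (injective_iff_map_eq_zero _).2 fun x hx => funext fun j => ?_
    rw [Matrix.toLin'_apply, hQ] at hx
    have li := (linearIndependent_monoidHom A ℂ).comp _ hi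
    obtain ⟨k, hk0⟩ := Function.ne_iff.1 (u0 j)
    refine (mul_eq_zero.1 (Fintype.linearIndependent_iff.1 li (fun i => x i * u i k)
      (funext fun a => ?_) j)).resolve_right hk0
    have e := congrFun (congrArg (R (π.ι a)) hx) k
    simp only [map_sum, map_smul, u1, map_zero, Finset.sum_apply, Pi.smul_apply, smul_eq_mul] at e
    simp only [Finset.sum_apply, Pi.smul_apply, smul_eq_mul, Function.comp_apply]
    refine Eq.trans (Finset.sum_congr rfl fun i _ => ?_) e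
    ring
  have sur : Function.Surjective (Matrix.toLin' Q) := by
    refine LinearMap.range_eq_top.1 ((r.irr _ ?_).resolve_left fun h => ?_)
    · rintro g _ ⟨x, rfl⟩
      exact ⟨rep π P g *ᵥ x, by
        rw [Matrix.toLin'_apply, Matrix.toLin'_apply, mulVec_mulVec, mulVec_mulVec, key]⟩
    · have e := inj ((LinearMap.congr_fun (LinearMap.range_eq_bot.1 h) 1).trans (map_zero _).symm)
      exact one_ne_zero (congrFun e 0)
  let E := LinearEquiv.ofBijective _ ⟨inj, sur⟩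
  have q1 : Q * LinearMap.toMatrix' E.symm.toLinearMap = 1 := by
    rw [← LinearMap.toMatrix'_toLin' Q, ← LinearMap.toMatrix'_comp, ← LinearMap.toMatrix'_id]
    exact congrArg _ (LinearMap.ext E.apply_symm_apply)
  refine ⟨P, Q, LinearMap.toMatrix' E.symm.toLinearMap, q1, ?_, fun g => ?_⟩
  · conv_lhs => rw [← LinearMap.toMatrix'_toLin' Q]
    rw [← LinearMap.toMatrix'_comp, ← LinearMap.toMatrix'_id]
    exact congrArg _ (LinearMap.ext E.symm_apply_apply)
  · rw [← key, Matrix.mul_assoc, q1, Matrix.mul_one]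

end Pool.Agent.MP_f3cd89_nt

end
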