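import Pool.Agent.Mg.Ff3cd89.G9366c6
import Pool.Agent.MP_f3cd89_nt.CStm

section

/-! Statements of the final steps. -/

set_option autoImplicit false

open Finset NumberField IsDedekindDomain

namespace Pool.Agent.MP_f3cd89_nt

open Classical in
/-- primes in a cyclic subextension -/
def DICT_st : Prop := ∀ (F E L G U : Type) [Field F] [NumberField F] [Field E] [NumberField E]
  [Field L] [NumberField L] [Algebra F E] [Algebra E L] [Algebra F L] [IsScalarTower F E L]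
  [Group G] [Finite G] [MulSemiringAction G L] [IsGaloisGroup G F L]
  [Group U] [Finite U] [MulSemiringAction U L] [IsGaloisGroup U E L] (i : U →* G)
  (S : Finset (Pr F)) (φE : Pr E → U), (∀ (u : U) (x : L), i u • x = u • x) →
  Unr L G S → IsFrob L (above E S) φE →
  (∀ (g : G) (γ : E ≃+* E), (∀ x, algebraMap E L (γ x) = g • algebraMap E L x) →
    (∀ w : Pr E, (act γ w).under (𝓞 F) = w.under (𝓞 F)) ∧ ∀ w, w ∉ above E S →
      ∃ u : U, i (φE (act γ w)) = i u * (g * i (φE w) * g⁻¹) * (i u)⁻¹) ∧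
  ∀ (Y : G) (r : ℕ) (φ : Pr F → G), 0 < r → i.range.Normal →
    (∀ g, ∃ (u : U) (e : ℤ), g = i u * Y ^ e) → (∀ e : ℤ, Y ^ e ∈ i.range ↔ (r : ℤ) ∣ e) →
    IsFrob L S φ → ∀ v, v ∉ S → ∀ (u : U) (e : ℤ), φ v = i u * Y ^ e →
      ∃ w : ℕ → Pr E, Set.InjOn w (range (Int.gcd r e) : Finset ℕ) ∧
        above E {v} = (range (Int.gcd r e)).image w ∧ ∀ t,
          nrm (w t) = nrm v ^ (r / Int.gcd r e) ∧ ∃ u' : U, i (φE (w t)) =
            i u' * (Y ^ t * φ v ^ (r / Int.gcd r e) * (Y ^ t)⁻¹) * (i u')⁻¹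

/-- `f` is the entire function given by the L-function of the dual of the induced representation,
smoothed at `v₀`, up to a sign -/
def SmG {A : Type} [CommGroup A] {Δ : Dat A} {G : Type} [Group G] (π : Pres Δ G) {K : Type}
    [Field K] [NumberField K] (S : Finset (Pr K)) (φ : Pr K → G) (v₀ : Pr K) (P : Pt Δ ℂ)
    (f : ℂ → ℂ) : Prop :=
  Differentiable ℂ f ∧ ∀ s : ℂ, 1 < s.re → ∃ L : ℂ,
    HasProd (fun v : {v : Pr K // v ∉ S} =>
      (1 - ((nrm v.1 : ℂ) ^ (-s)) • rep π P (φ v)⁻¹).det⁻¹) L ∧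
    f s = (-1) ^ Int.gcd P.d (π.pe (φ v₀)) *
      (1 - ((nrm v₀ : ℂ) ^ (1 - s)) • rep π P (φ v₀)⁻¹).det * L

/-- induction of L-functions -/
def LEVA_st : Prop := ∀ (K E L G : Type) [Field K] [NumberField K] [Field E] [NumberField E]
  [Field L] [NumberField L] [Algebra K E] [Algebra E L] [Algebra K L] [IsScalarTower K E L]
  [Group G] [Finite G] [MulSemiringAction G L] [IsGaloisGroup G K L]
  (A : Type) [CommGroup A] (Δ : Dat A) (π : Pres Δ G) (d : ℕ) [IsGaloisGroup (π.U d) E L]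
  (S : Finset (Pr K)) (φ : Pr K → G) (φE : Pr E → π.U d) (v₀ : Pr K) (P : Pt Δ ℂ) (f : ℂ → ℂ),
  P.d = d → Unr L G S → IsFrob L S φ → IsFrob L (above E S) φE → v₀ ∉ S →
  Sm (above E S) (above E {v₀}) (fun w => (psi π P (φE w))⁻¹) f → SmG π S φ v₀ P f

/-- from the smoothed function to the L-value -/
def LVAL_st : Prop := ∀ (K G : Type) [Field K] [NumberField K] [Group G]
  (S : Finset (Pr K)) (φ : Pr K → G),
  (∀ (n : Type) [Fintype n] [DecidableEq n] (ρ : G → Matrix n n ℂ) (c c' : ℂ),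
    IsLValue S φ ρ c → IsLValue S φ ρ c' → c = c') ∧
  ∀ [Finite G] (A : Type) [CommGroup A] (Δ : Dat A) (π : Pres Δ G) (v₀ : Pr K) (P : Pt Δ ℂ)
    (f : ℂ → ℂ), SmG π S φ v₀ P f →
    (∀ f', SmG π S φ v₀ P f' → f' = f) ∧ SmG π S φ v₀ P.tw f ∧
    ∃ c, IsLValue S φ (rep π P) c ∧ f 0 = (-1) ^ Int.gcd P.d (π.pe (φ v₀)) *
      (1 - (nrm v₀ : ℂ) • rep π P (φ v₀)⁻¹).det * c

/-- the standing hypotheses on the extension -/
structure Std (K L : Type) {G : Type} [Field K] [NumberField K] [Field L] [NumberField L]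
    [Algebra K L] [Group G] [MulSemiringAction G L] [IsGaloisGroup G K L] {A : Type} [CommGroup A]
    {Δ : Dat A} (π : Pres Δ G) (S : Finset (Pr K)) (φ : Pr K → G) : Prop where
  cc : ∃ j ∈ π.ι.range, IsCC L j
  unr : Unr L G S
  frob : IsFrob L S φ

/-- existence of the continuation, and the congruence at levels prime to `p` -/
def LEVB_st : Prop := ∀ (K L G : Type) [Field K] [NumberField K] [Field L] [NumberField L]
  [Algebra K L] [Group G] [Finite G] [MulSemiringAction G L] [IsGaloisGroup G K L]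
  (A : Type) [CommGroup A] (Δ : Dat A) (π : Pres Δ G) (S : Finset (Pr K)) (φ : Pr K → G)
  (v₀ : Pr K), Std K L π S φ → v₀ ∉ S →
  (∀ P : Pt Δ ℂ, ∃ f, SmG π S φ v₀ P f) ∧
  ∀ (θ : Pt Δ ℂ → ℂ) (p d : ℕ), (∀ P f, SmG π S φ v₀ P f → f 0 = θ P) → p.Prime →
    (p : 𝓞 K) ∉ v₀.asIdeal → d ∣ Δ.m → ¬p ∣ d → CongrAt p θ d

/-- the congruence at levels divisible by `p` -/
def LEVC_st : Prop := ∀ (K L G : Type) [Field K] [NumberField K] [Field L] [NumberField L]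
  [Algebra K L] [Group G] [Finite G] [MulSemiringAction G L] [IsGaloisGroup G K L]
  (A : Type) [CommGroup A] (Δ : Dat A) (π : Pres Δ G) (S : Finset (Pr K)) (φ : Pr K → G)
  (v₀ : Pr K), Std K L π S φ → v₀ ∉ S →
  ∀ (θ : Pt Δ ℂ → ℂ) (p d : ℕ), (∀ P f, SmG π S φ v₀ P f → f 0 = θ P) → p.Prime →
    (p : 𝓞 K) ∉ v₀.asIdeal → d ∣ Δ.m → p ∣ d → CongrAt p θ d

/-- the fields of levels `d / p` and `d` -/
def FLD_st : Prop := ∀ (K L G : Type) [Field K] [NumberField K] [Field L] [NumberField L]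
  [Algebra K L] [Group G] [Finite G] [MulSemiringAction G L] [IsGaloisGroup G K L]
  (A : Type) [CommGroup A] (Δ : Dat A) (π : Pres Δ G) (S : Finset (Pr K)) (φ : Pr K → G)
  (d₁ d : ℕ), Std K L π S φ → d ∣ Δ.m → d₁ ∣ d →
  ∃ (E₁ E : Type) (_ : Field E₁) (_ : NumberField E₁) (_ : Field E) (_ : NumberField E)
    (_ : Algebra K E₁) (_ : Algebra K E) (_ : Algebra E₁ E) (_ : Algebra E₁ L) (_ : Algebra E L)
    (_ : IsScalarTower K E₁ E) (_ : IsScalarTower K E₁ L) (_ : IsScalarTower K E L)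
    (_ : IsScalarTower E₁ E L) (_ : IsGaloisGroup (π.U d₁) E₁ L) (_ : IsGaloisGroup (π.U d) E L),
    IsTotallyReal E₁ ∧ IsTotallyReal E ∧ above E (above E₁ S) = above E S ∧
    (∀ v : Pr K, above E (above E₁ {v}) = above E {v}) ∧
    ∃ γ : E ≃+* E, (∀ (n : ℕ) (x : E),
      algebraMap E L ((γ ^ n) x) = π.X ^ n • algebraMap E L x) ∧
      ∀ p : ℕ, p.Prime → d = d₁ * p → Rel E₁ E p (γ ^ d₁) (above E₁ S)

/-- the smoothed Stickelberger element is a sum of reduced norms -/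
def ARITH_st : Prop := ∀ (K L G : Type) [Field K] [NumberField K] [Field L] [NumberField L]
  [Algebra K L] [Group G] [Finite G] [MulSemiringAction G L] [IsGaloisGroup G K L]
  (A : Type) [CommGroup A] [Finite A] (Δ : Dat A) (π : Pres Δ G) (S : Finset (Pr K))
  (φ : Pr K → G), Std K L π S φ →
  ∃ θ : Pt Δ ℂ → ℂ, (∀ P, IsLValue S φ (rep π P) (θ P)) ∧ ∀ T : Finset (Pr K), Disjoint S T →
    (∀ p : ℕ, p.Prime → (∀ v ∈ T, (p : 𝓞 K) ∈ v.asIdeal) → ∀ x : L, x ^ p = 1 → x = 1) →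
    (fun P : Pt Δ ℂ => (∏ v ∈ T, (1 - (nrm v : ℂ) • rep π P (φ v)⁻¹).det) * θ P) ∈ J Δ ℂ

/-- the final statement -/
def FINAL_st : Prop := ∀ (K L : Type) [Field K] [NumberField K] [Field L] [NumberField L]
  [Algebra K L] [IsGalois K L] [IsTotallyReal K] [IsCMField L]
  (A : Subgroup (L ≃ₐ[K] L)) [A.Normal], (∀ a ∈ A, ∀ b ∈ A, a * b = b * a) →
  IsCyclic ((L ≃ₐ[K] L) ⧸ A) → ∀ S : Finset (HeightOneSpectrum (𝓞 K)),
  (∀ w : HeightOneSpectrum (𝓞 L), w.under (𝓞 K) ∉ S → Algebra.IsUnramifiedAt (𝓞 K) w.asIdeal) →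
  ∀ φ : HeightOneSpectrum (𝓞 K) → (L ≃ₐ[K] L), IsFrob L S φ →
  ∃ θ : Irr (L ≃ₐ[K] L) → ℂ, (∀ r c, IsLValue S φ r.ρ c ↔ c = θ r) ∧
    ∀ x ∈ annA S φ, x * θ ∈ intRing (L ≃ₐ[K] L)

end Pool.Agent.MP_f3cd89_nt

end

section

set_option autoImplicit false
set_option linter.unusedSectionVars false

open Finset NumberField IsDedekindDomain Pointwise

namespace Pool.Agent.MP_f3cd89_nt

namespace DictX

theorem dvd_iff {r : ℕ} (hr : 0 < r) (e : ℤ) (n : ℕ) :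
    (r : ℤ) ∣ e * n ↔ r / Int.gcd r e ∣ n := by
  have h0 : 0 < Int.gcd r e := Int.gcd_pos_of_ne_zero_left _ (by omega)
  have hc := Int.isCoprime_iff_gcd_eq_one.2 (Int.gcd_div_gcd_div_gcd h0)
  have h1 := Int.mul_ediv_cancel' (Int.gcd_dvd_left (r : ℤ) e)
  have h2 := Int.mul_ediv_cancel' (Int.gcd_dvd_right (r : ℤ) e)
  rw [← Int.natCast_dvd_natCast, Int.natCast_div]
  generalize Int.gcd r e = g at *
  generalize (r : ℤ) / g = a at *
  generalize e / g = b at *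
  rw [← h1, ← h2, mul_assoc, mul_dvd_mul_iff_left (by omega)]
  exact ⟨hc.dvd_of_dvd_mul_left, fun h => h.mul_left _⟩

section Grp

variable {G : Type} [Group G] {N : Subgroup G} [N.Normal] {Y a b : G} {r : ℕ} {e : ℤ}

theorem q_one (hY : ∀ e : ℤ, Y ^ e ∈ N ↔ (r : ℤ) ∣ e) (k : ℤ) :
    QuotientGroup.mk' N Y ^ k = 1 ↔ (r : ℤ) ∣ k := by
  rw [← map_zpow, QuotientGroup.mk'_apply, QuotientGroup.eq_one_iff, hY]

theorem q_mem (hb : b ∈ N) : QuotientGroup.mk' N b = 1 := (QuotientGroup.eq_one_iff b).2 hb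

theorem pow_mem_iff (hr : 0 < r) (hY : ∀ e : ℤ, Y ^ e ∈ N ↔ (r : ℤ) ∣ e) (hb : b ∈ N) (t n : ℕ) :
    (Y ^ t * (b * Y ^ e) * (Y ^ t)⁻¹) ^ n ∈ N ↔ r / Int.gcd r e ∣ n := by
  rw [← dvd_iff hr, ← q_one hY, ← QuotientGroup.eq_one_iff, ← QuotientGroup.mk'_apply]
  simp only [map_pow, map_mul, map_inv, map_zpow, q_mem hb]
  refine Eq.congr_left ?_
  generalize QuotientGroup.mk' N Y = y
  rw [zpow_mul, zpow_natCast]
  congr 1
  group

theorem eq_of_mem (hY : ∀ e : ℤ, Y ^ e ∈ N ↔ (r : ℤ) ∣ e) (hb : b ∈ N) (ha : a ∈ N) {t t' : ℕ}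
    (ht : t < Int.gcd r e) (ht' : t' < Int.gcd r e)
    (h : (Y ^ t')⁻¹ * a * Y ^ t ∈ Subgroup.zpowers (b * Y ^ e)) : t = t' := by
  obtain ⟨k, hk⟩ := h
  have h1 := congrArg (QuotientGroup.mk' N) hk
  simp only [map_pow, map_mul, map_inv, map_zpow, q_mem hb, q_mem ha, one_mul, mul_one] at h1
  have h2 : (r : ℤ) ∣ t' + e * k - t := by
    rw [← q_one hY, zpow_sub, zpow_add, zpow_mul, h1, zpow_natCast, zpow_natCast]
    group
  have h3 : (Int.gcd r e : ℤ) ∣ t' - t := by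
    have := ((Int.gcd_dvd_left (r : ℤ) e).trans h2).sub ((Int.gcd_dvd_right (r : ℤ) e).mul_right k)
    rwa [show (t' : ℤ) + e * k - t - e * k = t' - t by ring] at this
  have := Int.eq_zero_of_abs_lt_dvd h3 (abs_lt.2 ⟨by omega, by omega⟩)
  omega

theorem exists_rep (hr : 0 < r) (hY : ∀ e : ℤ, Y ^ e ∈ N ↔ (r : ℤ) ∣ e) (hb : b ∈ N) (ha : a ∈ N)
    (e' : ℤ) : ∃ t < Int.gcd r e, ∃ c ∈ N, ∃ k : ℤ,
      a * Y ^ e' = c * (Y ^ t * (b * Y ^ e) ^ k) := by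
  have h0 : 0 < (Int.gcd r e : ℤ) := by
    exact_mod_cast Int.gcd_pos_of_ne_zero_left _ (by omega)
  have h1 := Int.emod_nonneg e' h0.ne'
  have h2 := Int.emod_lt_of_pos e' h0
  have h3 := Int.emod_add_mul_ediv e' (Int.gcd r e)
  obtain ⟨t, ht⟩ := Int.eq_ofNat_of_zero_le h1
  rw [ht] at h2 h3
  generalize e' / (Int.gcd r e : ℤ) = m at h3
  refine ⟨t, by omega, _, ?_, Int.gcdB r e * m, (inv_mul_cancel_right _ _).symm⟩
  rw [← QuotientGroup.eq_one_iff, ← QuotientGroup.mk'_apply]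
  simp only [map_pow, map_mul, map_inv, map_zpow, q_mem hb, q_mem ha, one_mul]
  rw [← zpow_mul, ← zpow_natCast, ← zpow_add, ← zpow_sub, q_one hY, ← h3, Int.gcd_eq_gcd_ab]
  exact ⟨Int.gcdA r e * m, by ring⟩

end Grp

section Fld

variable {E L G U : Type} [Field E] [NumberField E] [Field L] [NumberField L] [Algebra E L]
  [Group G] [MulSemiringAction G L] [Group U] [Finite U] [MulSemiringAction U L]
  [IsGaloisGroup U E L]

theorem mem_range [FaithfulSMul G L] {i : U →* G} (hi : ∀ (u : U) (x : L), i u • x = u • x)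
    (h : G) (hh : ∀ x : E, h • algebraMap E L x = algebraMap E L x) : ∃ u, i u = h := by
  obtain ⟨u, hu⟩ := (IsGaloisGroup.mulEquivAlgEquiv U E L).surjective
    { MulSemiringAction.toRingEquiv G L h with commutes' := hh }
  refine ⟨u, eq_of_smul_eq_smul (α := L) fun x => ?_⟩
  rw [hi]
  exact DFunLike.congr_fun hu x

theorem act_under {g : G} {γ : E ≃+* E}
    (hγ : ∀ x, algebraMap E L (γ x) = g • algebraMap E L x) (P : Pr L) :
    act γ (P.under (𝓞 E)) = (gact g P).under (𝓞 E) := by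
  ext a
  have : algebraMap (𝓞 E) (𝓞 L) ((RingOfIntegers.mapRingEquiv γ).symm a) =
      g⁻¹ • algebraMap (𝓞 E) (𝓞 L) a := by
    apply RingOfIntegers.ext
    change algebraMap E L (γ.symm a) = g⁻¹ • algebraMap E L a
    rw [eq_inv_smul_iff, ← hγ, RingEquiv.apply_symm_apply]
  change algebraMap (𝓞 E) (𝓞 L) ((RingOfIntegers.mapRingEquiv γ).symm a) ∈ P.asIdeal ↔
    algebraMap (𝓞 E) (𝓞 L) a ∈ (gact g P).asIdeal
  rw [this, gact_asIdeal, Ideal.mem_pointwise_smul_iff_inv_smul_mem]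

theorem frob_conj {i : U →* G} (hi : ∀ (u : U) (x : L), i u • x = u • x) {g : G} {u u₁ : U}
    (h : i u₁ = g * i u * g⁻¹) {P : Pr L}
    (hn : nrm ((gact g P).under (𝓞 E)) = nrm (P.under (𝓞 E)))
    (hP : IsArithFrobAt (𝓞 E) u P.asIdeal) : IsArithFrobAt (𝓞 E) u₁ (gact g P).asIdeal := by
  intro x
  have hi' : ∀ (u : U) (x : 𝓞 L), i u • x = u • x := fun u x => RingOfIntegers.ext (hi u x)
  have hn' : Nat.card (𝓞 E ⧸ (gact g P).asIdeal.under (𝓞 E)) =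
      Nat.card (𝓞 E ⧸ P.asIdeal.under (𝓞 E)) := hn
  rw [hn', gact_asIdeal, Ideal.mem_pointwise_smul_iff_inv_smul_mem]
  have := hP (g⁻¹ • x)
  simp only [MulSemiringAction.toAlgHom_apply] at this ⊢
  rwa [← hi', h, smul_sub, smul_pow', mul_smul, mul_smul, inv_smul_smul, hi']

theorem uniq (hF : FB_st) {S : Finset (Pr E)} (hU : Unr L U S) {φ : Pr E → U}
    (hφ : IsFrob L S φ) {P : Pr L} (hw : P.under (𝓞 E) ∉ S) {u : U}
    (hP : IsArithFrobAt (𝓞 E) u P.asIdeal) : ∃ u', φ (P.under (𝓞 E)) = u' * u * u'⁻¹ := by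
  obtain ⟨-, u2, -, -, u5, -, -, u8⟩ := hF E L U
  obtain ⟨P₀, h1, h2⟩ := hφ _ hw
  obtain ⟨u', rfl⟩ := u2 P P₀ h1.symm
  exact ⟨u', (u8 _ _ (hU _ (h1 ▸ hw)) (u5 _ _ u' hP)).1 _ h2⟩

end Fld

end DictX

open DictX in
theorem dict (hF : FB_st) (hT : TOW_st) : DICT_st := by
  intro F E L G U _ _ _ _ _ _ _ _ _ _ _ _ _ _ _ _ _ _ i S φE hi hG hφE
  classical
  obtain ⟨g1, g2, -, -, g5, -, -, g8⟩ := hF F L G
  obtain ⟨u1, u2, -⟩ := hF E L U
  obtain ⟨t1, -, t3, -⟩ := hT F E L G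
  obtain ⟨-, a2, a3, a4⟩ := t3 U i hi
  have hU := a3 S hG
  have : FaithfulSMul G L := IsGaloisGroup.faithful F
  refine ⟨fun g γ hγ => ?_, fun Y r φ hr hN hgen hY hφ v hv u e he => ?_⟩
  · have h1 : ∀ w : Pr E, (act γ w).under (𝓞 F) = w.under (𝓞 F) := fun w => by
      obtain ⟨P, rfl⟩ := under_surj (E' := L) w
      rw [act_under hγ, t1, t1, g1]
    refine ⟨h1, fun w hw => ?_⟩
    obtain ⟨P, rfl, hP⟩ := hφE w hw
    obtain ⟨u₁, h₁⟩ := mem_range (E := E) hi (g * i (φE (P.under (𝓞 E))) * g⁻¹) fun x => by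
      obtain ⟨y, rfl⟩ := γ.surjective x
      rw [hγ, mul_smul, inv_smul_smul, mul_smul, hi, smul_algebraMap]
    have h2 := frob_conj hi h₁ (by rw [← act_under hγ]; exact absNorm_act γ _) hP
    obtain ⟨u', hu'⟩ := uniq hF hU hφE (by rwa [← act_under hγ, mem_above, h1, ← mem_above]) h2
    exact ⟨u', by rw [act_under hγ, hu', map_mul, map_mul, map_inv, h₁]⟩
  · obtain ⟨P, rfl, hP⟩ := hφ v hv
    have h8 := (g8 P _ (hG P hv) hP).2.1
    refine ⟨fun t => (gact (Y ^ t) P).under (𝓞 E), fun t ht t' ht' h => ?_, ?_, fun t => ?_⟩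
    · obtain ⟨u', hu'⟩ := u2 _ _ h
      refine eq_of_mem hY ⟨u, rfl⟩ ⟨u', rfl⟩ (mem_range.1 ht) (mem_range.1 ht') ?_
      rw [← he, ← h8, gact_mul, gact_mul, a2, hu', ← gact_mul, inv_mul_cancel, gact_one]
    · ext w
      rw [mem_above, mem_singleton, mem_image]
      refine ⟨fun h => ?_, ?_⟩
      · obtain ⟨P', rfl⟩ := under_surj (E' := L) w
        obtain ⟨g, rfl⟩ := g2 P P' (by rw [← h, t1])
        obtain ⟨u', e', rfl⟩ := hgen g
        obtain ⟨t, ht, _, ⟨c, rfl⟩, k, hk⟩ := exists_rep (e := e) hr hY ⟨u, rfl⟩ ⟨u', rfl⟩ e'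
        refine ⟨t, mem_range.2 ht, ?_⟩
        rw [hk, gact_mul, gact_mul, ← he, (h8 _).2 ⟨k, rfl⟩, a2, u1]
      · rintro ⟨t, -, rfl⟩
        rw [t1, g1]
    · have hv' : (gact (Y ^ t) P).under (𝓞 F) ∉ S := by rwa [g1]
      have h3 : ∀ n : ℕ, (Y ^ t * φ (P.under (𝓞 F)) * (Y ^ t)⁻¹) ^ n ∈ i.range ↔
          r / Int.gcd r e ∣ n := fun n => by
        rw [he]
        exact pow_mem_iff hr hY ⟨u, rfl⟩ t n
      obtain ⟨b1, -, b3⟩ := a4 _ _ _ (hG _ hv') (g5 _ _ (Y ^ t) hP) h3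
      obtain ⟨u₁, h₁⟩ := (h3 _).2 dvd_rfl
      obtain ⟨u', hu'⟩ := uniq hF hU hφE (by rwa [mem_above, t1]) (b3 u₁ h₁)
      exact ⟨by rw [b1, g1], u', by rw [hu', map_mul, map_mul, map_inv, h₁, conj_pow]⟩

end Pool.Agent.MP_f3cd89_nt

end

section

/-! The intermediate fields, and the congruence at levels prime to `p`. -/

set_option autoImplicit false

open Finset NumberField IsDedekindDomain

namespace Pool.Agent.MP_f3cd89_nt

namespace LevbX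

theorem under_under {F E L : Type} [Field F] [NumberField F] [Field E] [NumberField E] [Field L]
    [NumberField L] [Algebra F E] [Algebra E L] [Algebra F L] [IsScalarTower F E L] (w : Pr L) :
    (w.under (𝓞 E)).under (𝓞 F) = w.under (𝓞 F) :=
  HeightOneSpectrum.ext (Ideal.under_under w.asIdeal)

theorem above_above {F E L : Type} [Field F] [NumberField F] [Field E] [NumberField E] [Field L]
    [NumberField L] [Algebra F E] [Algebra E L] [Algebra F L] [IsScalarTower F E L]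
    (S : Finset (Pr F)) : above L (above E S) = above L S := by
  ext w
  rw [mem_above, mem_above, mem_above, under_under]

theorem real {E L G : Type} [Field E] [NumberField E] [Field L] [NumberField L] [Algebra E L]
    [Group G] [MulSemiringAction G L] {j : G} (hj : IsCC L j)
    (h : ∀ x : E, j • algebraMap E L x = algebraMap E L x) : IsTotallyReal E := by
  refine ⟨fun v => ?_⟩
  rw [InfinitePlace.isReal_iff, ComplexEmbedding.isReal_iff]
  ext x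
  have := hj (ComplexEmbedding.lift L v.embedding) (algebraMap E L x)
  rw [h, ComplexEmbedding.lift_algebraMap_apply] at this
  exact this.symm

theorem exists_res {E L G : Type} [Field E] [Field L] [Algebra E L] [Group G]
    [MulSemiringAction G L] (U : Subgroup G) (hU : U.Normal) [IsGaloisGroup U E L] (g : G) :
    ∃ γ : E ≃+* E, ∀ (n : ℕ) (x : E), algebraMap E L ((γ ^ n) x) = g ^ n • algebraMap E L x := by
  have h : ∀ (g : G) (x : E), ∃ y : E, algebraMap E L y = g • algebraMap E L x := fun g x => by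
    refine IsGaloisGroup.isInvariant.isInvariant (G := U) _ fun u => ?_
    have e : (⟨g⁻¹ * u * g, by simpa using hU.conj_mem u u.2 g⁻¹⟩ : U) • algebraMap E L x =
        algebraMap E L x := smul_algebraMap _ x
    change (u : G) • g • algebraMap E L x = _
    change (g⁻¹ * u * g) • algebraMap E L x = _ at e
    rw [mul_smul, mul_smul, inv_smul_eq_iff] at e
    exact e
  choose f hf using h
  have inj := (algebraMap E L).injective
  let γ : E ≃+* E :=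
    { toFun := f g
      invFun := f g⁻¹
      left_inv := fun x => inj (by rw [hf, hf, inv_smul_smul])
      right_inv := fun x => inj (by rw [hf, hf, smul_inv_smul])
      map_mul' := fun x y => inj (by rw [map_mul, hf, hf, hf, map_mul, smul_mul'])
      map_add' := fun x y => inj (by rw [map_add, hf, hf, hf, map_add, smul_add]) }
  refine ⟨γ, fun n => ?_⟩
  induction n with
  | zero => intro x; rw [pow_zero, pow_zero, one_smul]; rfl
  | succ n ih =>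
    intro x
    rw [pow_succ, pow_succ, mul_smul, ← hf g x, ← ih]
    rfl

theorem rel (hT : TOW_st) (hR : REP_st) {K L G : Type} [Field K] [NumberField K] [Field L]
    [NumberField L] [Algebra K L] [Group G] [Finite G] [MulSemiringAction G L]
    [IsGaloisGroup G K L] {A : Type} [CommGroup A] {Δ : Dat A} (π : Pres Δ G) {S : Finset (Pr K)}
    (hu : Unr L G S) {d₁ d p : ℕ} (hd : d ∣ Δ.m) (hp : p.Prime) (e : d = d₁ * p) {E₁ E : Type}
    [Field E₁] [NumberField E₁] [Field E] [NumberField E] [Algebra K E₁] [Algebra E₁ E]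
    [Algebra E₁ L] [Algebra E L] [IsScalarTower K E₁ L] [IsScalarTower E₁ E L]
    [IsGaloisGroup (π.U d₁) E₁ L] [IsGaloisGroup (π.U d) E L] (γ : E ≃+* E)
    (hγ : ∀ (n : ℕ) (x : E), algebraMap E L ((γ ^ n) x) = π.X ^ n • algebraMap E L x) :
    Rel E₁ E p (γ ^ d₁) (above E₁ S) := by
  have inj := (algebraMap E L).injective
  have d0 : 0 < d₁ := Nat.pos_of_mul_pos_right (e ▸ Nat.pos_of_dvd_of_pos hd Δ.m_pos)
  have key : ∀ n : ℕ, γ ^ n = 1 ↔ d ∣ n := fun n => by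
    have h1 := (hR A Δ G π).2.2.2.1 d hd 1 n
    rw [map_one, one_mul, zpow_natCast, Int.natCast_dvd_natCast,
      ← IsGaloisGroup.fixingSubgroup_range_algebraMap' G K L (π.U d) E,
      mem_fixingSubgroup_iff] at h1
    rw [← h1]
    constructor
    · rintro h _ ⟨x, rfl⟩
      rw [← hγ, h]
      rfl
    · intro h
      ext x
      exact inj ((hγ n x).trans (h _ ⟨x, rfl⟩))
  refine ⟨hp, ?_, fun x => ⟨fun h => ?_, ?_⟩, fun w hw x => ?_⟩
  · have := Fact.mk hp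
    refine orderOf_eq_prime ?_ fun h => ?_
    · rw [← pow_mul, key, e]
    · have h2 := Nat.le_of_dvd d0 ((key d₁).1 h)
      have := hp.two_le
      nlinarith
  · have h1 : π.U d₁ ≤ MulAction.stabilizer G (algebraMap E L x) := by
      refine sup_le (fun g hg => ?_) ((Subgroup.zpowers_le).2 ?_)
      · exact smul_algebraMap (⟨g, Subgroup.mem_sup_left hg⟩ : π.U d) x
      · rw [MulAction.mem_stabilizer_iff, ← hγ, h]
    obtain ⟨y, hy⟩ := IsGaloisGroup.isInvariant.isInvariant (G := π.U d₁) (A := E₁)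
      (algebraMap E L x) fun u => h1 u.2
    exact ⟨y, inj (by rw [← hy, ← IsScalarTower.algebraMap_apply])⟩
  · rintro ⟨y, rfl⟩
    apply inj
    rw [hγ, ← IsScalarTower.algebraMap_apply]
    exact smul_algebraMap
      (⟨π.X ^ d₁, Subgroup.mem_sup_right (Subgroup.mem_zpowers _)⟩ : π.U d₁) y
  · obtain ⟨W, rfl⟩ := under_surj (E' := L) w
    rw [under_under] at hw ⊢
    exact (hT E₁ E L (π.U d₁)).2.1 W
      (((hT K E₁ L G).2.2.1 (π.U d₁) (π.U d₁).subtype fun _ _ => rfl).2.2.1 S hu W hw) x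

theorem exists_elt {F U : Type} [Field F] [NumberField F] [Group U] (φ : Pr F → U)
    (D : Pr F →₀ ℤ) : ∃ g : U, ∀ χ : U →* ℂˣ, chv (fun w => χ (φ w)) D = χ g := by
  induction D using Finsupp.induction_linear with
  | zero => exact ⟨1, fun χ => by rw [chv_zero, map_one]⟩
  | add D D' h h' =>
    obtain ⟨g, hg⟩ := h
    obtain ⟨g', hg'⟩ := h'
    exact ⟨g * g', fun χ => by rw [chv_add, hg, hg', map_mul]⟩
  | single w n => exact ⟨φ w ^ n, fun χ => by rw [chv_single, map_zpow]⟩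

theorem main (hA : AR_st) (hS : SCA_st) (hL : LEVA_st) (hF : FLD_st) (hB : FB_st) (hT : TOW_st)
    (hR : REP_st) (hC : NTC_st) {K L G : Type} [Field K] [NumberField K] [Field L]
    [NumberField L] [Algebra K L] [Group G] [Finite G] [MulSemiringAction G L]
    [IsGaloisGroup G K L] {A : Type} [CommGroup A] {Δ : Dat A} (π : Pres Δ G) {S : Finset (Pr K)}
    {φ : Pr K → G} {v₀ : Pr K} (hs : Std K L π S φ) (hv : v₀ ∉ S) {d : ℕ} (hd : d ∣ Δ.m) :
    ∃ l k : ℕ, l.Prime ∧ (l : 𝓞 K) ∈ v₀.asIdeal ∧ ∃ Z : (A × ℤ) →₀ ℤ,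
      (∀ x ∈ Z.support, (d : ℤ) ∣ x.2) ∧ ∀ P : Pt Δ ℂ, P.d = d → ∃ f, SmG π S φ v₀ P f ∧
        (l : ℂ) ^ k * f 0 =
          Z.sum fun x z => (z : ℂ) * ((P.η x.1 * P.ω ^ x.2 : ℂˣ) : ℂ) := by
  classical
  obtain ⟨E₁, E, _, _, _, _, _, _, _, _, _, _, _, _, _, _, _, -, hE, -⟩ :=
    hF K L G A Δ π S φ d d hs hd dvd_rfl
  obtain ⟨φE, hφE⟩ := (hB E L (π.U d)).2.2.2.1 (above E S)
  have hu : Unr L (π.U d) (above E S) :=
    ((hT K E L G).2.2.1 (π.U d) (π.U d).subtype fun _ _ => rfl).2.2.1 S hs.unr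
  obtain ⟨j, hj, hcc⟩ := hs.cc
  obtain ⟨N, N0, hN⟩ := hA E L (π.U d) ⟨j, Subgroup.mem_sup_left hj⟩ (above E S) φE hcc hu hφE
  obtain ⟨l, hl, hlv, -⟩ := (hC K).2.2.2.2.2 v₀
  obtain ⟨k, Z, -, hZ⟩ := hS E l (above E S) (above E {v₀}) N hl N0
    (disjoint_left.2 fun w h h' => hv (mem_singleton.1 (mem_above.1 h') ▸ mem_above.1 h))
    ((under_surj (E' := E) v₀).imp fun w hw => mem_above.2 (mem_singleton.2 hw))
    fun c hc => by
      rw [← mem_singleton.1 (mem_above.1 hc)] at hlv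
      rw [← map_natCast (algebraMap (𝓞 K) (𝓞 E))]
      exact hlv
  choose g hg using exists_elt φE
  choose a e he hae using fun D => ((hR A Δ G π).2.1 d _).1 (g D)⁻¹.2
  refine ⟨l, k, hl, hlv, Z.mapDomain fun D => (a D, e D), fun x hx => ?_, fun P hP => ?_⟩
  · obtain ⟨D, -, rfl⟩ := mem_image.1 (Finsupp.mapDomain_support hx)
    exact he D
  · obtain ⟨-, -, -, -, -, h1, h2⟩ := (hR A Δ G π).2.2.2.2 ℂ P
    rw [hP] at h2
    let ψ : π.U d →* ℂˣ := MonoidHom.mk' (fun u => psi π P u) fun u v => h2 u u.2 v v.2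
    obtain ⟨f, hf, hf0⟩ := hZ _ (hN ψ⁻¹)
    refine ⟨f, hL K E L G A Δ π d S φ φE v₀ P f hP hs.unr hs.frob hφE hv hf, ?_⟩
    rw [hf0, Finsupp.sum_mapDomain_index (by simp) (by simp [add_mul])]
    refine Finsupp.sum_congr fun D _ => ?_
    rw [hg, MonoidHom.inv_apply, ← map_inv, ← h1, ← hae]
    rfl

end LevbX

theorem fld (hT : TOW_st) (hR : REP_st) : FLD_st := by
  intro K L G _ _ _ _ _ _ _ _ _ A _ Δ π S φ d₁ d hs hd hd₁
  have hU : π.U d ≤ π.U d₁ := fun g hg => by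
    obtain ⟨a, e, he, rfl⟩ := ((hR A Δ G π).2.1 d g).1 hg
    exact ((hR A Δ G π).2.1 d₁ _).2 ⟨a, e, (Int.natCast_dvd_natCast.2 hd₁).trans he, rfl⟩
  let E₁ : IntermediateField K L := FixedPoints.intermediateField (π.U d₁)
  let E : IntermediateField K L := FixedPoints.intermediateField (π.U d)
  have hle : E₁ ≤ E := IsGaloisGroup.fixedPoints_le_of_le G K L _ _ hU
  let _ : Algebra E₁ E := (IntermediateField.inclusion hle).toAlgebra
  have t1 : IsScalarTower K E₁ E := IsScalarTower.of_algebraMap_eq' rfl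
  have t2 : IsScalarTower E₁ E L := IsScalarTower.of_algebraMap_eq' rfl
  obtain ⟨j, hj, hcc⟩ := hs.cc
  obtain ⟨γ, hγ⟩ := LevbX.exists_res (E := E) (L := L) (π.U d) ((hR A Δ G π).2.2.1 d) π.X
  refine ⟨E₁, E, inferInstance, inferInstance, inferInstance, inferInstance, inferInstance,
    inferInstance, inferInstance, inferInstance, inferInstance, t1, inferInstance, inferInstance,
    t2, inferInstance, inferInstance, LevbX.real hcc fun x => ?_, LevbX.real hcc fun x => ?_,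
    LevbX.above_above S, fun v => LevbX.above_above {v}, γ, hγ,
    fun p hp e => LevbX.rel hT hR π hs.unr hd hp e γ hγ⟩
  · exact x.2 (⟨j, Subgroup.mem_sup_left hj⟩ : π.U d₁)
  · exact x.2 (⟨j, Subgroup.mem_sup_left hj⟩ : π.U d)

theorem levb (hA : AR_st) (hS : SCA_st) (hL : LEVA_st) (hF : FLD_st) (hB : FB_st) (hT : TOW_st)
    (hR : REP_st) (hC : NTC_st) : LEVB_st := by
  intro K L G _ _ _ _ _ _ _ _ _ A _ Δ π S φ v₀ hs hv
  refine ⟨fun P => ?_, fun θ p d hθ hp hpv hd hpd => ?_⟩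
  · obtain ⟨l, k, -, -, Z, -, h⟩ := LevbX.main hA hS hL hF hB hT hR hC π hs hv P.d_dvd
    exact (h P rfl).imp fun _ h => h.1
  · obtain ⟨l, k, hl, hlv, Z, hZ, h⟩ := LevbX.main hA hS hL hF hB hT hR hC π hs hv hd
    refine ⟨l ^ k, Nat.Coprime.pow_left k ((Nat.coprime_primes hl hp).2 ?_), Z, hZ,
      fun P hP => ?_⟩
    · rintro rfl
      exact hpv hlv
    · obtain ⟨f, hf, hf0⟩ := h P hP
      rw [dif_neg (hP ▸ hpd), sub_zero, ← hθ P f hf, Nat.cast_pow, hf0,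
        Nat.factorization_eq_zero_of_not_dvd hpd]
      simp

end Pool.Agent.MP_f3cd89_nt

end

section

/-! The congruence at levels divisible by `p`. -/

set_option autoImplicit false

open Finset NumberField IsDedekindDomain

namespace Pool.Agent.MP_f3cd89_nt

namespace LevcX

section Grp

variable {A : Type} [CommGroup A] {Δ : Dat A} {G : Type} [Group G] (π : Pres Δ G)

theorem chi (hR : REP_st) (P : Pt Δ ℂ) {d : ℕ} (h : P.d = d) (n : ℕ) :
    ∃ χ : π.U d →* ℂˣ, ∀ u, χ u = psi π P (π.X ^ n * u * (π.X ^ n)⁻¹) := by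
  subst h
  obtain ⟨-, -, h3, -, h5⟩ := hR A Δ G π
  refine ⟨MonoidHom.mk' (fun u => psi π P (π.X ^ n * u * (π.X ^ n)⁻¹)) fun u v => ?_, fun _ => rfl⟩
  rw [← (h5 ℂ P).2.2.2.2.2.2 _ ((h3 _).conj_mem _ u.2 _) _ ((h3 _).conj_mem _ v.2 _)]
  congr 1
  rw [Subgroup.coe_mul]
  group

theorem chi0 (hR : REP_st) (P : Pt Δ ℂ) {d : ℕ} (h : P.d = d) :
    ∃ χ : π.U d →* ℂˣ, ∀ u, χ u = psi π P u := by
  obtain ⟨χ, hχ⟩ := chi π hR P h 0
  exact ⟨χ, fun u => by rw [hχ, pow_zero, one_mul, inv_one, mul_one]⟩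

theorem psi_conj (hR : REP_st) (P : Pt Δ ℂ) {d : ℕ} (h : P.d = d) (u y : π.U d) (z : G)
    (hz : (y : G) = u * z * (u : G)⁻¹) : psi π P y = psi π P z := by
  obtain ⟨χ, hχ⟩ := chi0 π hR P h
  have e : z = ((u⁻¹ * y * u : π.U d) : G) := by
    rw [Subgroup.coe_mul, Subgroup.coe_mul, Subgroup.coe_inv, hz]
    group
  rw [e, ← hχ, ← hχ, map_mul, map_mul, map_inv, inv_mul_cancel_comm]

theorem psi_val (hR : REP_st) (P : Pt Δ ℂ) (n : ℕ) (a : A) (e : ℤ) :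
    ((psi π P (π.X ^ n * (π.ι a * π.X ^ e) * (π.X ^ n)⁻¹) : ℂˣ) : ℂ) =
      P.ch n a * ((P.ω ^ e : ℂˣ) : ℂ) := by
  obtain ⟨h1, -, -, -, h5⟩ := hR A Δ G π
  have e1 : π.X ^ n * (π.ι a * π.X ^ e) * (π.X ^ n)⁻¹ = π.ι ((Δ.σ ^ n) a) * π.X ^ e := by
    rw [← h1]
    group
  rw [e1, (h5 ℂ P).2.2.2.2.2.1, Units.val_mul, Pt.ch_apply]

theorem iota_mem (d : ℕ) (a : A) : π.ι a ∈ π.U d := Subgroup.mem_sup_left ⟨a, rfl⟩

theorem X_mem (d : ℕ) : π.X ^ d ∈ π.U d := Subgroup.mem_sup_right (Subgroup.mem_zpowers _)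

theorem U_le (d₁ p : ℕ) : π.U (d₁ * p) ≤ π.U d₁ := by
  refine sup_le le_sup_left ((Subgroup.zpowers_le).2 ?_)
  rw [pow_mul]
  exact Subgroup.pow_mem _ (X_mem π d₁) p

theorem down_congr (P : Pt Δ ℂ) {d₁ d₂ : ℕ} (e : d₂ = d₁) (h₁ : d₁ ∣ P.d) (h₂ : d₂ ∣ P.d) :
    P.down d₂ h₂ = P.down d₁ h₁ := by
  subst e
  rfl

end Grp

section Div

variable {E : Type} [Field E] [NumberField E]

theorem exists_g {U : Type} [Group U] (φ : Pr E → U) (D : Pr E →₀ ℤ) :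
    ∃ g : U, ∀ χ : U →* ℂˣ, chv (fun w => (χ (φ w))⁻¹) D = χ g := by
  induction D using Finsupp.induction_linear with
  | zero => exact ⟨1, fun χ => by rw [chv_zero, map_one]⟩
  | add D D' h h' =>
    obtain ⟨g, hg⟩ := h
    obtain ⟨g', hg'⟩ := h'
    exact ⟨g * g', fun χ => by rw [chv_add, hg, hg', map_mul]⟩
  | single v n => exact ⟨(φ v)⁻¹ ^ n, fun χ => by rw [chv_single, map_zpow, map_inv]⟩

omit [NumberField E] in
theorem chv_congr {S : Finset (Pr E)} {ψ ψ' : Pr E → ℂˣ} {D : Pr E →₀ ℤ} (hD : D ∈ off S)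
    (h : ∀ w, w ∉ S → ψ w = ψ' w) : chv ψ D = chv ψ' D :=
  Finsupp.prod_congr fun w hw => by
    rw [h w fun hS => Finsupp.mem_support_iff.1 hw (hD w hS)]

theorem sm_congr {S C : Finset (Pr E)} {ψ ψ' : Pr E → ℂˣ} {f : ℂ → ℂ} (hSC : Disjoint S C)
    (h : ∀ w, w ∉ S → ψ w = ψ' w) (H : Sm S C ψ f) : Sm S C ψ' f := by
  refine ⟨H.1, fun s hs => ?_⟩
  obtain ⟨L, h1, h2⟩ := H.2 s hs
  refine ⟨L, ?_, h2.trans ?_⟩
  · have e : (fun v : {v : Pr E // v ∉ S} => (1 - (ψ' v : ℂ) * (nrm v.1 : ℂ) ^ (-s))⁻¹) =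
        fun v : {v : Pr E // v ∉ S} => (1 - (ψ v : ℂ) * (nrm v.1 : ℂ) ^ (-s))⁻¹ :=
      funext fun v => by rw [h v.1 v.2]
    rw [e]
    exact h1
  · rw [Finset.prod_congr rfl fun c hc => ?_]
    rw [h c (Finset.disjoint_right.1 hSC hc)]

variable (E) in
theorem abv {K : Type} [Field K] [NumberField K] [Algebra K E] {S : Finset (Pr K)} {v₀ : Pr K}
    (hv : v₀ ∉ S) {l : ℕ} (hl : (l : 𝓞 K) ∈ v₀.asIdeal) :
    Disjoint (above E S) (above E {v₀}) ∧ (above E {v₀}).Nonempty ∧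
      ∀ c ∈ above E {v₀}, (l : 𝓞 E) ∈ c.asIdeal := by
  refine ⟨Finset.disjoint_left.2 fun w h1 h2 => hv ?_, ?_, fun c hc => ?_⟩
  · rw [← Finset.mem_singleton.1 (mem_above.1 h2)]
    exact mem_above.1 h1
  · obtain ⟨w, hw⟩ := under_surj (E' := E) v₀
    exact ⟨w, mem_above.2 (Finset.mem_singleton.2 hw)⟩
  · rw [← Finset.mem_singleton.1 (mem_above.1 hc)] at hl
    have h : algebraMap (𝓞 K) (𝓞 E) (l : 𝓞 K) ∈ c.asIdeal := hl
    rwa [map_natCast] at h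

end Div

/-- the value at a level as the value of an abelian smoothed function -/
theorem lev (hA : AR_st) (hS : SCA_st) (hL : LEVA_st) (hT : TOW_st) (hR : REP_st)
    {K L G : Type} (E : Type) [Field K] [NumberField K] [Field E] [NumberField E] [IsTotallyReal E]
    [Field L] [NumberField L] [Algebra K E] [Algebra E L] [Algebra K L] [IsScalarTower K E L]
    [Group G] [Finite G] [MulSemiringAction G L] [IsGaloisGroup G K L]
    {A : Type} [CommGroup A] {Δ : Dat A} {π : Pres Δ G} {d : ℕ} [IsGaloisGroup (π.U d) E L]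
    {S : Finset (Pr K)} {φ : Pr K → G} (hs : Std K L π S φ) {φE : Pr E → π.U d}
    (hφ : IsFrob L (above E S) φE) {v₀ : Pr K} (hv : v₀ ∉ S) {l : ℕ} (hl : l.Prime)
    (hl' : (l : 𝓞 K) ∈ v₀.asIdeal) :
    ∃ N : ℕ, 0 < N ∧ ∀ P : Pt Δ ℂ, P.d = d →
      IsRay (above E S) N (fun w => (psi π P (φE w))⁻¹) ∧ ∃ f,
        Sm (above E S) (above E {v₀}) (fun w => (psi π P (φE w))⁻¹) f ∧ SmG π S φ v₀ P f := by
  obtain ⟨j, ⟨a, rfl⟩, hj⟩ := hs.cc
  have hu : Unr L (π.U d) (above E S) :=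
    ((hT K E L G).2.2.1 (π.U d) (π.U d).subtype fun _ _ => rfl).2.2.1 S hs.unr
  obtain ⟨N, hN, hray⟩ := hA E L (π.U d) ⟨π.ι a, iota_mem π d a⟩ (above E S) φE hj hu hφ
  obtain ⟨a1, a2, a3⟩ := abv E hv hl'
  obtain ⟨_, _, -, hf⟩ := hS E l (above E S) (above E {v₀}) N hl hN a1 a2 a3
  refine ⟨N, hN, fun P hP => ?_⟩
  obtain ⟨χ, hχ⟩ := chi0 π hR P hP
  have h1 : IsRay (above E S) N fun w => (psi π P (φE w))⁻¹ := by
    have h2 := hray χ⁻¹
    simp only [MonoidHom.inv_apply, hχ] at h2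
    exact h2
  obtain ⟨f, h3, -⟩ := hf _ h1
  exact ⟨h1, f, h3, hL K E L G A Δ π d S φ φE v₀ P f hP hs.unr hs.frob hφ hv h3⟩

/-- the transfer -/
theorem tra (hD : DICT_st) (hR : REP_st) (hE : REPE_st)
    {E₁ E L G : Type} [Field E₁] [NumberField E₁] [Field E] [NumberField E]
    [Field L] [NumberField L] [Algebra E₁ E] [Algebra E L] [Algebra E₁ L] [IsScalarTower E₁ E L]
    [Group G] [Finite G] [MulSemiringAction G L]
    {A : Type} [CommGroup A] {Δ : Dat A} {π : Pres Δ G} {d₁ p : ℕ} (hp : 0 < p)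
    [IsGaloisGroup (π.U d₁) E₁ L] [IsGaloisGroup (π.U (d₁ * p)) E L]
    {S : Finset (Pr E₁)} {φ : Pr E₁ → π.U d₁} {φE : Pr E → π.U (d₁ * p)}
    (hu : Unr L (π.U d₁) S) (hφ : IsFrob L S φ) (hφE : IsFrob L (above E S) φE)
    (P : Pt Δ ℂ) (hP : P.d = d₁ * p) (h₁ : d₁ ∣ P.d) (v : Pr E₁) (hv : v ∉ S) :
    (psi π (P.down d₁ h₁) (φ v))⁻¹ = ∏ w ∈ above E {v}, (psi π P (φE w))⁻¹ := by
  classical
  obtain ⟨-, r2, r3, r4, -⟩ := hR A Δ G π
  have hd : 0 < d₁ := Nat.pos_of_dvd_of_pos h₁ P.d_pos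
  have hd' : (d₁ : ℤ) ≠ 0 := by exact_mod_cast hd.ne'
  have dec : ∀ g : π.U d₁, ∃ (a : A) (e : ℤ), (g : G) = π.ι a * π.X ^ (d₁ * e) ∧
      g = Subgroup.inclusion (U_le π d₁ p) ⟨π.ι a, iota_mem π _ a⟩ *
        (⟨π.X ^ d₁, X_mem π d₁⟩ : π.U d₁) ^ e := fun g => by
    obtain ⟨a, _, ⟨e, rfl⟩, h⟩ := (r2 d₁ g).1 g.2
    refine ⟨a, e, h, Subtype.ext ?_⟩
    rw [Subgroup.coe_mul, Subgroup.coe_zpow, h, zpow_mul, zpow_natCast]
    rfl
  obtain ⟨a, e, h1, h2⟩ := dec (φ v)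
  obtain ⟨w, w1, w2, w3⟩ := (hD E₁ E L (π.U d₁) (π.U (d₁ * p)) (Subgroup.inclusion (U_le π d₁ p))
    S φE (fun _ _ => rfl) hu hφE).2 ⟨π.X ^ d₁, X_mem π d₁⟩ p φ hp
    (by rw [Subgroup.inclusion_range]; exact (r3 _).subgroupOf _)
    (fun g => let ⟨_, e, _, h⟩ := dec g; ⟨_, e, h⟩) (fun e => by
      rw [Subgroup.inclusion_range, Subgroup.mem_subgroupOf, Subgroup.coe_zpow]
      have h := r4 (d₁ * p) (hP ▸ P.d_dvd) 1 (d₁ * e)
      rw [map_one, one_mul, zpow_mul, zpow_natCast, Nat.cast_mul, mul_dvd_mul_iff_left hd'] at h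
      exact h) hφ v hv _ e h2
  have h3 := (hE A Δ G π ℂ P).2 d₁ h₁ a (d₁ * e) (dvd_mul_right _ _)
  have h4 : P.d / d₁ = p := by rw [hP, Nat.mul_div_cancel_left _ hd]
  rw [h4, Int.mul_ediv_cancel_left _ hd', ← h1] at h3
  rw [h3, w2, Finset.prod_image w1, ← Finset.prod_inv_distrib]
  refine Finset.prod_congr rfl fun t _ => ?_
  obtain ⟨-, u, hu'⟩ := w3 t
  rw [psi_conj π hR P hP u (φE (w t)) _ (congrArg Subtype.val hu')]
  rfl

end LevcX

open LevcX in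
theorem levc (hA : AR_st) (hS : SCA_st) (hS2 : SCB_st) (hL : LEVA_st) (hF : FLD_st)
    (hD : DICT_st) (hB : FB_st) (hT : TOW_st) (hR : REP_st) (hE : REPE_st) (hC : NTC_st) :
    LEVC_st := by
  intro K L G _ _ _ _ _ _ _ _ _ A _ Δ π S φ v₀ hs hv θ p d hθ hp hpv hd hpd
  classical
  obtain ⟨d₁, rfl⟩ := exists_eq_mul_left_of_dvd hpd
  have hd0 : d₁ * p ≠ 0 := (Nat.pos_of_dvd_of_pos hd Δ.m_pos).ne'
  obtain ⟨j, hj⟩ : ∃ j, (d₁ * p).factorization p = j + 1 :=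
    Nat.exists_eq_succ_of_ne_zero (hp.factorization_pos_of_dvd hd0 hpd).ne'
  obtain ⟨d', hd'⟩ : ∃ d', ordCompl[p] (d₁ * p) = d' := ⟨_, rfl⟩
  have hdj : d' * p ^ j = d₁ := by
    have h := Nat.ordProj_mul_ordCompl_eq_self (d₁ * p) p
    rw [hd', hj] at h
    refine Nat.eq_of_mul_eq_mul_right hp.pos (Eq.trans ?_ h)
    ring
  obtain ⟨E₁, E, _, _, _, _, _, _, _, _, _, _, _, _, _, _, _, t₁, t, e1, e2, γ, hγ, hrel⟩ :=
    hF K L G A Δ π S φ d₁ (d₁ * p) hs hd (dvd_mul_right _ _)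
  obtain ⟨φE, hφE⟩ := (hB E L (π.U (d₁ * p))).2.2.2.1 (above E S)
  obtain ⟨φ₁, hφ₁⟩ := (hB E₁ L (π.U d₁)).2.2.2.1 (above E₁ S)
  obtain ⟨l, hl, hl', -⟩ := (hC K).2.2.2.2.2 v₀
  have hlp : l ≠ p := fun h => hpv (h ▸ hl')
  obtain ⟨N, hN, H⟩ := lev hA hS hL hT hR E hs hφE hv hl hl'
  obtain ⟨_, -, H₁⟩ := lev hA hS hL hT hR E₁ hs hφ₁ hv hl hl'
  have hu₁ : Unr L (π.U d₁) (above E₁ S) :=
    ((hT K E₁ L G).2.2.1 (π.U d₁) (π.U d₁).subtype fun _ _ => rfl).2.2.1 S hs.unr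
  have dic := fun n : ℕ => (hD K E L G (π.U (d₁ * p)) (π.U (d₁ * p)).subtype S φE
    (fun _ _ => rfl) hs.unr hφE).1 (π.X ^ n) (γ ^ n) (hγ n)
  obtain ⟨a1, a2, a3⟩ := abv E₁ hv hl'
  obtain ⟨k, Z, hZ, hk⟩ := hS2 E₁ E p j (γ ^ d') (above E₁ S) (above E₁ {v₀}) l N
    (by rw [← pow_mul, hdj]; exact hrel p hp rfl) hl hlp hN a1 a2 a3
    (fun w => by rw [e1, mem_above, mem_above, (dic d').1])
    (fun w => by rw [e2, mem_above, mem_above, (dic d').1])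
  rw [e1] at hZ
  rw [e1, e2] at hk
  have hg : ∀ D : Pr E →₀ ℤ, ∃ x : A × ℤ, ((d₁ * p : ℕ) : ℤ) ∣ x.2 ∧ ∃ g : π.U (d₁ * p),
      (g : G) = π.ι x.1 * π.X ^ x.2 ∧
        ∀ χ : π.U (d₁ * p) →* ℂˣ, chv (fun w => (χ (φE w))⁻¹) D = χ g := fun D => by
    obtain ⟨g, hg⟩ := exists_g φE D
    obtain ⟨a, e, h1, h2⟩ := ((hR A Δ G π).2.1 _ g).1 g.2
    exact ⟨(a, e), h1, g, h2, hg⟩
  choose x x1 g x2 x3 using hg
  refine ⟨l ^ k, Nat.Coprime.pow_left k ((Nat.coprime_primes hl hp).2 hlp), Z.mapDomain x,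
    fun y hy => ?_, fun P hP => ?_⟩
  · obtain ⟨D, -, rfl⟩ := Finset.mem_image.1 (Finsupp.mapDomain_support hy)
    exact x1 D
  have h₁ : d₁ ∣ P.d := hP ▸ dvd_mul_right _ _
  obtain ⟨b1, f, b2, b3⟩ := H P hP
  obtain ⟨-, f₁, c2, c3⟩ := H₁ (P.down d₁ h₁) rfl
  rw [dif_pos (hP ▸ hpd), down_congr P (by rw [hP, Nat.mul_div_cancel _ hp.pos]) h₁, ← hθ _ _ b3,
    ← hθ _ _ c3, Nat.cast_pow, hk _ b1 f f₁ b2 (sm_congr a1 (fun v hv' =>
      tra hD hR hE hp.pos hu₁ hφ₁ (e1 ▸ hφE) P hP h₁ v hv') c2),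
    Finsupp.sum_mapDomain_index (fun _ => by rw [Int.cast_zero, zero_mul])
      (fun _ _ _ => by rw [Int.cast_add, add_mul]), hd', hj]
  refine Finsupp.sum_congr fun D hD' => ?_
  congr 1
  refine Finset.sum_congr rfl fun n _ => ?_
  obtain ⟨χ, hχ⟩ := chi π hR P hP (d' * n)
  rw [← psi_val π hR, ← x2, ← hχ, ← x3, ← pow_mul]
  congr 1
  refine chv_congr (hZ D hD') fun w hw => ?_
  obtain ⟨u, hu⟩ := (dic (d' * n)).2 w hw
  rw [hχ, psi_conj π hR P hP u _ _ hu]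
  rfl

end Pool.Agent.MP_f3cd89_nt

end

section

set_option autoImplicit false

open Finset NumberField IsDedekindDomain

namespace Pool.Agent.MP_f3cd89_nt

namespace ArithX

theorem loc_glob {M : Type} [AddCommGroup M] (N : AddSubgroup M) (x : M)
    (h : ∀ p : ℕ, p.Prime → ∃ u : ℕ, u.Coprime p ∧ u • x ∈ N) : x ∈ N := by
  have h1 : addOrderOf (QuotientAddGroup.mk' N x) = 1 := by
    by_contra hne
    obtain ⟨p, hp, hd⟩ := Nat.exists_prime_and_dvd hne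
    obtain ⟨u, hu, hx⟩ := h p hp
    have h2 : addOrderOf (QuotientAddGroup.mk' N x) ∣ u := by
      rw [addOrderOf_dvd_iff_nsmul_eq_zero, ← map_nsmul, QuotientAddGroup.mk'_apply,
        QuotientAddGroup.eq_zero_iff]
      exact hx
    exact hp.one_lt.ne' (Nat.Coprime.eq_one_of_dvd hu.symm (hd.trans h2))
  rwa [AddMonoid.addOrderOf_eq_one_iff, QuotientAddGroup.mk'_apply,
    QuotientAddGroup.eq_zero_iff] at h1

section Alg

variable {A : Type} [CommGroup A] {Δ : Dat A} {G : Type} [Group G]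

/-- families of matrices that come from the twisted group ring -/
def IsRho (F : (P : Pt Δ ℂ) → Matrix (ZMod P.d) (ZMod P.d) ℂ) : Prop :=
  ∃ y, ∀ P, rho P y = F P

theorem isRho_rep (π : Pres Δ G) (z : ℤ) (g : G) :
    IsRho fun P : Pt Δ ℂ => (z : ℂ) • rep π P g := by
  refine ⟨Finsupp.single (π.pe g) (MonoidAlgebra.single (π.pa g) z), fun P => ?_⟩
  ext i j
  beta_reduce
  rw [rep, Matrix.smul_apply, rho_single, rho_single, lam_single, lam_of]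
  split_ifs
  · rw [smul_eq_mul, mul_assoc]
  · rw [smul_zero]

theorem isRho_add {F F' : (P : Pt Δ ℂ) → Matrix (ZMod P.d) (ZMod P.d) ℂ} (h : IsRho F)
    (h' : IsRho F') : IsRho fun P => F P + F' P := by
  obtain ⟨y, hy⟩ := h
  obtain ⟨z, hz⟩ := h'
  exact ⟨y + z, fun P => (rhoG_add _ P y z).trans (congrArg₂ _ (hy P) (hz P))⟩

theorem isRho_sum (π : Pres Δ G) (z : ℕ → ℤ) (g : ℕ → G) (o : ℕ) :
    IsRho fun P : Pt Δ ℂ => ∑ i ∈ range o, (z i : ℂ) • rep π P (g i) := by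
  induction o with
  | zero => exact ⟨0, fun P => rhoG_zero _ P⟩
  | succ o ih =>
    simp only [sum_range_succ]
    exact isRho_add ih (isRho_rep π _ _)

theorem IsRho.det_mem (hR : RING_st) {F : (P : Pt Δ ℂ) → Matrix (ZMod P.d) (ZMod P.d) ℂ}
    (h : IsRho F) : (fun P => (F P).det) ∈ J Δ ℂ := by
  obtain ⟨y, hy⟩ := h
  simpa only [hy] using (hR A Δ ℂ).2.2.1 y

theorem del_mem (hR : RING_st) (hE : REP_st) (π : Pres Δ G) (q : ℕ) (g : G) :
    (fun P : Pt Δ ℂ => (1 - (q : ℂ) • rep π P g).det) ∈ J Δ ℂ := by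
  have h := (isRho_add (isRho_rep π 1 1) (isRho_rep π (-q) g)).det_mem hR
  have h1 : ∀ P : Pt Δ ℂ, rep π P 1 = 1 := fun P => ((hE A Δ G π).2.2.2.2 ℂ P).2.1
  simpa only [h1, Int.cast_one, one_smul, Int.cast_neg, Int.cast_natCast, neg_smul,
    ← sub_eq_add_neg] using h

theorem prod_mem (hR : RING_st) (hE : REP_st) (π : Pres Δ G) {ι : Type} (T : Finset ι) (q : ι → ℕ)
    (g : ι → G) : (fun P : Pt Δ ℂ => ∏ v ∈ T, (1 - (q v : ℂ) • rep π P (g v)).det) ∈ J Δ ℂ := by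
  classical
  induction T using Finset.induction_on with
  | empty => exact (hR A Δ ℂ).1
  | insert v T hv ih =>
    simp only [prod_insert hv]
    exact (hR A Δ ℂ).2.1 _ (del_mem hR hE π (q v) (g v)) _ ih

theorem geom (hR : RING_st) (hE : REP_st) (π : Pres Δ G) (q : ℕ) {g : G} {o : ℕ}
    (ho : g ^ o = 1) : ∃ f ∈ J Δ ℂ, ∀ P : Pt Δ ℂ,
      f P * (1 - (q : ℂ) • rep π P g).det = ((1 - (q ^ o : ℕ) : ℤ) : ℂ) ^ P.d := by
  refine ⟨_, (isRho_sum π (fun i => (q : ℤ) ^ i) (fun i => g ^ i) o).det_mem hR, fun P => ?_⟩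
  obtain ⟨-, h1, h2, -⟩ := (hE A Δ G π).2.2.2.2 ℂ P
  have h3 : ∀ i : ℕ, rep π P (g ^ i) = rep π P g ^ i := fun i => by
    induction i with
    | zero => rw [pow_zero, pow_zero, h1]
    | succ i ih => rw [pow_succ, pow_succ, h2, ih]
  have h4 : ∑ i ∈ range o, (((q : ℤ) ^ i : ℤ) : ℂ) • rep π P (g ^ i) =
      ∑ i ∈ range o, ((q : ℂ) • rep π P g) ^ i :=
    sum_congr rfl fun i _ => by rw [h3, smul_pow, Int.cast_pow, Int.cast_natCast]
  have h5 : (1 : Matrix (ZMod P.d) (ZMod P.d) ℂ) - ((q : ℂ) • rep π P g) ^ o =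
      ((1 - (q ^ o : ℕ) : ℤ) : ℂ) • 1 := by
    rw [smul_pow, ← h3, ho, h1]
    push_cast
    rw [sub_smul, one_smul]
  rw [← Matrix.det_mul, h4, geom_sum_mul_neg, h5, Matrix.det_smul, Matrix.det_one, mul_one,
    ZMod.card]

theorem mul_mem (hJB : JB_st) (hS : BRING_st) {f x y : Pt Δ ℂ → ℂ} {u : ℕ} (hf : f ∈ J Δ ℂ)
    (hx : u • x ∈ B Δ ℂ) (h : ∀ P, y P = f P * x P) : u • y ∈ B Δ ℂ := by
  have h1 := (hS A Δ ℂ).2.1 _ (hJB A Δ ℂ hf) _ hx
  rwa [mul_smul_comm, show f * x = y from funext fun P => (h P).symm] at h1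

end Alg

variable {K L G : Type} [Field K] [NumberField K] [Field L] [NumberField L]
  [Algebra K L] [Group G] [Finite G] [MulSemiringAction G L] [IsGaloisGroup G K L]
  {A : Type} [CommGroup A] {Δ : Dat A} {π : Pres Δ G} {S : Finset (Pr K)} {φ : Pr K → G}

theorem key (hB : LEVB_st) (hC : LEVC_st) (hV : LVAL_st) (hD : DWORK_st) (hJB : JB_st)
    (hR : RING_st) (hS : BRING_st) (h : Std K L π S φ) {θ : Pt Δ ℂ → ℂ}
    (hθ : ∀ P, IsLValue S φ (rep π P) (θ P)) {v₀ : Pr K} (hv : v₀ ∉ S) {p : ℕ} (hp : p.Prime)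
    (hpv : (p : 𝓞 K) ∉ v₀.asIdeal) : ∃ u : ℕ, u.Coprime p ∧
      u • (fun P : Pt Δ ℂ => (1 - (nrm v₀ : ℂ) • rep π P (φ v₀)⁻¹).det * θ P) ∈ B Δ ℂ := by
  obtain ⟨h1, h2⟩ := hB K L G A Δ π S φ v₀ h hv
  have h3 := hC K L G A Δ π S φ v₀ h hv
  obtain ⟨hu, hL⟩ := hV K G S φ
  choose f hf using h1
  have h4 : ∀ P f', SmG π S φ v₀ P f' → f' 0 = f P 0 := fun P f' hf' => by
    rw [(hL A Δ π v₀ P (f P) (hf P)).1 f' hf']
  obtain ⟨u, hu1, hu2⟩ := hD A Δ p (fun P => f P 0) hp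
    (fun P => (h4 _ _ (hL A Δ π v₀ P (f P) (hf P)).2.1).symm) fun d hd => by
      by_cases hpd : p ∣ d
      · exact h3 _ p d h4 hp hpv hd hpd
      · exact h2 _ p d h4 hp hpv hd hpd
  refine ⟨u, hu1, mul_mem hJB hS ((hR A Δ ℂ).2.2.2.2.2 (π.pe (φ v₀))) hu2 fun P => ?_⟩
  obtain ⟨c, hc, hc'⟩ := (hL A Δ π v₀ P (f P) (hf P)).2.2
  rw [hc', hu _ _ _ _ hc (hθ P), ← mul_assoc, ← mul_assoc, ← mul_pow]
  norm_num

theorem good (hP : PRIME_st) (hF : FB_st) (h : Std K L π S φ) {p : ℕ} (hp : p.Prime)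
    (hx : ∀ x : L, x ^ p = 1 → x = 1) : ∃ v₀ : Pr K, v₀ ∉ S ∧ (p : 𝓞 K) ∉ v₀.asIdeal ∧
      ¬(p : ℤ) ∣ 1 - (nrm v₀ ^ orderOf (φ v₀) : ℕ) := by
  obtain ⟨w, h1, h2, h3⟩ := hP L p (above L S) hp hx
  rw [mem_above] at h1
  obtain ⟨-, f2, -, -, -, -, -, f8⟩ := hF K L G
  refine ⟨w.under (𝓞 K), h1, fun hm => h2 ?_, fun hd => h3 ?_⟩
  · have : algebraMap (𝓞 K) (𝓞 L) p ∈ w.asIdeal := hm
    rwa [map_natCast] at this
  · obtain ⟨w', hw, hw'⟩ := h.frob _ h1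
    obtain ⟨g, hg⟩ := f2 w' w hw
    have h4 := (f8 w' _ (h.unr w' (hw ▸ h1)) hw').2.2
    rw [hw, ← nrm_gact g w', hg] at h4
    rw [h4, Nat.modEq_iff_dvd, Nat.cast_one]
    exact hd

end ArithX

open ArithX

theorem arith (hB : LEVB_st) (hC : LEVC_st) (hV : LVAL_st) (hD : DWORK_st) (hI : INVD_st)
    (hJ : BJ_st) (hJB : JB_st) (hR : RING_st) (hS : BRING_st) (hP : PRIME_st) (hF : FB_st)
    (hN : NTC_st) (hE : REP_st) : ARITH_st := by
  intro K L G _ _ _ _ _ _ _ _ _ A _ _ Δ π S φ h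
  classical
  obtain ⟨v₁, hv₁⟩ := (hN K).2.2.2.2.1 S
  have h1 : ∀ P : Pt Δ ℂ, ∃ c, IsLValue S φ (rep π P) c := fun P => by
    obtain ⟨f, hf⟩ := (hB K L G A Δ π S φ v₁ h hv₁).1 P
    exact ((hV K G S φ).2 A Δ π v₁ P f hf).2.2.imp fun _ hc => hc.1
  choose θ hθ using h1
  refine ⟨θ, hθ, fun T hT hTp => hJ A Δ (loc_glob _ _ fun p hp => ?_)⟩
  by_cases hc : ∀ v ∈ T, (p : 𝓞 K) ∈ v.asIdeal
  · obtain ⟨v₀, hv, hpv, hn⟩ := good hP hF h hp (hTp p hp hc)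
    obtain ⟨u, hu, hu'⟩ := key hB hC hV hD hJB hR hS h hθ hv hp hpv
    obtain ⟨f, hf, hf'⟩ := geom hR hE π (nrm v₀) (g := (φ v₀)⁻¹) (o := orderOf (φ v₀))
      (by rw [inv_pow, pow_orderOf_eq_one, inv_one])
    obtain ⟨u', hu₁, hu₂⟩ := hI A Δ p θ _ u hp hn hu
      (mul_mem hJB hS hf hu' fun P => by rw [← hf', mul_assoc])
    exact ⟨u', hu₁, mul_mem hJB hS (prod_mem hR hE π T (fun v => nrm v) fun v => (φ v)⁻¹) hu₂
      fun _ => rfl⟩
  · push Not at hc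
    obtain ⟨v₀, hv, hpv⟩ := hc
    obtain ⟨u, hu, hu'⟩ := key hB hC hV hD hJB hR hS h hθ (disjoint_right.1 hT hv) hp hpv
    exact ⟨u, hu, mul_mem hJB hS
      (prod_mem hR hE π (T.erase v₀) (fun v => nrm v) fun v => (φ v)⁻¹) hu'
      fun P => by rw [← prod_erase_mul T _ hv, mul_assoc]⟩

end Pool.Agent.MP_f3cd89_nt

end

section

/-! The final assembly. -/

set_option autoImplicit false

open Finset NumberField IsDedekindDomain

namespace Pool.Agent.MP_f3cd89_nt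

namespace FinalX

theorem exists_cc (K L : Type) [Field K] [NumberField K] [Field L] [NumberField L]
    [Algebra K L] [IsTotallyReal K] [IsCMField L] :
    ∃ j : L ≃ₐ[K] L, IsCC L j ∧ ∀ g, j * g = g * j := by
  obtain ⟨ε⟩ : Nonempty (L →+* ℂ) := inferInstance
  have h : ∀ x : K, (IsCMField.complexConj L).toRingEquiv (algebraMap K L x) = algebraMap K L x :=
    fun x => ε.injective ((IsCMField.complexEmbedding_complexConj L ε _).trans
      (DFunLike.congr_fun (IsTotallyReal.complexEmbedding_isReal (ε.comp (algebraMap K L))) x))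
  have h1 : IsCC L (AlgEquiv.ofRingEquiv h) := fun ε x =>
    IsCMField.complexEmbedding_complexConj L ε x
  refine ⟨_, h1, fun g => AlgEquiv.ext fun x => ε.injective ?_⟩
  exact (h1 ε (g x)).trans (h1 (ε.comp g.toRingEquiv.toRingHom) x).symm

theorem root {K L : Type} [Field K] [NumberField K] [Field L] [NumberField L] [Algebra K L]
    {S T : Finset (Pr K)} (h : Hyp L S T) (p : ℕ) (hp : p.Prime)
    (hT : ∀ v ∈ T, (p : 𝓞 K) ∈ v.asIdeal) (x : L) (hx : x ^ p = 1) : x = 1 := by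
  have x0 : x ≠ 0 := by
    rintro rfl
    rw [zero_pow hp.ne_zero] at hx
    exact zero_ne_one hx
  have h0 : ∀ w : Pr L, ord w x = 0 := fun w => by
    have := ord_pow w x p
    rw [hx, ord_one] at this
    exact (mul_eq_zero.1 this.symm).resolve_left (by exact_mod_cast hp.ne_zero)
  obtain ⟨a, rfl⟩ := exists_int fun w => (h0 w).ge
  have ha : a ^ p = 1 := RingOfIntegers.coe_injective (by rw [map_pow, map_one]; exact hx)
  refine congrArg Units.val (h.2 (Units.mk0 _ x0)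
    ⟨fun w _ => (val_eq_one_iff w x0).2 (h0 w), fun w hw => ?_⟩
    (isOfFinOrder_iff_pow_eq_one.2 ⟨p, hp.pos, Units.ext hx⟩))
  have h1 : (p : 𝓞 L) ∈ w.asIdeal := by
    have := hT _ hw
    change algebraMap (𝓞 K) (𝓞 L) p ∈ w.asIdeal at this
    rwa [map_natCast] at this
  obtain ⟨r, hr⟩ := exists_add_pow_prime_eq hp (a - 1) 1
  rw [sub_add_cancel, ha, one_pow] at hr
  have h2 : (a - 1) ^ p ∈ w.asIdeal := by
    rw [show (a - 1) ^ p = -(p * ((a - 1) * 1 * r)) by linear_combination -hr]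
    exact neg_mem (w.asIdeal.mul_mem_right _ h1)
  have h3 : w.valuation L (algebraMap (𝓞 L) L (a - 1)) < 1 :=
    (w.valuation_lt_one_iff_mem (K := L) (a - 1)).2 (w.isPrime.mem_of_pow_mem p h2)
  rwa [map_sub, map_one] at h3

section Mat

variable {m n : Type} [Fintype m] [DecidableEq m] [Fintype n] [DecidableEq n]
  {Q : Matrix m n ℂ} {Q' : Matrix n m ℂ}

theorem det_sub (h : Q * Q' = 1) (h' : Q' * Q = 1) (R : Matrix n n ℂ) (x : ℂ) :
    (1 - x • (Q * R * Q')).det = (1 - x • R).det := by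
  rw [← Matrix.det_conj_of_mul_eq_one h h', Matrix.mul_sub, Matrix.sub_mul, Matrix.mul_one, h,
    Matrix.mul_smul, Matrix.smul_mul]

theorem det_tr (R : Matrix n n ℂ) (x : ℂ) : (1 - x • R.transpose).det = (1 - x • R).det := by
  rw [← Matrix.det_transpose (1 - x • R), Matrix.transpose_sub, Matrix.transpose_one,
    Matrix.transpose_smul]

open Kronecker in
theorem det_block (h : Q * Q' = 1) (h' : Q' * Q = 1) {k : ℕ} (M : Fin k → Fin k → Matrix n n ℂ) :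
    (Matrix.of fun x y : Fin k × m => (Q * M x.1 y.1 * Q') x.2 y.2).det =
      (Matrix.of fun x y : Fin k × n => M x.1 y.1 x.2 y.2).det := by
  have e : (1 : Matrix (Fin k) (Fin k) ℂ) ⊗ₖ Q * (1 : Matrix (Fin k) (Fin k) ℂ) ⊗ₖ Q' = 1 := by
    rw [← Matrix.mul_kronecker_mul, h, Matrix.mul_one, Matrix.one_kronecker_one]
  have e' : (1 : Matrix (Fin k) (Fin k) ℂ) ⊗ₖ Q' * (1 : Matrix (Fin k) (Fin k) ℂ) ⊗ₖ Q = 1 := by
    rw [← Matrix.mul_kronecker_mul, h', Matrix.mul_one, Matrix.one_kronecker_one]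
  rw [← Matrix.det_conj_of_mul_eq_one e e']
  congr 1
  ext ⟨i, a⟩ ⟨j, b⟩
  simp [Matrix.mul_apply, Fintype.sum_prod_type, Matrix.one_apply]

theorem lval {K G : Type} [Field K] [NumberField K] [Group G] (h : Q * Q' = 1) (h' : Q' * Q = 1)
    {S : Finset (Pr K)} {φ : Pr K → G} {ρ : G → Matrix m m ℂ} {ρ' : G → Matrix n n ℂ}
    (e : ∀ g, ρ g = Q * ρ' g * Q') {c : ℂ} (hc : IsLValue S φ ρ' c) : IsLValue S φ ρ c := by
  obtain ⟨f, h1, h2, h3, h4⟩ := hc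
  refine ⟨f, h1, h2, h3, fun s hs => ?_⟩
  have h5 := h4 s hs
  simp only [det_tr] at h5 ⊢
  simp only [e, det_sub h h']
  exact h5

end Mat

variable {G : Type} [Group G]

theorem nr_one (z : MonoidAlgebra ℤ G) (r : Irr G) :
    nr (Matrix.of fun _ _ : Fin 1 => z) r = (r.lin z).det :=
  Matrix.det_submatrix_equiv_self (Equiv.uniqueProd (Fin r.n) (Fin 1)) (r.lin z)

theorem lin_sub (r : Irr G) (g : G) (N : ℕ) :
    r.lin (1 - MonoidAlgebra.single g (N : ℤ)) = 1 - (N : ℂ) • r.ρ g := by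
  rw [Irr.lin, map_sub, map_one, MonoidAlgebra.lift_single, natCast_zsmul, Nat.cast_smul_eq_nsmul]

theorem lin_eq (r : Irr G) {n : Type} [Fintype n] {Q : Matrix (Fin r.n) n ℂ}
    {Q' : Matrix n (Fin r.n) ℂ} {ρ : G → Matrix n n ℂ} (e : ∀ g, r.ρ g = Q * ρ g * Q')
    (z : MonoidAlgebra ℤ G) : r.lin z = Q * (z.coeff.sum fun g c => c • ρ g) * Q' := by
  rw [Irr.lin, MonoidAlgebra.lift_apply, Finsupp.sum, Finsupp.sum, Matrix.mul_sum, Matrix.sum_mul]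
  refine sum_congr rfl fun g _ => ?_
  rw [e, Matrix.mul_smul, Matrix.smul_mul]

theorem cen_mul {z : MonoidAlgebra ℤ G} (hz : z ∈ Subring.center (MonoidAlgebra ℤ G))
    {A : Type} [CommGroup A] {Δ : Dat A} (π : Pres Δ G) (P : Irr G → Pt Δ ℂ)
    (hP : ∀ (k : ℕ) (H : Matrix (Fin k) (Fin k) (ℤ →₀ MonoidAlgebra ℤ A)) (r : Irr G),
      nr (H.map (toG π)) r = Dt H (P r)) {f : Pt Δ ℂ → ℂ} (hf : f ∈ J Δ ℂ) :
    (cen z * fun r => f (P r)) ∈ intRing G := by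
  induction hf using AddSubgroup.closure_induction with
  | mem f hf =>
    obtain ⟨k, H, rfl⟩ := hf
    rcases Nat.eq_zero_or_pos k with rfl | hk
    · refine AddSubgroup.subset_closure ⟨z, hz, _, ⟨1, le_rfl, Matrix.of fun _ _ => 1, rfl⟩, ?_⟩
      congr 1
      funext r
      rw [nr_one, Irr.lin, map_one, Matrix.det_one, Dt, Matrix.det_isEmpty]
    · refine AddSubgroup.subset_closure ⟨z, hz, _, ⟨k, hk, H.map (toG π), rfl⟩, ?_⟩
      congr 1
      funext r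
      exact (hP k H r).symm
  | zero => exact (mul_zero (cen z)).symm ▸ zero_mem _
  | add f g _ _ hf hg => exact (mul_add (cen z) _ _).symm ▸ add_mem hf hg
  | neg f _ hf => exact (mul_neg (cen z) _).symm ▸ neg_mem hf

end FinalX

open FinalX

theorem final (hP : PRES_st) (hC : CLIFF_st) (hR : REP_st) (hA : ARITH_st) (hV : LVAL_st)
    (hF : FB_st) : FINAL_st := by
  intro K L _ _ _ _ _ _ _ _ A _ hab hcyc S hS φ hφ
  obtain ⟨j, hj, hjc⟩ := exists_cc K L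
  obtain ⟨A', _, _, Δ, π, hjπ⟩ := hP _ A j hab hcyc hjc
  obtain ⟨θ, hθ, hJ⟩ := hA K L _ A' Δ π S φ ⟨⟨j, hjπ, hj⟩,
    fun w hw => (hF K L _).2.2.2.2.2.2.1 w (hS w hw), hφ⟩
  choose P Q Q' h1 h2 h3 using hC A' Δ _ π
  have hl : ∀ r, IsLValue S φ r.ρ (θ (P r)) := fun r => lval (h1 r) (h2 r) (h3 r) (hθ (P r))
  refine ⟨fun r => θ (P r), fun r c => ⟨fun h => (hV K _ S φ).1 _ _ _ _ h (hl r), fun h => h ▸ hl r⟩,
    fun x hx => ?_⟩
  have hN : ∀ (k : ℕ) (H : Matrix (Fin k) (Fin k) (ℤ →₀ MonoidAlgebra ℤ A')) (r : Irr (L ≃ₐ[K] L)),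
      nr (H.map (toG π)) r = Dt H (P r) := fun k H r => by
    obtain ⟨-, -, -, -, h5, -⟩ := (hR A' Δ _ π).2.2.2.2 ℂ (P r)
    simp only [nr, Matrix.map_apply, lin_eq r (h3 r), ← h5]
    exact det_block (h1 r) (h2 r) fun a b => rho (P r) (H a b)
  induction hx using AddSubgroup.closure_induction with
  | mem x hx =>
    obtain ⟨z, hz, _, ⟨T, hT, rfl⟩, rfl⟩ := hx
    have h4 := cen_mul hz π P hN (hJ T hT.1 (root hT))
    rw [mul_assoc]
    refine (congrArg (· ∈ intRing _) (congrArg _ (funext fun r => ?_))).mpr h4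
    simp only [Pi.mul_apply, delta, prod_apply, nr_one, lin_sub, h3, det_sub (h1 r) (h2 r)]
  | zero => rw [zero_mul]; exact zero_mem _
  | add f g _ _ hf hg => rw [add_mul]; exact add_mem hf hg
  | neg f _ hf => rw [neg_mul]; exact neg_mem hf

end Pool.Agent.MP_f3cd89_nt

end
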