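import Mathlib
import Pool.Agent.MP_f3cd89_nt.SStm
import Pool.Agent.MP_f3cd89_nt.CStm
import Pool.Agent.MP_d64882_nt.Zeta
import Pool.Agent.MP_f3cd89_nt.Dens
import Pool.Agent.MP_f3cd89_nt.Vlat
import Pool.Agent.MP_f3cd89_nt.Unith
import Pool.Agent.MP_f3cd89_nt.Ntb
import Pool.Agent.MP_f3cd89_nt.UnithA
import Pool.Agent.MP_f3cd89_nt.Fb
import Pool.Agent.MP_f3cd89_nt.VlatA

section

/-! Feasible vectors, faces and the theorem of the alternative. -/

set_option autoImplicit false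

open Finset Filter Topology

namespace Pool.Agent.MP_f3cd89_nt.GeoX

/-- The theorem of the alternative of Stiemke. -/
theorem stiemke {ι κ : Type} [Fintype ι] [Fintype κ] (w : κ → ι → ℝ) (x : ι → ℝ) :
    (∃ r : κ → ℝ, (∀ k, 0 < r k) ∧ ∃ c : ℝ, ∑ k, r k • w k = c • x) ∨
      ∃ z : ι → ℝ, (∀ k, 0 ≤ z ⬝ᵥ w k) ∧ (∃ k, 0 < z ⬝ᵥ w k) ∧ z ⬝ᵥ x = 0 := by
  classical
  refine or_iff_not_imp_left.2 fun h => ?_
  let A : (κ → ℝ) →ₗ[ℝ] (ι → ℝ) := Fintype.linearCombination ℝ w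
  let W : Submodule ℝ (κ → ℝ) := (Submodule.span ℝ {x}).comap A
  obtain ⟨f, u, h1, h2⟩ := geometric_hahn_banach_open
    (s := Set.pi Set.univ fun _ : κ => Set.Ioi (0 : ℝ)) (t := (W : Set (κ → ℝ)))
    (convex_pi fun _ _ => convex_Ioi 0) (isOpen_set_pi Set.finite_univ fun _ _ => isOpen_Ioi)
    W.convex (Set.disjoint_left.2 fun r hr hw => by
      obtain ⟨c, hc⟩ := Submodule.mem_span_singleton.1 (Submodule.mem_comap.1 hw)
      exact h ⟨r, fun k => hr k trivial, c, hc.symm⟩)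
  have hu : u ≤ 0 := by simpa using h2 0 W.zero_mem
  have h3 : ∀ r ∈ W, f r = 0 := fun r hr => by
    by_contra h0
    have := h2 _ (W.smul_mem ((u - 1) / f r) hr)
    rw [map_smul, smul_eq_mul, div_mul_cancel₀ _ h0] at this
    linarith
  let A' : ((κ → ℝ) × ℝ) →ₗ[ℝ] (ι → ℝ) := A.coprod (LinearMap.toSpanSingleton ℝ _ x)
  have h4 : -(f.toLinearMap ∘ₗ LinearMap.fst ℝ (κ → ℝ) ℝ) ∈ (LinearMap.ker A').dualAnnihilator := by
    rw [Submodule.mem_dualAnnihilator]
    rintro ⟨r, c⟩ hr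
    have e : A r + c • x = 0 := hr
    have : f r = 0 := h3 r (Submodule.mem_span_singleton.2 ⟨-c, by
      rw [neg_smul]
      exact (eq_neg_of_add_eq_zero_left e).symm⟩)
    simpa using this
  rw [← LinearMap.range_dualMap_eq_dualAnnihilator_ker] at h4
  obtain ⟨φ, hφ⟩ := h4
  have h5 : ∀ r c, φ (A r + c • x) = -f r := fun r c => LinearMap.congr_fun hφ (r, c)
  have h6 : ∀ a, (fun i => φ fun j => if i = j then 1 else 0) ⬝ᵥ a = φ a := fun a => by
    rw [LinearMap.pi_apply_eq_sum_univ φ a]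
    exact sum_congr rfl fun i _ => mul_comm _ _
  have h7 : ∀ k, φ (w k) = -f (Pi.single k 1) := fun k => by
    rw [← h5 _ 0, zero_smul, add_zero]
    simp [A]
  have h8 : f 1 < 0 := (h1 1 fun _ _ => (one_pos : (0 : ℝ) < 1)).trans_le hu
  refine ⟨fun i => φ fun j => if i = j then 1 else 0, fun k => ?_, ?_, ?_⟩
  · rw [h6, h7, neg_nonneg]
    by_contra h0
    rw [not_le] at h0
    have h9 : 0 ≤ -f 1 / f (Pi.single k 1) := div_nonneg (by linarith) h0.le
    have := (h1 ((-f 1 / f (Pi.single k 1)) • Pi.single k (1 : ℝ) + 1) fun j _ => by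
      have : 0 ≤ (Pi.single k (1 : ℝ) : κ → ℝ) j := by
        rw [Pi.single_apply]
        split_ifs <;> norm_num
      change 0 < _ * _ + (1 : ℝ)
      positivity).trans_le hu
    rw [map_add, map_smul, smul_eq_mul, div_mul_cancel₀ _ h0.ne'] at this
    linarith
  · by_contra h0
    have h9 : ∀ k, 0 ≤ f (Pi.single k 1) := fun k => by
      have := not_lt.1 fun h' => h0 ⟨k, h'⟩
      rw [h6, h7] at this
      linarith
    have : (1 : κ → ℝ) = ∑ k, Pi.single k 1 := (univ_sum_single _).symm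
    rw [this, map_sum] at h8
    exact absurd (sum_nonneg fun k _ => h9 k) (not_le.2 h8)
  · have := h5 0 1
    rwa [map_zero, map_zero, zero_add, one_smul, neg_zero, ← h6] at this

variable {ι V : Type} [Fintype ι] (e : V → ι → ℝ) (P : Set V)

/-- feasible vectors -/
def Feas (y : ι → ℝ) : Prop := ∀ v ∈ P, 1 ≤ y ⬝ᵥ e v

/-- the face cut out by `y` -/
def IsF (y : ι → ℝ) (F : Finset V) : Prop := ∀ v, v ∈ F ↔ v ∈ P ∧ y ⬝ᵥ e v = 1

/-- the standing hypotheses -/
structure Hyp : Prop where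
  pos : ∀ v ∈ P, ∀ i, 0 < e v i
  fin : ∀ C : ℝ, {v ∈ P | ∀ i, e v i ≤ C}.Finite
  cusp : ∀ i, ∀ δ : ℝ, 0 < δ → ∃ v ∈ P, ∀ j, j ≠ i → e v j < δ

variable {e P}

theorem Hyp.feas_pos (H : Hyp e P) {y : ι → ℝ} (hy : Feas e P y) (i : ι) : 0 < y i := by
  by_contra h0
  rw [not_lt] at h0
  have h1 : 0 ≤ ∑ j, |y j| := sum_nonneg fun j _ => abs_nonneg _
  have hδ : 0 < (∑ j, |y j| + 1)⁻¹ := by positivity
  obtain ⟨v, hv, h2⟩ := H.cusp i _ hδ
  have h3 : y ⬝ᵥ e v ≤ ∑ j, |y j| * (∑ j, |y j| + 1)⁻¹ := sum_le_sum fun j _ => by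
    by_cases hj : j = i
    · subst hj
      exact (mul_nonpos_of_nonpos_of_nonneg h0 (H.pos v hv j).le).trans (by positivity)
    · exact mul_le_mul (le_abs_self _) (h2 j hj).le (H.pos v hv j).le (abs_nonneg _)
  rw [← sum_mul, ← div_eq_mul_inv] at h3
  have h4 := (hy v hv).trans h3
  rw [le_div_iff₀ (by positivity)] at h4
  linarith

theorem Hyp.fin_le (H : Hyp e P) {y : ι → ℝ} (hy : Feas e P y) :
    {v ∈ P | y ⬝ᵥ e v ≤ 2}.Finite := by
  refine (H.fin (∑ j, 2 / y j)).subset fun v hv => ⟨hv.1, fun i => ?_⟩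
  have h1 : y i * e v i ≤ y ⬝ᵥ e v := single_le_sum (f := fun j => y j * e v j)
    (fun j _ => (mul_pos (H.feas_pos hy j) (H.pos v hv.1 j)).le) (mem_univ i)
  refine le_trans ?_ (single_le_sum (f := fun j => 2 / y j)
    (fun j _ => (div_pos two_pos (H.feas_pos hy j)).le) (mem_univ i))
  rw [le_div_iff₀' (H.feas_pos hy i)]
  exact h1.trans hv.2

theorem Hyp.exists_isF (H : Hyp e P) {y : ι → ℝ} (hy : Feas e P y) : ∃ F, IsF e P y F :=
  ⟨((H.fin_le hy).subset (t := {v ∈ P | y ⬝ᵥ e v = 1}) fun _ hv =>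
    ⟨hv.1, hv.2.le.trans one_le_two⟩).toFinset, fun _ => Set.Finite.mem_toFinset _⟩

/-- Perturbation of a feasible vector. -/
theorem Hyp.pert (H : Hyp e P) {y z : ι → ℝ} (hy : Feas e P y)
    (hz : ∀ v ∈ P, y ⬝ᵥ e v = 1 → 0 ≤ z ⬝ᵥ e v) : ∃ ε : ℝ, 0 < ε ∧ Feas e P (y + ε • z) ∧
      ∀ v ∈ P, (y + ε • z) ⬝ᵥ e v = 1 → y ⬝ᵥ e v = 1 ∧ z ⬝ᵥ e v = 0 := by
  have key : ∀ a b c : ℝ, c < a → ∀ᶠ ε in 𝓝[>] (0 : ℝ), c < a + ε * b := fun a b c h => by
    have : Tendsto (fun ε : ℝ => a + ε * b) (𝓝 0) (𝓝 (a + 0 * b)) :=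
      (continuous_const.add (continuous_id.mul continuous_const)).tendsto 0
    rw [zero_mul, add_zero] at this
    exact (this.eventually_const_lt h).filter_mono nhdsWithin_le_nhds
  have h1 : ∀ᶠ ε in 𝓝[>] (0 : ℝ), ∀ i, y i / 2 < y i + ε * z i :=
    eventually_all.2 fun i => key _ _ _ (half_lt_self (H.feas_pos hy i))
  have h2 : ∀ᶠ ε in 𝓝[>] (0 : ℝ), ∀ v ∈ {v ∈ P | y ⬝ᵥ e v ≤ 2},
      1 < y ⬝ᵥ e v → 1 < y ⬝ᵥ e v + ε * z ⬝ᵥ e v :=
    (eventually_all_finite (H.fin_le hy)).2 fun v _ => by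
      by_cases h : 1 < y ⬝ᵥ e v
      · exact (key _ _ _ h).mono fun _ h' _ => h'
      · exact .of_forall fun _ h' => absurd h' h
  obtain ⟨ε, ⟨h3, h4⟩, h5⟩ := ((h1.and h2).and self_mem_nhdsWithin).exists
  have hε : 0 < ε := h5
  have h6 : ∀ v ∈ P, 1 < y ⬝ᵥ e v → 1 < (y + ε • z) ⬝ᵥ e v := fun v hv h => by
    by_cases h7 : y ⬝ᵥ e v ≤ 2
    · rw [add_dotProduct, smul_dotProduct, smul_eq_mul]
      exact h4 v ⟨hv, h7⟩ h
    · have h8 : ∑ i, y i / 2 * e v i ≤ (y + ε • z) ⬝ᵥ e v :=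
        sum_le_sum fun i _ => mul_le_mul_of_nonneg_right (h3 i).le (H.pos v hv i).le
      have h9 : ∑ i, y i / 2 * e v i = y ⬝ᵥ e v / 2 := by
        rw [dotProduct, sum_div]
        exact sum_congr rfl fun i _ => by ring
      rw [h9] at h8
      linarith
  refine ⟨ε, hε, fun v hv => ?_, fun v hv h => ?_⟩
  · rcases (hy v hv).eq_or_lt with h | h
    · rw [add_dotProduct, smul_dotProduct, smul_eq_mul, ← h]
      exact le_add_of_nonneg_right (mul_nonneg hε.le (hz v hv h.symm))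
    · exact (h6 v hv h).le
  · rcases (hy v hv).eq_or_lt with h' | h'
    · rw [add_dotProduct, smul_dotProduct, smul_eq_mul, ← h', add_eq_left] at h
      exact ⟨h'.symm, (mul_eq_zero.1 h).resolve_left hε.ne'⟩
    · exact absurd h (h6 v hv h').ne'

theorem Hyp.exists_feas [Nonempty ι] (H : Hyp e P) : ∃ y, Feas e P y := by
  obtain ⟨M, hM⟩ := ((H.fin 1).image fun v => (∑ i, e v i)⁻¹).bddAbove
  refine ⟨fun _ => max M 1, fun v hv => ?_⟩
  have h0 : 0 < ∑ i, e v i := sum_pos (fun i _ => H.pos v hv i) univ_nonempty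
  rw [dotProduct, ← mul_sum]
  by_cases h : ∀ i, e v i ≤ 1
  · have h1 : (∑ i, e v i)⁻¹ ≤ max M 1 := (hM ⟨v, ⟨hv, h⟩, rfl⟩).trans (le_max_left _ _)
    rwa [inv_le_iff_one_le_mul₀ h0] at h1
  · obtain ⟨i, hi⟩ := not_forall.1 h
    exact one_le_mul_of_one_le_of_one_le (le_max_right _ _) ((not_le.1 hi).le.trans
      (single_le_sum (fun j _ => (H.pos v hv j).le) (mem_univ i)))

theorem Hyp.exists_min [Nonempty ι] (H : Hyp e P) {x : ι → ℝ} (hx : ∀ i, 0 < x i) :
    ∃ y, Feas e P y ∧ ∀ y', Feas e P y' → y ⬝ᵥ x ≤ y' ⬝ᵥ x := by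
  obtain ⟨y₀, h₀⟩ := H.exists_feas
  have hle : ∀ y, Feas e P y → ∀ i, y i * x i ≤ y ⬝ᵥ x := fun y hy i =>
    single_le_sum (f := fun j => y j * x j)
      (fun j _ => (mul_pos (H.feas_pos hy j) (hx j)).le) (mem_univ i)
  have hc : ∀ a : ι → ℝ, Continuous fun y : ι → ℝ => y ⬝ᵥ a := fun a =>
    continuous_id.dotProduct continuous_const
  have hcl : IsClosed {y | Feas e P y} := by
    have : {y | Feas e P y} = ⋂ v ∈ P, {y | 1 ≤ y ⬝ᵥ e v} := by
      ext y
      simp [Feas]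
    rw [this]
    exact isClosed_biInter fun v _ => isClosed_le continuous_const (hc _)
  have hmem : y₀ ∈ {y | Feas e P y} ∩ Set.Icc 0 fun i => y₀ ⬝ᵥ x / x i :=
    ⟨h₀, fun i => (H.feas_pos h₀ i).le, fun i => (le_div_iff₀ (hx i)).2 (hle y₀ h₀ i)⟩
  obtain ⟨y, hy, hmin⟩ := (isCompact_Icc.inter_left hcl).exists_isMinOn ⟨y₀, hmem⟩
    (hc x).continuousOn
  refine ⟨y, hy.1, fun y' hy' => ?_⟩
  by_cases h : ∀ i, y' i ≤ y₀ ⬝ᵥ x / x i
  · exact hmin ⟨hy', fun i => (H.feas_pos hy' i).le, h⟩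
  · obtain ⟨i, hi⟩ := not_forall.1 h
    rw [not_le, div_lt_iff₀ (hx i)] at hi
    exact (hmin hmem).trans (hi.le.trans (hle y' hy' i))

end Pool.Agent.MP_f3cd89_nt.GeoX

end

section

/-! Cones over faces and their relative interiors. -/

set_option autoImplicit false

open Finset

namespace Pool.Agent.MP_f3cd89_nt.GeoX

variable {ι V : Type} (e : V → ι → ℝ)

/-- the cone over `F` -/
def Cone (F : Finset V) (x : ι → ℝ) : Prop :=
  ∃ r : V → ℝ, (∀ v ∈ F, 0 ≤ r v) ∧ x = ∑ v ∈ F, r v • e v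

/-- the relative interior of the cone over `F` -/
def RI (F : Finset V) (x : ι → ℝ) : Prop :=
  ∃ r : V → ℝ, (∀ v ∈ F, 0 < r v) ∧ x = ∑ v ∈ F, r v • e v

variable {e} {F G : Finset V} {x x' : ι → ℝ}

theorem RI.cone (h : RI e F x) : Cone e F x :=
  let ⟨r, h1, h2⟩ := h
  ⟨r, fun v hv => (h1 v hv).le, h2⟩

theorem cone_zero (F : Finset V) : Cone e F 0 := ⟨0, fun _ _ => le_rfl, by simp⟩

theorem Cone.add (h : Cone e F x) (h' : Cone e F x') : Cone e F (x + x') := by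
  obtain ⟨r, h1, rfl⟩ := h
  obtain ⟨r', h2, rfl⟩ := h'
  exact ⟨r + r', fun v hv => add_nonneg (h1 v hv) (h2 v hv), by
    simp only [Pi.add_apply, add_smul, sum_add_distrib]⟩

theorem RI.add (h : RI e F x) (h' : Cone e F x') : RI e F (x + x') := by
  obtain ⟨r, h1, rfl⟩ := h
  obtain ⟨r', h2, rfl⟩ := h'
  exact ⟨r + r', fun v hv => add_pos_of_pos_of_nonneg (h1 v hv) (h2 v hv), by
    simp only [Pi.add_apply, add_smul, sum_add_distrib]⟩

theorem RI.smul (h : RI e F x) {c : ℝ} (hc : 0 < c) : RI e F (c • x) := by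
  obtain ⟨r, h1, rfl⟩ := h
  exact ⟨c • r, fun v hv => mul_pos hc (h1 v hv), by
    simp only [Pi.smul_apply, smul_eq_mul, mul_smul, smul_sum]⟩

theorem Cone.mono (h : Cone e G x) (hGF : G ⊆ F) : Cone e F x := by
  classical
  obtain ⟨r, h1, rfl⟩ := h
  refine ⟨fun v => if v ∈ G then r v else 0, fun v _ => ?_, ?_⟩
  · dsimp only
    split_ifs with h
    exacts [h1 v h, le_rfl]
  · rw [← sum_subset hGF fun v _ hv => by simp only [if_neg hv, zero_smul]]
    exact sum_congr rfl fun v hv => by simp only [if_pos hv]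

/-- a little of any vector of the cone can be removed from an interior point -/
theorem RI.sub (h : RI e F x) (h' : Cone e F x') : ∃ ε : ℝ, 0 < ε ∧ Cone e F (x - ε • x') := by
  obtain ⟨r, h1, rfl⟩ := h
  obtain ⟨r', h2, rfl⟩ := h'
  have h3 : ∀ᶠ ε in nhdsWithin (0 : ℝ) (Set.Ioi 0), ∀ v ∈ F, ε * r' v < r v :=
    (Filter.eventually_all_finset F).2 fun v hv => by
      have : Filter.Tendsto (fun ε : ℝ => ε * r' v) (nhds 0) (nhds (0 * r' v)) :=
        (continuous_id.mul continuous_const).tendsto 0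
      rw [zero_mul] at this
      exact (this.eventually_lt_const (h1 v hv)).filter_mono nhdsWithin_le_nhds
  obtain ⟨ε, h4, h5⟩ := (h3.and self_mem_nhdsWithin).exists
  exact ⟨ε, h5, fun v => r v - ε * r' v, fun v hv => sub_nonneg.2 (h4 v hv).le, by
    simp only [sub_smul, mul_smul, smul_sum, sum_sub_distrib]⟩

variable [Fintype ι] {P : Set V} {y y' : ι → ℝ}

theorem dot_sum (y : ι → ℝ) (F : Finset V) (r : V → ℝ) :
    y ⬝ᵥ ∑ v ∈ F, r v • e v = ∑ v ∈ F, r v * y ⬝ᵥ e v := by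
  simp only [dotProduct_sum, dotProduct_smul, smul_eq_mul]

theorem Cone.le (h : Cone e F x) (hF : IsF e P y F) (hy' : Feas e P y') : y ⬝ᵥ x ≤ y' ⬝ᵥ x := by
  obtain ⟨r, h1, rfl⟩ := h
  rw [dot_sum, dot_sum]
  refine sum_le_sum fun v hv => mul_le_mul_of_nonneg_left ?_ (h1 v hv)
  rw [((hF v).1 hv).2]
  exact hy' v ((hF v).1 hv).1

/-- a face whose cone contains an interior point of another face contains that face -/
theorem RI.subset (h : RI e F x) (h' : Cone e G x) (hF : IsF e P y F) (hy : Feas e P y)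
    (hG : IsF e P y' G) (hy' : Feas e P y') : F ⊆ G := by
  have h0 := h'.le hG hy
  obtain ⟨r, h1, rfl⟩ := h
  rw [dot_sum, dot_sum] at h0
  intro v hv
  refine (hG v).2 ⟨((hF v).1 hv).1, le_antisymm ?_ (hy' v ((hF v).1 hv).1)⟩
  by_contra h2
  refine absurd h0 (not_le.2 (sum_lt_sum (fun u hu => mul_le_mul_of_nonneg_left ?_ (h1 u hu).le)
    ⟨v, hv, mul_lt_mul_of_pos_left ?_ (h1 v hv)⟩))
  · rw [((hF u).1 hu).2]
    exact hy' u ((hF u).1 hu).1
  · rw [((hF v).1 hv).2]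
    exact not_le.1 h2

omit [Fintype ι] in
theorem Cone.pos (H : Hyp e P) (h : Cone e F x) (hF : ∀ v ∈ F, v ∈ P) (h0 : x ≠ 0) (i : ι) :
    0 < x i := by
  obtain ⟨r, h1, rfl⟩ := h
  obtain ⟨v, hv, h2⟩ := exists_ne_zero_of_sum_ne_zero h0
  rw [Finset.sum_apply]
  exact sum_pos' (fun u hu => mul_nonneg (h1 u hu) (H.pos u (hF u hu) i).le)
    ⟨v, hv, mul_pos ((h1 v hv).lt_of_ne (left_ne_zero_of_smul h2).symm) (H.pos v (hF v hv) i)⟩

theorem RI.dot_pos (h : RI e F x) (hF : IsF e P y F) (hne : F.Nonempty) : 0 < y ⬝ᵥ x := by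
  obtain ⟨r, h1, rfl⟩ := h
  rw [dot_sum]
  exact sum_pos (fun v hv => by rw [((hF v).1 hv).2, mul_one]; exact h1 v hv) hne

/-- every positive vector is an interior point of the cone over a face -/
theorem Hyp.exists_ri [Nonempty ι] (H : Hyp e P) (hx : ∀ i, 0 < x i) :
    ∃ y F, Feas e P y ∧ IsF e P y F ∧ F.Nonempty ∧ RI e F x := by
  have key : ∀ (n : ℕ) (y : ι → ℝ) (F : Finset V), F.card = n → Feas e P y → IsF e P y F →
      (∀ y', Feas e P y' → y ⬝ᵥ x ≤ y' ⬝ᵥ x) →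
      ∃ y F, Feas e P y ∧ IsF e P y F ∧ F.Nonempty ∧ RI e F x := by
    intro n
    induction n using Nat.strong_induction_on with
    | _ n ih =>
      intro y F hn hy hF hmin
      have hpos : 0 < y ⬝ᵥ x := sum_pos (fun i _ => mul_pos (H.feas_pos hy i) (hx i)) univ_nonempty
      have hne : F.Nonempty := by
        rw [nonempty_iff_ne_empty]
        rintro rfl
        obtain ⟨ε, h1, h2, -⟩ := H.pert (z := -y) hy fun v hv h =>
          absurd ((hF v).2 ⟨hv, h⟩) (notMem_empty v)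
        have := hmin _ h2
        rw [add_dotProduct, smul_dotProduct, neg_dotProduct, smul_eq_mul] at this
        nlinarith
      rcases stiemke (fun v : F => e v) x with ⟨r, h1, c, h2⟩ | ⟨z, h1, ⟨v₀, h2⟩, h3⟩
      · classical
        have h4 : RI e F (c • x) := ⟨fun v => if h : v ∈ F then r ⟨v, h⟩ else 0,
          fun v hv => by simp only [dif_pos hv]; exact h1 _, by
            rw [← h2, ← sum_coe_sort F]
            exact sum_congr rfl fun v _ => by simp only [dif_pos v.2]⟩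
        have h5 := h4.dot_pos hF hne
        rw [dotProduct_smul, smul_eq_mul] at h5
        have hc : 0 < c := (mul_pos_iff_of_pos_right hpos).1 h5
        have h6 := h4.smul (inv_pos.2 hc)
        rw [inv_smul_smul₀ hc.ne'] at h6
        exact ⟨y, F, hy, hF, hne, h6⟩
      · obtain ⟨ε, -, h4, h5⟩ := H.pert (z := z) hy fun v hv h => h1 ⟨v, (hF v).2 ⟨hv, h⟩⟩
        obtain ⟨G, hG⟩ := H.exists_isF h4
        refine ih _ ?_ _ G rfl h4 hG fun y' hy' => ?_
        · rw [← hn]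
          refine card_lt_card ⟨fun v hv => (hF v).2 ⟨((hG v).1 hv).1,
            (h5 v ((hG v).1 hv).1 ((hG v).1 hv).2).1⟩, fun h => ?_⟩
          have h6 := (hG v₀).1 (h v₀.2)
          exact h2.ne' (h5 v₀ h6.1 h6.2).2
        · rw [add_dotProduct, smul_dotProduct, h3, smul_zero, add_zero]
          exact hmin y' hy'
  obtain ⟨y, hy, hmin⟩ := H.exists_min hx
  obtain ⟨F, hF⟩ := H.exists_isF hy
  exact key _ y F rfl hy hF hmin

/-- moving from an interior point to the boundary -/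
theorem RI.peel (h : RI e F x) {b : ι → ℝ} (hb : RI e F b) (hF : IsF e P y F) (hne : F.Nonempty) :
    ∃ t : ℝ, 0 < t ∧ Cone e F (x - t • b) ∧ ¬ RI e F (x - t • b) := by
  classical
  have hb0 := hb.dot_pos hF hne
  let K : Set ((F → ℝ) × ℝ) := {p | ∑ v : F, p.1 v • e v + p.2 • b = x}
  have hK : IsClosed K := isClosed_eq (by fun_prop) continuous_const
  have hmem : ∀ t : ℝ, 0 ≤ t → Cone e F (x - t • b) →
      ∃ r, (r, t) ∈ K ∩ Set.Icc (0, 0) (fun _ => y ⬝ᵥ x, y ⬝ᵥ x / y ⬝ᵥ b) := by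
    rintro t ht ⟨r, h1, h2⟩
    have h3 : y ⬝ᵥ x - t * y ⬝ᵥ b = ∑ v ∈ F, r v := by
      have := congrArg (y ⬝ᵥ ·) h2
      simp only [dotProduct_sub, dotProduct_smul, smul_eq_mul, dot_sum] at this
      rw [this]
      exact sum_congr rfl fun v hv => by rw [((hF v).1 hv).2, mul_one]
    have h4 := sum_nonneg h1
    have h5 := mul_nonneg ht hb0.le
    refine ⟨fun v => r v, ?_, ⟨fun v => h1 v v.2, ht⟩, fun v => ?_, ?_⟩
    · change ∑ v : F, r v • e v + t • b = x
      rw [sum_coe_sort F fun v => r v • e v, ← h2, sub_add_cancel]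
    · have := single_le_sum h1 v.2
      change r v ≤ y ⬝ᵥ x
      linarith
    · change t ≤ _
      rw [le_div_iff₀ hb0]
      linarith
  obtain ⟨ε, hε, h1⟩ := h.sub hb.cone
  obtain ⟨r₀, h2⟩ := hmem ε hε.le h1
  obtain ⟨⟨r, t⟩, ⟨h3, h4, -⟩, hmax⟩ := (isCompact_Icc.inter_left hK).exists_isMaxOn ⟨_, h2⟩
    continuous_snd.continuousOn
  have ht : 0 < t := hε.trans_le (hmax h2)
  refine ⟨t, ht, ⟨fun v => if h : v ∈ F then r ⟨v, h⟩ else 0, fun v hv => ?_, ?_⟩, fun h5 => ?_⟩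
  · simp only [dif_pos hv]
    exact h4.1 _
  · have h5 : ∑ v : F, r v • e v + t • b = x := h3
    rw [← h5, add_sub_cancel_right, ← sum_coe_sort F]
    exact sum_congr rfl fun v _ => by simp only [dif_pos v.2]
  · obtain ⟨δ, hδ, h6⟩ := h5.sub hb.cone
    rw [sub_sub, ← add_smul] at h6
    obtain ⟨r', h7⟩ := hmem _ (add_pos ht hδ).le h6
    have : t + δ ≤ t := hmax h7
    linarith

end Pool.Agent.MP_f3cd89_nt.GeoX

end

section

/-! The barycentric subdivision of the fan over the faces. -/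

set_option autoImplicit false

open Finset

namespace Pool.Agent.MP_f3cd89_nt

namespace GeoX

variable {ι V : Type} [Fintype ι] {e : V → ι → ℝ} {P : Set V} {b : Finset V → ι → ℝ}

theorem face_subset {F G : Finset V} {x : ι → ℝ} (hF : Face e P F) (hG : Face e P G)
    (h : RI e F x) (h' : Cone e G x) : F ⊆ G :=
  let ⟨_, _, hy, h1⟩ := hF
  let ⟨_, _, hy', h2⟩ := hG
  h.subset h' h1 hy h2 hy'

theorem face_ne {F : Finset V} {x : ι → ℝ} (hF : Face e P F) (h : RI e F x) : x ≠ 0 := by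
  obtain ⟨hne, y, -, h1⟩ := hF
  rintro rfl
  exact absurd (h.dot_pos h1 hne) (by rw [dotProduct_zero]; exact lt_irrefl _)

/-- the top face of a chain -/
theorem top (hb : ∀ F, Face e P F → RI e F (b F)) {u : Finset V →₀ ℝ} (h0 : u ≠ 0)
    (h1 : ∀ F ∈ u.support, Face e P F ∧ 0 < u F)
    (h2 : IsChain (· ⊆ ·) (u.support : Set (Finset V))) :
    ∃ F ∈ u.support, RI e F (u.sum fun F r => r • b F) := by
  classical
  obtain ⟨F, hF, hmax⟩ := exists_max_image u.support card (Finsupp.support_nonempty_iff.2 h0)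
  refine ⟨F, hF, ?_⟩
  rw [Finsupp.sum, ← add_sum_erase _ _ hF]
  refine ((hb F (h1 F hF).1).smul (h1 F hF).2).add
    (sum_induction _ (Cone e F) (fun _ _ => Cone.add) (cone_zero F) fun G hG => ?_)
  have hG' := mem_of_mem_erase hG
  refine ((hb G (h1 G hG').1).smul (h1 G hG').2).cone.mono ?_
  rcases h2 hG' hF (ne_of_mem_erase hG) with h | h
  · exact h
  · exact (eq_of_subset_of_card_le h (hmax G hG')).ge

theorem uniq (hb : ∀ F, Face e P F → RI e F (b F)) {t t' : Finset V →₀ ℝ}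
    (h1 : ∀ F ∈ t.support, Face e P F ∧ 0 < t F)
    (h2 : IsChain (· ⊆ ·) (t.support : Set (Finset V)))
    (h1' : ∀ F ∈ t'.support, Face e P F ∧ 0 < t' F)
    (h2' : IsChain (· ⊆ ·) (t'.support : Set (Finset V)))
    (h : (t.sum fun F r => r • b F) = t'.sum fun F r => r • b F) : t ≤ t' := by
  have key : ∀ s s' : Finset V →₀ ℝ, (∀ F ∈ s.support, Face e P F ∧ 0 < s F) →
      (∀ F ∈ s'.support, Face e P F ∧ 0 < s' F) → ∀ F ∈ (s - s ⊓ s').support,
        F ∈ s.support ∧ s' F < s F ∧ 0 < (s - s ⊓ s') F := by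
    intro s s' _ hs' F hF
    rw [Finsupp.mem_support_iff, Finsupp.sub_apply, Finsupp.inf_apply, sub_ne_zero] at hF
    have h3 : s' F < s F := not_le.1 fun h => hF (inf_eq_left.2 h).symm
    have h4 : 0 ≤ s' F := by
      by_cases h : F ∈ s'.support
      · exact (hs' F h).2.le
      · exact (Finsupp.notMem_support_iff.1 h).ge
    refine ⟨Finsupp.mem_support_iff.2 (h4.trans_lt h3).ne', h3, ?_⟩
    rw [Finsupp.sub_apply, Finsupp.inf_apply, inf_eq_right.2 h3.le]
    exact sub_pos.2 h3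
  have k1 := key t t' h1 h1'
  have k2 := key t' t h1' h1
  have e1 : ((t - t ⊓ t').sum fun F r => r • b F) = (t' - t' ⊓ t).sum fun F r => r • b F := by
    rw [Finsupp.sum_sub_index fun _ _ _ => sub_smul _ _ _,
      Finsupp.sum_sub_index fun _ _ _ => sub_smul _ _ _, h, inf_comm]
  by_contra h0
  have h3 : t - t ⊓ t' ≠ 0 := fun h => h0 (inf_eq_left.1 (sub_eq_zero.1 h).symm)
  obtain ⟨F, hF, h4⟩ := top hb h3 (fun F hF => ⟨(h1 F (k1 F hF).1).1, (k1 F hF).2.2⟩)
    (h2.mono fun F hF => (k1 F hF).1)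
  have hFf := (h1 F (k1 F hF).1).1
  have h5 : t' - t' ⊓ t ≠ 0 := fun h => face_ne hFf h4 (by rw [e1, h, Finsupp.sum_zero_index])
  obtain ⟨G, hG, h6⟩ := top hb h5 (fun F hF => ⟨(h1' F (k2 F hF).1).1, (k2 F hF).2.2⟩)
    (h2'.mono fun F hF => (k2 F hF).1)
  have hGf := (h1' G (k2 G hG).1).1
  rw [← e1] at h6
  obtain rfl : F = G :=
    Subset.antisymm (face_subset hFf hGf h4 h6.cone) (face_subset hGf hFf h6 h4.cone)
  exact lt_asymm (k1 F hF).2.1 (k2 F hG).2.1

theorem exist [Nonempty ι] (H : Hyp e P) (hb : ∀ F, Face e P F → RI e F (b F)) :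
    ∀ (n : ℕ) (F : Finset V) (x : ι → ℝ), F.card = n → Face e P F → RI e F x →
      ∃ t : Finset V →₀ ℝ, (∀ G ∈ t.support, (Face e P G ∧ 0 < t G) ∧ G ⊆ F) ∧
        IsChain (· ⊆ ·) (t.support : Set (Finset V)) ∧ x = t.sum fun F r => r • b F := by
  classical
  intro n
  induction n using Nat.strong_induction_on with
  | _ n ih =>
    intro F x hn hF hx
    obtain ⟨hne, y, hy, hyF⟩ := id hF
    obtain ⟨c, hc, h1, h2⟩ := hx.peel (hb F hF) hyF hne
    have step : ∃ t : Finset V →₀ ℝ, (∀ G ∈ t.support, (Face e P G ∧ 0 < t G) ∧ G ⊂ F) ∧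
        IsChain (· ⊆ ·) (t.support : Set (Finset V)) ∧
          x - c • b F = t.sum fun F r => r • b F := by
      by_cases h0 : x - c • b F = 0
      · exact ⟨0, by simp, by simp, by rw [h0, Finsupp.sum_zero_index]⟩
      obtain ⟨y', G, hy', hG, hGne, h3⟩ := H.exists_ri (h1.pos H (fun v hv => ((hyF v).1 hv).1) h0)
      have h4 : G ⊂ F := ssubset_of_subset_of_ne (h3.subset h1 hG hy' hyF hy) (by
        rintro rfl
        exact h2 h3)
      obtain ⟨t, h5, h6, h7⟩ := ih _ (hn ▸ card_lt_card h4) G _ rfl ⟨hGne, y', hy', hG⟩ h3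
      exact ⟨t, fun G' hG' => ⟨(h5 G' hG').1,
        Finset.ssubset_of_subset_of_ssubset (h5 G' hG').2 h4⟩, h6, h7⟩
    obtain ⟨t, h3, h4, h5⟩ := step
    have hFt : F ∉ t.support := fun h => (h3 F h).2.ne rfl
    have h6 : (Finsupp.single F c + t).support = insert F t.support := by
      rw [Finsupp.support_single_add hFt hc.ne', cons_eq_insert]
    refine ⟨Finsupp.single F c + t, fun G hG => ?_, ?_, ?_⟩
    · rw [h6, mem_insert] at hG
      rcases hG with rfl | hG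
      · refine ⟨⟨hF, ?_⟩, Subset.rfl⟩
        rw [Finsupp.add_apply, Finsupp.single_eq_same, Finsupp.notMem_support_iff.1 hFt, add_zero]
        exact hc
      · refine ⟨⟨(h3 G hG).1.1, ?_⟩, (h3 G hG).2.subset⟩
        rw [Finsupp.add_apply, Finsupp.single_eq_of_ne (h3 G hG).2.ne, zero_add]
        exact (h3 G hG).1.2
    · rw [h6, coe_insert]
      exact h4.insert fun G hG _ => Or.inr (h3 G hG).2.subset
    · rw [Finsupp.sum_add_index' (h := fun F (r : ℝ) => r • b F) (fun _ => zero_smul _ _)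
        fun _ _ _ => add_smul _ _ _, Finsupp.sum_single_index (h := fun F (r : ℝ) => r • b F)
        (zero_smul _ _), ← h5, add_sub_cancel]

end GeoX

theorem geo : GEO_st := by
  intro ι V _ _ e P h1 h2 h3
  have H : GeoX.Hyp e P := ⟨h1, h2, h3⟩
  refine ⟨fun y hy => H.feas_pos hy, fun b hb x hx => ?_⟩
  obtain ⟨y, F, hy, hF, hne, hx'⟩ := H.exists_ri hx
  obtain ⟨t, h4, h5, h6⟩ := GeoX.exist H hb _ F x rfl ⟨hne, y, hy, hF⟩ hx'
  refine ⟨t, ⟨fun G hG => (h4 G hG).1, h5, h6⟩, ?_⟩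
  rintro t' ⟨h7, h8, h9⟩
  exact le_antisymm (GeoX.uniq hb h7 h8 (fun G hG => (h4 G hG).1) h5 (h9.symm.trans h6))
    (GeoX.uniq hb (fun G hG => (h4 G hG).1) h5 h7 h8 (h6.symm.trans h9))

end Pool.Agent.MP_f3cd89_nt

end

section

/-! Decompositions along chains of faces: basic properties. -/

set_option autoImplicit false
set_option linter.unusedSectionVars false

open Finset
open Classical

namespace Pool.Agent.MP_f3cd89_nt.CellX

variable {ι V G Q : Type} [Fintype ι] [Nonempty ι] [AddCommGroup V] [Group G]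
  [DistribMulAction G V] [MulAction G Q] {l : ℕ}

/-- the good points -/
def P (D : Sh ι V G Q l) (q : Q) : Set V :=
  {v | v ∈ D.Λ q ∧ (∀ i, 0 < D.e v i) ∧ D.χ q v ≠ 0}

/-- the action on finite sets -/
noncomputable def fa (g : G) : Finset V ≃ Finset V where
  toFun F := F.image fun v => g • v
  invFun F := F.image fun v => g⁻¹ • v
  left_inv F := by simp [Finset.image_image, Function.comp_def]
  right_inv F := by simp [Finset.image_image, Function.comp_def]

theorem fa_apply (g : G) (F : Finset V) : fa g F = F.image fun v => g • v := rfl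

theorem fa_card (g : G) (F : Finset V) : (fa g F).card = F.card :=
  Finset.card_image_of_injective _ (MulAction.injective g)

theorem pos_smul (D : Sh ι V G Q l) (g : G) {v : V} (h : ∀ i, 0 < D.e v i) (i : ι) :
    0 < D.e (g • v) i := by
  obtain ⟨τ, t, ht, he⟩ := D.mon g
  rw [he]
  exact mul_pos (ht i) (h _)

theorem smul_P (D : Sh ι V G Q l) (g : G) {q : Q} {v : V} (h : v ∈ P D q) :
    g • v ∈ P D (g • q) := by
  obtain ⟨h1, h2, h3⟩ := h
  refine ⟨D.smul_Λ g q v h1, pos_smul D g h2, ?_⟩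
  rw [D.smul_χ g q v (D.Λ_le q h1)]
  exact h3

theorem finite_P (D : Sh ι V G Q l) (q : Q) (C : ℝ) :
    {v ∈ P D q | ∀ i, D.e v i ≤ C}.Finite := by
  refine (D.lf q C).subset ?_
  rintro v ⟨⟨h1, h2, -⟩, h4⟩
  exact ⟨D.Λ_le q h1, fun i => by rw [abs_of_pos (h2 i)]; exact h4 i⟩

theorem bdry_P (D : Sh ι V G Q l) (q : Q) (i : ι) (δ : ℝ) (hδ : 0 < δ) :
    ∃ v ∈ P D q, ∀ j, j ≠ i → D.e v j < δ := by
  obtain ⟨v, hv⟩ := D.good q
  obtain ⟨R, hR⟩ := D.unit q
  have hv' : v ∈ P D q := hv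
  set S : ℝ := ∑ j, D.e v j with hS
  have hSpos : 0 < S := Finset.sum_pos (fun j _ => hv.2.1 j) Finset.univ_nonempty
  set η : ℝ := δ / S with hη
  have hηpos : 0 < η := div_pos hδ hSpos
  set n : ℕ := Fintype.card ι with hn
  set K : ℝ := (|R| / η) ^ n + 1 with hK
  have hKpos : 0 < K := by positivity
  obtain ⟨g, -, hgq, t, ht, hprod, he, hbal⟩ :=
    hR (fun j => if j = i then 1 else K) (fun j => by split_ifs <;> positivity)
  have hR1 : 1 ≤ R := by
    have := hbal i i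
    simp only [if_true, mul_one] at this
    by_contra hc
    push Not at hc
    nlinarith [ht i]
  have hRpos : 0 < R := by linarith
  refine ⟨g • v, by simpa [hgq] using smul_P D g hv', fun j hj => ?_⟩
  rw [he]
  have hvj : D.e v j ≤ S :=
    Finset.single_le_sum (f := fun j => D.e v j) (fun a _ => (hv.2.1 a).le) (Finset.mem_univ j)
  have htj : t j < η := by
    by_contra hc
    push Not at hc
    have h1 : ∀ a, η / R * (if a = i then K else 1) ≤ t a := by
      intro a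
      have h2 := hbal j a
      simp only [hj, if_false] at h2
      by_cases ha : a = i
      · simp only [ha, if_true, mul_one] at h2 ⊢
        rw [div_mul_eq_mul_div, div_le_iff₀ hRpos]
        nlinarith
      · simp only [ha, if_false, mul_one] at h2 ⊢
        rw [div_le_iff₀ hRpos]
        have : t j ≤ R * t a := by
          by_contra h3
          push Not at h3
          nlinarith
        linarith
    have h3 : ∏ a, (η / R * (if a = i then K else 1)) ≤ ∏ a, t a :=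
      Finset.prod_le_prod (fun a _ => by split_ifs <;> positivity) (fun a _ => h1 a)
    rw [hprod, Finset.prod_mul_distrib, Finset.prod_const, Finset.card_univ, ← hn] at h3
    simp only [Finset.prod_ite_eq', Finset.mem_univ, if_true] at h3
    rw [hK, abs_of_pos hRpos, mul_add, ← mul_pow] at h3
    have h4 : η / R * (R / η) = 1 := by field_simp
    rw [h4, one_pow] at h3
    have : 0 < (η / R) ^ n := by positivity
    linarith
  calc t j * D.e v j ≤ t j * S := mul_le_mul_of_nonneg_left hvj (ht j).le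
    _ < η * S := mul_lt_mul_of_pos_right htj hSpos
    _ = δ := by rw [hη]; field_simp

/-- `t` decomposes `x` along a chain of faces -/
def Dec (D : Sh ι V G Q l) (b : Q → Finset V → V) (q : Q) (x : V) (t : Finset V →₀ ℝ) : Prop :=
  (∀ F ∈ t.support, Face D.e (P D q) F ∧ 0 < t F) ∧
    IsChain (· ⊆ ·) (t.support : Set (Finset V)) ∧ D.e x = t.sum fun F r => r • D.e (b q F)

/-- the properties of the barycentres -/
structure Hyp (D : Sh ι V G Q l) (b : Q → Finset V → V) : Prop where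
  face : ∀ (g : G) q F, Face D.e (P D q) F → Face D.e (P D (g • q)) (fa g F)
  mem : ∀ q F, Face D.e (P D q) F → b q F ∈ P D q
  eqv : ∀ q F, Face D.e (P D q) F → ∀ g : G, b (g • q) (fa g F) = g • b q F
  ypos : ∀ q (y : ι → ℝ), (∀ v ∈ P D q, 1 ≤ ∑ i, y i * D.e v i) → ∀ i, 0 < y i
  uniq : ∀ q x, (∀ i, 0 < D.e x i) → ∃! t, Dec D b q x t

theorem exists_hyp (hG : GEO_st) (hB : BARY_st) [Fact l.Prime] (D : Sh ι V G Q l) :
    ∃ b, Hyp D b := by
  obtain ⟨h1, b, hb⟩ := hB ι V G Q l D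
  have hg := fun q => hG ι V D.e (P D q) (fun v hv => hv.2.1) (finite_P D q) (bdry_P D q)
  refine ⟨b, h1, fun q F hF => ?_, fun q F hF => (hb q F hF).2.2.2, fun q => (hg q).1,
    fun q x hx => ?_⟩
  · obtain ⟨h2, h3, ⟨s, hs, h4⟩, -⟩ := hb q F hF
    refine ⟨h2, fun i => ?_, h3⟩
    rw [h4, map_sum, Finset.sum_apply]
    obtain ⟨hne, y, -, hy⟩ := hF
    refine Finset.sum_pos (fun v hv => ?_) hne
    rw [map_nsmul, Pi.smul_apply, nsmul_eq_mul]
    exact mul_pos (Nat.cast_pos.2 (hs v hv)) (((hy v).1 hv).1.2.1 i)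
  · refine (hg q).2 (fun F => D.e (b q F)) (fun F hF => ?_) (D.e x) hx
    obtain ⟨-, -, ⟨s, hs, h4⟩, -⟩ := hb q F hF
    refine ⟨fun v => s v, fun v hv => Nat.cast_pos.2 (hs v hv), ?_⟩
    rw [h4, map_sum]
    refine Finset.sum_congr rfl fun v _ => ?_
    rw [map_nsmul, Nat.cast_smul_eq_nsmul]

variable {D : Sh ι V G Q l} {b : Q → Finset V → V}

theorem Hyp.dec_eq (H : Hyp D b) {q : Q} {x : V} {t t' : Finset V →₀ ℝ} (hx : ∀ i, 0 < D.e x i)
    (h : Dec D b q x t) (h' : Dec D b q x t') : t = t' :=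
  (H.uniq q x hx).unique h h'

theorem Hyp.inj (H : Hyp D b) {q : Q} {F F' : Finset V} (hF : Face D.e (P D q) F)
    (hF' : Face D.e (P D q) F') (h : b q F = b q F') : F = F' := by
  have key : ∀ A, Face D.e (P D q) A → Dec D b q (b q A) (Finsupp.single A 1) := by
    intro A hA
    refine ⟨fun B hB => ?_, ?_, ?_⟩
    · rw [Finsupp.support_single _ one_ne_zero, Finset.mem_singleton] at hB
      subst hB
      exact ⟨hA, by simp⟩
    · rw [Finsupp.support_single _ one_ne_zero]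
      simp
    · rw [Finsupp.sum_single_index (by simp), one_smul]
  have h1 := key F hF
  have h2 := key F' hF'
  rw [← h] at h2
  exact Finsupp.single_left_injective one_ne_zero (H.dec_eq (H.mem q F hF).2.1 h1 h2)

/-- the action on decompositions -/
noncomputable def ta (g : G) (t : Finset V →₀ ℝ) : Finset V →₀ ℝ := Finsupp.equivMapDomain (fa g) t

theorem ta_apply (g : G) (t : Finset V →₀ ℝ) (F : Finset V) : ta g t (fa g F) = t F := by
  simp [ta]

theorem ta_support (g : G) (t : Finset V →₀ ℝ) : (ta g t).support = t.support.image (fa g) := by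
  ext F
  obtain ⟨F, rfl⟩ := (fa g).surjective F
  rw [Finsupp.mem_support_iff, ta_apply, (fa g).injective.mem_finset_image,
    Finsupp.mem_support_iff]

theorem ta_le (g : G) {t : Finset V →₀ ℝ} (h : ∀ F, t F ≤ 1) (F : Finset V) : ta g t F ≤ 1 := by
  obtain ⟨F, rfl⟩ := (fa g).surjective F
  rw [ta_apply]
  exact h F

theorem Hyp.dec_smul (H : Hyp D b) (g : G) {q : Q} {x : V} {t : Finset V →₀ ℝ}
    (h : Dec D b q x t) : Dec D b (g • q) (g • x) (ta g t) := by
  obtain ⟨h1, h2, h3⟩ := h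
  refine ⟨fun F hF => ?_, ?_, ?_⟩
  · rw [ta_support] at hF
    obtain ⟨A, hA, rfl⟩ := Finset.mem_image.1 hF
    rw [ta_apply]
    exact ⟨H.face g q A (h1 A hA).1, (h1 A hA).2⟩
  · rw [ta_support, Finset.coe_image]
    rintro _ ⟨A, hA, rfl⟩ _ ⟨B, hB, rfl⟩ -
    exact (h2.total hA hB).imp Finset.image_subset_image Finset.image_subset_image
  · rw [ta, Finsupp.sum_equivMapDomain]
    obtain ⟨τ, s, -, he⟩ := D.mon g
    funext i
    rw [he, h3, Finsupp.sum, Finsupp.sum, Finset.sum_apply, Finset.sum_apply, Finset.mul_sum]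
    refine Finset.sum_congr rfl fun F hF => ?_
    rw [H.eqv q F (h1 F hF).1, Pi.smul_apply, Pi.smul_apply, he, smul_eq_mul, smul_eq_mul]
    ring

theorem Hyp.image_smul (H : Hyp D b) (g : G) {q : Q} {x : V} {t : Finset V →₀ ℝ}
    (h : Dec D b q x t) :
    (ta g t).support.image (b (g • q)) = (t.support.image (b q)).image fun u => g • u := by
  rw [ta_support, Finset.image_image, Finset.image_image]
  refine Finset.image_congr fun F hF => ?_
  exact H.eqv q F (h.1 F hF).1 g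

theorem Dec.nonempty {q : Q} {x : V} {t : Finset V →₀ ℝ} (hx : ∀ i, 0 < D.e x i)
    (h : Dec D b q x t) : t.support.Nonempty := by
  by_contra hc
  rw [Finset.not_nonempty_iff_eq_empty] at hc
  obtain ⟨i⟩ := ‹Nonempty ι›
  have := hx i
  rw [h.2.2, Finsupp.sum, hc] at this
  simp at this

theorem Hyp.fixed (H : Hyp D b) (g : G) {q : Q} {x : V} {t : Finset V →₀ ℝ}
    (hx : ∀ i, 0 < D.e x i) (h : Dec D b q x t) (hq : g • q = q) (hgx : g • x = x)
    {F : Finset V} (hF : F ∈ t.support) : g • b q F = b q F := by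
  have h1 := H.dec_smul g h
  rw [hq, hgx] at h1
  have h2 : ta g t = t := H.dec_eq hx h1 h
  have h3 : fa g F ∈ t.support := by
    rw [← h2, ta_support]
    exact Finset.mem_image_of_mem _ hF
  have h4 : fa g F = F := by
    rcases h.2.1.total h3 hF with h5 | h5
    · exact Finset.eq_of_subset_of_card_le h5 (fa_card g F).ge
    · exact (Finset.eq_of_subset_of_card_le h5 (fa_card g F).le).symm
  rw [← H.eqv q F (h.1 F hF).1 g, hq, h4]

end Pool.Agent.MP_f3cd89_nt.CellX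

end

section

/-! Existence of the finite equivariant family of cells. -/

set_option autoImplicit false
set_option linter.unusedSectionVars false

open Finset
open Classical

namespace Pool.Agent.MP_f3cd89_nt.CellX

variable {ι V G Q : Type} [Fintype ι] [Nonempty ι] [AddCommGroup V] [Group G]
  [DistribMulAction G V] [MulAction G Q] {l : ℕ}

/-- the cells -/
def C0 (D : Sh ι V G Q l) (b : Q → Finset V → V) : Set (Q × Finset V) :=
  {c | D.o ∈ D.X c.1 ∧ ∃ t, Dec D b c.1 D.o t ∧ (∀ F, t F ≤ 1) ∧ c.2 = t.support.image (b c.1)}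

/-- the reduced part of a positive real -/
noncomputable def fr (r : ℝ) : ℝ := r - ((⌈r⌉₊ - 1 : ℕ) : ℝ)

theorem fr_zero : fr 0 = 0 := by simp [fr]

theorem fr_pos {r : ℝ} (h : 0 < r) : 0 < fr r := by
  have h1 : 1 ≤ ⌈r⌉₊ := Nat.one_le_iff_ne_zero.2 (Nat.ceil_pos.2 h).ne'
  have h2 := Nat.ceil_lt_add_one h.le
  rw [fr, Nat.cast_sub h1]
  push_cast
  linarith

theorem fr_le (r : ℝ) : fr r ≤ 1 := by
  have h2 := Nat.le_ceil r
  have h3 : (⌈r⌉₊ : ℝ) ≤ ((⌈r⌉₊ - 1 : ℕ) : ℝ) + 1 := by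
    have : ⌈r⌉₊ ≤ ⌈r⌉₊ - 1 + 1 := by omega
    exact_mod_cast this
  rw [fr]
  linarith

theorem fr_add {r : ℝ} (h : 0 < r) (h1 : r ≤ 1) (n : ℕ) : fr (r + n) = r := by
  have h2 : ⌈r⌉₊ = 1 := by
    rw [Nat.ceil_eq_iff one_ne_zero]
    simpa using ⟨h, h1⟩
  rw [fr, Nat.ceil_add_natCast h.le, h2]
  simp

variable {D : Sh ι V G Q l} {b : Q → Finset V → V}

theorem Hyp.dec_pos (H : Hyp D b) {q : Q} {x : V} {t : Finset V →₀ ℝ}
    (h : Dec D b q x t) (hne : t.support.Nonempty) (i : ι) : 0 < D.e x i := by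
  rw [h.2.2, Finsupp.sum, Finset.sum_apply]
  refine Finset.sum_pos (fun F hF => ?_) hne
  rw [Pi.smul_apply, smul_eq_mul]
  exact mul_pos (h.1 F hF).2 ((H.mem q F (h.1 F hF).1).2.1 i)

theorem Hyp.exists_cell (H : Hyp D b) {q : Q} (hq : D.o ∈ D.X q) :
    ∃ z : (Q × Finset V) × (V →₀ ℕ), z.1 ∈ C0 D b ∧ z.2.support ⊆ z.1.2 ∧
      ∃ g ∈ D.N, g • z.1.1 = q ∧ g • (D.o + z.2.sum fun u n => n • u) = D.o := by
  have ho := (D.X_sub q _ hq).2
  obtain ⟨t, ht, -⟩ := H.uniq q D.o ho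
  set w : V := ∑ F ∈ t.support, (⌈t F⌉₊ - 1) • b q F with hw
  set t0 : Finset V →₀ ℝ := t.mapRange fr fr_zero with ht0
  have hsupp : t0.support = t.support := by
    ext F
    rw [Finsupp.mem_support_iff, ht0, Finsupp.mapRange_apply]
    constructor
    · intro h
      rw [Finsupp.mem_support_iff]
      intro h0
      rw [h0] at h
      exact h fr_zero
    · intro h
      exact (fr_pos (ht.1 F h).2).ne'
  have hdec : Dec D b q (D.o + -w) t0 := by
    refine ⟨fun F hF => ?_, by rw [hsupp]; exact ht.2.1, ?_⟩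
    · rw [hsupp] at hF
      exact ⟨(ht.1 F hF).1, by rw [ht0, Finsupp.mapRange_apply]; exact fr_pos (ht.1 F hF).2⟩
    · rw [map_add, map_neg, ht.2.2, hw, map_sum, Finsupp.sum, Finsupp.sum, hsupp, ← sub_eq_add_neg,
        ← Finset.sum_sub_distrib]
      refine Finset.sum_congr rfl fun F _ => ?_
      rw [ht0, Finsupp.mapRange_apply, fr, sub_smul, map_nsmul, Nat.cast_smul_eq_nsmul]
  have hwΛ : w ∈ D.Λ q :=
    sum_mem fun F hF => nsmul_mem (H.mem q F (ht.1 F hF).1).1 _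
  have hx0 : D.o + -w ∈ D.X q :=
    D.X_add q _ hq _ (neg_mem hwΛ) (H.dec_pos hdec (by rw [hsupp]; exact ht.nonempty ho))
  obtain ⟨g, hg, hgo⟩ := D.trans q _ hx0
  have hdec' := H.dec_smul g hdec
  rw [hgo] at hdec'
  refine ⟨((g • q, (ta g t0).support.image (b (g • q))),
    ∑ F ∈ t.support, Finsupp.single (g • b q F) (⌈t F⌉₊ - 1)), ⟨?_, ta g t0, hdec', ?_, rfl⟩, ?_,
    g⁻¹, inv_mem hg, inv_smul_smul g q, ?_⟩
  · have := D.smul_X g q _ hx0
    rwa [hgo] at this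
  · refine ta_le g fun F => ?_
    rw [ht0, Finsupp.mapRange_apply]
    exact fr_le _
  · intro u hu
    rw [H.image_smul g hdec, hsupp]
    obtain ⟨F, hF, hu⟩ := Finset.mem_biUnion.1 (Finsupp.support_finsetSum hu)
    rw [Finset.mem_singleton.1 (Finsupp.support_single_subset hu)]
    exact Finset.mem_image_of_mem _ (Finset.mem_image_of_mem _ hF)
  · have h1 : ((∑ F ∈ t.support, Finsupp.single (g • b q F) (⌈t F⌉₊ - 1)).sum
        fun u n => n • u) = g • w := by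
      rw [← Finsupp.sum_finsetSum_index (by simp) (fun _ _ _ => add_smul _ _ _), hw,
        Finset.smul_sum]
      refine Finset.sum_congr rfl fun F _ => ?_
      rw [Finsupp.sum_single_index (by simp), smul_comm]
    show g⁻¹ • (D.o + _) = D.o
    rw [h1, inv_smul_eq_iff]
    nth_rewrite 1 [← hgo]
    rw [← smul_add]
    simp

/-- shifting a decomposition by integers -/
noncomputable def sh (b : Finset V → V) (s : Finset V →₀ ℝ) (n : V →₀ ℕ) : Finset V →₀ ℝ :=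
  Finsupp.onFinset s.support (fun F => if F ∈ s.support then s F + n (b F) else 0)
    fun F h => by
      by_contra hc
      exact h (if_neg hc)

theorem sh_apply (b : Finset V → V) (s : Finset V →₀ ℝ) (n : V →₀ ℕ) (F : Finset V) :
    sh b s n F = if F ∈ s.support then s F + n (b F) else 0 := rfl

theorem Hyp.dec_sh (H : Hyp D b) {q : Q} {x : V} {s : Finset V →₀ ℝ} (h : Dec D b q x s)
    {n : V →₀ ℕ} (hn : n.support ⊆ s.support.image (b q)) :
    Dec D b q (x + n.sum fun u n => n • u) (sh (b q) s n) := by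
  have hpos : ∀ F ∈ s.support, 0 < sh (b q) s n F := by
    intro F hF
    rw [sh_apply, if_pos hF]
    exact add_pos_of_pos_of_nonneg (h.1 F hF).2 (Nat.cast_nonneg _)
  have hsupp : (sh (b q) s n).support = s.support := by
    refine Finset.Subset.antisymm Finsupp.support_onFinset_subset fun F hF => ?_
    exact Finsupp.mem_support_iff.2 (hpos F hF).ne'
  refine ⟨fun F hF => ?_, by rw [hsupp]; exact h.2.1, ?_⟩
  · rw [hsupp] at hF
    exact ⟨(h.1 F hF).1, hpos F hF⟩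
  · rw [map_add, h.2.2, Finsupp.sum_of_support_subset n hn _ (by simp),
      Finset.sum_image (fun A hA B hB hAB => H.inj (h.1 A hA).1 (h.1 B hB).1 hAB), map_sum,
      Finsupp.sum, Finsupp.sum, hsupp, ← Finset.sum_add_distrib]
    refine Finset.sum_congr rfl fun F hF => ?_
    rw [sh_apply, if_pos hF, add_smul, map_nsmul, Nat.cast_smul_eq_nsmul]

theorem fr_sh {q : Q} {x : V} {s : Finset V →₀ ℝ} (h : Dec D b q x s) (h1 : ∀ F, s F ≤ 1)
    (n : V →₀ ℕ) (F : Finset V) : fr (sh (b q) s n F) = s F := by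
  rw [sh_apply]
  split_ifs with hF
  · exact fr_add (h.1 F hF).2 (h1 F) _
  · rw [fr_zero, Finsupp.notMem_support_iff.1 hF]

theorem free_eq {g g' : G} (hg : g ∈ D.N) (hg' : g' ∈ D.N) (ho : ∀ i, 0 < D.e D.o i)
    (h : g • D.o = g' • D.o) : g = g' := by
  have h1 := D.free (g'⁻¹ * g) (mul_mem (inv_mem hg') hg) D.o ho (by rw [mul_smul, h]; simp)
  exact (inv_mul_eq_one.1 h1).symm

theorem Hyp.unique_cell (H : Hyp D b) {q : Q} (hq : D.o ∈ D.X q)
    {z z' : (Q × Finset V) × (V →₀ ℕ)}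
    (h : z.1 ∈ C0 D b ∧ z.2.support ⊆ z.1.2 ∧
      ∃ g ∈ D.N, g • z.1.1 = q ∧ g • (D.o + z.2.sum fun u n => n • u) = D.o)
    (h' : z'.1 ∈ C0 D b ∧ z'.2.support ⊆ z'.1.2 ∧
      ∃ g ∈ D.N, g • z'.1.1 = q ∧ g • (D.o + z'.2.sum fun u n => n • u) = D.o) : z = z' := by
  have ho := (D.X_sub q _ hq).2
  obtain ⟨⟨q1, U1⟩, n1⟩ := z
  obtain ⟨⟨q2, U2⟩, n2⟩ := z'
  obtain ⟨⟨-, s1, hs1, hle1, hU1⟩, hn1, g1, hg1, hq1, ho1⟩ := h
  obtain ⟨⟨-, s2, hs2, hle2, hU2⟩, hn2, g2, hg2, hq2, ho2⟩ := h'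
  dsimp only at *
  subst hU1 hU2
  have d1 := H.dec_sh hs1 hn1
  have d2 := H.dec_sh hs2 hn2
  have e1 := H.dec_smul g1 d1
  have e2 := H.dec_smul g2 d2
  rw [hq1, ho1] at e1
  rw [hq2, ho2] at e2
  have e3 := H.dec_eq ho e1 e2
  have key : ∀ (g : G) (q' : Q) (s : Finset V →₀ ℝ) (n : V →₀ ℕ), Dec D b q' D.o s →
      (∀ F, s F ≤ 1) → ∀ F, ta g s F = fr (ta g (sh (b q') s n) F) := by
    intro g q' s n hs hle F
    obtain ⟨F, rfl⟩ := (fa g).surjective F
    rw [ta_apply, ta_apply, fr_sh hs hle]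
  have e4 : ta g1 s1 = ta g2 s2 := by
    ext F
    rw [key g1 q1 s1 n1 hs1 hle1, key g2 q2 s2 n2 hs2 hle2, e3]
  have f1 := H.dec_smul g1 hs1
  have f2 := H.dec_smul g2 hs2
  rw [hq1] at f1
  rw [hq2, ← e4] at f2
  have e5 : g1 = g2 := free_eq hg1 hg2 ho (D.e_inj (f1.2.2.trans f2.2.2.symm))
  subst e5
  have e6 : q1 = q2 := MulAction.injective g1 (hq1.trans hq2.symm)
  subst e6
  have e7 : s1 = s2 := H.dec_eq ho hs1 hs2
  subst e7
  have e8 : n1 = n2 := by
    ext u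
    by_cases hu : u ∈ s1.support.image (b q1)
    · obtain ⟨F, hF, rfl⟩ := Finset.mem_image.1 hu
      have := congrArg (fun t : Finset V →₀ ℝ => t (fa g1 F)) e3
      simp only [ta_apply, sh_apply, if_pos hF] at this
      exact_mod_cast add_left_cancel this
    · rw [Finsupp.notMem_support_iff.1 fun h => hu (hn1 h),
        Finsupp.notMem_support_iff.1 fun h => hu (hn2 h)]
  rw [e8]

theorem Hyp.face_bdd (H : Hyp D b) (q : Q) : ∃ A : Finset V, ∀ F, Face D.e (P D q) F →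
    ∃ g ∈ D.N, g • q = q ∧ fa g F ⊆ A := by
  obtain ⟨v, hv⟩ := D.good q
  obtain ⟨R, hR⟩ := D.unit q
  have hv' : v ∈ P D q := hv
  refine ⟨(finite_P D q (R * ∑ j, D.e v j)).toFinset, fun F hF => ?_⟩
  obtain ⟨-, y, hy1, hy2⟩ := hF
  have hy := H.ypos q y hy1
  obtain ⟨g, hg, hgq, t, ht, -, he, hbal⟩ := hR (fun i => (y i)⁻¹) fun i => inv_pos.2 (hy i)
  refine ⟨g, hg, hgq, fun w hw => ?_⟩
  obtain ⟨u, hu, rfl⟩ := Finset.mem_image.1 hw
  obtain ⟨hu1, hu2⟩ := (hy2 u).1 hu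
  rw [Set.Finite.mem_toFinset]
  refine ⟨by simpa [hgq] using smul_P D g hu1, fun i => ?_⟩
  have h1 : y i * D.e u i ≤ 1 := by
    rw [← hu2]
    exact Finset.single_le_sum (f := fun j => y j * D.e u j)
      (fun j _ => (mul_pos (hy j) (hu1.2.1 j)).le) (Finset.mem_univ i)
  have h2 : g⁻¹ • v ∈ P D q := by
    have := smul_P D g⁻¹ hv'
    rwa [inv_smul_eq_iff.2 hgq.symm] at this
  have h3 := hy1 _ h2
  have h4 : ∀ j, D.e v j = t j * D.e (g⁻¹ • v) j := fun j => by rw [← he, smul_inv_smul]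
  have h5 : t i * (y i)⁻¹ ≤ R * ∑ j, D.e v j := by
    calc t i * (y i)⁻¹ ≤ t i * (y i)⁻¹ * ∑ j, y j * D.e (g⁻¹ • v) j :=
          le_mul_of_one_le_right (mul_pos (ht i) (inv_pos.2 (hy i))).le h3
      _ = ∑ j, t i * (y i)⁻¹ * (y j * D.e (g⁻¹ • v) j) := Finset.mul_sum _ _ _
      _ ≤ ∑ j, R * (t j * (y j)⁻¹) * (y j * D.e (g⁻¹ • v) j) :=
          Finset.sum_le_sum fun j _ =>
            mul_le_mul_of_nonneg_right (hbal i j) (mul_pos (hy j) (h2.2.1 j)).le
      _ = R * ∑ j, D.e v j := by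
          rw [Finset.mul_sum]
          refine Finset.sum_congr rfl fun j _ => ?_
          have := (hy j).ne'
          rw [h4 j]
          field_simp
  rw [he]
  have h6 : D.e u i ≤ (y i)⁻¹ := by
    rw [← one_div, le_div_iff₀ (hy i), mul_comm]
    exact h1
  exact (mul_le_mul_of_nonneg_left h6 (ht i).le).trans h5

theorem Hyp.point_bdd (H : Hyp D b) (q : Q) : ∃ A : Finset V, ∀ x ∈ D.X q, ∀ t, Dec D b q x t →
    (∀ F, t F ≤ 1) → ∃ g ∈ D.N, g • q = q ∧ g • x ∈ A := by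
  obtain ⟨A, hA⟩ := H.face_bdd q
  refine ⟨(D.lf q (∑ F ∈ A.powerset, ∑ i, |D.e (b q F) i|)).toFinset, fun x hx t ht hle => ?_⟩
  have hxp := (D.X_sub q x hx).2
  obtain ⟨F, hF, hmax⟩ := Finset.exists_max_image t.support Finset.card (ht.nonempty hxp)
  obtain ⟨g, hg, hgq, hsub⟩ := hA F (ht.1 F hF).1
  refine ⟨g, hg, hgq, ?_⟩
  have h1 := H.dec_smul g ht
  have h2 := D.X_sub _ _ (D.smul_X g q x hx)
  rw [hgq] at h1 h2
  rw [Set.Finite.mem_toFinset]
  refine ⟨h2.1, fun i => ?_⟩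
  have h3 : (ta g t).support ⊆ A.powerset := by
    intro B hB
    rw [ta_support] at hB
    obtain ⟨B', hB', rfl⟩ := Finset.mem_image.1 hB
    have h4 : B' ⊆ F := by
      rcases ht.2.1.total hB' hF with h5 | h5
      · exact h5
      · exact (Finset.eq_of_subset_of_card_le h5 (hmax B' hB')).ge
    exact Finset.mem_powerset.2 ((Finset.image_subset_image h4).trans hsub)
  rw [abs_of_pos (h2.2 i), h1.2.2, Finsupp.sum, Finset.sum_apply]
  refine le_trans (Finset.sum_le_sum fun B hB => ?_) (Finset.sum_le_sum_of_subset_of_nonneg h3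
    fun B _ _ => Finset.sum_nonneg fun j _ => abs_nonneg _)
  have h6 := (H.mem q B (h1.1 B hB).1).2.1 i
  rw [Pi.smul_apply, smul_eq_mul]
  calc ta g t B * D.e (b q B) i ≤ D.e (b q B) i := mul_le_of_le_one_left h6.le (ta_le g hle B)
    _ ≤ |D.e (b q B) i| := le_abs_self _
    _ ≤ ∑ j, |D.e (b q B) j| := Finset.single_le_sum (f := fun j => |D.e (b q B) j|)
        (fun j _ => abs_nonneg _) (Finset.mem_univ i)

theorem Hyp.finite_C0 (H : Hyp D b) : (C0 D b).Finite := by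
  obtain ⟨T, hT⟩ := D.fin_Q
  choose A hA using H.point_bdd
  have h1 : {q : Q | ∃ q' ∈ T, ∃ x ∈ A q', D.o ∈ D.X q ∧ ∃ g ∈ D.N, g • q = q' ∧
      g • D.o = x}.Finite := by
    have : {q : Q | ∃ q' ∈ T, ∃ x ∈ A q', D.o ∈ D.X q ∧ ∃ g ∈ D.N, g • q = q' ∧ g • D.o = x} =
        ⋃ q' ∈ (T : Set Q), ⋃ x ∈ (A q' : Set V),
          {q : Q | D.o ∈ D.X q ∧ ∃ g ∈ D.N, g • q = q' ∧ g • D.o = x} := by
      ext q
      simp only [Set.mem_ofPred_eq, Set.mem_iUnion, Finset.mem_coe, exists_prop]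
    rw [this]
    refine T.finite_toSet.biUnion fun q' _ => (A q').finite_toSet.biUnion fun x _ => ?_
    refine Set.Subsingleton.finite ?_
    rintro q1 ⟨ho, g1, hg1, hq1, hx1⟩ q2 ⟨-, g2, hg2, hq2, hx2⟩
    have := free_eq hg1 hg2 (D.X_sub _ _ ho).2 (hx1.trans hx2.symm)
    subst this
    exact MulAction.injective g1 (hq1.trans hq2.symm)
  refine Set.Finite.of_finite_image (f := Prod.fst) (h1.subset ?_) ?_
  · rintro _ ⟨⟨q, U⟩, ⟨ho, t, ht, hle, -⟩, rfl⟩
    obtain ⟨g, hg, hgT⟩ := hT q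
    obtain ⟨g', hg', hq', hx⟩ := hA (g • q) _ (D.smul_X g q _ ho) _ (H.dec_smul g ht) (ta_le g hle)
    exact ⟨g • q, hgT, _, hx, ho, g' * g, mul_mem hg' hg, by rw [mul_smul, hq'], mul_smul _ _ _⟩
  · rintro ⟨q, U⟩ ⟨ho, t, ht, -, hU⟩ ⟨q', U'⟩ ⟨-, t', ht', -, hU'⟩ hq
    dsimp only at *
    subst hq
    rw [hU, hU', H.dec_eq (D.X_sub _ _ ho).2 ht ht']

theorem Hyp.cells (H : Hyp D b) : D.Cells H.finite_C0.toFinset := by
  refine ⟨fun c hc => ?_, fun q hq => ?_, fun g hg c hc => ?_, fun g hg c hc hq _ u hu => ?_⟩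
  · obtain ⟨ho, t, ht, -, hU⟩ := H.finite_C0.mem_toFinset.1 hc
    refine ⟨ho, fun u hu => ?_⟩
    rw [hU] at hu
    obtain ⟨F, hF, rfl⟩ := Finset.mem_image.1 hu
    exact H.mem _ F (ht.1 F hF).1
  · simp only [Set.Finite.mem_toFinset]
    obtain ⟨z, hz⟩ := H.exists_cell hq
    exact ⟨z, hz, fun z' hz' => H.unique_cell hq hz' hz⟩
  · obtain ⟨ho, t, ht, hle, hU⟩ := H.finite_C0.mem_toFinset.1 hc
    rw [Set.Finite.mem_toFinset]
    have h1 := H.dec_smul g ht
    have h2 := D.smul_X g _ _ ho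
    rw [D.Γ_o g hg] at h1 h2
    exact ⟨h2, ta g t, h1, ta_le g hle, by rw [hU]; exact (H.image_smul g ht).symm⟩
  · obtain ⟨ho, t, ht, -, hU⟩ := H.finite_C0.mem_toFinset.1 hc
    rw [hU] at hu
    obtain ⟨F, hF, rfl⟩ := Finset.mem_image.1 hu
    exact H.fixed g (D.X_sub _ _ ho).2 ht hq (D.Γ_o g hg) hF

end Pool.Agent.MP_f3cd89_nt.CellX

namespace Pool.Agent.MP_f3cd89_nt

theorem cell (hG : GEO_st) (hB : BARY_st) : CELL_st := by
  intro ι V G Q _ _ _ _ _ _ l _ D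
  obtain ⟨b, H⟩ := CellX.exists_hyp hG hB D
  exact ⟨_, H.cells⟩

end Pool.Agent.MP_f3cd89_nt

end

section

/-! Equivariant good barycentres. -/

set_option autoImplicit false

open Finset
open scoped Pointwise

namespace Pool.Agent.MP_f3cd89_nt

namespace BaryX

variable {ι V G Q : Type} [Fintype ι] [AddCommGroup V] [Group G] [DistribMulAction G V]
  [MulAction G Q] {l : ℕ} (D : Sh ι V G Q l)

/-- the good points -/
abbrev Pt (q : Q) : Set V := {v | v ∈ D.Λ q ∧ (∀ i, 0 < D.e v i) ∧ D.χ q v ≠ 0}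

theorem smul_mem (g : G) {q : Q} {v : V} (h : v ∈ Pt D q) : g • v ∈ Pt D (g • q) := by
  obtain ⟨τ, t, ht, he⟩ := D.mon g
  refine ⟨D.smul_Λ g q v h.1, fun i => ?_, ?_⟩
  · rw [he]
    exact mul_pos (ht i) (h.2.1 _)
  · rw [D.smul_χ g q v (D.Λ_le q h.1)]
    exact h.2.2

theorem chi_sum {α : Type} (q : Q) (s : Finset α) (f : α → V) (h : ∀ a ∈ s, f a ∈ D.M q) :
    D.χ q (∑ a ∈ s, f a) = ∑ a ∈ s, D.χ q (f a) := by
  classical
  induction s using Finset.induction_on with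
  | empty =>
    have := D.χ_add q 0 (zero_mem _) 0 (zero_mem _)
    rw [add_zero] at this
    simpa using this
  | insert a s ha ih =>
    have hs : ∀ a ∈ s, f a ∈ D.M q := fun a ha => h a (mem_insert_of_mem ha)
    rw [sum_insert ha, sum_insert ha, D.χ_add q _ (h a (mem_insert_self _ _)) _ (sum_mem hs), ih hs]

theorem chi_l (q : Q) {v : V} (h : v ∈ D.M q) : D.χ q (l • v) = 0 := by
  have := chi_sum D q (range l) (fun _ => v) fun _ _ => h
  simpa using this

variable [DecidableEq V]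

theorem face_smul (g : G) (q : Q) (F : Finset V) (h : Face D.e (Pt D q) F) :
    Face D.e (Pt D (g • q)) (F.image fun v => g • v) := by
  obtain ⟨hne, y, h1, h2⟩ := h
  obtain ⟨τ, t, ht, he⟩ := D.mon g
  have key : ∀ v, ∑ i, y (τ i) / t i * D.e (g • v) i = ∑ i, y i * D.e v i := fun v => by
    rw [← Equiv.sum_comp τ fun i => y i * D.e v i]
    refine sum_congr rfl fun i _ => ?_
    rw [he, ← mul_assoc, div_mul_cancel₀ _ (ht i).ne']
  have back : ∀ v, g • v ∈ Pt D (g • q) → v ∈ Pt D q := fun v hv => by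
    simpa only [inv_smul_smul] using smul_mem D g⁻¹ hv
  refine ⟨hne.image _, fun i => y (τ i) / t i, fun v hv => ?_, fun v => ?_⟩
  · obtain ⟨v, rfl⟩ := MulAction.surjective g v
    rw [key]
    exact h1 v (back v hv)
  · obtain ⟨v, rfl⟩ := MulAction.surjective g v
    rw [key, (MulAction.injective g).mem_finset_image, h2]
    exact and_congr_left' ⟨smul_mem D g, back v⟩

theorem smul_sum' (g : G) (F : Finset V) : ∑ v ∈ g • F, v = g • ∑ v ∈ F, v := by
  rw [smul_finset_def, sum_image (MulAction.injective g).injOn, smul_sum]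

theorem stab {y : Q × Finset V} (h : Face D.e (Pt D y.1) y.2) :
    Finite (MulAction.stabilizer G y) ∧ (Nat.card (MulAction.stabilizer G y)).Coprime l := by
  have := D.normal
  have := D.fin_Γ
  have h1 : Function.Surjective ((QuotientGroup.mk' D.N).comp D.Γ.subtype) := by
    intro x
    obtain ⟨g, rfl⟩ := QuotientGroup.mk_surjective x
    obtain ⟨n, hn, γ, hγ, rfl⟩ := D.dec g
    refine ⟨⟨γ, hγ⟩, ?_⟩
    rw [QuotientGroup.mk_mul, (QuotientGroup.eq_one_iff n).2 hn, one_mul]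
    rfl
  have h2 : Function.Injective
      ((QuotientGroup.mk' D.N).comp (MulAction.stabilizer G y).subtype) := by
    rw [injective_iff_map_eq_one]
    intro g hg
    refine Subtype.ext (D.free g ((QuotientGroup.eq_one_iff g.1).1 hg) (∑ v ∈ y.2, v)
      (fun i => ?_) ?_)
    · obtain ⟨hne, z, -, h3⟩ := h
      rw [map_sum, Finset.sum_apply]
      exact sum_pos (fun v hv => ((h3 v).1 hv).1.2.1 i) hne
    · rw [← smul_sum']
      exact congrArg (fun z : Q × Finset V => ∑ v ∈ z.2, v) g.2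
  have := Finite.of_surjective _ h1
  exact ⟨Finite.of_injective _ h2, D.cop.coprime_dvd_left
    ((Subgroup.card_dvd_of_injective _ h2).trans (Subgroup.card_dvd_of_surjective _ h1))⟩

variable (G) in
/-- a representative of the orbit -/
noncomputable def rep (y : Q × Finset V) : Q × Finset V :=
  (Quotient.mk (MulAction.orbitRel G (Q × Finset V)) y).out

theorem rep_smul (g : G) (y : Q × Finset V) : rep G (g • y) = rep G y :=
  congrArg Quotient.out (Quotient.sound (MulAction.mem_orbit y g))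

theorem exists_rep (y : Q × Finset V) : ∃ g : G, g • y = rep G y :=
  Quotient.mk_out (s := MulAction.orbitRel G (Q × Finset V)) y

end BaryX

open BaryX in
theorem bary : BARY_st := by
  intro ι V G Q _ _ _ _ _ _ _ l hl D
  classical
  refine ⟨face_smul D, ?_⟩
  let w : Finset V → V := fun F => if h : F.Nonempty then h.choose else 0
  have hw : ∀ F : Finset V, F.Nonempty → w F ∈ F := fun F h => by
    simp only [w, dif_pos h]
    exact h.choose_spec
  let T : Q × Finset V → Set G := fun y => {g | g • rep G y = y}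
  refine ⟨fun q F => l • ∑ v ∈ F, v + ∑ᶠ g ∈ T (q, F), g • w (rep G (q, F)).2,
    fun q F h => ?_⟩
  obtain ⟨k, hk⟩ := exists_rep (G := G) (q, F)
  have h0 : Face D.e (Pt D (rep G (q, F)).1) (rep G (q, F)).2 := hk ▸ face_smul D k q F h
  have hF : ∀ v ∈ F, v ∈ Pt D q := fun v hv => ((h.2.choose_spec.2 v).1 hv).1
  have hw0 := hw _ h0.1
  have hw1 := ((h0.2.choose_spec.2 _).1 hw0).1
  obtain ⟨s1, s2⟩ := stab D (y := (q, F)) h
  have e1 : T (q, F) = (fun g => g * k⁻¹) '' (MulAction.stabilizer G (q, F) : Set G) := by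
    ext g
    simp only [T, ← hk, Set.mem_ofPred_eq, Set.image_mul_right', Set.mem_preimage, smul_smul,
      SetLike.mem_coe, MulAction.mem_stabilizer_iff]
  have hT : (T (q, F)).Finite := e1 ▸ (Set.toFinite _).image _
  have hc : hT.toFinset.card = Nat.card (MulAction.stabilizer G (q, F)) := by
    rw [← Set.ncard_eq_toFinset_card _ hT, e1, Set.ncard_image_of_injective _ (mul_left_injective _)]
    rfl
  have hm : ∀ g ∈ hT.toFinset, g • w (rep G (q, F)).2 ∈ F := fun g hg => by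
    have h1 : g • (rep G (q, F)).2 = F := congrArg Prod.snd (hT.mem_toFinset.1 hg)
    have h2 := smul_mem_smul_finset (a := g) hw0
    rwa [h1] at h2
  have hS : ∑ v ∈ F, v ∈ D.Λ q := sum_mem fun v hv => (hF v hv).1
  have hS' : ∑ g ∈ hT.toFinset, g • w (rep G (q, F)).2 ∈ D.Λ q :=
    sum_mem fun g hg => (hF _ (hm g hg)).1
  beta_reduce
  refine ⟨?_, ?_, ⟨fun v => l + #{g ∈ hT.toFinset | g • w (rep G (q, F)).2 = v},
    fun v _ => Nat.add_pos_left hl.out.pos _, ?_⟩, fun g => ?_⟩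
  · rw [finsum_mem_eq_finite_toFinset_sum _ hT]
    exact add_mem (nsmul_mem hS _) hS'
  · rw [finsum_mem_eq_finite_toFinset_sum _ hT,
      D.χ_add q _ (D.Λ_le q (nsmul_mem hS _)) _ (D.Λ_le q hS'), chi_l D q (D.Λ_le q hS), zero_add,
      chi_sum D q _ _ fun g hg => D.Λ_le q (hF _ (hm g hg)).1,
      sum_congr rfl (g := fun _ => D.χ (rep G (q, F)).1 (w (rep G (q, F)).2)) fun g hg => ?_,
      sum_const, hc, nsmul_eq_mul]
    · refine mul_ne_zero ?_ hw1.2.2
      rw [Ne, ZMod.natCast_eq_zero_iff]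
      exact hl.out.coprime_iff_not_dvd.1 s2.symm
    · have h1 : g • (rep G (q, F)).1 = q := congrArg Prod.fst (hT.mem_toFinset.1 hg)
      have h2 := D.smul_χ g _ _ (D.Λ_le _ hw1.1)
      rwa [h1] at h2
  · rw [finsum_mem_eq_finite_toFinset_sum _ hT, ← sum_fiberwise_of_maps_to' hm fun v => v]
    simp only [sum_const, add_smul, sum_add_distrib, smul_sum]
  · have e2 : T (g • (q, F)) = (fun x => g * x) '' T (q, F) := by
      ext x
      simp only [T, rep_smul, Set.mem_ofPred_eq, Set.image_mul_left, Set.mem_preimage, mul_smul,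
        inv_smul_eq_iff]
    change l • ∑ v ∈ g • F, v + ∑ᶠ x ∈ T (g • (q, F)), x • w (rep G (g • (q, F))).2 = _
    rw [e2, rep_smul, smul_sum', finsum_mem_image (mul_right_injective g).injOn, smul_add,
      smul_comm g l, finsum_mem_eq_finite_toFinset_sum _ hT,
      finsum_mem_eq_finite_toFinset_sum _ hT]
    simp only [mul_smul, smul_sum]

end Pool.Agent.MP_f3cd89_nt

end

section

/-! The group of maps `v ↦ y * g v` and its action on pairs. -/

set_option autoImplicit false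
set_option linter.unusedSectionVars false

open Finset NumberField IsDedekindDomain

namespace Pool.Agent.MP_f3cd89_nt.InstX

/-- the maps `v ↦ y * g v` -/
@[ext] structure Af (F : Type) [Field F] where
  y : F
  g : F ≃+* F
  h : y ≠ 0

variable {F : Type} [Field F]

instance : Group (Af F) where
  mul a b := ⟨a.y * a.g b.y, a.g * b.g, mul_ne_zero a.h ((map_ne_zero _).2 b.h)⟩
  one := ⟨1, 1, one_ne_zero⟩
  inv a := ⟨(a.g⁻¹ a.y)⁻¹, a.g⁻¹, inv_ne_zero ((map_ne_zero _).2 a.h)⟩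
  mul_assoc a b c := Af.ext (by
    change a.y * a.g b.y * a.g (b.g c.y) = a.y * a.g (b.y * b.g c.y)
    rw [map_mul, mul_assoc]) (mul_assoc _ _ _)
  one_mul a := Af.ext (one_mul _) (one_mul _)
  mul_one a := Af.ext (by
    change a.y * a.g 1 = a.y
    rw [map_one, mul_one]) (mul_one _)
  inv_mul_cancel a := Af.ext (inv_mul_cancel₀ ((map_ne_zero _).2 a.h)) (inv_mul_cancel _)

theorem mul_y (a b : Af F) : (a * b).y = a.y * a.g b.y := rfl
theorem mul_g (a b : Af F) : (a * b).g = a.g * b.g := rfl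
theorem one_y : (1 : Af F).y = 1 := rfl
theorem one_g : (1 : Af F).g = 1 := rfl
theorem inv_y (a : Af F) : a⁻¹.y = (a.g⁻¹ a.y)⁻¹ := rfl
theorem inv_g (a : Af F) : a⁻¹.g = a.g⁻¹ := rfl

instance : DistribMulAction (Af F) F where
  smul a v := a.y * a.g v
  one_smul v := one_mul v
  mul_smul a b v := by
    change a.y * a.g b.y * a.g (b.g v) = a.y * a.g (b.y * b.g v)
    rw [map_mul, mul_assoc]
  smul_zero a := by
    change a.y * a.g 0 = 0
    rw [map_zero, mul_zero]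
  smul_add a v w := by
    change a.y * a.g (v + w) = a.y * a.g v + a.y * a.g w
    rw [map_add, mul_add]

theorem smul_def (a : Af F) (v : F) : a • v = a.y * a.g v := rfl

/-- the permutation of the real places -/
def tau (g : F ≃+* F) : Equiv.Perm (F →+* ℝ) where
  toFun φ := φ.comp g
  invFun φ := φ.comp g.symm
  left_inv φ := by ext x; simp
  right_inv φ := by ext x; simp

/-- the permutation of the primes -/
noncomputable def actE (g : F ≃+* F) : Pr F ≃ Pr F :=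
  HeightOneSpectrum.equivOfRingEquiv (RingOfIntegers.mapRingEquiv g)

theorem act_surj (g : F ≃+* F) : Function.Surjective (act g) := (actE g).surjective

theorem act_inj (g : F ≃+* F) : Function.Injective (act g) := (actE g).injective

theorem act_mul (g g' : F ≃+* F) (w : Pr F) : act (g * g') w = act g (act g' w) :=
  HeightOneSpectrum.ext (Ideal.ext fun _ => Iff.rfl)

theorem act_one (w : Pr F) : act (1 : F ≃+* F) w = w :=
  HeightOneSpectrum.ext (Ideal.ext fun _ => Iff.rfl)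

variable [NumberField F]

/-- the action on divisors -/
noncomputable def sD (a : Af F) (D : Pr F →₀ ℤ) : Pr F →₀ ℤ :=
  Finsupp.equivMapDomain (actE a.g) D - dv a.y

theorem sD_apply (a : Af F) (D : Pr F →₀ ℤ) (w : Pr F) :
    sD a D (act a.g w) = D w - ord (act a.g w) a.y := by
  rw [sD, Finsupp.sub_apply, Finsupp.equivMapDomain_apply, dv_apply]
  exact congrArg (fun u => D u - _) ((actE a.g).symm_apply_apply w)

theorem sD_one (D : Pr F →₀ ℤ) : sD 1 D = D := by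
  ext w
  have := sD_apply 1 D w
  rwa [one_g, act_one, one_y, ord_one, sub_zero] at this

theorem sD_mul (a b : Af F) (D : Pr F →₀ ℤ) : sD (a * b) D = sD a (sD b D) := by
  ext v
  obtain ⟨w, rfl⟩ := act_surj (a * b).g v
  rw [sD_apply, mul_g, act_mul, sD_apply, sD_apply, mul_y, ord_mul _ a.h ((map_ne_zero _).2 b.h),
    ord_act]
  ring

theorem sD_of_g {a : Af F} (h : a.g = 1) (D : Pr F →₀ ℤ) : sD a D = D - dv a.y := by
  ext w
  have := sD_apply a D w
  rwa [h, act_one] at this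

theorem key (a : Af F) (D : Pr F →₀ ℤ) {E E' : Pr F →₀ ℤ} (h : ∀ w, E' (act a.g w) = E w)
    (v : F) : a • v ∈ lat (-sD a D + E') ↔ v ∈ lat (-D + E) := by
  rw [mem_lat, mem_lat, (act_surj a.g).forall]
  refine forall_congr' fun w => ?_
  rw [smul_def, map_mul, val_act, val_eq_exp _ a.h, Finsupp.add_apply, Finsupp.neg_apply, sD_apply,
    h, show -(-(D w - ord (act a.g w) a.y) + E w) = -ord (act a.g w) a.y + -((-D + E) w) by
      rw [Finsupp.add_apply, Finsupp.neg_apply]; ring, WithZero.exp_add,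
    mul_le_mul_iff_right₀ WithZero.exp_pos]

theorem key0 (a : Af F) (D : Pr F →₀ ℤ) (v : F) : a • v ∈ lat (-sD a D) ↔ v ∈ lat (-D) := by
  simpa only [add_zero] using key a D (E := 0) (E' := 0) (fun _ => rfl) v

open Classical in
theorem ind_apply (C : Finset (Pr F)) (w : Pr F) : ind C w = if w ∈ C then 1 else 0 := by
  simp [ind, Finsupp.finsetSum_apply, Finsupp.single_apply]

theorem ind_act {C : Finset (Pr F)} {g : F ≃+* F} (h : ∀ w, act g w ∈ C ↔ w ∈ C) (w : Pr F) :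
    ind C (act g w) = ind C w := by
  rw [ind_apply, ind_apply]
  by_cases hw : w ∈ C
  · rw [if_pos hw, if_pos ((h w).2 hw)]
  · rw [if_neg hw, if_neg fun e => hw ((h w).1 e)]

theorem ind_nonneg (C : Finset (Pr F)) (w : Pr F) : 0 ≤ ind C w := by
  rw [ind_apply]
  split_ifs <;> simp

theorem lat_mono {D E : Pr F →₀ ℤ} (h : ∀ w, D w ≤ E w) : lat E ≤ lat D := fun _ hx w =>
  (hx w).trans (WithZero.exp_le_exp.2 (neg_le_neg (h w)))

theorem prim_smul {l : ℕ} {C : Finset (Pr F)} (a : Af F) (h : ∀ w, act a.g w ∈ C ↔ w ∈ C)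
    {D : Pr F →₀ ℤ} {χ : F → ZMod l} (hχ : IsPrim C D χ) :
    IsPrim C (sD a D) fun x => χ (a⁻¹ • x) := by
  refine ⟨fun x hx y hy => ?_, fun x hx => hχ.out _ fun h' => hx ?_, fun x hx => hχ.kill _ ?_,
    fun c hc => ?_⟩
  · rw [smul_add]
    exact hχ.add _ ((key0 a D _).1 (by rwa [smul_inv_smul])) _
      ((key0 a D _).1 (by rwa [smul_inv_smul]))
  · rw [← smul_inv_smul a x]
    exact (key0 a D _).2 h'
  · exact (key a D (ind_act h) _).1 (by rwa [smul_inv_smul])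
  · obtain ⟨c, rfl⟩ := act_surj a.g c
    obtain ⟨x, hx, h0⟩ := hχ.prim c ((h c).1 hc)
    refine ⟨a • x, ?_, by rwa [inv_smul_smul]⟩
    rw [add_sub_assoc] at hx ⊢
    refine (key a D (fun w => ?_) x).2 hx
    rw [Finsupp.sub_apply, Finsupp.sub_apply, ind_act h, Finsupp.single_apply_left (act_inj a.g)]

theorem ray_act {S : Finset (Pr F)} {N : ℕ} {g : F ≃+* F} (h : ∀ w, act g w ∈ S ↔ w ∈ S) {x : F}
    (hx : Ray S N x) : Ray S N (g x) := by
  refine ⟨(map_ne_zero _).2 hx.1, fun φ => hx.2.1 (tau g φ), fun v hv => ?_⟩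
  obtain ⟨w, rfl⟩ := act_surj g v
  rw [← map_one g, ← map_sub, val_act]
  exact hx.2.2 w ((h w).1 hv)

theorem ray_one (S : Finset (Pr F)) (N : ℕ) : Ray S N (1 : F) :=
  ⟨one_ne_zero, fun φ => by simp, fun v _ => by simp⟩

theorem nrm_ne (v : Pr F) : (nrm v : ℝ) ≠ 0 := by
  have := two_le_nrm v
  positivity

theorem nmD_pos (D : Pr F →₀ ℤ) : 0 < nmD D :=
  Finset.prod_pos fun v _ => zpow_pos (lt_of_le_of_ne (Nat.cast_nonneg _) (nrm_ne v).symm) _

theorem nmD_add (D E : Pr F →₀ ℤ) : nmD (D + E) = nmD D * nmD E :=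
  Finsupp.prod_add_index' (fun _ => zpow_zero _) fun v _ _ => zpow_add₀ (nrm_ne v) _ _

theorem nmD_sD (a : Af F) (D : Pr F →₀ ℤ) : nmD (sD a D) * nmD (dv a.y) = nmD D := by
  rw [← nmD_add, sD, sub_add_cancel, nmD, Finsupp.prod_equivMapDomain]
  exact Finset.prod_congr rfl fun v _ => congrArg (fun n : ℕ => (n : ℝ) ^ D v) (absNorm_act a.g v)

theorem chv_sD (ψ : Pr F → ℂˣ) (a : Af F) (D : Pr F →₀ ℤ) :
    chv ψ (sD a D) * chv ψ (dv a.y) = chv (fun w => ψ (act a.g w)) D := by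
  rw [← chv_add, sD, sub_add_cancel, chv, Finsupp.prod_equivMapDomain]
  rfl

/-- the data and hypotheses of the congruence -/
structure Dt (F : Type) [Field F] [NumberField F] where
  Γ : Subgroup (F ≃+* F)
  S : Finset (Pr F)
  C : Finset (Pr F)
  N : ℕ
  mul : ∀ x y, Ray S N x → Ray S N y → Ray S N (x * y)
  inv : ∀ x, Ray S N x → Ray S N x⁻¹
  off : ∀ x, Ray S N x → dv x ∈ off S
  hS : ∀ g ∈ Γ, ∀ w, act g w ∈ S ↔ w ∈ S
  hC : ∀ g ∈ Γ, ∀ w, act g w ∈ C ↔ w ∈ C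

variable (T : Dt F)

/-- the group -/
def Dt.G : Subgroup (Af F) where
  carrier := {a | Ray T.S T.N a.y ∧ a.g ∈ T.Γ}
  one_mem' := ⟨ray_one _ _, one_mem _⟩
  mul_mem' ha hb := ⟨T.mul _ _ ha.1 (ray_act (T.hS _ ha.2) hb.1), mul_mem ha.2 hb.2⟩
  inv_mem' ha := ⟨T.inv _ (ray_act (T.hS _ (inv_mem ha.2)) ha.1), inv_mem ha.2⟩

/-- the pairs -/
def Dt.Q (l : ℕ) : Type :=
  {q : (Pr F →₀ ℤ) × (F → ZMod l) // q.1 ∈ MP_f3cd89_nt.off T.S ∧ IsPrim T.C q.1 q.2}

variable {T} {l : ℕ}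

noncomputable instance : MulAction T.G (T.Q l) where
  smul a q := ⟨(sD a.1 q.1.1, fun x => q.1.2 (a.1⁻¹ • x)), fun v hv => by
    obtain ⟨w, rfl⟩ := act_surj a.1.g v
    rw [sD_apply, q.2.1 w ((T.hS _ a.2.2 w).1 hv), ← dv_apply, T.off _ a.2.1 _ hv, sub_zero],
    prim_smul a.1 (T.hC _ a.2.2) q.2.2⟩
  one_smul q := Subtype.ext (Prod.ext (sD_one _) (funext fun x => congrArg q.1.2 (by
    change (1 : Af F)⁻¹ • x = x
    rw [inv_one, one_smul])))
  mul_smul a b q := Subtype.ext (Prod.ext (sD_mul _ _ _) (funext fun x => congrArg q.1.2 (by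
    change (a.1 * b.1)⁻¹ • x = b.1⁻¹ • a.1⁻¹ • x
    rw [mul_inv_rev, mul_smul])))

theorem smul_fst (a : T.G) (q : T.Q l) : (a • q).1.1 = sD a.1 q.1.1 := rfl

theorem smul_snd (a : T.G) (q : T.Q l) (x : F) : (a • q).1.2 x = q.1.2 (a.1⁻¹ • x) := rfl

theorem smul_eq_iff (a : T.G) (q : T.Q l) :
    a • q = q ↔ sD a.1 q.1.1 = q.1.1 ∧ ∀ x, q.1.2 (a.1 • x) = q.1.2 x := by
  constructor
  · intro h
    refine ⟨congrArg (fun q : T.Q l => q.1.1) h, fun x => ?_⟩
    conv_lhs => rw [← h, smul_snd, inv_smul_smul]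
  · rintro ⟨h1, h2⟩
    refine Subtype.ext (Prod.ext h1 (funext fun x => ?_))
    rw [smul_snd, ← h2, smul_inv_smul]

variable (T)

/-- the multiplications -/
def Dt.NN : Subgroup T.G where
  carrier := {a | a.1.g = 1}
  one_mem' := rfl
  mul_mem' {a b} ha hb := by
    change a.1.g * b.1.g = 1
    rw [show a.1.g = 1 from ha, show b.1.g = 1 from hb, mul_one]
  inv_mem' {a} ha := by
    change a.1.g⁻¹ = 1
    rw [show a.1.g = 1 from ha, inv_one]

/-- the automorphisms -/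
def Dt.ΓΓ : Subgroup T.G where
  carrier := {a | a.1.y = 1}
  one_mem' := rfl
  mul_mem' {a b} ha hb := by
    change a.1.y * a.1.g b.1.y = 1
    rw [show a.1.y = 1 from ha, show b.1.y = 1 from hb, map_one, mul_one]
  inv_mem' {a} ha := by
    change (a.1.g⁻¹ a.1.y)⁻¹ = 1
    rw [show a.1.y = 1 from ha, map_one, inv_one]

/-- the identification of the automorphisms -/
def Dt.eΓ : T.Γ ≃ T.ΓΓ where
  toFun g := ⟨⟨⟨1, g, one_ne_zero⟩, ray_one _ _, g.2⟩, rfl⟩
  invFun a := ⟨a.1.1.g, a.1.2.2⟩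
  left_inv _ := rfl
  right_inv a := Subtype.ext (Subtype.ext (Af.ext (Eq.symm a.2) rfl))

/-- multiplication by an element of the ray -/
def Dt.mu {y : F} (h : Ray T.S T.N y) : T.G := ⟨⟨y, 1, h.1⟩, h, one_mem _⟩

theorem mu_mem {y : F} (h : Ray T.S T.N y) : T.mu h ∈ T.NN := rfl

theorem mu_smul {y : F} (h : Ray T.S T.N y) (v : F) : T.mu h • v = y * v := rfl

theorem NN_normal : T.NN.Normal := ⟨fun n hn g => by
  change g.1.g * n.1.g * g.1.g⁻¹ = 1
  rw [show n.1.g = 1 from hn, mul_one, mul_inv_cancel]⟩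

end Pool.Agent.MP_f3cd89_nt.InstX

end

section

/-! The congruence for sums over pairs, from the abstract congruence. -/

set_option autoImplicit false
set_option linter.unusedSectionVars false

open Finset NumberField IsDedekindDomain

namespace Pool.Agent.MP_f3cd89_nt

namespace InstX

variable {F : Type} [Field F] [NumberField F] {l : ℕ}

theorem prim_zero {C : Finset (Pr F)} {D : Pr F →₀ ℤ} {χ : F → ZMod l} (hχ : IsPrim C D χ)
    {x z : F} (hx : x ∈ lat (-D)) (hz : z ∈ lat (-D + ind C)) : χ (x + z) = χ x := by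
  rw [hχ.add x hx z (lat_mono (fun w => by simp [ind_nonneg]) hz), hχ.kill z hz, add_zero]

theorem prim_unit {C : Finset (Pr F)} {D : Pr F →₀ ℤ} {χ : F → ZMod l} (hχ : IsPrim C D χ)
    {N : ℕ} (hN : 0 < N) {u : F} (h0 : u ≠ 0) (hu : Cong C N u) (hd : dv u = 0) (x : F) :
    χ (u * x) = χ x := by
  have h1 : ∀ w : Pr F, w.valuation F u = 1 := fun w =>
    (val_eq_one_iff w h0).2 (by rw [← dv_apply, hd]; rfl)
  by_cases hx : x ∈ lat (-D)
  · rw [show u * x = x + (u - 1) * x by ring]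
    refine prim_zero hχ hx fun w => ?_
    rw [map_mul, Finsupp.add_apply, neg_add, WithZero.exp_add, mul_comm]
    refine mul_le_mul' (hx w) ?_
    rw [ind_apply]
    split_ifs with hw
    · exact (hu w hw).trans (WithZero.exp_le_exp.2 (by omega))
    · rw [neg_zero, WithZero.exp_zero]
      exact Valuation.map_sub_le _ (h1 w).le (map_one _).le
  · rw [hχ.out x hx, hχ.out]
    intro h
    exact hx fun w => by simpa only [map_mul, h1, one_mul] using h w

theorem exists_pos (hB : NTB_st) (E : Pr F →₀ ℤ) : ∃ w ∈ lat E, TPos w := by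
  obtain ⟨x, -, h1, h2, h3⟩ := (hB F).1 E.support 0 (-∑ v ∈ E.support, |E v|)
  refine ⟨x, fun v => ?_, h1⟩
  by_cases hv : v ∈ E.support
  · have := h2 v hv
    rw [Pi.zero_apply, sub_zero] at this
    exact this.trans (WithZero.exp_le_exp.2 (neg_le_neg ((le_abs_self _).trans
      (Finset.single_le_sum (f := fun v => |E v|) (fun _ _ => abs_nonneg _) hv))))
  · rw [Finsupp.notMem_support_iff.1 hv, neg_zero, WithZero.exp_zero]
    exact h3 v hv

theorem exists_nat (v : F) {w : F} (hw : TPos w) : ∃ K : ℕ, TPos (v + K • w) := by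
  choose K hK using fun φ : F →+* ℝ => exists_nat_gt (-φ v / φ w)
  refine ⟨Finset.univ.sup K, fun φ => ?_⟩
  have h1 : (K φ : ℝ) ≤ (Finset.univ.sup K : ℕ) := Nat.cast_le.2 (Finset.le_sup (Finset.mem_univ φ))
  have h2 := (div_lt_iff₀ (hw φ)).1 ((hK φ).trans_le h1)
  rw [map_add, map_nsmul, nsmul_eq_mul]
  linarith

theorem good (hB : NTB_st) (hC : NTC_st) {S C : Finset (Pr F)} (N : ℕ) (hd : Disjoint S C)
    (hne : C.Nonempty) {D : Pr F →₀ ℤ} {χ : F → ZMod l} (hχ : IsPrim C D χ) :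
    ∃ v ∈ lat (-D + N • ind S), TPos v ∧ χ v ≠ 0 := by
  classical
  have hp : ∀ w, 0 ≤ (N • ind S) w := fun w => nsmul_nonneg (ind_nonneg S w) N
  obtain ⟨c, hc⟩ := hne
  obtain ⟨x, hx, h0⟩ := hχ.prim c hc
  have h1 : x ∈ lat (-D + N • ind S) ⊔ lat (-D + ind C) := by
    rw [(hC F).2.1]
    refine lat_mono (fun w => ?_) hx
    rw [Finsupp.inf_apply]
    simp only [Finsupp.add_apply, Finsupp.sub_apply, Finsupp.smul_apply, ind_apply,
      Finsupp.single_apply]
    by_cases hw : w ∈ C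
    · rw [if_neg (Finset.disjoint_right.1 hd hw), if_pos hw]
      refine (min_le_left _ _).trans ?_
      split_ifs <;> simp
    · rw [if_neg hw, if_neg fun e : c = w => hw (e ▸ hc)]
      simp
  obtain ⟨v, hv, z, hz, rfl⟩ := AddSubgroup.mem_sup.1 h1
  have hv' : v ∈ lat (-D) := lat_mono (fun w => by simpa using hp w) hv
  obtain ⟨w, hw, hw'⟩ := exists_pos hB (-D + N • ind S + ind C)
  obtain ⟨K, hK⟩ := exists_nat v hw'
  refine ⟨v + K • w, add_mem hv (nsmul_mem (lat_mono (fun u => by simp [ind_nonneg]) hw) K), hK, ?_⟩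
  rw [prim_zero hχ hv' hz] at h0
  rwa [prim_zero hχ hv' (nsmul_mem (lat_mono (fun u => by simpa using hp u) hw) K)]

theorem prod_tau (g : F ≃+* F) (x : F) : ∏ φ : F →+* ℝ, φ (g x) = ∏ φ : F →+* ℝ, φ x :=
  Equiv.prod_comp (tau g) fun φ => φ x

theorem nmD_dv [IsTotallyReal F] (hA : NTA_st) {y : F} (h0 : y ≠ 0) (h : TPos y) :
    nmD (dv y) = ∏ φ : F →+* ℝ, φ y := by
  rw [(hA F).2.2.2.1 y h0]
  exact Finset.prod_congr rfl fun φ _ => abs_of_pos (h φ)

/-- the data for the abstract congruence -/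
noncomputable def sh [IsTotallyReal F] [Fact l.Prime] (hA : NTA_st) (hB : NTB_st) (hC : NTC_st)
    (hX : CHAR_st) (T : Dt F) [Finite T.Γ] (hN : 0 < T.N) (hd : Disjoint T.S T.C)
    (hne : T.C.Nonempty) (hl : ∀ c ∈ T.C, (l : 𝓞 F) ∈ c.asIdeal)
    (hc : (Nat.card T.Γ).Coprime l) : Sh (F →+* ℝ) F T.G (T.Q l) l where
  e := AddMonoidHom.mk' (fun x φ => φ x) fun x y => funext fun φ => map_add φ x y
  e_inj x y h := by
    obtain ⟨φ⟩ := (hA F).1
    exact φ.injective (congrFun h φ)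
  mon a := ⟨tau a.1.g, fun φ => φ a.1.y, a.2.1.2.1, fun v φ => map_mul φ _ _⟩
  M q := lat (-q.1.1)
  Λ q := lat (-q.1.1 + T.N • ind T.S)
  X q := {x | x ∈ lat (-q.1.1) ∧ Ray T.S T.N x}
  χ q := q.1.2
  nm q := nmD q.1.1
  N := T.NN
  Γ := T.ΓΓ
  o := 1
  Λ_le q := lat_mono fun w => by simpa using nsmul_nonneg (ind_nonneg T.S w) T.N
  X_sub q x hx := ⟨hx.1, hx.2.2.1⟩
  X_add q x hx v hv h := by
    refine ⟨add_mem hx.1 (lat_mono (fun w => by
      simpa using nsmul_nonneg (ind_nonneg T.S w) T.N) hv), fun e => ?_, h, fun w hw => ?_⟩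
    · obtain ⟨φ⟩ := (hA F).1
      have h1 : 0 < φ (x + v) := h φ
      rw [e, map_zero] at h1
      exact lt_irrefl _ h1
    · rw [add_sub_right_comm]
      refine Valuation.map_add_le _ (hx.2.2.2 w hw) ((hv w).trans_eq ?_)
      simp [q.2.1 w hw, ind_apply, hw]
  χ_add q := q.2.2.add
  smul_M a q v hv := (key0 a.1 _ v).2 hv
  smul_Λ a q v hv := (key a.1 _ (fun w => by
    rw [Finsupp.smul_apply, Finsupp.smul_apply, ind_act (T.hS _ a.2.2)]) v).2 hv
  smul_X a q v hv := ⟨(key0 a.1 _ v).2 hv.1, T.mul _ _ a.2.1 (ray_act (T.hS _ a.2.2) hv.2)⟩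
  smul_χ a q v _ := congrArg q.1.2 (inv_smul_smul a.1 v)
  nm_pos q := nmD_pos _
  smul_nm a q x _ := by
    change nmD (sD a.1 q.1.1) * ∏ φ : F →+* ℝ, φ (a.1.y * a.1.g x) =
      nmD q.1.1 * ∏ φ : F →+* ℝ, φ x
    simp only [map_mul, Finset.prod_mul_distrib]
    rw [prod_tau, ← nmD_dv hA a.1.h a.2.1.2.1, ← mul_assoc, nmD_sD]
  fin_Γ := Finite.of_equiv _ T.eΓ
  cop := Nat.card_congr T.eΓ ▸ hc
  Γ_o a ha := by
    change a.1.y * a.1.g 1 = 1
    rw [show a.1.y = 1 from ha, map_one, mul_one]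
  normal := NN_normal T
  dec a := ⟨T.mu a.2.1, rfl, (T.eΓ ⟨a.1.g, a.2.2⟩).1, (T.eΓ _).2,
    Subtype.ext (Af.ext (mul_one _).symm (one_mul _).symm)⟩
  free a ha v hv h := by
    obtain ⟨φ⟩ := (hA F).1
    have h1 : 0 < φ v := hv φ
    have h2 : a.1.y * a.1.g v = v := h
    rw [show a.1.g = 1 from ha] at h2
    exact Subtype.ext (Af.ext ((mul_eq_right₀ fun e => by
      rw [show v = 0 from e, map_zero] at h1
      exact lt_irrefl _ h1).1 h2) ha)
  trans q x hx := ⟨T.mu (T.inv x hx.2), rfl, inv_mul_cancel₀ hx.2.1⟩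
  fin_Q := by
    obtain ⟨T₀, h⟩ := (hB F).2.1 T.S T.N
    have h1 : {q : T.Q l | q.1.1 ∈ T₀}.Finite := by
      refine Set.Finite.of_finite_image (f := Subtype.val) ((T₀.finite_toSet.biUnion fun D _ =>
        (hX F l T.C D hl).1.image fun χ => (D, χ)).subset ?_) Subtype.val_injective.injOn
      rintro _ ⟨q, hq, rfl⟩
      exact Set.mem_biUnion hq ⟨q.1.2, q.2.2, rfl⟩
    refine ⟨h1.toFinset, fun q => ?_⟩
    obtain ⟨x, hx, h2⟩ := h q.1.1 q.2.1
    refine ⟨T.mu hx, rfl, h1.mem_toFinset.2 ?_⟩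
    change sD _ _ ∈ T₀
    rwa [sD_of_g rfl]
  lf q C := (hA F).2.1 _ C
  unit q := by
    classical
    obtain ⟨R, h⟩ := (hA F).2.2.1 (T.S ∪ T.C) T.N
    refine ⟨R, fun y hy => ?_⟩
    obtain ⟨u, hu, h0, h1⟩ := h y hy
    have hu' : Ray T.S T.N u := ⟨hu.1, hu.2.1, fun v hv => hu.2.2 v (Finset.mem_union_left _ hv)⟩
    refine ⟨T.mu hu', rfl, (smul_eq_iff _ _).2 ⟨?_, prim_unit q.2.2 hN hu.1
      (fun v hv => hu.2.2 v (Finset.mem_union_right _ hv)) h0⟩, fun φ => φ u, hu.2.1, ?_,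
      fun v φ => map_mul φ _ _, h1⟩
    · rw [sD_of_g rfl]
      exact sub_eq_self.2 h0
    · rw [← nmD_dv hA hu.1 hu.2.1, h0]
      exact Finsupp.prod_zero_index
  good q := good hB hC T.N hd hne q.2.2

theorem one_mem_lat (D : Pr F →₀ ℤ) : (1 : F) ∈ lat (-D) ↔ 0 ≤ D :=
  forall_congr' fun w => by
    rw [map_one, ← WithZero.exp_zero, WithZero.exp_le_exp, Finsupp.neg_apply, neg_neg]
    rfl

/-- the pairs with an integral ideal -/
def eP (T : Dt F) (l : ℕ) :
    Pair l T.S T.C ≃ {q : T.Q l // (1 : F) ∈ {x | x ∈ lat (-q.1.1) ∧ Ray T.S T.N x}} where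
  toFun q := ⟨⟨q.1, q.2.2⟩, (one_mem_lat _).2 q.2.1, ray_one _ _⟩
  invFun q := ⟨q.1.1, (one_mem_lat _).1 q.2.1, q.1.2⟩
  left_inv _ := rfl
  right_inv _ := rfl

theorem fix_iff (T : Dt F) (q : T.Q l) : (∃ a ∈ T.ΓΓ, a ≠ 1 ∧ a • q = q) ↔
    ∃ g ∈ T.Γ, g ≠ 1 ∧ (∀ w, q.1.1 (act g w) = q.1.1 w) ∧ ∀ x, q.1.2 (g x) = q.1.2 x := by
  have key : ∀ a ∈ T.ΓΓ, a • q = q ↔
      (∀ w, q.1.1 (act a.1.g w) = q.1.1 w) ∧ ∀ x, q.1.2 (a.1.g x) = q.1.2 x := fun a ha => by
    have ha' : a.1.y = 1 := ha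
    rw [smul_eq_iff, Finsupp.ext_iff, (act_surj a.1.g).forall]
    simp only [sD_apply, smul_def, ha', ord_one, sub_zero, one_mul, eq_comm]
  constructor
  · rintro ⟨a, ha, h1, h2⟩
    exact ⟨a.1.g, a.2.2, fun e => h1 (Subtype.ext (Af.ext ha e)), (key a ha).1 h2⟩
  · rintro ⟨g, hg, h1, h2⟩
    exact ⟨(T.eΓ ⟨g, hg⟩).1, (T.eΓ _).2, fun e => h1 (congrArg (fun a : T.G => a.1.g) e),
      (key _ (T.eΓ _).2).2 h2⟩

end InstX

open InstX in
theorem scg (hS : SH_st) (hA : NTA_st) (hB : NTB_st) (hC : NTC_st) (hX : CHAR_st) : SCG_st := by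
  intro F _ _ _ Γ _ l _ S C N hN hd hne hl hc h1 h2
  classical
  obtain ⟨a1, a2, a3⟩ := (hB F).2.2.2.1 S N hN
  let T : Dt F := ⟨Γ, S, C, N, a1, a2, a3, h1, h2⟩
  have := (hA F).1
  obtain ⟨k, Z, hZ⟩ := hS _ _ _ _ l (sh hA hB hC hX T hN hd hne hl hc)
  refine ⟨k, fun r => (Z r).mapDomain fun q => q.1.1, fun r D hD => ?_, fun ψ hψ ζ hζ => ?_⟩
  · obtain ⟨q, -, rfl⟩ := Finset.mem_image.1 (Finsupp.mapDomain_support hD)
    exact q.2.1
  obtain ⟨f, f', σ₀, b1, b2, b3, b4⟩ := hZ (fun q => (chv ψ q.1.1 : ℂˣ)) (fun a ha q => by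
    rw [smul_fst, sD_of_g ha, sub_eq_add_neg, chv_add, chv_neg, hψ _ a.2.1, inv_one, mul_one]) ζ hζ
  have e1 : ∀ q : T.Q l, (sh hA hB hC hX T hN hd hne hl hc).nm q *
      ∏ i, (sh hA hB hC hX T hN hd hne hl hc).e (sh hA hB hC hX T hN hd hne hl hc).o i =
        nmD q.1.1 := fun q => by
    change nmD q.1.1 * ∏ φ : F →+* ℝ, φ 1 = _
    simp
  simp only [e1] at b3
  refine ⟨f, f', σ₀, b1, b2, fun s hs => ⟨(eP T l).hasSum_iff.2 (b3 s hs).1, ?_⟩, b4.trans ?_⟩
  · convert (eP T l).hasSum_iff.2 (b3 s hs).2 using 2 with q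
    exact if_congr (fix_iff T (eP T l q).1).symm rfl rfl
  · refine Finset.sum_congr rfl fun r _ => congrArg _ ?_
    rw [Finsupp.sum_mapDomain_index (by simp) (fun _ _ _ => by push_cast; ring)]
    refine Finsupp.sum_congr fun q _ => congrArg _ ?_
    refine (finsum_comp_equiv T.eΓ).symm.trans (finsum_congr fun g => ?_)
    have := chv_sD ψ (T.eΓ g).1.1 q.1.1
    rw [show (T.eΓ g).1.1.y = 1 from rfl, dv_one, chv_zero, mul_one] at this
    exact congrArg Units.val this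

end Pool.Agent.MP_f3cd89_nt

end

section

/-! Continuation, integrality and congruences of smoothed L-values. -/

set_option autoImplicit false

open Finset NumberField IsDedekindDomain

namespace Pool.Agent.MP_f3cd89_nt

namespace ScX

theorem ident {f g : ℂ → ℂ} (hf : Differentiable ℂ f) (hg : Differentiable ℂ g) (σ : ℝ)
    (h : ∀ s : ℂ, σ < s.re → f s = g s) : f = g := by
  refine AnalyticOnNhd.eq_of_eventuallyEq (z₀ := ((σ + 1 : ℝ) : ℂ))
    (hf.differentiableOn.analyticOnNhd isOpen_univ)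
    (hg.differentiableOn.analyticOnNhd isOpen_univ) ?_
  exact Filter.eventually_of_mem ((isOpen_lt continuous_const Complex.continuous_re).mem_nhds
    (show σ < ((σ + 1 : ℝ) : ℂ).re by simp)) h

theorem sm_uniq {F : Type} [Field F] [NumberField F] {S C : Finset (Pr F)} {ψ : Pr F → ℂˣ}
    {f g : ℂ → ℂ} (hf : Sm S C ψ f) (hg : Sm S C ψ g) : f = g :=
  ident hf.1 hg.1 1 fun s hs => by
    obtain ⟨L, h1, h2⟩ := hf.2 s hs
    obtain ⟨L', h1', h2'⟩ := hg.2 s hs
    rw [h2, h2', h1.unique h1']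

theorem fourier {l : ℕ} [Fact l.Prime] {Λ : ℂ} {β : ZMod l → ℂ}
    (h : ∀ ζ : ℂ, IsPrimitiveRoot ζ l → Λ = ∑ r : ZMod l, ζ ^ r.val * β r) : Λ = β 0 - β 1 := by
  have hl : l.Prime := Fact.out
  have hζ := Complex.isPrimitiveRoot_exp l hl.ne_zero
  generalize Complex.exp (2 * Real.pi * Complex.I / l) = ζ at hζ
  let ψ : AddChar (ZMod l) ℂ := AddChar.zmodChar l hζ.pow_eq_one
  have hψ : ψ.IsPrimitive := AddChar.zmodChar_primitive_of_primitive_root l hζ
  have h1 : ∀ a : ZMod l, Λ * (1 - ψ (a * -1)) =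
      ∑ r, β r * (ψ (a * r) - ψ (a * (r - 1))) := fun a => by
    rcases eq_or_ne a 0 with rfl | ha
    · simp
    have hc : a.val.Coprime l := (Nat.coprime_of_lt_prime
      (fun e => ha ((ZMod.val_eq_zero a).1 e)) (ZMod.val_lt a) hl).symm
    rw [h _ (hζ.pow_of_coprime _ hc), Finset.sum_mul]
    refine Finset.sum_congr rfl fun r _ => ?_
    have e1 : (ζ ^ a.val) ^ r.val = ψ (a * r) := by
      rw [← pow_mul, ← AddChar.zmodChar_apply' hζ.pow_eq_one, Nat.cast_mul, ZMod.natCast_zmod_val,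
        ZMod.natCast_zmod_val]
    rw [e1, show a * (r - 1) = a * r + a * -1 by ring, AddChar.map_add_eq_mul]
    ring
  have h2 := Finset.sum_congr rfl fun a (_ : a ∈ univ) => h1 a
  rw [← Finset.mul_sum, Finset.sum_comm, Finset.sum_sub_distrib, AddChar.sum_mulShift _ hψ,
    if_neg (neg_ne_zero.2 one_ne_zero)] at h2
  simp only [← Finset.mul_sum, Finset.sum_sub_distrib, AddChar.sum_mulShift _ hψ] at h2
  simp only [Finset.sum_sub_distrib, mul_sub,
    sub_eq_zero, Nat.cast_ite, mul_ite, Nat.cast_zero, mul_zero, Finset.sum_ite_eq', mem_univ,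
    if_true, Finset.sum_const, card_univ, nsmul_eq_mul, mul_one, sub_zero, ZMod.card] at h2
  refine mul_right_cancel₀ (Nat.cast_ne_zero.2 hl.ne_zero : (l : ℂ) ≠ 0) ?_
  rw [h2, sub_mul]

theorem sum_sub {α : Type} (Z Z' : α →₀ ℤ) (h : α → ℂ) :
    ((Z - Z').sum fun D z => (z : ℂ) * h D) =
      (Z.sum fun D z => (z : ℂ) * h D) - Z'.sum fun D z => (z : ℂ) * h D :=
  Finsupp.sum_sub_index fun _ _ _ => by push_cast; ring

theorem supp_sub {α : Type} {Z Z' : α →₀ ℤ} {D : α} (h : D ∈ (Z - Z').support) :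
    D ∈ Z.support ∨ D ∈ Z'.support := by
  classical
  exact Finset.mem_union.1 (Finsupp.support_sub h)

variable {F : Type} [Field F]

theorem act_one (w : Pr F) : act (1 : F ≃+* F) w = w := by
  ext a
  exact Iff.rfl

theorem act_mul (g h : F ≃+* F) (w : Pr F) : act (g * h) w = act g (act h w) := by
  ext a
  exact Iff.rfl

theorem act_pow {α : Sort _} {g : F ≃+* F} {D : Pr F → α} (h : ∀ w, D (act g w) = D w) (m : ℕ)
    (w : Pr F) : D (act (g ^ m) w) = D w := by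
  induction m with
  | zero => rw [pow_zero, act_one]
  | succ m ih => rw [pow_succ', act_mul, h, ih]

theorem app_pow {α : Type} {g : F ≃+* F} {χ : F → α} (h : ∀ x, χ (g x) = χ x) (m : ℕ) (x : F) :
    χ ((g ^ m) x) = χ x := by
  induction m with
  | zero => rfl
  | succ m ih => rw [pow_succ']; exact (h _).trans ih

theorem exists_pow {G : Type} [Group G] {γ : G} {p j : ℕ} (hp : p.Prime)
    (ho : orderOf γ = p ^ (j + 1)) {n : ℕ} (hn : γ ^ n ≠ 1) : ∃ m, (γ ^ n) ^ m = γ ^ p ^ j := by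
  obtain ⟨a, u, hu, rfl⟩ := Nat.exists_eq_pow_mul_and_not_dvd
    (n := n) (fun e => hn (by rw [e, pow_zero])) p hp.ne_one
  have ha : a ≤ j := by
    by_contra h
    refine hn (orderOf_dvd_iff_pow_eq_one.1 ?_)
    rw [ho]
    exact (pow_dvd_pow p (not_le.1 h)).mul_right u
  obtain ⟨v, hv⟩ := exists_pow_eq_self_of_coprime (x := γ) (n := u) (by
    rw [ho]
    exact (Nat.Coprime.pow_left _ ((Nat.Prime.coprime_iff_not_dvd hp).2 hu)).symm)
  refine ⟨v * p ^ (j - a), ?_⟩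
  conv_rhs => rw [← hv]
  rw [← pow_mul, ← pow_mul, ← pow_mul]
  congr 1
  obtain ⟨b, rfl⟩ := Nat.exists_eq_add_of_le ha
  rw [Nat.add_sub_cancel_left]
  ring

theorem finsum_zpowers {G : Type} [Group G] {γ : G} (hγ : IsOfFinOrder γ) (h : G → ℂ) :
    ∑ᶠ g : Subgroup.zpowers γ, h g.1 = ∑ t ∈ range (orderOf γ), h (γ ^ t) := by
  rw [← finsum_comp_equiv (finEquivZPowers hγ), finsum_eq_sum_of_fintype,
    ← Fin.sum_univ_eq_sum_range (fun t => h (γ ^ t))]
  exact Finset.sum_congr rfl fun i _ => by rw [finEquivZPowers_apply]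

theorem nmD_nonneg [NumberField F] (D : Pr F →₀ ℤ) : 0 ≤ nmD D :=
  Finset.prod_nonneg fun _ _ => zpow_nonneg (Nat.cast_nonneg _) _

theorem cpow_pow {x : ℝ} (hx : 0 ≤ x) (p : ℕ) (s : ℂ) :
    ((x ^ p : ℝ) : ℂ) ^ (-s) = (x : ℂ) ^ (-(p * s)) := by
  rw [← mul_neg, Complex.cpow_nat_mul', Complex.ofReal_pow]
  · rw [Complex.arg_ofReal_of_nonneg hx, mul_zero]
    exact neg_lt_zero.2 Real.pi_pos
  · rw [Complex.arg_ofReal_of_nonneg hx, mul_zero]
    exact Real.pi_pos.le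

end ScX

open ScX

theorem sca (hG : SCG_st) (hE : EUL_st) (hB : NTB_st) : SCA_st := by
  intro F _ _ _ l S C N hl hN hd hC hlc
  have := Fact.mk hl
  obtain ⟨k, Z, hZ, H⟩ := hG F ⊥ l S C N hN hd hC hlc (by simp)
    (fun g hg w => by rw [Subgroup.mem_bot.1 hg, act_one])
    (fun g hg w => by rw [Subgroup.mem_bot.1 hg, act_one])
  refine ⟨k, Z 0 - Z 1, fun D hD => (supp_sub hD).elim (hZ 0 D) (hZ 1 D), fun ψ hψ => ?_⟩
  have hn := (hB F).2.2.2.2 S N ψ hψ
  have key : ∀ ζ : ℂ, IsPrimitiveRoot ζ l → ∃ f, Sm S C ψ f ∧ (l : ℂ) ^ k * f 0 =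
      ∑ r : ZMod l, ζ ^ r.val * (Z r).sum fun D z => (z : ℂ) * ((chv ψ D : ℂˣ) : ℂ) := by
    intro ζ hζ
    obtain ⟨f, f', σ₀, hf, hf', hs, he⟩ := H ψ hψ ζ hζ
    refine ⟨f, (hE F l S C ψ ζ hd hlc hn hζ).1 f σ₀ hf fun s h => (hs s h).1, ?_⟩
    have h0 : f' = fun _ => 0 := ident hf' (differentiable_const _) σ₀ fun s h => by
      refine (hs s h).2.unique ?_
      rw [funext fun q => if_neg fun ⟨g, hg, h1, _⟩ => h1 (Subgroup.mem_bot.1 hg)]
      exact hasSum_zero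
    rw [h0, sub_zero] at he
    rw [he]
    refine Finset.sum_congr rfl fun r _ => congrArg _ (Finsupp.sum_congr fun D _ => ?_)
    rw [finsum_unique]
    exact congrArg (fun φ : Pr F → ℂˣ => ((Z r D : ℤ) : ℂ) * ((chv φ D : ℂˣ) : ℂ))
      (funext fun w => congrArg ψ (act_one w))
  obtain ⟨f, hf, -⟩ := key _ (Complex.isPrimitiveRoot_exp l hl.ne_zero)
  refine ⟨f, hf, ?_⟩
  rw [sum_sub]
  refine fourier (β := fun r => (Z r).sum fun D z => (z : ℂ) * ((chv ψ D : ℂˣ) : ℂ)) fun ζ hζ => ?_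
  obtain ⟨g, hg, he⟩ := key ζ hζ
  rw [sm_uniq hf hg, he]

theorem scb (hG : SCG_st) (hE : EUL_st) (hB : NTB_st) (hF : FIX_st) : SCB_st := by
  intro F₁ F _ _ _ _ _ _ p j γ S₁ C₁ l N hR hl hlp hN hd hC hlc hS hCs
  have := Fact.mk hl
  have hp := hR.prime
  have := Fact.mk hp
  have hρ : γ ^ p ^ j ≠ 1 := fun e => hp.ne_one (by rw [← hR.ord_eq, e, orderOf_one])
  have ho : orderOf γ = p ^ (j + 1) := orderOf_eq_prime_pow hρ (by
    rw [pow_succ, pow_mul]
    exact orderOf_dvd_iff_pow_eq_one.1 hR.ord_eq.dvd)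
  have hγ : IsOfFinOrder γ := orderOf_pos_iff.1 (ho ▸ pow_pos hp.pos _)
  have hfin : Finite (Subgroup.zpowers γ) := hγ.finite_zpowers
  have hmem : ∀ g ∈ Subgroup.zpowers γ, ∃ n : ℕ, γ ^ n = g := fun g hg =>
    hγ.mem_powers_iff_mem_zpowers.2 hg
  have hd' : Disjoint (above F S₁) (above F C₁) := Finset.disjoint_left.2 fun w h1 h2 =>
    Finset.disjoint_left.1 hd (mem_above.1 h1) (mem_above.1 h2)
  have hlc' : ∀ c ∈ above F C₁, (l : 𝓞 F) ∈ c.asIdeal := fun c hc => by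
    have := hlc _ (mem_above.1 hc)
    rw [← map_natCast (algebraMap (𝓞 F₁) (𝓞 F))]
    exact this
  have hst : ∀ T : Finset (Pr F), (∀ w, act γ w ∈ T ↔ w ∈ T) →
      ∀ g ∈ Subgroup.zpowers γ, ∀ w, act g w ∈ T ↔ w ∈ T := fun T hT g hg w => by
    obtain ⟨n, rfl⟩ := hmem g hg
    exact iff_of_eq (act_pow (D := fun w => w ∈ T) (fun w => propext (hT w)) n w)
  obtain ⟨k, Z, hZ, H⟩ := hG F (Subgroup.zpowers γ) l (above F S₁) (above F C₁) N hN hd' (by
      obtain ⟨c, hc⟩ := hC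
      obtain ⟨w, rfl⟩ := under_surj (E' := F) c
      exact ⟨w, mem_above.2 hc⟩) hlc' (by
      rw [Nat.card_zpowers, ho]
      exact ((Nat.coprime_primes hp hl).2 hlp.symm).pow_left _) (hst _ hS) (hst _ hCs)
  refine ⟨k, Z 0 - Z 1, fun D hD => (supp_sub hD).elim (hZ 0 D) (hZ 1 D),
    fun ψ hψ f f₁ hf hf₁ => ?_⟩
  have hn := (hB F).2.2.2.2 _ N ψ hψ
  have hn₁ : ∀ v, v ∉ S₁ → ‖((∏ w ∈ above F {v}, ψ w : ℂˣ) : ℂ)‖ = 1 := fun v hv => by
    rw [Units.coe_prod, norm_prod]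
    refine Finset.prod_eq_one fun w hw => hn w fun h => hv ?_
    rw [← Finset.mem_singleton.1 (mem_above.1 hw)]
    exact mem_above.1 h
  obtain ⟨hnm, hchv, Φ, hΦ, hΦ1, hΦ2⟩ := hF F₁ F p _ S₁ C₁ l hR hlp hd hlc
  have hiff : ∀ q : Pair l (above F S₁) (above F C₁), (∃ g ∈ Subgroup.zpowers γ, g ≠ 1 ∧
      (∀ w, q.1.1 (act g w) = q.1.1 w) ∧ ∀ x, q.1.2 (g x) = q.1.2 x) ↔ q ∈ Set.range Φ := by
    intro q
    rw [hΦ2]
    refine ⟨fun ⟨g, hg, h1, h2, h3⟩ => ?_, fun h => ⟨_, Subgroup.npow_mem_zpowers γ _, hρ, h⟩⟩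
    obtain ⟨n, rfl⟩ := hmem g hg
    obtain ⟨m, hm⟩ := exists_pow hp ho h1
    rw [← hm]
    exact ⟨act_pow (D := q.1.1) h2 m, app_pow h3 m⟩
  rw [sum_sub]
  refine fourier (β := fun r => (Z r).sum fun D z => (z : ℂ) * ∑ t ∈ range (p ^ (j + 1)),
    ((chv (fun w => ψ (act (γ ^ t) w)) D : ℂˣ) : ℂ)) fun ζ hζ => ?_
  obtain ⟨g, g', σ₀, hg, hg', hs, he⟩ := H ψ hψ ζ hζ
  have e1 : f = g := sm_uniq hf ((hE F l _ _ ψ ζ hd' hlc' hn hζ).1 g σ₀ hg fun s h => (hs s h).1)
  have e2 : g' = fun s => f₁ (p * s) := by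
    refine ident hg' (hf₁.1.comp (by fun_prop)) (max σ₀ 1) fun s h => ?_
    have h1 := (max_lt_iff.1 h).2
    have h2 : 1 < ((p : ℂ) * s).re := by
      have : (1 : ℝ) ≤ p := by exact_mod_cast hp.one_le
      rw [Complex.mul_re, Complex.natCast_re, Complex.natCast_im, zero_mul, sub_zero]
      nlinarith
    refine ((hΦ.hasSum_iff fun q hq => if_neg fun e => hq ((hiff q).1 e)).2
      (hs s (max_lt_iff.1 h).1).2).unique ?_
    refine Eq.subst (motive := fun u => HasSum u (f₁ (p * s))) (funext fun q => ?_)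
      ((hE F₁ l S₁ C₁ _ ζ hd hlc hn₁ hζ).2 f₁ hf₁ _ h2)
    rw [Function.comp_apply, if_pos ((hiff _).2 ⟨q, rfl⟩), (hΦ1 q).1, (hΦ1 q).2, hchv,
      hnm _ q.2.2.1, cpow_pow (nmD_nonneg _)]
  have e3 : g' 0 = f₁ 0 := by rw [e2]; simp
  rw [e1, ← e3, he]
  refine Finset.sum_congr rfl fun r _ => congrArg _ (Finsupp.sum_congr fun D _ => ?_)
  rw [finsum_zpowers hγ fun g => ((chv (fun w => ψ (act g w)) D : ℂˣ) : ℂ), ho]

end Pool.Agent.MP_f3cd89_nt

end

section

/-! Geometry of numbers in a totally real field. -/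

set_option autoImplicit false

open Finset NumberField IsDedekindDomain

namespace Pool.Agent.MP_f3cd89_nt

namespace NtaX

open NumberField.Units NumberField.Units.dirichletUnitTheorem

variable {F : Type} [Field F] [NumberField F] [IsTotallyReal F]

omit [NumberField F] in
theorem cx (ψ : F →+* ℂ) : ∃ φ : F →+* ℝ, Complex.ofRealHom.comp φ = ψ :=
  ⟨(IsTotallyReal.complexEmbedding_isReal ψ).embedding,
    RingHom.ext fun x => ComplexEmbedding.IsReal.coe_embedding_apply _ x⟩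

theorem norm_eq (x : F) : ((Algebra.norm ℚ x : ℚ) : ℝ) = ∏ φ : F →+* ℝ, φ x := by
  apply Complex.ofReal_injective
  rw [Complex.ofReal_prod, Complex.ofReal_ratCast]
  refine (Algebra.norm_eq_prod_embeddings ℚ ℂ x).trans (Fintype.prod_bijective
    (fun φ : F →+* ℝ => (Complex.ofRealHom.comp φ).toRatAlgHom) ⟨fun φ φ' h => ?_, fun σ => ?_⟩
    _ _ fun _ => rfl).symm
  · exact RingHom.ext fun y => Complex.ofReal_injective (DFunLike.congr_fun h y)
  · obtain ⟨φ, h⟩ := cx σ.toRingHom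
    exact ⟨φ, AlgHom.ext fun y => DFunLike.congr_fun h y⟩

theorem fin_lat (D : Pr F →₀ ℤ) (C : ℝ) :
    {v | v ∈ lat D ∧ ∀ φ : F →+* ℝ, |φ v| ≤ C}.Finite := by
  obtain ⟨d, d0, h1, h2⟩ := wa D.support (fun _ => (0 : F)) (-∑ v ∈ D.support, |D v|)
  refine Set.Finite.of_finite_image (f := fun x => d * x) ((Embeddings.finite_of_norm_le F ℂ
    ((∑ φ : F →+* ℝ, |φ d|) * |C|)).subset ?_) (mul_right_injective₀ d0).injOn
  rintro _ ⟨x, ⟨hx, hC⟩, rfl⟩
  refine ⟨?_, fun ψ => ?_⟩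
  · obtain ⟨a, ha⟩ := HeightOneSpectrum.mem_integers_of_valuation_le_one (R := 𝓞 F) F (d * x)
      fun v => by
        have h3 : v.valuation F d ≤ WithZero.exp (D v) := by
          by_cases hv : v ∈ D.support
          · have := h1 v hv
            rw [sub_zero] at this
            refine this.trans (WithZero.exp_le_exp.2 ?_)
            have := single_le_sum (f := fun v => |D v|) (fun _ _ => abs_nonneg _) hv
            linarith [neg_abs_le (D v)]
          · rw [Finsupp.notMem_support_iff.1 hv]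
            exact h2 v hv
        rw [map_mul]
        refine (mul_le_mul' h3 (hx v)).trans (le_of_eq ?_)
        rw [← WithZero.exp_add, add_neg_cancel, WithZero.exp_zero]
    beta_reduce
    rw [← ha]
    exact a.isIntegral_coe
  · obtain ⟨φ, rfl⟩ := cx ψ
    change ‖((φ (d * x) : ℝ) : ℂ)‖ ≤ _
    rw [Complex.norm_real, Real.norm_eq_abs, map_mul, abs_mul]
    exact mul_le_mul (single_le_sum (f := fun φ : F →+* ℝ => |φ d|) (fun _ _ => abs_nonneg _)
      (mem_univ φ)) ((hC φ).trans (le_abs_self C)) (abs_nonneg _)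
      (sum_nonneg fun _ _ => abs_nonneg _)

theorem dir : ∃ R : ℝ, ∀ a : InfinitePlace F → ℝ, ∃ (ε : (𝓞 F)ˣ) (c : ℝ),
    ∀ w : InfinitePlace F, |Real.log (w (ε : F)) - a w - c| ≤ R := by
  classical
  let b := (basisUnitLattice F).ofZLatticeBasis ℝ
  let n : ℝ := Fintype.card {w : InfinitePlace F // w ≠ w₀}
  have hB : 0 ≤ ∑ i, ‖b i‖ := sum_nonneg fun _ _ => norm_nonneg _
  have hn : 0 ≤ n := Nat.cast_nonneg _
  refine ⟨(n + 1) * ∑ i, ‖b i‖, fun a => ?_⟩
  obtain ⟨c, hc⟩ : ∃ c : ℝ, ∑ w, (a w + c) = 0 := by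
    refine ⟨-(∑ w, a w) / Fintype.card (InfinitePlace F), ?_⟩
    have : (Fintype.card (InfinitePlace F) : ℝ) ≠ 0 := Nat.cast_ne_zero.2 Fintype.card_ne_zero
    rw [sum_add_distrib, sum_const, card_univ, nsmul_eq_mul]
    field_simp
    ring
  let x : logSpace F := fun w => a w + c
  have hm : (ZSpan.floor b x : logSpace F) ∈ unitLattice F :=
    (basisUnitLattice F).ofZLatticeBasis_span ℝ ▸ (ZSpan.floor b x).2
  obtain ⟨ε, -, hε⟩ := hm
  have h1 : ∀ w : {w : InfinitePlace F // w ≠ w₀},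
      |Real.log (w.1 (ε.toMul : F)) - a w - c| ≤ ∑ i, ‖b i‖ := fun w => by
    have h2 := (norm_le_pi_norm _ w).trans (ZSpan.norm_fract_le b x)
    rw [ZSpan.fract_apply, ← hε, Real.norm_eq_abs, ← abs_neg] at h2
    refine le_of_eq_of_le (congrArg _ ?_) h2
    change _ = -(a w + c - w.1.mult * Real.log (w.1 (ε.toMul : F)))
    rw [IsTotallyReal.mult_eq]
    push_cast
    ring
  refine ⟨ε.toMul, c, fun w => ?_⟩
  by_cases hw : w = w₀
  · have h3 := sum_mult_mul_log ε.toMul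
    simp only [IsTotallyReal.mult_eq, Nat.cast_one, one_mul] at h3
    have h4 : ∑ w : InfinitePlace F, (Real.log (w (ε.toMul : F)) - a w - c) = 0 := by
      rw [← sub_zero (0 : ℝ)]
      nth_rw 1 [← h3]
      rw [← hc, ← sum_sub_distrib]
      exact sum_congr rfl fun _ _ => by ring
    rw [Fintype.sum_eq_add_sum_subtype_ne _ w₀, add_eq_zero_iff_eq_neg] at h4
    rw [hw, h4, abs_neg]
    refine (abs_sum_le_sum_abs _ _).trans ((sum_le_sum fun w _ => h1 w).trans ?_)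
    rw [sum_const, card_univ, nsmul_eq_mul]
    exact mul_le_mul_of_nonneg_right (le_add_of_nonneg_right zero_le_one) hB
  · exact (h1 ⟨w, hw⟩).trans (le_mul_of_one_le_left hB (by linarith))

omit [NumberField F] in
theorem em_pl (φ : F →+* ℝ) : InfinitePlace.embedding_of_isReal
    (IsTotallyReal.isReal (InfinitePlace.mk (Complex.ofRealHom.comp φ))) = φ := by
  refine RingHom.ext fun x => Complex.ofReal_injective ?_
  rw [InfinitePlace.embedding_of_isReal_apply]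
  rcases InfinitePlace.mk_eq_iff.1 (InfinitePlace.mk_embedding
    (InfinitePlace.mk (Complex.ofRealHom.comp φ))) with h | h
  · exact DFunLike.congr_fun h x
  · rw [ComplexEmbedding.isReal_iff.1 (IsTotallyReal.complexEmbedding_isReal _)] at h
    exact DFunLike.congr_fun h x

theorem unit_box {M : ℕ} (hM : 0 < M) : ∃ R : ℝ, ∀ y : (F →+* ℝ) → ℝ, (∀ φ, 0 < y φ) →
    ∃ ε : (𝓞 F)ˣ, ∀ φ φ' : F →+* ℝ,
      φ (((ε : F) ^ 2) ^ M) * y φ ≤ R * (φ' (((ε : F) ^ 2) ^ M) * y φ') := by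
  obtain ⟨R, hR⟩ := dir (F := F)
  refine ⟨Real.exp (4 * M * R), fun y hy => ?_⟩
  obtain ⟨ε, c, h⟩ := hR fun w =>
    -Real.log (y (InfinitePlace.embedding_of_isReal (IsTotallyReal.isReal w))) / (2 * M)
  have hM' : (0 : ℝ) < M := Nat.cast_pos.2 hM
  have key : ∀ φ : F →+* ℝ, ∃ t : ℝ, φ (((ε : F) ^ 2) ^ M) * y φ = Real.exp t ∧
      |t - 2 * M * c| ≤ 2 * M * R := fun φ => by
    have h1 := h (InfinitePlace.mk (Complex.ofRealHom.comp φ))
    have h2 : InfinitePlace.mk (Complex.ofRealHom.comp φ) (ε : F) = |φ ε| := Complex.norm_real _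
    have h3 : 0 < |φ ε| := h2 ▸ Units.pos_at_place _ _
    rw [em_pl, h2] at h1
    refine ⟨(2 * M : ℕ) * Real.log |φ ε| + Real.log (y φ), ?_, ?_⟩
    · rw [Real.exp_add, Real.exp_log (hy φ), Real.exp_nat_mul, Real.exp_log h3, map_pow, map_pow,
        pow_mul, sq_abs]
    · refine le_of_eq_of_le ?_ (mul_le_mul_of_nonneg_left h1 (by positivity))
      rw [← abs_of_pos (show (0 : ℝ) < 2 * M by positivity), ← abs_mul,
        abs_of_pos (show (0 : ℝ) < 2 * M by positivity)]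
      congr 1
      push_cast
      field_simp
      ring
  refine ⟨ε, fun φ φ' => ?_⟩
  obtain ⟨t, e, ht⟩ := key φ
  obtain ⟨t', e', ht'⟩ := key φ'
  rw [e, e', ← Real.exp_add, Real.exp_le_exp]
  linarith [(abs_le.1 ht).2, (abs_le.1 ht').1]

end NtaX

open NtaX in
theorem nta (hB : NTB_st) (hC : NTC_st) : NTA_st := by
  intro F _ _ _
  refine ⟨?_, fin_lat, fun S N => ?_, fun x hx => ?_, norm_eq⟩
  · obtain ⟨ψ⟩ : Nonempty (F →+* ℂ) := inferInstance
    exact ⟨(cx ψ).choose⟩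
  · obtain ⟨M, hM, h⟩ := (hB F).2.2.1 S N
    obtain ⟨R, hR⟩ := unit_box (F := F) hM
    refine ⟨R, fun y hy => ?_⟩
    obtain ⟨ε, hε⟩ := hR y hy
    have h0 : ((ε : 𝓞 F) : F) ≠ 0 := by simp
    have h1 : ∀ v : Pr F, ord v (((ε : 𝓞 F) : F) ^ 2) = 0 := fun v => by
      rw [ord_pow, (ord_eq_zero_iff v ε.ne_zero).2 fun hm =>
        v.isPrime.ne_top (Ideal.eq_top_of_isUnit_mem _ hm ε.isUnit), mul_zero]
    refine ⟨_, ⟨pow_ne_zero _ (pow_ne_zero _ h0), fun φ => ?_,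
      h _ (pow_ne_zero _ h0) fun v _ => h1 v⟩, Finsupp.ext fun v => ?_, hε⟩
    · rw [map_pow, map_pow]
      have := (map_ne_zero φ).2 h0
      positivity
    · rw [dv_apply, ord_pow, h1, mul_zero]
      rfl
  · rw [(hC F).2.2.1 x hx, norm_eq, abs_prod]

end Pool.Agent.MP_f3cd89_nt

end

section

/-! Crossing with a cyclotomic extension. -/

set_option autoImplicit false
set_option linter.unusedSectionVars false

open Finset NumberField IsDedekindDomain

namespace Pool.Agent.MP_f3cd89_nt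

namespace XlX

section

variable {E : Type} [Field E] [NumberField E]

theorem off_ind {S : Finset (Pr E)} {P : (Pr E →₀ ℤ) → Prop} (h0 : P 0)
    (ha : ∀ a b, P a → P b → P (a + b)) (hs : ∀ v, v ∉ S → ∀ n, P (Finsupp.single v n))
    {D : Pr E →₀ ℤ} (hD : D ∈ off S) : P D := by
  rw [← Finsupp.sum_single D]
  exact Finset.sum_induction _ P ha h0 fun v hv =>
    hs v (fun h => Finsupp.mem_support_iff.1 hv (hD v h)) _

theorem single_mem {S : Finset (Pr E)} {v : Pr E} (hv : v ∉ S) (n : ℤ) :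
    Finsupp.single v n ∈ off S := fun _ hw =>
  Finsupp.single_eq_of_ne fun e => hv (e ▸ hw)

/-- the character on divisors as a homomorphism -/
noncomputable def chH {M : Type} [CommGroup M] (ψ : Pr E → M) : (Pr E →₀ ℤ) →+ Additive M :=
  AddMonoidHom.mk' (fun D => Additive.ofMul (chv ψ D)) fun a b =>
    congrArg Additive.ofMul (chv_add ψ a b)

theorem ray_mono {S S' : Finset (Pr E)} (h : S ⊆ S') {N : ℕ} {x : E} (hx : Ray S' N x) :
    Ray S N x := ⟨hx.1, hx.2.1, fun v hv => hx.2.2 v (h hv)⟩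

end

variable {F E : Type} [Field F] [NumberField F] [Field E] [NumberField E] [Algebra F E]

variable (F) in
/-- the residue degree -/
noncomputable abbrev fd (w : Pr E) : ℕ := w.asIdeal.inertiaDeg (𝓞 F)

variable (F) in
/-- the norm of a divisor -/
noncomputable def Nm : (Pr E →₀ ℤ) →+ (Pr F →₀ ℤ) :=
  Finsupp.liftAddHom fun w => (Finsupp.singleAddHom (w.under (𝓞 F))).comp
    (AddMonoidHom.mulLeft (fd F w : ℤ))

theorem Nm_single (w : Pr E) (n : ℤ) :
    Nm F (Finsupp.single w n) = Finsupp.single (w.under (𝓞 F)) (fd F w * n) :=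
  Finsupp.liftAddHom_apply_single _ _ _

theorem Nm_dv [IsGalois F E] {y : E} (hy : y ≠ 0) : Nm F (dv y) = dv (Algebra.norm F y) := by
  classical
  ext v
  rw [dv_apply, ord_norm v hy, finsum_eq_sum_of_support_subset (s := (dv y).support) _
    fun w hw => by
      by_contra h
      have h0 : ord w y = 0 := Finsupp.notMem_support_iff.1 h
      exact hw (by simp [h0]),
    Nm, Finsupp.liftAddHom_apply, Finsupp.sum, Finsupp.finsetSum_apply]
  refine Finset.sum_congr rfl fun w _ => ?_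
  change Finsupp.single (w.under (𝓞 F)) (fd F w * ord w y) v = _
  rw [Finsupp.single_apply]
  exact if_congr ⟨fun h => h ▸ over_under w, under_eq⟩ rfl rfl

section

variable {G : Type} [CommGroup G] {S : Finset (Pr F)} {φ : Pr F → G} {ψ : Pr E → G}
  {H : Subgroup G}

theorem chv_Nm (h : ∀ w, w ∉ above E S → ψ w = φ (w.under (𝓞 F)) ^ fd F w) {B : Pr E →₀ ℤ}
    (hB : B ∈ off (above E S)) : chv φ (Nm F B) = chv ψ B := by
  refine off_ind (P := fun B => chv φ (Nm F B) = chv ψ B) ?_ (fun a b ha hb => ?_)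
    (fun w hw n => ?_) hB
  · rw [map_zero, chv_zero, chv_zero]
  · rw [map_add, chv_add, chv_add, ha, hb]
  · rw [Nm_single, chv_single, chv_single, h w hw, zpow_mul, zpow_natCast]

theorem Nm_mem (h : ∀ w, w ∉ above E S → ∀ n : ℕ, φ (w.under (𝓞 F)) ^ n ∈ H ↔ fd F w ∣ n)
    {B : Pr E →₀ ℤ} (hB : B ∈ off (above E S)) : Nm F B ∈ DH S φ H := by
  refine off_ind (P := fun B => Nm F B ∈ DH S φ H) ?_ (fun a b ha hb => ?_)
    (fun w hw n => ?_) hB
  · rw [map_zero]; exact zero_mem _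
  · rw [map_add]; exact add_mem ha hb
  · rw [Nm_single, mul_comm, ← smul_eq_mul, ← Finsupp.smul_single]
    refine zsmul_mem (AddSubgroup.subset_closure ?_) n
    exact ⟨_, _, mt mem_above.2 hw, (h w hw _).2 dvd_rfl, rfl⟩

theorem exists_Nm (h : ∀ w, w ∉ above E S → ∀ n : ℕ, φ (w.under (𝓞 F)) ^ n ∈ H ↔ fd F w ∣ n)
    {D : Pr F →₀ ℤ} (hD : D ∈ DH S φ H) : ∃ B ∈ off (above E S), Nm F B = D := by
  refine (AddSubgroup.closure_le ((off (above E S)).map (Nm F))).2 ?_ hD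
  rintro _ ⟨v, k, hv, hk, rfl⟩
  obtain ⟨w, rfl⟩ := under_surj (E' := E) v
  have hw : w ∉ above E S := mt mem_above.1 hv
  obtain ⟨c, rfl⟩ := (h w hw k).1 hk
  exact ⟨Finsupp.single w c, single_mem hw _, by rw [Nm_single, Nat.cast_mul]⟩

end

variable {Ω : Type} [Field Ω] [NumberField Ω] [Algebra F Ω] [Algebra E Ω] [IsScalarTower F E Ω]

theorem frobE (hF : FB_st) (hT : TOW_st) {G : Type} [CommGroup G] [Finite G]
    [MulSemiringAction G Ω] [IsGaloisGroup G F Ω] (H : Subgroup G) [IsGaloisGroup H E Ω]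
    {S : Finset (Pr F)} {φ : Pr F → G} (hU : Unr Ω G S) (hφ : IsFrob Ω S φ) :
    ∃ ψ : Pr E → H, Unr Ω H (above E S) ∧ IsFrob Ω (above E S) ψ ∧ ∀ w, w ∉ above E S →
      (ψ w : G) = φ (w.under (𝓞 F)) ^ fd F w ∧
      (∀ n : ℕ, φ (w.under (𝓞 F)) ^ n ∈ H ↔ fd F w ∣ n) ∧
      nrm w = nrm (w.under (𝓞 F)) ^ fd F w := by
  obtain ⟨-, f2, -, -, f5, -⟩ := hF F Ω G
  obtain ⟨-, -, -, e4, -, -, -, e8⟩ := hF E Ω H
  obtain ⟨t1, -, t3, -⟩ := hT F E Ω G
  obtain ⟨t4, -, t5, t6⟩ := t3 H H.subtype fun _ _ => rfl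
  obtain ⟨ψ, hψ⟩ := e4 (above E S)
  refine ⟨ψ, t5 S hU, hψ, fun w hw => ?_⟩
  obtain ⟨P, rfl, hP⟩ := hψ w hw
  have hv : (P.under (𝓞 E)).under (𝓞 F) ∉ S := mt mem_above.2 hw
  obtain ⟨P', h1, h2⟩ := hφ _ hv
  obtain ⟨h, rfl⟩ := f2 P' P (h1.trans (t1 P))
  have h3 := f5 P' _ h h2
  rw [mul_inv_cancel_comm] at h3
  have h4 := hU _ (t1 _ ▸ hv)
  generalize φ (((gact h P').under (𝓞 E)).under (𝓞 F)) = g at h3 ⊢
  have h5 : ∀ n : ℕ, g ^ n ∈ H ↔ orderOf (g : G ⧸ H) ∣ n := fun n => by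
    rw [orderOf_dvd_iff_pow_eq_one, ← QuotientGroup.mk_pow, QuotientGroup.eq_one_iff]
  obtain ⟨h6, h7, h8⟩ := t6 _ g _ h4 h3 (by rwa [Subgroup.range_subtype])
  rw [fd, h7, t1]
  exact ⟨congrArg Subtype.val ((e8 _ _ (t4 _ h4) hP).1 _
    (h8 ⟨_, (h5 _).2 dvd_rfl⟩ rfl)).symm, h5, h6⟩

theorem surjE (hD : DENS_st) {G : Type} [CommGroup G] [Finite G]
    [MulSemiringAction G Ω] (H : Subgroup G) [IsGaloisGroup H E Ω]
    {S : Finset (Pr E)} {ψ : Pr E → H} (hU : Unr Ω H S) (hψ : IsFrob Ω S ψ) {h : G} (hh : h ∈ H) :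
    ∃ B ∈ off S, chv (fun w => (ψ w : G)) B = h := by
  let K : Subgroup H :=
    (((off S).map (chH fun w => (ψ w : G))).toSubgroup').comap H.subtype
  have hK : K = ⊤ := (hD E Ω H S ψ K inferInstance hU hψ).2 fun w hw =>
    ⟨Finsupp.single w 1, single_mem hw _, congrArg Additive.ofMul
      ((chv_single _ w 1).trans (zpow_one _))⟩
  obtain ⟨B, hB, e⟩ : (⟨h, hh⟩ : H) ∈ K := hK ▸ Subgroup.mem_top _
  exact ⟨B, hB, congrArg Additive.toMul e⟩

theorem realE {G : Type} [Group G] [MulSemiringAction G Ω] (H : Subgroup G)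
    [IsGaloisGroup H E Ω] {c : G} (hc : c ∈ H) (h : IsCC Ω c) : IsTotallyReal E := by
  refine ⟨fun w => InfinitePlace.isReal_iff.2 (ComplexEmbedding.isReal_iff.2 ?_)⟩
  ext x
  have h1 := h (ComplexEmbedding.lift Ω w.embedding) (algebraMap E Ω x)
  have h2 : c • algebraMap E Ω x = algebraMap E Ω x := smul_algebraMap (⟨c, hc⟩ : H) x
  rw [h2, ComplexEmbedding.lift_algebraMap_apply] at h1
  exact h1.symm

theorem kerE (hD : DENS_st) (hS : SI_st) (hB : NTB_st) [IsTotallyReal E] {Γ M : Type}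
    [CommGroup Γ] [Finite Γ] [CommGroup M] [Finite M] [MulSemiringAction (Γ × M) Ω]
    (H : Subgroup (Γ × M)) [IsGaloisGroup H E Ω] {S : Finset (Pr E)} {ψ : Pr E → H}
    (hU : Unr Ω H S) (hψ : IsFrob Ω S ψ) (h1 : ∀ g : Γ, ∃ h ∈ H, h.1 = g)
    (h2 : ∀ h ∈ H, h.2 = 1 → h.1 = 1) {N : ℕ} (hN : 0 < N)
    (hr : IsRay S N fun w => (ψ w : Γ × M).2) {B : Pr E →₀ ℤ} (hB1 : B ∈ off S)
    (hB2 : (chv (fun w => (ψ w : Γ × M)) B).1 = 1) :
    B ∈ HF S S N fun w => orderOf (ψ w : Γ × M).1 := by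
  have e1 : ∀ D, chv (fun w => (ψ w : Γ × M).1) D = (chv (fun w => (ψ w : Γ × M)) D).1 :=
    fun D => (chv_map (MonoidHom.fst Γ M) _ D).symm
  have e2 : ∀ D, chv (fun w => (ψ w : Γ × M).2) D = (chv (fun w => (ψ w : Γ × M)) D).2 :=
    fun D => (chv_map (MonoidHom.snd Γ M) _ D).symm
  let χ := chH fun w => (ψ w : Γ × M).1
  have hk : ∀ D, D ∈ χ.ker ↔ chv (fun w => (ψ w : Γ × M).1) D = 1 := fun D => Iff.rfl
  have hle : (HF S S N fun w => orderOf (ψ w : Γ × M).1) ≤ χ.ker ⊓ off S := by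
    refine (AddSubgroup.closure_le _).2 ?_
    rintro _ (⟨x, hx, rfl⟩ | ⟨w, hw, rfl⟩)
    · refine ⟨(hk _).2 ?_, ((hB E).2.2.2.1 S N hN).2.2 x hx⟩
      rw [e1]
      refine h2 _ ?_ ((e2 _).symm.trans (hr x hx))
      have e3 : chv (fun w => (ψ w : Γ × M)) (dv x) = H.subtype (chv ψ (dv x)) :=
        (chv_map H.subtype ψ _).symm
      rw [e3]
      exact (chv ψ (dv x)).2
    · exact ⟨(hk _).2 (by rw [chv_single, zpow_natCast, pow_orderOf_eq_one]), single_mem hw _⟩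
  have i1 : (χ.ker ⊓ off S).relIndex (off S) = Nat.card Γ := by
    have : (off S).map χ = ⊤ := top_unique fun g _ => by
      obtain ⟨h, hh, e⟩ := h1 g.toMul
      obtain ⟨D, hD1, hD2⟩ := surjE hD H hU hψ hh
      exact ⟨D, hD1, congrArg Additive.ofMul ((e1 D).trans (hD2 ▸ e))⟩
    rw [AddSubgroup.inf_relIndex_right, AddSubgroup.relIndex_ker, this, AddSubgroup.card_top]
    rfl
  have i2 : ((MonoidHom.fst Γ M).comp H.subtype).ker.index = Nat.card Γ := by
    have : ((MonoidHom.fst Γ M).comp H.subtype).range = ⊤ := top_unique fun g _ =>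
      let ⟨h, hh, e⟩ := h1 g
      ⟨⟨h, hh⟩, e⟩
    rw [Subgroup.index_ker, this, Subgroup.card_top]
  obtain ⟨i3, i4⟩ := hS E Ω H S ψ ((MonoidHom.fst Γ M).comp H.subtype).ker N
    (HF S S N fun w => orderOf (ψ w : Γ × M).1) inferInstance hU hψ hN
    (fun x hx => AddSubgroup.subset_closure (.inl ⟨x, hx, rfl⟩)) fun w hw h =>
      AddSubgroup.subset_closure (.inr ⟨w, hw, by
        simp only [show (ψ w : Γ × M).1 = 1 from h, orderOf_one, Nat.cast_one]⟩)
  rw [← AddSubgroup.relIndex_mul_relIndex _ _ _ hle inf_le_right, i1] at i3 i4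
  rw [i2] at i4
  have i5 : (HF S S N fun w => orderOf (ψ w : Γ × M).1).relIndex (χ.ker ⊓ off S) = 1 :=
    le_antisymm (Nat.le_of_mul_le_mul_right (by rwa [one_mul]) Nat.card_pos)
      (Nat.pos_of_ne_zero (left_ne_zero_of_mul i3))
  exact AddSubgroup.relIndex_eq_one.1 i5 ⟨(hk _).2 ((e1 B).trans hB2), hB1⟩

end XlX

open XlX

theorem xl (hF : FB_st) (hT : TOW_st) (hD : DENS_st) (hS : SI_st) (hC : CYC_st) (hB : NTB_st) :
    XL_st := by
  intro F Ω Γ _ _ _ _ _ _ _ m _ _ _ S S' φ H hSS hU hφ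
  let E : IntermediateField F Ω := FixedPoints.intermediateField H
  obtain ⟨ψ, hU', hψ, h⟩ := frobE (E := E) hF hT H hU hφ
  refine ⟨fun g hg => ?_, fun hm hν ⟨c, hc, hc'⟩ h1 h2 N hN D hD1 hD2 => ?_⟩
  · obtain ⟨B, hB1, hB2⟩ := surjE hD H hU' hψ hg
    exact ⟨Nm F B, Nm_mem (fun w hw => (h w hw).2.1) hB1,
      (chv_Nm (fun w hw => (h w hw).1) hB1).trans hB2⟩
  have : IsTotallyReal E := realE H hc hc'
  have : IsGalois F E := IsGaloisGroup.isGalois (_ ⧸ H) F E
  obtain ⟨N₁, p₁, c₁⟩ := hC.1 E m (above E S') (fun w => (ψ w : Γ × (ZMod m)ˣ).2) (NeZero.pos m)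
    (fun w hw => mem_above.2 (hm _ (Ideal.mem_comap.2 (by rwa [map_natCast])))) fun w hw => by
      rw [(h w hw).1, (h w hw).2.2, Prod.pow_snd, Units.val_pow_eq_pow_val,
        hν _ (mt mem_above.2 hw), Nat.cast_pow]
  obtain ⟨N₂, -, c₂⟩ := hC.2 F E S' N
  obtain ⟨B, hB1, rfl⟩ := exists_Nm (E := E) (fun w hw => (h w hw).2.1) hD1
  rw [chv_Nm (fun w hw => (h w hw).1) hB1] at hD2
  refine (AddSubgroup.closure_le ((HF S S' N fun v => orderOf (φ v).1).comap (Nm F))).2 ?_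
    (kerE hD hS hB H hU' hψ h1 h2 (lt_max_of_lt_left p₁) (c₁ _ (le_max_left N₁ N₂)) hB1 hD2)
  rintro _ (⟨y, hy, rfl⟩ | ⟨w, hw, rfl⟩)
  · rw [SetLike.mem_coe, AddSubgroup.mem_comap, Nm_dv hy.1]
    exact AddSubgroup.subset_closure (.inl ⟨_, ray_mono hSS (c₂ _ (le_max_right _ _) y hy), rfl⟩)
  · obtain ⟨k, hk⟩ : orderOf (φ (w.under (𝓞 F))).1 ∣ fd F w * orderOf (ψ w : Γ × (ZMod m)ˣ).1 := by
      rw [orderOf_dvd_iff_pow_eq_one, pow_mul, (h w hw).1, Prod.pow_fst, pow_orderOf_eq_one]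
    rw [SetLike.mem_coe, AddSubgroup.mem_comap, Nm_single, ← Nat.cast_mul, hk, Nat.cast_mul,
      mul_comm, ← smul_eq_mul, ← Finsupp.smul_single]
    refine zsmul_mem (AddSubgroup.subset_closure ?_) _
    exact .inr ⟨_, mt mem_above.2 hw, rfl⟩

end Pool.Agent.MP_f3cd89_nt

end

section

/-! The Artin reciprocity law for CM extensions from the totally real cyclic case. -/

set_option autoImplicit false

open NumberField IsDedekindDomain

namespace Pool.Agent.MP_f3cd89_nt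

namespace ArX

variable {F : Type} [Field F] [NumberField F]

theorem isRay_mono {M : Type} [CommGroup M] {S : Finset (Pr F)} {N N' : ℕ} {ψ : Pr F → M}
    (h : IsRay S N ψ) (hN : N ≤ N') : IsRay S N' ψ := fun x hx =>
  h x ⟨hx.1, hx.2.1, fun v hv => (hx.2.2 v hv).trans (WithZero.exp_le_exp.2 (by omega))⟩

omit [NumberField F] in
theorem chv_mul {M : Type} [CommGroup M] (ψ χ : Pr F → M) (D : Pr F →₀ ℤ) :
    chv (fun v => ψ v * χ v) D = chv ψ D * chv χ D := by
  simp only [chv, mul_zpow, Finsupp.prod_mul]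

theorem glue (hB : NTB_st) {M : Type} [CommGroup M] {S S' S'' : Finset (Pr F)} {N : ℕ}
    (hN : 0 < N) {ψ : Pr F → M} (hi : ∀ v ∈ S', v ∈ S'' → v ∈ S)
    (h1 : IsRay S' N ψ) (h2 : IsRay S'' N ψ) : IsRay S N ψ := by
  classical
  intro x hx
  obtain ⟨x0, xp, xc⟩ := hx
  set B : ℕ := ∑ v ∈ S'', (ord v x).natAbs with hBdef
  obtain ⟨y, y0, yp, hy, -⟩ := (hB F).1 (S' ∪ S'') (fun v => if v ∈ S' then 1 else x)
    (-((N : ℤ) + B))
  have hy1 : ∀ v ∈ S', v.valuation F (y - 1) ≤ WithZero.exp (-(N : ℤ)) := fun v hv => by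
    have := hy v (Finset.mem_union_left _ hv)
    rw [if_pos hv] at this
    exact this.trans (WithZero.exp_le_exp.2 (by omega))
  have r1 : Ray S' N y := ⟨y0, yp, hy1⟩
  have r2 : Ray S'' N (y / x) := by
    refine ⟨div_ne_zero y0 x0, fun e => by rw [map_div₀]; exact div_pos (yp e) (xp e),
      fun v hv => ?_⟩
    rw [div_sub_one x0, map_div₀]
    by_cases hv' : v ∈ S'
    · have hx1 := xc v (hi v hv' hv)
      have hx2 : v.valuation F x = 1 := val_one_of _ (hx1.trans_lt (by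
        rw [← WithZero.exp_zero, WithZero.exp_lt_exp]; omega))
      rw [hx2, div_one, show y - x = (y - 1) - (x - 1) by ring]
      exact Valuation.map_sub_le _ (hy1 v hv') hx1
    · have := hy v (Finset.mem_union_right _ hv)
      rw [if_neg hv'] at this
      rw [val_eq_exp v x0, div_le_iff₀ WithZero.exp_pos, ← WithZero.exp_add]
      refine this.trans (WithZero.exp_le_exp.2 ?_)
      have : (ord v x).natAbs ≤ B :=
        Finset.single_le_sum (f := fun v => (ord v x).natAbs) (fun _ _ => Nat.zero_le _) hv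
      omega
  have e : dv y = dv (y / x) + dv x := by
    rw [← dv_mul (div_ne_zero y0 x0) x0, div_mul_cancel₀ _ x0]
  have := h1 y r1
  rwa [e, chv_add, h2 _ r2, one_mul] at this

theorem core_char (hK : CORE_st) (hT : TOW_st) {Ω G : Type} [Field Ω] [NumberField Ω]
    [Algebra F Ω] [Group G] [Finite G] [MulSemiringAction G Ω] [IsGaloisGroup G F Ω]
    (S : Finset (Pr F)) (φ : Pr F → G) (hS : S.Nonempty) (hU : Unr Ω G S) (hφ : IsFrob Ω S φ)
    (ψ : G →* ℂˣ) (c : G) (hc : IsCC Ω c) (hψ : ψ c = 1) :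
    ∃ N : ℕ, 0 < N ∧ IsRay S N fun v => ψ (φ v) := by
  let U : Subgroup G := ψ.ker
  let E : IntermediateField F Ω := FixedPoints.intermediateField U
  have hinj : Function.Injective (QuotientGroup.kerLift ψ) := QuotientGroup.kerLift_injective ψ
  have : IsTotallyReal E := ⟨fun w => by
    rw [InfinitePlace.isReal_iff, ComplexEmbedding.isReal_iff]
    ext x
    have h1 := ComplexEmbedding.lift_algebraMap_apply Ω w.embedding x
    have h2 := hc (ComplexEmbedding.lift Ω w.embedding) (algebraMap E Ω x)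
    have h3 : c • algebraMap E Ω x = algebraMap E Ω x := x.2 ⟨c, hψ⟩
    rw [h3, h1] at h2
    exact h2.symm⟩
  have hr : ∀ (g : G) (x : E), g • algebraMap E Ω x =
      algebraMap E Ω (QuotientGroup.mk' U g • x) := fun g x =>
    (IsGaloisGroup.algebraMap_smulOfNormal G E Ω U g x).symm
  obtain ⟨t1, -, t3⟩ := (hT F E Ω G).2.2.2 (G ⧸ U) (QuotientGroup.mk' U) hr
  let inst : CommGroup (G ⧸ U) :=
    { (inferInstance : Group (G ⧸ U)) with
      mul_comm := fun a b => hinj (by rw [map_mul, map_mul, mul_comm]) }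
  have hcyc : IsCyclic (G ⧸ U) :=
    isCyclic_of_injective_ringHom ((Units.coeHom ℂ).comp (QuotientGroup.kerLift ψ))
      (Units.val_injective.comp hinj)
  obtain ⟨N, hN, hR⟩ := @hK F E (G ⧸ U) _ _ _ _ _ _ inst _ _ _ S
    (fun v => QuotientGroup.mk' U (φ v)) hcyc hS (t1 S hU) (t3 S φ hφ)
  refine ⟨N, hN, fun x hx => ?_⟩
  have h := congrArg (QuotientGroup.kerLift ψ) (hR x hx)
  rw [map_one] at h
  exact (@chv_map F _ _ (G ⧸ U) ℂˣ inst _ (QuotientGroup.kerLift ψ) _ _).symm.trans h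

theorem exists_prime_over (q : ℕ) (hq : q.Prime) : ∃ v : Pr F, (q : 𝓞 F) ∈ v.asIdeal := by
  have : Fact q.Prime := ⟨hq⟩
  have := Int.ideal_span_isMaximal_of_prime q
  obtain ⟨Q, h₁, h₂⟩ := Ideal.exists_maximal_ideal_liesOver_of_isIntegral (S := 𝓞 F)
    (Ideal.span {(q : ℤ)})
  have hm : (q : 𝓞 F) ∈ Q := by
    have : (q : ℤ) ∈ Ideal.span {(q : ℤ)} := Ideal.mem_span_singleton_self _
    rw [h₂.over, Ideal.under, Ideal.mem_comap] at this
    simpa using this
  refine ⟨⟨Q, h₁.isPrime, fun h => ?_⟩, hm⟩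
  rw [h, Ideal.mem_bot] at hm
  exact hq.ne_zero (by exact_mod_cast hm)

theorem exists_set (S : Finset (Pr F)) (q : ℕ) (hq : q ≠ 0) :
    ∃ S' : Finset (Pr F), ∀ v, v ∈ S' ↔ v ∈ S ∨ (q : 𝓞 F) ∈ v.asIdeal := by
  classical
  refine ⟨S ∪ (ord_finite ((q : 𝓞 F) : F)).toFinset, fun v => ?_⟩
  rw [Finset.mem_union, Set.Finite.mem_toFinset, Set.mem_ofPred_eq, Ne,
    ord_eq_zero_iff v (by exact_mod_cast hq), not_not]

theorem step (hK : CORE_st) (hC : CYCLO_st) (hY : CYC_st) (hT : TOW_st) [IsTotallyReal F]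
    {L G : Type} [Field L] [NumberField L] [Algebra F L] [Group G] [Finite G]
    [MulSemiringAction G L] [IsGaloisGroup G F L] (j : G) (S : Finset (Pr F)) (φ : Pr F → G)
    (hj : IsCC L j) (hU : Unr L G S) (hφ : IsFrob L S φ) (ψ : G →* ℂˣ) :
    ∃ d : ℕ, ∀ q : ℕ, q.Prime → d < q → ∀ S' : Finset (Pr F),
      (∀ v, v ∈ S' ↔ v ∈ S ∨ (q : 𝓞 F) ∈ v.asIdeal) →
      ∃ N : ℕ, 0 < N ∧ IsRay S' N fun v => ψ (φ v) := by
  obtain ⟨d, d0, hd⟩ := hC F L G
  refine ⟨d + 2, fun q hq hdq S' hS' => ?_⟩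
  have : NeZero q := ⟨hq.ne_zero⟩
  have : Fact (2 < q) := ⟨by omega⟩
  have hcop : q.Coprime d := (Nat.Prime.coprime_iff_not_dvd hq).2 fun h =>
    absurd (Nat.le_of_dvd (Nat.pos_of_ne_zero d0) h) (by omega)
  obtain ⟨Ω, _, _, _, _, _, hcc, hΩ⟩ := hd q hcop
  have hq' : ∀ v : Pr F, (q : 𝓞 F) ∈ v.asIdeal → v ∈ S' := fun v hv => (hS' v).2 (Or.inr hv)
  obtain ⟨hU', hF'⟩ := hΩ S S' (fun v hv => (hS' v).2 (Or.inl hv)) hq' hU
  obtain ⟨ν, hν, hφ'⟩ := hF' φ hφ
  have hjj : j * j = 1 := by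
    have : FaithfulSMul G L := IsGaloisGroup.faithful F
    refine eq_of_smul_eq_smul (α := L) fun x => ?_
    obtain ⟨ε⟩ : Nonempty (L →+* ℂ) := inferInstance
    apply ε.injective
    rw [mul_smul, hj, hj, one_smul, Complex.conj_conj]
  have sq : ∀ u : ℂˣ, u * u = 1 → u = 1 ∨ u = -1 := fun u hu => by
    have : (u : ℂ) * u = 1 := by rw [← Units.val_mul, hu, Units.val_one]
    rcases mul_self_eq_one_iff.1 this with h | h
    · exact Or.inl (Units.ext h)
    · exact Or.inr (Units.ext (by simpa using h))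
  obtain ⟨χ, hχ⟩ : ∃ χ : (ZMod q)ˣ →* ℂˣ, ψ j * χ (-1) = 1 := by
    rcases sq (ψ j) (by rw [← map_mul, hjj, map_one]) with h | h
    · exact ⟨1, by simp [h]⟩
    · have hne : (-1 : (ZMod q)ˣ) ≠ 1 := fun e =>
        ZMod.neg_one_ne_one (n := q) (by simpa using congrArg Units.val e)
      obtain ⟨χ, hχ⟩ := CommGroup.exists_apply_ne_one_of_hasEnoughRootsOfUnity (ZMod q)ˣ ℂ hne
      rcases sq (χ (-1)) (by rw [← map_mul]; simp) with h' | h'
      · exact absurd h' hχ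
      · exact ⟨χ, by rw [h, h']; simp⟩
  have hne : S'.Nonempty := by
    obtain ⟨v, hv⟩ := exists_prime_over (F := F) q hq
    exact ⟨v, hq' v hv⟩
  obtain ⟨N₁, hN₁, h₁⟩ := core_char hK hT S' (fun v => (φ v, ν v)) hne hU' hφ' (ψ.coprod χ)
    (j, -1) (hcc j hj) hχ
  obtain ⟨N₂, -, h₂⟩ := hY.1 F q S' ν hq.pos hq' hν
  refine ⟨N₁ + N₂, by omega, fun x hx => ?_⟩
  have e₁ := isRay_mono h₁ (Nat.le_add_right N₁ N₂) x hx
  have e₂ := congrArg χ (h₂ (N₁ + N₂) (Nat.le_add_left _ _) x hx)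
  rw [map_one, chv_map] at e₂
  simp only [MonoidHom.coprod_apply] at e₁
  rwa [chv_mul, e₂, mul_one] at e₁

end ArX

open ArX in
theorem ar (hK : CORE_st) (hC : CYCLO_st) (hY : CYC_st) (hT : TOW_st) (hB : NTB_st) : AR_st := by
  intro F L G _ _ _ _ _ _ _ _ _ _ j S φ hj hU hφ
  have key : ∀ ψ : G →* ℂˣ, ∃ N : ℕ, 0 < N ∧ IsRay S N fun v => ψ (φ v) := fun ψ => by
    obtain ⟨d, hd⟩ := step hK hC hY hT j S φ hj hU hφ ψ
    obtain ⟨q, hq, qp⟩ := Nat.exists_infinite_primes (d + 1)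
    obtain ⟨q', hq', qp'⟩ := Nat.exists_infinite_primes (q + 1)
    obtain ⟨S', hS'⟩ := exists_set S q qp.ne_zero
    obtain ⟨S'', hS''⟩ := exists_set S q' qp'.ne_zero
    obtain ⟨N₁, hN₁, h₁⟩ := hd q qp (by omega) S' hS'
    obtain ⟨N₂, -, h₂⟩ := hd q' qp' (by omega) S'' hS''
    refine ⟨N₁ + N₂, by omega, glue hB (by omega) (fun v h h' => ?_)
      (isRay_mono h₁ (Nat.le_add_right _ _)) (isRay_mono h₂ (Nat.le_add_left _ _))⟩
    rcases (hS' v).1 h with h | h
    · exact h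
    rcases (hS'' v).1 h' with h' | h'
    · exact h'
    exfalso
    have hco : IsCoprime (q : 𝓞 F) (q' : 𝓞 F) :=
      Nat.Coprime.cast ((Nat.coprime_primes qp qp').2 (by omega))
    obtain ⟨a, b, hab⟩ := hco
    exact v.isPrime.ne_top ((Ideal.eq_top_iff_one _).2
      (hab ▸ add_mem (Ideal.mul_mem_left _ _ h) (Ideal.mul_mem_left _ _ h')))
  choose N hN hR using key
  have : Finite (G →* ℂˣ) := inferInstance
  have := Fintype.ofFinite (G →* ℂˣ)
  refine ⟨∑ ψ, N ψ, ?_, fun ψ => isRay_mono (hR ψ) ?_⟩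
  · exact (hN 1).trans_le
      (Finset.single_le_sum (f := N) (fun _ _ => Nat.zero_le _) (Finset.mem_univ _))
  · exact Finset.single_le_sum (f := N) (fun _ _ => Nat.zero_le _) (Finset.mem_univ _)

end Pool.Agent.MP_f3cd89_nt

end

section

set_option autoImplicit false

open Finset NumberField IsDedekindDomain

namespace Pool.Agent.MP_f3cd89_nt

namespace CycX

/-- a prime factor different from `l` of a geometric sum -/
theorem geom_prime {l y : ℕ} (hl : l.Prime) (hy : 2 ≤ y) :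
    ∃ q : ℕ, q.Prime ∧ q ≠ l ∧ q ∣ ∑ i ∈ range l, (y ^ l) ^ i := by
  by_contra h
  push Not at h
  have := Fact.mk hl
  set T := ∑ i ∈ range l, (y ^ l) ^ i with hT
  have hx : 2 ≤ y ^ l := hy.trans (Nat.le_self_pow hl.ne_zero y)
  have hTl : l < T := by
    have h1 : ∑ _i ∈ range l, 1 < T := by
      refine Finset.sum_lt_sum (fun i _ => Nat.one_le_pow _ _ (by omega)) ⟨1, ?_, ?_⟩
      · exact Finset.mem_range.2 hl.one_lt
      · rw [pow_one]; omega
    simpa using h1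
  have hT0 : T ≠ 0 := by omega
  have hp : T = l ^ T.primeFactorsList.length :=
    Nat.eq_prime_pow_of_unique_prime_dvd hT0 fun {d} hd hdT => by
      by_contra hne
      exact h d hd hne hdT
  have h2 : l ^ 2 ∣ T := by
    rw [hp]
    refine pow_dvd_pow _ ?_
    by_contra hlt
    have : l ^ T.primeFactorsList.length ≤ l ^ 1 := Nat.pow_le_pow_right hl.pos (by omega)
    rw [← hp, pow_one] at this
    omega
  have h1 : l ∣ T := (dvd_pow_self l two_ne_zero).trans h2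
  have h3 : (y : ZMod l) = 1 := by
    have e1 : ((T : ℕ) : ZMod l) = 0 := (ZMod.natCast_eq_zero_iff _ _).2 h1
    have e2 := geom_sum_mul ((y : ZMod l) ^ l) l
    rw [hT] at e1
    push_cast at e1
    rw [e1, zero_mul, ZMod.pow_card, ZMod.pow_card] at e2
    exact (sub_eq_zero.1 e2.symm)
  have h4 : (l : ℤ) ∣ (y : ℤ) - 1 := by
    rw [← ZMod.intCast_zmod_eq_zero_iff_dvd]
    push_cast
    rw [h3, sub_self]
  have h5 := dvd_sub_pow_of_dvd_sub h4 1
  simp only [pow_one, one_pow] at h5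
  have h6 : (l : ℤ) ^ 2 ∣ (T : ℤ) - l := by
    have e : (T : ℤ) - l = ∑ i ∈ range l, (((y : ℤ) ^ l) ^ i - 1) := by
      rw [hT, Finset.sum_sub_distrib]
      push_cast
      simp
    rw [e]
    refine Finset.dvd_sum fun i _ => h5.trans ?_
    simpa using sub_dvd_pow_sub_pow ((y : ℤ) ^ l) 1 i
  have h7 : (l : ℤ) ^ 2 ∣ (T : ℤ) := by exact_mod_cast h2
  have h8 : (l : ℤ) ^ 2 ∣ (l : ℤ) := by simpa using dvd_sub h7 h6
  have h9 : l ^ 2 ∣ l := by exact_mod_cast h8
  have := Nat.le_of_dvd hl.pos h9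
  nlinarith [hl.two_le]

theorem ord_prime {a l : ℕ} (ha : 2 ≤ a) (hl : l.Prime) (r : ℕ) :
    ∃ q : ℕ, q.Prime ∧ l ^ (r + 2) < q ∧ q.Coprime a ∧
      ∀ k : ℕ, a ^ k ≡ 1 [MOD q] → l ^ (r + 2) ∣ k := by
  have hy : 2 ≤ a ^ l ^ r := ha.trans (Nat.le_self_pow (pow_ne_zero _ hl.ne_zero) a)
  obtain ⟨q, hq, hne, hd⟩ := geom_prime hl hy
  have := Fact.mk hl
  have := Fact.mk hq
  have e1 : ((∑ i ∈ range l, ((a ^ l ^ r) ^ l) ^ i : ℕ) : ZMod q) = 0 :=
    (ZMod.natCast_eq_zero_iff _ _).2 hd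
  push_cast at e1
  rw [← pow_mul, ← pow_succ] at e1
  have hfin : (a : ZMod q) ^ l ^ (r + 1 + 1) = 1 := by
    have e2 := geom_sum_mul ((a : ZMod q) ^ l ^ (r + 1)) l
    rw [e1, zero_mul, ← pow_mul, ← pow_succ] at e2
    exact sub_eq_zero.1 e2.symm
  have hnot : ¬(a : ZMod q) ^ l ^ (r + 1) = 1 := by
    intro h
    rw [h] at e1
    simp only [one_pow, Finset.sum_const, Finset.card_range, nsmul_eq_mul, mul_one] at e1
    exact hne ((Nat.prime_dvd_prime_iff_eq hq hl).1 ((ZMod.natCast_eq_zero_iff _ _).1 e1))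
  have ho := orderOf_eq_prime_pow hnot hfin
  have ha0 : (a : ZMod q) ≠ 0 := by
    intro h
    rw [h, zero_pow (pow_ne_zero _ hl.ne_zero)] at hfin
    exact zero_ne_one hfin
  have h1 := ZMod.orderOf_dvd_card_sub_one ha0
  rw [ho] at h1
  have h2 := Nat.le_of_dvd (by have := hq.two_le; omega) h1
  refine ⟨q, hq, by have := hq.two_le; change l ^ (r + 1 + 1) < q; omega, ?_, fun k hk => ?_⟩
  · exact (Nat.Prime.coprime_iff_not_dvd hq).2 fun h => ha0 ((ZMod.natCast_eq_zero_iff _ _).2 h)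
  · change l ^ (r + 1 + 1) ∣ k
    rw [← ho]
    apply orderOf_dvd_of_pow_eq_one
    have := (ZMod.natCast_eq_natCast_iff _ _ _).2 hk
    simpa using this

section One

variable {E : Type} [Field E] [NumberField E]

theorem norm_cong (m : ℕ) (b c : 𝓞 E) :
    ((Algebra.norm ℤ (b + m * c) : ℤ) : ZMod m) = ((Algebra.norm ℤ b : ℤ) : ZMod m) := by
  classical
  let B := RingOfIntegers.basis E
  have e : ∀ z : 𝓞 E, ((Algebra.norm ℤ z : ℤ) : ZMod m) =
      ((Int.castRingHom (ZMod m)).mapMatrix (Algebra.leftMulMatrix B z)).det := fun z => by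
    rw [Algebra.norm_eq_matrix_det B, ← RingHom.map_det]
    rfl
  rw [e, e, ← nsmul_eq_mul, map_add, map_nsmul, map_add, map_nsmul]
  congr 1
  ext i j
  simp

theorem chv_int (hC : NTC_st) {m : ℕ} {S : Finset (Pr E)} {ν : Pr E → (ZMod m)ˣ}
    (hν : ∀ w, w ∉ S → (ν w : ZMod m) = nrm w) {a : 𝓞 E} (ha : (a : E) ≠ 0)
    (hS : ∀ w ∈ S, ord w (a : E) = 0) (hp : 0 < Algebra.norm ℚ (a : E)) :
    ((chv ν (dv (a : E)) : (ZMod m)ˣ) : ZMod m) = ((Algebra.norm ℤ a : ℤ) : ZMod m) := by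
  have h1 := (hC E).2.2.1 (a : E) ha
  have hp' : (0 : ℝ) < ((Algebra.norm ℚ (a : E) : ℚ) : ℝ) := by exact_mod_cast hp
  rw [abs_of_pos hp', ← Algebra.coe_norm_int] at h1
  have h2 : nmD (dv (a : E)) =
      ((∏ v ∈ (dv (a : E)).support, nrm v ^ (ord v (a : E)).toNat : ℕ) : ℝ) := by
    rw [nmD, Finsupp.prod]
    push_cast
    refine Finset.prod_congr rfl fun v _ => ?_
    rw [← zpow_natCast, Int.toNat_of_nonneg (ord_nonneg v a), dv_apply]
  have h3 : ((∏ v ∈ (dv (a : E)).support, nrm v ^ (ord v (a : E)).toNat : ℕ) : ℤ) =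
      Algebra.norm ℤ a := by
    rw [h2] at h1
    exact_mod_cast h1
  rw [← h3, chv, Finsupp.prod]
  push_cast
  refine Finset.prod_congr rfl fun v hv => ?_
  have hv' : v ∉ S := fun h => (Finsupp.mem_support_iff.1 hv) (hS v h)
  rw [← hν v hv', ← Units.val_pow_eq_pow_val, ← zpow_natCast,
    Int.toNat_of_nonneg (ord_nonneg v a), dv_apply]

theorem norm_pos (hA : NTA_st) [IsTotallyReal E] {x : E} (hx : TPos x) : 0 < Algebra.norm ℚ x := by
  have h := (hA E).2.2.2.2 x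
  have h1 : (0 : ℝ) < ((Algebra.norm ℚ x : ℚ) : ℝ) := by
    rw [h]
    exact Finset.prod_pos fun φ _ => hx φ
  exact_mod_cast h1

theorem one (hA : NTA_st) (hB : NTB_st) (hC : NTC_st) [IsTotallyReal E] (m : ℕ) (S : Finset (Pr E))
    (ν : Pr E → (ZMod m)ˣ) (hm : 0 < m) (hmS : ∀ w : Pr E, (m : 𝓞 E) ∈ w.asIdeal → w ∈ S)
    (hν : ∀ w, w ∉ S → (ν w : ZMod m) = nrm w) :
    ∃ N : ℕ, 0 < N ∧ ∀ N', N ≤ N' → IsRay S N' ν := by
  classical
  have m0 : (m : E) ≠ 0 := by exact_mod_cast hm.ne'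
  refine ⟨1 + ∑ w ∈ S, (ord w (m : E)).toNat, by omega, fun N' hN x hx => ?_⟩
  obtain ⟨x0, xp, xc⟩ := hx
  have lt1 : ∀ n : ℤ, n < 0 → WithZero.exp n < (1 : WithZero (Multiplicative ℤ)) := fun n hn => by
    rw [← WithZero.exp_zero, WithZero.exp_lt_exp]; exact hn
  have xS : ∀ w ∈ S, w.valuation E x = 1 := fun w hw =>
    val_one_of _ ((xc w hw).trans_lt (lt1 _ (by omega)))
  obtain ⟨b, b0, bp, hb1, hb2⟩ := (hB E).1 (S ∪ (dv x).support) (fun v => if v ∈ S then 1 else 0)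
    (-(1 + ∑ v ∈ (dv x).support, (ord v x).natAbs : ℕ))
  have bS : ∀ w ∈ S, w.valuation E b = 1 := fun w hw => by
    have := hb1 w (Finset.mem_union_left _ hw)
    rw [if_pos hw] at this
    exact val_one_of _ (this.trans_lt (lt1 _ (by omega)))
  have bT : ∀ w, w ∉ S → w ∈ (dv x).support → w.valuation E b ≤
      WithZero.exp (-((ord w x).natAbs : ℤ)) := fun w hw hw' => by
    have := hb1 w (Finset.mem_union_right _ hw')
    rw [if_neg hw, sub_zero] at this
    refine this.trans (WithZero.exp_le_exp.2 ?_)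
    have := Finset.single_le_sum (f := fun v => (ord v x).natAbs) (fun _ _ => Nat.zero_le _) hw'
    omega
  have b1 : ∀ w : Pr E, w.valuation E b ≤ 1 := fun w => by
    by_cases hw : w ∈ S
    · exact (bS w hw).le
    by_cases hw' : w ∈ (dv x).support
    · refine (bT w hw hw').trans ?_
      rw [← WithZero.exp_zero, WithZero.exp_le_exp]
      omega
    · exact hb2 w (by simp only [Finset.mem_union, not_or]; exact ⟨hw, hw'⟩)
  have a1 : ∀ w : Pr E, w.valuation E (b * x) ≤ 1 := fun w => by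
    rw [map_mul]
    by_cases hw : w ∈ S
    · rw [bS w hw, xS w hw, one_mul]
    by_cases hw' : w ∈ (dv x).support
    · rw [val_eq_exp w x0]
      refine (mul_le_mul_left (bT w hw hw') _).trans ?_
      rw [← WithZero.exp_add, ← WithZero.exp_zero, WithZero.exp_le_exp]
      omega
    · rw [(val_eq_one_iff w x0).2 (by simpa using hw'), mul_one]
      exact b1 w
  have c1 : ∀ w : Pr E, w.valuation E ((b * x - b) / m) ≤ 1 := fun w => by
    rw [map_div₀]
    by_cases hw : w ∈ S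
    · rw [← mul_sub_one, map_mul, bS w hw, one_mul, val_eq_exp w m0,
        div_le_one₀ WithZero.exp_pos]
      refine (xc w hw).trans (WithZero.exp_le_exp.2 ?_)
      have := Finset.single_le_sum (f := fun v => (ord v (m : E)).toNat)
        (fun _ _ => Nat.zero_le _) hw
      omega
    · have h1 : w.valuation E (m : E) = 1 := by
        have := (w.valuation_eq_one_iff_notMem (K := E) (r := (m : 𝓞 E))).2 fun h => hw (hmS w h)
        simpa using this
      rw [h1, div_one]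
      exact Valuation.map_sub_le _ (a1 w) (b1 w)
  obtain ⟨a', ha'⟩ := HeightOneSpectrum.mem_integers_of_valuation_le_one (R := 𝓞 E) E _ a1
  obtain ⟨b', hb'⟩ := HeightOneSpectrum.mem_integers_of_valuation_le_one (R := 𝓞 E) E _ b1
  obtain ⟨c', hc'⟩ := HeightOneSpectrum.mem_integers_of_valuation_le_one (R := 𝓞 E) E _ c1
  have e : a' = b' + m * c' := by
    apply RingOfIntegers.coe_injective
    rw [map_add, map_mul, map_natCast, ha', hb', hc']
    field_simp
    ring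
  change (a' : E) = _ at ha'
  change (b' : E) = _ at hb'
  have ap : TPos (b * x) := fun φ => by rw [map_mul]; exact mul_pos (bp φ) (xp φ)
  have k1 := chv_int hC hν (a := a') (by rw [ha']; exact mul_ne_zero b0 x0)
    (fun w hw => by
      rw [ha', ← val_eq_one_iff w (mul_ne_zero b0 x0), map_mul, bS w hw, xS w hw, one_mul])
    (by rw [ha']; exact norm_pos hA ap)
  have k2 := chv_int hC hν (a := b') (by rw [hb']; exact b0)
    (fun w hw => by rw [hb', ← val_eq_one_iff w b0, bS w hw])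
    (by rw [hb']; exact norm_pos hA bp)
  have k3 : ((Algebra.norm ℤ a' : ℤ) : ZMod m) = ((Algebra.norm ℤ b' : ℤ) : ZMod m) := by
    rw [e, norm_cong]
  rw [k3, ← k2, ha', hb', dv_mul b0 x0, chv_add] at k1
  exact mul_eq_left.1 (Units.ext k1)

end One

section Two

variable {F E : Type} [Field F] [NumberField F] [Field E] [NumberField E] [Algebra F E]

omit [NumberField F] in
theorem under_act (σ : E ≃ₐ[F] E) (w : Pr E) :
    (act σ.toRingEquiv w).under (𝓞 F) = w.under (𝓞 F) := by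
  ext a
  change algebraMap (𝓞 F) (𝓞 E) a ∈ (act σ.toRingEquiv w).asIdeal ↔
    algebraMap (𝓞 F) (𝓞 E) a ∈ w.asIdeal
  have e : (RingOfIntegers.mapRingEquiv σ.toRingEquiv).symm (algebraMap (𝓞 F) (𝓞 E) a) =
      algebraMap (𝓞 F) (𝓞 E) a := by
    apply RingOfIntegers.coe_injective
    exact σ.symm.commutes (a : F)
  rw [mem_act, e]

theorem two [IsTotallyReal E] [IsGalois F E] (S : Finset (Pr F)) (N : ℕ) :
    ∃ N₀ : ℕ, 0 < N₀ ∧ ∀ N', N₀ ≤ N' →
      ∀ y, Ray (above E S) N' y → Ray S N (Algebra.norm F y) := by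
  classical
  choose W hW using fun v : Pr F => exists_over (E' := E) v
  refine ⟨1 + ∑ v ∈ S, N * (W v).asIdeal.ramificationIdx (𝓞 F), by omega,
    fun N' hN y hy => ?_⟩
  obtain ⟨y0, yp, yc⟩ := hy
  have hn : algebraMap F E (Algebra.norm F y) = ∏ σ : E ≃ₐ[F] E, σ y :=
    Algebra.norm_eq_prod_automorphisms F y
  refine ⟨Algebra.norm_ne_zero_iff.2 y0, fun φ => ?_, fun v hv => ?_⟩
  · have hr := IsTotallyReal.complexEmbedding_isReal
      (ComplexEmbedding.lift E (Complex.ofRealHom.comp φ))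
    have e : hr.embedding (algebraMap F E (Algebra.norm F y)) = φ (Algebra.norm F y) := by
      apply Complex.ofReal_injective
      rw [hr.coe_embedding_apply, ComplexEmbedding.lift_algebraMap_apply]
      rfl
    rw [← e, hn, map_prod]
    exact Finset.prod_pos fun σ _ => yp (hr.embedding.comp (σ : E →+* E))
  · have le1 : WithZero.exp (-(N' : ℤ)) ≤ (1 : WithZero (Multiplicative ℤ)) := by
      rw [← WithZero.exp_zero, WithZero.exp_le_exp]; omega
    have h1 : (W v).valuation E (∏ σ : E ≃ₐ[F] E, σ y - 1) ≤ WithZero.exp (-(N' : ℤ)) := by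
      refine Finset.prod_induction _
        (fun z => (W v).valuation E (z - 1) ≤ WithZero.exp (-(N' : ℤ))) (fun s t hs ht => ?_)
        (by simp) fun σ _ => ?_
      · have hs1 : (W v).valuation E s ≤ 1 := by
          have := Valuation.map_add_le _ (hs.trans le1) ((W v).valuation E).map_one.le
          rwa [sub_add_cancel] at this
        rw [show s * t - 1 = s * (t - 1) + (s - 1) by ring]
        refine Valuation.map_add_le _ ?_ hs
        rw [map_mul]
        exact (mul_le_mul' hs1 ht).trans (one_mul _).le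
      · have h2 := yc (act σ.symm.toRingEquiv (W v))
          (by rw [mem_above, under_act, under_eq (hW v)]; exact hv)
        rw [← val_act σ.symm.toRingEquiv (W v)]
        have e : σ.symm.toRingEquiv (σ y - 1) = y - 1 := by
          rw [map_sub, map_one]
          congr 1
          exact σ.symm_apply_apply y
        rwa [e]
    rw [← hn, ← map_one (algebraMap F E), ← map_sub, val_over (hW v)] at h1
    rcases eq_or_ne (Algebra.norm F y - 1) 0 with h0 | h0
    · rw [h0]; simp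
    rw [val_eq_exp v h0] at h1 ⊢
    rw [← WithZero.exp_nsmul, WithZero.exp_le_exp] at h1
    rw [WithZero.exp_le_exp]
    have h3 := Finset.single_le_sum (f := fun v => N * (W v).asIdeal.ramificationIdx (𝓞 F))
      (fun _ _ => Nat.zero_le _) hv
    generalize (W v).asIdeal.ramificationIdx (𝓞 F) = r at h1 h3
    have h4 : (N : ℤ) * r + 1 ≤ N' := by
      have : N * r + 1 ≤ N' := by omega
      exact_mod_cast this
    rw [nsmul_eq_mul] at h1
    by_contra h5
    have h6 : (0 : ℤ) ≤ r := Int.natCast_nonneg r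
    nlinarith

end Two

end CycX

theorem cyc (hA : NTA_st) (hB : NTB_st) (hC : NTC_st) : CYC_st :=
  ⟨fun _ _ _ _ m S ν hm h1 h2 => CycX.one hA hB hC m S ν hm h1 h2,
    fun _ _ _ _ _ _ _ _ _ S N => CycX.two S N⟩

theorem lang : LANG_st := by
  intro a n T ha hn hT
  induction n using Nat.recOnPosPrimePosCoprime with
  | prime_pow p k hp _ =>
    obtain ⟨q, hq, h1, h2, h3⟩ := CycX.ord_prime ha hp (k + T)
    refine ⟨q, hq.pos, ?_, h2, fun j hj => (pow_dvd_pow p (by omega)).trans (h3 j hj)⟩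
    refine (Nat.Prime.coprime_iff_not_dvd hq).2 fun h => ?_
    have h4 := Nat.le_of_dvd (Nat.pos_of_ne_zero hT) h
    have h5 : k + T + 2 < p ^ (k + T + 2) := Nat.lt_pow_self hp.one_lt
    omega
  | zero => exact absurd hn (lt_irrefl 0)
  | one => exact ⟨1, one_pos, Nat.coprime_one_left _, Nat.coprime_one_left _, fun k _ => one_dvd k⟩
  | coprime b c hb hc hbc ihb ihc =>
    obtain ⟨m1, p1, t1, a1, k1⟩ := ihb (by omega)
    obtain ⟨m2, p2, t2, a2, k2⟩ := ihc (by omega)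
    exact ⟨m1 * m2, Nat.mul_pos p1 p2, Nat.Coprime.mul_left t1 t2, Nat.Coprime.mul_left a1 a2,
      fun k hk => hbc.mul_dvd_of_dvd_of_dvd (k1 k (hk.of_mul_right m2)) (k2 k (hk.of_mul_left m1))⟩

end Pool.Agent.MP_f3cd89_nt

end

section

/-! Primes whose norm is not congruent to one modulo `p`. -/

set_option autoImplicit false

open Finset NumberField IsDedekindDomain

namespace Pool.Agent.MP_f3cd89_nt

namespace PrimeX

theorem aux (hF : FB_st) (hD : DENS_st) (L M : Type) [Field L] [NumberField L] [Field M]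
    [NumberField M] [Algebra L M] (p : ℕ) [NeZero p] [IsCyclotomicExtension {p} L M] [IsGalois L M]
    {ζ : M} (hζ : IsPrimitiveRoot ζ p) (S : Finset (Pr L))
    (hS : ∀ w, w ∉ S → (p : 𝓞 L) ∉ w.asIdeal ∧ nrm w ≡ 1 [MOD p]) :
    ζ ∈ Set.range (algebraMap L M) := by
  have hz : hζ.toInteger ^ p = 1 := hζ.toInteger_isPrimitiveRoot.pow_eq_one
  have fix : ∀ (Q : Pr M) (g : M ≃ₐ[L] M), Q.under (𝓞 L) ∉ S → IsArithFrobAt (𝓞 L) g Q.asIdeal →
      g = 1 := by
    intro Q g hQ hg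
    obtain ⟨h1, h2⟩ := hS _ hQ
    have h3 : (p : 𝓞 M) ∉ Q.asIdeal := fun h => h1 (by
      rw [← map_natCast (algebraMap (𝓞 L) (𝓞 M))] at h
      exact h)
    have h4 := AlgHom.IsArithFrobAt.apply_of_pow_eq_one hg hz h3
    have h5 : Nat.card (𝓞 L ⧸ Q.asIdeal.under (𝓞 L)) = nrm (Q.under (𝓞 L)) := by
      rw [nrm, Ideal.absNorm_apply, Submodule.cardQuot_apply]
      rfl
    rw [h5, pow_eq_pow_mod _ hz, h2, ← pow_eq_pow_mod _ hz, pow_one] at h4
    have h6 : g ζ = ζ := congrArg Subtype.val h4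
    refine AlgEquiv.coe_toAlgHom_injective (AlgHom.ext_of_adjoin_eq_top
      (IsCyclotomicExtension.adjoin_primitive_root_eq_top (A := L) hζ) ?_)
    rintro _ rfl
    exact h6
  obtain ⟨-, -, f3, f4, -⟩ := hF L M (M ≃ₐ[L] M)
  have hU : Unr M (M ≃ₐ[L] M) S := fun Q hQ => by
    obtain ⟨f, hf⟩ := f3 Q
    obtain rfl := fix Q f hQ hf
    refine eq_bot_iff.2 fun g hg => fix Q g hQ fun x => ?_
    have := add_mem (hg x) (hf x)
    simpa using this
  obtain ⟨φ, hφ⟩ := f4 S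
  have hT := (hD L M (M ≃ₐ[L] M) S φ ⊥ inferInstance hU hφ).2 fun v hv => by
    obtain ⟨w, h1, h2⟩ := hφ v hv
    exact fix w _ (h1 ▸ hv) h2
  refine (IsGalois.mem_range_algebraMap_iff_fixed ζ).2 fun g => ?_
  obtain rfl : g = 1 := Subgroup.mem_bot.1 (hT ▸ Subgroup.mem_top g)
  rfl

end PrimeX

theorem prime_ex (hF : FB_st) (hD : DENS_st) : PRIME_st := by
  classical
  intro L _ _ p S hp h
  have : NeZero p := ⟨hp.ne_zero⟩
  have := IsCyclotomicExtension.isGalois {p} L (CyclotomicField p L)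
  have hζ := IsCyclotomicExtension.zeta_spec p L (CyclotomicField p L)
  have p0 : (p : 𝓞 L) ≠ 0 := Nat.cast_ne_zero.2 hp.ne_zero
  by_contra hc
  obtain ⟨x, hx⟩ := PrimeX.aux hF hD L _ p hζ (S ∪ (dv ((p : 𝓞 L) : L)).support) fun w hw => by
    rw [mem_union, not_or, Finsupp.notMem_support_iff, dv_apply, ord_eq_zero_iff w p0] at hw
    refine ⟨hw.2, ?_⟩
    by_contra k
    exact hc ⟨w, hw.1, hw.2, k⟩
  have h1 : x ^ p = 1 := (algebraMap L (CyclotomicField p L)).injective (by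
    rw [map_pow, hx, map_one, hζ.pow_eq_one])
  rw [h x h1, map_one] at hx
  exact hζ.ne_one hp.one_lt hx.symm

end Pool.Agent.MP_f3cd89_nt

end
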