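import Pool.Agent.MP_f3cd89_nt.SStm
import Pool.Agent.MP_d64882_nt.Zeta
import Pool.Agent.Mg.Ff3cd89.G9366c6
import Pool.Agent.MP_f3cd89_nt.CStm
import Pool.Agent.Mg.Ff3cd89.Ga0ca59
import Pool.Agent.Mg.Ff3cd89.G3f2943
import Pool.Agent.Mg.Ff3cd89.Ge95a50
import Pool.Agent.Mg.Ff3cd89.G39c165
import Pool.Agent.MP_f3cd89_nt.Herb
import Pool.Agent.MP_f3cd89_nt.Ntc
import Pool.Agent.MP_f3cd89_nt.Si

section

set_option autoImplicit false
set_option linter.unusedSectionVars false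

open Finset NumberField IsDedekindDomain Pointwise

namespace Pool.Agent.MP_f3cd89_nt.FixX

variable {F₁ F : Type} [Field F₁] [NumberField F₁] [Field F] [NumberField F] [Algebra F₁ F]
  {p : ℕ} {ρ : F ≃+* F} {S₁ : Finset (Pr F₁)}

open Classical in
theorem ind_apply (C : Finset (Pr F)) (v : Pr F) : ind C v = if v ∈ C then 1 else 0 := by
  simp [ind, Finsupp.finsetSum_apply, Finsupp.single_apply]

theorem ext_apply (D : Pr F₁ →₀ ℤ) (w : Pr F) : extD F D w = D (w.under (𝓞 F₁)) := rfl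

theorem ext_ind (C : Finset (Pr F₁)) : extD F (ind C) = ind (above F C) := by
  ext w
  rw [ext_apply, ind_apply, ind_apply]
  by_cases hw : w ∈ above F C
  · rw [if_pos hw, if_pos (mem_above.1 hw)]
  · rw [if_neg hw, if_neg fun e => hw (mem_above.2 e)]

theorem ext_inj : Function.Injective (extD F : (Pr F₁ →₀ ℤ) → Pr F →₀ ℤ) := fun D D' h => by
  ext v
  obtain ⟨w, rfl⟩ := under_surj (E' := F) v
  exact DFunLike.congr_fun h w

theorem ext_prod {M : Type} [DivisionCommMonoid M] (f : Pr F → M) (D : Pr F₁ →₀ ℤ) :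
    (extD F D).prod (fun w n => f w ^ n) = D.prod fun v n => (∏ w ∈ above F {v}, f w) ^ n := by
  classical
  rw [extD, Finsupp.onFinset_prod _ (fun _ => zpow_zero _), Finsupp.prod,
    ← prod_fiberwise_of_maps_to (g := fun w : Pr F => w.under (𝓞 F₁)) fun w hw => mem_above.1 hw]
  refine prod_congr rfl fun v hv => ?_
  rw [← prod_zpow]
  refine prod_congr ?_ fun w hw => by rw [mem_singleton.1 (mem_above.1 hw)]
  ext w
  simp only [mem_filter, mem_above, mem_singleton]
  exact ⟨fun h => h.2, fun h => ⟨h ▸ hv, h⟩⟩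

theorem mem_lat_ord {D : Pr F →₀ ℤ} {x : F} (hx : x ≠ 0) : x ∈ lat D ↔ ∀ v, D v ≤ ord v x := by
  simp only [mem_lat, val_eq_exp _ hx, WithZero.exp_le_exp, neg_le_neg_iff]

theorem lat_mono {D D' : Pr F →₀ ℤ} (h : ∀ v, D' v ≤ D v) {x : F} (hx : x ∈ lat D) :
    x ∈ lat D' := fun v => (hx v).trans (WithZero.exp_le_exp.2 (neg_le_neg (h v)))

theorem smul_mem_lat {G : Type} [Group G] [MulSemiringAction G F] (g : G) {D D' : Pr F →₀ ℤ}
    (h : ∀ w, D' (gact g w) ≤ D w) {x : F} (hx : x ∈ lat D) : g • x ∈ lat D' := fun w => by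
  obtain ⟨w, rfl⟩ : ∃ w', gact g w' = w := ⟨gact g⁻¹ w, by rw [← gact_mul, mul_inv_cancel, gact_one]⟩
  rw [val_gact]
  exact (hx w).trans (WithZero.exp_le_exp.2 (neg_le_neg (h w)))

section G

variable (G : Type) [Group G] [MulSemiringAction G F] [IsGaloisGroup G F₁ F] [Finite G]

theorem transG {w w' : Pr F} (e : w.under (𝓞 F₁) = w'.under (𝓞 F₁)) :
    ∃ g : G, gact g w = w' := by
  have := w.isPrime
  have := w'.isPrime
  have := over_under (E := F₁) w'
  have : w.asIdeal.LiesOver (w'.under (𝓞 F₁)).asIdeal := e ▸ over_under w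
  obtain ⟨g, hg⟩ := Ideal.exists_smul_eq_of_isGaloisGroup (w'.under (𝓞 F₁)).asIdeal w.asIdeal
    w'.asIdeal G
  exact ⟨g, HeightOneSpectrum.ext (by rw [gact_asIdeal, hg])⟩

theorem underG (g : G) (w : Pr F) : (gact g w).under (𝓞 F₁) = w.under (𝓞 F₁) := by
  refine HeightOneSpectrum.ext ?_
  change (gact g w).asIdeal.under (𝓞 F₁) = w.asIdeal.under (𝓞 F₁)
  rw [gact_asIdeal, Ideal.under_smul]

theorem prodG {v : Pr F₁} (hv : ∀ w : Pr F, w.under (𝓞 F₁) = v →
    w.asIdeal.ramificationIdx (𝓞 F₁) = 1) : ∏ w ∈ above F {v}, nrm w = nrm v ^ Nat.card G := by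
  have := v.isPrime
  have := v.isMaximal
  have : Fintype (v.asIdeal.primesOver (𝓞 F)) := Fintype.ofFinite _
  rw [← Ideal.sum_ramification_inertia_eq_card v.asIdeal (𝓞 F), ← prod_pow_eq_pow_sum]
  have ho : ∀ w ∈ above F {v}, w.asIdeal.LiesOver v.asIdeal := fun w hw =>
    mem_singleton.1 (mem_above.1 hw) ▸ over_under w
  refine prod_bij (fun w hw => ⟨w.asIdeal, w.isPrime, ho w hw⟩) (fun _ _ => mem_univ _)
    (fun w _ w' _ e => HeightOneSpectrum.ext (congrArg Subtype.val e)) ?_ ?_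
  · rintro ⟨P, h1, h2⟩ -
    exact ⟨⟨P, h1, Ideal.ne_bot_of_liesOver_of_ne_bot v.ne_bot P⟩,
      mem_above.2 (mem_singleton.2 (under_eq h2)), rfl⟩
  · intro w hw
    rw [hv w (under_eq (ho w hw)), one_mul]
    exact absNorm_over (ho w hw)

end G

/-- the generator -/
def gen (ρ : F ≃+* F) : Subgroup.zpowers ρ := ⟨ρ, Subgroup.mem_zpowers ρ⟩

theorem gen_smul (x : F) : gen ρ • x = ρ x := rfl

theorem gact_gen (w : Pr F) : gact (gen ρ) w = act ρ w := rfl

variable (h : Rel F₁ F p ρ S₁)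
include h

theorem card_eq : Nat.card (Subgroup.zpowers ρ) = p := by rw [Nat.card_zpowers, h.ord_eq]

theorem fin : Finite (Subgroup.zpowers ρ) :=
  Nat.finite_of_card_ne_zero (by rw [card_eq h]; exact h.prime.ne_zero)

theorem ind_gen (P : Subgroup.zpowers ρ → Prop) (h1 : P 1) (hs : ∀ g, P g → P (gen ρ * g))
    (g : Subgroup.zpowers ρ) : P g := by
  obtain ⟨g, hg⟩ := g
  have ho : IsOfFinOrder ρ := orderOf_pos_iff.1 (h.ord_eq ▸ h.prime.pos)
  obtain ⟨n, rfl⟩ := ho.mem_powers_iff_mem_zpowers.2 hg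
  have : ∀ n : ℕ, P (gen ρ ^ n) := fun n => by
    induction n with
    | zero => simpa using h1
    | succ n ih => rw [pow_succ']; exact hs _ ih
  exact this n

theorem smul_alg (g : Subgroup.zpowers ρ) (a : F₁) :
    g • algebraMap F₁ F a = algebraMap F₁ F a :=
  ind_gen h (fun g => g • algebraMap F₁ F a = algebraMap F₁ F a) (one_smul _ _)
    (fun g hg => by rw [mul_smul, hg, gen_smul, (h.fix _).2 ⟨a, rfl⟩]) g

theorem gal : IsGaloisGroup (Subgroup.zpowers ρ) F₁ F where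
  faithful := inferInstance
  commutes := ⟨fun g a x => by rw [Algebra.smul_def, Algebra.smul_def, smul_mul', smul_alg h]⟩
  isInvariant := ⟨fun x hx => (h.fix x).1 (hx (gen ρ))⟩

theorem trans {w w' : Pr F} (e : w.under (𝓞 F₁) = w'.under (𝓞 F₁)) :
    ∃ g : Subgroup.zpowers ρ, gact g w = w' := by
  have := gal h
  have := fin h
  exact transG _ e

theorem under_gact (g : Subgroup.zpowers ρ) (w : Pr F) :
    (gact g w).under (𝓞 F₁) = w.under (𝓞 F₁) := by
  have := gal h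
  have := fin h
  exact underG _ g w

theorem ram_one {w : Pr F} (hw : w.under (𝓞 F₁) ∉ S₁) :
    w.asIdeal.ramificationIdx (𝓞 F₁) = 1 := by
  obtain ⟨a, -, ha⟩ := exists_ord_eq_one (w.under (𝓞 F₁))
  have := h.unr w hw a
  rw [ord_over (over_under w), ha, mul_one] at this
  exact_mod_cast this

theorem prod_nrm {v : Pr F₁} (hv : v ∉ S₁) : ∏ w ∈ above F {v}, nrm w = nrm v ^ p := by
  have := gal h
  have := fin h
  rw [← card_eq h]
  exact prodG _ fun w hw => ram_one h (hw ▸ hv)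

theorem alg_mem_lat {E : Pr F₁ →₀ ℤ} (hE : E ∈ off S₁) (x : F₁) :
    algebraMap F₁ F x ∈ lat (extD F E) ↔ x ∈ lat E := by
  rcases eq_or_ne x 0 with rfl | hx
  · simp
  have key : ∀ w : Pr F, extD F E w ≤ ord w (algebraMap F₁ F x) ↔
      E (w.under (𝓞 F₁)) ≤ ord (w.under (𝓞 F₁)) x := fun w => by
    rw [ext_apply]
    by_cases hw : w.under (𝓞 F₁) ∈ S₁
    · have := w.isPrime
      rw [hE _ hw, ord_over (over_under w), mul_nonneg_iff_of_pos_left]
      exact_mod_cast Ideal.ramificationIdx_pos _ _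
    · rw [h.unr w hw]
  rw [mem_lat_ord hx, mem_lat_ord ((map_ne_zero _).2 hx)]
  refine ⟨fun H v => ?_, fun H w => (key w).2 (H _)⟩
  obtain ⟨w, rfl⟩ := under_surj (E' := F) v
  exact (key w).1 (H w)

theorem smul_mem_ext (g : Subgroup.zpowers ρ) {E : Pr F₁ →₀ ℤ} {x : F} (hx : x ∈ lat (extD F E)) :
    g • x ∈ lat (extD F E) :=
  smul_mem_lat g (fun w => by rw [ext_apply, ext_apply, under_gact h]) hx

theorem exists_tr [Fintype (Subgroup.zpowers ρ)] :
    ∃ Tr : F →+ F₁, ∀ x, algebraMap F₁ F (Tr x) = ∑ g : Subgroup.zpowers ρ, g • x := by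
  have : ∀ x : F, ∃ y, algebraMap F₁ F y = ∑ g : Subgroup.zpowers ρ, g • x := fun x =>
    (h.fix _).1 (by
      rw [← gen_smul, smul_sum]
      exact Fintype.sum_equiv (Equiv.mulLeft (gen ρ)) _ _ fun g => (mul_smul _ _ _).symm)
  choose t ht using this
  refine ⟨AddMonoidHom.mk' t fun x y => (algebraMap F₁ F).injective ?_, ht⟩
  simp only [map_add, ht, smul_add, sum_add_distrib]

end Pool.Agent.MP_f3cd89_nt.FixX

end

section

set_option autoImplicit false
set_option linter.unusedSectionVars false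

open Finset NumberField IsDedekindDomain Pointwise

namespace Pool.Agent.MP_f3cd89_nt

namespace FixX

variable {F₁ F : Type} [Field F₁] [NumberField F₁] [Field F] [NumberField F] [Algebra F₁ F]
  {p : ℕ} {ρ : F ≃+* F} {S₁ C₁ : Finset (Pr F₁)} {l : ℕ}

theorem add_sum {M : AddSubgroup F} {χ : F → ZMod l}
    (hχ : ∀ x ∈ M, ∀ y ∈ M, χ (x + y) = χ x + χ y) {ι : Type} (s : Finset ι) (x : ι → F)
    (hx : ∀ i, x i ∈ M) : χ (∑ i ∈ s, x i) = ∑ i ∈ s, χ (x i) := by
  classical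
  induction s using Finset.induction_on with
  | empty => simpa using hχ 0 M.zero_mem 0 M.zero_mem
  | insert i s hi ih =>
    rw [sum_insert hi, sum_insert hi, hχ _ (hx i) _ (M.sum_mem fun j _ => hx j), ih]

theorem ind_single (v : Pr F) : ind {v} = Finsupp.single v 1 := by simp [ind]

theorem ind_le {T C : Finset (Pr F)} (h : T ⊆ C) (v : Pr F) : ind T v ≤ ind C v := by
  rw [ind_apply, ind_apply]
  by_cases hv : v ∈ T
  · rw [if_pos hv, if_pos (h hv)]
  · rw [if_neg hv]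
    split_ifs <;> simp

theorem lat_sub {T C : Finset (Pr F)} (h : T ⊆ C) {D : Pr F →₀ ℤ} {x : F}
    (hx : x ∈ lat (-D + ind C - ind T)) : x ∈ lat (-D) :=
  lat_mono (fun v => by
    have := ind_le h v
    simp only [Finsupp.sub_apply, Finsupp.add_apply]
    omega) hx

theorem vanish (hC : NTC_st) {C T : Finset (Pr F)} (hT : T ⊆ C) {D : Pr F →₀ ℤ}
    {χ : F → ZMod l} (hχ : ∀ x ∈ lat (-D), ∀ y ∈ lat (-D), χ (x + y) = χ x + χ y)
    (h0 : ∀ x ∈ lat (-D + ind C), χ x = 0)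
    (h1 : ∀ c ∈ T, ∀ x ∈ lat (-D + ind C - ind {c}), χ x = 0) :
    ∀ x ∈ lat (-D + ind C - ind T), χ x = 0 := by
  classical
  induction T using Finset.induction_on with
  | empty => simpa [ind] using h0
  | insert c T hc ih =>
    have hT' : T ⊆ C := (subset_insert _ _).trans hT
    have hc' : {c} ⊆ C := singleton_subset_iff.2 (hT (mem_insert_self _ _))
    have e : -D + ind C - ind (insert c T) = (-D + ind C - ind T) ⊓ (-D + ind C - ind {c}) := by
      ext v
      generalize -D + ind C = A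
      simp only [Finsupp.inf_apply, Finsupp.sub_apply]
      rw [ind_apply, ind_apply, ind_apply]
      by_cases h : v = c
      · subst h
        simp [hc]
      · by_cases h' : v ∈ T <;> simp [h, h']
    intro x hx
    rw [e, ← (hC F).2.1] at hx
    obtain ⟨y, hy, z, hz, rfl⟩ := AddSubgroup.mem_sup.1 hx
    rw [hχ _ (lat_sub hT' hy) _ (lat_sub hc' hz),
      ih hT' (fun c hc => h1 c (mem_insert_of_mem hc)) y hy, h1 c (mem_insert_self _ _) z hz,
      add_zero]

theorem ext_neg (D : Pr F₁ →₀ ℤ) : extD F (-D) = -extD F D := by ext; rfl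

theorem ext_a (D : Pr F₁ →₀ ℤ) : extD F (-D + ind C₁) = -extD F D + ind (above F C₁) := by
  rw [← ext_ind]
  ext
  rfl

theorem ext_b (D : Pr F₁ →₀ ℤ) (c : Pr F₁) : extD F (-D + ind C₁ - Finsupp.single c 1) =
    -extD F D + ind (above F C₁) - ind (above F {c}) := by
  rw [← ext_ind, ← ext_ind, ind_single]
  ext
  rfl

theorem ind_off (hd : Disjoint S₁ C₁) {T : Finset (Pr F₁)} (hT : T ⊆ C₁) : ind T ∈ off S₁ :=
  fun v hv => by rw [ind_apply, if_neg fun e => disjoint_left.1 hd hv (hT e)]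

theorem off_a (hd : Disjoint S₁ C₁) {D : Pr F₁ →₀ ℤ} (hD : D ∈ off S₁) : -D + ind C₁ ∈ off S₁ :=
  add_mem (neg_mem hD) (ind_off hd subset_rfl)

theorem off_b (hd : Disjoint S₁ C₁) {D : Pr F₁ →₀ ℤ} (hD : D ∈ off S₁) {c : Pr F₁} (hc : c ∈ C₁) :
    -D + ind C₁ - Finsupp.single c 1 ∈ off S₁ :=
  sub_mem (off_a hd hD) (ind_single c ▸ ind_off hd (singleton_subset_iff.2 hc))

open Classical in
/-- the character obtained from the trace -/
noncomputable def up (p : ℕ) (Tr : F →+ F₁) (D : Pr F₁ →₀ ℤ) (χ : F₁ → ZMod l) (x : F) : ZMod l :=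
  if x ∈ lat (-extD F D) then (p : ZMod l)⁻¹ * χ (Tr x) else 0

variable [Fact l.Prime] (h : Rel F₁ F p ρ S₁) [Fintype (Subgroup.zpowers ρ)] {Tr : F →+ F₁}
  (hT : ∀ x, algebraMap F₁ F (Tr x) = ∑ g : Subgroup.zpowers ρ, g • x) (hp : (p : ZMod l) ≠ 0)
include h hT

theorem tr_mem {E : Pr F₁ →₀ ℤ} (hE : E ∈ off S₁) {x : F} (hx : x ∈ lat (extD F E)) :
    Tr x ∈ lat E := by
  rw [← alg_mem_lat h hE, hT]
  exact sum_mem fun g _ => smul_mem_ext h g hx

theorem tr_smul (g : Subgroup.zpowers ρ) (x : F) : Tr (g • x) = Tr x :=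
  (algebraMap F₁ F).injective (by
    rw [hT, hT]
    exact Fintype.sum_equiv (Equiv.mulRight g) _ _ fun g' => (mul_smul _ _ _).symm)

theorem tr_alg (x : F₁) : Tr (algebraMap F₁ F x) = ∑ _g : Subgroup.zpowers ρ, x :=
  (algebraMap F₁ F).injective (by simp only [hT, map_sum, smul_alg h])

theorem up_smul (D : Pr F₁ →₀ ℤ) (χ : F₁ → ZMod l) (g : Subgroup.zpowers ρ) (x : F) :
    up p Tr D χ (g • x) = up p Tr D χ x := by
  have : g • x ∈ lat (-extD F D) ↔ x ∈ lat (-extD F D) := by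
    rw [← ext_neg]
    exact ⟨fun e => by simpa using smul_mem_ext h g⁻¹ e, smul_mem_ext h g⟩
  rw [up, up, tr_smul h hT]
  by_cases hx : x ∈ lat (-extD F D)
  · rw [if_pos hx, if_pos (this.2 hx)]
  · rw [if_neg hx, if_neg fun e => hx (this.1 e)]

omit hT in
theorem sum_const_p (a : ZMod l) : ∑ _g : Subgroup.zpowers ρ, a = p * a := by
  rw [sum_const, card_univ, ← Nat.card_eq_fintype_card, card_eq h, nsmul_eq_mul]

include hp

theorem up_alg {D : Pr F₁ →₀ ℤ} (hD : D ∈ off S₁) {χ : F₁ → ZMod l} (hχ : IsPrim C₁ D χ)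
    (x : F₁) : up p Tr D χ (algebraMap F₁ F x) = χ x := by
  rw [up, ← ext_neg]
  by_cases hx : x ∈ lat (-D)
  · rw [if_pos ((alg_mem_lat h (neg_mem hD) x).2 hx), tr_alg h hT,
      add_sum hχ.add _ _ fun _ => hx, sum_const_p h, inv_mul_cancel_left₀ hp]
  · rw [if_neg fun e => hx ((alg_mem_lat h (neg_mem hD) x).1 e), hχ.out x hx]

theorem up_prim (hC : NTC_st) (hd : Disjoint S₁ C₁) {D : Pr F₁ →₀ ℤ} (hD : D ∈ off S₁)
    {χ : F₁ → ZMod l} (hχ : IsPrim C₁ D χ) : IsPrim (above F C₁) (extD F D) (up p Tr D χ) := by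
  have ha : ∀ x ∈ lat (-extD F D), ∀ y ∈ lat (-extD F D),
      up p Tr D χ (x + y) = up p Tr D χ x + up p Tr D χ y := fun x hx y hy => by
    rw [up, up, up, if_pos hx, if_pos hy, if_pos (add_mem hx hy), map_add,
      hχ.add _ (tr_mem h hT (neg_mem hD) (ext_neg (F := F) D ▸ hx)) _
        (tr_mem h hT (neg_mem hD) (ext_neg (F := F) D ▸ hy)), mul_add]
  have hk : ∀ x ∈ lat (-extD F D + ind (above F C₁)), up p Tr D χ x = 0 := fun x hx => by
    rw [up, hχ.kill _ (tr_mem h hT (off_a hd hD) (ext_a (F := F) D ▸ hx)), mul_zero, ite_self]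
  refine ⟨ha, fun x hx => if_neg hx, hk, fun c hc => ?_⟩
  by_contra H
  push Not at H
  have hc₁ := mem_above.1 hc
  obtain ⟨x, hx, h0⟩ := hχ.prim _ hc₁
  refine h0 ?_
  rw [← up_alg h hT hp hD hχ]
  refine vanish hC (C := above F C₁) (T := above F {c.under (𝓞 F₁)})
    (fun w hw => mem_above.2 (mem_singleton.1 (mem_above.1 hw) ▸ hc₁)) ha hk ?_ _
    (ext_b (F := F) D _ ▸ (alg_mem_lat h (off_b hd hD hc₁) x).2 hx)
  intro c' hc' y hy
  obtain ⟨g, rfl⟩ := trans h (mem_singleton.1 (mem_above.1 hc'))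
  rw [← up_smul h hT D χ g]
  refine H _ (smul_mem_lat g (fun w => le_of_eq ?_) hy)
  have e : gact g w = gact g c' ↔ w = c' :=
    ⟨fun e => by simpa [← gact_mul, gact_one] using congrArg (gact g⁻¹) e, fun e => e ▸ rfl⟩
  rw [← ind_single, ← ext_a]
  simp only [Finsupp.sub_apply, ext_apply, under_gact h]
  rw [ind_apply, ind_apply]
  by_cases hw : w = c' <;> simp [e, hw]

theorem down (hd : Disjoint S₁ C₁) {D : Pr F₁ →₀ ℤ} (hD : D ∈ off S₁) {χ : F → ZMod l}
    (hχ : IsPrim (above F C₁) (extD F D) χ) (hρ : ∀ x, χ (ρ x) = χ x) :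
    IsPrim C₁ D (fun x => χ (algebraMap F₁ F x)) ∧
      up p Tr D (fun x => χ (algebraMap F₁ F x)) = χ := by
  have hg : ∀ (g : Subgroup.zpowers ρ) x, χ (g • x) = χ x :=
    ind_gen h (fun g => ∀ x, χ (g • x) = χ x) (fun x => by rw [one_smul])
      fun g hg x => by rw [mul_smul, gen_smul, hρ, hg]
  have hm : ∀ x, algebraMap F₁ F x ∈ lat (-extD F D) ↔ x ∈ lat (-D) := fun x => by
    rw [← ext_neg, alg_mem_lat h (neg_mem hD)]
  have ht : ∀ x ∈ lat (-extD F D), χ (algebraMap F₁ F (Tr x)) = p * χ x := fun x hx => by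
    rw [hT, add_sum hχ.add _ _ fun g =>
      ext_neg (F := F) D ▸ smul_mem_ext h g (ext_neg (F := F) D ▸ hx)]
    simp only [hg, sum_const_p h]
  refine ⟨⟨fun x hx y hy => ?_, fun x hx => hχ.out _ fun e => hx ((hm x).1 e),
    fun x hx => hχ.kill _ ?_, fun c hc => ?_⟩, funext fun x => ?_⟩
  · rw [map_add, hχ.add _ ((hm x).2 hx) _ ((hm y).2 hy)]
  · rw [← ext_a]
    exact (alg_mem_lat h (off_a hd hD) x).2 hx
  · obtain ⟨w, rfl⟩ := under_surj (E' := F) c
    have hw := (mem_above (E' := F)).2 hc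
    obtain ⟨x, hx, h0⟩ := hχ.prim w hw
    rw [← ind_single] at hx
    refine ⟨Tr x, tr_mem h hT (off_b hd hD hc) ?_, ?_⟩
    · rw [ext_b]
      refine lat_mono (fun v => ?_) hx
      have := ind_le (singleton_subset_iff.2
        ((mem_above (E' := F)).2 (mem_singleton_self (w.under (𝓞 F₁))))) v
      simp only [Finsupp.sub_apply]
      omega
    · rw [ht x (lat_sub (singleton_subset_iff.2 hw) hx)]
      exact mul_ne_zero hp h0
  · rw [up]
    split_ifs with hx
    · rw [ht x hx, inv_mul_cancel_left₀ hp]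
    · exact (hχ.out x hx).symm

omit hT hp in
theorem exists_ext {D : Pr F →₀ ℤ} (hD : ∀ w, D (act ρ w) = D w) :
    ∃ D₁ : Pr F₁ →₀ ℤ, extD F D₁ = D := by
  classical
  have hg : ∀ (g : Subgroup.zpowers ρ) w, D (gact g w) = D w :=
    ind_gen h (fun g => ∀ w, D (gact g w) = D w) (fun w => by rw [gact_one])
      fun g hg w => by rw [gact_mul, gact_gen, hD, hg]
  choose s hs using under_surj (E := F₁) (E' := F)
  refine ⟨Finsupp.onFinset (D.support.image fun w => w.under (𝓞 F₁)) (fun v => D (s v))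
    fun v hv => mem_image.2 ⟨s v, Finsupp.mem_support_iff.2 hv, hs v⟩, ?_⟩
  ext w
  obtain ⟨g, e⟩ := trans h (hs (w.under (𝓞 F₁))).symm
  rw [ext_apply, Finsupp.onFinset_apply, ← e, hg]

end FixX

open FixX in
theorem fix (hC : NTC_st) : FIX_st := by
  intro F₁ F _ _ _ _ _ p ρ S₁ C₁ l hl h hlp hd _
  have := fin h
  have : Fintype (Subgroup.zpowers ρ) := Fintype.ofFinite _
  obtain ⟨Tr, hT⟩ := exists_tr h
  have hp : (p : ZMod l) ≠ 0 := fun e =>
    hlp ((Nat.prime_dvd_prime_iff_eq hl.out h.prime).1 ((ZMod.natCast_eq_zero_iff p l).1 e))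
  refine ⟨fun D hD => ?_, fun ψ D => ?_, fun q => ⟨(extD F q.1.1, up p Tr q.1.1 q.1.2),
    fun w => q.2.1 _, fun w hw => q.2.2.1 _ (mem_above.1 hw),
    up_prim h hT hp hC hd q.2.2.1 q.2.2.2⟩, fun q q' e => ?_, fun q => ⟨rfl, ?_⟩, fun q => ⟨?_, ?_⟩⟩
  · rw [nmD, ext_prod fun w : Pr F => (nrm w : ℝ), nmD, Finsupp.prod, Finsupp.prod, ← prod_pow]
    refine prod_congr rfl fun v hv => ?_
    rw [← Nat.cast_prod, prod_nrm h fun e => Finsupp.mem_support_iff.1 hv (hD v e), Nat.cast_pow,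
      ← zpow_natCast, ← zpow_natCast, ← zpow_mul, ← zpow_mul, mul_comm]
  · rw [chv, ext_prod, chv]
  · have e1 : extD F q.1.1 = extD F q'.1.1 := congrArg (·.1.1) e
    have e2 : up p Tr q.1.1 q.1.2 = up p Tr q'.1.1 q'.1.2 := congrArg (·.1.2) e
    refine Subtype.ext (Prod.ext (ext_inj e1) (funext fun x => ?_))
    rw [← up_alg h hT hp q.2.2.1 q.2.2.2, e2, up_alg h hT hp q'.2.2.1 q'.2.2.2]
  · rw [← up_alg h hT hp q.2.2.1 q.2.2.2, map_one]
  · rintro ⟨q, rfl⟩
    exact ⟨fun w => congrArg q.1.1 (under_gact h (gen ρ) w), up_smul h hT _ _ (gen ρ)⟩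
  · obtain ⟨⟨D, χ⟩, h0, h1, h2⟩ := q
    rintro ⟨h3, h4⟩
    obtain ⟨D₁, rfl⟩ := exists_ext h h3
    have hD : D₁ ∈ off S₁ := fun v hv => by
      obtain ⟨w, rfl⟩ := under_surj (E' := F) v
      exact h1 w (mem_above.2 hv)
    have h5 := down h hT hp hd hD h2 h4
    refine ⟨⟨(D₁, _), fun v => ?_, hD, h5.1⟩, Subtype.ext (Prod.ext rfl h5.2)⟩
    obtain ⟨w, rfl⟩ := under_surj (E' := F) v
    exact h0 w

end Pool.Agent.MP_f3cd89_nt

end

section

/-! The characteristic polynomial of a weighted cyclic shift, and the ring `J`. -/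

set_option autoImplicit false

open Finset

namespace Pool.Agent.MP_f3cd89_nt

namespace DetX

variable {k : Type} [CommRing k]

theorem sign_rot (n : ℕ) :
    Equiv.Perm.sign (Equiv.addRight (1 : ZMod (n + 1))) = (-1) ^ n := by
  have h : Equiv.addRight (1 : ZMod (n + 1)) = finRotate (n + 1) :=
    Equiv.ext fun i => (finRotate_apply (n := n + 1) i).symm
  rw [h]
  exact sign_finRotate (n + 1)

theorem eq_rot {f : ℕ} [NeZero f] (σ : Equiv.Perm (ZMod f)) (h : ∀ i, σ i = i ∨ σ i = i + 1)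
    (h1 : σ ≠ 1) : σ = Equiv.addRight 1 := by
  obtain ⟨a, ha⟩ : ∃ a, σ a ≠ a := by
    by_contra! h2
    exact h1 (Equiv.ext h2)
  have h0 : (1 : ZMod f) ≠ 0 := fun e => ha (by simpa [e] using h a)
  have key : ∀ m : ℕ, σ (a + m) = a + m + 1 := fun m => by
    induction m with
    | zero => simpa using (h a).resolve_left ha
    | succ m ih =>
      rw [Nat.cast_succ, ← add_assoc]
      refine (h _).resolve_left fun e => h0 ?_
      simpa using σ.injective (e.trans ih.symm)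
  refine Equiv.ext fun i => ?_
  simpa using key (i - a).val

theorem det_one (f : ℕ) [NeZero f] (x : ZMod f → k) (y : k) :
    (y • (1 : Matrix (ZMod f) (ZMod f) k) -
      Matrix.of fun i j : ZMod f => if j = i + 1 then x i else 0).det = y ^ f - ∏ i, x i := by
  obtain ⟨n, rfl⟩ := Nat.exists_eq_succ_of_ne_zero (NeZero.ne f)
  rcases n with _ | n
  · have : Unique (ZMod (Nat.succ 0)) := inferInstanceAs (Unique (Fin 1))
    rw [Matrix.det_unique, Fintype.prod_unique]
    simp [Subsingleton.elim (1 : ZMod (Nat.succ 0)) 0]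
  have : Fact (1 < (n + 1).succ) := ⟨by omega⟩
  have h0 : ∀ i : ZMod (n + 1).succ, i ≠ i + 1 := fun i => by simp
  rw [← Matrix.det_transpose, Matrix.det_apply',
    Fintype.sum_eq_add 1 (Equiv.addRight 1) (fun e => h0 0 (Equiv.congr_fun e 0))]
  · rw [sign_rot (n + 1)]
    simp only [Matrix.transpose_apply, Matrix.sub_apply, Matrix.smul_apply, Matrix.of_apply,
      Equiv.Perm.one_apply, Equiv.coe_addRight, Matrix.one_apply_eq, if_neg (h0 _),
      Matrix.one_apply_ne (h0 _), if_true, smul_eq_mul, mul_one, mul_zero, sub_zero, zero_sub,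
      prod_const, prod_neg, card_univ, ZMod.card, Equiv.Perm.sign_one]
    push_cast
    rw [pow_succ (-1 : k) (n + 1), ← mul_assoc, ← mul_assoc, ← mul_pow]
    simp [sub_eq_add_neg]
  · intro σ hσ
    obtain ⟨i, hi⟩ : ∃ i, ¬(σ i = i ∨ σ i = i + 1) := by
      by_contra! h
      exact hσ.2 (eq_rot σ h hσ.1)
    rw [not_or] at hi
    rw [prod_eq_zero (mem_univ i), mul_zero]
    simp [hi.2, Matrix.one_apply_ne' hi.1]

theorem det_unit (f : ℕ) [NeZero f] (u : (ZMod f)ˣ) (x : ZMod f → k) (y : k) :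
    (y • (1 : Matrix (ZMod f) (ZMod f) k) -
      Matrix.of fun i j : ZMod f => if j = i + u then x i else 0).det = y ^ f - ∏ i, x i := by
  rw [← Matrix.det_submatrix_equiv_self u.mulLeft, ← Equiv.prod_comp u.mulLeft x, ← det_one]
  congr 1
  ext i j
  have : (u : ZMod f) * j = u * i + u ↔ j = i + 1 := by
    rw [← mul_add_one, u.mul_right_inj]
  simp [Matrix.one_apply, this]

theorem prod_val (f : ℕ) [NeZero f] (F : ℕ → k) :
    ∏ t : ZMod f, F t.val = ∏ t ∈ range f, F t := by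
  obtain ⟨n, rfl⟩ := Nat.exists_eq_succ_of_ne_zero (NeZero.ne f)
  exact Fin.prod_univ_eq_prod_range F n.succ

theorem det_gen (d g f : ℕ) [NeZero d] (h : f * g = d) (e : ℤ) (hu : IsCoprime (f : ℤ) e)
    (x : ℕ → k) (y : k) :
    (y • (1 : Matrix (ZMod d) (ZMod d) k) - Matrix.of fun i j : ZMod d =>
      if j = i + ((e * g : ℤ) : ZMod d) then x i.val else 0).det =
    ∏ i ∈ range g, (y ^ f - ∏ t ∈ range f, x (i + t * g)) := by
  have : NeZero f := ⟨left_ne_zero_of_mul (h ▸ NeZero.ne d)⟩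
  obtain ⟨u, hu⟩ := (ZMod.coe_int_isUnit_iff_isCoprime e f).2 hu
  have hlt : ∀ z : ZMod f × Fin g, z.2 + z.1.val * g < d := fun z => by
    have h1 := Nat.mul_le_mul_right g (Nat.succ_le_of_lt z.1.val_lt)
    have h2 := z.2.2
    rw [h, Nat.succ_mul] at h1
    omega
  obtain ⟨φ, hφ⟩ : ∃ φ : ZMod f × Fin g ≃ ZMod d,
      ∀ z, φ z = ((z.2 + z.1.val * g : ℕ) : ZMod d) := by
    refine ⟨Equiv.ofBijective (fun z => ((z.2 + z.1.val * g : ℕ) : ZMod d))
      ((Fintype.bijective_iff_injective_and_card _).2 ⟨fun z z' hz => ?_, by simp [h]⟩),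
      fun _ => rfl⟩
    rw [ZMod.natCast_eq_natCast_iff', Nat.mod_eq_of_lt (hlt z), Nat.mod_eq_of_lt (hlt z')] at hz
    have h1 := congrArg (· % g) hz
    simp only [Nat.add_mul_mod_self_right, Nat.mod_eq_of_lt z.2.2, Nat.mod_eq_of_lt z'.2.2] at h1
    rw [h1, Nat.add_left_cancel_iff] at hz
    exact Prod.ext (ZMod.val_injective f (Nat.eq_of_mul_eq_mul_right z.2.pos hz)) (Fin.ext h1)
  have hadd : ∀ z : ZMod f × Fin g, φ z + ((e * g : ℤ) : ZMod d) = φ (z.1 + u, z.2) := fun z => by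
    have h1 : (((z.1 + u).val : ℤ) : ZMod f) = ((z.1.val + e : ℤ) : ZMod f) := by simp [hu]
    have h2 := ((ZMod.intCast_eq_intCast_iff _ _ _).1 h1).mul_right' (c := g)
    rw [← Nat.cast_mul f, h, ← ZMod.intCast_eq_intCast_iff] at h2
    rw [hφ, hφ]
    simp only [Nat.cast_add, Nat.cast_mul, Int.cast_mul, Int.cast_add, Int.cast_natCast] at h2 ⊢
    rw [h2]
    ring
  rw [← Matrix.det_submatrix_equiv_self φ, ← Fin.prod_univ_eq_prod_range
    (fun i => y ^ f - ∏ t ∈ range f, x (i + t * g))]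
  have key : (y • (1 : Matrix (ZMod d) (ZMod d) k) - Matrix.of fun i j : ZMod d =>
      if j = i + ((e * g : ℤ) : ZMod d) then x i.val else 0).submatrix φ φ =
      Matrix.blockDiagonal fun i : Fin g => y • (1 : Matrix (ZMod f) (ZMod f) k) -
        Matrix.of fun s t : ZMod f => if t = s + u then x (i + s.val * g) else 0 := by
    ext ⟨s, i⟩ ⟨t, j⟩
    simp only [Matrix.submatrix_apply, Matrix.sub_apply, Matrix.smul_apply, Matrix.of_apply, hadd,
      Matrix.blockDiagonal_apply, Matrix.one_apply, EmbeddingLike.apply_eq_iff_eq, Prod.mk.injEq]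
    rw [hφ, ZMod.val_cast_of_lt (hlt _)]
    by_cases hij : i = j
    · simp [hij]
    · simp [hij, Ne.symm hij]
  rw [key, Matrix.det_blockDiagonal]
  refine prod_congr rfl fun i _ => ?_
  rw [det_unit, prod_val f fun t => x (i + t * g)]

variable {A : Type} [CommGroup A] {Δ : Dat A}

theorem Dt_mul {r r' : ℕ} (H : Matrix (Fin r) (Fin r) (ℤ →₀ MonoidAlgebra ℤ A))
    (H' : Matrix (Fin r') (Fin r') (ℤ →₀ MonoidAlgebra ℤ A)) :
    (Dt H * Dt H' : Pt Δ k → k) =
      Dt ((Matrix.fromBlocks H 0 0 H').submatrix finSumFinEquiv.symm finSumFinEquiv.symm) := by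
  funext P
  rw [Pi.mul_apply, Dt, Dt, Dt, ← Matrix.det_fromBlocks_zero₂₁ _ 0,
    ← Matrix.det_submatrix_equiv_self ((Equiv.sumProdDistrib _ _ _).symm.trans
      (finSumFinEquiv.prodCongr (Equiv.refl (ZMod P.d))))]
  congr 1
  ext (⟨a, i⟩ | ⟨a, i⟩) (⟨b, j⟩ | ⟨b, j⟩) <;> simp [rho, rhoG_zero]

theorem mul_mem_J {f g : Pt Δ k → k} (hf : f ∈ J Δ k) (hg : g ∈ J Δ k) : f * g ∈ J Δ k := by
  induction hf, hg using AddSubgroup.closure_induction₂ with
  | mem _ _ hx hy =>
    obtain ⟨r, H, rfl⟩ := hx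
    obtain ⟨r', H', rfl⟩ := hy
    rw [Dt_mul]
    exact Dt_mem _
  | zero_left => rw [zero_mul]; exact zero_mem _
  | zero_right => rw [mul_zero]; exact zero_mem _
  | add_left _ _ _ _ _ _ h h' => rw [add_mul]; exact add_mem h h'
  | add_right _ _ _ _ _ _ h h' => rw [mul_add]; exact add_mem h h'
  | neg_left _ _ _ _ h => rw [neg_mul]; exact neg_mem h
  | neg_right _ _ _ _ h => rw [mul_neg]; exact neg_mem h

theorem det_mem (y : ℤ →₀ MonoidAlgebra ℤ A) : (fun P : Pt Δ k => (rho P y).det) ∈ J Δ k := by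
  convert Dt_mem (Δ := Δ) (k := k) (Matrix.of fun _ _ : Fin 1 => y) using 1
  funext P
  rw [Dt, ← Matrix.det_submatrix_equiv_self (Equiv.uniqueProd (ZMod P.d) (Fin 1))]
  rfl

theorem shift_mem (hD : DET_st) (e : ℤ) : (fun P : Pt Δ k =>
    (-1 : k) ^ Int.gcd P.d e * ((P.ω ^ (e * P.d) : kˣ) : k)) ∈ J Δ k := by
  convert det_mem (Δ := Δ) (k := k) (Finsupp.single e (-1)) using 1
  funext P
  have h := hD k P.d e (fun _ => ((P.ω ^ e : kˣ) : k)) 0 fun _ => rfl
  have hg : Int.gcd P.d e ∣ P.d := Int.natCast_dvd_natCast.1 (Int.gcd_dvd_left ..)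
  have h0 : P.d / Int.gcd P.d e ≠ 0 :=
    (Nat.div_pos (Nat.le_of_dvd P.d_pos hg) (Nat.pos_of_dvd_of_pos hg P.d_pos)).ne'
  rw [zero_pow h0, prod_const, prod_const, card_range, card_range, zero_sub, neg_pow, ← pow_mul,
    Nat.div_mul_cancel hg] at h
  rw [zpow_mul, zpow_natCast, Units.val_pow_eq_pow_val, ← h]
  congr 1
  ext i j
  rw [rho_single]
  split_ifs with hij <;> simp [hij]

end DetX

theorem det : DET_st := by
  intro k _ d _ e x y _
  obtain ⟨m, e', h1, h2, h3⟩ := Int.exists_gcd_one (m := d) (n := e)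
    (Int.gcd_pos_of_ne_zero_left _ (Int.natCast_ne_zero.2 (NeZero.ne d)))
  have hg : Int.gcd d e ∣ d := Int.natCast_dvd_natCast.1 (Int.gcd_dvd_left ..)
  have hm : ((d / Int.gcd d e : ℕ) : ℤ) = m := by
    refine mul_right_cancel₀ (b := (Int.gcd d e : ℤ))
      (Int.natCast_ne_zero.2 (Nat.pos_of_dvd_of_pos hg (NeZero.pos d)).ne') ?_
    rw [← h2, ← Nat.cast_mul, Nat.div_mul_cancel hg]
  have h := DetX.det_gen d _ _ (Nat.div_mul_cancel hg) e'
    (hm ▸ Int.isCoprime_iff_gcd_eq_one.2 h1) x y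
  rwa [← h3] at h

theorem ring (hD : DET_st) : RING_st := by
  intro A _ Δ k _
  have h1 : (1 : Pt Δ k → k) ∈ J Δ k := by
    convert Dt_mem (Δ := Δ) (k := k) (0 : Matrix (Fin 0) (Fin 0) _) using 1
    exact funext fun P => Matrix.det_isEmpty.symm
  have h5 : ∀ n : ℤ, (fun P : Pt Δ k => ((P.ω ^ (n * P.d) : kˣ) : k)) ∈ J Δ k := fun n => by
    induction n using Int.induction_on with
    | zero =>
      convert h1 using 1
      funext P
      simp
    | succ n ih =>
      convert DetX.mul_mem_J ih (neg_mem (DetX.shift_mem hD 1)) using 1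
      funext P
      simp [add_mul, zpow_add]
    | pred n ih =>
      convert DetX.mul_mem_J ih (neg_mem (DetX.shift_mem hD (-1))) using 1
      funext P
      simp [sub_mul, zpow_sub]
  refine ⟨h1, fun f hf g hg => DetX.mul_mem_J hf hg, DetX.det_mem, fun n => ?_, h5, fun e => ?_⟩
  · convert DetX.det_mem (Δ := Δ) (k := k) (Finsupp.single 0 (MonoidAlgebra.single 1 n)) using 1
    funext P
    have : rho P (Finsupp.single 0 (MonoidAlgebra.single 1 n)) = (n : k) • 1 := by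
      ext i j
      simp [rho_single, lam_single, Matrix.one_apply, eq_comm]
    rw [this, Matrix.det_smul, Matrix.det_one, ZMod.card, mul_one]
  · convert DetX.mul_mem_J (DetX.shift_mem hD e) (h5 (-e)) using 1
    funext P
    rw [Pi.mul_apply, mul_assoc, ← Units.val_mul, ← zpow_add]
    simp

end Pool.Agent.MP_f3cd89_nt

end

section

set_option autoImplicit false
set_option linter.unusedSectionVars false

open Finset NumberField IsDedekindDomain Filter Topology

namespace Pool.Agent.MP_f3cd89_nt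

namespace LevaX

theorem hasProd_under {K E : Type} [Field K] [NumberField K] [Field E] [NumberField E]
    [Algebra K E] (S : Finset (Pr K)) (F : Pr E → ℂ) {L : ℂ}
    (h : HasProd (fun w : {w : Pr E // w ∉ above E S} => F w.1) L) :
    HasProd (fun v : {v : Pr K // v ∉ S} => ∏ w ∈ above E {v.1}, F w) L := by
  let q : {w : Pr E // w ∉ above E S} → {v : Pr K // v ∉ S} := fun w =>
    ⟨w.1.under (𝓞 K), fun e => w.2 (mem_above.2 e)⟩
  refine HasProd.sigma ((Equiv.sigmaFiberEquiv q).hasProd_iff.2 h) fun v => ?_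
  let e : {w // q w = v} ≃ (above E {v.1} : Finset (Pr E)) :=
    { toFun := fun w => ⟨w.1.1, mem_above.2 (mem_singleton.2 (congrArg Subtype.val w.2))⟩
      invFun := fun w => ⟨⟨w.1, fun e => v.2 (mem_singleton.1 (mem_above.1 w.2) ▸ mem_above.1 e)⟩,
        Subtype.ext (mem_singleton.1 (mem_above.1 w.2))⟩
      left_inv := fun _ => rfl
      right_inv := fun _ => rfl }
  exact e.hasProd_iff.2 ((above E {v.1}).hasProd F)

variable {A : Type} [CommGroup A] {Δ : Dat A} {G : Type} [Group G] (π : Pres Δ G) (P : Pt Δ ℂ)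

theorem psi_conj (hR : REP_st) {u g : G} (hu : u ∈ π.U P.d) (h : u * g * u⁻¹ ∈ π.U P.d) :
    psi π P (u * g * u⁻¹) = psi π P g := by
  have hm := ((hR A Δ G π).2.2.2.2 ℂ P).2.2.2.2.2.2
  have hg : g ∈ π.U P.d := by
    simpa [mul_assoc] using mul_mem (mul_mem (inv_mem hu) h) hu
  have h1 := hm _ h u hu
  rw [inv_mul_cancel_right, hm u hu g hg, mul_comm] at h1
  exact (mul_right_cancel h1).symm

theorem rep_pow (hR : REP_st) (g : G) (n : ℕ) : rep π P (g ^ n) = rep π P g ^ n := by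
  obtain ⟨-, h1, hm, -⟩ := (hR A Δ G π).2.2.2.2 ℂ P
  induction n with
  | zero => simpa using h1
  | succ n ih => rw [pow_succ, pow_succ, hm, ih]

theorem det_ne {n : Type} [Fintype n] [DecidableEq n] {R : Matrix n n ℂ} {o : ℕ} (ho : o ≠ 0)
    (h : R ^ o = 1) {z : ℂ} (hz : ‖z‖ ≠ 1) : (1 - z • R).det ≠ 0 := fun e => by
  have h1 := congrArg Matrix.det (mul_neg_geom_sum (z • R) o)
  have h2 : (1 : Matrix n n ℂ) - z ^ o • 1 = (1 - z ^ o) • 1 := by rw [sub_smul, one_smul]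
  rw [Matrix.det_mul, e, zero_mul, smul_pow, h, h2, Matrix.det_smul, Matrix.det_one, mul_one] at h1
  have h3 : z ^ o = 1 := (sub_eq_zero.1 (pow_eq_zero_iff'.1 h1.symm).1).symm
  exact hz ((pow_eq_one_iff_of_nonneg (norm_nonneg z) ho).1 (by rw [← norm_pow, h3, norm_one]))

theorem det_tw (hR : REP_st) (g : G) (z : ℂ) :
    (1 - z • rep π P.tw g).det = (1 - z • rep π P g).det := by
  obtain ⟨-, h1, hm, ht, -⟩ := (hR A Δ G π).2.2.2.2 ℂ P
  have e : rep π P π.X⁻¹ * rep π P π.X = 1 := by rw [← hm, inv_mul_cancel, h1]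
  have e' : rep π P π.X * rep π P π.X⁻¹ = 1 := by rw [← hm, mul_inv_cancel, h1]
  have h2 : (1 - z • rep π P (π.X * g * π.X⁻¹)) =
      rep π P π.X * (1 - z • rep π P g) * rep π P π.X⁻¹ := by
    rw [hm, hm, mul_sub, sub_mul, mul_one, e', mul_smul_comm, smul_mul_assoc]
  have h3 : (1 - z • rep π P (π.X * g * π.X⁻¹)).det = (1 - z • rep π P g).det := by
    rw [h2, Matrix.det_mul_comm, ← mul_assoc, e, one_mul]
  rw [ht]
  exact h3

theorem half : {s : ℂ | 1 < s.re} ∈ 𝓝 (2 : ℂ) :=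
  (isOpen_lt continuous_const Complex.continuous_re).mem_nhds (by simp)

theorem norm_ne {N : ℕ} (hN : 2 ≤ N) {s : ℂ} (hs : s.re ≠ 1) : ‖(N : ℂ) ^ (1 - s)‖ ≠ 1 := by
  have h1 : (1 : ℝ) < N := by exact_mod_cast hN
  rw [Complex.norm_natCast_cpow_of_pos (by omega), Complex.sub_re, Complex.one_re]
  rcases hs.lt_or_gt with h | h
  · exact (Real.one_lt_rpow h1 (by linarith)).ne'
  · exact (Real.rpow_lt_one_of_one_lt_of_neg h1 (by linarith)).ne

end LevaX

open LevaX in
theorem leva (hD : DICT_st) (hR : REP_st) (hE : REPE_st) : LEVA_st := by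
  classical
  intro K E L G _ _ _ _ _ _ _ _ _ _ _ _ _ _ A _ Δ π d _ S φ φE v₀ P f hd hU hφ hφE hv₀ hf
  subst hd
  obtain ⟨-, h2, h3, h4, -⟩ := hR A Δ G π
  have hι : ∀ a, π.ι a ∈ π.U P.d := fun a => Subgroup.mem_sup_left ⟨a, rfl⟩
  have loc : ∀ v, v ∉ S → (above E {v}).card = Int.gcd P.d (π.pe (φ v)) ∧ ∀ z : ℂ,
      ∏ w ∈ above E {v}, (1 - (((psi π P (φE w))⁻¹ : ℂˣ) : ℂ) * (nrm w : ℂ) ^ z) =
        (1 - ((nrm v : ℂ) ^ z) • rep π P (φ v)⁻¹).det := by
    intro v hv
    obtain ⟨w, hi, ha, hw⟩ := (hD K E L G (π.U P.d) (π.U P.d).subtype S φE (fun _ _ => rfl) hU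
      hφE).2 π.X P.d φ P.d_pos (by rw [Subgroup.range_subtype]; exact h3 _)
      (fun g => ⟨⟨_, hι _⟩, _, π.eq_pa g⟩)
      (fun e => by rw [Subgroup.range_subtype, ← h4 _ P.d_dvd 1 e, map_one, one_mul])
      hφ v hv ⟨_, hι _⟩ _ (π.eq_pa _)
    refine ⟨?_, fun z => ?_⟩
    · rw [ha]
      convert (card_image_of_injOn hi).trans (card_range _)
    · rw [(hE A Δ G π ℂ P).1, ha]
      refine Eq.trans (by convert prod_image hi) (prod_congr rfl fun t _ => ?_)
      obtain ⟨h5, u, h6⟩ := hw t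
      have h7 : psi π P (φE (w t)) = _ :=
        (congrArg (psi π P) h6).trans (psi_conj π P hR u.2 (h6 ▸ (φE (w t)).2))
      rw [h7, h5, mul_comm, Nat.cast_pow, ← Complex.natCast_cpow_natCast_mul,
        Complex.cpow_nat_mul]
  refine ⟨hf.1, fun s hs => ?_⟩
  obtain ⟨Lv, h5, h6⟩ := hf.2 s hs
  refine ⟨Lv, ?_, ?_⟩
  · convert hasProd_under S
      (fun w => (1 - (((psi π P (φE w))⁻¹ : ℂˣ) : ℂ) * (nrm w : ℂ) ^ (-s))⁻¹) h5 using 2 with v
    rw [prod_inv_distrib, (loc v.1 v.2).2]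
  · rw [h6, ← (loc v₀ hv₀).1, ← (loc v₀ hv₀).2, ← prod_neg]
    simp only [neg_sub]

open LevaX in
theorem lval (hR : REP_st) : LVAL_st := by
  intro K G _ _ _ S φ
  refine ⟨?_, fun A _ Δ π v₀ P f hf => ⟨fun f' hf' => ?_, ⟨hf.1, fun s hs => ?_⟩, ?_⟩⟩
  · rintro n _ _ ρ _ _ ⟨f, m, a, rfl, h⟩ ⟨f', m', a', rfl, h'⟩
    have h2 : meromorphicOrderAt (f - f') 2 = ⊤ :=
      meromorphicOrderAt_eq_top_iff.2 (eventually_nhdsWithin_of_eventually_nhds
        (mem_of_superset half fun s hs => sub_eq_zero.2 ((h s hs).unique (h' s hs))))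
    have h0 : meromorphicOrderAt (f - f') 0 = ⊤ := by
      by_contra e
      exact (m.sub m').meromorphicOrderAt_ne_top_of_isPreconnected isPreconnected_univ
        (Set.mem_univ 0) (Set.mem_univ 2) e h2
    exact tendsto_nhds_unique_of_eventuallyEq (l := 𝓝[≠] (0 : ℂ))
      (a.continuousAt.tendsto.mono_left nhdsWithin_le_nhds)
      (a'.continuousAt.tendsto.mono_left nhdsWithin_le_nhds)
      ((meromorphicOrderAt_eq_top_iff.1 h0).mono fun s hs => sub_eq_zero.1 hs)
  · refine AnalyticOnNhd.eq_of_eventuallyEq (z₀ := 2)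
      (hf'.1.differentiableOn.analyticOnNhd isOpen_univ)
      (hf.1.differentiableOn.analyticOnNhd isOpen_univ) (mem_of_superset half fun s hs => ?_)
    obtain ⟨L, h1, h2⟩ := hf.2 s hs
    obtain ⟨L', h1', h2'⟩ := hf'.2 s hs
    exact h2'.trans (by rw [h1'.unique h1, ← h2])
  · simp only [det_tw π P hR]
    exact hf.2 s hs
  · let den : ℂ → ℂ := fun s => (-1) ^ Int.gcd P.d (π.pe (φ v₀)) *
      (1 - ((nrm v₀ : ℂ) ^ (1 - s)) • rep π P (φ v₀)⁻¹).det
    have hN := two_le_nrm v₀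
    have hd : Differentiable ℂ den := by
      have h1 : Differentiable ℂ fun z : ℂ => (1 - z • rep π P (φ v₀)⁻¹).det := by
        simp only [Matrix.det_apply', Matrix.sub_apply, Matrix.smul_apply, smul_eq_mul]
        fun_prop
      exact (h1.comp (Differentiable.const_cpow (by fun_prop)
        (Or.inl (Nat.cast_ne_zero.2 (by omega))))).const_mul _
    have h0 : ∀ s : ℂ, s.re ≠ 1 → den s ≠ 0 := fun s hs =>
      mul_ne_zero (pow_ne_zero _ (by simp)) (det_ne (orderOf_pos (φ v₀)⁻¹).ne' (by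
        rw [← rep_pow π P hR, pow_orderOf_eq_one]
        exact ((hR A Δ G π).2.2.2.2 ℂ P).2.1) (norm_ne hN hs))
    have h00 := h0 0 (by simp)
    refine ⟨f 0 / den 0, ⟨fun s => f s / den s, fun s _ => ?_, ?_, rfl, fun s hs => ?_⟩, ?_⟩
    · exact (hf.1.analyticAt s).meromorphicAt.div (hd.analyticAt s).meromorphicAt
    · exact (hf.1.analyticAt 0).div (hd.analyticAt 0) h00
    · obtain ⟨L, h1, h2⟩ := hf.2 s hs
      have h3 : f s / den s = L := by
        rw [h2]
        exact mul_div_cancel_left₀ _ (h0 s hs.ne')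
      simp only [h3]
      convert h1 using 3 with v
      rw [← Matrix.det_transpose]
      simp
    · refine (mul_div_cancel₀ (f 0) h00).symm.trans ?_
      congr 1
      simp [den]

end Pool.Agent.MP_f3cd89_nt

end

section

set_option autoImplicit false

namespace Pool.Agent.MP_f3cd89_nt

theorem wv' : WV_st := wv orb base
theorem jb' : JB_st := jb orb base wv'
theorem ring' : RING_st := ring det
theorem bring' : BRING_st := bring base
theorem c1' : C1_st := c1 (c1a sw (sep base jb' res test dec) base ring') base bring' jb'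
theorem bj' : BJ_st :=
  bj (bjp c1' (tri det orb base ring') (gauss base wv') wv' jb' ring' bring' base ker) base
theorem nta' : NTA_st := nta ntb ntc
theorem scg' : SCG_st := scg (sh (cell geo bary) ana) nta' ntb ntc (char ntc)
theorem eul' : EUL_st := eul ntc (char ntc)
theorem sca' : SCA_st := sca scg' eul' ntb
theorem scb' : SCB_st := scb scg' eul' ntb (fix ntc)
theorem tow' : TOW_st := tow fb
theorem dens' : DENS_st := dens fb tow' ntc
theorem cyc' : CYC_st := cyc nta' ntb ntc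
theorem core' : CORE_st :=
  core (fi herb (unith qlem) vlat fb tow' ntb) (xl fb tow' dens' (si sca' ntb ntc dens') cyc' ntb)
    lang (cyclo fb) ntb
/-- the Artin reciprocity law for CM and totally real extensions of a totally real field -/
theorem ar' : AR_st := ar core' (cyclo fb) cyc' tow' ntb
theorem dict' : DICT_st := dict fb tow'
theorem leva' : LEVA_st := leva dict' rep1 (repe det rep1)
theorem arith' : ARITH_st :=
  arith (levb ar' sca' leva' (fld tow' rep1) fb tow' rep1 ntc)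
    (levc ar' sca' scb' leva' (fld tow' rep1) dict' fb tow' rep1 (repe det rep1) ntc)
    (lval rep1) (dwork base) (invd bring' ring' jb') bj' jb' ring' bring' (prime_ex fb dens') fb ntc
    rep1
theorem final' : FINAL_st := final pres (cliff rep1) rep1 arith' (lval rep1) fb

end Pool.Agent.MP_f3cd89_nt

end
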